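import Pool.Agent.Lib.MP_732f67_ag.KM.FFin

/-! KM, atlas over one field, file 1: finiteness of integral closures over a perfect field.

`n2`: `P` is a finitely generated `K`-algebra, `R` integral over `P`, both in the finitely generated
field extension `L` of the perfect field `K`.  Noether normalisation: `P` is finite over a polynomial
ring `S = K[y]`.  All elements of `R` are integral over `S`, and the field `F` generated by `R` is
algebraic over `K(y)` and a subfield of a finitely generated extension, so finite over `K(y)`
(or: take for `F` the algebraic closure of `K(y)` in `L`, finite over `K(y)` because `L / K(y)` is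
finitely generated).  Characteristic `0`: `F / K(y)` is separable, `IsIntegralClosure.isNoetherian` or
`.finite`.  Characteristic `p`: there is `q = p ^ N` such that all `z ^ q`, `z ∈ F`, are separable
over `K(y)` (`F / K(y)` finite).  The integral closure `O_s` of `S` in the separable closure `F_s` of
`K(y)` in `F` is finite over `S`, and `S` is finite over `S ^ q = K[y ^ q]` (`K` perfect), so `O_s` is a
noetherian `S ^ q`-module; `{z ^ q | z ∈ F integral over S}` is an `S ^ q`-submodule of `O_s`, so
finitely generated; extract `q`-th roots (Frobenius is injective). -/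

namespace KM


open scoped IntermediateField.algebraAdjoinAdjoin in
/-- the algebraic part of a finitely generated field extension is finite -/
theorem n2_fin {E L : Type*} [Field E] [Field L] [Algebra E L] [Algebra.EssFiniteType E L]
    (F : IntermediateField E L) [Algebra.IsAlgebraic E F] : FiniteDimensional E F := by
  classical
  obtain ⟨s, hs⟩ := IntermediateField.exists_finset_maximalFor_isTranscendenceBasis_separableClosure
    (F := E) (E := L)
  have ht : IsTranscendenceBasis E ((↑) : s → L) := hs.1
  have hx : AlgebraicIndependent F ((↑) : s → L) := ht.1.extendScalars F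
  have halg : Algebra.IsAlgebraic (IntermediateField.adjoin E (s : Set L)) L := by
    have := ht.isAlgebraic_field
    convert! this <;> simp
  have hess : Algebra.EssFiniteType (IntermediateField.adjoin E (s : Set L)) L :=
    Algebra.EssFiniteType.of_comp E _ L
  have hfin : Module.Finite (IntermediateField.adjoin E (s : Set L)) L :=
    Algebra.finite_of_essFiniteType_of_isAlgebraic
  have key : ∀ t : Finset F, LinearIndependent E (fun i : t => (i : F)) →
      LinearIndependent (IntermediateField.adjoin E (s : Set L)) (fun i : t => ((i : F) : L)) := by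
    intro t ht
    rw [← LinearIndependent.iff_fractionRing (Algebra.adjoin E (s : Set L))
      (IntermediateField.adjoin E (s : Set L)), Fintype.linearIndependent_iff]
    intro g hg i
    have hp : ∀ i, ∃ p : MvPolynomial s E, MvPolynomial.aeval ((↑) : s → L) p = (g i : L) := by
      intro i
      have h2 : (s : Set L) = Set.range ((↑) : s → L) := by simp
      have h1 : ∀ y : L, y ∈ Algebra.adjoin E (s : Set L) →
          ∃ p : MvPolynomial s E, MvPolynomial.aeval ((↑) : s → L) p = y := by
        intro y hy
        rw [h2, Algebra.adjoin_range_eq_range_aeval] at hy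
        exact hy
      exact h1 _ (g i).2
    choose p hp using hp
    have h1 : (∑ i : t, MvPolynomial.C (i : F) *
        MvPolynomial.map (algebraMap E F) (p i) : MvPolynomial s F) = 0 := by
      apply hx
      rw [map_zero, map_sum, ← hg]
      refine Finset.sum_congr rfl fun i _ => ?_
      rw [map_mul, MvPolynomial.aeval_C, MvPolynomial.aeval_map_algebraMap, hp, mul_comm]
      rfl
    rw [Fintype.linearIndependent_iff] at ht
    have h2 : ∀ m : s →₀ ℕ, (p i).coeff m = 0 := by
      intro m
      refine ht (fun i => (p i).coeff m) ?_ i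
      have h3 := congrArg (MvPolynomial.coeff m) h1
      rw [MvPolynomial.coeff_sum, MvPolynomial.coeff_zero] at h3
      rw [← h3]
      refine Finset.sum_congr rfl fun i _ => ?_
      rw [MvPolynomial.coeff_C_mul, MvPolynomial.coeff_map, Algebra.smul_def, mul_comm]
    have h3 : p i = 0 := MvPolynomial.ext _ _ fun m => by rw [h2 m, MvPolynomial.coeff_zero]
    apply Subtype.ext
    rw [← hp i, h3, map_zero]
    rfl
  have hrank : Module.rank E F ≤ Module.finrank (IntermediateField.adjoin E (s : Set L)) L := by
    refine rank_le fun t ht => ?_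
    have h1 := (key t ht).fintype_card_le_finrank
    rwa [Fintype.card_coe] at h1
  exact Module.rank_lt_aleph0_iff.1 (hrank.trans_lt (Cardinal.natCast_lt_aleph0))

/-- the Frobenius of a polynomial ring over a perfect field is finite -/
theorem n2_frob {K : Type*} [Field K] [PerfectField K] (q : ℕ) [ExpChar K q] (n N : ℕ)
    [ExpChar (MvPolynomial (Fin n) K) q] :
    (iterateFrobenius (MvPolynomial (Fin n) K) q N).Finite := by
  have : PerfectRing K q := PerfectField.toPerfectRing q
  rw [RingHom.finite_iff_isIntegral_and_finiteType]
  constructor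
  · intro x
    refine ⟨Polynomial.X ^ q ^ N - Polynomial.C x, Polynomial.monic_X_pow_sub_C x
      (expChar_pow_pos K q N).ne', ?_⟩
    rw [Polynomial.eval₂_sub, Polynomial.eval₂_pow, Polynomial.eval₂_X, Polynomial.eval₂_C,
      iterateFrobenius_def, sub_self]
  · refine RingHom.FiniteType.of_comp_finiteType (f := algebraMap K (MvPolynomial (Fin n) K)) ?_
    have h1 : (iterateFrobenius (MvPolynomial (Fin n) K) q N).comp
        (algebraMap K (MvPolynomial (Fin n) K)) =
        (algebraMap K (MvPolynomial (Fin n) K)).comp (iterateFrobenius K q N) := by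
      ext x
      rw [RingHom.comp_apply, RingHom.comp_apply, iterateFrobenius_def, iterateFrobenius_def,
        map_pow]
    rw [h1]
    refine RingHom.FiniteType.comp ?_ ?_
    · exact RingHom.finiteType_algebraMap.2 inferInstance
    · exact RingHom.FiniteType.of_surjective _ (bijective_iterateFrobenius K q N).2


/-- the integral closure in a finite extension, if the Frobenius is finite -/
theorem n2_core {S E F : Type*} [CommRing S] [IsDomain S] [IsIntegrallyClosed S]
    [IsNoetherianRing S] [Field E] [Algebra S E] [IsFractionRing S E] [Field F] [Algebra E F]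
    [FiniteDimensional E F] [Algebra S F] [IsScalarTower S E F] (q : ℕ) [ExpChar S q]
    (hfr : ∀ N, (iterateFrobenius S q N).Finite) :
    Module.Finite S (integralClosure S F) := by
  classical
  have hSE : Function.Injective (algebraMap S E) := IsFractionRing.injective S E
  have hSF : Function.Injective (algebraMap S F) := by
    rw [IsScalarTower.algebraMap_eq S E F]
    exact (algebraMap E F).injective.comp hSE
  have hE : ExpChar E q := expChar_of_injective_ringHom hSE q
  let Fs := separableClosure E F
  have hFs : ExpChar Fs q := expChar_of_injective_ringHom (algebraMap E Fs).injective q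
  have htow : IsScalarTower S Fs F := IsScalarTower.of_algebraMap_eq fun x => rfl
  let N := IsPurelyInseparable.exponent Fs F
  let π : F →+* Fs := IsPurelyInseparable.iterateFrobenius Fs F q (le_refl N)
  have hπ : ∀ x : F, algebraMap Fs F (π x) = x ^ q ^ N := fun x =>
    IsPurelyInseparable.algebraMap_iterateFrobenius Fs q (le_refl N) x
  have hnoeth : IsNoetherian S (integralClosure S Fs) :=
    IsIntegralClosure.isNoetherian S E Fs (integralClosure S Fs)
  -- the subring of powers
  let S₀ : Subring S := (iterateFrobenius S q N).range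
  have hS₀n : IsNoetherianRing S₀ := isNoetherianRing_range _
  have hS₀ : Module.Finite S₀ S := by
    have h1 : (S₀.subtype.comp (iterateFrobenius S q N).rangeRestrict).Finite := hfr N
    exact RingHom.Finite.of_comp_finite h1
  have hfin : Module.Finite S₀ (integralClosure S Fs) := Module.Finite.trans S _
  have hnoeth₀ : IsNoetherian S₀ (integralClosure S Fs) := inferInstance
  -- powers of integral elements
  have hint : ∀ x : integralClosure S F, IsIntegral S (π x) := by
    intro x
    have h1 : IsIntegral S ((x : F) ^ q ^ N) := x.2.pow _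
    rw [← hπ] at h1
    exact (isIntegral_algebraMap_iff (algebraMap Fs F).injective).1 h1
  let ρ : integralClosure S F → integralClosure S Fs := fun x => ⟨π x, hint x⟩
  have hρ_add : ∀ x y, ρ (x + y) = ρ x + ρ y := fun x y => Subtype.ext (map_add π _ _)
  have hρ_zero : ρ 0 = 0 := Subtype.ext (map_zero π)
  have hρ_inj : Function.Injective ρ := by
    intro x y hxy
    exact Subtype.ext (π.injective (congrArg Subtype.val hxy))
  have hρ_smul : ∀ (s : S) (x : integralClosure S F),
      ρ (s • x) = (⟨iterateFrobenius S q N s, s, rfl⟩ : S₀) • ρ x := by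
    intro s x
    apply Subtype.ext
    apply (algebraMap Fs F).injective
    change algebraMap Fs F (π (s • (x : F))) =
      algebraMap Fs F ((iterateFrobenius S q N s) • (π x))
    rw [hπ, iterateFrobenius_def, Algebra.smul_def, Algebra.smul_def, map_mul, hπ, mul_pow,
      map_pow, map_pow, ← IsScalarTower.algebraMap_apply]
  let T : Submodule S₀ (integralClosure S Fs) :=
    { carrier := Set.range ρ
      add_mem' := by
        rintro _ _ ⟨x, rfl⟩ ⟨y, rfl⟩
        exact ⟨x + y, hρ_add x y⟩
      zero_mem' := ⟨0, hρ_zero⟩
      smul_mem' := by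
        rintro ⟨_, s, rfl⟩ _ ⟨x, rfl⟩
        exact ⟨s • x, hρ_smul s x⟩ }
  obtain ⟨t, ht⟩ := IsNoetherian.noetherian T
  have hpre : ∀ y, ∃ x : integralClosure S F, y ∈ T → ρ x = y := by
    intro y
    by_cases hy : y ∈ T
    · obtain ⟨x, hx⟩ := hy
      exact ⟨x, fun _ => hx⟩
    · exact ⟨0, fun h => absurd h hy⟩
  choose w hw using hpre
  refine ⟨t.image w, ?_⟩
  rw [eq_top_iff]
  rintro x -
  have hx : ρ x ∈ Submodule.span S₀ (t : Set (integralClosure S Fs)) := by
    rw [ht]
    exact ⟨x, rfl⟩
  have key : ∀ y ∈ Submodule.span S₀ (t : Set (integralClosure S Fs)),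
      ∃ z ∈ Submodule.span S ((t.image w : Finset _) : Set (integralClosure S F)), ρ z = y := by
    intro y hy
    induction hy using Submodule.span_induction with
    | mem y hy =>
      refine ⟨w y, Submodule.subset_span ?_, hw y ?_⟩
      · rw [Finset.coe_image]
        exact ⟨y, hy, rfl⟩
      · rw [← ht]
        exact Submodule.subset_span hy
    | zero => exact ⟨0, Submodule.zero_mem _, hρ_zero⟩
    | add y y' _ _ h1 h2 =>
      obtain ⟨z, hz, rfl⟩ := h1
      obtain ⟨z', hz', rfl⟩ := h2
      exact ⟨z + z', Submodule.add_mem _ hz hz', hρ_add z z'⟩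
    | smul c y _ h1 =>
      obtain ⟨_, s, rfl⟩ := c
      obtain ⟨z, hz, rfl⟩ := h1
      exact ⟨s • z, Submodule.smul_mem _ _ hz, hρ_smul s z⟩
  obtain ⟨z, hz, hzx⟩ := key _ hx
  rwa [← hρ_inj hzx]

/-- finiteness of integral closures -/
theorem n2 {L : Type*} [Field L] {K : Subfield L} [PerfectField K] (hFG : FG K)
    (P R : Subring L) (hP : ∃ s : Finset L, P = Subring.closure ((K : Set L) ∪ s)) (hPR : P ≤ R)
    (hint : ∀ x ∈ R, IsIntegral P x) :
    ∃ s : Finset L, (s : Set L) ⊆ R ∧ ∀ x ∈ R, x ∈ Submodule.span P (s : Set L) := by
  classical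
  obtain ⟨s, hs⟩ := hP
  obtain ⟨t₀, ht₀⟩ := hFG
  -- the extension is finitely generated
  have hess : Algebra.EssFiniteType K L := by
    rw [← IntermediateField.fg_top_iff]
    refine ⟨t₀, ?_⟩
    rw [eq_top_iff]
    intro x _
    have h1 : Subfield.closure ((K : Set L) ∪ t₀) ≤
        (IntermediateField.adjoin K (t₀ : Set L)).toSubfield := by
      rw [Subfield.closure_le]
      rintro y (hy | hy)
      · exact (IntermediateField.adjoin K (t₀ : Set L)).algebraMap_mem ⟨y, hy⟩
      · exact IntermediateField.subset_adjoin K _ hy
    rw [ht₀] at h1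
    exact h1 trivial
  -- the subalgebra
  let P' : Subalgebra K L := Algebra.adjoin K (s : Set L)
  have hPP : P = P'.toSubring := by
    rw [hs, Algebra.adjoin_eq_ring_closure]
    congr 2
    ext x
    constructor
    · intro hx
      exact ⟨⟨x, hx⟩, rfl⟩
    · rintro ⟨y, rfl⟩
      exact y.2
  have hmemP : ∀ x : L, x ∈ P ↔ x ∈ P' := fun x => by rw [hPP]; exact Iff.rfl
  let e : P ≃+* P' :=
    { toFun := fun x => ⟨x, (hmemP x).1 x.2⟩
      invFun := fun x => ⟨x, (hmemP x).2 x.2⟩
      left_inv := fun _ => rfl
      right_inv := fun _ => rfl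
      map_mul' := fun _ _ => rfl
      map_add' := fun _ _ => rfl }
  have hft : Algebra.FiniteType K P' := Algebra.FiniteType.adjoin_of_finite s.finite_toSet
  have hP'n : IsNoetherianRing P' := Algebra.FiniteType.isNoetherianRing K P'
  have hPn : IsNoetherianRing P := isNoetherianRing_of_ringEquiv P' e.symm
  obtain ⟨n, g, hg, hgi⟩ := exists_integral_inj_algHom_of_fg K P'
  let _ : Algebra (MvPolynomial (Fin n) K) P' := g.toRingHom.toAlgebra
  let _ : Algebra (MvPolynomial (Fin n) K) L := ((algebraMap P' L).comp g.toRingHom).toAlgebra
  have htow1 : IsScalarTower (MvPolynomial (Fin n) K) P' L := IsScalarTower.of_algebraMap_eq' rfl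
  have htow2 : IsScalarTower K (MvPolynomial (Fin n) K) L :=
    IsScalarTower.of_algebraMap_eq fun x => by
      change (x : L) = ((g (algebraMap K (MvPolynomial (Fin n) K) x) : P') : L)
      rw [g.commutes]
      rfl
  have hinj : Function.Injective (algebraMap (MvPolynomial (Fin n) K) L) :=
    (Subtype.val_injective (p := fun x => x ∈ P')).comp hg
  have hfaith : FaithfulSMul (MvPolynomial (Fin n) K) L :=
    (faithfulSMul_iff_algebraMap_injective _ _).2 hinj
  let _ : Algebra (FractionRing (MvPolynomial (Fin n) K)) L :=
    FractionRing.liftAlgebra (MvPolynomial (Fin n) K) L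
  have htow3 : IsScalarTower (MvPolynomial (Fin n) K) (FractionRing (MvPolynomial (Fin n) K)) L :=
    FractionRing.isScalarTower_liftAlgebra _ _
  have htow4 : IsScalarTower K (FractionRing (MvPolynomial (Fin n) K)) L :=
    IsScalarTower.of_algebraMap_eq fun x => by
      rw [IsScalarTower.algebraMap_apply K (MvPolynomial (Fin n) K)
        (FractionRing (MvPolynomial (Fin n) K)), ← IsScalarTower.algebraMap_apply
        (MvPolynomial (Fin n) K) (FractionRing (MvPolynomial (Fin n) K)) L,
        ← IsScalarTower.algebraMap_apply K (MvPolynomial (Fin n) K) L]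
  have hess' : Algebra.EssFiniteType (FractionRing (MvPolynomial (Fin n) K)) L :=
    Algebra.EssFiniteType.of_comp K _ L
  let F := algebraicClosure (FractionRing (MvPolynomial (Fin n) K)) L
  have hFfin : FiniteDimensional (FractionRing (MvPolynomial (Fin n) K)) F := n2_fin F
  obtain ⟨q, hq⟩ := ExpChar.exists K
  have hqS : ExpChar (MvPolynomial (Fin n) K) q :=
    expChar_of_injective_ringHom (MvPolynomial.C_injective (Fin n) K) q
  have hfin : Module.Finite (MvPolynomial (Fin n) K) (integralClosure (MvPolynomial (Fin n) K) F) :=
    n2_core (E := FractionRing (MvPolynomial (Fin n) K)) q (fun N => n2_frob q n N)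
  have htow5 : IsScalarTower (MvPolynomial (Fin n) K) F L :=
    IsScalarTower.of_algebraMap_eq fun x => rfl
  obtain ⟨t, ht⟩ := hfin.fg_top
  -- the elements of `R`
  let T : Finset L := t.image
    (fun z : integralClosure (MvPolynomial (Fin n) K) F => ((z : F) : L))
  have hspan : ∀ z : integralClosure (MvPolynomial (Fin n) K) F,
      ((z : F) : L) ∈ Submodule.span P (T : Set L) := by
    intro z
    have hz : z ∈ Submodule.span (MvPolynomial (Fin n) K)
        (t : Set (integralClosure (MvPolynomial (Fin n) K) F)) := by
      rw [ht]
      trivial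
    induction hz using Submodule.span_induction with
    | mem y hy =>
      refine Submodule.subset_span ?_
      rw [Finset.coe_image]
      exact ⟨y, hy, rfl⟩
    | zero => exact Submodule.zero_mem _
    | add y y' _ _ h1 h2 => exact Submodule.add_mem _ h1 h2
    | smul c y _ h1 =>
      have h2 : (((c • y : integralClosure (MvPolynomial (Fin n) K) F) : F) : L) =
          (e.symm (g c)) • ((y : F) : L) := by
        have h3 : (((c • y : integralClosure (MvPolynomial (Fin n) K) F) : F) : L) =
            c • ((y : F) : L) := rfl
        rw [h3, Algebra.smul_def]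
        rfl
      rw [h2]
      exact Submodule.smul_mem _ _ h1
  have hR : ∀ x ∈ R, x ∈ Submodule.span P (T : Set L) := by
    intro x hx
    have h1 : IsIntegral P' x := by
      have h2 := hint x hx
      obtain ⟨p, hp, hpx⟩ := h2
      refine ⟨p.map e.toRingHom, hp.map _, ?_⟩
      rw [Polynomial.eval₂_map]
      exact hpx
    have hint' : Algebra.IsIntegral (MvPolynomial (Fin n) K) P' := ⟨hgi⟩
    have h3 : IsIntegral (MvPolynomial (Fin n) K) x := isIntegral_trans x h1
    have h4 : x ∈ F := by
      rw [mem_algebraicClosure_iff]
      exact (h3.tower_top (A := FractionRing (MvPolynomial (Fin n) K))).isAlgebraic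
    have h5 : IsIntegral (MvPolynomial (Fin n) K) (⟨x, h4⟩ : F) :=
      (isIntegral_algebraMap_iff (algebraMap F L).injective).1 h3
    exact hspan ⟨⟨x, h4⟩, h5⟩
  let W : Submodule P L :=
    { carrier := R
      add_mem' := R.add_mem
      zero_mem' := R.zero_mem
      smul_mem' := fun c x hx => R.mul_mem (hPR c.2) hx }
  have hWfg : W.FG := by
    have h1 : Module.Finite P (Submodule.span P (T : Set L)) := Module.Finite.iff_fg.2 ⟨T, rfl⟩
    have h2 : IsNoetherian P (Submodule.span P (T : Set L)) := inferInstance
    exact Submodule.FG.of_le ⟨T, rfl⟩ fun x hx => hR x hx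
  obtain ⟨w, hw⟩ := hWfg
  refine ⟨w, fun x hx => ?_, fun x hx => ?_⟩
  · have h1 : x ∈ W := by
      rw [← hw]
      exact Submodule.subset_span hx
    exact h1
  · rw [hw]
    exact hx

end KM
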