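import Pool.Agent.Lib.MP_732f67_ag.KM.AtDefs
import Pool.Agent.Lib.MP_732f67_ag.KM.AtN2

/-! KM, atlas over one field, file 6: the multigraded ring of sections is a finite module over the
algebra generated by the sections of `m D_j`.

Let `L' = FractionRing (MvPolynomial I L)`, `K'` the image of `K`, `R` the subring of `L'` generated
by (= the set of sums of) the `f * z ^ t`, `f ∈ V t`, `0 ≤ t`, and `P` the subring generated by `K'` and
the `s * z j ^ m`, `s ∈ W j`.  `FG K'` (generators of `L` and the `z j`), `PerfectField K'`.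
Every `f * z ^ t` is integral over `P`: let `O'` be a valuation ring of `L'` containing `P`, and
`O = O' ∩ L`; by `cover` there is `i` with `A i ⊆ O`; by `Gen` there is `s ∈ W j` with
`s * d i j ^ m` a unit of `A i`, so `(z j / d i j) ^ m = (s * z j ^ m) / (s * d i j ^ m) ∈ O'`, and
`z j / d i j ∈ O'`; `f * z ^ t = (f * eq i t) * ∏ (z j / d i j) ^ (t j) ∈ O'`.
(`iInf_valuationSubring_superset`.)  `n2`: `R` is a finite `P`-module; replace the generators by
their homogeneous components: finitely many `g z ^ u`, `g ∈ V u`; then compare the coefficients of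
`z ^ t` in `f * z ^ t = ∑ p * (g z ^ u)`, `p ∈ P`: the component of `p` of degree `t - u` is a sum of
products of elements of `∏ W j ^ k j`, `m k + u = t`. -/

namespace KM

open MvPolynomial

namespace AtGen

section fam

variable {L : Type*} [Field L] {K : Subfield L} {I : Type*} [DecidableEq I]

/-- polynomials with coefficients in a family of subspaces -/
def fam (M : (I →₀ ℕ) → Submodule K L) : Set (MvPolynomial I L) := {p | ∀ v, p.coeff v ∈ M v}

theorem mul_fam {M N Q : (I →₀ ℕ) → Submodule K L}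
    (h : ∀ u v, ∀ x ∈ M u, ∀ y ∈ N v, x * y ∈ Q (u + v)) {p q : MvPolynomial I L}
    (hp : p ∈ fam M) (hq : q ∈ fam N) : p * q ∈ fam Q := by
  intro v
  rw [coeff_mul]
  refine Submodule.sum_mem _ fun x hx => ?_
  rw [← Finset.HasAntidiagonal.mem_antidiagonal.1 hx]
  exact h _ _ _ (hp x.1) _ (hq x.2)

theorem monomial_fam {M : (I →₀ ℕ) → Submodule K L} {v : I →₀ ℕ} {x : L} (hx : x ∈ M v) :
    monomial v x ∈ fam M := by
  intro u
  rw [coeff_monomial]
  split_ifs with h
  · rw [← h]
    exact hx
  · exact Submodule.zero_mem _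

/-- the subring of a multiplicative family -/
def famR (M : (I →₀ ℕ) → Submodule K L) (h1 : (1 : L) ∈ M 0)
    (h : ∀ u v, ∀ x ∈ M u, ∀ y ∈ M v, x * y ∈ M (u + v)) : Subring (MvPolynomial I L) where
  carrier := fam M
  mul_mem' hp hq := mul_fam h hp hq
  one_mem' := monomial_fam h1
  add_mem' hp hq v := by
    rw [coeff_add]
    exact Submodule.add_mem _ (hp v) (hq v)
  zero_mem' v := by
    rw [coeff_zero]
    exact Submodule.zero_mem _
  neg_mem' hp v := by
    rw [coeff_neg]
    exact Submodule.neg_mem _ (hp v)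

end fam

section W

variable {L : Type*} [Field L] {K : Subfield L} {I : Type*} [Fintype I]

open Classical in
/-- the family of the products of the generators -/
noncomputable def famW (K : Subfield L) (m : ℕ) (W : I → Finset L) (v : I →₀ ℕ) :
    Submodule K L :=
  if ∀ j, m ∣ v j then ∏ j, Submodule.span K (W j : Set L) ^ (v j / m) else ⊥

theorem famW_one (m : ℕ) (W : I → Finset L) {x : L} (hx : x ∈ K) : x ∈ famW K m W 0 := by
  have h : ∀ j : I, m ∣ (0 : I →₀ ℕ) j := fun j => by
    rw [Finsupp.coe_zero, Pi.zero_apply]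
    exact dvd_zero m
  rw [famW, if_pos h]
  have h2 : (∏ j, Submodule.span K (W j : Set L) ^ ((0 : I →₀ ℕ) j / m)) = 1 :=
    Finset.prod_eq_one fun j _ => by
      rw [Finsupp.coe_zero, Pi.zero_apply, Nat.zero_div, pow_zero]
  rw [h2, Submodule.mem_one]
  exact ⟨⟨x, hx⟩, rfl⟩

theorem famW_mul {m : ℕ} (W : I → Finset L) (u v : I →₀ ℕ) (x : L) (hx : x ∈ famW K m W u)
    (y : L) (hy : y ∈ famW K m W v) : x * y ∈ famW K m W (u + v) := by
  by_cases hu : ∀ j, m ∣ u j
  · by_cases hv : ∀ j, m ∣ v j
    · have huv : ∀ j, m ∣ (u + v) j := fun j => by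
        rw [Finsupp.add_apply]
        exact dvd_add (hu j) (hv j)
      rw [famW, if_pos hu] at hx
      rw [famW, if_pos hv] at hy
      rw [famW, if_pos huv]
      have h1 : (∏ j, Submodule.span K (W j : Set L) ^ ((u + v) j / m)) =
          (∏ j, Submodule.span K (W j : Set L) ^ (u j / m)) *
            ∏ j, Submodule.span K (W j : Set L) ^ (v j / m) := by
        rw [← Finset.prod_mul_distrib]
        refine Finset.prod_congr rfl fun j _ => ?_
        rw [Finsupp.add_apply, Nat.add_div_of_dvd_right (hu j), pow_add]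
      rw [h1]
      exact Submodule.mul_mem_mul hx hy
    · rw [famW, if_neg hv, Submodule.mem_bot] at hy
      rw [hy, mul_zero]
      exact Submodule.zero_mem _
  · rw [famW, if_neg hu, Submodule.mem_bot] at hx
    rw [hx, zero_mul]
    exact Submodule.zero_mem _

theorem famW_gen [DecidableEq I] {m : ℕ} (hm : 0 < m) (W : I → Finset L) {j : I} {s : L}
    (hs : s ∈ W j) : s ∈ famW K m W (Finsupp.single j m) := by
  have h : ∀ i, m ∣ (Finsupp.single j m : I →₀ ℕ) i := fun i => by
    rw [Finsupp.single_apply]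
    split_ifs
    · exact dvd_refl m
    · exact dvd_zero m
  rw [famW, if_pos h, Finset.prod_eq_single j]
  · rw [Finsupp.single_eq_same, Nat.div_self hm, pow_one]
    exact Submodule.subset_span hs
  · intro i _ hi
    rw [Finsupp.single_apply, if_neg (Ne.symm hi), Nat.zero_div, pow_zero]
  · intro h1
    exact absurd (Finset.mem_univ j) h1

/-- the generators in degree `t` -/
def genN (K : Subfield L) (m : ℕ) (W : I → Finset L) (s : Set (L × (I → ℤ))) (t : I → ℤ) : Set L :=
  {y | ∃ g ∈ s, ∃ k : I → ℕ, (∀ j, t j = m * k j + g.2 j) ∧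
    ∃ w ∈ ∏ j, Submodule.span K (W j : Set L) ^ k j, y = w * g.1}

theorem genN_mul {m : ℕ} (W : I → Finset L) (s : Set (L × (I → ℤ)))
    (u v : I →₀ ℕ) (x : L) (hx : x ∈ famW K m W u) (y : L)
    (hy : y ∈ Submodule.span K (genN K m W s fun j => (v j : ℤ))) :
    x * y ∈ Submodule.span K (genN K m W s fun j => ((u + v) j : ℤ)) := by
  by_cases hu : ∀ j, m ∣ u j
  swap
  · rw [famW, if_neg hu, Submodule.mem_bot] at hx
    rw [hx, zero_mul]
    exact Submodule.zero_mem _
  rw [famW, if_pos hu] at hx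
  induction hy using Submodule.span_induction with
  | mem y hy =>
    obtain ⟨g, hg, k, hk, w, hw, rfl⟩ := hy
    refine Submodule.subset_span ⟨g, hg, fun j => u j / m + k j, fun j => ?_, x * w, ?_, ?_⟩
    · have h1 : (m : ℤ) * ((u j / m : ℕ) : ℤ) = u j := by
        have h2 : m * (u j / m) = u j := Nat.mul_div_cancel' (hu j)
        exact_mod_cast h2
      have h3 : (v j : ℤ) = m * k j + g.2 j := hk j
      have h4 : (((u + v) j : ℕ) : ℤ) = u j + v j := by
        rw [Finsupp.add_apply]
        push_cast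
        ring
      have h5 : ((u j / m + k j : ℕ) : ℤ) = ((u j / m : ℕ) : ℤ) + k j := Nat.cast_add _ _
      change (((u + v) j : ℕ) : ℤ) = m * ((u j / m + k j : ℕ) : ℤ) + g.2 j
      rw [h4, h5, mul_add, h1, h3]
      ring
    · have h1 : (∏ j, Submodule.span K (W j : Set L) ^ (u j / m + k j)) =
          (∏ j, Submodule.span K (W j : Set L) ^ (u j / m)) *
            ∏ j, Submodule.span K (W j : Set L) ^ k j := by
        rw [← Finset.prod_mul_distrib]
        exact Finset.prod_congr rfl fun j _ => pow_add _ _ _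
      rw [h1]
      exact Submodule.mul_mem_mul hx hw
    · ring
  | zero =>
    rw [mul_zero]
    exact Submodule.zero_mem _
  | add a b _ _ ha hb =>
    rw [mul_add]
    exact Submodule.add_mem _ ha hb
  | smul c a _ ha =>
    rw [mul_smul_comm]
    exact Submodule.smul_mem _ c ha

end W

section V

variable {L : Type*} [Field L] {K : Subfield L} {ι I : Type*} [Fintype I] [DecidableEq I]
  {X : Atl K ι I}

theorem eq_add (i : ι) (s t : I → ℤ) : X.eq i (s + t) = X.eq i s * X.eq i t := by
  rw [Atl.eq, Atl.eq, Atl.eq, ← Finset.prod_mul_distrib]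
  exact Finset.prod_congr rfl fun j _ => zpow_add₀ (X.ne i j) _ _

theorem V_mul (s t : I → ℤ) (x : L) (hx : x ∈ X.V s) (y : L) (hy : y ∈ X.V t) :
    x * y ∈ X.V (s + t) := by
  intro i
  rw [eq_add, mul_mul_mul_comm]
  exact (X.A i).mul_mem (hx i) (hy i)

/-- the family of the sections -/
def famV (X : Atl K ι I) (v : I →₀ ℕ) : Submodule K L := X.V fun j => (v j : ℤ)

theorem famV_one {x : L} (hx : x ∈ K) : x ∈ famV X 0 := by
  intro i
  have h : X.eq i (fun j => ((0 : I →₀ ℕ) j : ℤ)) = 1 := by
    rw [Atl.eq]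
    refine Finset.prod_eq_one fun j _ => ?_
    rw [Finsupp.coe_zero, Pi.zero_apply, Int.natCast_zero, zpow_zero]
  rw [h, mul_one]
  exact X.le i x hx

theorem famV_mul (u v : I →₀ ℕ) (x : L) (hx : x ∈ famV X u) (y : L) (hy : y ∈ famV X v) :
    x * y ∈ famV X (u + v) := by
  have h := V_mul _ _ x hx y hy
  have h1 : (fun j => ((u + v) j : ℤ)) = (fun j => (u j : ℤ)) + fun j => (v j : ℤ) := by
    funext j
    rw [Finsupp.add_apply, Pi.add_apply]
    push_cast
    ring
  rw [famV, h1]
  exact h

theorem famV_gen {m : ℕ} {W : I → Finset L} (hW : X.Gen m W) {j : I} {s : L} (hs : s ∈ W j) :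
    s ∈ famV X (Finsupp.single j m) := by
  have h1 : (fun i => ((Finsupp.single j m : I →₀ ℕ) i : ℤ)) = e j (m : ℤ) := by
    funext i
    by_cases hi : i = j
    · subst hi
      rw [Finsupp.single_eq_same, e_same]
    · rw [Finsupp.single_apply, if_neg (Ne.symm hi), e_ne hi, Int.natCast_zero]
  rw [famV, h1]
  exact hW.1 j s hs

end V

section val

variable {F : Type*} [Field F]

theorem integral_of_val {P : Subring F} {x : F}
    (h : ∀ O : ValuationSubring F, (∀ y ∈ P, y ∈ O) → x ∈ O) : IsIntegral P x := by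
  have h1 : x ∈ (integralClosure (Subring.closure (P : Set F)) F).toSubring := by
    rw [← iInf_valuationSubring_superset, Subring.mem_iInf]
    intro V
    exact h V.1 fun y hy => V.2 hy
  rw [Subring.closure_eq] at h1
  exact h1

theorem mem_of_pow {O : ValuationSubring F} {x : F} {m : ℕ} (hm : 0 < m) (h : x ^ m ∈ O) :
    x ∈ O := by
  rcases O.mem_or_inv_mem x with h1 | h1
  · exact h1
  · by_cases hx : x = 0
    · rw [hx]
      exact O.zero_mem
    · obtain ⟨n, rfl⟩ : ∃ n, m = n + 1 := ⟨m - 1, by omega⟩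
      have h2 : x = x ^ (n + 1) * x⁻¹ ^ n := by
        rw [inv_pow, pow_succ', mul_assoc, mul_inv_cancel₀ (pow_ne_zero n hx), mul_one]
      rw [h2]
      exact O.mul_mem _ _ h (O.toSubring.pow_mem h1 n)

end val

end AtGen

open AtGen

variable {L : Type*} [Field L] {K : Subfield L} {ι I : Type*} [Fintype I] [DecidableEq I]
  {X : Atl K ι I}

theorem Atl.gen_sections [PerfectField K] (hFG : FG K)
    (closed : ∀ i, ∀ x : L, IsIntegral (X.A i) x → x ∈ X.A i)
    (cover : ∀ O : ValuationSubring L, (∀ x ∈ K, x ∈ O) → ∃ i, ∀ x ∈ X.A i, x ∈ O)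
    {m : ℕ} (hm : 0 < m) {W : I → Finset L} (hW : X.Gen m W) :
    ∃ s : Finset (L × (I → ℤ)), (∀ g ∈ s, (∀ j, 0 ≤ g.2 j) ∧ g.1 ∈ X.V g.2) ∧
      ∀ t : I → ℤ, (∀ j, 0 ≤ t j) → ∀ f ∈ X.V t, f ∈ Submodule.span K
        {y | ∃ g ∈ s, ∃ k : I → ℕ, (∀ j, t j = m * k j + g.2 j) ∧
          ∃ w ∈ ∏ j, Submodule.span K (W j : Set L) ^ k j, y = w * g.1} := by
  classical
  let φ : MvPolynomial I L →+* FractionRing (MvPolynomial I L) :=
    algebraMap (MvPolynomial I L) (FractionRing (MvPolynomial I L))
  have hφ : Function.Injective φ :=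
    IsFractionRing.injective (MvPolynomial I L) (FractionRing (MvPolynomial I L))
  let ψ : L →+* FractionRing (MvPolynomial I L) := φ.comp C
  let z : I → FractionRing (MvPolynomial I L) := fun j => φ (MvPolynomial.X j)
  let K' : Subfield (FractionRing (MvPolynomial I L)) := K.map ψ
  have hperf : PerfectField K' :=
    PerfectField.of_ringEquiv (RingEquiv.ofBijective (ψ.restrict K K' fun x hx =>
      Subfield.mem_map.2 ⟨x, hx, rfl⟩) ⟨(ψ.restrict K K' _).injective, by
        rintro ⟨y, hy⟩
        obtain ⟨x, hx, rfl⟩ := Subfield.mem_map.1 hy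
        exact ⟨⟨x, hx⟩, rfl⟩⟩)
  have hFG' : FG K' := by
    obtain ⟨s₀, hs₀⟩ := hFG
    refine ⟨s₀.image ψ ∪ Finset.univ.image z, ?_⟩
    rw [eq_top_iff]
    obtain ⟨T, hT⟩ : ∃ T : Subfield (FractionRing (MvPolynomial I L)), T = Subfield.closure
      ((K' : Set (FractionRing (MvPolynomial I L))) ∪ (s₀.image ψ ∪ Finset.univ.image z :
        Finset (FractionRing (MvPolynomial I L)))) := ⟨_, rfl⟩
    rw [← hT]
    have h1 : ∀ x : L, ψ x ∈ T := by
      have h2 : Subfield.closure ((K : Set L) ∪ s₀) ≤ T.comap ψ := by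
        rw [Subfield.closure_le]
        rintro x (hx | hx)
        · rw [hT]
          exact Subfield.subset_closure (Or.inl (Subfield.mem_map.2 ⟨x, hx, rfl⟩))
        · rw [hT]
          refine Subfield.subset_closure (Or.inr ?_)
          rw [Finset.coe_union]
          exact Or.inl (Finset.mem_coe.2 (Finset.mem_image_of_mem ψ hx))
      rw [hs₀] at h2
      exact fun x => h2 trivial
    have h3 : ∀ j, z j ∈ T := by
      intro j
      rw [hT]
      refine Subfield.subset_closure (Or.inr ?_)
      rw [Finset.coe_union]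
      exact Or.inr (Finset.mem_coe.2 (Finset.mem_image_of_mem z (Finset.mem_univ j)))
    have h4 : ∀ p : MvPolynomial I L, φ p ∈ T := by
      intro p
      induction p using MvPolynomial.induction_on with
      | C a => exact h1 a
      | add p q hp hq => rw [map_add]; exact T.add_mem hp hq
      | mul_X p j hp => rw [map_mul]; exact T.mul_mem hp (h3 j)
    intro x _
    obtain ⟨a, b, -, rfl⟩ := IsFractionRing.div_surjective (A := MvPolynomial I L) x
    exact T.div_mem (h4 a) (h4 b)
  -- the subrings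
  let G : Finset (MvPolynomial I L) :=
    Finset.univ.biUnion fun j => (W j).image fun s => monomial (Finsupp.single j m) s
  let P₀ : Subring (MvPolynomial I L) := Subring.closure (C '' (K : Set L) ∪ G)
  let R₀ : Subring (MvPolynomial I L) := famR (famV X) (famV_one K.one_mem) famV_mul
  let Q₀ : Subring (MvPolynomial I L) := famR (famW K m W) (famW_one m W K.one_mem) (famW_mul W)
  have hPR₀ : P₀ ≤ R₀ := by
    rw [Subring.closure_le]
    rintro p (⟨x, hx, rfl⟩ | hp)
    · exact monomial_fam (famV_one hx)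
    · obtain ⟨j, -, hj⟩ := Finset.mem_biUnion.1 (Finset.mem_coe.1 hp)
      obtain ⟨s, hs, rfl⟩ := Finset.mem_image.1 hj
      exact monomial_fam (famV_gen hW hs)
  have hPQ₀ : P₀ ≤ Q₀ := by
    rw [Subring.closure_le]
    rintro p (⟨x, hx, rfl⟩ | hp)
    · exact monomial_fam (famW_one m W hx)
    · obtain ⟨j, -, hj⟩ := Finset.mem_biUnion.1 (Finset.mem_coe.1 hp)
      obtain ⟨s, hs, rfl⟩ := Finset.mem_image.1 hj
      exact monomial_fam (famW_gen hm W hs)
  have hP : ∃ s : Finset (FractionRing (MvPolynomial I L)), P₀.map φ = Subring.closure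
      ((K' : Set (FractionRing (MvPolynomial I L))) ∪ s) := by
    refine ⟨G.image φ, ?_⟩
    change (Subring.closure (C '' (K : Set L) ∪ G)).map φ = _
    rw [RingHom.map_closure, Set.image_union, Finset.coe_image]
    congr 2
    ext x
    constructor
    · rintro ⟨_, ⟨y, hy, rfl⟩, rfl⟩
      exact Subfield.mem_map.2 ⟨y, hy, rfl⟩
    · intro hx
      obtain ⟨y, hy, rfl⟩ := Subfield.mem_map.1 hx
      exact ⟨C y, ⟨y, hy, rfl⟩, rfl⟩
  -- integrality
  have hmon : ∀ (v : I →₀ ℕ) (f : L), f ∈ famV X v → IsIntegral (P₀.map φ) (φ (monomial v f)) := by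
    intro v f hf
    refine integral_of_val fun O' hO' => ?_
    obtain ⟨i, hi⟩ := cover (O'.comap ψ) fun x hx => by
      rw [ValuationSubring.mem_comap]
      exact hO' _ ⟨C x, Subring.subset_closure (Or.inl ⟨x, hx, rfl⟩), rfl⟩
    have hi' : ∀ x ∈ X.A i, ψ x ∈ O' := fun x hx => (ValuationSubring.mem_comap).1 (hi x hx)
    have hd : ∀ j, ψ (X.d i j) ≠ 0 := fun j => (map_ne_zero ψ).2 (X.ne i j)
    have hz : ∀ j, z j / ψ (X.d i j) ∈ O' := by
      intro j
      refine mem_of_pow hm ?_
      obtain ⟨s, hs, hu⟩ := hW.2 i j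
      have h1 : φ (monomial (Finsupp.single j m) s) ∈ O' := by
        refine hO' _ ⟨_, Subring.subset_closure (Or.inr ?_), rfl⟩
        exact Finset.mem_coe.2 (Finset.mem_biUnion.2 ⟨j, Finset.mem_univ j,
          Finset.mem_image_of_mem _ hs⟩)
      have h2 : φ (monomial (Finsupp.single j m) s) = ψ s * z j ^ m := by
        rw [monomial_eq, map_mul, Finsupp.prod_single_index (by rw [pow_zero]), map_pow]
        rfl
      have h3 := hi' _ hu.2.2
      have hs0 : s ≠ 0 := by
        intro h0
        apply hu.1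
        rw [h0, zero_mul]
      have hs1 : ψ s ≠ 0 := (map_ne_zero ψ).2 hs0
      have h4 : (z j / ψ (X.d i j)) ^ m =
          φ (monomial (Finsupp.single j m) s) * ψ ((s * X.d i j ^ m)⁻¹) := by
        rw [h2, map_inv₀, map_mul, map_pow, div_pow]
        have := pow_ne_zero m (hd j)
        field_simp
      rw [h4]
      exact O'.mul_mem _ _ h1 h3
    have h5 : φ (monomial v f) = ψ (f * X.eq i fun j => (v j : ℤ)) *
        ∏ j, (z j / ψ (X.d i j)) ^ v j := by
      rw [monomial_eq, map_mul, map_mul, Atl.eq, map_prod, Finsupp.prod_fintype _ _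
        (fun i => pow_zero _), map_prod, mul_assoc, ← Finset.prod_mul_distrib]
      congr 1
      refine Finset.prod_congr rfl fun j _ => ?_
      rw [zpow_natCast, map_pow, map_pow, div_pow, mul_div_cancel₀ _ (pow_ne_zero _ (hd j))]
    rw [h5]
    refine O'.mul_mem _ _ (hi' _ (hf i)) (O'.toSubring.prod_mem fun j _ =>
      O'.toSubring.pow_mem (hz j) _)
  have hint : ∀ x ∈ R₀.map φ, IsIntegral (P₀.map φ) x := by
    rintro x ⟨p, hp, rfl⟩
    have h1 : p = ∑ v ∈ p.support, monomial v (p.coeff v) := (support_sum_monomial_coeff p).symm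
    rw [h1, map_sum]
    exact IsIntegral.sum _ fun v _ => hmon v _ (hp v)
  obtain ⟨S, hSR, hS⟩ := n2 hFG' (P₀.map φ) (R₀.map φ) hP (fun _ hx => by
    obtain ⟨p, hp, rfl⟩ := hx
    exact ⟨p, hPR₀ hp, rfl⟩) hint
  -- the homogeneous components
  have hex : ∀ x : FractionRing (MvPolynomial I L), ∃ p : MvPolynomial I L,
      x ∈ S → p ∈ R₀ ∧ φ p = x := by
    intro x
    by_cases hx : x ∈ S
    · obtain ⟨p, hp, hpx⟩ := hSR hx
      exact ⟨p, fun _ => ⟨hp, hpx⟩⟩
    · exact ⟨0, fun h => absurd h hx⟩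
  choose g hg using hex
  let s : Finset (L × (I → ℤ)) := S.biUnion fun x => (g x).support.image fun v =>
    ((g x).coeff v, fun j => (v j : ℤ))
  have hs : ∀ x ∈ S, ∀ v, (g x).coeff v ≠ 0 → ((g x).coeff v, fun j => (v j : ℤ)) ∈ s := by
    intro x hx v hv
    exact Finset.mem_biUnion.2 ⟨x, hx, Finset.mem_image.2 ⟨v, mem_support_iff.2 hv, rfl⟩⟩
  refine ⟨s, ?_, ?_⟩
  · intro y hy
    obtain ⟨x, hx, hy⟩ := Finset.mem_biUnion.1 hy
    obtain ⟨v, hv, rfl⟩ := Finset.mem_image.1 hy
    exact ⟨fun j => Int.natCast_nonneg _, (hg x hx).1 v⟩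
  · have key : ∀ x ∈ Submodule.span (P₀.map φ) (S : Set (FractionRing (MvPolynomial I L))),
        ∃ p : MvPolynomial I L, φ p = x ∧
          p ∈ fam fun v => Submodule.span K (genN K m W (s : Set (L × (I → ℤ)))
            fun j => (v j : ℤ)) := by
      intro x hx
      induction hx using Submodule.span_induction with
      | mem x hx =>
        refine ⟨g x, (hg x hx).2, fun v => ?_⟩
        by_cases hv : (g x).coeff v = 0
        · rw [hv]
          exact Submodule.zero_mem _
        · refine Submodule.subset_span ⟨_, hs x hx v hv, 0, fun j => ?_, 1, ?_, ?_⟩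
          · simp
          · have h1 : (∏ j, Submodule.span K (W j : Set L) ^ ((0 : I → ℕ) j)) = 1 :=
              Finset.prod_eq_one fun j _ => by rw [Pi.zero_apply, pow_zero]
            rw [h1]
            exact Submodule.one_le.1 le_rfl
          · rw [one_mul]
      | zero => exact ⟨0, map_zero φ, fun v => by rw [coeff_zero]; exact Submodule.zero_mem _⟩
      | add x y _ _ hx hy =>
        obtain ⟨p, hp, hp'⟩ := hx
        obtain ⟨q, hq, hq'⟩ := hy
        exact ⟨p + q, by rw [map_add, hp, hq], fun v => by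
          rw [coeff_add]
          exact Submodule.add_mem _ (hp' v) (hq' v)⟩
      | smul c x _ hx =>
        obtain ⟨p, hp, hp'⟩ := hx
        obtain ⟨q, hq, hq'⟩ := c.2
        refine ⟨q * p, ?_, mul_fam (genN_mul W _) (hPQ₀ hq) hp'⟩
        rw [map_mul, hp]
        change _ = (c : FractionRing (MvPolynomial I L)) * x
        rw [← hq']
    intro t ht f hf
    obtain ⟨v, hv⟩ : ∃ v : I →₀ ℕ, (fun j => (v j : ℤ)) = t := by
      refine ⟨Finsupp.equivFunOnFinite.symm fun j => (t j).toNat, ?_⟩
      funext j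
      exact Int.toNat_of_nonneg (ht j)
    have hfv : f ∈ famV X v := by
      rw [famV, hv]
      exact hf
    obtain ⟨p, hp, hp'⟩ := key (φ (monomial v f)) (hS _ ⟨_, monomial_fam hfv, rfl⟩)
    have h1 := hp' v
    rw [hφ hp, coeff_monomial, if_pos rfl] at h1
    have h2 : f ∈ Submodule.span K (genN K m W (s : Set (L × (I → ℤ))) fun j => (v j : ℤ)) := h1
    rw [hv] at h2
    exact h2

end KM
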