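import Pool.Agent.Lib.MP_732f67_ag.KM.AtGen

/-! KM, atlas over one field, file 7: the axioms (A1) - (A4).

`gen_all`: `m' = a m + b (m + 1)` with `a + b ≥ 1` for all `m' ≥ m * (m + 1)`; products of `a` elements
of `W j` and `b` elements of `W' j`.
`fg`: for `t ≥ 0` from `gen_sections` (finitely many pairs `(g, k)`); in general multiply by a
nonzero element of a large degree (`m • u`, from `Gen`).
`zero`: an element of all `A i` is integral over `K` (`cover`, `iInf_valuationSubring_superset`),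
so algebraic, in `K` by `ac`.  `ic`: the coefficients `c j * eq i ((j + 1) • s)` are in `A i`, `closed`.
`reg`: `C` = maximum of the `g.2 i` in `gen_sections` for `gen_all`.  `free`: multiply with the
`s ∈ W j` such that `s * d i j ^ m` is a unit of `A i`. -/

set_option linter.unusedSectionVars false

namespace KM

variable {L : Type*} [Field L] {K : Subfield L} {ι I : Type*} [Fintype I] [DecidableEq I]
  {X : Atl K ι I} {m : ℕ}

/-! ### Units of a subring -/

theorem UnitOf.mul {A : Subring L} {x y : L} (hx : UnitOf A x) (hy : UnitOf A y) :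
    UnitOf A (x * y) :=
  ⟨mul_ne_zero hx.1 hy.1, A.mul_mem hx.2.1 hy.2.1, by
    rw [mul_inv]; exact A.mul_mem hx.2.2 hy.2.2⟩

theorem UnitOf.pow {A : Subring L} {x : L} (hx : UnitOf A x) (n : ℕ) : UnitOf A (x ^ n) :=
  ⟨pow_ne_zero n hx.1, A.pow_mem hx.2.1 n, by
    rw [← inv_pow]; exact A.pow_mem hx.2.2 n⟩

/-! ### Local equations and sections -/

theorem Atl.eq_zero (i : ι) : X.eq i 0 = 1 := by simp [Atl.eq]

theorem Atl.eq_add (i : ι) (s t : I → ℤ) : X.eq i (s + t) = X.eq i s * X.eq i t := by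
  unfold Atl.eq
  rw [← Finset.prod_mul_distrib]
  exact Finset.prod_congr rfl fun j _ => by rw [Pi.add_apply, zpow_add₀ (X.ne i j)]

theorem Atl.eq_nsmul (i : ι) (s : I → ℤ) (n : ℕ) : X.eq i (n • s) = X.eq i s ^ n := by
  induction n with
  | zero => rw [zero_smul, pow_zero, Atl.eq_zero]
  | succ n ih => rw [succ_nsmul, Atl.eq_add, ih, pow_succ]

theorem Atl.eq_e (i : ι) (j : I) (n : ℕ) : X.eq i (e j n) = X.d i j ^ n := by
  unfold Atl.eq
  rw [Finset.prod_eq_single j]
  · rw [e_same, zpow_natCast]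
  · intro k _ hk
    rw [e_ne hk, zpow_zero]
  · intro h
    exact absurd (Finset.mem_univ j) h

theorem Atl.mem_V {t : I → ℤ} {f : L} : f ∈ X.V t ↔ ∀ i, f * X.eq i t ∈ X.A i := Iff.rfl

theorem Atl.V_mul {s t : I → ℤ} {x y : L} (hx : x ∈ X.V s) (hy : y ∈ X.V t) :
    x * y ∈ X.V (s + t) := fun i => by
  rw [Atl.eq_add]
  have := (X.A i).mul_mem (hx i) (hy i)
  rwa [mul_mul_mul_comm] at this

theorem Atl.V_mul_le (s t : I → ℤ) : X.V s * X.V t ≤ X.V (s + t) :=
  Submodule.mul_le.2 fun _ hx _ hy => Atl.V_mul hx hy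

theorem Atl.V_pow {t : I → ℤ} {x : L} (hx : x ∈ X.V t) (n : ℕ) : x ^ n ∈ X.V (n • t) := fun i => by
  rw [Atl.eq_nsmul, ← mul_pow]
  exact (X.A i).pow_mem (hx i) n

theorem Atl.K_mem_V {x : L} (hx : x ∈ K) : x ∈ X.V 0 := fun i => by
  rw [Atl.eq_zero, mul_one]
  exact X.le i x hx

theorem Atl.one_le_V : (1 : Submodule K L) ≤ X.V 0 := by
  rw [Submodule.one_le]
  exact Atl.K_mem_V K.one_mem

theorem Atl.V_pow_le (t : I → ℤ) (n : ℕ) : X.V t ^ n ≤ X.V (n • t) := by
  induction n with
  | zero => rw [pow_zero, zero_smul]; exact Atl.one_le_V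
  | succ n ih =>
    rw [pow_succ, succ_nsmul]
    exact (mul_le_mul' ih le_rfl).trans (Atl.V_mul_le _ _)

theorem Atl.prod_V_le (s : Finset I) (t : I → I → ℤ) :
    ∏ j ∈ s, X.V (t j) ≤ X.V (∑ j ∈ s, t j) := by
  induction s using Finset.induction_on with
  | empty => rw [Finset.prod_empty, Finset.sum_empty]; exact Atl.one_le_V
  | insert a s ha ih =>
    rw [Finset.prod_insert ha, Finset.sum_insert ha]
    exact (mul_le_mul' le_rfl ih).trans (Atl.V_mul_le _ _)

theorem Atl.Gen.span_le {W : I → Finset L} (hW : X.Gen m W) (j : I) :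
    Submodule.span K (W j : Set L) ≤ X.V (e j m) :=
  Submodule.span_le.2 fun s hs => hW.1 j s hs

theorem Atl.Gen.prod_le {W : I → Finset L} (hW : X.Gen m W) (k : I → ℕ) :
    ∏ j, Submodule.span K (W j : Set L) ^ k j ≤ X.V (fun j => (m : ℤ) * k j) := by
  have h1 : ∏ j, Submodule.span K (W j : Set L) ^ k j ≤ ∏ j, X.V (k j • e j (m : ℤ)) :=
    Finset.prod_le_prod' fun j _ =>
      (pow_le_pow_left' (hW.span_le j) (k j)).trans (Atl.V_pow_le _ _)
  refine h1.trans ((Atl.prod_V_le _ _).trans (le_of_eq ?_))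
  congr 1
  have := sum_e (S := (Finset.univ : Finset I)) (u := fun j => (m : ℤ) * k j)
    (fun i hi => absurd (Finset.mem_univ i) hi)
  rw [← this]
  exact Finset.sum_congr rfl fun j _ => by rw [e_nsmul, mul_comm]

/-! ### All large multiples are generated -/

theorem Atl.Good.gen_all (h : X.Good m) {m' : ℕ} (hm : m * (m + 1) ≤ m') : ∃ W, X.Gen m' W := by
  classical
  obtain ⟨W, hW⟩ := h.gen
  obtain ⟨W', hW'⟩ := h.gen'
  have hm0 := h.pos
  obtain ⟨a, b, hab⟩ : ∃ a b : ℕ, m' = a * m + b * (m + 1) := by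
    refine ⟨m' / m - m' % m, m' % m, ?_⟩
    have h1 : m + 1 ≤ m' / m := (Nat.le_div_iff_mul_le hm0).2 (by rw [mul_comm]; exact hm)
    have h2 : m' % m < m := Nat.mod_lt _ hm0
    have h3 := Nat.div_add_mod m' m
    obtain ⟨c, hc⟩ : ∃ c, m' / m = m' % m + c := ⟨m' / m - m' % m, by omega⟩
    rw [hc] at h3 ⊢
    rw [Nat.add_sub_cancel_left]
    nlinarith [h3]
  refine ⟨fun j => (W j ×ˢ W' j).image fun q => q.1 ^ a * q.2 ^ b, ?_, ?_⟩
  · intro j s hs
    obtain ⟨q, hq, rfl⟩ := Finset.mem_image.1 hs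
    obtain ⟨hq1, hq2⟩ := Finset.mem_product.1 hq
    have h1 := Atl.V_mul (Atl.V_pow (hW.1 j _ hq1) a) (Atl.V_pow (hW'.1 j _ hq2) b)
    rw [e_nsmul, e_nsmul, ← e_add] at h1
    have h2 : (a : ℤ) * (m : ℤ) + (b : ℤ) * ((m + 1 : ℕ) : ℤ) = (m' : ℤ) := by
      rw [hab]; push_cast; ring
    rwa [h2] at h1
  · intro i j
    obtain ⟨s, hs, hsu⟩ := hW.2 i j
    obtain ⟨s', hs', hsu'⟩ := hW'.2 i j
    refine ⟨s ^ a * s' ^ b, Finset.mem_image.2 ⟨(s, s'), Finset.mem_product.2 ⟨hs, hs'⟩, rfl⟩, ?_⟩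
    have h1 := (hsu.pow a).mul (hsu'.pow b)
    have h2 : (s * X.d i j ^ m) ^ a * (s' * X.d i j ^ (m + 1)) ^ b =
        s ^ a * s' ^ b * X.d i j ^ m' := by
      rw [hab]; ring
    rwa [h2] at h1

/-! ### The axioms -/

theorem Atl.Good.chart (h : X.Good m) : Nonempty ι :=
  let ⟨i, _⟩ := h.cover ⊤ fun _ _ => trivial
  ⟨i⟩

omit [Fintype I] in
theorem prod_mem_prod' (s : Finset I) (x : I → L) (M : I → Submodule K L)
    (h : ∀ j ∈ s, x j ∈ M j) : ∏ j ∈ s, x j ∈ ∏ j ∈ s, M j := by
  induction s using Finset.induction_on with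
  | empty => rw [Finset.prod_empty, Finset.prod_empty]; exact Submodule.one_le.1 le_rfl
  | insert a s ha ih =>
    rw [Finset.prod_insert ha, Finset.prod_insert ha]
    exact Submodule.mul_mem_mul (h a (Finset.mem_insert_self _ _))
      (ih fun j hj => h j (Finset.mem_insert_of_mem hj))

theorem Atl.Good.exists_ne (h : X.Good m) (k : I → ℕ) :
    ∃ x ∈ X.V (fun j => (m : ℤ) * k j), x ≠ 0 := by
  obtain ⟨W, hW⟩ := h.gen
  obtain ⟨i⟩ := h.chart
  choose s hs hu using hW.2 i
  refine ⟨∏ j, s j ^ k j, hW.prod_le k ?_, ?_⟩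
  · exact prod_mem_prod' _ _ _ fun j _ =>
      Submodule.pow_mem_pow _ (Submodule.subset_span (hs j)) _
  · refine Finset.prod_ne_zero_iff.2 fun j _ => pow_ne_zero _ fun h0 => (hu j).1 ?_
    rw [h0, zero_mul]

theorem Atl.Good.fg_nonneg [PerfectField K] (hFG : FG K) (h : X.Good m) {t : I → ℤ}
    (ht : ∀ j, 0 ≤ t j) : (X.V t).FG := by
  classical
  obtain ⟨W, hW⟩ := h.gen
  obtain ⟨s, -, hs⟩ := Atl.gen_sections hFG h.closed h.cover h.pos hW
  have hm0 := h.pos
  set N : L × (I → ℤ) → Submodule K L := fun g =>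
    (∏ j, Submodule.span K (W j : Set L) ^ ((t j - g.2 j) / m).toNat) * Submodule.span K {g.1}
  have hfg : (⨆ g ∈ s, N g).FG := by
    refine Submodule.fg_biSup s N fun g _ => ?_
    refine Submodule.FG.mul ?_ (Submodule.fg_span_singleton _)
    have : ∀ T : Finset I,
        (∏ j ∈ T, Submodule.span K (W j : Set L) ^ ((t j - g.2 j) / m).toNat).FG := by
      intro T
      induction T using Finset.induction_on with
      | empty =>
        rw [Finset.prod_empty, Submodule.one_eq_span]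
        exact Submodule.fg_span_singleton _
      | insert a T ha ih =>
        rw [Finset.prod_insert ha]
        exact Submodule.FG.mul (Submodule.FG.pow (Submodule.fg_span (Finset.finite_toSet _)) _) ih
    exact this Finset.univ
  refine Submodule.FG.of_le hfg fun f hf => ?_
  refine (Submodule.span_le.2 ?_) (hs t ht f hf)
  rintro y ⟨g, hg, k, hk, w, hw, rfl⟩
  have hkk : ∀ j, ((t j - g.2 j) / m).toNat = k j := by
    intro j
    have h1 : t j - g.2 j = (m : ℤ) * k j := by rw [hk j]; ring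
    rw [h1, Int.mul_ediv_cancel_left _ (by exact_mod_cast hm0.ne')]
    simp
  refine (le_iSup₂_of_le (f := fun g (_ : g ∈ s) => N g) g hg le_rfl) ?_
  refine Submodule.mul_mem_mul ?_ (Submodule.mem_span_singleton_self _)
  simp only [hkk]
  exact hw

theorem Atl.Good.fg_all [PerfectField K] (hFG : FG K) (h : X.Good m) (t : I → ℤ) :
    (X.V t).FG := by
  have hm0 := h.pos
  obtain ⟨g, hg, hg0⟩ := h.exists_ne (fun j => (t j).natAbs)
  have h1 : (X.V t).map (LinearMap.mulLeft K g) ≤
      X.V ((fun j => (m : ℤ) * (t j).natAbs) + t) := by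
    rintro _ ⟨f, hf, rfl⟩
    exact Atl.V_mul hg hf
  have h2 : (X.V ((fun j => (m : ℤ) * (t j).natAbs) + t)).FG := by
    refine h.fg_nonneg hFG fun j => ?_
    rw [Pi.add_apply]
    have h3 : (1 : ℤ) ≤ m := by exact_mod_cast hm0
    have h4 : (0 : ℤ) ≤ (t j).natAbs := Int.natCast_nonneg _
    have h5 : -((t j).natAbs : ℤ) ≤ t j := by omega
    nlinarith
  exact Submodule.fg_of_fg_map_injective _ (fun x y hxy => mul_left_cancel₀ hg0 hxy)
    (Submodule.FG.of_le h2 h1)

theorem Atl.Good.zero_iff (h : X.Good m) (x : L) : x ∈ X.V 0 ↔ x ∈ K := by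
  refine ⟨fun hx => h.ac x ?_, Atl.K_mem_V⟩
  have h1 : x ∈ (⨅ V : {V : ValuationSubring L // (K : Set L) ⊆ V.toSubring}, V.1.toSubring) := by
    rw [Subring.mem_iInf]
    rintro ⟨O, hO⟩
    obtain ⟨i, hi⟩ := h.cover O fun y hy => hO hy
    refine hi x ?_
    have := hx i
    rwa [Atl.eq_zero, mul_one] at this
  rw [iInf_valuationSubring_superset] at h1
  have h2 : IsIntegral (Subring.closure (K : Set L)) x := h1
  have h3 : Subring.closure (K : Set L) = K.toSubring := Subring.closure_eq K.toSubring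
  rw [h3] at h2
  have h4 : IsIntegral K x := h2
  exact h4.isAlgebraic

theorem isIntegral_of_eq {A : Subring L} {y : L} {r : ℕ} {c : ℕ → L} (hc : ∀ j ≤ r, c j ∈ A)
    (hy : y ^ (r + 1) = ∑ j ∈ Finset.range (r + 1), c j * y ^ (r - j)) : IsIntegral A y := by
  classical
  set c' : ℕ → A := fun j => if hj : j ≤ r then ⟨c j, hc j hj⟩ else 0
  set q : Polynomial A := ∑ j ∈ Finset.range (r + 1), Polynomial.C (c' j) * Polynomial.X ^ (r - j)
  have hq : q.degree < (r + 1 : ℕ) := by
    refine lt_of_le_of_lt (Polynomial.degree_sum_le _ _) ?_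
    rw [Finset.sup_lt_iff (WithBot.bot_lt_coe _)]
    intro j _
    refine lt_of_le_of_lt (Polynomial.degree_C_mul_X_pow_le _ _) ?_
    exact_mod_cast (by omega : r - j < r + 1)
  refine ⟨Polynomial.X ^ (r + 1) - q, Polynomial.monic_X_pow_sub hq, ?_⟩
  rw [Polynomial.eval₂_sub, Polynomial.eval₂_X_pow, Polynomial.eval₂_finsetSum, hy, sub_eq_zero]
  refine Finset.sum_congr rfl fun j hj => ?_
  rw [Polynomial.eval₂_mul, Polynomial.eval₂_C, Polynomial.eval₂_X_pow]
  have hj' : j ≤ r := Nat.lt_succ_iff.1 (Finset.mem_range.1 hj)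
  congr 1
  simp only [c', dif_pos hj']
  rfl

theorem Atl.Good.sys [PerfectField K] (hFG : FG K) (h : X.Good m) :
    Sys K X.V Finset.univ (m * (m + 1)) where
  pos := Nat.mul_pos h.pos (Nat.succ_pos m)
  fg t _ := h.fg_all hFG t
  zero := h.zero_iff
  mul s _ t _ x hx y hy := Atl.V_mul hx hy
  two i _ := h.two i
  ic s _ y r c hc hy i := by
    refine h.closed i _ (isIntegral_of_eq (r := r) (c := fun j => c j * X.eq i ((j + 1) • s))
      (fun j hj => hc j hj i) ?_)
    rw [mul_pow, hy, Finset.sum_mul]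
    refine Finset.sum_congr rfl fun j hj => ?_
    have hj' : j ≤ r := Nat.lt_succ_iff.1 (Finset.mem_range.1 hj)
    obtain ⟨k, rfl⟩ := Nat.exists_eq_add_of_le hj'
    rw [Nat.add_sub_cancel_left, Atl.eq_nsmul]
    ring
  reg m' hm i _ := by
    obtain ⟨W, hW⟩ := h.gen_all hm
    have hm0 : 0 < m' := lt_of_lt_of_le (Nat.mul_pos h.pos (Nat.succ_pos m)) hm
    obtain ⟨s, hs1, hs⟩ := Atl.gen_sections hFG h.closed h.cover hm0 hW
    refine ⟨s.sup fun g => (g.2 i).toNat, fun v hv hCi f hf => ?_⟩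
    have hvn : ∀ j, 0 ≤ (v + e i (m' : ℤ)) j := fun j => by
      rw [Pi.add_apply]
      have := (Nn_e (S := Finset.univ) (Finset.mem_univ i) (m := (m' : ℤ))
        (Int.natCast_nonneg _)).1 j
      have := hv.1 j
      omega
    refine (Submodule.span_le.2 ?_) (hs _ hvn f hf)
    rintro y ⟨g, hg, k, hk, w, hw, rfl⟩
    have hgi : (g.2 i).toNat ≤ s.sup fun g => (g.2 i).toNat :=
      Finset.le_sup (f := fun g : L × (I → ℤ) => (g.2 i).toNat) hg
    have hki : k i ≠ 0 := by
      intro h0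
      have h1 := hk i
      rw [h0, Pi.add_apply, e_same] at h1
      have h2 := (hs1 g hg).1 i
      have h3 : ((g.2 i).toNat : ℤ) = g.2 i := Int.toNat_of_nonneg h2
      have h4 : ((g.2 i).toNat : ℤ) ≤ ((s.sup fun g => (g.2 i).toNat : ℕ) : ℤ) := by
        exact_mod_cast hgi
      simp only [Nat.cast_zero, mul_zero, zero_add] at h1
      omega
    obtain ⟨k', hk'⟩ : ∃ k' : I → ℕ, k = k' + Pi.single i 1 := by
      refine ⟨Function.update k i (k i - 1), funext fun j => ?_⟩
      rw [Pi.add_apply]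
      by_cases hj : j = i
      · subst hj
        rw [Function.update_self, Pi.single_eq_same]
        omega
      · rw [Function.update_of_ne hj, Pi.single_eq_of_ne hj, add_zero]
    have hprod : ∏ j, Submodule.span K (W j : Set L) ^ k j =
        (∏ j, Submodule.span K (W j : Set L) ^ k' j) * Submodule.span K (W i : Set L) := by
      rw [hk']
      simp only [Pi.add_apply, pow_add]
      rw [Finset.prod_mul_distrib]
      congr 1
      rw [Finset.prod_eq_single i]
      · rw [Pi.single_eq_same, pow_one]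
      · intro j _ hj
        rw [Pi.single_eq_of_ne hj, pow_zero]
      · intro hi
        exact absurd (Finset.mem_univ i) hi
    rw [hprod] at hw
    have hv' : v = (fun j => (m' : ℤ) * k' j) + g.2 := by
      funext j
      have h1 := hk j
      rw [hk'] at h1
      rw [Pi.add_apply, Pi.add_apply] at h1
      rw [Pi.add_apply]
      by_cases hj : j = i
      · subst hj
        rw [e_same, Pi.single_eq_same] at h1
        push_cast at h1
        linarith
      · rw [e_ne hj, Pi.single_eq_of_ne hj] at h1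
        push_cast at h1
        linarith
    have hle : (∏ j, Submodule.span K (W j : Set L) ^ k' j) * Submodule.span K (W i : Set L) *
        Submodule.span K {g.1} ≤ X.V v * X.V (e i (m' : ℤ)) := by
      rw [mul_assoc, mul_comm (Submodule.span K (W i : Set L)), ← mul_assoc]
      refine mul_le_mul' ?_ (hW.span_le i)
      have h1 := (mul_le_mul' (hW.prod_le k') (Submodule.span_le.2
        (Set.singleton_subset_iff.2 (hs1 g hg).2))).trans (Atl.V_mul_le (X := X) _ g.2)
      rw [← hv'] at h1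
      exact h1
    exact hle (Submodule.mul_mem_mul hw (Submodule.mem_span_singleton_self _))
  free m' hm i _ s _ g hg c := by
    obtain ⟨W, hW⟩ := h.gen_all hm
    obtain ⟨x, hx, hu⟩ := hW.2 c i
    have h1 := hg x (hW.1 i x hx) c
    rw [Atl.eq_add, Atl.eq_e] at h1
    have h2 := (X.A c).mul_mem h1 hu.2.2
    have h3 : g * x * (X.eq c s * X.d c i ^ m') * (x * X.d c i ^ m')⁻¹ = g * X.eq c s := by
      rw [show g * x * (X.eq c s * X.d c i ^ m') * (x * X.d c i ^ m')⁻¹ =
        g * X.eq c s * ((x * X.d c i ^ m') * (x * X.d c i ^ m')⁻¹) by ring,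
        mul_inv_cancel₀ hu.1, mul_one]
    rwa [h3] at h2

end KM
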