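import Pool.Agent.Lib.MP_732f67_ag.KM.AtDiv

/-! KM, atlas over one field, file 5: a section which is regular outside the contracted divisor `E`
is regular (Hartogs).

First `t = m • u`.  For a choice `l : I → L`, `l j ∈ W j`, `l j ≠ 0`, let
`G l = {s / l j | j, s ∈ W j}` and `F l = f / ∏ j, l j ^ (u j)`.  Claim: `F l` is integral over
`K[G l]`: otherwise `exists_div` gives `O` (the field generated by `K` and `G l` contains all
`s / s'`, `s, s' ∈ W j`: `hbig`); by `cover` there is `i` with `A i ⊆ O`.  By `Gen` some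
`s' ∈ W j` has `s' * d i j ^ m` a unit of `A i`; as `s' / l j ∈ O` and `l j * d i j ^ m ∈ A i ⊆ O`, also
`l j * d i j ^ m` is a unit of `O`.  If some `x ∈ E i` is not a unit of `O`: `res_change` from `G l` to
`G' = {s / s' j}` (`s / l j = (s / s' j) / (l j / s' j)`) gives `r'` contradicting `hcod` (the
value of `P` is `x * c`, not a unit).  So `∏ E i` is a unit of `O` and `f * eq i t ∈ O`, and
`F l = (f * eq i t) / ∏ (l j * d i j ^ m) ^ (u j) ∈ O`, contradiction.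
Now let `O` be any valuation ring containing `A i`: choose `l j` with `l j * d i j ^ m` a unit of
`A i`; then `G l ⊆ O`, so `F l ∈ O` and `f * eq i t ∈ O`.  By `closed` and
`iInf_valuationSubring_superset` `f * eq i t ∈ A i`.
General `t`: apply this to `f ^ m` and `m • t`, and `closed`. -/

namespace KM

variable {L : Type*} [Field L] {K : Subfield L} {ι I : Type*} [Fintype I] [DecidableEq I]
  {X : Atl K ι I} {m : ℕ}

/-! ### Auxiliary facts -/

theorem hart_eq_e (i : ι) (j : I) (n : ℕ) : X.eq i (e j n) = X.d i j ^ n := by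
  unfold Atl.eq
  rw [Finset.prod_eq_single j]
  · rw [e_same, zpow_natCast]
  · intro k _ hk
    rw [e_ne hk, zpow_zero]
  · intro h
    exact absurd (Finset.mem_univ j) h

theorem hart_eq_nsmul (i : ι) (s : I → ℤ) (n : ℕ) : X.eq i (n • s) = X.eq i s ^ n := by
  unfold Atl.eq
  rw [← Finset.prod_pow]
  refine Finset.prod_congr rfl fun j _ => ?_
  rw [Pi.smul_apply, nsmul_eq_mul, mul_comm, zpow_mul, zpow_natCast]

theorem hart_integral_of_val {P : Subring L} {x : L}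
    (h : ∀ O : ValuationSubring L, (∀ y ∈ P, y ∈ O) → x ∈ O) : IsIntegral P x := by
  have h1 : x ∈ (integralClosure (Subring.closure (P : Set L)) L).toSubring := by
    rw [← iInf_valuationSubring_superset, Subring.mem_iInf]
    intro V
    exact h V.1 fun y hy => V.2 hy
  rw [Subring.closure_eq] at h1
  exact h1

/-- valuation rings are integrally closed -/
theorem hart_mem_of_integral {P : Subring L} {x : L} (hx : IsIntegral P x)
    (O : ValuationSubring L) (h : ∀ y ∈ P, y ∈ O) : x ∈ O := by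
  let φ : P →+* O :=
    { toFun := fun y => ⟨y, h y y.2⟩
      map_one' := rfl
      map_mul' := fun _ _ => rfl
      map_zero' := rfl
      map_add' := fun _ _ => rfl }
  have h1 : IsIntegral O x := IsIntegral.map_of_comp_eq φ (RingHom.id L) (by
    ext y
    rfl) hx
  obtain ⟨y, hy⟩ := IsIntegrallyClosed.isIntegral_iff.1 h1
  rw [← hy]
  exact y.2

theorem hart_zpow_mem (O : ValuationSubring L) {x : L} (h1 : x ∈ O) (h2 : x⁻¹ ∈ O) (n : ℤ) :
    x ^ n ∈ O := by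
  obtain ⟨k, rfl | rfl⟩ := n.eq_nat_or_neg
  · rw [zpow_natCast]
    exact O.toSubring.pow_mem h1 k
  · rw [zpow_neg, zpow_natCast, ← inv_pow]
    exact O.toSubring.pow_mem h2 k

theorem hart_prod_mem (O : ValuationSubring L) {α : Type*} (s : Finset α) (x : α → L)
    (h : ∀ a ∈ s, x a ∈ O) : ∏ a ∈ s, x a ∈ O :=
  O.toSubring.toSubmonoid.prod_mem h

/-- `f * eq i (m • u)` in terms of `f / ∏ l j ^ u j` -/
theorem hart_key (i : ι) (u : I → ℤ) {l : I → L} (hl : ∀ j, l j ≠ 0) (f : L) :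
    f * X.eq i (m • u) = (f / ∏ j, l j ^ u j) * ∏ j, (l j * X.d i j ^ m) ^ u j := by
  have h1 : ∏ j, (l j * X.d i j ^ m) ^ u j = (∏ j, l j ^ u j) * X.eq i (m • u) := by
    unfold Atl.eq
    rw [← Finset.prod_mul_distrib]
    refine Finset.prod_congr rfl fun j _ => ?_
    rw [mul_zpow, Pi.smul_apply, nsmul_eq_mul, zpow_mul, zpow_natCast]
  have h2 : ∏ j, l j ^ u j ≠ 0 := Finset.prod_ne_zero_iff.2 fun j _ => zpow_ne_zero _ (hl j)
  rw [h1, ← mul_assoc, div_mul_cancel₀ _ h2]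

/-- the claim on `F l` -/
theorem hart_F [PerfectField K] (hFG : FG K) (h : X.Good m) {n : ℕ}
    (hn : rk K (Set.univ : Set L) = n) {W : I → Finset L} (hW : X.Gen m W)
    (hbig : ∀ x : L, IsAlgebraic (Subfield.closure ((K : Set L) ∪
      {y | ∃ j, ∃ s ∈ W j, ∃ s' ∈ W j, y = s / s'}) : Subfield L) x)
    (E : ι → Finset L) (hE : ∀ i, ∀ x ∈ E i, x ≠ 0 ∧ x ∈ X.A i)
    (hcod : ∀ i, ∀ x ∈ E i, ∀ r : Fin (n - 1) → L,
      (∀ k, ∃ j, ∃ s ∈ W j, ∃ s' ∈ W j, UnitOf (X.A i) (s' * X.d i j ^ m) ∧ r k = s / s') →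
      ∃ P : MvPolynomial (Fin (n - 1)) K, P ≠ 0 ∧ ∃ c ∈ X.A i, MvPolynomial.aeval r P = x * c)
    {u : I → ℤ} {f : L} (hf : ∀ i, ∃ N : ℕ, f * X.eq i (m • u) * (∏ x ∈ E i, x) ^ N ∈ X.A i)
    {l : I → L} (hlW : ∀ j, l j ∈ W j) (hl : ∀ j, l j ≠ 0) (P : Subring L)
    (hKP : ∀ x ∈ K, x ∈ P) (hWP : ∀ j, ∀ s ∈ W j, s / l j ∈ P) :
    IsIntegral P (f / ∏ j, l j ^ u j) := by
  classical
  set G : Finset L := Finset.univ.biUnion fun j => (W j).image fun s => s / l j with hGdef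
  have hGmem : ∀ g, g ∈ G ↔ ∃ j, ∃ s ∈ W j, g = s / l j := by
    intro g
    rw [hGdef, Finset.mem_biUnion]
    constructor
    · rintro ⟨j, _, hj⟩
      obtain ⟨s, hs, rfl⟩ := Finset.mem_image.1 hj
      exact ⟨j, s, hs, rfl⟩
    · rintro ⟨j, s, hs, rfl⟩
      exact ⟨j, Finset.mem_univ j, Finset.mem_image.2 ⟨s, hs, rfl⟩⟩
  have hle : Subring.closure ((K : Set L) ∪ G) ≤ P := by
    rw [Subring.closure_le]
    rintro x (hx | hx)
    · exact hKP x hx
    · obtain ⟨j, s, hs, rfl⟩ := (hGmem x).1 hx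
      exact hWP j s hs
  have hcl : Subfield.closure ((K : Set L) ∪ {y | ∃ j, ∃ s ∈ W j, ∃ s' ∈ W j, y = s / s'}) =
      Subfield.closure ((K : Set L) ∪ G) := by
    refine le_antisymm ?_ ?_
    · rw [Subfield.closure_le]
      rintro x (hx | ⟨j, s, hs, s', hs', rfl⟩)
      · exact Subfield.subset_closure (Or.inl hx)
      · have h1 : s / l j ∈ Subfield.closure ((K : Set L) ∪ G) :=
          Subfield.subset_closure (Or.inr ((hGmem _).2 ⟨j, s, hs, rfl⟩))
        have h2 : s' / l j ∈ Subfield.closure ((K : Set L) ∪ G) :=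
          Subfield.subset_closure (Or.inr ((hGmem _).2 ⟨j, s', hs', rfl⟩))
        have h3 : s / s' = (s / l j) / (s' / l j) := (div_div_div_cancel_right₀ (hl j) s s').symm
        rw [h3]
        exact Subfield.div_mem _ h1 h2
    · rw [Subfield.closure_le]
      rintro x (hx | hx)
      · exact Subfield.subset_closure (Or.inl hx)
      · obtain ⟨j, s, hs, rfl⟩ := (hGmem x).1 hx
        exact Subfield.subset_closure (Or.inr ⟨j, s, hs, l j, hlW j, rfl⟩)
  rw [hcl] at hbig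
  by_contra hnot
  have hnot' : ¬ IsIntegral (Subring.closure ((K : Set L) ∪ G)) (f / ∏ j, l j ^ u j) := by
    intro hi
    refine hnot ?_
    exact IsIntegral.map_of_comp_eq (Subring.inclusion hle) (RingHom.id L) (by
      ext y
      rfl) hi
  obtain ⟨O, hKO, hGO, hFO, r, hrG, hres⟩ := exists_div hFG hn.ge G hbig hnot'
  obtain ⟨i, hi⟩ := h.cover O hKO
  have hsec : ∀ j, ∀ s ∈ W j, s * X.d i j ^ m ∈ X.A i := by
    intro j s hs
    have h1 := hW.1 j s hs i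
    rwa [hart_eq_e] at h1
  choose s' hs'W hs'U using fun j => hW.2 i j
  have hs'0 : ∀ j, s' j ≠ 0 := fun j h0 => (hs'U j).1 (by rw [h0, zero_mul])
  have hd0 : ∀ j, X.d i j ^ m ≠ 0 := fun j => pow_ne_zero _ (X.ne i j)
  have hlinv : ∀ j, (l j * X.d i j ^ m)⁻¹ ∈ O := by
    intro j
    have h1 : (l j * X.d i j ^ m)⁻¹ = (s' j / l j) * (s' j * X.d i j ^ m)⁻¹ := by
      have := hs'0 j
      have := hl j
      have := hd0 j
      field_simp
    rw [h1]
    exact O.mul_mem _ _ (hGO _ ((hGmem _).2 ⟨j, s' j, hs'W j, rfl⟩)) (hi _ (hs'U j).2.2)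
  -- the elements of `E i` are units of `O`
  have hEO : ∀ x ∈ E i, x⁻¹ ∈ O := by
    intro x hx
    by_contra hxO
    set G' : Set L := {g | ∃ j, ∃ s ∈ W j, ∃ s' ∈ W j,
      UnitOf (X.A i) (s' * X.d i j ^ m) ∧ g = s / s'} with hG'
    have hG'O : ∀ g ∈ G', g ∈ O := by
      rintro g ⟨j, s, hs, s₁, _, hU, rfl⟩
      have h1 : s / s₁ = (s * X.d i j ^ m) * (s₁ * X.d i j ^ m)⁻¹ := by
        rw [← div_eq_mul_inv, mul_div_mul_right _ _ (hd0 j)]
      rw [h1]
      exact O.mul_mem _ _ (hi _ (hsec j s hs)) (hi _ hU.2.2)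
    obtain ⟨r', hr'G, hres'⟩ := res_change (G := (G : Set L)) hKO hG'O (by
      intro g hg
      obtain ⟨j, s, hs, rfl⟩ := (hGmem g).1 hg
      refine ⟨s / s' j, Subring.subset_closure (Or.inr ⟨j, s, hs, s' j, hs'W j, hs'U j, rfl⟩),
        l j / s' j, Subring.subset_closure (Or.inr ⟨j, l j, hlW j, s' j, hs'W j, hs'U j, rfl⟩),
        div_ne_zero (hl j) (hs'0 j), ?_, ?_⟩
      · rw [inv_div]
        exact hGO _ ((hGmem _).2 ⟨j, s' j, hs'W j, rfl⟩)
      · exact (div_div_div_cancel_right₀ (hs'0 j) s (l j)).symm) hrG hres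
    obtain ⟨Q, hQ0, c, hc, hQ⟩ := hcod i x hx r' hr'G
    obtain ⟨h1, h2⟩ := hres'.2 Q hQ0
    rw [hQ] at h1 h2
    have hc0 : c ≠ 0 := right_ne_zero_of_mul h1
    apply hxO
    have h3 : x⁻¹ = (x * c)⁻¹ * c := by
      rw [mul_inv, mul_assoc, inv_mul_cancel₀ hc0, mul_one]
    rw [h3]
    exact O.mul_mem _ _ h2 (hi _ hc)
  apply hFO
  obtain ⟨N, hN⟩ := hf i
  have hprod0 : (∏ x ∈ E i, x) ≠ 0 := Finset.prod_ne_zero_iff.2 fun x hx => (hE i x hx).1
  have hprodinv : (∏ x ∈ E i, x)⁻¹ ∈ O := by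
    rw [← Finset.prod_inv_distrib]
    exact hart_prod_mem O _ _ hEO
  have hfO : f * X.eq i (m • u) ∈ O := by
    have h1 : f * X.eq i (m • u) =
        (f * X.eq i (m • u) * (∏ x ∈ E i, x) ^ N) * ((∏ x ∈ E i, x)⁻¹) ^ N := by
      rw [mul_assoc (f * X.eq i (m • u)), ← mul_pow, mul_inv_cancel₀ hprod0, one_pow, mul_one]
    rw [h1]
    exact O.mul_mem _ _ (hi _ hN) (O.toSubring.pow_mem hprodinv N)
  have hlu0 : (∏ j, (l j * X.d i j ^ m) ^ u j) ≠ 0 :=
    Finset.prod_ne_zero_iff.2 fun j _ => zpow_ne_zero _ (mul_ne_zero (hl j) (hd0 j))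
  have h1 : f / ∏ j, l j ^ u j =
      (f * X.eq i (m • u)) * (∏ j, (l j * X.d i j ^ m) ^ u j)⁻¹ := by
    rw [hart_key i u hl f, mul_assoc, mul_inv_cancel₀ hlu0, mul_one]
  rw [h1]
  refine O.mul_mem _ _ hfO ?_
  rw [← Finset.prod_inv_distrib]
  refine hart_prod_mem O _ _ fun j _ => ?_
  rw [← zpow_neg]
  exact hart_zpow_mem O (hi _ (hsec j (l j) (hlW j))) (hlinv j) _

theorem Atl.Good.hart [PerfectField K] (hFG : FG K) (h : X.Good m) {n : ℕ}
    (hn : rk K (Set.univ : Set L) = n) {W : I → Finset L} (hW : X.Gen m W)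
    (hbig : ∀ x : L, IsAlgebraic (Subfield.closure ((K : Set L) ∪
      {y | ∃ j, ∃ s ∈ W j, ∃ s' ∈ W j, y = s / s'}) : Subfield L) x)
    (E : ι → Finset L) (hE : ∀ i, ∀ x ∈ E i, x ≠ 0 ∧ x ∈ X.A i)
    (hcod : ∀ i, ∀ x ∈ E i, ∀ r : Fin (n - 1) → L,
      (∀ k, ∃ j, ∃ s ∈ W j, ∃ s' ∈ W j, UnitOf (X.A i) (s' * X.d i j ^ m) ∧ r k = s / s') →
      ∃ P : MvPolynomial (Fin (n - 1)) K, P ≠ 0 ∧ ∃ c ∈ X.A i, MvPolynomial.aeval r P = x * c)
    {t : I → ℤ} {f : L} (hf : ∀ i, ∃ N : ℕ, f * X.eq i t * (∏ x ∈ E i, x) ^ N ∈ X.A i) :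
    f ∈ X.V t := by
  classical
  -- it is enough to treat `f ^ m`
  have hfm : ∀ i, ∃ N : ℕ, f ^ m * X.eq i (m • t) * (∏ x ∈ E i, x) ^ N ∈ X.A i := by
    intro i
    obtain ⟨N, hN⟩ := hf i
    refine ⟨N * m, ?_⟩
    have h1 : f ^ m * X.eq i (m • t) * (∏ x ∈ E i, x) ^ (N * m) =
        (f * X.eq i t * (∏ x ∈ E i, x) ^ N) ^ m := by
      rw [hart_eq_nsmul, mul_pow, mul_pow, ← pow_mul]
    rw [h1]
    exact (X.A i).pow_mem hN m
  intro i
  have hmain : f ^ m * X.eq i (m • t) ∈ X.A i := by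
    refine h.closed i _ (hart_integral_of_val fun O hO => ?_)
    choose l hlW hlU using fun j => hW.2 i j
    have hl0 : ∀ j, l j ≠ 0 := fun j h0 => (hlU j).1 (by rw [h0, zero_mul])
    have hd0 : ∀ j, X.d i j ^ m ≠ 0 := fun j => pow_ne_zero _ (X.ne i j)
    have hint := hart_F hFG h hn hW hbig E hE hcod hfm hlW hl0 (X.A i) (X.le i) (by
      intro j s hs
      have h1 : s / l j = (s * X.d i j ^ m) * (l j * X.d i j ^ m)⁻¹ := by
        rw [← div_eq_mul_inv, mul_div_mul_right _ _ (hd0 j)]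
      rw [h1]
      refine (X.A i).mul_mem ?_ (hlU j).2.2
      have h2 := hW.1 j s hs i
      rwa [hart_eq_e] at h2)
    rw [hart_key i t hl0]
    refine O.mul_mem _ _ (hart_mem_of_integral hint O hO) ?_
    exact hart_prod_mem O _ _ fun j _ => hart_zpow_mem O (hO _ (hlU j).2.1) (hO _ (hlU j).2.2) _
  refine h.closed i _ ?_
  rw [hart_eq_nsmul, ← mul_pow] at hmain
  have h2 : IsIntegral (X.A i) ((f * X.eq i t) ^ m) := by
    have h3 := isIntegral_algebraMap (R := X.A i) (A := L) (x := ⟨_, hmain⟩)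
    exact h3
  exact IsIntegral.of_pow h.pos h2

end KM
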