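import Pool.Agent.Lib.MP_732f67_ag.KM.Final
import Pool.Agent.Lib.MP_732f67_ag.KM.AtHart
import Pool.Agent.Lib.MP_732f67_ag.KM.AtSys

/-! KM: assembly in characteristic `p`: from an atlas over the perfect field `K` and a `p⁻¹`-linear
map `τ` to the inequality and to the equality data. -/

namespace KM

variable {L : Type*} [Field L] {K : Subfield L} {ι I : Type*} [Fintype I] [DecidableEq I]
  {X : Atl K ι I} {m p : ℕ} {a : I → ℝ}

/-- `1 + p + ... + p ^ (N - 1)` -/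
def geo (p N : ℕ) : ℕ := ∑ i ∈ Finset.range N, p ^ i

theorem geo_succ (p N : ℕ) : geo p (N + 1) = p * geo p N + 1 := by
  unfold geo
  rw [Finset.sum_range_succ', Finset.mul_sum, pow_zero]
  congr 1
  exact Finset.sum_congr rfl fun i _ => by rw [pow_succ, mul_comm]

theorem geo_mul (p N : ℕ) : (geo p N : ℝ) * ((p : ℝ) - 1) = (p : ℝ) ^ N - 1 := by
  induction N with
  | zero => simp [geo]
  | succ N ih =>
    rw [geo_succ]
    push_cast
    rw [add_mul, mul_assoc, ih, pow_succ]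
    ring

theorem IsInv.iter {τ : L → L} (hτ : IsInv p τ) (N : ℕ) : IsInv (p ^ N) τ^[N] := by
  induction N with
  | zero => exact ⟨fun _ _ => rfl, fun x y => by simp⟩
  | succ n ih =>
    refine ⟨fun x y => ?_, fun x y => ?_⟩
    · rw [Function.iterate_succ_apply, Function.iterate_succ_apply, Function.iterate_succ_apply,
        hτ.add, ih.add]
    · rw [Function.iterate_succ_apply, Function.iterate_succ_apply, pow_succ, pow_mul, hτ.lin,
        ih.lin]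

theorem iter_mem {V : (I → ℤ) → Submodule K L} {τ : L → L} {A : I → ℤ}
    (hV : ∀ t, ∀ y ∈ V ((p : ℤ) • t + A), τ y ∈ V t) (N : ℕ) :
    ∀ t, ∀ y ∈ V ((p ^ N : ℤ) • t + (geo p N : ℤ) • A), τ^[N] y ∈ V t := by
  induction N with
  | zero =>
    intro t y hy
    simpa [geo] using hy
  | succ N ih =>
    intro t y hy
    rw [Function.iterate_succ_apply]
    apply ih t
    apply hV
    convert hy using 2
    rw [geo_succ, pow_succ]
    push_cast
    module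

/-- from `τ` to (A5!) -/
theorem splitX_of {V : (I → ℤ) → Submodule K L} (hp : 2 ≤ p) (ha : ∀ i, 0 < a i) {A : I → ℤ}
    (hA : ∀ i, (A i : ℝ) = ((p : ℝ) - 1) * a i) {τ : L → L} (hτ : IsInv p τ)
    (hV : ∀ t, ∀ y ∈ V ((p : ℤ) • t + A), τ y ∈ V t)
    (hHH : ∀ u ∈ Nn (Finset.univ : Finset I), ∀ c ∈ V u, c ≠ 0 → ∀ N₁ : ℕ, ∃ N ≥ N₁,
      ∃ y ∈ V ((geo p N : ℤ) • A - u), τ^[N] (c * y) = 1) : SplitX p V Finset.univ a := by
  intro u hu c hc hc0 N₀
  obtain ⟨N, hN, y, hy, hy1⟩ := hHH u hu c hc hc0 N₀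
  have hA0 : ∀ i, 0 ≤ A i := by
    intro i
    have h1 : (0 : ℝ) ≤ A i := by
      rw [hA i]
      have : (2 : ℝ) ≤ p := by exact_mod_cast hp
      exact mul_nonneg (by linarith) (ha i).le
    exact_mod_cast h1
  refine ⟨N, hN, (geo p N : ℤ) • A, ⟨fun i => ?_, fun i hi => absurd (Finset.mem_univ i) hi⟩,
    fun i _ => ?_, τ^[N], hτ.iter N, fun t _ y hy => iter_mem hV N t y hy, y, hy, hy1⟩
  · rw [Pi.smul_apply, smul_eq_mul]
    exact mul_nonneg (Int.natCast_nonneg _) (hA0 i)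
  · rw [Pi.smul_apply, smul_eq_mul]
    push_cast
    rw [hA i, ← mul_assoc, geo_mul]

theorem FF_of_perfect [Fact p.Prime] [CharP L p] [PerfectField K] : FF p K := by
  refine ⟨{1}, fun x hx => ?_⟩
  have : CharP K p := (algebraMap K L).charP (algebraMap K L).injective p
  obtain ⟨y, hy⟩ := surjective_frobenius K p ⟨x, hx⟩
  have h1 : x = (y : L) ^ p := by
    have := congrArg (fun z : K => (z : L)) hy
    simpa [frobenius_def] using this.symm
  have h2 : (y : L) ^ p ∈ K.map (frobenius L p) := ⟨y, y.2, rfl⟩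
  have h3 : x = (⟨(y : L) ^ p, h2⟩ : K.map (frobenius L p)) • (1 : L) := by
    rw [Subfield.smul_def, smul_eq_mul, mul_one, h1]
  rw [h3]
  exact Submodule.smul_mem _ _ (Submodule.subset_span (by simp))

/-- **the theorem in characteristic `p`** -/
theorem Atl.Good.asm [PerfectField K] [Fact p.Prime] [CharP L p] (hFG : FG K) (h : X.Good m)
    {n : ℕ} (hn : rk K (Set.univ : Set L) = n) {W : I → Finset L} (hW : X.Gen m W)
    (hbig : ∀ x : L, IsAlgebraic (Subfield.closure ((K : Set L) ∪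
      {y | ∃ j, ∃ s ∈ W j, ∃ s' ∈ W j, y = s / s'}) : Subfield L) x)
    (E : ι → Finset L) (hE : ∀ i, ∀ x ∈ E i, x ≠ 0 ∧ x ∈ X.A i)
    (hcod : ∀ i, ∀ x ∈ E i, ∀ r : Fin (n - 1) → L,
      (∀ k, ∃ j, ∃ s ∈ W j, ∃ s' ∈ W j, UnitOf (X.A i) (s' * X.d i j ^ m) ∧ r k = s / s') →
      ∃ P : MvPolynomial (Fin (n - 1)) K, P ≠ 0 ∧ ∃ c ∈ X.A i, MvPolynomial.aeval r P = x * c)
    (ha : ∀ i, 0 < a i) {A : I → ℤ} (hA : ∀ i, (A i : ℝ) = ((p : ℝ) - 1) * a i) {τ : L → L}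
    (hτ : IsInv p τ)
    (hV : ∀ t, ∀ y ∈ X.V ((p : ℤ) • t + A), ∀ i, ∃ N : ℕ,
      τ y * X.eq i t * (∏ x ∈ E i, x) ^ N ∈ X.A i)
    (hHH : ∀ u ∈ Nn (Finset.univ : Finset I), ∀ c ∈ X.V u, c ≠ 0 → ∀ N₁ : ℕ, ∃ N ≥ N₁,
      ∃ y ∈ X.V ((geo p N : ℤ) • A - u), τ^[N] (c * y) = 1) :
    ∑ i, a i ≤ 2 * n ∧ (∑ i, a i = 2 * n → ∃ J : Finset I, J.card = n ∧
      (∀ i, ∃ j ∈ J, ∃ g, g ≠ 0 ∧ g ∈ X.V (e i 1 - e j 1) ∧ g⁻¹ ∈ X.V (e j 1 - e i 1)) ∧
      (∀ u ∈ Nn J, Module.finrank K (X.V u) = ∏ j ∈ J, ((u j).toNat + 1)) ∧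
      ∀ s₀ s₁ : I → L, (∀ j ∈ J, s₀ j ∈ X.V (e j 1) ∧ s₁ j ∈ X.V (e j 1) ∧ s₀ j ≠ 0 ∧
        s₁ j / s₀ j ∉ K) → AlgebraicIndependent K (fun j : J => s₁ j / s₀ j)) := by
  have hsys := h.sys hFG
  have hp : 2 ≤ p := (Fact.out : p.Prime).two_le
  have hs : SplitX p X.V Finset.univ a := splitX_of hp ha hA hτ
    (fun t y hy => h.hart hFG hn hW hbig E hE hcod (fun i => hV t y hy i)) hHH
  have hF : FF p K := FF_of_perfect
  have hnu : nu X.V Finset.univ ≤ n := by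
    rw [← hn]
    exact (AlgebraicIndependent.matroid K L).eRk_mono (Set.subset_univ _)
  have hnu' : (nu X.V Finset.univ).toNat ≤ n := ENat.toNat_le_of_le_coe hnu
  have h1 := theoremA_le hsys hs.split (fun i _ => ha i) hF hFG
  have h2 : (2 : ℝ) * ((nu X.V Finset.univ).toNat : ℝ) ≤ 2 * n := by
    have : ((nu X.V Finset.univ).toNat : ℝ) ≤ n := by exact_mod_cast hnu'
    linarith
  refine ⟨h1.trans h2, fun heq => ?_⟩
  have h3 : ∑ i, a i = 2 * ((nu X.V Finset.univ).toNat : ℝ) := le_antisymm h1 (by rw [heq]; exact h2)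
  have h4 : (nu X.V Finset.univ).toNat = n := by
    have : ((nu X.V Finset.univ).toNat : ℝ) = n := by linarith
    exact_mod_cast this
  obtain ⟨J, -, hJ, h5, h6, h7⟩ := theoremA_final hsys hs (fun i _ => ha i) hF hFG h3
  exact ⟨J, by rw [hJ, h4], fun i => h5 i (Finset.mem_univ i), h6, h7⟩

end KM
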