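import Mathlib

/-! KM, atlas over one field, file 2: a noetherian normal domain is the intersection of its
localisations at height one primes.

Among the ideals `(C : c F) = {a | a c F ∈ C}`, `c ∈ C` with `c F ∉ C`, choose a maximal one, `p`, for
`F' = c F`: it is prime, and `F' ∉ C_p`, so `F ∉ C_p`.  In `C_p`: `p F' ⊆ C_p`; if
`p F' ⊆ p C_p` then `F'` is integral over `C_p` (`p` finitely generated, nonzero, faithful), so
`F' ∈ C_p`, contradiction; so `π F' = 1`-unit for some `π ∈ p`, `p C_p = (π)`: principal. Hence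
every element `x ≠ 0` of `L` has `x ∈ C_p` or `x⁻¹ ∈ C_p` (`C_p` noetherian local domain with
principal maximal ideal), and `p` has height one. -/

namespace KM

section H1aux

variable {C L : Type*} [CommRing C] [IsDomain C] [Field L] [Algebra C L]

/-- the conductor of an element of the fraction field -/
def h1I (F : L) : Ideal C where
  carrier := {a | ∃ b : C, algebraMap C L b = algebraMap C L a * F}
  add_mem' := by
    rintro a a' ⟨b, hb⟩ ⟨b', hb'⟩
    exact ⟨b + b', by rw [map_add, map_add, add_mul, hb, hb']⟩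
  zero_mem' := ⟨0, by simp⟩
  smul_mem' := by
    rintro c a ⟨b, hb⟩
    exact ⟨c * b, by rw [smul_eq_mul, map_mul, map_mul, hb, mul_assoc]⟩

omit [IsDomain C] in
theorem mem_h1I (F : L) (a : C) :
    a ∈ h1I (C := C) F ↔ ∃ b : C, algebraMap C L b = algebraMap C L a * F := Iff.rfl

/-- the contraction of the localisation of a principal ideal -/
def h1T (p : Ideal C) [p.IsPrime] (a : C) : Ideal C where
  carrier := {x | ∃ s, s ∉ p ∧ ∃ r, s * x = r * a}
  add_mem' := by
    rintro x x' ⟨s, hs, r, hr⟩ ⟨s', hs', r', hr'⟩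
    refine ⟨s * s', fun h => ?_, s' * r + s * r', ?_⟩
    · rcases (‹p.IsPrime›).mem_or_mem h with h | h
      · exact hs h
      · exact hs' h
    · calc s * s' * (x + x') = s' * (s * x) + s * (s' * x') := by ring
        _ = _ := by rw [hr, hr']; ring
  zero_mem' := ⟨1, fun h => (‹p.IsPrime›).ne_top ((Ideal.eq_top_iff_one p).2 h), 0, by simp⟩
  smul_mem' := by
    rintro c x ⟨s, hs, r, hr⟩
    exact ⟨s, hs, c * r, by rw [smul_eq_mul, mul_left_comm, hr, mul_assoc]⟩

theorem h1_factor [IsNoetherianRing C] (p : Ideal C) [p.IsPrime] (π u : C) (hπ : π ∈ p)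
    (hu : u ∉ p) (h : ∀ a ∈ p, ∃ a', a * u = π * a') (a : C) (ha : a ≠ 0) :
    ∃ n s t, s ∉ p ∧ t ∉ p ∧ a * s = π ^ n * t := by
  have h1p : (1 : C) ∉ p := fun h => (‹p.IsPrime›).ne_top ((Ideal.eq_top_iff_one p).2 h)
  have hu0 : u ≠ 0 := fun h => hu (h ▸ p.zero_mem)
  suffices H : ∀ J : Ideal C, ∀ a, a ≠ 0 → h1T p a = J →
      ∃ n s t, s ∉ p ∧ t ∉ p ∧ a * s = π ^ n * t from H _ a ha rfl
  intro J
  induction J using WellFoundedGT.induction with
  | ind J ih =>
    intro a ha hJ
    by_cases hap : a ∈ p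
    · obtain ⟨a', ha'⟩ := h a hap
      have ha'0 : a' ≠ 0 := by
        rintro rfl
        rw [mul_zero] at ha'
        rcases mul_eq_zero.1 ha' with h | h
        · exact ha h
        · exact hu0 h
      have hlt : J < h1T p a' := by
        refine lt_of_le_of_ne ?_ ?_
        · rw [← hJ]
          rintro x ⟨s, hs, r, hr⟩
          refine ⟨s * u, fun hh => ?_, r * π, ?_⟩
          · rcases (‹p.IsPrime›).mem_or_mem hh with h | h
            · exact hs h
            · exact hu h
          · calc s * u * x = (s * x) * u := by ring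
              _ = r * (a * u) := by rw [hr]; ring
              _ = _ := by rw [ha']; ring
        · intro heq
          have h2 : a' ∈ h1T p a' := ⟨1, h1p, 1, rfl⟩
          rw [← heq, ← hJ] at h2
          obtain ⟨s, hs, r, hr⟩ := h2
          have h3 : s * u = r * π := by
            apply mul_left_cancel₀ ha'0
            calc a' * (s * u) = (s * a') * u := by ring
              _ = r * (a * u) := by rw [hr]; ring
              _ = _ := by rw [ha']; ring
          have h4 : s * u ∈ p := by
            rw [h3]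
            exact p.mul_mem_left _ hπ
          rcases (‹p.IsPrime›).mem_or_mem h4 with h | h
          · exact hs h
          · exact hu h
      obtain ⟨n, s, t, hs, ht, hst⟩ := ih _ hlt a' ha'0 rfl
      refine ⟨n + 1, u * s, t, fun hh => ?_, ht, ?_⟩
      · rcases (‹p.IsPrime›).mem_or_mem hh with h | h
        · exact hu h
        · exact hs h
      · calc a * (u * s) = (a * u) * s := by ring
          _ = π * (a' * s) := by rw [ha']; ring
          _ = _ := by rw [hst]; ring
    · exact ⟨0, 1, a, h1p, hap, by ring⟩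

end H1aux

theorem h1 {C L : Type*} [CommRing C] [IsDomain C] [IsNoetherianRing C] [IsIntegrallyClosed C]
    [Field L] [Algebra C L] [IsFractionRing C L] {F : L} (hF : ∀ c : C, algebraMap C L c ≠ F) :
    ∃ p : Ideal C, p.IsPrime ∧ p.height = 1 ∧
      (∀ a b : C, b ∉ p → F ≠ algebraMap C L a / algebraMap C L b) ∧
      ∀ x : L, (∃ a b : C, b ∉ p ∧ x = algebraMap C L a / algebraMap C L b) ∨
        ∃ a b : C, b ∉ p ∧ x⁻¹ = algebraMap C L a / algebraMap C L b := by
  have hinj : Function.Injective (algebraMap C L) := IsFractionRing.injective C L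
  have hz : ∀ a : C, algebraMap C L a = 0 → a = 0 := fun a ha =>
    hinj (ha.trans (map_zero _).symm)
  -- a maximal conductor
  have hex : ∃ p : Ideal C, (∃ c : C, (∀ d : C, algebraMap C L d ≠ algebraMap C L c * F) ∧
      p = h1I (C := C) (algebraMap C L c * F)) ∧
      ∀ I : Ideal C, (∃ c : C, (∀ d : C, algebraMap C L d ≠ algebraMap C L c * F) ∧
      I = h1I (C := C) (algebraMap C L c * F)) → ¬ p < I := by
    obtain ⟨p, h1, h2⟩ := set_has_maximal_iff_noetherian.2 ‹IsNoetherianRing C›
      {I : Ideal C | ∃ c : C, (∀ d : C, algebraMap C L d ≠ algebraMap C L c * F) ∧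
        I = h1I (C := C) (algebraMap C L c * F)}
      ⟨_, 1, by simpa using hF, rfl⟩
    exact ⟨p, h1, h2⟩
  obtain ⟨p, ⟨c, hc, hcp⟩, hmax⟩ := hex
  set F' : L := algebraMap C L c * F with hF'
  have hmem : ∀ a, a ∈ p ↔ ∃ b : C, algebraMap C L b = algebraMap C L a * F' := by
    intro a
    rw [hcp]
    exact mem_h1I F' a
  have h1p : (1 : C) ∉ p := by
    rw [hmem]
    rintro ⟨b, hb⟩
    rw [map_one, one_mul] at hb
    exact hc b hb
  have hprime : p.IsPrime := by
    refine ⟨fun h => h1p ((Ideal.eq_top_iff_one p).1 h), ?_⟩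
    intro a b hab
    by_contra hcon
    push Not at hcon
    obtain ⟨ha, hb⟩ := hcon
    have h2 : ∃ c' : C, (∀ d : C, algebraMap C L d ≠ algebraMap C L c' * F) ∧
          h1I (C := C) (algebraMap C L (b * c) * F) = h1I (C := C) (algebraMap C L c' * F) := by
      refine ⟨b * c, fun d hd => hb ?_, rfl⟩
      rw [hmem]
      exact ⟨d, by rw [hd, hF', map_mul, mul_assoc]⟩
    have h3 : p ≤ h1I (C := C) (algebraMap C L (b * c) * F) := by
      intro x hx
      obtain ⟨y, hy⟩ := (hmem x).1 hx
      refine ⟨b * y, ?_⟩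
      rw [map_mul, hy, hF', map_mul]
      ring
    have h4 : h1I (C := C) (algebraMap C L (b * c) * F) = p :=
      (eq_of_le_of_not_lt h3 (hmax _ h2)).symm
    apply ha
    rw [← h4]
    obtain ⟨y, hy⟩ := (hmem _).1 hab
    refine ⟨y, ?_⟩
    rw [hy, hF', map_mul, map_mul]
    ring
  -- p is not zero
  have hp0 : p ≠ ⊥ := by
    obtain ⟨x, y, hy, hxy⟩ := IsFractionRing.div_surjective (A := C) F'
    intro hbot
    have h2 : y ∈ p := by
      rw [hmem]
      refine ⟨x, ?_⟩
      rw [← hxy, mul_div_cancel₀]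
      intro h3
      exact nonZeroDivisors.ne_zero hy (hz _ h3)
    rw [hbot, Ideal.mem_bot] at h2
    exact nonZeroDivisors.ne_zero hy h2
  -- the uniformizer
  have hπ : ∃ π ∈ p, ∃ u, u ∉ p ∧ algebraMap C L u = algebraMap C L π * F' := by
    by_contra hcon
    push Not at hcon
    have hint : IsIntegral C F' := by
      refine isIntegral_of_smul_mem_submodule (M := L)
        (Submodule.map (Algebra.linearMap C L) p) ?_ ?_ F' ?_
      · intro h
        apply hp0
        rw [eq_bot_iff]
        intro a ha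
        have h2 : algebraMap C L a ∈ Submodule.map (Algebra.linearMap C L) p := ⟨a, ha, rfl⟩
        rw [h, Submodule.mem_bot] at h2
        exact hz a h2
      · exact Submodule.FG.map _ (IsNoetherian.noetherian p)
      · rintro _ ⟨a, ha, rfl⟩
        obtain ⟨b, hb⟩ := (hmem a).1 ha
        have hbp : b ∈ p := by
          by_contra hbp
          exact hcon a ha b hbp hb
        refine ⟨b, hbp, ?_⟩
        rw [Algebra.linearMap_apply, Algebra.linearMap_apply, hb, smul_eq_mul, mul_comm]
    obtain ⟨d, hd⟩ := IsIntegrallyClosed.isIntegral_iff.1 hint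
    exact hc d hd
  obtain ⟨π, hπp, u, hup, hu⟩ := hπ
  have hu0 : u ≠ 0 := fun h => hup (h ▸ p.zero_mem)
  have hπ0 : π ≠ 0 := by
    rintro rfl
    rw [map_zero, zero_mul] at hu
    exact hu0 (hz _ hu)
  have hstep : ∀ a ∈ p, ∃ a', a * u = π * a' := by
    intro a ha
    obtain ⟨b, hb⟩ := (hmem a).1 ha
    refine ⟨b, hinj ?_⟩
    rw [map_mul, map_mul, hu, hb]
    ring
  have hfac := h1_factor p π u hπp hup hstep
  refine ⟨p, hprime, ?_, ?_, ?_⟩
  · -- the height
    have h2 : p ∈ (Ideal.span {π}).minimalPrimes := by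
      refine ⟨⟨hprime, by rw [Ideal.span_singleton_le_iff_mem]; exact hπp⟩, ?_⟩
      intro p' hp'le hpp a ha
      obtain ⟨hp', hle⟩ := hp'le
      have h3 : π ∈ p' := hle (Ideal.mem_span_singleton_self π)
      obtain ⟨b, hb⟩ := hstep a ha
      have h4 : a * u ∈ p' := by
        rw [hb]
        exact p'.mul_mem_right _ h3
      rcases hp'.mem_or_mem h4 with h | h
      · exact h
      · exact absurd (hpp h) hup
    have h3 := Ideal.height_le_one_of_isPrincipal_of_mem_minimalPrimes _ p h2
    refine le_antisymm h3 ?_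
    rw [Order.one_le_iff_ne_zero, Ne, Ideal.height_eq_zero_iff_eq_bot]
    exact hp0
  · intro a b hb hab
    apply hb
    rw [hmem]
    have hb0 : algebraMap C L b ≠ 0 := fun h => hb ((hz _ h) ▸ p.zero_mem)
    refine ⟨c * a, ?_⟩
    rw [hF', hab, map_mul]
    field_simp
  · intro x
    obtain ⟨a, b, hb, rfl⟩ := IsFractionRing.div_surjective (A := C) x
    have hb0 : b ≠ 0 := nonZeroDivisors.ne_zero hb
    by_cases ha : a = 0
    · left
      refine ⟨0, 1, h1p, ?_⟩
      rw [ha, map_zero, zero_div, zero_div]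
    · obtain ⟨n, s, t, hs, ht, hst⟩ := hfac a ha
      obtain ⟨m, s', t', hs', ht', hst'⟩ := hfac b hb0
      have hne : ∀ y : C, y ∉ p → algebraMap C L y ≠ 0 := fun y hy h => hy ((hz _ h) ▸ p.zero_mem)
      have hb0' : algebraMap C L b ≠ 0 := fun h => hb0 (hz _ h)
      have ha0' : algebraMap C L a ≠ 0 := fun h => ha (hz _ h)
      have hmulp : ∀ y z : C, y ∉ p → z ∉ p → y * z ∉ p := by
        intro y z hy hz h
        rcases hprime.mem_or_mem h with h | h
        · exact hy h
        · exact hz h
      rcases le_total m n with hmn | hmn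
      · left
        refine ⟨π ^ (n - m) * t * s', s * t', hmulp _ _ hs ht', ?_⟩
        rw [div_eq_div_iff hb0' (hne _ (hmulp _ _ hs ht')), ← map_mul, ← map_mul]
        congr 1
        have h5 : π ^ m ≠ 0 := pow_ne_zero _ hπ0
        apply mul_left_cancel₀ h5
        calc π ^ m * (a * (s * t')) = (a * s) * (π ^ m * t') := by ring
          _ = (π ^ n * t) * (b * s') := by rw [hst, hst']
          _ = (π ^ (m + (n - m)) * t) * (b * s') := by rw [Nat.add_sub_cancel' hmn]
          _ = _ := by rw [pow_add]; ring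
      · right
        refine ⟨π ^ (m - n) * t' * s, s' * t, hmulp _ _ hs' ht, ?_⟩
        rw [inv_div, div_eq_div_iff ha0' (hne _ (hmulp _ _ hs' ht)), ← map_mul, ← map_mul]
        congr 1
        have h5 : π ^ n ≠ 0 := pow_ne_zero _ hπ0
        apply mul_left_cancel₀ h5
        calc π ^ n * (b * (s' * t)) = (b * s') * (π ^ n * t) := by ring
          _ = (π ^ m * t') * (a * s) := by rw [hst, hst']
          _ = (π ^ (n + (m - n)) * t') * (a * s) := by rw [Nat.add_sub_cancel' hmn]
          _ = _ := by rw [pow_add]; ring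

end KM
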