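import Mathlib

/-! KM, atlas over one field, file 3: the residue field of a height one prime.

Noether normalisation: `C` is finite over a polynomial ring `S` in `n` variables over `k` (`n` the
transcendence degree).  `S` is integrally closed, `C` a domain: going down holds
(`Mathlib.RingTheory.IntegralClosure.GoingDown`), so `q = p ∩ S` has height one: `q ≠ 0`, and
a nonzero prime `q' < q` would give a prime `p' < p` over `q'`, `p' ≠ 0`.  `S` is factorial: `q` contains
a prime element `g`, so `q = (g)`.  A variable `X i` occurs in `g`; the other `n - 1` variables are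
algebraically independent modulo `g` (a multiple of `g` involves `X i`).  `S / q → C / p` is
injective. -/

namespace KM

open MvPolynomial in
/-- all variables but one stay independent modulo a prime polynomial -/
theorem h3_var {k : Type*} [Field k] {s : ℕ} (g : MvPolynomial (Fin s) k) (hg : Prime g) :
    ∃ e : Fin (s - 1) → Fin s, Function.Injective e ∧
      ∀ P : MvPolynomial (Fin (s - 1)) k, g ∣ rename e P → P = 0 := by
  classical
  have hv : ∃ i0, i0 ∈ g.vars := by
    by_contra hcon
    push Not at hcon
    have h1 : g.vars = ∅ := Finset.eq_empty_of_forall_notMem hcon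
    rw [vars_eq_empty_iff_eq_C] at h1
    have h2 : coeff 0 g ≠ 0 := by
      intro h
      rw [h, C_0] at h1
      exact hg.ne_zero h1
    apply hg.not_isUnit
    rw [h1]
    exact (IsUnit.mk0 _ h2).map C
  obtain ⟨i0, hi0⟩ := hv
  cases s with
  | zero => exact i0.elim0
  | succ s =>
    refine ⟨i0.succAbove, Fin.succAbove_right_injective, fun P hP => ?_⟩
    by_contra hP0
    have h1 : rename i0.succAbove P ≠ 0 := by
      intro h
      apply hP0
      apply rename_injective _ (Fin.succAbove_right_injective (p := i0))
      rw [h, map_zero]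
    obtain ⟨h, hh⟩ := hP
    have hh0 : h ≠ 0 := by
      rintro rfl
      rw [mul_zero] at hh
      exact h1 hh
    have h2 : i0 ∉ (rename i0.succAbove P).vars := by
      intro h3
      obtain ⟨i, _, hi⟩ := mem_vars_rename _ _ h3
      exact Fin.succAbove_ne i0 i hi
    rw [mem_vars_iff_degreeOf_ne_zero, not_not, hh, degreeOf_mul_eq hg.ne_zero hh0] at h2
    rw [mem_vars_iff_degreeOf_ne_zero] at hi0
    omega

theorem h3 {k C : Type*} [Field k] [CommRing C] [IsDomain C] [Algebra k C]
    [Algebra.FiniteType k C] {n : ℕ} (hn : (n : Cardinal) ≤ Algebra.trdeg k C) (p : Ideal C)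
    [p.IsPrime] (hp : p.height = 1) :
    ∃ y : Fin (n - 1) → C, AlgebraicIndependent k (fun i => Ideal.Quotient.mk p (y i)) := by
  obtain ⟨s, g, hinj, hint⟩ := exists_integral_inj_algHom_of_fg k C
  let _ : Algebra (MvPolynomial (Fin s) k) C := g.toRingHom.toAlgebra
  have tow : IsScalarTower k (MvPolynomial (Fin s) k) C :=
    IsScalarTower.of_algebraMap_eq fun x => (g.commutes x).symm
  have hmap : ∀ x, algebraMap (MvPolynomial (Fin s) k) C x = g x := fun _ => rfl
  have hI : Algebra.IsIntegral (MvPolynomial (Fin s) k) C := ⟨hint⟩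
  have hF : FaithfulSMul (MvPolynomial (Fin s) k) C :=
    (faithfulSMul_iff_algebraMap_injective _ _).2 hinj
  -- n ≤ s
  have hns : n ≤ s := by
    have h1 := lift_trdeg_add_eq k (MvPolynomial (Fin s) k) C
    have h2 : Algebra.trdeg (MvPolynomial (Fin s) k) C = 0 := _root_.trdeg_eq_zero
    rw [h2, MvPolynomial.trdeg_of_isDomain, Cardinal.lift_zero, add_zero] at h1
    have h3 := Cardinal.lift_le.{_, _}.2 hn
    rw [← h1] at h3
    simpa using h3
  -- the contraction is generated by a prime element
  obtain ⟨f, hf, hfp⟩ : ∃ f ∈ p.under (MvPolynomial (Fin s) k), Prime f := by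
    refine Ideal.IsPrime.exists_mem_prime_of_ne_bot inferInstance fun h => ?_
    exact Ideal.ne_bot_of_height_eq_one hp (Ideal.eq_bot_of_comap_eq_bot h)
  have hspan : p.under (MvPolynomial (Fin s) k) = Ideal.span {f} := by
    by_contra hne
    have hprime : (Ideal.span {f}).IsPrime := (Ideal.span_singleton_prime hfp.ne_zero).2 hfp
    have hlt : Ideal.span {f} < p.under (MvPolynomial (Fin s) k) :=
      lt_of_le_of_ne (by rwa [Ideal.span_singleton_le_iff_mem]) (Ne.symm hne)
    obtain ⟨P, hPp, hPprime, hPover⟩ := Ideal.exists_ideal_lt_liesOver_of_lt p hlt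
    have h1 : P.height < 1 := (Ideal.height_le_iff (n := 1)).1 (by simpa using hp.le) P hPprime hPp
    rw [Order.lt_one_iff, Ideal.height_eq_zero_iff_eq_bot] at h1
    have h2 := hPover.over
    have h3 : f ∈ P.under (MvPolynomial (Fin s) k) := by
      rw [← h2]
      exact Ideal.mem_span_singleton_self f
    rw [h1, Ideal.under_def, Ideal.mem_comap, Ideal.mem_bot, hmap] at h3
    exact hfp.ne_zero (hinj (h3.trans (map_zero g).symm))
  obtain ⟨e, he, heP⟩ := h3_var f hfp
  have hmain : AlgebraicIndependent k
      (fun i => Ideal.Quotient.mk p (g (MvPolynomial.X (e i)))) := by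
    rw [algebraicIndependent_iff]
    intro P hP
    apply heP
    rw [← Ideal.mem_span_singleton, ← hspan, Ideal.under_def, Ideal.mem_comap, hmap,
      ← Ideal.Quotient.eq_zero_iff_mem]
    have h1 : ((Ideal.Quotient.mkₐ k p).comp g).comp (MvPolynomial.rename e) =
        MvPolynomial.aeval (fun i => Ideal.Quotient.mk p (g (MvPolynomial.X (e i)))) := by
      refine MvPolynomial.algHom_ext fun i => ?_
      rw [MvPolynomial.aeval_X]
      simp
    rw [← h1] at hP
    exact hP
  refine ⟨fun i => g (MvPolynomial.X (e (Fin.castLE (Nat.sub_le_sub_right hns 1) i))), ?_⟩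
  exact hmain.comp _ (Fin.castLE_injective _)

end KM
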