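import Pool.Agent.Lib.MP_732f67_ag.KM.Basic

/-! KM, atlas over one field, file 0: definitions.

`L` is a function field over `K`; a normal projective variety with function field `L` is given by
charts `A i` (integrally closed subrings of `L`), Cartier divisors `j : I` by local equations `d i j`.
No finiteness of `ι` is needed. -/

namespace KM

variable {L : Type*} [Field L]

/-- charts and local equations -/
structure Atl (K : Subfield L) (ι I : Type*) where
  A : ι → Subring L
  le : ∀ i, ∀ x ∈ K, x ∈ A i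
  d : ι → I → L
  ne : ∀ i j, d i j ≠ 0

/-- `x` is a unit of the subring `A` -/
def UnitOf (A : Subring L) (x : L) : Prop := x ≠ 0 ∧ x ∈ A ∧ x⁻¹ ∈ A

namespace Atl

variable {K : Subfield L} {ι I : Type*} [Fintype I] [DecidableEq I] (X : Atl K ι I)

/-- the local equation of the divisor `t` -/
def eq (i : ι) (t : I → ℤ) : L := ∏ j, X.d i j ^ t j

/-- sections of `O(t)` -/
def V (t : I → ℤ) : Submodule K L where
  carrier := {f | ∀ i, f * X.eq i t ∈ X.A i}
  zero_mem' i := by rw [zero_mul]; exact (X.A i).zero_mem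
  add_mem' hf hg i := by rw [add_mul]; exact (X.A i).add_mem (hf i) (hg i)
  smul_mem' c f hf i := by
    rw [Subfield.smul_def, smul_eq_mul, mul_assoc]
    exact (X.A i).mul_mem (X.le i _ c.2) (hf i)

/-- the finite sets `W j` of sections of `m D_j` generate: on every chart one of them is a
generator -/
def Gen (m : ℕ) (W : I → Finset L) : Prop :=
  (∀ j, ∀ s ∈ W j, s ∈ X.V (e j m)) ∧ ∀ i j, ∃ s ∈ W j, UnitOf (X.A i) (s * X.d i j ^ m)

/-- normal, complete, all `m D_j`, `(m + 1) D_j` without base points, `D_j` not trivial -/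
structure Good (m : ℕ) : Prop where
  pos : 0 < m
  closed : ∀ i, ∀ x : L, IsIntegral (X.A i) x → x ∈ X.A i
  cover : ∀ O : ValuationSubring L, (∀ x ∈ K, x ∈ O) → ∃ i, ∀ x ∈ X.A i, x ∈ O
  gen : ∃ W, X.Gen m W
  gen' : ∃ W, X.Gen (m + 1) W
  two : ∀ j, ∃ m : ℕ, ∃ x ∈ X.V (e j m), ∃ y ∈ X.V (e j m), y ≠ 0 ∧ x / y ∉ K
  ac : ∀ x : L, IsAlgebraic K x → x ∈ K

end Atl

/-- the residues of the elements `r k` of the valuation ring `O` are algebraically independent
over `K` -/
def ResInd (K : Subfield L) (O : ValuationSubring L) {n : ℕ} (r : Fin n → L) : Prop :=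
  (∀ k, r k ∈ O) ∧ ∀ P : MvPolynomial (Fin n) K, P ≠ 0 →
    MvPolynomial.aeval r P ≠ 0 ∧ (MvPolynomial.aeval r P)⁻¹ ∈ O

end KM
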