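import Pool.Agent.Lib.MP_732f67_ag.KM.AtHart
import Pool.Agent.Lib.MP_732f67_ag.KM.Asm

/-! KM: Hartogs and the assembly in characteristic `p` with the weaker hypothesis `hcod` for one chosen
generator `g₀ i j ∈ W j` on every chart. -/

namespace KM

variable {L : Type*} [Field L] {K : Subfield L} {ι I : Type*} [Fintype I] [DecidableEq I]
  {X : Atl K ι I} {m : ℕ}

/-- the claim on `F l` -/
theorem hartG_F [PerfectField K] (hFG : FG K) (h : X.Good m) {n : ℕ}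
    (hn : rk K (Set.univ : Set L) = n) {W : I → Finset L} (hW : X.Gen m W)
    (hbig : ∀ x : L, IsAlgebraic (Subfield.closure ((K : Set L) ∪
      {y | ∃ j, ∃ s ∈ W j, ∃ s' ∈ W j, y = s / s'}) : Subfield L) x)
    (E : ι → Finset L) (hE : ∀ i, ∀ x ∈ E i, x ≠ 0 ∧ x ∈ X.A i)
    {g₀ : ι → I → L} (hg₀ : ∀ i j, g₀ i j ∈ W j ∧ UnitOf (X.A i) (g₀ i j * X.d i j ^ m))
    (hcod : ∀ i, ∀ x ∈ E i, ∀ r : Fin (n - 1) → L,
      (∀ k, ∃ j, ∃ s ∈ W j, r k = s / g₀ i j) →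
      ∃ P : MvPolynomial (Fin (n - 1)) K, P ≠ 0 ∧ ∃ c ∈ X.A i, MvPolynomial.aeval r P = x * c)
    {u : I → ℤ} {f : L} (hf : ∀ i, ∃ N : ℕ, f * X.eq i (m • u) * (∏ x ∈ E i, x) ^ N ∈ X.A i)
    {l : I → L} (hlW : ∀ j, l j ∈ W j) (hl : ∀ j, l j ≠ 0) (P : Subring L)
    (hKP : ∀ x ∈ K, x ∈ P) (hWP : ∀ j, ∀ s ∈ W j, s / l j ∈ P) :
    IsIntegral P (f / ∏ j, l j ^ u j) := by
  classical
  set G : Finset L := Finset.univ.biUnion fun j => (W j).image fun s => s / l j with hGdef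
  have hGmem : ∀ g, g ∈ G ↔ ∃ j, ∃ s ∈ W j, g = s / l j := by
    intro g
    rw [hGdef, Finset.mem_biUnion]
    constructor
    · rintro ⟨j, _, hj⟩
      obtain ⟨s, hs, rfl⟩ := Finset.mem_image.1 hj
      exact ⟨j, s, hs, rfl⟩
    · rintro ⟨j, s, hs, rfl⟩
      exact ⟨j, Finset.mem_univ j, Finset.mem_image.2 ⟨s, hs, rfl⟩⟩
  have hle : Subring.closure ((K : Set L) ∪ G) ≤ P := by
    rw [Subring.closure_le]
    rintro x (hx | hx)
    · exact hKP x hx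
    · obtain ⟨j, s, hs, rfl⟩ := (hGmem x).1 hx
      exact hWP j s hs
  have hcl : Subfield.closure ((K : Set L) ∪ {y | ∃ j, ∃ s ∈ W j, ∃ s' ∈ W j, y = s / s'}) =
      Subfield.closure ((K : Set L) ∪ G) := by
    refine le_antisymm ?_ ?_
    · rw [Subfield.closure_le]
      rintro x (hx | ⟨j, s, hs, s', hs', rfl⟩)
      · exact Subfield.subset_closure (Or.inl hx)
      · have h1 : s / l j ∈ Subfield.closure ((K : Set L) ∪ G) :=
          Subfield.subset_closure (Or.inr ((hGmem _).2 ⟨j, s, hs, rfl⟩))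
        have h2 : s' / l j ∈ Subfield.closure ((K : Set L) ∪ G) :=
          Subfield.subset_closure (Or.inr ((hGmem _).2 ⟨j, s', hs', rfl⟩))
        have h3 : s / s' = (s / l j) / (s' / l j) := (div_div_div_cancel_right₀ (hl j) s s').symm
        rw [h3]
        exact Subfield.div_mem _ h1 h2
    · rw [Subfield.closure_le]
      rintro x (hx | hx)
      · exact Subfield.subset_closure (Or.inl hx)
      · obtain ⟨j, s, hs, rfl⟩ := (hGmem x).1 hx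
        exact Subfield.subset_closure (Or.inr ⟨j, s, hs, l j, hlW j, rfl⟩)
  rw [hcl] at hbig
  by_contra hnot
  have hnot' : ¬ IsIntegral (Subring.closure ((K : Set L) ∪ G)) (f / ∏ j, l j ^ u j) := by
    intro hi
    refine hnot ?_
    exact IsIntegral.map_of_comp_eq (Subring.inclusion hle) (RingHom.id L) (by
      ext y
      rfl) hi
  obtain ⟨O, hKO, hGO, hFO, r, hrG, hres⟩ := exists_div hFG hn.ge G hbig hnot'
  obtain ⟨i, hi⟩ := h.cover O hKO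
  have hsec : ∀ j, ∀ s ∈ W j, s * X.d i j ^ m ∈ X.A i := by
    intro j s hs
    have h1 := hW.1 j s hs i
    rwa [hart_eq_e] at h1
  set s' : I → L := g₀ i with hs'
  have hs'W : ∀ j, s' j ∈ W j := fun j => (hg₀ i j).1
  have hs'U : ∀ j, UnitOf (X.A i) (s' j * X.d i j ^ m) := fun j => (hg₀ i j).2
  have hs'0 : ∀ j, s' j ≠ 0 := fun j h0 => (hs'U j).1 (by rw [h0, zero_mul])
  have hd0 : ∀ j, X.d i j ^ m ≠ 0 := fun j => pow_ne_zero _ (X.ne i j)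
  have hlinv : ∀ j, (l j * X.d i j ^ m)⁻¹ ∈ O := by
    intro j
    have h1 : (l j * X.d i j ^ m)⁻¹ = (s' j / l j) * (s' j * X.d i j ^ m)⁻¹ := by
      have := hs'0 j
      have := hl j
      have := hd0 j
      field_simp
    rw [h1]
    exact O.mul_mem _ _ (hGO _ ((hGmem _).2 ⟨j, s' j, hs'W j, rfl⟩)) (hi _ (hs'U j).2.2)
  -- the elements of `E i` are units of `O`
  have hEO : ∀ x ∈ E i, x⁻¹ ∈ O := by
    intro x hx
    by_contra hxO
    set G' : Set L := {g | ∃ j, ∃ s ∈ W j, g = s / s' j} with hG'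
    have hG'O : ∀ g ∈ G', g ∈ O := by
      rintro g ⟨j, s, hs, rfl⟩
      have h1 : s / s' j = (s * X.d i j ^ m) * (s' j * X.d i j ^ m)⁻¹ := by
        rw [← div_eq_mul_inv, mul_div_mul_right _ _ (hd0 j)]
      rw [h1]
      exact O.mul_mem _ _ (hi _ (hsec j s hs)) (hi _ (hs'U j).2.2)
    obtain ⟨r', hr'G, hres'⟩ := res_change (G := (G : Set L)) hKO hG'O (by
      intro g hg
      obtain ⟨j, s, hs, rfl⟩ := (hGmem g).1 hg
      refine ⟨s / s' j, Subring.subset_closure (Or.inr ⟨j, s, hs, rfl⟩),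
        l j / s' j, Subring.subset_closure (Or.inr ⟨j, l j, hlW j, rfl⟩),
        div_ne_zero (hl j) (hs'0 j), ?_, ?_⟩
      · rw [inv_div]
        exact hGO _ ((hGmem _).2 ⟨j, s' j, hs'W j, rfl⟩)
      · exact (div_div_div_cancel_right₀ (hs'0 j) s (l j)).symm) hrG hres
    obtain ⟨Q, hQ0, c, hc, hQ⟩ := hcod i x hx r' hr'G
    obtain ⟨h1, h2⟩ := hres'.2 Q hQ0
    rw [hQ] at h1 h2
    have hc0 : c ≠ 0 := right_ne_zero_of_mul h1
    apply hxO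
    have h3 : x⁻¹ = (x * c)⁻¹ * c := by
      rw [mul_inv, mul_assoc, inv_mul_cancel₀ hc0, mul_one]
    rw [h3]
    exact O.mul_mem _ _ h2 (hi _ hc)
  apply hFO
  obtain ⟨N, hN⟩ := hf i
  have hprod0 : (∏ x ∈ E i, x) ≠ 0 := Finset.prod_ne_zero_iff.2 fun x hx => (hE i x hx).1
  have hprodinv : (∏ x ∈ E i, x)⁻¹ ∈ O := by
    rw [← Finset.prod_inv_distrib]
    exact hart_prod_mem O _ _ hEO
  have hfO : f * X.eq i (m • u) ∈ O := by
    have h1 : f * X.eq i (m • u) =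
        (f * X.eq i (m • u) * (∏ x ∈ E i, x) ^ N) * ((∏ x ∈ E i, x)⁻¹) ^ N := by
      rw [mul_assoc (f * X.eq i (m • u)), ← mul_pow, mul_inv_cancel₀ hprod0, one_pow, mul_one]
    rw [h1]
    exact O.mul_mem _ _ (hi _ hN) (O.toSubring.pow_mem hprodinv N)
  have hlu0 : (∏ j, (l j * X.d i j ^ m) ^ u j) ≠ 0 :=
    Finset.prod_ne_zero_iff.2 fun j _ => zpow_ne_zero _ (mul_ne_zero (hl j) (hd0 j))
  have h1 : f / ∏ j, l j ^ u j =
      (f * X.eq i (m • u)) * (∏ j, (l j * X.d i j ^ m) ^ u j)⁻¹ := by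
    rw [hart_key i u hl f, mul_assoc, mul_inv_cancel₀ hlu0, mul_one]
  rw [h1]
  refine O.mul_mem _ _ hfO ?_
  rw [← Finset.prod_inv_distrib]
  refine hart_prod_mem O _ _ fun j _ => ?_
  rw [← zpow_neg]
  exact hart_zpow_mem O (hi _ (hsec j (l j) (hlW j))) (hlinv j) _

theorem Atl.Good.hartG [PerfectField K] (hFG : FG K) (h : X.Good m) {n : ℕ}
    (hn : rk K (Set.univ : Set L) = n) {W : I → Finset L} (hW : X.Gen m W)
    (hbig : ∀ x : L, IsAlgebraic (Subfield.closure ((K : Set L) ∪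
      {y | ∃ j, ∃ s ∈ W j, ∃ s' ∈ W j, y = s / s'}) : Subfield L) x)
    (E : ι → Finset L) (hE : ∀ i, ∀ x ∈ E i, x ≠ 0 ∧ x ∈ X.A i)
    {g₀ : ι → I → L} (hg₀ : ∀ i j, g₀ i j ∈ W j ∧ UnitOf (X.A i) (g₀ i j * X.d i j ^ m))
    (hcod : ∀ i, ∀ x ∈ E i, ∀ r : Fin (n - 1) → L,
      (∀ k, ∃ j, ∃ s ∈ W j, r k = s / g₀ i j) →
      ∃ P : MvPolynomial (Fin (n - 1)) K, P ≠ 0 ∧ ∃ c ∈ X.A i, MvPolynomial.aeval r P = x * c)
    {t : I → ℤ} {f : L} (hf : ∀ i, ∃ N : ℕ, f * X.eq i t * (∏ x ∈ E i, x) ^ N ∈ X.A i) :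
    f ∈ X.V t := by
  classical
  -- it is enough to treat `f ^ m`
  have hfm : ∀ i, ∃ N : ℕ, f ^ m * X.eq i (m • t) * (∏ x ∈ E i, x) ^ N ∈ X.A i := by
    intro i
    obtain ⟨N, hN⟩ := hf i
    refine ⟨N * m, ?_⟩
    have h1 : f ^ m * X.eq i (m • t) * (∏ x ∈ E i, x) ^ (N * m) =
        (f * X.eq i t * (∏ x ∈ E i, x) ^ N) ^ m := by
      rw [hart_eq_nsmul, mul_pow, mul_pow, ← pow_mul]
    rw [h1]
    exact (X.A i).pow_mem hN m
  intro i
  have hmain : f ^ m * X.eq i (m • t) ∈ X.A i := by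
    refine h.closed i _ (hart_integral_of_val fun O hO => ?_)
    choose l hlW hlU using fun j => hW.2 i j
    have hl0 : ∀ j, l j ≠ 0 := fun j h0 => (hlU j).1 (by rw [h0, zero_mul])
    have hd0 : ∀ j, X.d i j ^ m ≠ 0 := fun j => pow_ne_zero _ (X.ne i j)
    have hint := hartG_F hFG h hn hW hbig E hE hg₀ hcod hfm hlW hl0 (X.A i) (X.le i) (by
      intro j s hs
      have h1 : s / l j = (s * X.d i j ^ m) * (l j * X.d i j ^ m)⁻¹ := by
        rw [← div_eq_mul_inv, mul_div_mul_right _ _ (hd0 j)]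
      rw [h1]
      refine (X.A i).mul_mem ?_ (hlU j).2.2
      have h2 := hW.1 j s hs i
      rwa [hart_eq_e] at h2)
    rw [hart_key i t hl0]
    refine O.mul_mem _ _ (hart_mem_of_integral hint O hO) ?_
    exact hart_prod_mem O _ _ fun j _ => hart_zpow_mem O (hO _ (hlU j).2.1) (hO _ (hlU j).2.2) _
  refine h.closed i _ ?_
  rw [hart_eq_nsmul, ← mul_pow] at hmain
  have h2 : IsIntegral (X.A i) ((f * X.eq i t) ^ m) := by
    have h3 := isIntegral_algebraMap (R := X.A i) (A := L) (x := ⟨_, hmain⟩)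
    exact h3
  exact IsIntegral.of_pow h.pos h2

variable {p : ℕ} {a : I → ℝ}

/-- **the theorem in characteristic `p`** -/
theorem Atl.Good.asmG [PerfectField K] [Fact p.Prime] [CharP L p] (hFG : FG K) (h : X.Good m)
    {n : ℕ} (hn : rk K (Set.univ : Set L) = n) {W : I → Finset L} (hW : X.Gen m W)
    (hbig : ∀ x : L, IsAlgebraic (Subfield.closure ((K : Set L) ∪
      {y | ∃ j, ∃ s ∈ W j, ∃ s' ∈ W j, y = s / s'}) : Subfield L) x)
    (E : ι → Finset L) (hE : ∀ i, ∀ x ∈ E i, x ≠ 0 ∧ x ∈ X.A i)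
    {g₀ : ι → I → L} (hg₀ : ∀ i j, g₀ i j ∈ W j ∧ UnitOf (X.A i) (g₀ i j * X.d i j ^ m))
    (hcod : ∀ i, ∀ x ∈ E i, ∀ r : Fin (n - 1) → L,
      (∀ k, ∃ j, ∃ s ∈ W j, r k = s / g₀ i j) →
      ∃ P : MvPolynomial (Fin (n - 1)) K, P ≠ 0 ∧ ∃ c ∈ X.A i, MvPolynomial.aeval r P = x * c)
    (ha : ∀ i, 0 < a i) {A : I → ℤ} (hA : ∀ i, (A i : ℝ) = ((p : ℝ) - 1) * a i) {τ : L → L}
    (hτ : IsInv p τ)
    (hV : ∀ t, ∀ y ∈ X.V ((p : ℤ) • t + A), ∀ i, ∃ N : ℕ,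
      τ y * X.eq i t * (∏ x ∈ E i, x) ^ N ∈ X.A i)
    (hHH : ∀ u ∈ Nn (Finset.univ : Finset I), ∀ c ∈ X.V u, c ≠ 0 → ∀ N₁ : ℕ, ∃ N ≥ N₁,
      ∃ y ∈ X.V ((geo p N : ℤ) • A - u), τ^[N] (c * y) = 1) :
    ∑ i, a i ≤ 2 * n ∧ (∑ i, a i = 2 * n → ∃ J : Finset I, J.card = n ∧
      (∀ i, ∃ j ∈ J, ∃ g, g ≠ 0 ∧ g ∈ X.V (e i 1 - e j 1) ∧ g⁻¹ ∈ X.V (e j 1 - e i 1)) ∧
      (∀ u ∈ Nn J, Module.finrank K (X.V u) = ∏ j ∈ J, ((u j).toNat + 1)) ∧
      ∀ s₀ s₁ : I → L, (∀ j ∈ J, s₀ j ∈ X.V (e j 1) ∧ s₁ j ∈ X.V (e j 1) ∧ s₀ j ≠ 0 ∧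
        s₁ j / s₀ j ∉ K) → AlgebraicIndependent K (fun j : J => s₁ j / s₀ j)) := by
  have hsys := h.sys hFG
  have hp : 2 ≤ p := (Fact.out : p.Prime).two_le
  have hs : SplitX p X.V Finset.univ a := splitX_of hp ha hA hτ
    (fun t y hy => h.hartG hFG hn hW hbig E hE hg₀ hcod (fun i => hV t y hy i)) hHH
  have hF : FF p K := FF_of_perfect
  have hnu : nu X.V Finset.univ ≤ n := by
    rw [← hn]
    exact (AlgebraicIndependent.matroid K L).eRk_mono (Set.subset_univ _)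
  have hnu' : (nu X.V Finset.univ).toNat ≤ n := ENat.toNat_le_of_le_coe hnu
  have h1 := theoremA_le hsys hs.split (fun i _ => ha i) hF hFG
  have h2 : (2 : ℝ) * ((nu X.V Finset.univ).toNat : ℝ) ≤ 2 * n := by
    have : ((nu X.V Finset.univ).toNat : ℝ) ≤ n := by exact_mod_cast hnu'
    linarith
  refine ⟨h1.trans h2, fun heq => ?_⟩
  have h3 : ∑ i, a i = 2 * ((nu X.V Finset.univ).toNat : ℝ) := le_antisymm h1 (by rw [heq]; exact h2)
  have h4 : (nu X.V Finset.univ).toNat = n := by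
    have : ((nu X.V Finset.univ).toNat : ℝ) = n := by linarith
    exact_mod_cast this
  obtain ⟨J, -, hJ, h5, h6, h7⟩ := theoremA_final hsys hs (fun i _ => ha i) hF hFG h3
  exact ⟨J, by rw [hJ, h4], fun i => h5 i (Finset.mem_univ i), h6, h7⟩

end KM
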