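import Pool.Agent.Lib.MP_732f67_ag.KM.Asm

/-! KM: the assembly in characteristic `p` from the map `τ` without Hartogs. -/

namespace KM

variable {L : Type*} [Field L] {K : Subfield L} {ι I : Type*} [Fintype I] [DecidableEq I]
  {X : Atl K ι I} {m : ℕ} {p : ℕ} {a : I → ℝ}

/-- **the theorem in characteristic `p`** -/
theorem Atl.Good.asmH [PerfectField K] [Fact p.Prime] [CharP L p] (hFG : FG K) (h : X.Good m)
    {n : ℕ} (hn : rk K (Set.univ : Set L) = n)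
    (ha : ∀ i, 0 < a i) {A : I → ℤ} (hA : ∀ i, (A i : ℝ) = ((p : ℝ) - 1) * a i) {τ : L → L}
    (hτ : IsInv p τ)
    (hV : ∀ t, ∀ y ∈ X.V ((p : ℤ) • t + A), τ y ∈ X.V t)
    (hHH : ∀ u ∈ Nn (Finset.univ : Finset I), ∀ c ∈ X.V u, c ≠ 0 → ∀ N₁ : ℕ, ∃ N ≥ N₁,
      ∃ y ∈ X.V ((geo p N : ℤ) • A - u), τ^[N] (c * y) = 1) :
    ∑ i, a i ≤ 2 * n ∧ (∑ i, a i = 2 * n → ∃ J : Finset I, J.card = n ∧
      (∀ i, ∃ j ∈ J, ∃ g, g ≠ 0 ∧ g ∈ X.V (e i 1 - e j 1) ∧ g⁻¹ ∈ X.V (e j 1 - e i 1)) ∧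
      (∀ u ∈ Nn J, Module.finrank K (X.V u) = ∏ j ∈ J, ((u j).toNat + 1)) ∧
      ∀ s₀ s₁ : I → L, (∀ j ∈ J, s₀ j ∈ X.V (e j 1) ∧ s₁ j ∈ X.V (e j 1) ∧ s₀ j ≠ 0 ∧
        s₁ j / s₀ j ∉ K) → AlgebraicIndependent K (fun j : J => s₁ j / s₀ j)) := by
  have hsys := h.sys hFG
  have hp : 2 ≤ p := (Fact.out : p.Prime).two_le
  have hs : SplitX p X.V Finset.univ a := splitX_of hp ha hA hτ hV hHH
  have hF : FF p K := FF_of_perfect
  have hnu : nu X.V Finset.univ ≤ n := by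
    rw [← hn]
    exact (AlgebraicIndependent.matroid K L).eRk_mono (Set.subset_univ _)
  have hnu' : (nu X.V Finset.univ).toNat ≤ n := ENat.toNat_le_of_le_coe hnu
  have h1 := theoremA_le hsys hs.split (fun i _ => ha i) hF hFG
  have h2 : (2 : ℝ) * ((nu X.V Finset.univ).toNat : ℝ) ≤ 2 * n := by
    have : ((nu X.V Finset.univ).toNat : ℝ) ≤ n := by exact_mod_cast hnu'
    linarith
  refine ⟨h1.trans h2, fun heq => ?_⟩
  have h3 : ∑ i, a i = 2 * ((nu X.V Finset.univ).toNat : ℝ) := le_antisymm h1 (by rw [heq]; exact h2)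
  have h4 : (nu X.V Finset.univ).toNat = n := by
    have : ((nu X.V Finset.univ).toNat : ℝ) = n := by linarith
    exact_mod_cast this
  obtain ⟨J, -, hJ, h5, h6, h7⟩ := theoremA_final hsys hs (fun i _ => ha i) hF hFG h3
  exact ⟨J, by rw [hJ, h4], fun i => h5 i (Finset.mem_univ i), h6, h7⟩

end KM
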