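import Pool.Agent.Lib.MP_732f67_ag.KM.AtDefs

/-! KM, atlas over one field, file 4b: residues in a valuation ring (`res_change`). -/

namespace KM

/-- algebraically independent elements which are algebraic over a set give as many algebraically
independent elements of the set -/
theorem exists_indep_of_alg {K κ : Type*} [Field K] [Field κ] [Algebra K κ] {Y : Set κ} {k : ℕ}
    {ρ : Fin k → κ} (hρ : AlgebraicIndependent K ρ)
    (hY : ∀ i, IsAlgebraic (Algebra.adjoin K Y) (ρ i)) :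
    ∃ ρ' : Fin k → κ, (∀ i, ρ' i ∈ Y) ∧ AlgebraicIndependent K ρ' := by
  have hI : (AlgebraicIndependent.matroid K κ).Indep (Set.range ρ) := hρ.coe_range
  have hsub : Set.range ρ ⊆ (AlgebraicIndependent.matroid K κ).closure Y := by
    rintro _ ⟨i, rfl⟩
    rw [AlgebraicIndependent.matroid_closure_eq]
    exact hY i
  have h1 := hI.encard_le_eRk_of_subset hsub
  have h2 := hρ.injective.encard_range
  rw [ENat.card_eq_coe_fintype_card, Fintype.card_fin] at h2
  rw [Matroid.eRk_closure_eq] at h1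
  replace h1 := h2.trans h1
  obtain ⟨J, hJ, hJI, hJc⟩ := Matroid.le_eRk_iff.1 h1
  have hfin : J.Finite := Set.finite_of_encard_eq_coe hJc
  have hcard : Nat.card J = k := by
    rw [Nat.card_coe_set_eq, Set.ncard_def, hJc, ENat.toNat_coe]
  have : Finite J := hfin
  have hJI' : AlgebraicIndependent K ((↑) : J → κ) := hJI
  refine ⟨fun i => ((Finite.equivFinOfCardEq hcard).symm i : κ), fun i =>
    hJ ((Finite.equivFinOfCardEq hcard).symm i).2, ?_⟩
  exact hJI'.comp _ (Finite.equivFinOfCardEq hcard).symm.injective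

variable {L : Type*} [Field L] {K : Subfield L}

/-- units of a valuation ring and residues -/
theorem atd_residue_ne (O : ValuationSubring L) (x : O) :
    IsLocalRing.residue O x ≠ 0 ↔ (x : L) ≠ 0 ∧ (x : L)⁻¹ ∈ O := by
  rw [IsLocalRing.residue_ne_zero_iff_isUnit, isUnit_iff_exists_inv]
  constructor
  · rintro ⟨y, hy⟩
    have h1 : (x : L) * (y : L) = 1 := by
      have := congrArg (Subtype.val : O → L) hy
      exact this
    have h2 : (x : L) ≠ 0 := left_ne_zero_of_mul_eq_one h1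
    refine ⟨h2, ?_⟩
    have h3 : (x : L)⁻¹ = y := inv_eq_of_mul_eq_one_right h1
    rw [h3]
    exact y.2
  · rintro ⟨h1, h2⟩
    exact ⟨⟨(x : L)⁻¹, h2⟩, Subtype.ext (mul_inv_cancel₀ h1)⟩

/-- the inclusion of the constants into the valuation ring -/
def atdF (O : ValuationSubring L) (hK : ∀ x ∈ K, x ∈ O) : K →+* O where
  toFun x := ⟨x, hK x x.2⟩
  map_one' := rfl
  map_mul' _ _ := rfl
  map_zero' := rfl
  map_add' _ _ := rfl

/-- the residue of the value of a polynomial -/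
theorem atd_eval (O : ValuationSubring L) (hK : ∀ x ∈ K, x ∈ O) {n : ℕ} {r : Fin n → L}
    (hr : ∀ k, r k ∈ O) (P : MvPolynomial (Fin n) K) :
    ∃ x : O, (x : L) = MvPolynomial.aeval r P ∧ IsLocalRing.residue O x =
      MvPolynomial.eval₂ ((IsLocalRing.residue O).comp (atdF O hK))
        (fun k => IsLocalRing.residue O ⟨r k, hr k⟩) P := by
  refine ⟨MvPolynomial.eval₂ (atdF O hK) (fun k => ⟨r k, hr k⟩) P, ?_, ?_⟩
  · have h1 := MvPolynomial.eval₂_comp_left O.subtype (atdF O hK) (fun k => (⟨r k, hr k⟩ : O)) P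
    rw [MvPolynomial.aeval_def]
    exact h1
  · exact MvPolynomial.eval₂_comp_left (IsLocalRing.residue O) (atdF O hK)
      (fun k => (⟨r k, hr k⟩ : O)) P

theorem atd_resInd (O : ValuationSubring L) (hK : ∀ x ∈ K, x ∈ O) {n : ℕ} {r : Fin n → L}
    (hr : ∀ k, r k ∈ O) : ResInd K O r ↔ ∀ P : MvPolynomial (Fin n) K, P ≠ 0 →
      MvPolynomial.eval₂ ((IsLocalRing.residue O).comp (atdF O hK))
        (fun k => IsLocalRing.residue O ⟨r k, hr k⟩) P ≠ 0 := by
  constructor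
  · rintro ⟨-, h⟩ P hP
    obtain ⟨x, hx1, hx2⟩ := atd_eval O hK hr P
    rw [← hx2, atd_residue_ne, hx1]
    exact h P hP
  · intro h
    refine ⟨hr, fun P hP => ?_⟩
    obtain ⟨x, hx1, hx2⟩ := atd_eval O hK hr P
    rw [← hx1, ← atd_residue_ne, hx2]
    exact h P hP

theorem res_change {O : ValuationSubring L} (hK : ∀ x ∈ K, x ∈ O) {G G' : Set L}
    (hG' : ∀ g ∈ G', g ∈ O)
    (hGG' : ∀ g ∈ G, ∃ a ∈ Subring.closure ((K : Set L) ∪ G'),
      ∃ b ∈ Subring.closure ((K : Set L) ∪ G'), b ≠ 0 ∧ b⁻¹ ∈ O ∧ g = a / b) {k : ℕ}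
    {r : Fin k → L} (hr : ∀ i, r i ∈ G) (hres : ResInd K O r) :
    ∃ r' : Fin k → L, (∀ i, r' i ∈ G') ∧ ResInd K O r' := by
  let : Algebra K (IsLocalRing.ResidueField O) :=
    ((IsLocalRing.residue O).comp (atdF O hK)).toAlgebra
  have hrO := hres.1
  obtain ⟨Y, hY⟩ : ∃ Y : Set (IsLocalRing.ResidueField O),
      Y = {y | ∃ g, ∃ hg : g ∈ G', y = IsLocalRing.residue O ⟨g, hG' g hg⟩} := ⟨_, rfl⟩
  have hcl : ∀ a ∈ Subring.closure ((K : Set L) ∪ G'), ∃ ha : a ∈ O,
      IsLocalRing.residue O ⟨a, ha⟩ ∈ Algebra.adjoin K Y := by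
    intro a ha
    induction ha using Subring.closure_induction with
    | mem x hx =>
      rcases hx with hx | hx
      · exact ⟨hK x hx, (Algebra.adjoin K Y).algebraMap_mem ⟨x, hx⟩⟩
      · refine ⟨hG' x hx, Algebra.subset_adjoin ?_⟩
        rw [hY]
        exact ⟨x, hx, rfl⟩
    | zero =>
      refine ⟨O.zero_mem, ?_⟩
      have : (⟨0, O.zero_mem⟩ : O) = 0 := rfl
      rw [this, map_zero]
      exact zero_mem _
    | one =>
      refine ⟨O.one_mem, ?_⟩
      have : (⟨1, O.one_mem⟩ : O) = 1 := rfl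
      rw [this, map_one]
      exact one_mem _
    | add x y _ _ hx hy =>
      obtain ⟨hx1, hx2⟩ := hx
      obtain ⟨hy1, hy2⟩ := hy
      refine ⟨O.add_mem _ _ hx1 hy1, ?_⟩
      have : (⟨x + y, O.add_mem _ _ hx1 hy1⟩ : O) = ⟨x, hx1⟩ + ⟨y, hy1⟩ := rfl
      rw [this, map_add]
      exact add_mem hx2 hy2
    | neg x _ hx =>
      obtain ⟨hx1, hx2⟩ := hx
      refine ⟨O.neg_mem _ hx1, ?_⟩
      have : (⟨-x, O.neg_mem _ hx1⟩ : O) = -⟨x, hx1⟩ := rfl
      rw [this, map_neg]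
      exact neg_mem hx2
    | mul x y _ _ hx hy =>
      obtain ⟨hx1, hx2⟩ := hx
      obtain ⟨hy1, hy2⟩ := hy
      refine ⟨O.mul_mem _ _ hx1 hy1, ?_⟩
      have : (⟨x * y, O.mul_mem _ _ hx1 hy1⟩ : O) = ⟨x, hx1⟩ * ⟨y, hy1⟩ := rfl
      rw [this, map_mul]
      exact mul_mem hx2 hy2
  have hρ : AlgebraicIndependent K (fun i => IsLocalRing.residue O ⟨r i, hrO i⟩) := by
    rw [algebraicIndependent_iff]
    intro P hP
    by_contra hne
    exact (atd_resInd O hK hrO).1 hres P hne hP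
  have halg : ∀ i, IsAlgebraic (Algebra.adjoin K Y) (IsLocalRing.residue O ⟨r i, hrO i⟩) := by
    intro i
    obtain ⟨a, ha, b, hb, hb0, hbi, hab⟩ := hGG' _ (hr i)
    obtain ⟨ha1, ha2⟩ := hcl a ha
    obtain ⟨hb1, hb2⟩ := hcl b hb
    have hbne : IsLocalRing.residue O ⟨b, hb1⟩ ≠ 0 := (atd_residue_ne O _).2 ⟨hb0, hbi⟩
    have h1 : IsLocalRing.residue O ⟨r i, hrO i⟩ * IsLocalRing.residue O ⟨b, hb1⟩ =
        IsLocalRing.residue O ⟨a, ha1⟩ := by
      rw [← map_mul]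
      congr 1
      refine Subtype.ext ?_
      change r i * b = a
      rw [hab, div_mul_cancel₀ _ hb0]
    rw [eq_div_of_mul_eq hbne h1, div_eq_mul_inv]
    exact (isAlgebraic_algebraMap (⟨_, ha2⟩ : Algebra.adjoin K Y)).mul
      (isAlgebraic_algebraMap (⟨_, hb2⟩ : Algebra.adjoin K Y)).inv
  obtain ⟨ρ', hρ'Y, hρ'⟩ := exists_indep_of_alg hρ halg
  rw [hY] at hρ'Y
  choose r' hr' hrr using hρ'Y
  refine ⟨r', hr', (atd_resInd O hK fun i => hG' _ (hr' i)).2 fun P hP h0 => hP ?_⟩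
  have e : (fun i => IsLocalRing.residue O ⟨r' i, hG' _ (hr' i)⟩) = ρ' :=
    funext fun i => (hrr i).symm
  rw [e] at h0
  exact (algebraicIndependent_iff.1 hρ') P h0

end KM
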