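import Pool.Agent.Lib.MP_732f67_ag.KM.AtDefs
import Pool.Agent.Lib.MP_732f67_ag.KM.AtN2
import Pool.Agent.Lib.MP_732f67_ag.KM.AtH1
import Pool.Agent.Lib.MP_732f67_ag.KM.AtH3
import Pool.Agent.Lib.MP_732f67_ag.KM.AtDivB

/-! KM, atlas over one field, file 4: divisorial valuations.

`exists_div`: `P = Subring.closure (K ∪ G)`, `C` = integral closure of `P` in `L`; `C` is a finite
`P`-module by `n2`, so noetherian and of finite type over `K`; it is integrally closed with field of
fractions `L` (`hG`).  `h1`: a height one prime `p` with `F ∉ C_p`; `O = C_p`.  `h3`: the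
transcendence degree of `C / p` over `K` is at least `n - 1`; `C / p` is integral over the
subalgebra generated by the residues of the elements of `G`, so `n - 1` of the residues of
elements of `G` are algebraically independent: for `P ≠ 0` the element `P (r)` of `C` is not in `p`,
i.e. a unit of `C_p`.
`res_change`: residues in the residue field `κ` of `O`: `K (Ḡ) ⊆ K (Ḡ')` inside `κ`, so there are `k`
algebraically independent elements among the `Ḡ'`. -/

namespace KM

variable {L : Type*} [Field L] {K : Subfield L}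

/-- residues which are integral over the ring generated by `G'` -/
theorem atd_change {O : ValuationSubring L} (hK : ∀ x ∈ K, x ∈ O) {G' : Set L}
    (hG' : ∀ g ∈ G', g ∈ O) {k : ℕ} {r : Fin k → L}
    (hint : ∀ i, IsIntegral (Subring.closure ((K : Set L) ∪ G')) (r i)) (hres : ResInd K O r) :
    ∃ r' : Fin k → L, (∀ i, r' i ∈ G') ∧ ResInd K O r' := by
  let : Algebra K (IsLocalRing.ResidueField O) :=
    ((IsLocalRing.residue O).comp (atdF O hK)).toAlgebra
  have hrO := hres.1
  obtain ⟨Y, hY⟩ : ∃ Y : Set (IsLocalRing.ResidueField O),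
      Y = {y | ∃ g, ∃ hg : g ∈ G', y = IsLocalRing.residue O ⟨g, hG' g hg⟩} := ⟨_, rfl⟩
  have hcl : ∀ a ∈ Subring.closure ((K : Set L) ∪ G'), ∃ ha : a ∈ O,
      IsLocalRing.residue O ⟨a, ha⟩ ∈ Algebra.adjoin K Y := by
    intro a ha
    induction ha using Subring.closure_induction with
    | mem x hx =>
      rcases hx with hx | hx
      · exact ⟨hK x hx, (Algebra.adjoin K Y).algebraMap_mem ⟨x, hx⟩⟩
      · refine ⟨hG' x hx, Algebra.subset_adjoin ?_⟩
        rw [hY]
        exact ⟨x, hx, rfl⟩
    | zero =>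
      refine ⟨O.zero_mem, ?_⟩
      have : (⟨0, O.zero_mem⟩ : O) = 0 := rfl
      rw [this, map_zero]
      exact zero_mem _
    | one =>
      refine ⟨O.one_mem, ?_⟩
      have : (⟨1, O.one_mem⟩ : O) = 1 := rfl
      rw [this, map_one]
      exact one_mem _
    | add x y _ _ hx hy =>
      obtain ⟨hx1, hx2⟩ := hx
      obtain ⟨hy1, hy2⟩ := hy
      refine ⟨O.add_mem _ _ hx1 hy1, ?_⟩
      have : (⟨x + y, O.add_mem _ _ hx1 hy1⟩ : O) = ⟨x, hx1⟩ + ⟨y, hy1⟩ := rfl
      rw [this, map_add]
      exact add_mem hx2 hy2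
    | neg x _ hx =>
      obtain ⟨hx1, hx2⟩ := hx
      refine ⟨O.neg_mem _ hx1, ?_⟩
      have : (⟨-x, O.neg_mem _ hx1⟩ : O) = -⟨x, hx1⟩ := rfl
      rw [this, map_neg]
      exact neg_mem hx2
    | mul x y _ _ hx hy =>
      obtain ⟨hx1, hx2⟩ := hx
      obtain ⟨hy1, hy2⟩ := hy
      refine ⟨O.mul_mem _ _ hx1 hy1, ?_⟩
      have : (⟨x * y, O.mul_mem _ _ hx1 hy1⟩ : O) = ⟨x, hx1⟩ * ⟨y, hy1⟩ := rfl
      rw [this, map_mul]
      exact mul_mem hx2 hy2
  have hρ : AlgebraicIndependent K (fun i => IsLocalRing.residue O ⟨r i, hrO i⟩) := by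
    rw [algebraicIndependent_iff]
    intro P hP
    by_contra hne
    exact (atd_resInd O hK hrO).1 hres P hne hP
  let ι : Subring.closure ((K : Set L) ∪ G') →+* O :=
    { toFun := fun a => ⟨a, (hcl a a.2).1⟩
      map_one' := rfl
      map_mul' := fun _ _ => rfl
      map_zero' := rfl
      map_add' := fun _ _ => rfl }
  let φ : Subring.closure ((K : Set L) ∪ G') →+* Algebra.adjoin K Y :=
    RingHom.codRestrict ((IsLocalRing.residue O).comp ι) (Algebra.adjoin K Y)
      fun a => (hcl a a.2).2
  have halg : ∀ i, IsAlgebraic (Algebra.adjoin K Y) (IsLocalRing.residue O ⟨r i, hrO i⟩) := by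
    intro i
    let : Algebra (Subring.closure ((K : Set L) ∪ G')) O := ι.toAlgebra
    have htow : IsScalarTower (Subring.closure ((K : Set L) ∪ G')) O L :=
      IsScalarTower.of_algebraMap_eq fun _ => rfl
    have h1 : IsIntegral (Subring.closure ((K : Set L) ∪ G')) (⟨r i, hrO i⟩ : O) := by
      have hinj : Function.Injective (algebraMap O L) := Subtype.val_injective
      exact (isIntegral_algebraMap_iff hinj).1 (hint i)
    exact (IsIntegral.map_of_comp_eq φ (IsLocalRing.residue O) rfl h1).isAlgebraic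
  obtain ⟨ρ', hρ'Y, hρ'⟩ := exists_indep_of_alg hρ halg
  rw [hY] at hρ'Y
  choose r' hr' hrr using hρ'Y
  refine ⟨r', hr', (atd_resInd O hK fun i => hG' _ (hr' i)).2 fun P hP h0 => hP ?_⟩
  have e : (fun i => IsLocalRing.residue O ⟨r' i, hG' _ (hr' i)⟩) = ρ' :=
    funext fun i => (hrr i).symm
  rw [e] at h0
  exact (algebraicIndependent_iff.1 hρ') P h0

/-- the valuation ring of a prime ideal of a subring, if its localisation is one -/
def atdO (C : Subalgebra K L) (p : Ideal C) (hp : p.IsPrime)
    (hv : ∀ x : L, (∃ a b : C, b ∉ p ∧ x = algebraMap C L a / algebraMap C L b) ∨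
        ∃ a b : C, b ∉ p ∧ x⁻¹ = algebraMap C L a / algebraMap C L b) : ValuationSubring L where
  carrier := {x | ∃ a b : C, b ∉ p ∧ x = algebraMap C L a / algebraMap C L b}
  mul_mem' := by
    rintro x y ⟨a, b, hb, rfl⟩ ⟨c, d, hd, rfl⟩
    refine ⟨a * c, b * d, fun h => ?_, ?_⟩
    · rcases hp.mem_or_mem h with h | h
      · exact hb h
      · exact hd h
    · rw [map_mul, map_mul, div_mul_div_comm]
  one_mem' := ⟨1, 1, fun h => hp.ne_top ((Ideal.eq_top_iff_one p).2 h), by rw [map_one, div_one]⟩
  add_mem' := by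
    rintro x y ⟨a, b, hb, rfl⟩ ⟨c, d, hd, rfl⟩
    refine ⟨a * d + b * c, b * d, fun h => ?_, ?_⟩
    · rcases hp.mem_or_mem h with h | h
      · exact hb h
      · exact hd h
    · have hz : ∀ y : C, y ∉ p → algebraMap C L y ≠ 0 := by
        intro y hy h
        apply hy
        have : y = 0 := Subtype.ext h
        rw [this]
        exact p.zero_mem
      rw [div_add_div _ _ (hz b hb) (hz d hd), map_add, map_mul, map_mul, map_mul]
  zero_mem' := ⟨0, 1, fun h => hp.ne_top ((Ideal.eq_top_iff_one p).2 h), by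
    rw [map_zero, zero_div]⟩
  neg_mem' := by
    rintro x ⟨a, b, hb, rfl⟩
    exact ⟨-a, b, hb, by rw [map_neg, neg_div]⟩
  mem_or_inv_mem' := hv

theorem mem_atdO (C : Subalgebra K L) (p : Ideal C) (hp : p.IsPrime)
    (hv : ∀ x : L, (∃ a b : C, b ∉ p ∧ x = algebraMap C L a / algebraMap C L b) ∨
        ∃ a b : C, b ∉ p ∧ x⁻¹ = algebraMap C L a / algebraMap C L b) (x : L) :
    x ∈ atdO C p hp hv ↔ ∃ a b : C, b ∉ p ∧ x = algebraMap C L a / algebraMap C L b := Iff.rfl

theorem atd_trdeg {n : ℕ} (hn : (n : ℕ∞) ≤ rk K (Set.univ : Set L)) :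
    (n : Cardinal) ≤ Algebra.trdeg K L := by
  rw [rk] at hn
  obtain ⟨J, -, hJI, hJc⟩ := Matroid.le_eRk_iff.1 hn
  have hJI' : AlgebraicIndependent K ((↑) : J → L) := hJI
  have h1 := hJI'.cardinalMk_le_trdeg
  have hcard : Nat.card J = n := by
    rw [Nat.card_coe_set_eq, Set.ncard_def, hJc, ENat.toNat_natCast]
  have hfin : J.Finite := Set.finite_of_encard_eq_coe hJc
  have : Finite J := hfin
  rw [← hcard, Nat.cast_card]
  exact h1

theorem exists_div [PerfectField K] (hFG : FG K) {n : ℕ} (hn : (n : ℕ∞) ≤ rk K (Set.univ : Set L))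
    (G : Finset L)
    (hG : ∀ x : L, IsAlgebraic (Subfield.closure ((K : Set L) ∪ G) : Subfield L) x) {F : L}
    (hF : ¬ IsIntegral (Subring.closure ((K : Set L) ∪ G)) F) :
    ∃ O : ValuationSubring L, (∀ x ∈ K, x ∈ O) ∧ (∀ g ∈ G, g ∈ O) ∧ F ∉ O ∧
      ∃ r : Fin (n - 1) → L, (∀ k, r k ∈ G) ∧ ResInd K O r := by
  classical
  set P : Subring L := Subring.closure ((K : Set L) ∪ G) with hPdef
  have hPint : ∀ x ∈ P, IsIntegral P x := fun x hx => by
    have : x = algebraMap P L ⟨x, hx⟩ := rfl
    rw [this]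
    exact isIntegral_algebraMap
  obtain ⟨s, hs1, hs2⟩ := n2 hFG P (integralClosure P L).toSubring ⟨G, rfl⟩
    (fun x hx => hPint x hx) (fun x hx => hx)
  -- the integral closure as an algebra of finite type
  obtain ⟨C, hCdef⟩ : ∃ C : Subalgebra K L, C = Algebra.adjoin K ((G ∪ s : Finset L) : Set L) :=
    ⟨_, rfl⟩
  have hPC : ∀ x ∈ P, x ∈ C := by
    intro x hx
    have h1 : P ≤ C.toSubring := by
      rw [hPdef, Subring.closure_le]
      rintro y (hy | hy)
      · exact C.algebraMap_mem ⟨y, hy⟩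
      · rw [hCdef]
        exact Algebra.subset_adjoin (by rw [Finset.coe_union]; exact Or.inl hy)
    exact h1 hx
  have hC : ∀ x, x ∈ C ↔ IsIntegral P x := by
    intro x
    constructor
    · intro hx
      rw [hCdef] at hx
      induction hx using Algebra.adjoin_induction with
      | mem y hy =>
        rw [Finset.coe_union] at hy
        rcases hy with hy | hy
        · exact hPint y (Subring.subset_closure (Or.inr hy))
        · exact hs1 hy
      | algebraMap c => exact hPint _ (Subring.subset_closure (Or.inl c.2))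
      | add y z _ _ h1 h2 => exact h1.add h2
      | mul y z _ _ h1 h2 => exact h1.mul h2
    · intro hx
      have h1 : ∀ y ∈ Submodule.span P (s : Set L), y ∈ C := by
        intro y hy
        induction hy using Submodule.span_induction with
        | mem y hy =>
          rw [hCdef]
          exact Algebra.subset_adjoin (by rw [Finset.coe_union]; exact Or.inr hy)
        | zero => exact C.zero_mem
        | add y z _ _ h1 h2 => exact C.add_mem h1 h2
        | smul c y _ h1 => exact C.mul_mem (hPC c c.2) h1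
      exact h1 x (hs2 x hx)
  have hft : Algebra.FiniteType K C := by
    rw [hCdef]
    exact Algebra.FiniteType.adjoin_of_finite (Finset.finite_toSet _)
  have hnoeth : IsNoetherianRing C := Algebra.FiniteType.isNoetherianRing K C
  have hinj : Function.Injective (algebraMap C L) := Subtype.val_injective
  let iPC : P →+* C :=
    { toFun := fun a => ⟨a, hPC a a.2⟩
      map_one' := rfl
      map_mul' := fun _ _ => rfl
      map_zero' := rfl
      map_add' := fun _ _ => rfl }
  let : Algebra P C := iPC.toAlgebra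
  have htow : IsScalarTower P C L := IsScalarTower.of_algebraMap_eq fun _ => rfl
  have hPCint : Algebra.IsIntegral P C := ⟨fun x => by
    rw [← isIntegral_algebraMap_iff hinj]
    exact (hC x).1 x.2⟩
  -- the field of fractions
  have halgP : ∀ x : L, IsAlgebraic P x := by
    intro x
    set M : Subfield L := Subfield.closure ((K : Set L) ∪ G) with hM
    have hPM : ∀ x ∈ P, x ∈ M := by
      intro x hx
      have h1 : P ≤ M.toSubring := by
        rw [hPdef, Subring.closure_le]
        exact Subfield.subset_closure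
      exact h1 hx
    let iPM : P →+* M :=
      { toFun := fun a => ⟨a, hPM a a.2⟩
        map_one' := rfl
        map_mul' := fun _ _ => rfl
        map_zero' := rfl
        map_add' := fun _ _ => rfl }
    let : Algebra P M := iPM.toAlgebra
    have htow' : IsScalarTower P M L := IsScalarTower.of_algebraMap_eq fun _ => rfl
    have h1 : Algebra.IsAlgebraic P M := by
      refine ⟨fun y => ?_⟩
      have hinjM : Function.Injective (algebraMap M L) := Subtype.val_injective
      rw [← isAlgebraic_algebraMap_iff hinjM]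
      obtain ⟨a, ha, b, hb, hab⟩ := Subfield.mem_closure_iff.1 y.2
      have h2 : algebraMap M L y = algebraMap P L ⟨a, ha⟩ / algebraMap P L ⟨b, hb⟩ := hab.symm
      rw [h2, div_eq_mul_inv]
      exact (isAlgebraic_algebraMap _).mul (isAlgebraic_algebraMap _).inv
    exact (hG x).restrictScalars P
  have hfrac : IsFractionRing C L := by
    refine IsFractionRing.of_field C L fun x => ?_
    obtain ⟨y, hy0, hy⟩ := (halgP x).exists_integral_multiple
    refine ⟨⟨_, (hC _).2 hy⟩, ⟨y, hPC y y.2⟩, ?_⟩
    have h1 : (y : L) ≠ 0 := fun h => hy0 (Subtype.ext h)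
    have h2 : algebraMap C L ⟨_, (hC _).2 hy⟩ = (y : L) * x := rfl
    have h3 : algebraMap C L ⟨y, hPC y y.2⟩ = (y : L) := rfl
    rw [h2, h3, mul_div_cancel_left₀ _ h1]
  have hic : IsIntegrallyClosed C := by
    rw [isIntegrallyClosed_iff L]
    intro x hx
    have h1 : IsIntegral P x := isIntegral_trans x hx
    exact ⟨⟨x, (hC x).2 h1⟩, rfl⟩
  have hFC : ∀ c : C, algebraMap C L c ≠ F := by
    intro c hc
    apply hF
    rw [← hc]
    exact (hC c).1 c.2
  obtain ⟨p, hp, hp1, hpF, hv⟩ := h1 hFC
  have h1p : (1 : C) ∉ p := fun h => hp.ne_top ((Ideal.eq_top_iff_one p).2 h)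
  have hCO : ∀ x ∈ C, x ∈ atdO C p hp hv := by
    intro x hx
    exact ⟨⟨x, hx⟩, 1, h1p, by rw [map_one, div_one]; rfl⟩
  have hKC : ∀ x ∈ K, x ∈ C := fun x hx => C.algebraMap_mem ⟨x, hx⟩
  have hGC : ∀ x ∈ G, x ∈ C := fun x hx => hPC x (Subring.subset_closure (Or.inr hx))
  refine ⟨atdO C p hp hv, fun x hx => hCO x (hKC x hx), fun x hx => hCO x (hGC x hx), ?_, ?_⟩
  · rintro ⟨a, b, hb, hab⟩
    exact hpF a b hb hab
  have htr : (n : Cardinal) ≤ Algebra.trdeg K C := by
    have h1 := trdeg_add_eq K C (A := L)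
    have h2 : Algebra.IsAlgebraic C L := ⟨fun x => (halgP x).extendScalars (R := P) (S := C)
      fun a b hab => Subtype.ext (congrArg (Subtype.val : C → L) hab)⟩
    have h3 : Algebra.trdeg C L = 0 := _root_.trdeg_eq_zero
    rw [h3, add_zero] at h1
    rw [h1]
    exact atd_trdeg hn
  obtain ⟨y, hy⟩ := h3 htr p hp1
  refine atd_change (fun x hx => hCO x (hKC x hx)) (fun x hx => hCO x (hGC x hx))
    (r := fun i => (y i : L)) (fun i => (hC _).1 (y i).2) ⟨fun i => hCO _ (y i).2, ?_⟩
  intro Q hQ
  have h4 : MvPolynomial.aeval (fun i => (y i : L)) Q = algebraMap C L (MvPolynomial.aeval y Q) :=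
    MvPolynomial.aeval_algebraMap_apply L y Q
  have h5 : MvPolynomial.aeval y Q ∉ p := by
    intro h
    apply hQ
    apply (algebraicIndependent_iff.1 hy) Q
    rw [← Ideal.Quotient.eq_zero_iff_mem] at h
    rw [← h]
    have h7 : (Ideal.Quotient.mkₐ K p).comp (MvPolynomial.aeval y) =
        MvPolynomial.aeval (fun i => Ideal.Quotient.mk p (y i)) := by
      refine MvPolynomial.algHom_ext fun i => ?_
      rw [MvPolynomial.aeval_X]
      simp
    rw [← h7]
    rfl
  have h6 : algebraMap C L (MvPolynomial.aeval y Q) ≠ 0 := by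
    intro h
    apply h5
    have : MvPolynomial.aeval y Q = 0 := Subtype.ext h
    rw [this]
    exact p.zero_mem
  rw [h4]
  refine ⟨h6, 1, MvPolynomial.aeval y Q, h5, ?_⟩
  rw [map_one, one_div]

end KM
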