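import Pool.Agent.Lib.MP_732f67_ag.KM.AtHart

/-!
KM: the atlas over a subfield `M` of `L` which contains the local equations and the generating sections.
-/

namespace KM

variable {L : Type*} [Field L] {K : Subfield L} {ι I : Type*} [Fintype I] [DecidableEq I]
  {m : ℕ}

/-- the atlas of the subfield `M` -/
def Atl.sub (X : Atl K ι I) (M : Subfield L) (hd : ∀ i j, X.d i j ∈ M) :
    Atl (K.comap M.subtype) ι I where
  A i := (X.A i).comap M.subtype
  le i x hx := X.le i _ hx
  d i j := ⟨X.d i j, hd i j⟩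
  ne i j h := X.ne i j (congrArg Subtype.val h)

variable {X : Atl K ι I}

omit [DecidableEq I] in
theorem Atl.sub_eq {M : Subfield L} (hd : ∀ i j, X.d i j ∈ M) (i : ι) (t : I → ℤ) :
    (((X.sub M hd).eq i t : M) : L) = X.eq i t := by
  unfold Atl.eq
  have h1 : ((∏ j, (X.sub M hd).d i j ^ t j : M) : L) =
      ∏ j, (((X.sub M hd).d i j ^ t j : M) : L) := map_prod M.subtype _ _
  rw [h1]
  refine Finset.prod_congr rfl fun j _ => ?_
  exact map_zpow₀ M.subtype _ _

/-- the sections over the subfield -/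
theorem Atl.mem_sub {M : Subfield L} (hd : ∀ i j, X.d i j ∈ M) (t : I → ℤ) (x : M) :
    x ∈ (X.sub M hd).V t ↔ (x : L) ∈ X.V t := by
  refine forall_congr' fun i => ?_
  change (((x * (X.sub M hd).eq i t : M) : L) ∈ X.A i) ↔ _
  have h1 : ((x * (X.sub M hd).eq i t : M) : L) = (x : L) * X.eq i t := by
    rw [← Atl.sub_eq hd]
    rfl
  rw [h1]

/-- PROOF. `A := (O.toLocalSubring).map M.subtype` (its range), `LocalSubring.exists_le_valuationSubring`
gives `B` which dominates `A`; `B ∩ M` (`ValuationSubring.comap`) contains `O` and dominates it, and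
valuation rings are maximal with respect to domination: an element `x ∈ M`, `x ∈ B`, `x ∉ O` has
`x⁻¹ ∈ O` a non-unit of `O`, so a non-unit of `B`, contradiction. -/
theorem exists_extend {M : Subfield L} (O : ValuationSubring M) :
    ∃ B : ValuationSubring L, ∀ x : M, (x : L) ∈ B ↔ x ∈ O := by
  let f : O →+* L := M.subtype.comp O.subtype
  obtain ⟨B, hB, hloc⟩ := IsLocalRing.exists_factor_valuationRing f
  have h0 : ∀ y : O, ((y : M) : L) ∈ B := fun y => hB y
  refine ⟨B, fun x => ⟨fun hx => ?_, fun hx => h0 ⟨x, hx⟩⟩⟩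
  by_contra hxO
  have hx0 : x ≠ 0 := by
    rintro rfl
    exact hxO O.zero_mem
  have hinv : x⁻¹ ∈ O := (O.mem_or_inv_mem x).resolve_left hxO
  have hu : IsUnit ((f.codRestrict B.toSubring hB) ⟨x⁻¹, hinv⟩) := by
    refine IsUnit.of_mul_eq_one ⟨(x : L), hx⟩ ?_
    apply Subtype.ext
    change ((x⁻¹ : M) : L) * (x : L) = 1
    have h1 : ((x⁻¹ * x : M) : L) = 1 := by
      rw [inv_mul_cancel₀ hx0]
      rfl
    exact h1
  have hu' : IsUnit (⟨x⁻¹, hinv⟩ : O) := hloc.map_nonunit _ hu
  obtain ⟨u, hu2⟩ := hu'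
  apply hxO
  have h3 : (x⁻¹ : M) * ((u⁻¹ : Oˣ) : O).1 = 1 := by
    have h4 := congrArg Subtype.val (Units.mul_inv u)
    rw [hu2] at h4
    exact h4
  have h5 : ((u⁻¹ : Oˣ) : O).1 = x := by
    rw [inv_mul_eq_one₀ hx0] at h3
    exact h3.symm
  rw [← h5]
  exact ((u⁻¹ : Oˣ) : O).2

/-- PROOF. `closed`: an element `x : M` integral over `(X.sub M hd).A i` is integral over `X.A i` in `L`.
`cover`: `exists_extend`; the extension `B` contains `K`, because the elements of `K` are integral over
the prime field and valuation rings are integrally closed; apply `h.cover`. `gen`, `gen'`: the sets `W j`,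
`W' j` as sets of elements of `M` (`Finset.subtype` or `Finset.preimage`). `two` from `htwo` (the
elements of `W j` are sections of `e j m`). `ac`: `x` is algebraic over `K ∩ M`, so over `K`. -/
theorem Atl.Good.sub {p : ℕ} [Fact p.Prime] [Algebra (ZMod p) L] (h : X.Good m) {M : Subfield L}
    (hd : ∀ i j, X.d i j ∈ M) (hK : ∀ x ∈ K, IsAlgebraic (ZMod p) x) {W W' : I → Finset L}
    (hW : X.Gen m W) (hW' : X.Gen (m + 1) W') (hWM : ∀ j, ∀ s ∈ W j, s ∈ M)
    (hWM' : ∀ j, ∀ s ∈ W' j, s ∈ M) (htwo : ∀ j, ∃ s ∈ W j, ∃ s' ∈ W j, s' ≠ 0 ∧ s / s' ∉ K) :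
    (X.sub M hd).Good m := by
  classical
  have hinj : Function.Injective M.subtype := Subtype.val_injective
  have hgen : ∀ (n : ℕ) (U : I → Finset L), X.Gen n U → (∀ j, ∀ s ∈ U j, s ∈ M) →
      (X.sub M hd).Gen n fun j => (U j).preimage M.subtype hinj.injOn := by
    intro n U hU hUM
    constructor
    · intro j s hs
      rw [Finset.mem_preimage] at hs
      exact (Atl.mem_sub hd _ s).2 (hU.1 j _ hs)
    · intro i j
      obtain ⟨s, hs, h1, h2, h3⟩ := hU.2 i j
      refine ⟨⟨s, hUM j s hs⟩, ?_, ?_, h2, ?_⟩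
      · rw [Finset.mem_preimage]
        exact hs
      · intro h0
        exact h1 (congrArg Subtype.val h0)
      · exact h3
  refine ⟨h.pos, ?_, ?_, ⟨_, hgen m W hW hWM⟩, ⟨_, hgen (m + 1) W' hW' hWM'⟩, ?_, ?_⟩
  · intro i x hx
    change (x : L) ∈ X.A i
    refine h.closed i _ ?_
    let φ : ((X.sub M hd).A i) →+* X.A i :=
      { toFun := fun y => ⟨((y : M) : L), y.2⟩
        map_one' := rfl
        map_mul' := fun _ _ => rfl
        map_zero' := rfl
        map_add' := fun _ _ => rfl }
    exact IsIntegral.map_of_comp_eq φ M.subtype (by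
      ext y
      rfl) hx
  · intro O hO
    obtain ⟨B, hB⟩ := exists_extend O
    have hKB : ∀ x ∈ K, x ∈ B := by
      intro x hx
      have h1 : IsIntegral (ZMod p) x := (hK x hx).isIntegral
      have h2 : ∀ a : ZMod p, algebraMap (ZMod p) L a ∈ B := by
        intro a
        have h3 : ((a.val : ℕ) : ZMod p) = a := ZMod.natCast_zmod_val a
        rw [← h3, map_natCast]
        exact natCast_mem B _
      let φ : ZMod p →+* B :=
        { toFun := fun y => ⟨algebraMap (ZMod p) L y, h2 y⟩
          map_one' := Subtype.ext (map_one _)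
          map_mul' := fun _ _ => Subtype.ext (map_mul _ _ _)
          map_zero' := Subtype.ext (map_zero _)
          map_add' := fun _ _ => Subtype.ext (map_add _ _ _) }
      have h4 : IsIntegral B x := IsIntegral.map_of_comp_eq φ (RingHom.id L) (by
        ext y
        rfl) h1
      obtain ⟨y, hy⟩ := IsIntegrallyClosed.isIntegral_iff.1 h4
      rw [← hy]
      exact y.2
    obtain ⟨i, hi⟩ := h.cover B hKB
    exact ⟨i, fun x hx => (hB x).1 (hi _ hx)⟩
  · intro j
    obtain ⟨s, hs, s', hs', h0, hne⟩ := htwo j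
    refine ⟨m, ⟨s, hWM j s hs⟩, (Atl.mem_sub hd _ _).2 (hW.1 j s hs), ⟨s', hWM j s' hs'⟩,
      (Atl.mem_sub hd _ _).2 (hW.1 j s' hs'), fun h1 => h0 (congrArg Subtype.val h1), fun h1 => ?_⟩
    exact hne h1
  · intro x hx
    change (x : L) ∈ K
    refine h.ac _ ?_
    obtain ⟨P, hP0, hP⟩ := hx
    let φ : (K.comap M.subtype) →+* K :=
      { toFun := fun y => ⟨((y : M) : L), y.2⟩
        map_one' := rfl
        map_mul' := fun _ _ => rfl
        map_zero' := rfl
        map_add' := fun _ _ => rfl }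
    refine ⟨P.map φ, (Polynomial.map_ne_zero_iff φ.injective).2 hP0, ?_⟩
    rw [Polynomial.aeval_def, Polynomial.eval₂_map]
    have h1 : (algebraMap K L).comp φ = M.subtype.comp (algebraMap (K.comap M.subtype) M) := by
      ext y
      rfl
    have h2 : Polynomial.eval₂ (algebraMap (K.comap M.subtype) M) x P = 0 := hP
    have h3 := Polynomial.hom_eval₂ P (algebraMap (K.comap M.subtype) M) M.subtype x
    rw [h2, map_zero] at h3
    rw [h1]
    exact h3.symm

end KM
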