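import Pool.Agent.Lib.MP_732f67_ag.KM.Defs

/-! KM part A, file 1: first consequences of (A1) - (A4).

* `mono`: all conditions concern vectors supported in `S`, so they restrict.
* `alg`: minimal polynomial, `ic` with `s = 0`, and `V 0 = K`.
* `exists_ne`: if `V (e i m) = 0` (`m₀ ≤ m`) then `free` gives `g ∈ V s` for every `g`, so
  `L = V 0 = K`, against `two`; then products.
* `growth`: `x, y ∈ V (e i m)` with `x / y ∉ K`; `x / y` is transcendental over `K` (`alg`), so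
  the `x ^ a * y ^ (k - a)` are independent in `V (e i (m k))`; multiply by a nonzero element.
* `neg_large`: put `c = ` the vector with all coordinates `C + m₀` on `S`.  If `t ≤ C`, `t i < - D`
  and `0 ≠ x ∈ V t`, take `0 ≠ w ∈ V (c - t - e i (- t i))`; then `x * w * V (e i (- t i)) ⊆ V c`,
  so `finrank V (e i (- t i)) ≤ finrank V c`, against `growth` if `D` is large.
* `neg_zero`: powers of `x` and `neg_large`.
-/

namespace KM

section vec

variable {I : Type*} {S S' : Finset I}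

theorem Zs_mono (hS : S' ⊆ S) {t : I → ℤ} (ht : t ∈ Zs S') : t ∈ Zs S :=
  fun i hi => ht i fun h => hi (hS h)

theorem Nn_mono (hS : S' ⊆ S) {t : I → ℤ} (ht : t ∈ Nn S') : t ∈ Nn S :=
  ⟨ht.1, fun i hi => ht.2 i fun h => hi (hS h)⟩

theorem Nn_Zs {t : I → ℤ} (ht : t ∈ Nn S) : t ∈ Zs S := ht.2

theorem Zs_zero : (0 : I → ℤ) ∈ Zs S := fun _ _ => rfl

theorem Nn_zero : (0 : I → ℤ) ∈ Nn S := ⟨fun _ => le_rfl, fun _ _ => rfl⟩

theorem Zs_add {s t : I → ℤ} (hs : s ∈ Zs S) (ht : t ∈ Zs S) : s + t ∈ Zs S := fun i hi => by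
  rw [Pi.add_apply, hs i hi, ht i hi, add_zero]

theorem Nn_add {s t : I → ℤ} (hs : s ∈ Nn S) (ht : t ∈ Nn S) : s + t ∈ Nn S :=
  ⟨fun i => add_nonneg (hs.1 i) (ht.1 i), Zs_add hs.2 ht.2⟩

theorem Zs_sub {s t : I → ℤ} (hs : s ∈ Zs S) (ht : t ∈ Zs S) : s - t ∈ Zs S := fun i hi => by
  rw [Pi.sub_apply, hs i hi, ht i hi, sub_zero]

theorem Zs_neg {t : I → ℤ} (ht : t ∈ Zs S) : -t ∈ Zs S := fun i hi => by
  rw [Pi.neg_apply, ht i hi, neg_zero]

theorem Zs_nsmul {t : I → ℤ} (ht : t ∈ Zs S) (n : ℕ) : n • t ∈ Zs S := fun i hi => by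
  rw [Pi.smul_apply, ht i hi, smul_zero]

theorem Nn_nsmul {t : I → ℤ} (ht : t ∈ Nn S) (n : ℕ) : n • t ∈ Nn S :=
  ⟨fun i => nsmul_nonneg (ht.1 i) n, Zs_nsmul ht.2 n⟩

theorem Zs_sum {ι : Type*} (s : Finset ι) (t : ι → I → ℤ) (ht : ∀ j ∈ s, t j ∈ Zs S) :
    ∑ j ∈ s, t j ∈ Zs S := fun i hi => by
  rw [Finset.sum_apply]
  exact Finset.sum_eq_zero fun j hj => ht j hj i hi

theorem Nn_sum {ι : Type*} (s : Finset ι) (t : ι → I → ℤ) (ht : ∀ j ∈ s, t j ∈ Nn S) :
    ∑ j ∈ s, t j ∈ Nn S := ⟨fun i => by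
  rw [Finset.sum_apply]
  exact Finset.sum_nonneg fun j hj => (ht j hj).1 i, Zs_sum s t fun j hj => (ht j hj).2⟩

variable [DecidableEq I]

theorem e_same (i : I) (m : ℤ) : e i m i = m := by simp [e]

theorem e_ne {i j : I} (h : j ≠ i) (m : ℤ) : e i m j = 0 := by simp [e, h]

theorem Zs_e {i : I} (hi : i ∈ S) (m : ℤ) : e i m ∈ Zs S := fun j hj => by
  have : j ≠ i := by
    rintro rfl
    exact hj hi
  exact e_ne this m

theorem Nn_e {i : I} (hi : i ∈ S) {m : ℤ} (hm : 0 ≤ m) : e i m ∈ Nn S :=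
  ⟨fun j => by
    rcases eq_or_ne j i with rfl | h
    · rw [e_same]
      exact hm
    · rw [e_ne h], Zs_e hi m⟩

theorem e_zero (i : I) : e i 0 = (0 : I → ℤ) := by
  funext j
  rcases eq_or_ne j i with rfl | h
  · rw [e_same, Pi.zero_apply]
  · rw [e_ne h, Pi.zero_apply]

theorem e_add (i : I) (m n : ℤ) : e i (m + n) = e i m + e i n := by
  funext j
  rcases eq_or_ne j i with rfl | h
  · rw [Pi.add_apply, e_same, e_same, e_same]
  · rw [Pi.add_apply, e_ne h, e_ne h, e_ne h, add_zero]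

theorem e_nsmul (i : I) (m : ℤ) (n : ℕ) : n • e i m = e i (n * m) := by
  funext j
  rcases eq_or_ne j i with rfl | h
  · rw [Pi.smul_apply, e_same, e_same, nsmul_eq_mul]
  · rw [Pi.smul_apply, e_ne h, e_ne h, smul_zero]

theorem sum_e {u : I → ℤ} (hu : u ∈ Zs S) : ∑ i ∈ S, e i (u i) = u := by
  funext j
  rw [Finset.sum_apply]
  by_cases hj : j ∈ S
  · rw [Finset.sum_eq_single_of_mem j hj]
    · exact e_same j (u j)
    · intro i _ hij
      exact e_ne hij.symm (u i)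
  · rw [hu j hj]
    refine Finset.sum_eq_zero fun i hi => ?_
    have : j ≠ i := by
      rintro rfl
      exact hj hi
    exact e_ne this (u i)

end vec

variable {L I : Type*} [Field L] [DecidableEq I] {K : Subfield L}
  {V : (I → ℤ) → Submodule K L} {S : Finset I} {m₀ : ℕ}

theorem Sys.mono (h : Sys K V S m₀) {S' : Finset I} (hS : S' ⊆ S) : Sys K V S' m₀ where
  pos := h.pos
  fg := fun t ht => h.fg t (Zs_mono hS ht)
  zero := h.zero
  mul := fun s hs t ht => h.mul s (Zs_mono hS hs) t (Zs_mono hS ht)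
  two := fun i hi => h.two i (hS hi)
  ic := fun s hs => h.ic s (Zs_mono hS hs)
  reg := by
    intro m hm i hi
    obtain ⟨C, hC⟩ := h.reg m hm i (hS hi)
    exact ⟨C, fun v hv => hC v (Nn_mono hS hv)⟩
  free := fun m hm i hi s hs => h.free m hm i (hS hi) s (Zs_mono hS hs)

theorem Sys.one_mem (h : Sys K V S m₀) : (1 : L) ∈ V 0 := (h.zero 1).2 K.one_mem

theorem Sys.pow_mem (h : Sys K V S m₀) {t : I → ℤ} (ht : t ∈ Zs S) {x : L} (hx : x ∈ V t) (n : ℕ) :
    x ^ n ∈ V (n • t) := by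
  induction n with
  | zero =>
    rw [pow_zero, zero_nsmul]
    exact h.one_mem
  | succ n ih =>
    rw [pow_succ, succ_nsmul]
    exact h.mul _ (Zs_nsmul ht n) _ ht _ ih _ hx

theorem Sys.prod_mem (h : Sys K V S m₀) {ι : Type*} (s : Finset ι) (t : ι → I → ℤ) (x : ι → L)
    (ht : ∀ j ∈ s, t j ∈ Zs S) (hx : ∀ j ∈ s, x j ∈ V (t j)) :
    ∏ j ∈ s, x j ∈ V (∑ j ∈ s, t j) := by
  classical
  induction s using Finset.induction_on with
  | empty =>
    rw [Finset.prod_empty, Finset.sum_empty]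
    exact h.one_mem
  | insert a s ha ih =>
    rw [Finset.prod_insert ha, Finset.sum_insert ha]
    refine h.mul _ (ht a (Finset.mem_insert_self a s)) _
      (Zs_sum s t fun j hj => ht j (Finset.mem_insert_of_mem hj)) _
      (hx a (Finset.mem_insert_self a s)) _
      (ih (fun j hj => ht j (Finset.mem_insert_of_mem hj))
        fun j hj => hx j (Finset.mem_insert_of_mem hj))

theorem Sys.alg (h : Sys K V S m₀) {x : L} (hx : IsAlgebraic K x) : x ∈ K := by
  have hint : IsIntegral K x := hx.isIntegral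
  set P := minpoly K x with hP
  have hmon : P.Monic := minpoly.monic hint
  have hpos : 0 < P.natDegree := minpoly.natDegree_pos hint
  obtain ⟨r, hr⟩ : ∃ r, P.natDegree = r + 1 := ⟨P.natDegree - 1, by omega⟩
  have h0 : Polynomial.aeval x P = 0 := minpoly.aeval K x
  rw [Polynomial.aeval_eq_sum_range, hr, Finset.sum_range_succ] at h0
  have hlead : P.coeff (r + 1) = 1 := by
    rw [← hr]
    exact hmon
  rw [hlead, one_smul] at h0
  rw [← h.zero]
  refine h.ic 0 Zs_zero x r (fun j => -((P.coeff (r - j) : K) : L)) ?_ ?_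
  · intro j _
    rw [smul_zero, h.zero]
    exact K.neg_mem (P.coeff (r - j)).2
  · have h1 : ∑ j ∈ Finset.range (r + 1), -((P.coeff (r - j) : K) : L) * x ^ (r - j) =
        -∑ j ∈ Finset.range (r + 1), P.coeff j • x ^ j := by
      rw [← Finset.sum_neg_distrib,
        ← Finset.sum_range_reflect (fun j => -(P.coeff j • x ^ j)) (r + 1)]
      refine Finset.sum_congr rfl fun j _ => ?_
      rw [neg_mul, show r + 1 - 1 - j = r - j by omega]
      rfl
    rw [h1]
    exact eq_neg_of_add_eq_zero_right h0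

theorem Sys.exists_ne_single (h : Sys K V S m₀) {i : I} (hi : i ∈ S) {m : ℕ} (hm : m₀ ≤ m) :
    ∃ x ∈ V (e i m), x ≠ 0 := by
  by_contra hcon
  push Not at hcon
  obtain ⟨m', x, _, y, _, _, hxy⟩ := h.two i hi
  apply hxy
  rw [← h.zero]
  refine h.free m hm i hi 0 Zs_zero _ ?_
  intro z hz
  rw [hcon z hz, mul_zero]
  exact Submodule.zero_mem _

theorem Sys.exists_ne (h : Sys K V S m₀) {u : I → ℤ} (hu : u ∈ Nn S)
    (hu' : ∀ i, u i = 0 ∨ (m₀ : ℤ) ≤ u i) : ∃ x ∈ V u, x ≠ 0 := by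
  have key : ∀ i, ∃ x : L, (i ∈ S → x ∈ V (e i (u i))) ∧ x ≠ 0 := by
    intro i
    by_cases hi : i ∈ S
    · rcases hu' i with h0 | h0
      · refine ⟨1, fun _ => ?_, one_ne_zero⟩
        rw [h0, e_zero]
        exact h.one_mem
      · obtain ⟨m, hm⟩ := Int.eq_ofNat_of_zero_le (hu.1 i)
        obtain ⟨x, hx, hx0⟩ := h.exists_ne_single hi (m := m) (by omega)
        refine ⟨x, fun _ => ?_, hx0⟩
        rw [hm]
        exact hx
    · exact ⟨1, fun h1 => absurd h1 hi, one_ne_zero⟩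
  choose x hx hx0 using key
  refine ⟨∏ i ∈ S, x i, ?_, Finset.prod_ne_zero_iff.2 fun i _ => hx0 i⟩
  have h1 := h.prod_mem S (fun i => e i (u i)) x (fun i hi => Zs_e hi _) fun i hi => hx i hi
  rwa [sum_e hu.2] at h1

theorem linearIndependent_pow_of_transcendental {K L : Type*} [Field K] [Field L] [Algebra K L]
    {θ : L} (hθ : Transcendental K θ) (c : L) (hc : c ≠ 0) (n : ℕ) :
    LinearIndependent K fun a : Fin n => c * θ ^ (a : ℕ) := by
  rw [Fintype.linearIndependent_iff]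
  intro g hg
  have h1 : c * Polynomial.aeval θ (∑ a : Fin n, Polynomial.monomial (a : ℕ) (g a)) = 0 := by
    rw [map_sum, Finset.mul_sum, ← hg]
    refine Finset.sum_congr rfl fun a _ => ?_
    rw [Polynomial.aeval_monomial, Algebra.smul_def]
    ring
  have h2 : Polynomial.aeval θ (∑ a : Fin n, Polynomial.monomial (a : ℕ) (g a)) = 0 :=
    (mul_eq_zero.1 h1).resolve_left hc
  have h3 : (∑ a : Fin n, Polynomial.monomial (a : ℕ) (g a)) = 0 := by
    by_contra h4
    exact hθ ⟨_, h4, h2⟩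
  intro a
  have h4 := congrArg (fun p => Polynomial.coeff p (a : ℕ)) h3
  simp only [Polynomial.finsetSum_coeff, Polynomial.coeff_monomial, Polynomial.coeff_zero] at h4
  rw [Finset.sum_eq_single a] at h4
  · simpa using h4
  · intro b _ hb
    rw [if_neg]
    intro h5
    exact hb (Fin.ext h5)
  · intro h5
    exact absurd (Finset.mem_univ a) h5

theorem Sys.growth (h : Sys K V S m₀) {i : I} (hi : i ∈ S) (n : ℕ) :
    ∃ J : ℕ, ∀ j : ℕ, J ≤ j → n ≤ Module.finrank K (V (e i j)) := by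
  obtain ⟨m, x, hx, y, hy, hy0, hxy⟩ := h.two i hi
  have htr : Transcendental K (x / y) := fun hal => hxy (h.alg hal)
  refine ⟨m * n + m₀, fun j hj => ?_⟩
  obtain ⟨z, hz, hz0⟩ := h.exists_ne_single hi (m := j - m * n) (by omega)
  have : Module.Finite K (V (e i j)) := Module.Finite.iff_fg.2 (h.fg _ (Zs_e hi _))
  have hmem : ∀ a : Fin n, z * y ^ n * (x / y) ^ (a : ℕ) ∈ V (e i j) := by
    intro a
    have ha : (a : ℕ) ≤ n := a.2.le
    have h1 : z * y ^ n * (x / y) ^ (a : ℕ) = z * (y ^ (n - a) * x ^ (a : ℕ)) := by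
      have h2 : y ^ n = y ^ (n - (a : ℕ)) * y ^ (a : ℕ) := by
        rw [← pow_add]
        congr 1
        omega
      rw [h2, div_pow]
      field_simp
    rw [h1]
    have h3 := h.pow_mem (Zs_e hi _) hy (n - (a : ℕ))
    have h4 := h.pow_mem (Zs_e hi _) hx (a : ℕ)
    have h5 := h.mul _ (Zs_nsmul (Zs_e hi _) _) _ (Zs_nsmul (Zs_e hi _) _) _ h3 _ h4
    have h6 := h.mul _ (Zs_e hi _) _ (Zs_add (Zs_nsmul (Zs_e hi _) _) (Zs_nsmul (Zs_e hi _) _))
      _ hz _ h5
    have h7 : e i ((j - m * n : ℕ) : ℤ) + ((n - (a : ℕ)) • e i (m : ℤ) + (a : ℕ) • e i (m : ℤ)) =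
        e i (j : ℤ) := by
      rw [← add_nsmul, e_nsmul, ← e_add]
      congr 1
      have h8 : n - (a : ℕ) + (a : ℕ) = n := by omega
      have h9 : ((j - m * n : ℕ) : ℤ) = (j : ℤ) - m * n := by
        rw [Nat.cast_sub (by omega)]
        push_cast
        ring
      rw [h8, h9]
      ring
    rwa [h7] at h6
  have hli : LinearIndependent K fun a : Fin n =>
      (⟨z * y ^ n * (x / y) ^ (a : ℕ), hmem a⟩ : V (e i j)) := by
    have h1 := linearIndependent_pow_of_transcendental htr (z * y ^ n)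
      (mul_ne_zero hz0 (pow_ne_zero n hy0)) n
    exact LinearIndependent.of_comp (V (e i j)).subtype h1
  have h2 := hli.fintype_card_le_finrank
  rwa [Fintype.card_fin] at h2

theorem Sys.neg_large (h : Sys K V S m₀) (C : ℤ) : ∃ D : ℤ, ∀ t ∈ Zs S, (∀ i, t i ≤ C) →
    (∃ i ∈ S, t i < - D) → ∀ x ∈ V t, x = 0 := by
  classical
  set c : I → ℤ := fun i => if i ∈ S then max C 0 + m₀ else 0 with hc
  have hcS : c ∈ Zs S := fun i hi => if_neg hi
  have hg : ∀ i, ∃ J : ℕ, i ∈ S → ∀ j : ℕ, J ≤ j →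
      Module.finrank K (V c) + 1 ≤ Module.finrank K (V (e i j)) := by
    intro i
    by_cases hi : i ∈ S
    · obtain ⟨J, hJ⟩ := h.growth hi (Module.finrank K (V c) + 1)
      exact ⟨J, fun _ => hJ⟩
    · exact ⟨0, fun h1 => absurd h1 hi⟩
  choose J hJ using hg
  refine ⟨((∑ i ∈ S, J i : ℕ) : ℤ), ?_⟩
  rintro t ht htC ⟨i, hi, hti⟩ x hx
  by_contra hx0
  have hJi : J i ≤ ∑ i ∈ S, J i := Finset.single_le_sum (f := J) (fun _ _ => Nat.zero_le _) hi
  obtain ⟨j, hj⟩ := Int.eq_ofNat_of_zero_le (show 0 ≤ - t i by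
    have : (0 : ℤ) ≤ ((∑ i ∈ S, J i : ℕ) : ℤ) := Int.natCast_nonneg _
    omega)
  have hjJ : J i ≤ j := by
    have : ((J i : ℕ) : ℤ) ≤ ((∑ i ∈ S, J i : ℕ) : ℤ) := by exact_mod_cast hJi
    omega
  -- the element w
  have hwN : c - t - e i (j : ℤ) ∈ Nn S ∧ ∀ k, (c - t - e i (j : ℤ)) k = 0 ∨
      (m₀ : ℤ) ≤ (c - t - e i (j : ℤ)) k := by
    have hz : c - t - e i (j : ℤ) ∈ Zs S := Zs_sub (Zs_sub hcS ht) (Zs_e hi _)
    have h1 : ∀ k, (c - t - e i (j : ℤ)) k = 0 ∨ (m₀ : ℤ) ≤ (c - t - e i (j : ℤ)) k := by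
      intro k
      by_cases hk : k ∈ S
      · right
        have hck : c k = max C 0 + m₀ := if_pos hk
        rw [Pi.sub_apply, Pi.sub_apply, hck]
        rcases eq_or_ne k i with rfl | hki
        · rw [e_same]
          have := le_max_right C 0
          omega
        · rw [e_ne hki]
          have h2 := le_max_left C 0
          have h3 := htC k
          omega
      · exact Or.inl (hz k hk)
    refine ⟨⟨fun k => ?_, hz⟩, h1⟩
    rcases h1 k with h2 | h2
    · rw [h2]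
    · exact (Int.natCast_nonneg m₀).trans h2
  obtain ⟨w, hw, hw0⟩ := h.exists_ne hwN.1 hwN.2
  have : Module.Finite K (V c) := Module.Finite.iff_fg.2 (h.fg _ hcS)
  have hmem : ∀ z : V (e i (j : ℤ)), x * w * (z : L) ∈ V c := by
    intro z
    have h1 := h.mul _ (Zs_add ht hwN.1.2) _ (Zs_e hi _) _
      (h.mul _ ht _ hwN.1.2 _ hx _ hw) _ z.2
    have h2 : t + (c - t - e i (j : ℤ)) + e i (j : ℤ) = c := by abel
    rwa [h2] at h1
  let φ : V (e i (j : ℤ)) →ₗ[K] V c :=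
    LinearMap.codRestrict (V c) ((LinearMap.mulLeft K (x * w)) ∘ₗ (V (e i (j : ℤ))).subtype) hmem
  have hφ : Function.Injective φ := by
    intro z z' hzz
    apply Subtype.ext
    have h1 := congrArg (fun q : V c => (q : L)) hzz
    exact mul_left_cancel₀ (mul_ne_zero hx0 hw0) h1
  have h1 := LinearMap.finrank_le_finrank_of_injective hφ
  have h2 := hJ i hi j hjJ
  omega

theorem Sys.neg_zero (h : Sys K V S m₀) {t : I → ℤ} (ht : t ∈ Zs S) (ht0 : ∀ i, t i ≤ 0)
    (hne : t ≠ 0) {x : L} (hx : x ∈ V t) : x = 0 := by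
  obtain ⟨D, hD⟩ := h.neg_large 0
  obtain ⟨i, hi⟩ : ∃ i, t i ≠ 0 := by
    by_contra hcon
    push Not at hcon
    exact hne (funext hcon)
  have hiS : i ∈ S := by
    by_contra hcon
    exact hi (ht i hcon)
  have hti : t i ≤ -1 := by
    have := ht0 i
    omega
  have h1 := hD ((D.toNat + 1) • t) (Zs_nsmul ht _) (fun k => ?_) ⟨i, hiS, ?_⟩ _
    (h.pow_mem ht hx (D.toNat + 1))
  · exact pow_eq_zero_iff (Nat.succ_ne_zero _) |>.1 h1
  · rw [Pi.smul_apply, nsmul_eq_mul]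
    exact mul_nonpos_of_nonneg_of_nonpos (Int.natCast_nonneg _) (ht0 k)
  · rw [Pi.smul_apply, nsmul_eq_mul]
    push_cast
    have h2 : D ≤ (D.toNat : ℤ) := Int.self_le_toNat D
    have h3 : (0 : ℤ) ≤ (D.toNat : ℤ) := Int.natCast_nonneg _
    nlinarith

end KM
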