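import Pool.Agent.Lib.MP_732f67_ag.KM.Basic

/-! KM part A, base change to the infinite field `K(u)`, file 1.

`mem_bK`: the set of the quotients of polynomials with coefficients in `K` is a subfield containing
`u = RatFunc.X` and `C '' K`.  `mem_ext`: common denominators.
`finrank_ext`: a `K`-basis `w 1 .. w r` of `W` is independent over `K(u)`: a relation, multiplied by a
common denominator, is `∑ C (w k) * P k = 0` with `P k` polynomials over `K`; compare
coefficients. -/

namespace KM

open Polynomial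

variable {L : Type*} [Field L]

/-- the field `K(u)` -/
noncomputable def bK (K : Subfield L) : Subfield (RatFunc L) :=
  Subfield.closure (insert RatFunc.X (RatFunc.C '' (K : Set L)))

/-- the `K(u)`-space generated by `W` -/
noncomputable def ext {K : Subfield L} (W : Submodule K L) : Submodule (bK K) (RatFunc L) :=
  Submodule.span (bK K) (RatFunc.C '' (W : Set L))

/-- the system over `K(u)` -/
noncomputable def bV {I : Type*} {K : Subfield L} (V : (I → ℤ) → Submodule K L) (t : I → ℤ) :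
    Submodule (bK K) (RatFunc L) := ext (V t)

variable {K : Subfield L}

namespace Bc

/-- polynomials with coefficients in a subset -/
def PC (W : Set L) : Set L[X] := {Y | ∀ n, Y.coeff n ∈ W}

theorem PC_mul {W : Submodule K L} {h Y : L[X]} (hh : h ∈ PC (K : Set L)) (hY : Y ∈ PC (W : Set L)) :
    h * Y ∈ PC (W : Set L) := by
  intro n
  rw [coeff_mul]
  refine W.sum_mem fun x _ => ?_
  exact W.smul_mem (⟨h.coeff x.1, hh x.1⟩ : K) (hY x.2)

theorem PC_mulK {h Y : L[X]} (hh : h ∈ PC (K : Set L)) (hY : Y ∈ PC (K : Set L)) :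
    h * Y ∈ PC (K : Set L) := by
  intro n
  rw [coeff_mul]
  exact K.sum_mem fun x _ => K.mul_mem (hh x.1) (hY x.2)

theorem PC_one : (1 : L[X]) ∈ PC (K : Set L) := by
  intro n
  rw [coeff_one]
  split_ifs
  · exact K.one_mem
  · exact K.zero_mem

theorem PC_C {W : Submodule K L} {x : L} (hx : x ∈ W) : Polynomial.C x ∈ PC (W : Set L) := by
  intro n
  rw [coeff_C]
  split_ifs
  · exact hx
  · exact W.zero_mem

theorem PC_add {W : Submodule K L} {h Y : L[X]} (hh : h ∈ PC (W : Set L))
    (hY : Y ∈ PC (W : Set L)) : h + Y ∈ PC (W : Set L) := by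
  intro n
  rw [coeff_add]
  exact W.add_mem (hh n) (hY n)

theorem am_ne {h : L[X]} (hh : h ≠ 0) : algebraMap L[X] (RatFunc L) h ≠ 0 :=
  fun h0 => hh (RatFunc.algebraMap_injective L (by rw [h0, map_zero]))

theorem am_C (x : L) : algebraMap L[X] (RatFunc L) (Polynomial.C x) = RatFunc.C x :=
  RatFunc.algebraMap_C x

theorem am_X : algebraMap L[X] (RatFunc L) Polynomial.X = RatFunc.X := RatFunc.algebraMap_X

theorem am_sum (Y : L[X]) : algebraMap L[X] (RatFunc L) Y =
    ∑ n ∈ Finset.range (Y.natDegree + 1), RatFunc.C (Y.coeff n) * RatFunc.X ^ n := by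
  conv_lhs => rw [Y.as_sum_range_C_mul_X_pow]
  rw [map_sum]
  refine Finset.sum_congr rfl fun n _ => ?_
  rw [map_mul, map_pow, am_C, am_X]

theorem C_mem {x : L} (hx : x ∈ K) : RatFunc.C x ∈ bK K :=
  Subfield.subset_closure (Or.inr ⟨x, hx, rfl⟩)

theorem X_mem : (RatFunc.X : RatFunc L) ∈ bK K := Subfield.subset_closure (Or.inl rfl)

theorem am_mem {Y : L[X]} (hY : Y ∈ PC (K : Set L)) : algebraMap L[X] (RatFunc L) Y ∈ bK K := by
  rw [am_sum]
  exact (bK K).sum_mem fun n _ => (bK K).mul_mem (C_mem (hY n)) ((bK K).pow_mem X_mem n)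

theorem quot_add {x x' y y' h h' : RatFunc L} (e : x * h = y) (e' : x' * h' = y') :
    (x + x') * (h * h') = h' * y + h * y' := by
  rw [← e, ← e']
  ring

theorem quot_mul {x x' y y' h h' : RatFunc L} (e : x * h = y) (e' : x' * h' = y') :
    (x * x') * (h * h') = y * y' := by
  rw [← e, ← e']
  ring

end Bc

open Bc

theorem mem_bK {x : RatFunc L} : x ∈ bK K ↔ ∃ Y h : L[X], (∀ n, Y.coeff n ∈ K) ∧
    (∀ n, h.coeff n ∈ K) ∧ h ≠ 0 ∧
    x * algebraMap L[X] (RatFunc L) h = algebraMap L[X] (RatFunc L) Y := by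
  constructor
  · intro hx
    induction hx using Subfield.closure_induction with
    | mem x hx =>
      rcases hx with rfl | ⟨y, hy, rfl⟩
      · refine ⟨Polynomial.X, 1, fun n => ?_, PC_one, one_ne_zero, by rw [map_one, mul_one, am_X]⟩
        rw [coeff_X]
        split_ifs
        · exact K.one_mem
        · exact K.zero_mem
      · refine ⟨Polynomial.C y, 1, fun n => ?_, PC_one, one_ne_zero,
          by rw [map_one, mul_one, am_C]⟩
        rw [coeff_C]
        split_ifs
        · exact hy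
        · exact K.zero_mem
    | one => exact ⟨1, 1, PC_one, PC_one, one_ne_zero, by rw [map_one, mul_one]⟩
    | add x y _ _ hx hy =>
      obtain ⟨Y, h, hY, hh, h0, e⟩ := hx
      obtain ⟨Y', h', hY', hh', h0', e'⟩ := hy
      refine ⟨h' * Y + h * Y', h * h', fun n => ?_, PC_mulK hh hh', mul_ne_zero h0 h0', ?_⟩
      · rw [coeff_add]
        exact K.add_mem (PC_mulK hh' hY n) (PC_mulK hh hY' n)
      · rw [map_mul, map_add, map_mul, map_mul]
        exact quot_add e e'
    | neg x _ hx =>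
      obtain ⟨Y, h, hY, hh, h0, e⟩ := hx
      refine ⟨-Y, h, fun n => ?_, hh, h0, ?_⟩
      · rw [coeff_neg]
        exact K.neg_mem (hY n)
      · rw [neg_mul, e, map_neg]
    | inv x _ hx =>
      obtain ⟨Y, h, hY, hh, h0, e⟩ := hx
      by_cases hx0 : x = 0
      · refine ⟨0, 1, fun n => ?_, PC_one, one_ne_zero, ?_⟩
        · rw [coeff_zero]
          exact K.zero_mem
        · rw [hx0, inv_zero, zero_mul, map_zero]
      · have hY0 : Y ≠ 0 := by
          rintro rfl
          rw [map_zero] at e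
          exact (mul_ne_zero hx0 (am_ne h0)) e
        exact ⟨h, Y, hh, hY, hY0, by rw [← e, ← mul_assoc, inv_mul_cancel₀ hx0, one_mul]⟩
    | mul x y _ _ hx hy =>
      obtain ⟨Y, h, hY, hh, h0, e⟩ := hx
      obtain ⟨Y', h', hY', hh', h0', e'⟩ := hy
      refine ⟨Y * Y', h * h', PC_mulK hY hY', PC_mulK hh hh', mul_ne_zero h0 h0', ?_⟩
      rw [map_mul, map_mul]
      exact quot_mul e e'
  · rintro ⟨Y, h, hY, hh, h0, e⟩
    have h1 : x = algebraMap L[X] (RatFunc L) Y / algebraMap L[X] (RatFunc L) h := by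
      rw [← e, mul_div_cancel_right₀ _ (am_ne h0)]
    rw [h1]
    exact (bK K).div_mem (am_mem hY) (am_mem hh)

theorem mem_ext {W : Submodule K L} {x : RatFunc L} : x ∈ ext W ↔ ∃ Y h : L[X],
    (∀ n, Y.coeff n ∈ W) ∧ (∀ n, h.coeff n ∈ K) ∧ h ≠ 0 ∧
    x * algebraMap L[X] (RatFunc L) h = algebraMap L[X] (RatFunc L) Y := by
  constructor
  · intro hx
    unfold ext at hx
    induction hx using Submodule.span_induction with
    | mem x hx =>
      obtain ⟨y, hy, rfl⟩ := hx
      exact ⟨Polynomial.C y, 1, PC_C hy, PC_one, one_ne_zero, by rw [map_one, mul_one, am_C]⟩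
    | zero =>
      refine ⟨0, 1, fun n => ?_, PC_one, one_ne_zero, by rw [zero_mul, map_zero]⟩
      rw [coeff_zero]
      exact W.zero_mem
    | add x y _ _ hx hy =>
      obtain ⟨Y, h, hY, hh, h0, e⟩ := hx
      obtain ⟨Y', h', hY', hh', h0', e'⟩ := hy
      refine ⟨h' * Y + h * Y', h * h', PC_add (PC_mul hh' hY) (PC_mul hh hY'), PC_mulK hh hh',
        mul_ne_zero h0 h0', ?_⟩
      rw [map_mul, map_add, map_mul, map_mul]
      exact quot_add e e'
    | smul c x _ hx =>
      obtain ⟨Y, h, hY, hh, h0, e⟩ := hx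
      obtain ⟨Y', h', hY', hh', h0', e'⟩ := mem_bK.1 c.2
      refine ⟨Y' * Y, h' * h, PC_mul hY' hY, PC_mulK hh' hh, mul_ne_zero h0' h0, ?_⟩
      rw [map_mul, map_mul]
      exact quot_mul e' e
  · rintro ⟨Y, h, hY, hh, h0, e⟩
    have h1 : x = (algebraMap L[X] (RatFunc L) h)⁻¹ * algebraMap L[X] (RatFunc L) Y := by
      rw [← e, mul_comm x, ← mul_assoc, inv_mul_cancel₀ (am_ne h0), one_mul]
    rw [h1, am_sum Y, Finset.mul_sum]
    refine Submodule.sum_mem _ fun n _ => ?_
    have h2 : (algebraMap L[X] (RatFunc L) h)⁻¹ * RatFunc.X ^ n ∈ bK K :=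
      (bK K).mul_mem ((bK K).inv_mem (am_mem hh)) ((bK K).pow_mem X_mem n)
    have h3 : (algebraMap L[X] (RatFunc L) h)⁻¹ * (RatFunc.C (Y.coeff n) * RatFunc.X ^ n) =
        (⟨_, h2⟩ : bK K) • RatFunc.C (Y.coeff n) := by
      rw [Subfield.smul_def, smul_eq_mul]
      ring
    rw [h3]
    exact Submodule.smul_mem _ _ (Submodule.subset_span ⟨_, hY n, rfl⟩)

/-- a common denominator for finitely many elements -/
theorem ext_common {ι : Type*} (s : Finset ι) (W : ι → Submodule K L) (x : ι → RatFunc L)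
    (hx : ∀ j ∈ s, x j ∈ ext (W j)) : ∃ (h : L[X]) (Y : ι → L[X]), (∀ n, h.coeff n ∈ K) ∧ h ≠ 0 ∧
      ∀ j ∈ s, (∀ n, (Y j).coeff n ∈ W j) ∧
        x j * algebraMap L[X] (RatFunc L) h = algebraMap L[X] (RatFunc L) (Y j) := by
  classical
  induction s using Finset.induction_on with
  | empty =>
    exact ⟨1, fun _ => 0, PC_one, one_ne_zero, fun j hj => absurd hj (Finset.notMem_empty j)⟩
  | insert a s ha ih =>
    obtain ⟨h, Y, hh, h0, hY⟩ := ih fun j hj => hx j (Finset.mem_insert_of_mem hj)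
    obtain ⟨Y', h', hY', hh', h0', e'⟩ := mem_ext.1 (hx a (Finset.mem_insert_self a s))
    obtain ⟨Z, hZa, hZ⟩ : ∃ Z : ι → L[X], Z a = h * Y' ∧ ∀ j, j ≠ a → Z j = h' * Y j :=
      ⟨fun j => if j = a then h * Y' else h' * Y j, if_pos rfl, fun j hj => if_neg hj⟩
    refine ⟨h * h', Z, PC_mulK hh hh', mul_ne_zero h0 h0', fun j hj => ?_⟩
    by_cases hja : j = a
    · rw [hja, hZa]
      refine ⟨PC_mul hh hY', ?_⟩
      rw [map_mul, map_mul, ← e']
      ring
    · rw [hZ j hja]
      obtain ⟨h1, h2⟩ := hY j (Finset.mem_of_mem_insert_of_ne hj hja)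
      refine ⟨PC_mul hh' h1, ?_⟩
      rw [map_mul, map_mul, ← h2]
      ring

theorem C_mem_ext {W : Submodule K L} {x : L} : RatFunc.C x ∈ ext W ↔ x ∈ W := by
  constructor
  · intro hx
    obtain ⟨Y, h, hY, hh, h0, e⟩ := mem_ext.1 hx
    have h1 : Polynomial.C x * h = Y := by
      apply RatFunc.algebraMap_injective L
      rw [map_mul, am_C, e]
    obtain ⟨n, hn⟩ : ∃ n, h.coeff n ≠ 0 := by
      by_contra hcon
      push Not at hcon
      exact h0 (Polynomial.ext fun n => by rw [hcon n, coeff_zero])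
    have h2 := hY n
    rw [← h1, coeff_C_mul] at h2
    have h3 := W.smul_mem (⟨(h.coeff n)⁻¹, K.inv_mem (hh n)⟩ : K) h2
    rw [Subfield.smul_def, smul_eq_mul] at h3
    have h4 : (h.coeff n)⁻¹ * (x * h.coeff n) = x := by
      field_simp
    change (h.coeff n)⁻¹ * (x * h.coeff n) ∈ W at h3
    rwa [h4] at h3
  · intro hx
    exact Submodule.subset_span ⟨x, hx, rfl⟩

theorem Bc.bK_mem_ext {x : RatFunc L} (hx : x ∈ bK K) : x ∈ ext (1 : Submodule K L) := by
  obtain ⟨Y, h, hY, hh, h0, e⟩ := mem_bK.1 hx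
  exact mem_ext.2 ⟨Y, h, fun n => Submodule.mem_one.2 ⟨⟨_, hY n⟩, rfl⟩, hh, h0, e⟩

/-- independence is preserved -/
theorem Bc.indep {ι : Type*} [Finite ι] {w : ι → L} (hw : LinearIndependent K w) :
    LinearIndependent (bK K) fun k => RatFunc.C (w k) := by
  classical
  have := Fintype.ofFinite ι
  rw [Fintype.linearIndependent_iff]
  intro c hc k
  obtain ⟨h, Y, hh, h0, hY⟩ := ext_common Finset.univ (fun _ => (1 : Submodule K L))
    (fun k => (c k : RatFunc L)) fun k _ => Bc.bK_mem_ext (c k).2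
  have h1 : ∑ k, Y k * Polynomial.C (w k) = 0 := by
    apply RatFunc.algebraMap_injective L
    rw [map_sum, map_zero]
    have h2 : ∀ k, algebraMap L[X] (RatFunc L) (Y k * Polynomial.C (w k)) =
        algebraMap L[X] (RatFunc L) h * (c k • RatFunc.C (w k)) := by
      intro k
      rw [map_mul, ← (hY k (Finset.mem_univ k)).2, am_C, Subfield.smul_def, smul_eq_mul]
      ring
    rw [Finset.sum_congr rfl fun k _ => h2 k, ← Finset.mul_sum, hc, mul_zero]
  have h3 : Y k = 0 := by
    ext n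
    have h4 := congrArg (fun p : L[X] => p.coeff n) h1
    simp only [finsetSum_coeff, coeff_mul_C, coeff_zero] at h4
    have h5 : ∀ k, ∃ d : K, (d : L) = (Y k).coeff n := by
      intro k
      obtain ⟨d, hd⟩ := Submodule.mem_one.1 ((hY k (Finset.mem_univ k)).1 n)
      exact ⟨d, hd⟩
    choose d hd using h5
    have h6 : ∑ k, d k • w k = 0 := by
      rw [← h4]
      refine Finset.sum_congr rfl fun k _ => ?_
      rw [Subfield.smul_def, smul_eq_mul, hd]
    have h7 := Fintype.linearIndependent_iff.1 hw d h6 k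
    rw [← hd k, h7, coeff_zero]
    rfl
  have h8 := (hY k (Finset.mem_univ k)).2
  rw [h3, map_zero] at h8
  have h9 : (c k : RatFunc L) = 0 := (mul_eq_zero.1 h8).resolve_right (am_ne h0)
  exact Subtype.ext h9

theorem finrank_ext {W : Submodule K L} (hW : W.FG) :
    Module.finrank (bK K) (ext W) = Module.finrank K W := by
  have : Module.Finite K W := Module.Finite.iff_fg.2 hW
  let b := Module.finBasis K W
  have hb : LinearIndependent K fun k => ((b k : W) : L) :=
    b.linearIndependent.map' W.subtype (Submodule.ker_subtype W)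
  have h1 : ext W = Submodule.span (bK K) (Set.range fun k => RatFunc.C ((b k : W) : L)) := by
    apply le_antisymm
    · unfold ext
      rw [Submodule.span_le]
      rintro _ ⟨x, hx, rfl⟩
      have h2 : x = ∑ k, b.repr ⟨x, hx⟩ k • ((b k : W) : L) := by
        have h3 := congrArg (fun y : W => (y : L)) (b.sum_repr ⟨x, hx⟩)
        simp only [Submodule.coe_sum, Submodule.coe_smul] at h3
        exact h3.symm
      rw [h2, map_sum]
      refine Submodule.sum_mem _ fun k _ => ?_
      have h4 : RatFunc.C (b.repr ⟨x, hx⟩ k • ((b k : W) : L)) =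
          (⟨RatFunc.C (b.repr ⟨x, hx⟩ k : L), C_mem (b.repr ⟨x, hx⟩ k).2⟩ : bK K) •
            RatFunc.C ((b k : W) : L) := by
        rw [Subfield.smul_def, Subfield.smul_def, smul_eq_mul, smul_eq_mul, map_mul]
      rw [h4]
      exact Submodule.smul_mem _ _ (Submodule.subset_span ⟨k, rfl⟩)
    · rw [Submodule.span_le]
      rintro _ ⟨k, rfl⟩
      exact Submodule.subset_span ⟨_, (b k).2, rfl⟩
  rw [h1, finrank_span_eq_card (Bc.indep hb), Fintype.card_fin]

end KM
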