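import Pool.Agent.Lib.MP_732f67_ag.KM.Rank

/-! KM part A, file 5: the rank function `nu` (matroid `AlgebraicIndependent.matroid K L`).
`nu_union`: closure of `⋃ Rat V {i}` in the matroid contains `Rat V S'` (`alg_union`).
`nu_submod`: `eRk_submod` for `⋃ i ∈ S₁, Rat V {i}` and `⋃ i ∈ S₂, Rat V {i}`.
`LS_eq_of_nu_eq`: equal finite rank, so `Rat V S₂` is in the matroid closure of `Rat V S₁`, i.e.
algebraic over the field generated by `K` and `Rat V S₁`; then `LS_closed`. -/

namespace KM

section aux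

variable {L : Type*} [Field L]

theorem rk2_alg {A B : Type*} [CommRing A] [CommRing B] [Algebra A L] [Algebra B L] (φ : A →+* B)
    (hφ : Function.Injective φ) (hc : (algebraMap B L).comp φ = algebraMap A L) {x : L}
    (hx : IsAlgebraic A x) : IsAlgebraic B x := by
  obtain ⟨p, hp, hpx⟩ := hx
  refine ⟨p.map φ, (Polynomial.map_ne_zero_iff hφ).mpr hp, ?_⟩
  rw [Polynomial.aeval_def, Polynomial.eval₂_map, hc, ← Polynomial.aeval_def]
  exact hpx

theorem rk2_mono {F F' : Subfield L} (h : F ≤ F') {x : L} (hx : IsAlgebraic F x) :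
    IsAlgebraic F' x :=
  rk2_alg (Subfield.inclusion h) (Subfield.inclusion h).injective rfl hx

variable {K : Subfield L}

/-- closure in the matroid -/
theorem rk2_mem {X : Set L} {x : L} : x ∈ (AlgebraicIndependent.matroid K L).closure X ↔
    IsAlgebraic (Algebra.adjoin K X) x := by
  rw [AlgebraicIndependent.matroid_closure_eq]
  exact Iff.rfl

theorem rk2_sub {X : Set L} {F : Subfield L} (hK : K ≤ F) (hX : X ⊆ F) :
    ∀ y ∈ Algebra.adjoin K X, y ∈ F := by
  intro y hy
  induction hy using Algebra.adjoin_induction with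
  | mem x hx => exact hX hx
  | algebraMap r => exact hK r.2
  | add x y _ _ hx hy => exact F.add_mem hx hy
  | mul x y _ _ hx hy => exact F.mul_mem hx hy

theorem rk2_of_closure {X : Set L} {F : Subfield L} (hK : K ≤ F) (hX : X ⊆ F) {x : L}
    (hx : x ∈ (AlgebraicIndependent.matroid K L).closure X) : IsAlgebraic F x := by
  rw [rk2_mem] at hx
  let φ : Algebra.adjoin K X →+* F :=
    { toFun := fun y => ⟨y.1, rk2_sub hK hX y.1 y.2⟩
      map_one' := rfl
      map_mul' := fun _ _ => rfl
      map_zero' := rfl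
      map_add' := fun _ _ => rfl }
  refine rk2_alg φ (fun a b hab => ?_) rfl hx
  exact Subtype.ext (congrArg (fun z : F => (z : L)) hab)

/-- a field which is generated by `K` and `X` is in the closure of `X` -/
theorem rk2_field {X : Set L} :
    ((Subfield.closure ((K : Set L) ∪ X) : Subfield L) : Set L) ⊆
      (AlgebraicIndependent.matroid K L).closure X := by
  intro y hy
  rw [rk2_mem]
  induction hy using Subfield.closure_induction with
  | mem x hx =>
    rcases hx with hx | hx
    · exact isAlgebraic_algebraMap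
        (⟨x, Subalgebra.algebraMap_mem _ (⟨x, hx⟩ : K)⟩ : Algebra.adjoin K X)
    · exact isAlgebraic_algebraMap (⟨x, Algebra.subset_adjoin hx⟩ : Algebra.adjoin K X)
  | one => exact isAlgebraic_one
  | add x y _ _ hx hy => exact hx.add hy
  | neg x _ hx => exact hx.neg
  | inv x _ hx => exact hx.inv
  | mul x y _ _ hx hy => exact hx.mul hy

theorem rk2_closure {X : Set L} {x : L}
    (hx : IsAlgebraic (Subfield.closure ((K : Set L) ∪ X) : Subfield L) x) :
    x ∈ (AlgebraicIndependent.matroid K L).closure X := by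
  have h1 : (AlgebraicIndependent.matroid K L).closure
      ((Subfield.closure ((K : Set L) ∪ X) : Subfield L) : Set L) ⊆
      (AlgebraicIndependent.matroid K L).closure X :=
    Matroid.closure_subset_closure_of_subset_closure rk2_field
  refine h1 ?_
  rw [rk2_mem]
  let φ : (Subfield.closure ((K : Set L) ∪ X) : Subfield L) →+*
      Algebra.adjoin K ((Subfield.closure ((K : Set L) ∪ X) : Subfield L) : Set L) :=
    { toFun := fun y => ⟨y.1, Algebra.subset_adjoin y.2⟩
      map_one' := rfl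
      map_mul' := fun _ _ => rfl
      map_zero' := rfl
      map_add' := fun _ _ => rfl }
  refine rk2_alg φ (fun a b hab => ?_) rfl hx
  have h2 := congrArg (fun z : Algebra.adjoin K
    ((Subfield.closure ((K : Set L) ∪ X) : Subfield L) : Set L) => (z : L)) hab
  exact Subtype.ext h2

theorem rk2_alg_of_empty {x : L}
    (hx : x ∈ (AlgebraicIndependent.matroid K L).closure ∅) : IsAlgebraic K x :=
  rk2_of_closure le_rfl (Set.empty_subset _) hx

end aux

variable {L I : Type*} [Field L] [DecidableEq I] {K : Subfield L}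
  {V : (I → ℤ) → Submodule K L} {S : Finset I} {m₀ : ℕ}

theorem Sys.rk_LS (h : Sys K V S m₀) {S' : Finset I} (hS : S' ⊆ S) :
    rk K (LS V S' : Set L) = nu V S' := by
  have h1 : (LS V S' : Set L) = Rat V S' := Set.ext fun x => h.mem_LS hS
  rw [h1, nu]

theorem rk2_union_sub (S' : Finset I) : (⋃ i ∈ S', Rat V {i}) ⊆ Rat V S' := by
  refine Set.iUnion₂_subset fun i hi => Rat_mono ?_
  exact Finset.singleton_subset_iff.mpr hi

theorem Sys.nu_union (h : Sys K V S m₀) {S' : Finset I} (hS : S' ⊆ S) :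
    nu V S' = rk K (⋃ i ∈ S', Rat V {i}) := by
  refine le_antisymm ?_ ((AlgebraicIndependent.matroid K L).eRk_mono (rk2_union_sub S'))
  rw [nu, rk, rk, ← Matroid.eRk_closure_eq _ (⋃ i ∈ S', Rat V {i})]
  refine (AlgebraicIndependent.matroid K L).eRk_mono fun x hx => ?_
  exact rk2_closure (h.alg_union hS hx)

theorem nu_mono {S₁ S₂ : Finset I} (hS : S₁ ⊆ S₂) : nu V S₁ ≤ nu V S₂ :=
  (AlgebraicIndependent.matroid K L).eRk_mono (Rat_mono hS)

theorem Sys.nu_empty (h : Sys K V S m₀) : nu V ∅ = 0 := by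
  rw [nu, rk, ← le_zero_iff]
  have h1 : Rat V ∅ ⊆ (AlgebraicIndependent.matroid K L).closure ∅ := by
    rintro x ⟨u, hu, g, hg, k, hk, hk0, rfl⟩
    have hu0 : u = 0 := funext fun i => hu.2 i (Finset.notMem_empty i)
    rw [hu0] at hg hk
    have h2 : g / k ∈ K := K.div_mem ((h.zero g).mp hg) ((h.zero k).mp hk)
    rw [rk2_mem]
    exact isAlgebraic_algebraMap
      (⟨g / k, Subalgebra.algebraMap_mem _ (⟨g / k, h2⟩ : K)⟩ : Algebra.adjoin K (∅ : Set L))
  calc (AlgebraicIndependent.matroid K L).eRk (Rat V ∅)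
      ≤ (AlgebraicIndependent.matroid K L).eRk ((AlgebraicIndependent.matroid K L).closure ∅) :=
        (AlgebraicIndependent.matroid K L).eRk_mono h1
    _ = 0 := by rw [Matroid.eRk_closure_eq, Matroid.eRk_empty]

theorem Sys.one_le_nu (h : Sys K V S m₀) {i : I} (hi : i ∈ S) : 1 ≤ nu V {i} := by
  obtain ⟨m, x, hx, y, hy, hy0, hxy⟩ := h.two i hi
  have h1 : x / y ∈ Rat V {i} := by
    refine ⟨e i m, ⟨fun j => ?_, fun j hj => ?_⟩, x, hx, y, hy, hy0, rfl⟩
    · by_cases hj : j = i
      · subst hj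
        simp [e]
      · simp [e, Pi.single_eq_of_ne hj]
    · exact Pi.single_eq_of_ne (fun h2 => hj (Finset.mem_singleton.mpr h2)) _
  have h2 : x / y ∉ (AlgebraicIndependent.matroid K L).closure ∅ := fun h3 =>
    hxy (h.alg (rk2_alg_of_empty h3))
  rw [nu, rk]
  calc (1 : ℕ∞) ≤ (AlgebraicIndependent.matroid K L).eRk (insert (x / y) ∅) := by
        rw [Matroid.eRk_insert_eq_add_one ⟨Set.mem_univ _, h2⟩]
        exact le_add_self
    _ ≤ _ := (AlgebraicIndependent.matroid K L).eRk_mono (by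
        intro z hz
        rcases hz with rfl | hz
        · exact h1
        · exact absurd hz (Set.notMem_empty z))

theorem Sys.nu_submod (h : Sys K V S m₀) {S₁ S₂ : Finset I} (h₁ : S₁ ⊆ S) (h₂ : S₂ ⊆ S) :
    nu V (S₁ ∩ S₂) + nu V (S₁ ∪ S₂) ≤ nu V S₁ + nu V S₂ := by
  rw [h.nu_union h₁, h.nu_union h₂, h.nu_union (Finset.union_subset h₁ h₂),
    h.nu_union (Finset.inter_subset_left.trans h₁)]
  have h3 : (⋃ i ∈ S₁ ∪ S₂, Rat V {i}) = (⋃ i ∈ S₁, Rat V {i}) ∪ ⋃ i ∈ S₂, Rat V {i} :=
    Finset.set_biUnion_union S₁ S₂ _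
  have h4 : (⋃ i ∈ S₁ ∩ S₂, Rat V {i}) ⊆ (⋃ i ∈ S₁, Rat V {i}) ∩ ⋃ i ∈ S₂, Rat V {i} := by
    refine Set.iUnion₂_subset fun i hi => Set.subset_inter ?_ ?_
    · exact Set.subset_biUnion_of_mem (u := fun i => Rat V {i}) (Finset.mem_inter.mp hi).1
    · exact Set.subset_biUnion_of_mem (u := fun i => Rat V {i}) (Finset.mem_inter.mp hi).2
  rw [h3]
  exact (add_le_add_left ((AlgebraicIndependent.matroid K L).eRk_mono h4) _).trans
    ((AlgebraicIndependent.matroid K L).eRk_inter_add_eRk_union_le _ _)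

theorem nu_lt_top (hFG : FG K) (S' : Finset I) : nu V S' < ⊤ := by
  obtain ⟨s, hs⟩ := hFG
  have h1 : Rat V S' ⊆ (AlgebraicIndependent.matroid K L).closure (s : Set L) := by
    intro x _
    refine rk2_field ?_
    rw [hs]
    exact Subfield.mem_top x
  calc nu V S' ≤ (AlgebraicIndependent.matroid K L).eRk
        ((AlgebraicIndependent.matroid K L).closure (s : Set L)) :=
        (AlgebraicIndependent.matroid K L).eRk_mono h1
    _ = (AlgebraicIndependent.matroid K L).eRk (s : Set L) := Matroid.eRk_closure_eq _ _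
    _ ≤ (s : Set L).encard := Matroid.eRk_le_encard _ _
    _ < ⊤ := s.finite_toSet.encard_lt_top

theorem Sys.LS_eq_of_nu_eq (h : Sys K V S m₀) {S₁ S₂ : Finset I} (h₁ : S₁ ⊆ S₂) (h₂ : S₂ ⊆ S)
    (hfin : nu V S₂ < ⊤) (hnu : nu V S₁ = nu V S₂) : LS V S₁ = LS V S₂ := by
  refine le_antisymm (LS_mono h₁) ?_
  rw [LS, Subfield.closure_le]
  intro x hx
  have h3 : (AlgebraicIndependent.matroid K L).closure (Rat V S₁) =
      (AlgebraicIndependent.matroid K L).closure (Rat V S₂) := by
    have h4 : (AlgebraicIndependent.matroid K L).IsRkFinite (Rat V S₁) :=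
      Matroid.eRk_lt_top_iff.mp (by
        have h5 := hfin
        rw [← hnu] at h5
        exact h5)
    exact h4.closure_eq_closure_of_subset_of_eRk_ge_eRk (Rat_mono h₁) (le_of_eq hnu.symm)
  have h4 : x ∈ (AlgebraicIndependent.matroid K L).closure (Rat V S₁) := by
    rw [h3]
    exact Matroid.subset_closure _ _ (Set.subset_univ _) hx
  exact h.LS_closed (h₁.trans h₂) (rk2_of_closure (h.le_LS (h₁.trans h₂))
    Subfield.subset_closure h4)

/-- if `Rat V {i} ⊆ LS V B` for all `i ∈ S'` then `LS V (B ∪ S') = LS V B` -/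
theorem Sys.LS_union_eq (h : Sys K V S m₀) {B S' : Finset I} (hB : B ⊆ S) (hS : S' ⊆ S)
    (hr : ∀ i ∈ S', Rat V {i} ⊆ (LS V B : Set L)) : LS V (B ∪ S') = LS V B := by
  refine le_antisymm ?_ (LS_mono Finset.subset_union_left)
  rw [LS, Subfield.closure_le]
  intro x hx
  refine h.LS_closed hB (rk2_mono ?_ (h.alg_union (Finset.union_subset hB hS) hx))
  rw [Subfield.closure_le]
  refine Set.union_subset (h.le_LS hB) (Set.iUnion₂_subset fun i hi => ?_)
  rcases Finset.mem_union.mp hi with h1 | h1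
  · exact (Rat_mono (Finset.singleton_subset_iff.mpr h1)).trans Subfield.subset_closure
  · exact hr i h1

end KM
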