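import Pool.Agent.Lib.MP_732f67_ag.KM.BcDefs
import Pool.Agent.Lib.MP_732f67_ag.KM.Rank2

/-! KM part A, base change to `K(u)`, file 4: the fields.

`FF`: `a / b = a * b ^ (p - 1) / b ^ p`, and polynomials over `K` are combinations of the
`C y * X ^ j`, `y ∈ s`, `j < p`, over the `p`-th powers of polynomials over `K`.
`FG`: the same generators.  `nu_le`: elements of `Rat (bV V) S'` are quotients of
`∑ C (Y_n / w) X ^ n` by `∑ C (Z_n / w) X ^ n`, where `w ≠ 0` is a coefficient of `Z`, so they are in the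
field generated by `bK K` and `C '' Rat V S'`; and the rank of `C '' Y` over `bK K` is at most the
rank of `Y` over `K`.  `alg_indep`: algebraic independence over `bK K` of the `C (x i)` implies
algebraic independence over `K` of the `x i`. -/

namespace KM

open Polynomial

variable {L I : Type*} [Field L] [DecidableEq I] {K : Subfield L}
  {V : (I → ℤ) → Submodule K L} {S : Finset I} {m₀ : ℕ} {p : ℕ}

theorem C_mem_bK {x : L} (hx : x ∈ K) : RatFunc.C x ∈ bK K :=
  Subfield.subset_closure (Set.mem_insert_of_mem _ ⟨x, hx, rfl⟩)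

theorem X_mem_bK : (RatFunc.X : RatFunc L) ∈ bK K :=
  Subfield.subset_closure (Set.mem_insert _ _)

/-- constants -/
noncomputable def kap (K : Subfield L) : K →+* bK K where
  toFun x := ⟨RatFunc.C (x : L), C_mem_bK x.2⟩
  map_one' := Subtype.ext (by simp)
  map_mul' x y := Subtype.ext (by simp)
  map_zero' := Subtype.ext (by simp)
  map_add' x y := Subtype.ext (by simp)

theorem poly_eq_sum (P : L[X]) : algebraMap L[X] (RatFunc L) P =
    ∑ n ∈ Finset.range (P.natDegree + 1), RatFunc.C (P.coeff n) * RatFunc.X ^ n := by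
  conv_lhs => rw [P.as_sum_range_C_mul_X_pow]
  rw [map_sum]
  refine Finset.sum_congr rfl fun n _ => ?_
  rw [map_mul, map_pow, RatFunc.algebraMap_C, RatFunc.algebraMap_X]

theorem poly_mem {F : Subfield (RatFunc L)} (hX : (RatFunc.X : RatFunc L) ∈ F) {P : L[X]}
    (hP : ∀ n, RatFunc.C (P.coeff n) ∈ F) : algebraMap L[X] (RatFunc L) P ∈ F := by
  rw [poly_eq_sum]
  exact F.sum_mem fun n _ => F.mul_mem (hP n) (F.pow_mem hX n)

theorem poly_mem_bK {P : L[X]} (hP : ∀ n, P.coeff n ∈ K) :
    algebraMap L[X] (RatFunc L) P ∈ bK K := poly_mem X_mem_bK fun n => C_mem_bK (hP n)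

theorem coeff_mul_mem {P Q : L[X]} (hP : ∀ n, P.coeff n ∈ K) (hQ : ∀ n, Q.coeff n ∈ K) :
    ∀ n, (P * Q).coeff n ∈ K := fun n => by
  rw [coeff_mul]
  exact K.sum_mem fun ij _ => K.mul_mem (hP _) (hQ _)

theorem coeff_pow_mem {P : L[X]} (hP : ∀ n, P.coeff n ∈ K) (q : ℕ) :
    ∀ n, (P ^ q).coeff n ∈ K := by
  induction q with
  | zero =>
    intro n
    rw [pow_zero, coeff_one]
    split_ifs
    · exact K.one_mem
    · exact K.zero_mem
  | succ q ih => rw [pow_succ]; exact coeff_mul_mem ih hP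

theorem FF.bc [Fact p.Prime] [CharP L p] [CharP (RatFunc L) p] (hF : FF p K) : FF p (bK K) := by
  classical
  obtain ⟨s, hs⟩ := hF
  have hp : 0 < p := (Fact.out : p.Prime).pos
  set s' : Finset (RatFunc L) := (s ×ˢ Finset.range p).image fun yj =>
    RatFunc.C yj.1 * RatFunc.X ^ yj.2 with hs'
  refine ⟨s', fun z hz => ?_⟩
  set F := (bK K).map (frobenius (RatFunc L) p) with hFdef
  have hpow : ∀ w ∈ bK K, w ^ p ∈ F := fun w hw => ⟨w, hw, rfl⟩
  have h1 : ∀ (j : ℕ), j < p → ∀ x ∈ Submodule.span (K.map (frobenius L p)) (s : Set L),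
      RatFunc.C x * RatFunc.X ^ j ∈ Submodule.span F (s' : Set (RatFunc L)) := by
    intro j hj x hx
    induction hx using Submodule.span_induction with
    | mem x hx =>
      refine Submodule.subset_span ?_
      rw [Finset.mem_coe, hs', Finset.mem_image]
      exact ⟨(x, j), Finset.mem_product.2 ⟨hx, Finset.mem_range.2 hj⟩, rfl⟩
    | zero => simp
    | add x y _ _ hx hy => rw [map_add, add_mul]; exact Submodule.add_mem _ hx hy
    | smul c x _ hx =>
      obtain ⟨k, hk, hkc⟩ := c.2
      have e1 : RatFunc.C (c • x) * RatFunc.X ^ j =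
          (⟨_, hpow _ (C_mem_bK hk)⟩ : F) • (RatFunc.C x * RatFunc.X ^ j) := by
        rw [Subfield.smul_def, Subfield.smul_def, smul_eq_mul, smul_eq_mul]
        simp only
        rw [← hkc, map_mul, frobenius_def, map_pow]
        ring
      rw [e1]
      exact Submodule.smul_mem _ _ hx
  have h2 : ∀ P : L[X], (∀ n, P.coeff n ∈ K) →
      algebraMap L[X] (RatFunc L) P ∈ Submodule.span F (s' : Set (RatFunc L)) := by
    intro P hP
    rw [poly_eq_sum]
    refine Submodule.sum_mem _ fun n _ => ?_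
    have e1 : RatFunc.C (P.coeff n) * RatFunc.X ^ n =
        (⟨_, hpow _ (Subfield.pow_mem _ X_mem_bK (n / p))⟩ : F) •
          (RatFunc.C (P.coeff n) * (RatFunc.X : RatFunc L) ^ (n % p)) := by
      rw [Subfield.smul_def, smul_eq_mul]
      simp only
      have e0 : (RatFunc.X : RatFunc L) ^ n = (RatFunc.X ^ (n / p)) ^ p * RatFunc.X ^ (n % p) := by
        rw [← pow_mul, ← pow_add, mul_comm _ p, Nat.div_add_mod]
      rw [e0]
      ring
    rw [e1]
    exact Submodule.smul_mem _ _ (h1 _ (Nat.mod_lt _ hp) _ (hs _ (hP n)))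
  obtain ⟨Y, h, hY, hh, hh0, hzh⟩ := mem_bK.1 hz
  have hne : algebraMap L[X] (RatFunc L) h ≠ 0 := by
    intro h0; exact hh0 (RatFunc.algebraMap_injective L (by rw [h0, map_zero]))
  obtain ⟨q, hq⟩ : ∃ q, p = q + 1 := ⟨p - 1, by omega⟩
  have e2 : z = (⟨_, hpow _ (Subfield.inv_mem _ (poly_mem_bK hh))⟩ : F) •
      algebraMap L[X] (RatFunc L) (Y * h ^ q) := by
    rw [Subfield.smul_def, smul_eq_mul]
    simp only
    have e3 : z = algebraMap L[X] (RatFunc L) Y / algebraMap L[X] (RatFunc L) h := by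
      rw [eq_div_iff hne, hzh]
    rw [e3, map_mul, map_pow, inv_pow, hq]
    field_simp
    ring
  rw [e2]
  exact Submodule.smul_mem _ _ (h2 _ (coeff_mul_mem hY (coeff_pow_mem hh q)))

theorem FG.bc (hFG : FG K) : FG (bK K) := by
  classical
  obtain ⟨s, hs⟩ := hFG
  refine ⟨s.image RatFunc.C, ?_⟩
  rw [eq_top_iff]
  set F := Subfield.closure ((bK K : Set (RatFunc L)) ∪ (s.image RatFunc.C : Finset (RatFunc L)))
    with hF
  have hX : (RatFunc.X : RatFunc L) ∈ F := Subfield.subset_closure (Or.inl X_mem_bK)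
  have hC : ∀ x : L, RatFunc.C x ∈ F := by
    have h1 : Subfield.closure ((K : Set L) ∪ s) ≤ F.comap RatFunc.C := by
      rw [Subfield.closure_le]
      rintro x (hx | hx)
      · exact Subfield.subset_closure (Or.inl (C_mem_bK hx))
      · refine Subfield.subset_closure (Or.inr ?_)
        rw [Finset.mem_coe, Finset.mem_image]
        exact ⟨x, hx, rfl⟩
    rw [hs] at h1
    intro x
    exact h1 (Subfield.mem_top x)
  intro z _
  rw [← RatFunc.num_div_denom z]
  exact F.div_mem (poly_mem hX fun n => hC _) (poly_mem hX fun n => hC _)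

theorem infinite_bK : Infinite (bK K) := by
  refine Infinite.of_injective (fun n : ℕ => (⟨RatFunc.X ^ n, Subfield.pow_mem _ X_mem_bK n⟩ : bK K))
    fun a b hab => ?_
  have h1 : (RatFunc.X : RatFunc L) ^ a = RatFunc.X ^ b := congrArg Subtype.val hab
  rw [← RatFunc.algebraMap_X, ← map_pow, ← map_pow] at h1
  have h2 := RatFunc.algebraMap_injective L h1
  have h3 := congrArg natDegree h2
  rwa [natDegree_X_pow, natDegree_X_pow] at h3

theorem alg_bc {B : Set L} {y : L} (hy : IsAlgebraic (Algebra.adjoin K B) y) :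
    IsAlgebraic (Algebra.adjoin (bK K) (RatFunc.C '' B)) (RatFunc.C y) := by
  have hmem : ∀ w ∈ Algebra.adjoin K B, RatFunc.C w ∈ Algebra.adjoin (bK K) (RatFunc.C '' B) := by
    intro w hw
    induction hw using Algebra.adjoin_induction with
    | mem x hx => exact Algebra.subset_adjoin ⟨x, hx, rfl⟩
    | algebraMap r =>
      exact Subalgebra.algebraMap_mem (Algebra.adjoin (bK K) (RatFunc.C '' B)) (kap K r)
    | add x y _ _ hx hy => rw [map_add]; exact add_mem hx hy
    | mul x y _ _ hx hy => rw [map_mul]; exact mul_mem hx hy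
  let φ : Algebra.adjoin K B →+* Algebra.adjoin (bK K) (RatFunc.C '' B) :=
    { toFun := fun w => ⟨RatFunc.C w.1, hmem w.1 w.2⟩
      map_one' := Subtype.ext (map_one _)
      map_mul' := fun x y => Subtype.ext (map_mul _ _ _)
      map_zero' := Subtype.ext (map_zero _)
      map_add' := fun x y => Subtype.ext (map_add _ _ _) }
  have hφ : Function.Injective φ := by
    intro a b hab
    have h1 : RatFunc.C (a : L) = RatFunc.C (b : L) :=
      congrArg (fun w : Algebra.adjoin (bK K) (RatFunc.C '' B) => (w : RatFunc L)) hab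
    exact Subtype.ext (RatFunc.C.injective h1)
  obtain ⟨P, hP, hPy⟩ := hy
  refine ⟨P.map φ, (Polynomial.map_ne_zero_iff hφ).mpr hP, ?_⟩
  have hc : (algebraMap (Algebra.adjoin (bK K) (RatFunc.C '' B)) (RatFunc L)).comp φ =
      (RatFunc.C : L →+* RatFunc L).comp (algebraMap (Algebra.adjoin K B) L) := rfl
  rw [Polynomial.aeval_def, Polynomial.eval₂_map, hc, ← Polynomial.hom_eval₂,
    ← Polynomial.aeval_def, hPy, map_zero]

theorem rk_bc (Y : Set L) : rk (bK K) (RatFunc.C '' Y) ≤ rk K Y := by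
  obtain ⟨B, hB⟩ := (AlgebraicIndependent.matroid K L).exists_isBasis Y (by
    rw [AlgebraicIndependent.matroid_e]; exact Set.subset_univ _)
  unfold rk
  have h1 : RatFunc.C '' Y ⊆ (AlgebraicIndependent.matroid (bK K) (RatFunc L)).closure
      (RatFunc.C '' B) := by
    rintro _ ⟨y, hy, rfl⟩
    rw [rk2_mem]
    exact alg_bc (rk2_mem.1 (hB.subset_closure hy))
  calc (AlgebraicIndependent.matroid (bK K) (RatFunc L)).eRk (RatFunc.C '' Y)
      ≤ (AlgebraicIndependent.matroid (bK K) (RatFunc L)).eRk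
        ((AlgebraicIndependent.matroid (bK K) (RatFunc L)).closure (RatFunc.C '' B)) :=
        Matroid.eRk_mono _ h1
    _ = (AlgebraicIndependent.matroid (bK K) (RatFunc L)).eRk (RatFunc.C '' B) :=
        Matroid.eRk_closure_eq _ _
    _ ≤ (RatFunc.C '' B).encard := Matroid.eRk_le_encard _ _
    _ ≤ B.encard := Set.encard_image_le _ _
    _ = (AlgebraicIndependent.matroid K L).eRk Y := hB.eRk_eq_encard.symm

theorem Sys.nu_bV_le (h : Sys K V S m₀) {S' : Finset I} (hS : S' ⊆ S) :
    nu (bV V) S' ≤ nu V S' := by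
  refine le_trans ?_ (rk_bc (Rat V S'))
  unfold nu rk
  rw [← Matroid.eRk_closure_eq _ (RatFunc.C '' Rat V S')]
  refine Matroid.eRk_mono _ ?_
  refine subset_trans ?_ rk2_field
  rintro x ⟨u, hu, g, hg, h', hh', hh0, rfl⟩
  obtain ⟨w, Y, hw, hw0, hY⟩ := ext_common (K := K) Finset.univ (fun _ : Bool => V u)
    (fun b => if b then g else h') (by
      intro b _
      cases b
      · exact hh'
      · exact hg)
  have h1 := (hY true (Finset.mem_univ _))
  have h2 := (hY false (Finset.mem_univ _))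
  simp only [if_true, Bool.false_eq_true, if_false] at h1 h2
  have hwne : algebraMap L[X] (RatFunc L) w ≠ 0 := by
    intro h0; exact hw0 (RatFunc.algebraMap_injective L (by rw [h0, map_zero]))
  have hZ0 : Y false ≠ 0 := by
    intro h0
    rw [h0, map_zero, mul_eq_zero] at h2
    rcases h2.2 with h3 | h3
    · exact hh0 h3
    · exact hwne h3
  set z₀ := (Y false).leadingCoeff with hz₀
  have hz₀0 : z₀ ≠ 0 := leadingCoeff_ne_zero.2 hZ0
  have hz₀V : z₀ ∈ V u := h2.1 _
  set F := Subfield.closure ((bK K : Set (RatFunc L)) ∪ RatFunc.C '' Rat V S') with hF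
  have hX : (RatFunc.X : RatFunc L) ∈ F := Subfield.subset_closure (Or.inl X_mem_bK)
  have hP : ∀ P : L[X], (∀ n, P.coeff n ∈ V u) →
      algebraMap L[X] (RatFunc L) (C z₀⁻¹ * P) ∈ F := by
    intro P hPV
    refine poly_mem hX fun n => ?_
    refine Subfield.subset_closure (Or.inr ⟨_, ⟨u, hu, P.coeff n, hPV n, z₀, hz₀V, hz₀0, rfl⟩, ?_⟩)
    rw [coeff_C_mul]; congr 1
    field_simp
  have hfin : g / h' = algebraMap L[X] (RatFunc L) (C z₀⁻¹ * Y true) /
      algebraMap L[X] (RatFunc L) (C z₀⁻¹ * Y false) := by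
    have hzC : algebraMap L[X] (RatFunc L) (C z₀⁻¹) ≠ 0 := by
      rw [RatFunc.algebraMap_C]
      intro h0
      exact inv_ne_zero hz₀0 (RatFunc.C.injective (by rw [h0, map_zero]))
    rw [map_mul, map_mul, ← h1.2, ← h2.2, mul_div_mul_left _ _ hzC, mul_div_mul_right _ _ hwne]
  rw [hfin]
  exact F.div_mem (hP _ h1.1) (hP _ h2.1)

theorem alg_indep_bc {ι : Type*} {x : ι → L}
    (hx : AlgebraicIndependent (bK K) (fun i => RatFunc.C (x i))) : AlgebraicIndependent K x := by
  rw [algebraicIndependent_iff] at hx ⊢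
  intro P hP
  have h1 : MvPolynomial.aeval (fun i => (RatFunc.C (x i) : RatFunc L)) (P.map (kap K)) = 0 := by
    rw [MvPolynomial.aeval_def, MvPolynomial.eval₂_map]
    have hc : (algebraMap (bK K) (RatFunc L)).comp (kap K) =
        (RatFunc.C : L →+* RatFunc L).comp (algebraMap K L) := rfl
    rw [hc]
    have := MvPolynomial.eval₂_comp_left (RatFunc.C : L →+* RatFunc L) (algebraMap K L) x P
    rw [MvPolynomial.aeval_def] at hP
    rw [hP, map_zero] at this
    exact this.symm
  have h2 := hx _ h1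
  exact MvPolynomial.map_injective (kap K) (kap K).injective (by rw [h2, map_zero])

end KM
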