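import Pool.Agent.Lib.MP_732f67_ag.KM.BcDefs

/-! KM part A, base change to `K(u)`, file 3: (A5).

`ext_inv`: `Ψ (Z / g) = Ψ₀ (Z * g ^ (Q - 1)) / g` is well defined (`Ψ₀ (A ^ Q * Z) = A * Ψ₀ Z`).
`SplitX.bc`: `c = Y / h`, `Y ≠ 0` with coefficients in `V u`, `Y_k ≠ 0`.  Take `N` with
`Q = p ^ N > natDegree Y` and `T`, `ψ`, `x` from `SplitX` for `Y_k`, `ψ (Y_k * x) = 1`.
`Ψ₀ Z = ∑ j, ψ (Z_(Q j + k)) X ^ j` is additive and `Ψ₀ (A ^ Q * Z) = A * Ψ₀ Z` (characteristic `p`: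
`A ^ Q = ∑ A_i ^ Q X ^ (Q i)`).  New `ψ' z = Ψ (h * z)`, `x' = C x`:
`ψ' (c * x') = Ψ₀ (Y * C x) = ψ (Y_k * x) = 1` because `natDegree Y < Q`.  `ψ'` maps
`bV V (Q t + T)` to `bV V t` (`mem_ext`). -/

namespace KM

open Polynomial

variable {L I : Type*} [Field L] [DecidableEq I] {K : Subfield L}
  {V : (I → ℤ) → Submodule K L} {S : Finset I} {m₀ : ℕ} {p : ℕ} {a : I → ℝ}

/-- the value of the extension on a fraction does not depend on the fraction -/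
theorem ext_inv_aux {Q : ℕ} (hQ : 0 < Q) (Ψ₀ : L[X] → L[X])
    (hlin : ∀ x y, Ψ₀ (x ^ Q * y) = x * Ψ₀ y) {Z g Z' g' : L[X]} (h : Z * g' = Z' * g) :
    Ψ₀ (Z * g ^ (Q - 1)) * g' = Ψ₀ (Z' * g' ^ (Q - 1)) * g := by
  obtain ⟨q, rfl⟩ : ∃ q, Q = q + 1 := ⟨Q - 1, by omega⟩
  rw [Nat.add_sub_cancel]
  have h1 : g' * Ψ₀ (Z * g ^ q) = Ψ₀ (g' ^ q * g ^ q * (Z * g')) := by
    rw [← hlin]; congr 1; ring
  have h2 : g * Ψ₀ (Z' * g' ^ q) = Ψ₀ (g' ^ q * g ^ q * (Z' * g)) := by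
    rw [← hlin]; congr 1; ring
  rw [mul_comm _ g', mul_comm _ g, h1, h2, h]

theorem ext_inv {Q : ℕ} (hQ : 0 < Q) (Ψ₀ : L[X] → L[X]) (hadd : ∀ x y, Ψ₀ (x + y) = Ψ₀ x + Ψ₀ y)
    (hlin : ∀ x y, Ψ₀ (x ^ Q * y) = x * Ψ₀ y) : ∃ Ψ : RatFunc L → RatFunc L, IsInv Q Ψ ∧
      ∀ x, Ψ (algebraMap L[X] (RatFunc L) x) = algebraMap L[X] (RatFunc L) (Ψ₀ x) := by
  set A := algebraMap L[X] (RatFunc L) with hA
  have hinj : Function.Injective A := RatFunc.algebraMap_injective L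
  have hne : ∀ {g : L[X]}, g ≠ 0 → A g ≠ 0 := fun {g} hg => by
    intro h; exact hg (hinj (by rw [h, map_zero]))
  set Ψ : RatFunc L → RatFunc L := fun z => A (Ψ₀ (z.num * z.denom ^ (Q - 1))) / A z.denom with hΨ
  have key : ∀ (z : RatFunc L) (Z g : L[X]), g ≠ 0 → z * A g = A Z →
      Ψ z = A (Ψ₀ (Z * g ^ (Q - 1))) / A g := by
    intro z Z g hg hz
    have hd : z.denom ≠ 0 := RatFunc.denom_ne_zero z
    have hnd : A z.num = z * A z.denom := by
      have := RatFunc.num_div_denom z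
      rw [div_eq_iff (hne hd)] at this
      exact this
    have h1 : z.num * g = Z * z.denom := by
      apply hinj
      rw [map_mul, map_mul, ← hz, hnd]
      ring
    have h2 := ext_inv_aux hQ Ψ₀ hlin h1
    rw [hΨ]
    simp only
    rw [div_eq_div_iff (hne hd) (hne hg), ← map_mul, ← map_mul, h2]
  obtain ⟨q, hq⟩ : ∃ q, Q = q + 1 := ⟨Q - 1, by omega⟩
  have hex : ∀ z : RatFunc L, ∃ Z g : L[X], g ≠ 0 ∧ z * A g = A Z := fun z =>
    ⟨z.num, z.denom, RatFunc.denom_ne_zero z, by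
      have hd : z.denom ≠ 0 := RatFunc.denom_ne_zero z
      have := RatFunc.num_div_denom z
      rw [div_eq_iff (hne hd)] at this
      exact this.symm⟩
  refine ⟨Ψ, ⟨?_, ?_⟩, ?_⟩
  · intro x y
    obtain ⟨Z, g, hg, hZ⟩ := hex x
    obtain ⟨Z', g', hg', hZ'⟩ := hex y
    rw [key x Z g hg hZ, key y Z' g' hg' hZ', key (x + y) (Z * g' + Z' * g) (g * g') (mul_ne_zero hg hg')
      (by rw [map_add, map_mul, map_mul, map_mul, ← hZ, ← hZ']; ring)]
    have h1 : Ψ₀ ((Z * g' + Z' * g) * (g * g') ^ (Q - 1)) =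
        g' * Ψ₀ (Z * g ^ (Q - 1)) + g * Ψ₀ (Z' * g' ^ (Q - 1)) := by
      rw [← hlin, ← hlin, ← hadd]
      congr 1
      rw [hq, Nat.add_sub_cancel]; ring
    rw [h1, map_add, map_mul, map_mul, map_mul]
    have := hne hg
    have := hne hg'
    field_simp
  · intro x y
    obtain ⟨Z, g, hg, hZ⟩ := hex x
    obtain ⟨Z', g', hg', hZ'⟩ := hex y
    have hgn := hne hg
    have hgn' := hne hg'
    rw [key y Z' g' hg' hZ', key (x ^ Q * y) (Z ^ Q * Z') (g ^ Q * g')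
      (mul_ne_zero (pow_ne_zero _ hg) hg')
      (by rw [map_mul, map_mul, map_pow, map_pow, ← hZ, ← hZ']; ring)]
    have h1 : Ψ₀ (Z ^ Q * Z' * (g ^ Q * g') ^ (Q - 1)) =
        Z * g ^ (Q - 1) * Ψ₀ (Z' * g' ^ (Q - 1)) := by
      rw [mul_assoc Z, ← hlin, ← hlin]
      congr 1
      rw [mul_pow, ← pow_mul]; ring
    have hx : x = A Z / A g := by rw [eq_div_iff hgn, hZ]
    rw [h1, hx, map_mul, map_mul, map_mul, map_pow, map_pow, hq, Nat.add_sub_cancel]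
    field_simp
    ring
  · intro x
    rw [key (A x) x 1 one_ne_zero (by rw [map_one, mul_one]), one_pow, mul_one, map_one, div_one]

/-- the polynomial version of `ψ` -/
noncomputable def psi0 (ψ : L → L) (Q k : ℕ) (Z : L[X]) : L[X] :=
  ∑ j ∈ Finset.range (Z.natDegree + 1), monomial j (ψ (Z.coeff (Q * j + k)))

theorem IsInv.zero {Q : ℕ} {ψ : L → L} (h : IsInv Q ψ) : ψ 0 = 0 := by
  have := h.add 0 0
  rw [add_zero] at this
  exact left_eq_add.1 this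

theorem psi0_coeff {Q : ℕ} (hQ : 0 < Q) {ψ : L → L} (h : IsInv Q ψ) (k : ℕ) (Z : L[X]) (j : ℕ) :
    (psi0 ψ Q k Z).coeff j = ψ (Z.coeff (Q * j + k)) := by
  unfold psi0
  rw [finset_sum_coeff]
  simp only [coeff_monomial]
  rw [Finset.sum_ite_eq']
  split_ifs with hj
  · rfl
  · rw [coeff_eq_zero_of_natDegree_lt, h.zero]
    rw [Finset.mem_range, not_lt] at hj
    have : j ≤ Q * j := Nat.le_mul_of_pos_left j hQ
    omega

theorem psi0_add {Q : ℕ} (hQ : 0 < Q) {ψ : L → L} (h : IsInv Q ψ) (k : ℕ) (Z Z' : L[X]) :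
    psi0 ψ Q k (Z + Z') = psi0 ψ Q k Z + psi0 ψ Q k Z' := by
  ext j
  rw [coeff_add, psi0_coeff hQ h, psi0_coeff hQ h, psi0_coeff hQ h, coeff_add, h.add]

theorem psi0_lin [Fact p.Prime] [CharP L p] {N : ℕ} {ψ : L → L} (h : IsInv (p ^ N) ψ) {k : ℕ}
    (hk : k < p ^ N) (A Z : L[X]) :
    psi0 ψ (p ^ N) k (A ^ (p ^ N) * Z) = A * psi0 ψ (p ^ N) k Z := by
  have hQ : 0 < p ^ N := pow_pos (Fact.out : p.Prime).pos _
  induction A using Polynomial.induction_on' with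
  | add A B hA hB =>
    rw [add_pow_char_pow, add_mul, psi0_add hQ h, hA, hB, add_mul]
  | monomial n a =>
    ext j
    rw [psi0_coeff hQ h, monomial_pow, ← C_mul_X_pow_eq_monomial, ← C_mul_X_pow_eq_monomial,
      mul_assoc, mul_assoc, coeff_C_mul, coeff_C_mul, coeff_X_pow_mul', coeff_X_pow_mul',
      psi0_coeff hQ h]
    have hiff : n * p ^ N ≤ p ^ N * j + k ↔ n ≤ j := by
      constructor
      · intro h1
        by_contra h2
        have : (j + 1) * p ^ N ≤ n * p ^ N := Nat.mul_le_mul_right _ (by omega)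
        rw [add_mul, one_mul, mul_comm j] at this
        omega
      · intro h1
        have : n * p ^ N ≤ j * p ^ N := Nat.mul_le_mul_right _ h1
        rw [mul_comm j] at this
        omega
    by_cases hnj : n ≤ j
    · rw [if_pos (hiff.2 hnj), if_pos hnj, h.lin]
      obtain ⟨i, rfl⟩ := Nat.exists_eq_add_of_le hnj
      have e1 : p ^ N * (n + i) + k - n * p ^ N = p ^ N * (n + i - n) + k := by
        rw [Nat.add_sub_cancel_left, mul_add, mul_comm n]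
        omega
      rw [e1]
    · rw [if_neg (fun h1 => hnj (hiff.1 h1)), if_neg hnj, mul_zero, mul_zero, h.zero]

theorem bc_core [Fact p.Prime] [CharP L p] {u T : I → ℤ} {N : ℕ} {Y h : L[X]}
    (hhK : ∀ n, h.coeff n ∈ K) (hYd : Y.natDegree < p ^ N) {k : ℕ} (hk : k ≤ Y.natDegree)
    {ψ : L → L} (hψ : IsInv (p ^ N) ψ)
    (hmap : ∀ t ∈ Zs S, ∀ y ∈ V ((p ^ N : ℤ) • t + T), ψ y ∈ V t) {x : L} (hx : x ∈ V (T - u))
    (hx1 : ψ (Y.coeff k * x) = 1) {c : RatFunc L}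
    (hc : c * algebraMap L[X] (RatFunc L) h = algebraMap L[X] (RatFunc L) Y) :
    ∃ ψ' : RatFunc L → RatFunc L, IsInv (p ^ N) ψ' ∧
      (∀ t ∈ Zs S, ∀ y ∈ bV V ((p ^ N : ℤ) • t + T), ψ' y ∈ bV V t) ∧
      ∃ x ∈ bV V (T - u), ψ' (c * x) = 1 := by
  have hQ : 0 < p ^ N := pow_pos (Fact.out : p.Prime).pos _
  obtain ⟨Ψ, hΨ, hΨ0⟩ := ext_inv hQ (psi0 ψ (p ^ N) k) (psi0_add hQ hψ k)
    (psi0_lin hψ (lt_of_le_of_lt hk hYd))
  refine ⟨fun z => Ψ (algebraMap L[X] (RatFunc L) h * z), ⟨fun x y => ?_, fun x y => ?_⟩, ?_,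
    RatFunc.C x, C_mem_ext.2 hx, ?_⟩
  · rw [mul_add, hΨ.add]
  · rw [← hΨ.lin]; congr 1; ring
  · intro t ht y hy
    obtain ⟨Y₁, h₁, hY₁, hh₁, hne, hyh⟩ := mem_ext.1 hy
    have hne' : algebraMap L[X] (RatFunc L) h₁ ≠ 0 := by
      intro h0; exact hne (RatFunc.algebraMap_injective L (by rw [h0, map_zero]))
    obtain ⟨q, hq⟩ : ∃ q, p ^ N = q + 1 := ⟨p ^ N - 1, by omega⟩
    have h1 : algebraMap L[X] (RatFunc L) h * y =
        ((algebraMap L[X] (RatFunc L) h₁)⁻¹) ^ (p ^ N) *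
          algebraMap L[X] (RatFunc L) (h * h₁ ^ q * Y₁) := by
      rw [map_mul, map_mul, map_pow, ← hyh, hq, inv_pow]
      field_simp
      ring
    show Ψ (algebraMap L[X] (RatFunc L) h * y) ∈ ext (V t)
    rw [h1, hΨ.lin, hΨ0]
    refine mem_ext.2 ⟨psi0 ψ (p ^ N) k (h * h₁ ^ q * Y₁), h₁, fun n => ?_, hh₁, hne, ?_⟩
    · rw [psi0_coeff hQ hψ]
      apply hmap t ht
      have hpoly : ∀ n, (h * h₁ ^ q).coeff n ∈ K := by
        have e1 : h ∈ Polynomial.lifts K.subtype := by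
          rw [Polynomial.lifts_iff_coeff_lifts]; intro n; exact ⟨⟨_, hhK n⟩, rfl⟩
        have e2 : h₁ ∈ Polynomial.lifts K.subtype := by
          rw [Polynomial.lifts_iff_coeff_lifts]; intro n; exact ⟨⟨_, hh₁ n⟩, rfl⟩
        have e3 := mul_mem e1 (pow_mem e2 q)
        rw [Polynomial.lifts_iff_coeff_lifts] at e3
        intro n
        obtain ⟨a, ha⟩ := e3 n
        rw [← ha]; exact a.2
      rw [coeff_mul]
      refine Submodule.sum_mem _ fun ij _ => ?_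
      exact Submodule.smul_mem _ (⟨_, hpoly ij.1⟩ : K) (hY₁ ij.2)
    · field_simp
  · show Ψ (algebraMap L[X] (RatFunc L) h * (c * RatFunc.C x)) = 1
    have h1 : algebraMap L[X] (RatFunc L) h * (c * RatFunc.C x) =
        algebraMap L[X] (RatFunc L) (Y * C x) := by
      rw [map_mul, RatFunc.algebraMap_C, ← hc]; ring
    rw [h1, hΨ0]
    have h2 : psi0 ψ (p ^ N) k (Y * C x) = 1 := by
      ext j
      rw [psi0_coeff hQ hψ, coeff_mul_C, coeff_one]
      rcases Nat.eq_zero_or_pos j with rfl | hj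
      · rw [if_pos rfl, mul_zero, zero_add, hx1]
      · rw [if_neg hj.ne', coeff_eq_zero_of_natDegree_lt, zero_mul, hψ.zero]
        have : p ^ N ≤ p ^ N * j := Nat.le_mul_of_pos_right _ hj
        omega
    rw [h2, map_one]

theorem SplitX.bc [Fact p.Prime] [CharP L p] (hs : SplitX p V S a) :
    SplitX p (bV V) S a := by
  intro u hu c hc hc0 N₀
  obtain ⟨Y, h, hY, hhK, hh0, hch⟩ := mem_ext.1 hc
  have hY0 : Y ≠ 0 := by
    rintro rfl
    rw [map_zero, mul_eq_zero] at hch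
    rcases hch with h1 | h1
    · exact hc0 h1
    · exact hh0 (RatFunc.algebraMap_injective L (by rw [h1, map_zero]))
  obtain ⟨N, hN, T, hT, h1, ψ, hψ, hmap, x, hx, hx1⟩ := hs u hu (Y.coeff Y.natDegree) (hY _)
    (leadingCoeff_ne_zero.2 hY0) (max N₀ (Y.natDegree + 1))
  have hd : Y.natDegree < p ^ N := by
    have := Nat.lt_pow_self (Fact.out : p.Prime).one_lt (n := N)
    have := le_max_right N₀ (Y.natDegree + 1)
    omega
  exact ⟨N, le_trans (le_max_left _ _) hN, T, hT, h1,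
    bc_core hhK hd le_rfl hψ hmap hx hx1 hch⟩

theorem Split.bc [Fact p.Prime] [CharP L p] (hs : Split p V S a) :
    Split p (bV V) S a := by
  intro u hu c hc hc0
  obtain ⟨Y, h, hY, hhK, hh0, hch⟩ := mem_ext.1 hc
  have hY0 : Y ≠ 0 := by
    rintro rfl
    rw [map_zero, mul_eq_zero] at hch
    rcases hch with h1 | h1
    · exact hc0 h1
    · exact hh0 (RatFunc.algebraMap_injective L (by rw [h1, map_zero]))
  obtain ⟨C, hC⟩ := hs u hu (Y.coeff Y.natDegree) (hY _) (leadingCoeff_ne_zero.2 hY0)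
  refine ⟨C, fun N₀ => ?_⟩
  obtain ⟨N, hN, T, hT, h1, ψ, hψ, hmap, x, hx, hx1⟩ := hC (max N₀ (Y.natDegree + 1))
  have hd : Y.natDegree < p ^ N := by
    have := Nat.lt_pow_self (Fact.out : p.Prime).one_lt (n := N)
    have := le_max_right N₀ (Y.natDegree + 1)
    omega
  exact ⟨N, le_trans (le_max_left _ _) hN, T, hT, h1,
    bc_core hhK hd le_rfl hψ hmap hx hx1 hch⟩

end KM
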