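import Pool.Agent.Lib.MP_732f67_ag.KM.BcDefs

/-! KM part A, base change to `K(u)`, file 2: the axioms (A1) - (A4).

`zero`: `V 0 = K` (`mem_bK`, `mem_ext`).  `two`: `C_mem_ext`-like: `C (x / y) ∈ bK K` implies
`x / y ∈ K`.  `ic`: common denominator `h` of the `c j` (`ext_common`); `Z = y * h` satisfies
`Z ^ (r + 1) = ∑ (c j * h ^ (j + 1)) * Z ^ (r - j)` with polynomials `c j * h ^ (j + 1)` with
coefficients in `V ((j + 1) • s)`; `Z` is integral over `L[X]`, so a polynomial.  Let
`R = {f ∈ L[z] | coeff f j ∈ V (j • s)}` (a subring of `L[z]`); `Z * z ∈ L[z][X]` is integral over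
`R[X]`, so by `Polynomial.isIntegral_iff_isIntegral_coeff` every coefficient `Z_n * z` is integral
over `R`; the coefficient of `z ^ (k + 1)` in its monic equation of degree `k + 1` is an equation as in
`ic`, so `Z_n ∈ V s`.
`free`: a basis `w k` of `V (e i m)`, common denominator `h` of the `g * C (w k)`; `g * h` is a
polynomial (`w 0 ≠ 0`) whose coefficients `G_n` satisfy `G_n * w k ∈ V (s + e i m)`. -/

namespace KM

open Polynomial

variable {L I : Type*} [Field L] [DecidableEq I] {K : Subfield L}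
  {V : (I → ℤ) → Submodule K L} {S : Finset I} {m₀ : ℕ}

/-- integrality from an equation -/
private theorem bcs_int {A B : Type*} [CommRing A] [CommRing B] [Algebra A B] [Nontrivial A] {G : B}
    {r : ℕ} {E : ℕ → A}
    (h : G ^ (r + 1) = ∑ j ∈ Finset.range (r + 1), algebraMap A B (E j) * G ^ (r - j)) :
    IsIntegral A G := by
  refine ⟨X ^ (r + 1) + -(∑ j ∈ Finset.range (r + 1), C (E j) * X ^ (r - j)), ?_, ?_⟩
  · apply monic_X_pow_add
    rw [degree_neg]
    refine (degree_sum_le _ _).trans_lt ?_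
    rw [Finset.sup_lt_iff (WithBot.bot_lt_coe _)]
    intro j _
    refine (degree_C_mul_X_pow_le _ _).trans_lt ?_
    exact_mod_cast (by omega : r - j < r + 1)
  · rw [eval₂_add, eval₂_pow, eval₂_X, eval₂_neg, eval₂_finsetSum, h]
    simp

/-- the graded ring -/
private def bcs_gR (h : Sys K V S m₀) {s : I → ℤ} (hs : s ∈ Zs S) : Subring L[X] where
  carrier := {f | ∀ j, f.coeff j ∈ V (j • s)}
  mul_mem' := by
    intro a b ha hb j
    rw [coeff_mul]
    refine Submodule.sum_mem _ fun x hx => ?_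
    have h1 := h.mul _ (Zs_nsmul hs x.1) _ (Zs_nsmul hs x.2) _ (ha x.1) _ (hb x.2)
    rwa [← add_smul, Finset.HasAntidiagonal.mem_antidiagonal.mp hx] at h1
  one_mem' := by
    intro j
    rw [coeff_one]
    split_ifs with hj
    · subst hj
      rw [zero_smul]
      exact h.one_mem
    · exact Submodule.zero_mem _
  add_mem' := by
    intro a b ha hb j
    rw [coeff_add]
    exact Submodule.add_mem _ (ha j) (hb j)
  zero_mem' := by
    intro j
    rw [coeff_zero]
    exact Submodule.zero_mem _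
  neg_mem' := by
    intro a ha j
    rw [coeff_neg]
    exact Submodule.neg_mem _ (ha j)

/-- an element of degree one which is integral over the graded ring -/
private theorem bcs_deg (h : Sys K V S m₀) {s : I → ℤ} (hs : s ∈ Zs S) {x : L}
    (hx : IsIntegral (bcs_gR h hs) (C x * X : L[X])) : x ∈ V s := by
  obtain ⟨p, hp, h0⟩ := hx
  obtain ⟨r, hr⟩ : ∃ r, p.natDegree = r + 1 := by
    rcases Nat.eq_zero_or_pos p.natDegree with h1 | h1
    · rw [eq_one_of_monic_natDegree_zero hp h1] at h0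
      simp at h0
    · exact ⟨p.natDegree - 1, by omega⟩
  have h1 := congrArg (fun f : L[X] => f.coeff (r + 1)) h0
  simp only [coeff_zero] at h1
  rw [eval₂_eq_sum_range, hr, finsetSum_coeff] at h1
  have h2 : ∀ i ∈ Finset.range (r + 1 + 1),
      (algebraMap (bcs_gR h hs) L[X] (p.coeff i) * (C x * X) ^ i).coeff (r + 1) =
      ((p.coeff i : bcs_gR h hs) : L[X]).coeff (r + 1 - i) * x ^ i := by
    intro i hi
    rw [Finset.mem_range] at hi
    rw [mul_pow, ← C_pow, ← mul_assoc, coeff_mul_X_pow', if_pos (by omega), coeff_mul_C]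
    rfl
  rw [Finset.sum_congr rfl h2, Finset.sum_range_succ] at h1
  have h3 : p.coeff (r + 1) = 1 := by
    have := hp.coeff_natDegree
    rwa [hr] at this
  rw [h3] at h1
  simp only [OneMemClass.coe_one, Nat.sub_self, coeff_one_zero, one_mul] at h1
  refine h.ic s hs x r (fun j => -((p.coeff (r - j) : bcs_gR h hs) : L[X]).coeff (j + 1))
    (fun j _ => ?_) ?_
  · exact Submodule.neg_mem _ ((p.coeff (r - j)).2 (j + 1))
  · rw [eq_neg_of_add_eq_zero_right h1, ← Finset.sum_neg_distrib,
      ← Finset.sum_range_reflect (fun j => -(((p.coeff j : bcs_gR h hs) : L[X]).coeff (r + 1 - j) * x ^ j))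
        (r + 1)]
    refine Finset.sum_congr rfl fun j hj => ?_
    rw [Finset.mem_range] at hj
    rw [neg_mul, show r + 1 - 1 - j = r - j by omega, show r + 1 - (r - j) = j + 1 by omega]

attribute [local instance] Polynomial.algebra in
/-- integral equations over polynomials -/
private theorem bcs_coeff (h : Sys K V S m₀) {s : I → ℤ} (hs : s ∈ Zs S) {P : L[X]} {r : ℕ}
    {D : ℕ → L[X]} (hD : ∀ j ≤ r, ∀ n, (D j).coeff n ∈ V ((j + 1) • s))
    (hP : P ^ (r + 1) = ∑ j ∈ Finset.range (r + 1), D j * P ^ (r - j)) (n : ℕ) :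
    P.coeff n ∈ V s := by
  classical
  set φ : L[X] →+* L[X][X] := mapRingHom (C : L →+* L[X]) with hφ
  have hφc : ∀ (f : L[X]) (n : ℕ), (φ f).coeff n = C (f.coeff n) := fun f n => by
    rw [hφ, coe_mapRingHom, coeff_map]
  set G : L[X][X] := φ P * C X with hG
  have hmem : ∀ j ≤ r, (↑(φ (D j) * C (X ^ (j + 1))).coeffs : Set L[X]) ⊆ bcs_gR h hs := by
    intro j hj f hf
    rw [Finset.mem_coe, mem_coeffs_iff] at hf
    obtain ⟨n, _, rfl⟩ := hf
    rw [coeff_mul_C, hφc]
    intro i
    rw [coeff_C_mul, coeff_X_pow]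
    split_ifs with hi
    · subst hi
      rw [mul_one]
      exact hD j hj n
    · rw [mul_zero]
      exact Submodule.zero_mem _
  have hint : IsIntegral (bcs_gR h hs)[X] G := by
    refine bcs_int (r := r) (E := fun j => if hj : j ≤ r then
      (φ (D j) * C (X ^ (j + 1))).toSubring (bcs_gR h hs) (hmem j hj) else 0) ?_
    have h1 : G ^ (r + 1) = φ (P ^ (r + 1)) * C (X ^ (r + 1)) := by
      rw [hG, mul_pow, ← map_pow, ← C_pow]
    rw [h1, hP, map_sum, Finset.sum_mul]
    refine Finset.sum_congr rfl fun j hj => ?_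
    have hjr : j ≤ r := by
      rw [Finset.mem_range] at hj
      omega
    rw [dif_pos hjr]
    have h2 : algebraMap (bcs_gR h hs)[X] L[X][X]
        ((φ (D j) * C (X ^ (j + 1))).toSubring (bcs_gR h hs) (hmem j hjr)) =
        φ (D j) * C (X ^ (j + 1)) := by
      show Polynomial.map (algebraMap (bcs_gR h hs) L[X]) _ = _
      exact map_toSubring _ _ (hmem j hjr)
    rw [h2, hG, mul_pow, ← map_pow, ← C_pow, map_mul]
    have h3 : (X : L[X]) ^ (r + 1) = X ^ (j + 1) * X ^ (r - j) := by
      rw [← pow_add]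
      congr 1
      omega
    rw [h3, C_mul]
    ring
  have h4 := Polynomial.isIntegral_iff_isIntegral_coeff.mp hint n
  rw [hG, coeff_mul_C, hφc] at h4
  exact bcs_deg h hs h4

theorem bc_ic (h : Sys K V S m₀) {s : I → ℤ} (hs : s ∈ Zs S) {y : RatFunc L} {r : ℕ}
    {c : ℕ → RatFunc L} (hc : ∀ j ≤ r, c j ∈ bV V ((j + 1) • s))
    (hy : y ^ (r + 1) = ∑ j ∈ Finset.range (r + 1), c j * y ^ (r - j)) : y ∈ bV V s := by
  obtain ⟨f, Y, hf, hf0, hY⟩ := ext_common (Finset.range (r + 1)) (fun j => V ((j + 1) • s)) c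
    (fun j hj => hc j (by rw [Finset.mem_range] at hj; omega))
  set a := algebraMap L[X] (RatFunc L) with ha
  have hfj : ∀ j n, (f ^ j).coeff n ∈ K := by
    intro j
    induction j with
    | zero =>
      intro n
      rw [pow_zero, coeff_one]
      split_ifs
      · exact K.one_mem
      · exact K.zero_mem
    | succ j ih =>
      intro n
      rw [pow_succ, coeff_mul]
      exact K.sum_mem fun x _ => K.mul_mem (ih _) (hf _)
  have hZ : (y * a f) ^ (r + 1) =
      ∑ j ∈ Finset.range (r + 1), a (Y j * f ^ j) * (y * a f) ^ (r - j) := by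
    rw [mul_pow, hy, Finset.sum_mul]
    refine Finset.sum_congr rfl fun j hj => ?_
    have hjr : j ≤ r := by
      rw [Finset.mem_range] at hj
      omega
    rw [map_mul, ← (hY j hj).2, map_pow, mul_pow]
    have h3 : (a f) ^ (r + 1) = a f * (a f) ^ j * (a f) ^ (r - j) := by
      rw [← pow_succ', ← pow_add]
      congr 1
      omega
    rw [h3]
    ring
  obtain ⟨P, hP⟩ := IsIntegrallyClosed.isIntegral_iff.mp (bcs_int hZ)
  have hP' : P ^ (r + 1) = ∑ j ∈ Finset.range (r + 1), (Y j * f ^ j) * P ^ (r - j) := by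
    apply IsFractionRing.injective L[X] (RatFunc L)
    rw [map_pow, map_sum, hP, hZ]
    refine Finset.sum_congr rfl fun j _ => ?_
    rw [map_mul (algebraMap L[X] (RatFunc L)) (Y j * f ^ j),
      map_pow (algebraMap L[X] (RatFunc L)) P, hP]
  have hcoeff : ∀ n, P.coeff n ∈ V s := by
    refine bcs_coeff h hs (r := r) (D := fun j => Y j * f ^ j) (fun j hj n => ?_) hP'
    rw [coeff_mul]
    refine Submodule.sum_mem _ fun x _ => ?_
    rw [mul_comm]
    exact (V ((j + 1) • s)).smul_mem ⟨_, hfj j x.2⟩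
      ((hY j (Finset.mem_range.mpr (by omega))).1 x.1)
  exact mem_ext.mpr ⟨P, f, hcoeff, hf, hf0, hP.symm⟩

private theorem bcs_zero (h : Sys K V S m₀) (x : RatFunc L) : x ∈ bV V 0 ↔ x ∈ bK K := by
  unfold bV
  rw [mem_ext, mem_bK]
  simp only [h.zero]

private theorem bcs_fg {W : Submodule K L} (hW : W.FG) : (ext W).FG := by
  classical
  obtain ⟨s, hs⟩ := hW
  refine ⟨s.image RatFunc.C, le_antisymm ?_ ?_⟩
  · rw [Submodule.span_le]
    intro x hx
    rw [Finset.coe_image] at hx
    obtain ⟨w, hw, rfl⟩ := hx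
    exact C_mem_ext.mpr (hs ▸ Submodule.subset_span hw)
  · unfold ext
    rw [Submodule.span_le]
    rintro _ ⟨w, hw, rfl⟩
    rw [SetLike.mem_coe, ← hs] at hw
    induction hw using Submodule.span_induction with
    | mem w hw => exact Submodule.subset_span (by
        rw [Finset.coe_image]
        exact ⟨w, hw, rfl⟩)
    | zero =>
      rw [map_zero]
      exact Submodule.zero_mem _
    | add x y _ _ hx hy =>
      rw [map_add]
      exact Submodule.add_mem _ hx hy
    | smul k x _ hx =>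
      have hk : RatFunc.C (k : L) ∈ bK K :=
        Subfield.subset_closure (Set.mem_insert_of_mem _ ⟨_, k.2, rfl⟩)
      have : RatFunc.C (k • x) = (⟨_, hk⟩ : bK K) • RatFunc.C x := by
        rw [Subfield.smul_def, Subfield.smul_def, smul_eq_mul, smul_eq_mul, map_mul]
      rw [this]
      exact Submodule.smul_mem _ _ hx

private theorem bcs_mul_mem {W₁ W₂ W₃ : Submodule K L} (hW : ∀ x ∈ W₁, ∀ y ∈ W₂, x * y ∈ W₃)
    {x y : RatFunc L} (hx : x ∈ ext W₁) (hy : y ∈ ext W₂) : x * y ∈ ext W₃ := by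
  rw [mem_ext] at hx hy ⊢
  obtain ⟨Y₁, h₁, a1, b1, c1, d1⟩ := hx
  obtain ⟨Y₂, h₂, a2, b2, c2, d2⟩ := hy
  refine ⟨Y₁ * Y₂, h₁ * h₂, ?_, ?_, mul_ne_zero c1 c2, ?_⟩
  · intro n
    rw [coeff_mul]
    exact Submodule.sum_mem _ fun z _ => hW _ (a1 _) _ (a2 _)
  · intro n
    rw [coeff_mul]
    exact K.sum_mem fun z _ => K.mul_mem (b1 _) (b2 _)
  · rw [map_mul, map_mul, ← d1, ← d2]
    ring

private theorem bcs_prod_le {W W₁ W₂ : Submodule K L} (hW : W ≤ W₁ * W₂) :
    ext W ≤ ext W₁ * ext W₂ := by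
  conv_lhs => unfold ext
  rw [Submodule.span_le]
  rintro _ ⟨w, hw, rfl⟩
  have h1 : w ∈ W₁ * W₂ := hW hw
  rw [SetLike.mem_coe]
  clear hw
  induction h1 using Submodule.mul_induction_on' with
  | mem_mul_mem x hx y hy =>
    rw [map_mul]
    exact Submodule.mul_mem_mul (C_mem_ext.mpr hx) (C_mem_ext.mpr hy)
  | add x _ y _ hx hy =>
    rw [map_add]
    exact Submodule.add_mem _ hx hy

theorem Sys.bc (h : Sys K V S m₀) : Sys (bK K) (bV V) S m₀ where
  pos := h.pos
  fg := fun t ht => bcs_fg (h.fg t ht)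
  zero := bcs_zero h
  mul := fun s hs t ht x hx y hy => bcs_mul_mem (fun x hx y hy => h.mul s hs t ht x hx y hy) hx hy
  two := by
    intro i hi
    obtain ⟨m, x, hx, y, hy, hy0, hxy⟩ := h.two i hi
    refine ⟨m, RatFunc.C x, C_mem_ext.mpr hx, RatFunc.C y, C_mem_ext.mpr hy, ?_, ?_⟩
    · rwa [Ne, map_eq_zero]
    · rw [← map_div₀, ← bcs_zero h]
      intro hcon
      exact hxy ((h.zero _).mp (C_mem_ext.mp hcon))
  ic := fun s hs y r c hc hy => bc_ic h hs hc hy
  reg := by
    intro m hm i hi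
    obtain ⟨C, hC⟩ := h.reg m hm i hi
    exact ⟨C, fun v hv hvi => bcs_prod_le (hC v hv hvi)⟩
  free := by
    intro m hm i hi s hs g hg
    classical
    obtain ⟨w₀, hw₀, hw0⟩ := h.exists_ne_single hi hm
    obtain ⟨t, ht⟩ := h.fg _ (Zs_e hi m)
    have htm : ∀ w ∈ insert w₀ t, w ∈ V (e i m) := by
      intro w hw
      rcases Finset.mem_insert.mp hw with rfl | hw
      · exact hw₀
      · rw [← ht]
        exact Submodule.subset_span hw
    obtain ⟨f, Y, hf, hf0, hY⟩ := ext_common (insert w₀ t) (fun _ => V (s + e i m))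
      (fun w => g * RatFunc.C w) (fun w hw => hg _ (C_mem_ext.mpr (htm w hw)))
    set a := algebraMap L[X] (RatFunc L) with ha
    have haC : ∀ w : L, a (C w) = RatFunc.C w := fun w => by
      rw [ha, RatFunc.algebraMap_C]
    have hG : g * a f = a (C w₀⁻¹ * Y w₀) := by
      rw [map_mul, ← (hY w₀ (Finset.mem_insert_self _ _)).2, haC]
      have h1 : RatFunc.C w₀⁻¹ * RatFunc.C w₀ = 1 := by
        rw [← map_mul, inv_mul_cancel₀ hw0, map_one]
      calc g * a f = g * a f * (RatFunc.C w₀⁻¹ * RatFunc.C w₀) := by rw [h1, mul_one]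
        _ = RatFunc.C w₀⁻¹ * (g * RatFunc.C w₀ * a f) := by ring
    set G := C w₀⁻¹ * Y w₀ with hGd
    have hGw : ∀ w ∈ insert w₀ t, G * C w = Y w := by
      intro w hw
      apply IsFractionRing.injective L[X] (RatFunc L)
      rw [map_mul, ← hG]
      have h2 := (hY w hw).2
      rw [← h2]
      have h3 : algebraMap L[X] (RatFunc L) (C w) = RatFunc.C w := haC w
      rw [h3]
      ring
    have hGn : ∀ n, G.coeff n ∈ V s := by
      intro n
      refine h.free m hm i hi s hs _ ?_
      intro x hx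
      rw [← ht] at hx
      induction hx using Submodule.span_induction with
      | mem w hw =>
        have hw' : w ∈ insert w₀ t := Finset.mem_insert_of_mem hw
        rw [← coeff_mul_C, hGw w hw']
        exact (hY w hw').1 n
      | zero =>
        rw [mul_zero]
        exact Submodule.zero_mem _
      | add x y _ _ hx hy =>
        rw [mul_add]
        exact Submodule.add_mem _ hx hy
      | smul k x _ hx =>
        rw [mul_smul_comm]
        exact Submodule.smul_mem _ _ hx
    exact mem_ext.mpr ⟨G, f, hGn, hf, hf0, hG⟩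

end KM
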