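import Pool.Agent.Lib.MP_732f67_ag.KM.Key

/-! KM part A, file 23: the block inequality (F8).

Suppose `∑ a i > d + 1` (resp. `∑ a i = d + 1` and `t j < d + 1` for some `j ∈ B`).  Choose positive
integers `n i` (`i ∈ B`) close to `D * a i` (`D` a large integer; `exists_rat`-approximation) such
that with `s = ∑ n i` for all `j ∈ B`: `n j * (d + 1) - s * a j ≤ 0` up to a small error and `< - ε`
for at least one `j` (resp. `n j * t j - s * a j`).  In the first case `n j (d+1) - s a j ≈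
D a j (d + 1 - ∑ a i) < 0` for all `j`.  In the second case take the errors into account:
it is enough to have `∏ x i ^ (n i)` in `V` of a vector all of whose coordinates are `≤ C'` and one
tends to `-∞`: this needs `a` rational there or the approximation `n i / D → a i` together with the
fact that only `t j ≤ d + 1` and `s * a j ≥ n j (d + 1)` (if `∑ a i = d + 1`, choose
`n i = ⌊D a i⌋ + 1` or `⌊D a i⌋` suitably; for the application `a` is rational: the second part may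
assume `ha' : ∀ i ∈ B, ∃ q : ℚ, a i = q`).
`∏ x i ^ (n i) ∈ V (∑ n i • (e i ((Q-1) t i + γ i) - T))`, nonzero, all coordinates `≤ C'`, one
`< - D'`: contradiction to `neg_large`. -/

namespace KM

variable {L I : Type*} [Field L] [DecidableEq I] {K : Subfield L}
  {V : (I → ℤ) → Submodule K L} {S : Finset I} {m₀ : ℕ} {p : ℕ} {a : I → ℝ}

/-- the coordinates of the sum -/
theorem block_coord {B : Finset I} (n : I → ℕ) (c : I → ℤ) (T : I → ℤ) (j : I) :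
    (∑ i ∈ B, n i • (e i (c i) - T)) j =
      (if j ∈ B then (n j : ℤ) * c j else 0) - (∑ i ∈ B, (n i : ℤ)) * T j := by
  rw [Finset.sum_apply]
  have h1 : ∀ i ∈ B, (n i • (e i (c i) - T)) j =
      (if j = i then (n i : ℤ) * c i else 0) - (n i : ℤ) * T j := by
    intro i _
    rw [Pi.smul_apply, Pi.sub_apply, nsmul_eq_mul, mul_sub]
    congr 1
    split_ifs with hji
    · rw [hji, e_same]
    · rw [e_ne hji, mul_zero]
  rw [Finset.sum_congr rfl h1, Finset.sum_sub_distrib, Finset.sum_ite_eq, Finset.sum_mul]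

/-- the product of the `n i`-th powers of the elements of `key` is impossible -/
theorem block_aux (h : Sys K V S m₀) (hp : 2 ≤ p) {B : Finset I} (hB : B ⊆ S) (t γ : I → ℤ)
    (hkey : ∃ C : ℝ, ∀ N₀ : ℕ, ∃ N ≥ N₀, ∃ T ∈ Nn B,
        (∀ i ∈ B, ((p : ℝ) ^ N - 1) * a i - C ≤ T i ∧ (T i : ℝ) ≤ ((p : ℝ) ^ N - 1) * a i) ∧
        ∀ i ∈ B, ∃ x ∈ V (e i (((p : ℤ) ^ N - 1) * t i + γ i) - T), x ≠ 0)
    (n : I → ℕ) (s : ℕ) (hs : s = ∑ i ∈ B, n i) (hn : ∀ j ∈ B, (n j : ℝ) * t j ≤ s * a j)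
    {j₀ : I} (hj₀ : j₀ ∈ B) (hj : (n j₀ : ℝ) * t j₀ < s * a j₀) : False := by
  obtain ⟨C, hC⟩ := hkey
  -- the constants
  set b : I → ℝ := fun j => n j * γ j + s * C with hb
  obtain ⟨C', hC'0, hC'⟩ : ∃ C' : ℤ, 0 ≤ C' ∧ ∀ j ∈ B, b j ≤ C' := by
    refine ⟨∑ j ∈ B, ⌈|b j|⌉, Finset.sum_nonneg fun j _ => Int.ceil_nonneg (abs_nonneg _), ?_⟩
    intro j hjB
    have h1 : ⌈|b j|⌉ ≤ ∑ j ∈ B, ⌈|b j|⌉ :=
      Finset.single_le_sum (f := fun j => ⌈|b j|⌉)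
        (fun j _ => Int.ceil_nonneg (abs_nonneg _)) hjB
    have h2 : b j ≤ ((⌈|b j|⌉ : ℤ) : ℝ) := (le_abs_self _).trans (Int.le_ceil _)
    exact h2.trans (by exact_mod_cast h1)
  obtain ⟨D, hD⟩ := h.neg_large C'
  obtain ⟨ε, hε⟩ : ∃ ε : ℝ, ε = s * a j₀ - n j₀ * t j₀ := ⟨_, rfl⟩
  have hε0 : 0 < ε := by rw [hε]; linarith
  obtain ⟨N₀, hN₀⟩ := exists_nat_gt ((|(D : ℝ)| + |b j₀|) / ε)
  obtain ⟨N, hN, T, hT, hTa, hx⟩ := hC N₀
  have hQ : (N : ℝ) ≤ (p : ℝ) ^ N - 1 := by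
    have h1 : N + 1 ≤ p ^ N := Nat.lt_pow_self (by omega)
    have h2 : ((N + 1 : ℕ) : ℝ) ≤ ((p ^ N : ℕ) : ℝ) := by exact_mod_cast h1
    push_cast at h2
    linarith
  have hQ0 : 0 ≤ (p : ℝ) ^ N - 1 := le_trans (Nat.cast_nonneg _) hQ
  -- the elements
  have hx' : ∀ i, ∃ x : L, (i ∈ B → x ∈ V (e i (((p : ℤ) ^ N - 1) * t i + γ i) - T)) ∧ x ≠ 0 := by
    intro i
    by_cases hi : i ∈ B
    · obtain ⟨x, hx1, hx2⟩ := hx i hi
      exact ⟨x, fun _ => hx1, hx2⟩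
    · exact ⟨1, fun h1 => absurd h1 hi, one_ne_zero⟩
  choose x hxV hx0 using hx'
  have hZ : ∀ i ∈ B, e i (((p : ℤ) ^ N - 1) * t i + γ i) - T ∈ Zs S := fun i hi =>
    Zs_sub (Zs_e (hB hi) _) (Zs_mono hB hT.2)
  have hmem := h.prod_mem B (fun i => n i • (e i (((p : ℤ) ^ N - 1) * t i + γ i) - T))
    (fun i => x i ^ n i) (fun i hi => Zs_nsmul (hZ i hi) _)
    (fun i hi => h.pow_mem (hZ i hi) (hxV i hi) (n i))
  have hZs := Zs_sum B (fun i => n i • (e i (((p : ℤ) ^ N - 1) * t i + γ i) - T))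
    (fun i hi => Zs_nsmul (hZ i hi) (n i))
  have hsZ : (∑ i ∈ B, (n i : ℤ)) = (s : ℤ) := by
    rw [hs]
    push_cast
    rfl
  have hcoord : ∀ j ∈ B, (((∑ i ∈ B, n i • (e i (((p : ℤ) ^ N - 1) * t i + γ i) - T)) j : ℤ) : ℝ) ≤
      ((p : ℝ) ^ N - 1) * (n j * t j - s * a j) + b j := by
    intro j hjB
    rw [block_coord n (fun i => ((p : ℤ) ^ N - 1) * t i + γ i), if_pos hjB, hsZ]
    push_cast
    have h1 := (hTa j hjB).1
    have h2 := mul_le_mul_of_nonneg_left h1 (Nat.cast_nonneg (α := ℝ) s)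
    rw [hb]
    simp only
    linarith
  refine Finset.prod_ne_zero_iff.2 (fun i _ => pow_ne_zero (n i) (hx0 i))
    (hD _ hZs ?_ ⟨j₀, hB hj₀, ?_⟩ _ hmem)
  · intro j
    by_cases hjB : j ∈ B
    · have h1 := hcoord j hjB
      have h2 : ((p : ℝ) ^ N - 1) * (n j * t j - s * a j) ≤ 0 :=
        mul_nonpos_of_nonneg_of_nonpos hQ0 (by linarith [hn j hjB])
      have h3 := hC' j hjB
      have h4 : (((∑ i ∈ B, n i • (e i (((p : ℤ) ^ N - 1) * t i + γ i) - T)) j : ℤ) : ℝ) ≤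
          (C' : ℝ) := by linarith
      exact_mod_cast h4
    · rw [block_coord n (fun i => ((p : ℤ) ^ N - 1) * t i + γ i), if_neg hjB, hT.2 j hjB,
        mul_zero, sub_zero]
      exact hC'0
  · have h1 := hcoord j₀ hj₀
    have h2 : n j₀ * t j₀ - s * a j₀ = - ε := by rw [hε]; ring
    rw [h2] at h1
    have h3 : (N₀ : ℝ) ≤ (p : ℝ) ^ N - 1 := le_trans (by exact_mod_cast hN) hQ
    have h4 : (|(D : ℝ)| + |b j₀|) < N₀ * ε := by
      rwa [div_lt_iff₀ hε0] at hN₀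
    have h5 : (N₀ : ℝ) * ε ≤ ((p : ℝ) ^ N - 1) * ε := mul_le_mul_of_nonneg_right h3 hε0.le
    have h6 := le_abs_self (D : ℝ)
    have h7 := le_abs_self (b j₀)
    have h8 : (((∑ i ∈ B, n i • (e i (((p : ℤ) ^ N - 1) * t i + γ i) - T)) j₀ : ℤ) : ℝ) <
        ((-D : ℤ) : ℝ) := by
      push_cast
      linarith
    exact_mod_cast h8

theorem block_le [Fact p.Prime] [CharP L p] [Infinite K] (h : Sys K V S m₀) (hs : Split p V S a)
    (ha : ∀ i ∈ S, 0 < a i) (hF : FF p K) (hFG : FG K) {B : Finset I} (hB : B ⊆ S)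
    (hne : B.Nonempty) {d : ℕ} (hd0 : 0 < d)
    (hd : ∀ i ∈ B, nu V {i} = d) (hdB : nu V B = d) : ∑ i ∈ B, a i ≤ d + 1 := by
  have hp : 2 ≤ p := (Fact.out : p.Prime).two_le
  obtain ⟨t, γ, ht, hkey⟩ := key h hs ha hF hFG hB hd hdB
  by_contra hcon
  push Not at hcon
  obtain ⟨j₀, hj₀⟩ := hne
  set A : ℝ := ∑ i ∈ B, a i with hA
  -- the large integer
  have hM : ∀ i, ∃ M : ℕ, i ∈ B → (d + 1 : ℝ) < M * (a i * (A - (d + 1))) := by
    intro i
    by_cases hi : i ∈ B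
    · have h1 : 0 < a i * (A - (d + 1)) := mul_pos (ha i (hB hi)) (by linarith)
      obtain ⟨M, hM⟩ := exists_nat_gt ((d + 1 : ℝ) / (a i * (A - (d + 1))))
      rw [div_lt_iff₀ h1] at hM
      exact ⟨M, fun _ => hM⟩
    · exact ⟨0, fun h1 => absurd h1 hi⟩
  choose M hM using hM
  obtain ⟨D, hD⟩ : ∃ D : ℕ, D = ∑ i ∈ B, M i := ⟨_, rfl⟩
  have hDM : ∀ i ∈ B, (d + 1 : ℝ) < D * (a i * (A - (d + 1))) := by
    intro i hi
    have h1 : M i ≤ D := by
      rw [hD]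
      exact Finset.single_le_sum (f := M) (fun _ _ => Nat.zero_le _) hi
    have h2 : (M i : ℝ) ≤ D := by exact_mod_cast h1
    have h3 : 0 < a i * (A - (d + 1)) := mul_pos (ha i (hB hi)) (by linarith)
    exact (hM i hi).trans_le (mul_le_mul_of_nonneg_right h2 h3.le)
  have hlt : ∀ j ∈ B, ((⌈(D : ℝ) * a j⌉₊ : ℕ) : ℝ) * t j <
      ((∑ i ∈ B, ⌈(D : ℝ) * a i⌉₊ : ℕ) : ℝ) * a j := by
    intro j hj
    have ha0 := ha j (hB hj)
    have hD0 : (0 : ℝ) ≤ D := Nat.cast_nonneg _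
    have h1 : ((⌈(D : ℝ) * a j⌉₊ : ℕ) : ℝ) < D * a j + 1 :=
      Nat.ceil_lt_add_one (mul_nonneg hD0 ha0.le)
    have h2 : (t j : ℝ) ≤ d + 1 := by exact_mod_cast (ht j hj).1
    have h3 : (D : ℝ) * A ≤ ((∑ i ∈ B, ⌈(D : ℝ) * a i⌉₊ : ℕ) : ℝ) := by
      rw [hA, Finset.mul_sum]
      push_cast
      exact Finset.sum_le_sum fun i _ => Nat.le_ceil _
    have h4 : ((⌈(D : ℝ) * a j⌉₊ : ℕ) : ℝ) * t j ≤ (⌈(D : ℝ) * a j⌉₊ : ℝ) * (d + 1) :=
      mul_le_mul_of_nonneg_left h2 (Nat.cast_nonneg _)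
    have h5 : (⌈(D : ℝ) * a j⌉₊ : ℝ) * (d + 1) ≤ (D * a j + 1) * (d + 1) :=
      mul_le_mul_of_nonneg_right h1.le (by positivity)
    have h6 := mul_le_mul_of_nonneg_right h3 ha0.le
    have h7 := hDM j hj
    have h8 : (D : ℝ) * (a j * (A - (d + 1))) = D * A * a j - D * a j * (d + 1) := by ring
    have h9 : ((D : ℝ) * a j + 1) * (d + 1) = D * a j * (d + 1) + (d + 1) := by ring
    rw [h8] at h7
    rw [h9] at h5
    linarith
  exact block_aux h hp hB t γ hkey (fun i => ⌈(D : ℝ) * a i⌉₊) _ rfl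
    (fun j hj => (hlt j hj).le) hj₀ (hlt j₀ hj₀)

theorem block_eq [Fact p.Prime] [CharP L p] [Infinite K] (h : Sys K V S m₀) (hs : Split p V S a)
    (ha : ∀ i ∈ S, 0 < a i) (ha' : ∀ i ∈ S, ∃ q : ℚ, a i = q) (hF : FF p K) (hFG : FG K)
    {B : Finset I} (hB : B ⊆ S) (hne : B.Nonempty) {d : ℕ} (hd0 : 0 < d)
    (hd : ∀ i ∈ B, nu V {i} = d) (hdB : nu V B = d) (heq : ∑ i ∈ B, a i = d + 1) :
    ∀ i ∈ B, ∀ l : ℕ, Module.finrank K (V (e i l)) = (l + d).choose d := by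
  have hp : 2 ≤ p := (Fact.out : p.Prime).two_le
  obtain ⟨t, γ, ht, hkey⟩ := key h hs ha hF hFG hB hd hdB
  suffices htd : ∀ i ∈ B, t i = d + 1 from fun i hi => (ht i hi).2 (htd i hi)
  by_contra hcon
  push Not at hcon
  obtain ⟨j₀, hj₀, hne⟩ := hcon
  -- a common denominator
  have hq : ∀ i, ∃ q : ℚ, i ∈ B → a i = q := by
    intro i
    by_cases hi : i ∈ B
    · obtain ⟨q, hq⟩ := ha' i (hB hi)
      exact ⟨q, fun _ => hq⟩
    · exact ⟨0, fun h1 => absurd h1 hi⟩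
  choose q hq using hq
  obtain ⟨D, hD⟩ : ∃ D : ℕ, D = ∏ i ∈ B, (q i).den := ⟨_, rfl⟩
  have hD0 : 0 < D := by
    rw [hD]
    exact Finset.prod_pos fun i _ => (q i).pos
  have hDR : (0 : ℝ) < D := by exact_mod_cast hD0
  have hn : ∀ i, ∃ m : ℕ, i ∈ B → (m : ℝ) = D * a i := by
    intro i
    by_cases hi : i ∈ B
    · obtain ⟨k, hk⟩ : (q i).den ∣ D := by
        rw [hD]
        exact Finset.dvd_prod_of_mem _ hi
      have h1 : (D : ℝ) * a i = (((k : ℤ) * (q i).num : ℤ) : ℝ) := by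
        rw [hq i hi, hk]
        have h2 : ((q i : ℚ) : ℝ) = ((q i).num : ℝ) / ((q i).den : ℝ) := Rat.cast_def _
        have h3 : ((q i).den : ℝ) ≠ 0 := by
          exact_mod_cast (q i).pos.ne'
        rw [h2]
        push_cast
        field_simp
      have h4 : 0 < (k : ℤ) * (q i).num := by
        have : (0 : ℝ) < (((k : ℤ) * (q i).num : ℤ) : ℝ) := by
          rw [← h1]
          exact mul_pos hDR (ha i (hB hi))
        exact_mod_cast this
      obtain ⟨m, hm⟩ := Int.eq_ofNat_of_zero_le h4.le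
      refine ⟨m, fun _ => ?_⟩
      rw [h1, hm]
      simp
    · exact ⟨0, fun h1 => absurd h1 hi⟩
  choose n hn using hn
  have hsum : ((∑ i ∈ B, n i : ℕ) : ℝ) = D * (d + 1) := by
    push_cast
    rw [Finset.sum_congr rfl fun i hi => hn i hi, ← Finset.mul_sum, heq]
  refine block_aux h hp hB t γ hkey n _ rfl (fun j hj => ?_) hj₀ ?_
  · rw [hsum, hn j hj]
    have h1 : (t j : ℝ) ≤ d + 1 := by exact_mod_cast (ht j hj).1
    have h2 := mul_le_mul_of_nonneg_left h1 (mul_pos hDR (ha j (hB hj))).le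
    linarith
  · rw [hsum, hn j₀ hj₀]
    have h1 : (t j₀ : ℝ) < d + 1 := by
      have h3 : t j₀ < d + 1 := lt_of_le_of_ne (ht j₀ hj₀).1 hne
      exact_mod_cast h3
    have h2 := mul_lt_mul_of_pos_left h1 (mul_pos hDR (ha j₀ (hB hj₀)))
    linarith

end KM
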