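import Pool.Agent.Lib.MP_732f67_ag.KM.Gr

/-! KM part A, file 15: colon capturing (F5): `R` is Cohen - Macaulay.

`exists_free`: `R` is generated over `K[x]` by finitely many homogeneous elements (`HFin`: `R l` for
`l < D + m`); take a maximal subfamily `g` which is independent over `K[x]` (homogeneously); every
other generator `f` has a homogeneous `P ≠ 0` with `P (x) f ∈ ∑ K[x] g`; `c` is the product.
`cm`: `x j * z = ∑ x i * w i`.  Take `c = C₀ (x) ∈ R u` as in `exists_free` and `N`, `ψ`, `x₀` from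
`SplitG` for `c`, `Q = p ^ N`.  `x j ^ Q * (c z ^ Q) = ∑ x i ^ Q (c w i ^ Q)` in the free module
`∑ K[x] g` (`c z ^ Q` and `c w i ^ Q` have unique coordinates, homogeneous polynomials); in the
polynomial ring `X j ^ Q * F ∈ (X i ^ Q, i < j)` implies `F ∈ (X i ^ Q, i < j)`; so
`c z ^ Q = ∑_{i < j} x i ^ Q y i`, `y i ∈ R (Q (l - m) + u)`.  Apply `ψ (· x₀)`:
`z = z ψ (c x₀) = ∑ x i ψ (y i x₀)` and `ψ (y i x₀) ∈ R (l - m)`. -/

namespace KM

open MvPolynomial

variable {L : Type*} [Field L] {K : Subfield L} {R : ℤ → Submodule K L} {m₀ : ℕ}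

section hat

variable {n m : ℕ} {δ l : ℤ} {P P' : MvPolynomial (Fin n) K}

theorem cc_zero (m : ℕ) (δ l : ℤ) : HAt m δ l (0 : MvPolynomial (Fin n) K) := by
  intro β hβ
  simp at hβ

theorem cc_add (h : HAt m δ l P) (h' : HAt m δ l P') : HAt m δ l (P + P') := by
  classical
  intro β hβ
  rcases Finset.mem_union.1 (MvPolynomial.support_add hβ) with h1 | h1
  exacts [h β h1, h' β h1]

theorem cc_smul (c : K) (h : HAt m δ l P) : HAt m δ l (c • P) :=
  fun β hβ => h β (MvPolynomial.support_smul hβ)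

theorem cc_neg (h : HAt m δ l P) : HAt m δ l (-P) := fun β hβ => h β (by simpa using hβ)

theorem cc_sub (h : HAt m δ l P) (h' : HAt m δ l P') : HAt m δ l (P - P') := by
  rw [sub_eq_add_neg]
  exact cc_add h (cc_neg h')

theorem cc_sum {κ : Type*} (s : Finset κ) (F : κ → MvPolynomial (Fin n) K)
    (h : ∀ i ∈ s, HAt m δ l (F i)) : HAt m δ l (∑ i ∈ s, F i) := by
  classical
  induction s using Finset.induction_on with
  | empty => simpa using cc_zero m δ l
  | insert a s ha ih =>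
    rw [Finset.sum_insert ha]
    exact cc_add (h a (Finset.mem_insert_self a s))
      (ih fun i hi => h i (Finset.mem_insert_of_mem hi))

theorem cc_wt (β : Fin n →₀ ℕ) : Finsupp.weight (1 : Fin n → ℕ) β = β.degree := by
  rw [Finsupp.degree_eq_weight_one]
  rfl

theorem cc_deg {k : ℕ} (h : P.IsHomogeneous k) {β : Fin n →₀ ℕ} (hβ : β ∈ P.support) :
    β.degree = k := by
  have h1 := h (mem_support_iff.1 hβ)
  rwa [cc_wt] at h1

theorem cc_hom {k : ℕ} (h : P.IsHomogeneous k) (m : ℕ) (δ : ℤ) : HAt m δ (δ + m * k) P := by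
  intro β hβ
  rw [cc_deg h hβ]
  ring

theorem cc_mul {k : ℕ} (hC : P'.IsHomogeneous k) (h : HAt m δ l P) :
    HAt m δ (l + m * k) (P' * P) := by
  classical
  intro β hβ
  obtain ⟨a, ha, b, hb, rfl⟩ := Finset.mem_add.1 (MvPolynomial.support_mul _ _ hβ)
  have h1 := cc_deg hC ha
  have h2 := h b hb
  rw [map_add, h1]
  push_cast
  linarith

/-- a nonzero `HAt` polynomial is homogeneous -/
theorem cc_exists (hm : 0 < m) (h : HAt m δ l P) (h0 : P ≠ 0) :
    ∃ k : ℕ, P.IsHomogeneous k ∧ l = δ + m * k := by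
  obtain ⟨β, hβ⟩ := Finset.nonempty_of_ne_empty (fun h1 => h0 (MvPolynomial.support_eq_empty.1 h1))
  refine ⟨β.degree, ?_, ?_⟩
  · intro γ hγ
    have h1 := h β hβ
    have h2 := h γ (mem_support_iff.2 hγ)
    have h3 : (m : ℤ) * (γ.degree : ℕ) = m * (β.degree : ℕ) := by linarith
    have h4 : ((γ.degree : ℕ) : ℤ) = (β.degree : ℕ) :=
      mul_left_cancel₀ (by exact_mod_cast hm.ne') h3
    rw [cc_wt]
    exact_mod_cast h4
  · have h1 := h β hβ
    linarith

end hat

section cb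

variable {n : ℕ}

/-- homogeneous combinations of the `g ν` of degree `l` -/
def Cb (m : ℕ) (x : Fin n → L) {ι : Type} [Fintype ι] (g : ι → L) (δ : ι → ℤ) (l : ℤ) :
    Submodule K L where
  carrier := {z | ∃ P : ι → MvPolynomial (Fin n) K, (∀ ν, HAt m (δ ν) l (P ν)) ∧
    z = ∑ ν, aeval x (P ν) * g ν}
  zero_mem' := ⟨0, fun ν => cc_zero _ _ _, by simp⟩
  add_mem' := by
    rintro _ _ ⟨P, hP, rfl⟩ ⟨P', hP', rfl⟩
    refine ⟨P + P', fun ν => cc_add (hP ν) (hP' ν), ?_⟩
    rw [← Finset.sum_add_distrib]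
    refine Finset.sum_congr rfl fun ν _ => ?_
    rw [Pi.add_apply, map_add, add_mul]
  smul_mem' := by
    rintro c _ ⟨P, hP, rfl⟩
    refine ⟨fun ν => c • P ν, fun ν => cc_smul c (hP ν), ?_⟩
    rw [Finset.smul_sum]
    refine Finset.sum_congr rfl fun ν _ => ?_
    rw [map_smul, smul_mul_assoc]

theorem mem_Cb {m : ℕ} {x : Fin n → L} {ι : Type} [Fintype ι] {g : ι → L} {δ : ι → ℤ} {l : ℤ}
    {z : L} : z ∈ Cb (K := K) m x g δ l ↔ ∃ P : ι → MvPolynomial (Fin n) K,
      (∀ ν, HAt m (δ ν) l (P ν)) ∧ z = ∑ ν, aeval x (P ν) * g ν := Iff.rfl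

theorem Cb_mul {m : ℕ} {x : Fin n → L} {ι : Type} [Fintype ι] {g : ι → L} {δ : ι → ℤ} {l : ℤ}
    {z : L} {k : ℕ} {C : MvPolynomial (Fin n) K} (hC : C.IsHomogeneous k)
    (hz : z ∈ Cb (K := K) m x g δ l) : aeval x C * z ∈ Cb (K := K) m x g δ (l + m * k) := by
  obtain ⟨P, hP, rfl⟩ := mem_Cb.1 hz
  refine mem_Cb.2 ⟨fun ν => C * P ν, fun ν => cc_mul hC (hP ν), ?_⟩
  rw [Finset.mul_sum]
  refine Finset.sum_congr rfl fun ν _ => ?_
  rw [map_mul, mul_assoc]

theorem Cb_X_mul {m : ℕ} {x : Fin n → L} {ι : Type} [Fintype ι] {g : ι → L} {δ : ι → ℤ} {l : ℤ}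
    {z : L} (j : Fin n) (hz : z ∈ Cb (K := K) m x g δ l) :
    x j * z ∈ Cb (K := K) m x g δ (l + m) := by
  have h := Cb_mul (C := X j) (isHomogeneous_X K j) hz
  rw [aeval_X] at h
  simpa using h

/-- homogeneous independence of the family `g` -/
def Ind (K : Subfield L) (m : ℕ) (x : Fin n → L) {ι : Type} [Fintype ι] (g : ι → L)
    (δ : ι → ℤ) : Prop :=
  ∀ l, ∀ P : ι → MvPolynomial (Fin n) K, (∀ ν, HAt m (δ ν) l (P ν)) →
    ∑ ν, aeval x (P ν) * g ν = 0 → ∀ ν, P ν = 0

theorem free_step {m : ℕ} (hm : 0 < m) {x : Fin n → L} (T : Finset (ℤ × L))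
    (hT : ∀ t ∈ T, t.2 ∈ R t.1) :
    ∃ (k : ℕ) (C₀ : MvPolynomial (Fin n) K) (ι : Type) (_ : Fintype ι) (g : ι → L) (δ : ι → ℤ),
      C₀.IsHomogeneous k ∧ C₀ ≠ 0 ∧ (∀ ν, g ν ∈ R (δ ν)) ∧
      (∀ t ∈ T, aeval x C₀ * t.2 ∈ Cb (K := K) m x g δ (t.1 + m * k)) ∧ Ind K m x g δ := by
  classical
  induction T using Finset.induction_on with
  | empty =>
    refine ⟨0, 1, Empty, inferInstance, Empty.elim, Empty.elim, isHomogeneous_one _ _,
      one_ne_zero, fun ν => ν.elim, fun t ht => absurd ht (Finset.notMem_empty _),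
      fun l P _ _ ν => ν.elim⟩
  | insert t T ht ih =>
    obtain ⟨k, C₀, ι, _, g, δ, hC, hC0, hg, hgen, hind⟩ :=
      ih fun s hs => hT s (Finset.mem_insert_of_mem hs)
    have htR := hT t (Finset.mem_insert_self t T)
    by_cases hI : Ind K m x (fun o : Option ι => o.elim t.2 g) (fun o : Option ι => o.elim t.1 δ)
    · refine ⟨k, C₀, Option ι, inferInstance, fun o => o.elim t.2 g, fun o => o.elim t.1 δ, hC,
        hC0, ?_, ?_, hI⟩
      · rintro (_ | ν)
        · exact htR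
        · exact hg ν
      · intro s hs
        rcases Finset.mem_insert.1 hs with rfl | hs
        · refine mem_Cb.2 ⟨fun o => o.elim C₀ fun _ => 0, ?_, ?_⟩
          · rintro (_ | ν)
            · exact cc_hom hC m s.1
            · exact cc_zero _ _ _
          · rw [Fintype.sum_option]
            simp
        · obtain ⟨P, hP, h⟩ := mem_Cb.1 (hgen s hs)
          refine mem_Cb.2 ⟨fun o => o.elim 0 P, ?_, ?_⟩
          · rintro (_ | ν)
            · exact cc_zero _ _ _
            · exact hP ν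
          · rw [Fintype.sum_option, h]
            simp
    · unfold Ind at hI
      push Not at hI
      obtain ⟨l, P, hP, hsum, ν₀, hν₀⟩ := hI
      rw [Fintype.sum_option] at hsum
      have hn : P none ≠ 0 := by
        intro h0
        rw [h0, map_zero, zero_mul, zero_add] at hsum
        have h1 := hind l (fun ν => P (some ν)) (fun ν => hP (some ν)) hsum
        rcases ν₀ with _ | ν
        · exact hν₀ h0
        · exact hν₀ (h1 ν)
      obtain ⟨k', hk', hl⟩ := cc_exists hm (hP none) hn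
      refine ⟨k + k', C₀ * P none, ι, inferInstance, g, δ, hC.mul hk', mul_ne_zero hC0 hn, hg,
        ?_, hind⟩
      intro s hs
      rcases Finset.mem_insert.1 hs with rfl | hs
      · have h1 : aeval x (P none) * s.2 ∈ Cb (K := K) m x g δ l := by
          refine mem_Cb.2 ⟨fun ν => - P (some ν), fun ν => cc_neg (hP (some ν)), ?_⟩
          have h2 : aeval x (P none) * s.2 = - ∑ ν, aeval x (P (some ν)) * g ν :=
            eq_neg_of_add_eq_zero_left hsum
          rw [h2, ← Finset.sum_neg_distrib]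
          refine Finset.sum_congr rfl fun ν _ => ?_
          rw [map_neg, neg_mul]
        have h3 := Cb_mul hC h1
        rw [map_mul, mul_assoc]
        convert h3 using 2
        have h4 : l = s.1 + m * k' := hl
        rw [h4]
        push_cast
        ring
      · have h3 := Cb_mul hk' (hgen s hs)
        have h4 : aeval x (C₀ * P none) * s.2 = aeval x (P none) * (aeval x C₀ * s.2) := by
          rw [map_mul]
          ring
        rw [h4]
        convert h3 using 2
        push_cast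
        ring

end cb

theorem exists_free (hG : Gr K R m₀) {m n : ℕ} (hm : m₀ ≤ m) {x : Fin n → L}
    (hx : ∀ j, x j ∈ R m) (hi : HInd K x) (hf : HFin R m x) :
    ∃ (k : ℕ) (C₀ : MvPolynomial (Fin n) K) (ι : Type) (_ : Fintype ι) (g : ι → L) (δ : ι → ℤ),
      C₀.IsHomogeneous k ∧ C₀ ≠ 0 ∧ (∀ ν, g ν ∈ R (δ ν)) ∧
      (∀ l, ∀ z ∈ R l, ∃ P : ι → MvPolynomial (Fin n) K,
        (∀ ν, HAt m (δ ν) (l + m * k) (P ν)) ∧
        MvPolynomial.aeval x C₀ * z = ∑ ν, MvPolynomial.aeval x (P ν) * g ν) ∧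
      ∀ l, ∀ P : ι → MvPolynomial (Fin n) K, (∀ ν, HAt m (δ ν) l (P ν)) →
        ∑ ν, MvPolynomial.aeval x (P ν) * g ν = 0 → ∀ ν, P ν = 0 := by
  classical
  have hm0 : 0 < m := lt_of_lt_of_le hG.pos hm
  obtain ⟨D, hD⟩ := hf
  choose B hB using fun l => hG.fg l
  let T : Finset (ℤ × L) := (Finset.Ico (0 : ℤ) (D + m)).biUnion fun l => (B l).image fun z => (l, z)
  have hT : ∀ t ∈ T, t.2 ∈ R t.1 := by
    intro t ht
    obtain ⟨l, hl, ht⟩ := Finset.mem_biUnion.1 ht
    obtain ⟨z, hz, rfl⟩ := Finset.mem_image.1 ht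
    change z ∈ R l
    rw [← hB l]
    exact Submodule.subset_span hz
  obtain ⟨k, C₀, ι, hι, g, δ, hC, hC0, hg, hgen, hind⟩ := free_step hm0 (x := x) T hT
  refine ⟨k, C₀, ι, hι, g, δ, hC, hC0, hg, ?_, hind⟩
  -- generation, by strong induction
  have key : ∀ N : ℕ, ∀ l : ℤ, l < N → ∀ z ∈ R l,
      aeval x C₀ * z ∈ Cb (K := K) m x g δ (l + m * k) := by
    intro N
    induction N with
    | zero =>
      intro l hl z hz
      rw [hG.neg l (by exact_mod_cast hl) z hz, mul_zero]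
      exact Submodule.zero_mem _
    | succ N ih =>
      intro l hl z hz
      rcases lt_or_ge l 0 with h0 | h0
      · rw [hG.neg l h0 z hz, mul_zero]
        exact Submodule.zero_mem _
      rcases lt_or_ge l (D + m) with h1 | h1
      · have h2 : R l ≤ (Cb (K := K) m x g δ (l + m * k)).comap
            (LinearMap.mulLeft K (aeval x C₀)) := by
          rw [← hB l, Submodule.span_le]
          intro y hy
          have h3 : ((l, y) : ℤ × L) ∈ T := Finset.mem_biUnion.2
            ⟨l, Finset.mem_Ico.2 ⟨h0, h1⟩, Finset.mem_image.2 ⟨y, hy, rfl⟩⟩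
          exact hgen _ h3
        exact h2 hz
      · have h2 : z ∈ R ((l - m) + m) := by rwa [sub_add_cancel]
        obtain ⟨y, hy, rfl⟩ := hD (l - m) (by linarith) z h2
        rw [Finset.mul_sum]
        refine Submodule.sum_mem _ fun j _ => ?_
        have h3 := ih (l - m) (by
          have : (0 : ℤ) < m := by exact_mod_cast hm0
          push_cast at hl
          linarith) (y j) (hy j)
        have h4 := Cb_X_mul j h3
        have h5 : aeval x C₀ * (x j * y j) = x j * (aeval x C₀ * y j) := by ring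
        rw [h5]
        convert h4 using 2
        ring
  intro l z hz
  obtain ⟨N, hN⟩ : ∃ N : ℕ, l < N := ⟨l.toNat + 1, by
    have := Int.self_le_toNat l
    push_cast
    linarith⟩
  exact mem_Cb.1 (key N l hN z hz)

/-- division by the powers of the first variables, with control of the monomials -/
theorem regular_pow' {k : Type*} [Field k] {n : ℕ} (j : Fin n) (Q : ℕ)
    (F : MvPolynomial (Fin n) k) (G : Fin n → MvPolynomial (Fin n) k)
    (h : MvPolynomial.X j ^ Q * F = ∑ i ∈ Finset.Iio j, MvPolynomial.X i ^ Q * G i) :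
    ∃ G' : Fin n → MvPolynomial (Fin n) k,
      F = ∑ i ∈ Finset.Iio j, MvPolynomial.X i ^ Q * G' i ∧
      ∀ i, ∀ γ ∈ (G' i).support, γ + Finsupp.single i Q ∈ F.support := by
  classical
  -- every monomial of `F` is divisible by one of the powers
  have h1 : ∀ β ∈ F.support, ∃ i ∈ Finset.Iio j, Q ≤ β i := by
    intro β hβ
    have h2 : coeff (Finsupp.single j Q + β) (X j ^ Q * F) ≠ 0 := by
      rw [X_pow_eq_monomial, coeff_monomial_mul, one_mul]
      exact mem_support_iff.1 hβ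
    rw [h, coeff_sum] at h2
    obtain ⟨i, hi, h3⟩ := Finset.exists_ne_zero_of_sum_ne_zero h2
    refine ⟨i, hi, ?_⟩
    rw [X_pow_eq_monomial, coeff_monomial_mul'] at h3
    have h4 : Finsupp.single i Q ≤ Finsupp.single j Q + β := by
      by_contra h5
      rw [if_neg h5] at h3
      exact h3 rfl
    have h5 := h4 i
    have h6 : i ≠ j := (Finset.mem_Iio.1 hi).ne
    rw [Finsupp.single_eq_same, Finsupp.add_apply, Finsupp.single_apply, if_neg h6.symm,
      zero_add] at h5
    exact h5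
  have hne : Nonempty (Fin n) := ⟨j⟩
  choose! ch hch1 hch2 using h1
  let G' : Fin n → MvPolynomial (Fin n) k := fun i =>
    ∑ β ∈ F.support.filter (fun β => ch β = i), monomial (β - Finsupp.single i Q) (coeff β F)
  refine ⟨G', ?_, ?_⟩
  · have h2 : ∀ i ∈ Finset.Iio j, X i ^ Q * G' i =
        ∑ β ∈ F.support.filter (fun β => ch β = i), monomial β (coeff β F) := by
      intro i _
      rw [Finset.mul_sum]
      refine Finset.sum_congr rfl fun β hβ => ?_
      obtain ⟨hβ', rfl⟩ := Finset.mem_filter.1 hβ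
      have h3 : Finsupp.single (ch β) Q ≤ β := by
        rw [Finsupp.single_le_iff]
        exact hch2 β hβ'
      rw [X_pow_eq_monomial, monomial_mul, one_mul, add_tsub_cancel_of_le h3]
    rw [Finset.sum_congr rfl h2]
    conv_lhs => rw [F.as_sum]
    exact (Finset.sum_fiberwise_of_maps_to (fun β hβ => hch1 β hβ) _).symm
  · intro i γ hγ
    obtain ⟨β, hβ, h2⟩ := Finset.mem_biUnion.1 (MvPolynomial.support_sum hγ)
    obtain ⟨hβ', rfl⟩ := Finset.mem_filter.1 hβ
    have h3 : γ = β - Finsupp.single (ch β) Q := by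
      simpa using support_monomial_subset h2
    have h4 : Finsupp.single (ch β) Q ≤ β := by
      rw [Finsupp.single_le_iff]
      exact hch2 β hβ'
    rw [h3, tsub_add_cancel_of_le h4]
    exact hβ'

/-- the `Q`-th powers of the variables are a regular sequence -/
theorem regular_pow {k : Type*} [Field k] {n : ℕ} (j : Fin n) (Q : ℕ) (F : MvPolynomial (Fin n) k)
    (G : Fin n → MvPolynomial (Fin n) k)
    (h : MvPolynomial.X j ^ Q * F = ∑ i ∈ Finset.Iio j, MvPolynomial.X i ^ Q * G i) :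
    ∃ G' : Fin n → MvPolynomial (Fin n) k,
      F = ∑ i ∈ Finset.Iio j, MvPolynomial.X i ^ Q * G' i := by
  obtain ⟨G', h1, -⟩ := regular_pow' j Q F G h
  exact ⟨G', h1⟩

section mem

variable {n m : ℕ} {x : Fin n → L}

theorem gr_pow_mem (hG : Gr K R m₀) {a : ℤ} {y : L} (hy : y ∈ R a) (k : ℕ) :
    y ^ k ∈ R (k * a) := by
  induction k with
  | zero =>
    rw [pow_zero, Nat.cast_zero, zero_mul]
    exact (hG.zero 1).2 K.one_mem
  | succ k ih =>
    have h := hG.mul _ _ _ ih _ hy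
    rw [pow_succ]
    convert h using 2
    push_cast
    ring

theorem gr_mono_mem (hG : Gr K R m₀) (hx : ∀ j, x j ∈ R m) (s : Finset (Fin n)) (β : Fin n → ℕ) :
    ∏ j ∈ s, x j ^ β j ∈ R (m * (∑ j ∈ s, β j : ℕ)) := by
  classical
  induction s using Finset.induction_on with
  | empty =>
    rw [Finset.prod_empty, Finset.sum_empty, Nat.cast_zero, mul_zero]
    exact (hG.zero 1).2 K.one_mem
  | insert a s ha ih =>
    rw [Finset.prod_insert ha, Finset.sum_insert ha]
    have h := hG.mul _ _ _ (gr_pow_mem hG (hx a) (β a)) _ ih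
    convert h using 2
    push_cast
    ring

theorem gr_aeval_mem (hG : Gr K R m₀) (hx : ∀ j, x j ∈ R m) {δ l : ℤ}
    {P : MvPolynomial (Fin n) K} (hP : HAt m δ l P) {g : L} (hg : g ∈ R δ) :
    aeval x P * g ∈ R l := by
  rw [aeval_def, eval₂_eq', Finset.sum_mul]
  refine Submodule.sum_mem _ fun β hβ => ?_
  have h1 := hP β hβ
  have h2 := hG.mul _ _ _ (gr_mono_mem hG hx Finset.univ β) _ hg
  have h3 : (algebraMap K L) (coeff β P) * (∏ i, x i ^ β i) * g =
      coeff β P • ((∏ i, x i ^ β i) * g) := by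
    rw [Algebra.smul_def, mul_assoc]
  rw [h3]
  refine Submodule.smul_mem _ _ ?_
  convert h2 using 2
  rw [← h1, Finsupp.degree_eq_sum]

theorem Cb_le (hG : Gr K R m₀) (hx : ∀ j, x j ∈ R m) {ι : Type} [Fintype ι] {g : ι → L}
    {δ : ι → ℤ} (hg : ∀ ν, g ν ∈ R (δ ν)) (l : ℤ) : Cb (K := K) m x g δ l ≤ R l := by
  intro z hz
  obtain ⟨P, hP, rfl⟩ := mem_Cb.1 hz
  exact Submodule.sum_mem _ fun ν _ => gr_aeval_mem hG hx (hP ν) (hg ν)

end mem

theorem cm (hG : Gr K R m₀) {p : ℕ} [Fact p.Prime] [CharP L p] (hs : SplitG p R) {m n : ℕ}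
    (hm : m₀ ≤ m) {x : Fin n → L} (hx : ∀ j, x j ∈ R m) (hi : HInd K x) (hf : HFin R m x) :
    HReg R m x := by
  classical
  intro j l z hz w hw hzw
  obtain ⟨k, C₀, ι, hι, g, δ, hC, hC0, hg, hgen, hind⟩ := exists_free hG hm hx hi hf
  have hc0 : aeval x C₀ ≠ 0 := fun h => hC0 (hi k C₀ hC h)
  have hcR : aeval x C₀ ∈ R ((m : ℤ) * k) := by
    have h := gr_aeval_mem hG hx (cc_hom hC m 0) ((hG.zero 1).2 K.one_mem)
    rwa [mul_one, zero_add] at h
  obtain ⟨N, ψ, hψ, x₀, hψ1, hψR⟩ := hs _ _ hcR hc0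
  set Q : ℕ := p ^ N with hQ
  have hψ0 : ψ 0 = 0 := by
    have h := hψ.add 0 0
    rw [add_zero] at h
    exact left_eq_add.1 h
  have hψs : ∀ (s : Finset (Fin n)) (F : Fin n → L), ψ (∑ i ∈ s, F i) = ∑ i ∈ s, ψ (F i) := by
    intro s F
    induction s using Finset.induction_on with
    | empty => rw [Finset.sum_empty, Finset.sum_empty, hψ0]
    | insert a s ha ih => rw [Finset.sum_insert ha, Finset.sum_insert ha, hψ.add, ih]
  -- coordinates
  have hzQ : z ^ Q ∈ R (Q * l) := gr_pow_mem hG hz Q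
  have hwQ : ∀ i, w i ^ Q ∈ R (Q * l) := fun i => gr_pow_mem hG (hw i) Q
  obtain ⟨P, hP, hPz⟩ := hgen _ _ hzQ
  choose P' hP' hPw using fun i => hgen _ _ (hwQ i)
  -- the relation of the powers
  have hrel : x j ^ Q * z ^ Q = ∑ i ∈ Finset.Iio j, x i ^ Q * w i ^ Q := by
    rw [← mul_pow, hzw, hQ, sum_pow_char_pow]
    exact Finset.sum_congr rfl fun i _ => mul_pow _ _ _
  have hXQ : ∀ i : Fin n, ((X i : MvPolynomial (Fin n) K) ^ Q).IsHomogeneous Q := by
    intro i
    have h := (isHomogeneous_X K i).pow Q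
    rwa [one_mul] at h
  have hcoord : ∀ ν, X j ^ Q * P ν = ∑ i ∈ Finset.Iio j, X i ^ Q * P' i ν := by
    have h1 := hind (Q * l + m * k + m * Q)
      (fun ν => X j ^ Q * P ν - ∑ i ∈ Finset.Iio j, X i ^ Q * P' i ν)
      (fun ν => cc_sub (cc_mul (hXQ j) (hP ν)) (cc_sum _ _ fun i _ => cc_mul (hXQ i) (hP' i ν))) ?_
    · exact fun ν => sub_eq_zero.1 (h1 ν)
    · have h2 : ∀ ν, aeval x (X j ^ Q * P ν - ∑ i ∈ Finset.Iio j, X i ^ Q * P' i ν) * g ν =
          x j ^ Q * (aeval x (P ν) * g ν) -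
            ∑ i ∈ Finset.Iio j, x i ^ Q * (aeval x (P' i ν) * g ν) := by
        intro ν
        rw [map_sub, map_mul, map_pow, aeval_X, map_sum, sub_mul, Finset.sum_mul, mul_assoc]
        congr 1
        refine Finset.sum_congr rfl fun i _ => ?_
        rw [map_mul, map_pow, aeval_X, mul_assoc]
      rw [Finset.sum_congr rfl fun ν _ => h2 ν, Finset.sum_sub_distrib, ← Finset.mul_sum, ← hPz,
        Finset.sum_comm]
      have h3 : ∑ i ∈ Finset.Iio j, ∑ ν, x i ^ Q * (aeval x (P' i ν) * g ν) =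
          ∑ i ∈ Finset.Iio j, x i ^ Q * (aeval x C₀ * w i ^ Q) :=
        Finset.sum_congr rfl fun i _ => by rw [← Finset.mul_sum, ← hPw i]
      rw [h3]
      have h4 : x j ^ Q * (aeval x C₀ * z ^ Q) = aeval x C₀ * (x j ^ Q * z ^ Q) := by ring
      rw [h4, hrel, Finset.mul_sum, sub_eq_zero]
      exact Finset.sum_congr rfl fun i _ => by ring
  choose G hG1 hG2 using fun ν => regular_pow' j Q (P ν) (fun i => P' i ν) (hcoord ν)
  have hGH : ∀ ν i, HAt m (δ ν) (Q * (l - m) + m * k) (G ν i) := by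
    intro ν i γ hγ
    have h1 := hP ν _ (hG2 ν i γ hγ)
    rw [map_add, Finsupp.degree_single] at h1
    push_cast at h1
    linarith
  let y : Fin n → L := fun i => ∑ ν, aeval x (G ν i) * g ν
  have hy : ∀ i, y i ∈ R ((p : ℤ) ^ N * (l - m) + m * k) := by
    intro i
    have h1 := Cb_le hG hx hg (Q * (l - m) + m * k)
      (mem_Cb.2 ⟨fun ν => G ν i, fun ν => hGH ν i, rfl⟩ : y i ∈ Cb (K := K) m x g δ _)
    rw [hQ] at h1
    push_cast at h1
    exact h1
  have hsum : aeval x C₀ * z ^ Q = ∑ i ∈ Finset.Iio j, x i ^ Q * y i := by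
    rw [hPz]
    have h1 : ∀ ν, aeval x (P ν) * g ν =
        ∑ i ∈ Finset.Iio j, x i ^ Q * (aeval x (G ν i) * g ν) := by
      intro ν
      conv_lhs => rw [hG1 ν]
      rw [map_sum, Finset.sum_mul]
      refine Finset.sum_congr rfl fun i _ => ?_
      rw [map_mul, map_pow, aeval_X, mul_assoc]
    rw [Finset.sum_congr rfl fun ν _ => h1 ν, Finset.sum_comm]
    exact Finset.sum_congr rfl fun i _ => by rw [← Finset.mul_sum]
  refine ⟨fun i => ψ (y i * x₀), fun i => hψR (l - m) (y i) (hy i), ?_⟩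
  have h1 : z = ψ (z ^ Q * (aeval x C₀ * x₀)) := by
    rw [hψ.lin, hψ1, mul_one]
  have h2 : z ^ Q * (aeval x C₀ * x₀) = ∑ i ∈ Finset.Iio j, x i ^ Q * (y i * x₀) := by
    have h3 : z ^ Q * (aeval x C₀ * x₀) = (aeval x C₀ * z ^ Q) * x₀ := by ring
    rw [h3, hsum, Finset.sum_mul]
    exact Finset.sum_congr rfl fun i _ => by ring
  rw [h1, h2, hψs]
  exact Finset.sum_congr rfl fun i _ => hψ.lin _ _

end KM
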