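import Pool.Agent.Lib.MP_732f67_ag.KM.Basic

/-! KM part A, file 3: iterated use of (A3).

`dec1`: induction on `k` with `reg` (all intermediate vectors have `i`-th coordinate `≥ C`).
`dec`: induction on `S'` with `dec1`: for `i ∈ S'` split off `e i (m * k)` with
`k = (T i - C) / m` (`k = 0` if `T i < C`), new constant `C + m`.
`free_iter`: if `g * x ∈ V (s + T')` for all `x ∈ V T'`, `T' ∈ Nn S`, all `T' i` multiples of `m`,
then `g ∈ V s` (products of elements of `V (e i m)` lie in `V T'`; `free` one factor at a time).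
-/

namespace KM

variable {L I : Type*} [Field L] [DecidableEq I] {K : Subfield L}
  {V : (I → ℤ) → Submodule K L} {S : Finset I} {m₀ : ℕ}

theorem Sys.dec_mul_le (h : Sys K V S m₀) {s t : I → ℤ} (hs : s ∈ Zs S) (ht : t ∈ Zs S) :
    V s * V t ≤ V (s + t) :=
  Submodule.mul_le.2 fun x hx y hy => h.mul s hs t ht x hx y hy

theorem Sys.dec_one (h : Sys K V S m₀) : (1 : L) ∈ V 0 := (h.zero 1).2 K.one_mem

theorem dec_e_mem {i : I} (hi : i ∈ S) {m : ℤ} (hm : 0 ≤ m) : e i m ∈ Nn S := by
  refine ⟨fun j => ?_, fun j hj => ?_⟩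
  · by_cases hji : j = i
    · subst hji; simpa using hm
    · simp [Pi.single_eq_of_ne hji]
  · have hji : j ≠ i := fun hh => hj (hh ▸ hi)
    simp [Pi.single_eq_of_ne hji]

theorem dec_add_mem {s t : I → ℤ} (hs : s ∈ Nn S) (ht : t ∈ Nn S) : s + t ∈ Nn S :=
  ⟨fun i => add_nonneg (hs.1 i) (ht.1 i), fun i hi => by simp [hs.2 i hi, ht.2 i hi]⟩

theorem dec_add_zs {s t : I → ℤ} (hs : s ∈ Zs S) (ht : t ∈ Zs S) : s + t ∈ Zs S :=
  fun i hi => by simp [hs i hi, ht i hi]

theorem Sys.dec_pow_le (h : Sys K V S m₀) {i : I} (hi : i ∈ S) (m k : ℕ) :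
    V (e i m) ^ k ≤ V (e i (m * k)) := by
  induction k with
  | zero =>
    rw [pow_zero, Submodule.one_le]
    have h0 : e i ((m : ℤ) * ((0 : ℕ) : ℤ)) = 0 := by simp
    rw [h0]
    exact h.dec_one
  | succ k ih =>
    rw [pow_succ]
    refine (mul_le_mul' ih le_rfl).trans ?_
    have h1 : e i ((m : ℤ) * ((k + 1 : ℕ) : ℤ)) = e i ((m : ℤ) * (k : ℤ)) + e i (m : ℤ) := by
      rw [← Pi.single_add]
      exact congrArg _ (by push_cast; ring)
    rw [h1]
    exact h.dec_mul_le (dec_e_mem hi (by positivity)).2 (dec_e_mem hi (by positivity)).2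

theorem Sys.dec1 (h : Sys K V S m₀) {m : ℕ} (hm : m₀ ≤ m) {i : I} (hi : i ∈ S) :
    ∃ C : ℕ, ∀ v ∈ Nn S, (C : ℤ) ≤ v i → ∀ k : ℕ,
      V (v + e i (m * k)) ≤ V v * V (e i m) ^ k := by
  obtain ⟨C, hC⟩ := h.reg m hm i hi
  refine ⟨C, fun v hv hvi k => ?_⟩
  induction k with
  | zero =>
    have h0 : v + e i ((m : ℤ) * ((0 : ℕ) : ℤ)) = v := by simp
    rw [h0, pow_zero, mul_one]
  | succ k ih =>
    have h1 : v + e i ((m : ℤ) * ((k + 1 : ℕ) : ℤ)) = v + e i ((m : ℤ) * (k : ℤ)) + e i (m : ℤ) := by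
      rw [add_assoc, ← Pi.single_add]
      exact congrArg (fun z : ℤ => v + e i z) (by push_cast; ring)
    rw [h1]
    refine (hC _ (dec_add_mem hv (dec_e_mem hi (by positivity))) ?_).trans ?_
    · have : (0 : ℤ) ≤ (m : ℤ) * (k : ℤ) := by positivity
      simp only [Pi.add_apply, Pi.single_eq_same]
      linarith
    · rw [pow_succ, ← mul_assoc]
      exact mul_le_mul' ih le_rfl

theorem Sys.dec (h : Sys K V S m₀) {m : ℕ} (hm : m₀ ≤ m) :
    ∃ C : ℕ, ∀ S' ⊆ S, ∀ T ∈ Nn S, ∃ T' ∈ Nn S',
      (∀ i ∈ S', T i - C ≤ T' i ∧ T' i ≤ T i ∧ (m : ℤ) ∣ T' i) ∧ T - T' ∈ Nn S ∧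
      V T ≤ V T' * V (T - T') := by
  have hm0 : 0 < m := h.pos.trans_le hm
  choose! c hc using fun i (hi : i ∈ S) => h.dec1 hm hi
  refine ⟨(∑ i ∈ S, c i) + m, fun S' => ?_⟩
  induction S' using Finset.induction_on with
  | empty =>
    intro _ T hT
    refine ⟨0, ⟨fun i => le_rfl, fun i _ => rfl⟩, by simp, by simpa using hT, ?_⟩
    rw [sub_zero]
    intro x hx
    have := Submodule.mul_mem_mul h.dec_one hx
    rwa [one_mul] at this
  | insert a S'' ha ih =>
    intro hS T hT
    have haS : a ∈ S := hS (Finset.mem_insert_self _ _)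
    obtain ⟨T'', hT'', h1, h2, h3⟩ := ih ((Finset.subset_insert _ _).trans hS) T hT
    have hTa : T'' a = 0 := hT''.2 a ha
    have hca : c a ≤ ∑ i ∈ S, c i := Finset.single_le_sum (fun _ _ => Nat.zero_le _) haS
    have hk : ∃ k : ℕ, T a - ((∑ i ∈ S, c i : ℕ) + m : ℕ) ≤ (m : ℤ) * k ∧
        ((k = 0 ∧ (m : ℤ) * k ≤ T a) ∨ (m : ℤ) * k ≤ T a - c a) := by
      have hTa0 := hT.1 a
      by_cases hlt : T a < c a
      · refine ⟨0, ?_, Or.inl ⟨rfl, by simpa using hTa0⟩⟩
        push_cast
        have : (c a : ℤ) ≤ ∑ i ∈ S, (c i : ℤ) := by exact_mod_cast hca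
        have hm1 : (0 : ℤ) < m := by exact_mod_cast hm0
        linarith
      · push Not at hlt
        have hmz : (0 : ℤ) < m := by exact_mod_cast hm0
        obtain ⟨q, hq⟩ : ∃ q : ℕ, (q : ℤ) = (T a - c a) / m :=
          ⟨((T a - c a) / m).toNat, Int.toNat_of_nonneg (Int.ediv_nonneg (by linarith) hmz.le)⟩
        have hd := Int.emod_add_mul_ediv (T a - c a) m
        have hr0 := Int.emod_nonneg (T a - c a) hmz.ne'
        have hr1 := Int.emod_lt_of_pos (T a - c a) hmz
        refine ⟨q, ?_, Or.inr ?_⟩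
        · rw [hq]
          push_cast
          have : (c a : ℤ) ≤ ∑ i ∈ S, (c i : ℤ) := by exact_mod_cast hca
          linarith
        · rw [hq]
          linarith
    obtain ⟨k, hk1, hk2⟩ := hk
    have hkT : (m : ℤ) * k ≤ T a := by
      rcases hk2 with hk2 | hk2
      · exact hk2.2
      · have : (0 : ℤ) ≤ c a := by positivity
        linarith
    have hmk : (0 : ℤ) ≤ (m : ℤ) * k := by positivity
    have hE : e a ((m : ℤ) * k) ∈ Nn S := dec_e_mem haS hmk
    have hnew : T - (T'' + e a ((m : ℤ) * k)) ∈ Nn S := by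
      refine ⟨fun i => ?_, fun i hi => ?_⟩
      · by_cases hia : i = a
        · subst hia
          simp only [Pi.sub_apply, Pi.add_apply, Pi.single_eq_same, hTa]
          linarith
        · have := h2.1 i
          simp only [Pi.sub_apply, Pi.add_apply, Pi.single_eq_of_ne hia] at this ⊢
          linarith
      · have h4 := h2.2 i hi
        have h5 := hE.2 i hi
        simp only [Pi.sub_apply, Pi.add_apply] at h4 h5 ⊢
        rw [h5]
        linarith
    have hT''S : T'' ∈ Nn S :=
      ⟨hT''.1, fun i hi => hT''.2 i fun hh => hi (hS (Finset.mem_insert_of_mem hh))⟩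
    refine ⟨T'' + e a ((m : ℤ) * k), ⟨fun i => ?_, fun i hi => ?_⟩, fun i hi => ?_, hnew, ?_⟩
    · exact add_nonneg (hT''.1 i) (hE.1 i)
    · rw [Finset.mem_insert, not_or] at hi
      simp only [Pi.add_apply, Pi.single_eq_of_ne hi.1, hT''.2 i hi.2, add_zero]
    · by_cases hia : i = a
      · subst hia
        simp only [Pi.add_apply, Pi.single_eq_same, hTa, zero_add]
        exact ⟨by push_cast at hk1 ⊢; linarith, hkT, dvd_mul_right _ _⟩
      · have hi' : i ∈ S'' := (Finset.mem_insert.1 hi).resolve_left hia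
        simp only [Pi.add_apply, Pi.single_eq_of_ne hia, add_zero]
        exact h1 i hi'
    · refine h3.trans ?_
      have hW : V (T - T'') ≤ V (e a ((m : ℤ) * k)) * V (T - (T'' + e a ((m : ℤ) * k))) := by
        have he : T - T'' = T - (T'' + e a ((m : ℤ) * k)) + e a ((m : ℤ) * k) := by abel
        rcases hk2 with ⟨hk0, -⟩ | hk2
        · have h0 : e a ((m : ℤ) * k) = 0 := by rw [hk0]; simp
          rw [h0, add_zero]
          intro x hx
          have := Submodule.mul_mem_mul h.dec_one hx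
          rwa [one_mul] at this
        · rw [mul_comm]
          refine le_trans ?_ (mul_le_mul' le_rfl (h.dec_pow_le haS m k))
          conv_lhs => rw [he]
          refine hc a haS _ hnew ?_ k
          simp only [Pi.sub_apply, Pi.add_apply, Pi.single_eq_same, hTa, zero_add]
          linarith
      refine (mul_le_mul' le_rfl hW).trans ?_
      rw [← mul_assoc]
      exact mul_le_mul' (h.dec_mul_le hT''S.2 hE.2) le_rfl

theorem Sys.free_iter (h : Sys K V S m₀) {m : ℕ} (hm : m₀ ≤ m) {s T : I → ℤ} (hs : s ∈ Zs S)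
    (hT : T ∈ Nn S) (hd : ∀ i, (m : ℤ) ∣ T i) {g : L}
    (hg : ∀ x ∈ V T, g * x ∈ V (s + T)) : g ∈ V s := by
  have hm0 : 0 < m := h.pos.trans_le hm
  have hmz : (0 : ℤ) < m := by exact_mod_cast hm0
  obtain ⟨n, hn⟩ : ∃ n : ℕ, (∑ i ∈ S, T i) ≤ n :=
    ⟨(∑ i ∈ S, T i).toNat, Int.self_le_toNat _⟩
  induction n generalizing T with
  | zero =>
    have h0 : T = 0 := by
      funext i
      by_cases hi : i ∈ S
      · have h1 : T i ≤ ∑ i ∈ S, T i := Finset.single_le_sum (fun j _ => hT.1 j) hi
        have := hT.1 i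
        push_cast at hn
        simp only [Pi.zero_apply]
        linarith
      · exact hT.2 i hi
    subst h0
    have := hg 1 h.dec_one
    rwa [mul_one, add_zero] at this
  | succ n ih =>
    by_cases h0 : ∃ i ∈ S, 0 < T i
    · obtain ⟨i, hi, hpos⟩ := h0
      have hmi : (m : ℤ) ≤ T i := Int.le_of_dvd hpos (hd i)
      have hT1 : T - e i m ∈ Nn S := by
        refine ⟨fun j => ?_, fun j hj => ?_⟩
        · by_cases hji : j = i
          · subst hji
            simp only [Pi.sub_apply, Pi.single_eq_same]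
            linarith
          · simp only [Pi.sub_apply, Pi.single_eq_of_ne hji, sub_zero]
            exact hT.1 j
        · have hji : j ≠ i := fun hh => hj (hh ▸ hi)
          simp only [Pi.sub_apply, Pi.single_eq_of_ne hji, sub_zero]
          exact hT.2 j hj
      refine ih hT1 (fun j => ?_) (fun x hx => ?_) ?_
      · by_cases hji : j = i
        · subst hji
          simp only [Pi.sub_apply, Pi.single_eq_same]
          exact dvd_sub (hd j) dvd_rfl
        · simp only [Pi.sub_apply, Pi.single_eq_of_ne hji, sub_zero]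
          exact hd j
      · refine h.free m hm i hi _ (dec_add_zs hs hT1.2) _ fun y hy => ?_
        have h1 : x * y ∈ V T := by
          have := h.mul _ hT1.2 _ (dec_e_mem hi hmz.le).2 x hx y hy
          rwa [sub_add_cancel] at this
        have h2 := hg _ h1
        rwa [mul_assoc, add_assoc, sub_add_cancel]
      · have h1 : ∑ j ∈ S, (T - e i (m : ℤ)) j = (∑ j ∈ S, T j) - m := by
          simp only [Pi.sub_apply, Finset.sum_sub_distrib]
          congr 1
          rw [Finset.sum_eq_single i]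
          · simp
          · intro j _ hji
            exact Pi.single_eq_of_ne hji _
          · intro hh
            exact absurd hi hh
        rw [h1]
        push_cast at hn
        have : (1 : ℤ) ≤ m := hmz
        linarith
    · push Not at h0
      refine ih hT hd hg ?_
      have : (∑ i ∈ S, T i) ≤ 0 := Finset.sum_nonpos h0
      have h2 : (0 : ℤ) ≤ n := by positivity
      linarith

end KM
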