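import Mathlib

/-! KM part A, file 0: Frobenius systems.  Plan: h54_KM.md in the team store. -/

namespace KM

/-- `ψ` is additive and `ψ (x ^ Q * y) = x * ψ y` (a `Q⁻¹`-linear map). -/
structure IsInv {L : Type*} [Field L] (Q : ℕ) (ψ : L → L) : Prop where
  add : ∀ x y, ψ (x + y) = ψ x + ψ y
  lin : ∀ x y, ψ (x ^ Q * y) = x * ψ y

/-- `m` times the `i`-th unit vector. -/
abbrev e {I : Type*} [DecidableEq I] (i : I) (m : ℤ) : I → ℤ := Pi.single i m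

/-- vectors supported in `S` -/
def Zs {I : Type*} (S : Finset I) : Set (I → ℤ) := {t | ∀ i ∉ S, t i = 0}

/-- nonnegative vectors supported in `S` -/
def Nn {I : Type*} (S : Finset I) : Set (I → ℤ) := {t | (∀ i, 0 ≤ t i) ∧ ∀ i ∉ S, t i = 0}

/-- ratios of elements of the same degree in `Nn S` -/
def Rat {L I : Type*} [Field L] {K : Subfield L} (V : (I → ℤ) → Submodule K L) (S : Finset I) :
    Set L := {x | ∃ u ∈ Nn S, ∃ g ∈ V u, ∃ h ∈ V u, h ≠ 0 ∧ x = g / h}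

/-- the field of ratios -/
def LS {L I : Type*} [Field L] {K : Subfield L} (V : (I → ℤ) → Submodule K L) (S : Finset I) :
    Subfield L := Subfield.closure (Rat V S)

/-- transcendence degree over `K` of the field generated by a set -/
noncomputable def rk {L : Type*} [Field L] (K : Subfield L) (X : Set L) : ℕ∞ :=
  (AlgebraicIndependent.matroid K L).eRk X

/-- `ν(S)` -/
noncomputable def nu {L I : Type*} [Field L] {K : Subfield L} (V : (I → ℤ) → Submodule K L)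
    (S : Finset I) : ℕ∞ := rk K (Rat V S)

/-- (A1) - (A4) with active index set `S` -/
structure Sys {L I : Type*} [Field L] [DecidableEq I] (K : Subfield L)
    (V : (I → ℤ) → Submodule K L) (S : Finset I) (m₀ : ℕ) : Prop where
  pos : 0 < m₀
  fg : ∀ t ∈ Zs S, (V t).FG
  zero : ∀ x, x ∈ V 0 ↔ x ∈ K
  mul : ∀ s ∈ Zs S, ∀ t ∈ Zs S, ∀ x ∈ V s, ∀ y ∈ V t, x * y ∈ V (s + t)
  two : ∀ i ∈ S, ∃ m : ℕ, ∃ x ∈ V (e i m), ∃ y ∈ V (e i m), y ≠ 0 ∧ x / y ∉ K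
  ic : ∀ s ∈ Zs S, ∀ (y : L) (r : ℕ) (c : ℕ → L), (∀ j ≤ r, c j ∈ V ((j + 1) • s)) →
    y ^ (r + 1) = ∑ j ∈ Finset.range (r + 1), c j * y ^ (r - j) → y ∈ V s
  reg : ∀ m : ℕ, m₀ ≤ m → ∀ i ∈ S, ∃ C : ℕ, ∀ v ∈ Nn S, (C : ℤ) ≤ v i →
    V (v + e i m) ≤ V v * V (e i m)
  free : ∀ m : ℕ, m₀ ≤ m → ∀ i ∈ S, ∀ s ∈ Zs S, ∀ g : L,
    (∀ x ∈ V (e i m), g * x ∈ V (s + e i m)) → g ∈ V s

/-- (A5) -/
def Split {L I : Type*} [Field L] (p : ℕ) {K : Subfield L} (V : (I → ℤ) → Submodule K L)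
    (S : Finset I) (a : I → ℝ) : Prop :=
  ∀ u ∈ Nn S, ∀ c ∈ V u, c ≠ 0 → ∃ C : ℝ, ∀ N₀ : ℕ, ∃ N ≥ N₀, ∃ T ∈ Nn S,
    (∀ i ∈ S, ((p : ℝ) ^ N - 1) * a i - C ≤ T i ∧ (T i : ℝ) ≤ ((p : ℝ) ^ N - 1) * a i) ∧
    ∃ ψ : L → L, IsInv (p ^ N) ψ ∧
      (∀ t ∈ Zs S, ∀ y ∈ V ((p ^ N : ℤ) • t + T), ψ y ∈ V t) ∧
      ∃ x ∈ V (T - u), ψ (c * x) = 1

/-- (A5!) -/
def SplitX {L I : Type*} [Field L] (p : ℕ) {K : Subfield L} (V : (I → ℤ) → Submodule K L)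
    (S : Finset I) (a : I → ℝ) : Prop :=
  ∀ u ∈ Nn S, ∀ c ∈ V u, c ≠ 0 → ∀ N₀ : ℕ, ∃ N ≥ N₀, ∃ T ∈ Nn S,
    (∀ i ∈ S, (T i : ℝ) = ((p : ℝ) ^ N - 1) * a i) ∧
    ∃ ψ : L → L, IsInv (p ^ N) ψ ∧
      (∀ t ∈ Zs S, ∀ y ∈ V ((p ^ N : ℤ) • t + T), ψ y ∈ V t) ∧
      ∃ x ∈ V (T - u), ψ (c * x) = 1

/-- `K` is contained in a finitely generated `K ^ p`-submodule of `L` -/
def FF {L : Type*} [Field L] (p : ℕ) [ExpChar L p] (K : Subfield L) : Prop :=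
  ∃ s : Finset L, ∀ x ∈ K, x ∈ Submodule.span (K.map (frobenius L p)) (s : Set L)

/-- `L` is finitely generated over `K` -/
def FG {L : Type*} [Field L] (K : Subfield L) : Prop :=
  ∃ s : Finset L, Subfield.closure ((K : Set L) ∪ s) = ⊤

theorem SplitX.split {L I : Type*} [Field L] {p : ℕ} {K : Subfield L}
    {V : (I → ℤ) → Submodule K L} {S : Finset I} {a : I → ℝ} (h : SplitX p V S a) :
    Split p V S a := by
  intro u hu c hc hc0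
  refine ⟨0, fun N₀ => ?_⟩
  obtain ⟨N, hN, T, hT, h1, h2⟩ := h u hu c hc hc0 N₀
  exact ⟨N, hN, T, hT, fun i hi => by rw [h1 i hi]; constructor <;> linarith, h2⟩

end KM
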