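import Mathlib

/-! KM part A, file 25a: Bezout's identity for two coprime polynomials with degree bounds. -/

namespace KM

open Polynomial

theorem bezout_deg_aux {K : Type*} [Field K] {P Q : K[X]} (hPQ : IsCoprime P Q) {m M : ℕ}
    (hm : 1 ≤ m) (hP : P.natDegree = m) (hQ : Q.natDegree ≤ m) (hM : 2 * m ≤ M) {F : K[X]}
    (hF : F.natDegree ≤ M) :
    ∃ A B : K[X], A.natDegree ≤ M - m ∧ B.natDegree ≤ M - m ∧ F = P * A + Q * B := by
  obtain ⟨U, W, hUW⟩ := hPQ
  have hB : ((W * F) % P).natDegree < m := by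
    rw [← hP]
    exact natDegree_mod_lt _ (by omega)
  have hdm : P * (W * F / P) + (W * F) % P = W * F := EuclideanDomain.div_add_mod _ _
  have key : F = P * (U * F + Q * (W * F / P)) + Q * ((W * F) % P) := by
    have h1 : P * (U * F + Q * (W * F / P)) + Q * ((W * F) % P) =
        (U * P) * F + Q * (P * (W * F / P) + (W * F) % P) := by ring
    rw [h1, hdm]
    linear_combination (-F) * hUW
  refine ⟨U * F + Q * (W * F / P), (W * F) % P, ?_, by omega, key⟩
  by_cases hA : U * F + Q * (W * F / P) = 0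
  · rw [hA]
    simp
  have hP0 : P ≠ 0 := by
    rintro rfl
    rw [natDegree_zero] at hP
    omega
  have h2 : P * (U * F + Q * (W * F / P)) = F - Q * ((W * F) % P) :=
    eq_sub_of_add_eq key.symm
  have h3 : (P * (U * F + Q * (W * F / P))).natDegree ≤ M := by
    rw [h2]
    refine (natDegree_sub_le _ _).trans (max_le hF ?_)
    refine natDegree_mul_le.trans ?_
    omega
  rw [natDegree_mul hP0 hA, hP] at h3
  omega

/-- forms of degree `M ≥ 2 m` are combinations of two coprime forms of degree `m`, one variable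
version -/
theorem bezout_deg {K : Type*} [Field K] {P Q : K[X]} (hPQ : IsCoprime P Q) {m M : ℕ}
    (hm : 1 ≤ m) (hP : P.natDegree ≤ m) (hQ : Q.natDegree ≤ m)
    (hor : P.natDegree = m ∨ Q.natDegree = m) (hM : 2 * m ≤ M) {F : K[X]}
    (hF : F.natDegree ≤ M) :
    ∃ A B : K[X], A.natDegree ≤ M - m ∧ B.natDegree ≤ M - m ∧ F = P * A + Q * B := by
  rcases hor with h | h
  · exact bezout_deg_aux hPQ hm h hQ hM hF
  · obtain ⟨A, B, h1, h2, h3⟩ := bezout_deg_aux hPQ.symm hm h hP hM hF
    exact ⟨B, A, h2, h1, by rw [h3]; ring⟩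

end KM
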