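import Pool.Agent.Lib.MP_732f67_ag.KM.Eq1A
import Pool.Agent.Lib.MP_732f67_ag.KM.Eq1B

/-! KM part A, file 25: pencils (E1).

`exists_pencil`: `V (e i 1)` has dimension `2`: `s₀, s₁` with `s₁ / s₀ ∉ K`, transcendental over `K`
(`alg`), so the `l + 1` products `s₀ ^ k * s₁ ^ (l - k)` are independent
(`linearIndependent_pow_of_transcendental`) in `V (e i l)`, which has dimension `l + 1`.
`Pencil.free`: `g * V (e i m₀) ⊆ g * s₀ * V (e i (m₀ - 1)) + g * s₁ * V (e i (m₀ - 1))` (`gen`), then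
`free` with `m = m₀` (if `m₀ = 1` the second factors are in `V 0`).
`Pencil.link`: `Rat V {i} = K (s₁ / s₀)` (`gen`; elements of `Nn {i}` are `e i l`), so `r₁ / r₀` is
`P / P'` with coprime forms of the same degree `m` in `s₀, s₁` (cancel common factors; in one
variable: coprime polynomials in `θ = s₁ / s₀` of degrees `≤ m`, one of them of degree `m`, homogenised
with `s₀ ^ m`).  `g = r₀ / P' = r₁ / P`.  Forms of degree `M ≥ 2 m` are `P * A + P' * A'` with
forms `A`, `A'` of degree `M - m` (Bezout; if `deg P' < m` work with the division by `P`, or treat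
`s₀` as the variable), so `g * V (e i M) ⊆ V (e j 1 + e i (M - m))`, and by `free`
(`M ≥ m₀`) `g ∈ V (e j 1 - e i m)`.  Then `g * V (e i m) ⊆ V (e j 1)` compares dimensions:
`m + 1 ≤ 2`.  `m = 0` is impossible (`r₁ / r₀ ∉ K`), so `m = 1` and `g * V (e i 1) = V (e j 1)`;
`g⁻¹ r₀, g⁻¹ r₁ ∈ V (e i 1)` and `Pencil.free` for `j` give `g⁻¹ ∈ V (e i 1 - e j 1)`. -/

namespace KM

variable {L I : Type*} [Field L] [DecidableEq I] {K : Subfield L}
  {V : (I → ℤ) → Submodule K L} {S : Finset I} {m₀ : ℕ}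

/-- homogenised polynomials are forms -/
theorem form_mem (h : Sys K V S m₀) {i : I} (hi : i ∈ S) {s₀ s₁ : L} (h0 : s₀ ∈ V (e i 1))
    (h1 : s₁ ∈ V (e i 1)) (hne : s₀ ≠ 0) {N : ℕ} {A : Polynomial K} (hA : A.natDegree ≤ N) :
    s₀ ^ N * Polynomial.aeval (s₁ / s₀) A ∈ V (e i N) := by
  rw [Polynomial.aeval_eq_sum_range' (n := N + 1) (by omega), Finset.mul_sum]
  refine (V (e i N)).sum_mem fun k hk => ?_
  have hk' : k ≤ N := by
    have := Finset.mem_range.1 hk
    omega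
  have e1 : s₀ ^ N * (A.coeff k • (s₁ / s₀) ^ k) = A.coeff k • (s₀ ^ (N - k) * s₁ ^ k) := by
    rw [mul_smul_comm]
    congr 1
    have e2 : s₀ ^ N = s₀ ^ (N - k) * s₀ ^ k := by
      rw [← pow_add]
      congr 1
      omega
    rw [e2, div_pow, mul_assoc, mul_div_cancel₀ _ (pow_ne_zero k hne)]
  rw [e1]
  refine (V (e i N)).smul_mem _ ?_
  have h2 := h.mul _ (Zs_nsmul (Zs_e hi 1) (N - k)) _ (Zs_nsmul (Zs_e hi 1) k) _
    (h.pow_mem (Zs_e hi 1) h0 (N - k)) _ (h.pow_mem (Zs_e hi 1) h1 k)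
  have h3 : (N - k) • e i (1 : ℤ) + k • e i (1 : ℤ) = e i (N : ℤ) := by
    rw [← add_nsmul, Nat.sub_add_cancel hk', e_nsmul, mul_one]
  rwa [h3] at h2

/-- all forms are homogenised polynomials -/
theorem Pencil.exists_poly {i : I} {s₀ s₁ : L} (hP : Pencil V i s₀ s₁) {l : ℕ} {y : L}
    (hy : y ∈ V (e i l)) :
    ∃ A : Polynomial K, A.natDegree ≤ l ∧ y = s₀ ^ l * Polynomial.aeval (s₁ / s₀) A := by
  obtain ⟨c, hc, rfl⟩ := hP.gen l y hy
  refine ⟨∑ k ∈ Finset.range (l + 1), Polynomial.monomial (l - k) (⟨c k, hc k⟩ : K), ?_, ?_⟩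
  · refine Polynomial.natDegree_sum_le_of_forall_le _ _ fun k _ => ?_
    exact (Polynomial.natDegree_monomial_le _).trans (Nat.sub_le _ _)
  · rw [map_sum, Finset.mul_sum]
    refine Finset.sum_congr rfl fun k hk => ?_
    have hk' : k ≤ l := by
      have := Finset.mem_range.1 hk
      omega
    rw [Polynomial.aeval_monomial]
    have e1 : algebraMap K L (⟨c k, hc k⟩ : K) = c k := rfl
    have e2 : s₀ ^ l = s₀ ^ k * s₀ ^ (l - k) := by
      rw [← pow_add]
      congr 1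
      omega
    rw [e1, e2, div_pow]
    have h0 : s₀ ^ (l - k) ≠ 0 := pow_ne_zero _ hP.ne₀
    field_simp

theorem Pencil.transc (h : Sys K V S m₀) {i : I} {s₀ s₁ : L} (hP : Pencil V i s₀ s₁) :
    Transcendental K (s₁ / s₀) := fun hal => hP.ratio (h.alg hal)

theorem Pencil.link (h : Sys K V S m₀) {i j : I} (hi : i ∈ S) (hj : j ∈ S) {s₀ s₁ r₀ r₁ : L}
    (hP : Pencil V i s₀ s₁) (hR : Pencil V j r₀ r₁) (hL : r₁ / r₀ ∈ LS V {i}) :
    ∃ g, g ≠ 0 ∧ g ∈ V (e j 1 - e i 1) ∧ g⁻¹ ∈ V (e i 1 - e j 1) := by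
  classical
  have htr := hP.transc h
  have hs0 := hP.ne₀
  have hr0 := hR.ne₀
  have hae : ∀ A : Polynomial K, A ≠ 0 → Polynomial.aeval (s₁ / s₀) A ≠ 0 :=
    fun A hA h1 => htr ⟨A, hA, h1⟩
  -- the coprime polynomials
  obtain ⟨P, Q, hPQ, hP0, hQ0, hrat⟩ : ∃ P Q : Polynomial K, IsCoprime P Q ∧ P ≠ 0 ∧ Q ≠ 0 ∧
      r₁ * Polynomial.aeval (s₁ / s₀) Q = r₀ * Polynomial.aeval (s₁ / s₀) P := by
    rw [h.mem_LS (Finset.singleton_subset_iff.2 hi)] at hL
    obtain ⟨u, hu, g, hg, k, hk, hk0, hgk⟩ := hL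
    obtain ⟨l, hl⟩ := Int.eq_ofNat_of_zero_le (hu.1 i)
    have hul : u = e i (l : ℤ) := by
      funext a
      rcases eq_or_ne a i with rfl | ha
      · rw [e_same]
        exact hl
      · rw [e_ne ha]
        exact hu.2 a (fun h1 => ha (Finset.mem_singleton.1 h1))
    subst hul
    obtain ⟨G, _, hG⟩ := hP.exists_poly hg
    obtain ⟨H, _, hH⟩ := hP.exists_poly hk
    have hH0 : H ≠ 0 := by
      rintro rfl
      rw [map_zero, mul_zero] at hH
      exact hk0 hH
    have hr1 : r₁ ≠ 0 := hR.ne₁ h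
    have hg0 : g ≠ 0 := by
      rintro rfl
      rw [zero_div, div_eq_zero_iff] at hgk
      exact hgk.elim hr1 hr0
    have hG0 : G ≠ 0 := by
      rintro rfl
      rw [map_zero, mul_zero] at hG
      exact hg0 hG
    have hD0 : EuclideanDomain.gcd G H ≠ 0 := fun h1 =>
      hG0 (EuclideanDomain.gcd_eq_zero_iff.1 h1).1
    obtain ⟨P, hPe⟩ := EuclideanDomain.gcd_dvd_left G H
    obtain ⟨Q, hQe⟩ := EuclideanDomain.gcd_dvd_right G H
    have hbz := EuclideanDomain.gcd_eq_gcd_ab G H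
    refine ⟨P, Q, ⟨EuclideanDomain.gcdA G H, EuclideanDomain.gcdB G H, ?_⟩, ?_, ?_, ?_⟩
    · apply mul_left_cancel₀ hD0
      rw [mul_one]
      conv_rhs => rw [hbz]
      linear_combination (-EuclideanDomain.gcdA G H) * hPe - (EuclideanDomain.gcdB G H) * hQe
    · rintro rfl
      rw [mul_zero] at hPe
      exact hG0 hPe
    · rintro rfl
      rw [mul_zero] at hQe
      exact hH0 hQe
    · have hD := hae _ hD0
      have e1 : Polynomial.aeval (s₁ / s₀) G = Polynomial.aeval (s₁ / s₀)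
          (EuclideanDomain.gcd G H) * Polynomial.aeval (s₁ / s₀) P := by
        rw [← map_mul, ← hPe]
      have e2 : Polynomial.aeval (s₁ / s₀) H = Polynomial.aeval (s₁ / s₀)
          (EuclideanDomain.gcd G H) * Polynomial.aeval (s₁ / s₀) Q := by
        rw [← map_mul, ← hQe]
      rw [div_eq_div_iff hr0 hk0, hG, hH, e1, e2] at hgk
      apply mul_left_cancel₀ hD
      apply mul_left_cancel₀ (pow_ne_zero l hs0)
      linear_combination hgk
  set m := max P.natDegree Q.natDegree with hm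
  have hPm : P.natDegree ≤ m := le_max_left _ _
  have hQm : Q.natDegree ≤ m := le_max_right _ _
  have hor : P.natDegree = m ∨ Q.natDegree = m := by
    rcases le_total P.natDegree Q.natDegree with h1 | h1
    · right
      rw [hm, max_eq_right h1]
    · left
      rw [hm, max_eq_left h1]
  have hm1 : 1 ≤ m := by
    by_contra hcon
    have hp : P.natDegree = 0 := by omega
    have hq : Q.natDegree = 0 := by omega
    apply hR.ratio
    rw [Polynomial.eq_C_of_natDegree_eq_zero hp, Polynomial.eq_C_of_natDegree_eq_zero hq,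
      Polynomial.aeval_C, Polynomial.aeval_C] at hrat
    have hq0 : algebraMap K L (Q.coeff 0) ≠ 0 := by
      have := hae Q hQ0
      rwa [Polynomial.eq_C_of_natDegree_eq_zero hq, Polynomial.aeval_C] at this
    have e1 : r₁ / r₀ = algebraMap K L (P.coeff 0) / algebraMap K L (Q.coeff 0) := by
      rw [div_eq_div_iff hr0 hq0]
      linear_combination hrat
    rw [e1]
    exact K.div_mem (P.coeff 0).2 (Q.coeff 0).2
  -- the two forms and `g`
  set p : L := s₀ ^ m * Polynomial.aeval (s₁ / s₀) P with hp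
  set q : L := s₀ ^ m * Polynomial.aeval (s₁ / s₀) Q with hq
  have hq0 : q ≠ 0 := mul_ne_zero (pow_ne_zero _ hs0) (hae Q hQ0)
  have hp0 : p ≠ 0 := mul_ne_zero (pow_ne_zero _ hs0) (hae P hP0)
  have hpV : p ∈ V (e i m) := form_mem h hi hP.mem₀ hP.mem₁ hs0 hPm
  have hqV : q ∈ V (e i m) := form_mem h hi hP.mem₀ hP.mem₁ hs0 hQm
  set g : L := r₀ / q with hg
  have hg0 : g ≠ 0 := div_ne_zero hr0 hq0
  have hgq : g * q = r₀ := div_mul_cancel₀ _ hq0
  have hgp : g * p = r₁ := by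
    apply mul_right_cancel₀ hq0
    have e1 : g * p * q = (g * q) * p := by ring
    rw [e1, hgq, hp, hq]
    linear_combination (-s₀ ^ m) * hrat
  have hgm : g ∈ V (e j 1 - e i m) := by
    refine h.free (2 * m + m₀) (by omega) i hi (e j 1 - e i m) (Zs_sub (Zs_e hj _) (Zs_e hi _)) g ?_
    intro x hx
    obtain ⟨F, hF, rfl⟩ := hP.exists_poly hx
    obtain ⟨A, B, hA, hB, hAB⟩ := bezout_deg hPQ hm1 hPm hQm hor
      (show 2 * m ≤ 2 * m + m₀ by omega) hF
    have hAV := form_mem h hi hP.mem₀ hP.mem₁ hs0 hA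
    have hBV := form_mem h hi hP.mem₀ hP.mem₁ hs0 hB
    have e1 : s₀ ^ (2 * m + m₀) * Polynomial.aeval (s₁ / s₀) F =
        p * (s₀ ^ (2 * m + m₀ - m) * Polynomial.aeval (s₁ / s₀) A) +
          q * (s₀ ^ (2 * m + m₀ - m) * Polynomial.aeval (s₁ / s₀) B) := by
      rw [hAB, map_add, map_mul, map_mul, hp, hq]
      have e2 : s₀ ^ (2 * m + m₀) = s₀ ^ m * s₀ ^ (2 * m + m₀ - m) := by
        rw [← pow_add]
        congr 1
        omega
      rw [e2]
      ring
    rw [e1, mul_add, ← mul_assoc g p, ← mul_assoc g q, hgp, hgq]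
    have e3 : e j 1 - e i (m : ℤ) + e i ((2 * m + m₀ : ℕ) : ℤ) =
        e j 1 + e i ((2 * m + m₀ - m : ℕ) : ℤ) := by
      have e4 : ((2 * m + m₀ : ℕ) : ℤ) = (m : ℤ) + ((2 * m + m₀ - m : ℕ) : ℤ) := by
        have : 2 * m + m₀ = m + (2 * m + m₀ - m) := by omega
        conv_lhs => rw [this]
        push_cast
        rfl
      rw [e4, e_add]
      abel
    rw [e3]
    exact (V _).add_mem (h.mul _ (Zs_e hj _) _ (Zs_e hi _) _ hR.mem₁ _ hAV)
      (h.mul _ (Zs_e hj _) _ (Zs_e hi _) _ hR.mem₀ _ hBV)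
  -- dimensions
  have hmle : m ≤ 1 := by
    have hli := linearIndependent_pow_of_transcendental htr (g * s₀ ^ m)
      (mul_ne_zero hg0 (pow_ne_zero _ hs0)) (m + 1)
    have hmem : ∀ a : Fin (m + 1), g * s₀ ^ m * (s₁ / s₀) ^ (a : ℕ) ∈
        Submodule.span K (({r₀, r₁} : Finset L) : Set L) := by
      intro a
      have ha : (a : ℕ) ≤ m := by omega
      have h1 : s₀ ^ m * Polynomial.aeval (s₁ / s₀) (Polynomial.X ^ (a : ℕ) : Polynomial K) ∈
          V (e i m) := form_mem h hi hP.mem₀ hP.mem₁ hs0 (by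
        rw [Polynomial.natDegree_X_pow]
        exact ha)
      rw [map_pow, Polynomial.aeval_X] at h1
      have h2 := h.mul _ (Zs_sub (Zs_e hj _) (Zs_e hi _)) _ (Zs_e hi _) _ hgm _ h1
      rw [sub_add_cancel] at h2
      have h3 : g * s₀ ^ m * (s₁ / s₀) ^ (a : ℕ) ∈ V (e j ((1 : ℕ) : ℤ)) := by
        rw [mul_assoc, Nat.cast_one]
        exact h2
      obtain ⟨c, hc, hce⟩ := hR.gen 1 _ h3
      rw [hce, Finset.sum_range_succ, Finset.sum_range_one]
      refine Submodule.add_mem _ ?_ ?_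
      · have e1 : c 0 * (r₀ ^ 0 * r₁ ^ (1 - 0)) = (⟨c 0, hc 0⟩ : K) • r₁ := by
          rw [pow_zero, one_mul, Nat.sub_zero, pow_one]
          rfl
        rw [e1]
        exact Submodule.smul_mem _ _ (Submodule.subset_span (by simp))
      · have e1 : c 1 * (r₀ ^ 1 * r₁ ^ (1 - 1)) = (⟨c 1, hc 1⟩ : K) • r₀ := by
          rw [Nat.sub_self, pow_zero, mul_one, pow_one]
          rfl
        rw [e1]
        exact Submodule.smul_mem _ _ (Submodule.subset_span (by simp))
    have hli2 : LinearIndependent K fun a : Fin (m + 1) =>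
        (⟨g * s₀ ^ m * (s₁ / s₀) ^ (a : ℕ), hmem a⟩ :
          Submodule.span K (({r₀, r₁} : Finset L) : Set L)) :=
      LinearIndependent.of_comp (Submodule.span K (({r₀, r₁} : Finset L) : Set L)).subtype hli
    have h4 := hli2.fintype_card_le_finrank
    rw [Fintype.card_fin] at h4
    have h5 := finrank_span_finset_le_card (R := K) ({r₀, r₁} : Finset L)
    have h6 : ({r₀, r₁} : Finset L).card ≤ 2 := Finset.card_le_two
    have h7 : m + 1 ≤ 2 := h4.trans (h5.trans h6)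
    omega
  have hm2 : m = 1 := le_antisymm hmle hm1
  rw [hm2, Nat.cast_one] at hgm
  refine ⟨g, hg0, hgm, ?_⟩
  refine hR.free h hj (Zs_sub (Zs_e hi _) (Zs_e hj _)) ?_ ?_
  · rw [sub_add_cancel, ← hgq, inv_mul_cancel_left₀ hg0]
    rw [hm2, Nat.cast_one] at hqV
    exact hqV
  · rw [sub_add_cancel, ← hgp, inv_mul_cancel_left₀ hg0]
    rw [hm2, Nat.cast_one] at hpV
    exact hpV

end KM
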