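import Pool.Agent.Lib.MP_732f67_ag.KM.RatF

/-! KM part A, file 25, part 1: pencils (E1).

`exists_pencil`: `V (e i 1)` has dimension `2`: `s₀, s₁` with `s₁ / s₀ ∉ K`, transcendental over `K`
(`alg`), so the `l + 1` products `s₀ ^ k * s₁ ^ (l - k)` are independent
(`linearIndependent_pow_of_transcendental`) in `V (e i l)`, which has dimension `l + 1`.
`Pencil.free`: `g * V (e i m₀) ⊆ g * s₀ * V (e i (m₀ - 1)) + g * s₁ * V (e i (m₀ - 1))` (`gen`), then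
`free` with `m = m₀` (if `m₀ = 1` the second factors are in `V 0`). -/

namespace KM

variable {L I : Type*} [Field L] [DecidableEq I] {K : Subfield L}
  {V : (I → ℤ) → Submodule K L} {S : Finset I} {m₀ : ℕ}

/-- `s₀, s₁` is a basis of `V (e i 1)` and generates all `V (e i l)` -/
structure Pencil (V : (I → ℤ) → Submodule K L) (i : I) (s₀ s₁ : L) : Prop where
  mem₀ : s₀ ∈ V (e i 1)
  mem₁ : s₁ ∈ V (e i 1)
  ne₀ : s₀ ≠ 0
  ratio : s₁ / s₀ ∉ K
  gen : ∀ l : ℕ, ∀ y ∈ V (e i l), ∃ c : ℕ → L, (∀ k, c k ∈ K) ∧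
    y = ∑ k ∈ Finset.range (l + 1), c k * (s₀ ^ k * s₁ ^ (l - k))

/-- products of `a` factors `s₀` and `b` factors `s₁` -/
theorem pencil_mem (h : Sys K V S m₀) {i : I} (hi : i ∈ S) {s₀ s₁ : L} (h0 : s₀ ∈ V (e i 1))
    (h1 : s₁ ∈ V (e i 1)) (a b l : ℕ) (hl : a + b = l) : s₀ ^ a * s₁ ^ b ∈ V (e i l) := by
  have ha := h.pow_mem (Zs_e hi 1) h0 a
  have hb := h.pow_mem (Zs_e hi 1) h1 b
  have hm := h.mul _ (Zs_nsmul (Zs_e hi 1) a) _ (Zs_nsmul (Zs_e hi 1) b) _ ha _ hb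
  rw [e_nsmul, e_nsmul, ← e_add] at hm
  have e1 : (a : ℤ) * 1 + b * 1 = (l : ℤ) := by
    rw [← hl]
    push_cast
    ring
  rwa [e1] at hm

theorem pencil_ne (K : Subfield L) {s₀ s₁ : L} (hr : s₁ / s₀ ∉ K) : s₁ ≠ 0 := by
  rintro rfl
  rw [zero_div] at hr
  exact hr K.zero_mem

theorem pencil_li (h : Sys K V S m₀) {s₀ s₁ : L} (h0 : s₀ ≠ 0) (hr : s₁ / s₀ ∉ K) (l : ℕ) :
    LinearIndependent K fun k : Fin (l + 1) => s₀ ^ (k : ℕ) * s₁ ^ (l - (k : ℕ)) := by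
  have h1 := pencil_ne K hr
  have htr : Transcendental K (s₀ / s₁) := by
    intro hal
    apply hr
    have h2 := K.inv_mem (h.alg hal)
    rwa [inv_div] at h2
  have hli := linearIndependent_pow_of_transcendental htr (s₁ ^ l) (pow_ne_zero _ h1) (l + 1)
  have e1 : (fun k : Fin (l + 1) => s₀ ^ (k : ℕ) * s₁ ^ (l - (k : ℕ))) =
      fun a : Fin (l + 1) => s₁ ^ l * (s₀ / s₁) ^ (a : ℕ) := by
    funext k
    have hk : (k : ℕ) ≤ l := Nat.lt_succ_iff.1 k.2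
    have e2 : s₁ ^ l = s₁ ^ (l - (k : ℕ)) * s₁ ^ (k : ℕ) := by
      rw [← pow_add, Nat.sub_add_cancel hk]
    rw [div_pow, e2]
    field_simp
  rw [e1]
  exact hli

theorem exists_pencil (h : Sys K V S m₀) {i : I} (hi : i ∈ S)
    (hH : ∀ l : ℕ, Module.finrank K (V (e i l)) = (l + 1).choose 1) :
    ∃ s₀ s₁, Pencil V i s₀ s₁ := by
  classical
  have hfin : ∀ l : ℕ, Module.Finite K (V (e i l)) := fun l =>
    Module.Finite.iff_fg.2 (h.fg _ (Zs_e hi l))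
  have h2 : Module.finrank K (V (e i 1)) = 2 := by
    have := hH 1
    rwa [Nat.choose_one_right, Nat.cast_one] at this
  obtain ⟨s₀, hs₀, hs₀0⟩ : ∃ x ∈ V (e i 1), x ≠ 0 := by
    by_contra hcon
    push Not at hcon
    have hbot : V (e i 1) = ⊥ := (Submodule.eq_bot_iff _).2 hcon
    rw [hbot, finrank_bot] at h2
    omega
  obtain ⟨s₁, hs₁, hs₁'⟩ : ∃ x ∈ V (e i 1), x / s₀ ∉ K := by
    by_contra hcon
    push Not at hcon
    have hle : V (e i 1) ≤ Submodule.span K {s₀} := by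
      intro x hx
      rw [Submodule.mem_span_singleton]
      refine ⟨⟨x / s₀, hcon x hx⟩, ?_⟩
      show x / s₀ * s₀ = x
      exact div_mul_cancel₀ _ hs₀0
    have h3 := Submodule.finrank_mono hle
    have h4 : Module.finrank K (Submodule.span K {s₀}) = 1 := finrank_span_singleton hs₀0
    omega
  refine ⟨s₀, s₁, hs₀, hs₁, hs₀0, hs₁', fun l y hy => ?_⟩
  have hli := pencil_li h hs₀0 hs₁' l
  let F : Fin (l + 1) → V (e i l) := fun k =>
    ⟨s₀ ^ (k : ℕ) * s₁ ^ (l - (k : ℕ)), pencil_mem h hi hs₀ hs₁ _ _ _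
      (Nat.add_sub_cancel' (Nat.lt_succ_iff.1 k.2))⟩
  have hF : LinearIndependent K F := LinearIndependent.of_comp (V (e i l)).subtype hli
  have := hfin l
  have hspan := hF.span_eq_top_of_card_eq_finrank' (by
    rw [Fintype.card_fin, hH l, Nat.choose_one_right])
  have hmem : (⟨y, hy⟩ : V (e i l)) ∈ Submodule.span K (Set.range F) := by
    rw [hspan]
    exact Submodule.mem_top
  obtain ⟨g, hg⟩ := (Submodule.mem_span_range_iff_exists_fun K).1 hmem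
  refine ⟨fun k => if hk : k < l + 1 then (g ⟨k, hk⟩ : L) else 0, fun k => ?_, ?_⟩
  · dsimp only
    split_ifs with hk
    · exact (g ⟨k, hk⟩).2
    · exact K.zero_mem
  · have h5 := congrArg Subtype.val hg
    rw [AddSubmonoidClass.coe_finsetSum] at h5
    rw [Finset.sum_range]
    refine h5.symm.trans (Finset.sum_congr rfl fun k _ => ?_)
    dsimp only
    rw [dif_pos k.2]
    rfl

theorem Pencil.ne₁ (h : Sys K V S m₀) {i : I} {s₀ s₁ : L} (hP : Pencil V i s₀ s₁) :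
    s₁ ≠ 0 := pencil_ne K hP.ratio

theorem Pencil.indep (h : Sys K V S m₀) {i : I} {s₀ s₁ : L} (hP : Pencil V i s₀ s₁) (l : ℕ)
    (c : ℕ → L) (hc : ∀ k, c k ∈ K)
    (h0 : ∑ k ∈ Finset.range (l + 1), c k * (s₀ ^ k * s₁ ^ (l - k)) = 0) :
    ∀ k ≤ l, c k = 0 := by
  have hli := Fintype.linearIndependent_iff.1 (pencil_li h hP.ne₀ hP.ratio l)
    (fun k => ⟨c k, hc k⟩) (by
      rw [Finset.sum_range] at h0
      exact h0)
  intro k hk
  exact congrArg Subtype.val (hli ⟨k, Nat.lt_succ_iff.2 hk⟩)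

theorem Pencil.free (h : Sys K V S m₀) {i : I} (hi : i ∈ S) {s₀ s₁ : L} (hP : Pencil V i s₀ s₁)
    {s : I → ℤ} (hs : s ∈ Zs S) {g : L} (h0 : g * s₀ ∈ V (s + e i 1))
    (h1 : g * s₁ ∈ V (s + e i 1)) : g ∈ V s := by
  refine h.free m₀ le_rfl i hi s hs g fun x hx => ?_
  obtain ⟨c, hc, rfl⟩ := hP.gen m₀ x hx
  rw [Finset.mul_sum]
  refine (V _).sum_mem fun k hk => ?_
  have hk' : k ≤ m₀ := Nat.lt_succ_iff.1 (Finset.mem_range.1 hk)
  have hpos := h.pos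
  have key : ∀ r, r ∈ V (s + e i 1) → ∀ a b : ℕ, a + b + 1 = m₀ →
      c k * (r * (s₀ ^ a * s₁ ^ b)) ∈ V (s + e i m₀) := by
    intro r hr a b hab
    have h2 := h.mul _ (Zs_add hs (Zs_e hi 1)) _ (Zs_e hi ((a + b : ℕ) : ℤ)) _ hr _
      (pencil_mem h hi hP.mem₀ hP.mem₁ a b _ rfl)
    rw [add_assoc, ← e_add] at h2
    have e1 : (1 : ℤ) + ((a + b : ℕ) : ℤ) = (m₀ : ℤ) := by
      rw [← hab]
      push_cast
      ring
    rw [e1] at h2
    exact (V _).smul_mem (⟨c k, hc k⟩ : K) h2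
  rcases Nat.eq_zero_or_pos k with rfl | hk0
  · have h2 := key _ h1 0 (m₀ - 1) (by omega)
    have e2 : g * (c 0 * (s₀ ^ 0 * s₁ ^ (m₀ - 0))) =
        c 0 * (g * s₁ * (s₀ ^ 0 * s₁ ^ (m₀ - 1))) := by
      have e3 : s₁ ^ (m₀ - 0) = s₁ * s₁ ^ (m₀ - 1) := by
        rw [← pow_succ']
        congr 1
        omega
      rw [e3]
      ring
    rw [e2]
    exact h2
  · have h2 := key _ h0 (k - 1) (m₀ - k) (by omega)
    have e2 : g * (c k * (s₀ ^ k * s₁ ^ (m₀ - k))) =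
        c k * (g * s₀ * (s₀ ^ (k - 1) * s₁ ^ (m₀ - k))) := by
      have e3 : s₀ ^ k = s₀ * s₀ ^ (k - 1) := by
        rw [← pow_succ']
        congr 1
        omega
      rw [e3]
      ring
    rw [e2]
    exact h2

end KM
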