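import Pool.Agent.Lib.MP_732f67_ag.KM.Eq1
import Pool.Agent.Lib.MP_732f67_ag.KM.Dec

/-! KM part A, file 26: `V (v + e i 1) = V (e i 1) * V v` (E2).

`Link V i B`: every `j ∈ B` is linearly equivalent to `i`.
`link_mul`: for `T ∈ Nn B` with `∑ T = M` the element `G = ∏ g j ^ (T j)` is nonzero with
`G ∈ V (T - e i M)` and `G⁻¹ ∈ V (e i M - T)`.
`absorb`: `dec` with `S' = B`: `x = ∑ x_k * y_k`, `x_k ∈ V T'`, `T' ∈ Nn B`, `y_k ∈ V (t - T')`;
`M = ∑ T'`, `x_k * G⁻¹ ∈ V (e i M)` is a form of degree `M` in `s₀, s₁` (`gen`), `G * y_k ∈ V (t - e i M)`.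
`e2`: let `C` be the constant of `absorb`; `Split` with `u = 0`, `c = 1`, `N` large: `ψ xT = 1`,
`x = ψ (x ^ Q * xT)`, `x ^ Q * xT ∈ V (Q • (v + e i 1) + T)`, `absorb`: `= ∑ s₀ ^ k * s₁ ^ (M - k) * z k`
with `M ≥ ∑_{B} T + Q - C ≥ 2 * Q - 1`; `k ≥ Q` or `M - k ≥ Q`; e.g. for `k ≥ Q`:
`ψ (s₀ ^ k * ..) = s₀ * ψ (s₀ ^ (k - Q) * s₁ ^ (M - k) * z k)`, argument in
`V (Q • v + T)`, value in `V v`. -/

namespace KM

variable {L I : Type*} [Field L] [DecidableEq I] {K : Subfield L}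
  {V : (I → ℤ) → Submodule K L} {S : Finset I} {m₀ : ℕ} {p : ℕ} {a : I → ℝ}

/-- all elements of `B` are linearly equivalent to `i` -/
def Link (V : (I → ℤ) → Submodule K L) (i : I) (B : Finset I) : Prop :=
  ∀ j ∈ B, ∃ g, g ≠ 0 ∧ g ∈ V (e j 1 - e i 1) ∧ g⁻¹ ∈ V (e i 1 - e j 1)

theorem e_sum (i : I) (B : Finset I) (f : I → ℤ) : ∑ j ∈ B, e i (f j) = e i (∑ j ∈ B, f j) := by
  induction B using Finset.induction_on with
  | empty => rw [Finset.sum_empty, Finset.sum_empty, e_zero]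
  | insert b B hb ih => rw [Finset.sum_insert hb, Finset.sum_insert hb, e_add, ih]

theorem link_mul (h : Sys K V S m₀) {i : I} (hi : i ∈ S) {B : Finset I} (hB : B ⊆ S)
    (hL : Link V i B) {T : I → ℤ} (hT : T ∈ Nn B) :
    ∃ G, G ≠ 0 ∧ G ∈ V (T - e i (∑ j ∈ B, T j)) ∧ G⁻¹ ∈ V (e i (∑ j ∈ B, T j) - T) := by
  classical
  choose! g hg0 hg1 hg2 using hL
  have hn : ∀ j, (((T j).toNat : ℕ) : ℤ) = T j := fun j => Int.toNat_of_nonneg (hT.1 j)
  have s1 : ∑ j ∈ B, (T j).toNat • (e j 1 - e i 1) = T - e i (∑ j ∈ B, T j) := by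
    have h1 : ∑ j ∈ B, e j (T j) = T := sum_e hT.2
    have h2 : ∑ j ∈ B, (T j).toNat • (e j 1 - e i 1) = ∑ j ∈ B, (e j (T j) - e i (T j)) :=
      Finset.sum_congr rfl fun j _ => by
        rw [smul_sub, e_nsmul, e_nsmul, hn, mul_one]
    rw [h2, Finset.sum_sub_distrib, h1, e_sum]
  have s2 : ∑ j ∈ B, (T j).toNat • (e i 1 - e j 1) = e i (∑ j ∈ B, T j) - T := by
    rw [← neg_sub T, ← s1, ← Finset.sum_neg_distrib]
    refine Finset.sum_congr rfl fun j _ => ?_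
    rw [← smul_neg, neg_sub]
  refine ⟨∏ j ∈ B, g j ^ (T j).toNat,
    Finset.prod_ne_zero_iff.2 fun j hj => pow_ne_zero _ (hg0 j hj), ?_, ?_⟩
  · rw [← s1]
    exact h.prod_mem B _ _
      (fun j hj => Zs_nsmul (Zs_sub (Zs_e (hB hj) _) (Zs_e hi _)) _)
      fun j hj => h.pow_mem (Zs_sub (Zs_e (hB hj) _) (Zs_e hi _)) (hg1 j hj) _
  · rw [← s2, ← Finset.prod_inv_distrib]
    refine h.prod_mem B _ _
      (fun j hj => Zs_nsmul (Zs_sub (Zs_e hi _) (Zs_e (hB hj) _)) _)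
      fun j hj => ?_
    rw [← inv_pow]
    exact h.pow_mem (Zs_sub (Zs_e hi _) (Zs_e (hB hj) _)) (hg2 j hj) _

theorem absorb (h : Sys K V S m₀) {i : I} (hi : i ∈ S) {s₀ s₁ : L} (hP : Pencil V i s₀ s₁)
    {B : Finset I} (hB : B ⊆ S) (hL : Link V i B) :
    ∃ C : ℕ, ∀ t ∈ Nn S, ∀ x ∈ V t, ∃ M : ℕ, ∑ j ∈ B, t j - C ≤ M ∧ (M : ℤ) ≤ ∑ j ∈ B, t j ∧
      ∃ z : ℕ → L, (∀ k, z k ∈ V (t - e i M)) ∧
        x = ∑ k ∈ Finset.range (M + 1), s₀ ^ k * s₁ ^ (M - k) * z k := by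
  obtain ⟨C, hC⟩ := h.dec le_rfl
  refine ⟨B.card * C, fun t ht x hx => ?_⟩
  obtain ⟨T, hT, hT1, hT2, hT3⟩ := hC B hB t ht
  obtain ⟨G, hG0, hG1, hG2⟩ := link_mul h hi hB hL hT
  obtain ⟨M, hM⟩ : ∃ M : ℕ, (M : ℤ) = ∑ j ∈ B, T j :=
    ⟨(∑ j ∈ B, T j).toNat, Int.toNat_of_nonneg (Finset.sum_nonneg fun j _ => hT.1 j)⟩
  rw [← hM] at hG1 hG2
  have hTS : T ∈ Zs S := Nn_Zs (Nn_mono hB hT)
  refine ⟨M, ?_, ?_, ?_⟩
  · rw [hM]
    have h1 : ∑ j ∈ B, (t j - C) ≤ ∑ j ∈ B, T j := Finset.sum_le_sum fun j hj => (hT1 j hj).1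
    rw [Finset.sum_sub_distrib, Finset.sum_const, nsmul_eq_mul] at h1
    push_cast
    linarith
  · rw [hM]
    exact Finset.sum_le_sum fun j hj => (hT1 j hj).2.1
  · refine Submodule.mul_induction_on (hT3 hx) (fun y hy w hw => ?_) fun y w hy hw => ?_
    · have h1 : y * G⁻¹ ∈ V (e i M) := by
        have := h.mul _ hTS _ (Zs_sub (Zs_e hi _) hTS) _ hy _ hG2
        rwa [add_sub_cancel] at this
      obtain ⟨c, hc, hcy⟩ := hP.gen M _ h1
      have h2 : G * w ∈ V (t - e i M) := by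
        have := h.mul _ (Zs_sub hTS (Zs_e hi _)) _ (Nn_Zs hT2) _ hG1 _ hw
        have e1 : T - e i (M : ℤ) + (t - T) = t - e i (M : ℤ) := by abel
        rwa [e1] at this
      refine ⟨fun k => c k * (G * w), fun k => ?_, ?_⟩
      · exact (V (t - e i M)).smul_mem (⟨c k, hc k⟩ : K) h2
      · have e1 : y * w = y * G⁻¹ * (G * w) := by
          field_simp
        rw [e1, hcy, Finset.sum_mul]
        exact Finset.sum_congr rfl fun k _ => by ring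
    · obtain ⟨z, hz, rfl⟩ := hy
      obtain ⟨z', hz', rfl⟩ := hw
      refine ⟨fun k => z k + z' k, fun k => (V _).add_mem (hz k) (hz' k), ?_⟩
      rw [← Finset.sum_add_distrib]
      exact Finset.sum_congr rfl fun k _ => by ring

/-- (E2) -/
theorem e2 (h : Sys K V S m₀) (hp : 2 ≤ p) (hs : Split p V S a) (ha : ∀ i ∈ S, 0 < a i) {i : I}
    {B : Finset I} (hiB : i ∈ B) (hB : B ⊆ S) {s₀ s₁ : L} (hP : Pencil V i s₀ s₁)
    (hL : Link V i B) (hsum : ∑ j ∈ B, a j = 2) {v : I → ℤ} (hv : v ∈ Nn S) :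
    ∀ x ∈ V (v + e i 1), ∃ y₀ ∈ V v, ∃ y₁ ∈ V v, x = s₀ * y₀ + s₁ * y₁ := by
  intro x hx
  have hi : i ∈ S := hB hiB
  obtain ⟨C, hC⟩ := absorb h hi hP hB hL
  obtain ⟨C', hC'⟩ := hs 0 Nn_zero 1 h.one_mem one_ne_zero
  obtain ⟨N₀, hN₀⟩ : ∃ N₀ : ℕ, (C : ℝ) + B.card * C' + 1 ≤ N₀ := exists_nat_ge _
  obtain ⟨N, hN, T, hT, hTa, ψ, hψ, hψV, xT, hxT, hψ1⟩ := hC' N₀
  obtain ⟨Q, hQ⟩ : ∃ Q : ℕ, Q = p ^ N := ⟨_, rfl⟩
  have hQN : N₀ ≤ Q := by
    rw [hQ]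
    exact hN.trans (Nat.lt_pow_self (by omega)).le
  have hQz : ((p : ℤ) ^ N) = (Q : ℤ) := by rw [hQ]; push_cast; rfl
  have hQr : ((p : ℝ) ^ N) = (Q : ℝ) := by rw [hQ]; push_cast; rfl
  rw [← hQ] at hψ
  rw [hQz] at hψV
  rw [hQr] at hTa
  rw [one_mul] at hψ1
  rw [sub_zero] at hxT
  have hQ1 : 1 ≤ Q := by
    rw [hQ]
    exact Nat.one_le_pow _ _ (by omega)
  -- the vector
  have htS : (Q : ℤ) • (v + e i 1) + T ∈ Nn S := by
    have h1 : (Q : ℤ) • (v + e i 1) = Q • (v + e i 1) := natCast_zsmul _ _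
    rw [h1]
    exact Nn_add (Nn_nsmul (Nn_add hv (Nn_e hi zero_le_one)) Q) hT
  have hxQ : x ^ Q * xT ∈ V ((Q : ℤ) • (v + e i 1) + T) := by
    have h1 := h.pow_mem (Zs_add (Nn_Zs hv) (Zs_e hi 1)) hx Q
    rw [← natCast_zsmul] at h1
    refine h.mul _ ?_ _ (Nn_Zs hT) _ h1 _ hxT
    rw [natCast_zsmul]
    exact Zs_nsmul (Zs_add (Nn_Zs hv) (Zs_e hi 1)) Q
  obtain ⟨M, hM1, hM2, z, hz, hxz⟩ := hC _ htS _ hxQ
  -- `M` is large
  have hM : 2 * Q ≤ M + 1 := by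
    have h1 : ∑ j ∈ B, ((Q : ℤ) • (v + e i 1) + T) j =
        Q * ∑ j ∈ B, v j + Q + ∑ j ∈ B, T j := by
      have e1 : ∀ j, ((Q : ℤ) • (v + e i 1) + T) j = Q * v j + Q * e i 1 j + T j := by
        intro j
        rw [Pi.add_apply, Pi.smul_apply, Pi.add_apply, smul_eq_mul]
        ring
      rw [Finset.sum_congr rfl fun j _ => e1 j, Finset.sum_add_distrib, Finset.sum_add_distrib,
        ← Finset.mul_sum, ← Finset.mul_sum]
      have e2 : ∑ j ∈ B, e i 1 j = (1 : ℤ) := by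
        rw [Finset.sum_eq_single_of_mem i hiB, e_same]
        intro j _ hj
        exact e_ne hj 1
      rw [e2, mul_one]
    have h2 : (0 : ℤ) ≤ Q * ∑ j ∈ B, v j :=
      mul_nonneg (Int.natCast_nonneg Q) (Finset.sum_nonneg fun j _ => hv.1 j)
    have h3 : ((Q : ℝ) - 1) * 2 - B.card * C' ≤ ∑ j ∈ B, (T j : ℝ) := by
      have h4 : ∑ j ∈ B, (((Q : ℝ) - 1) * a j - C') ≤ ∑ j ∈ B, (T j : ℝ) :=
        Finset.sum_le_sum fun j hj => (hTa j (hB hj)).1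
      rwa [Finset.sum_sub_distrib, ← Finset.mul_sum, hsum, Finset.sum_const, nsmul_eq_mul] at h4
    have h5 : (N₀ : ℝ) ≤ Q := by exact_mod_cast hQN
    rw [h1] at hM1
    have h6 : ((Q * ∑ j ∈ B, v j + Q + ∑ j ∈ B, T j - C : ℤ) : ℝ) ≤ ((M : ℤ) : ℝ) := by
      exact_mod_cast hM1
    have h7 : (0 : ℝ) ≤ ((Q * ∑ j ∈ B, v j : ℤ) : ℝ) := by exact_mod_cast h2
    push_cast at h6 h7
    have h8 : (2 : ℝ) * Q ≤ M + 1 := by linarith
    exact_mod_cast h8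
  -- the pieces
  have hzs : ∀ k, z k ∈ V ((Q : ℤ) • (v + e i 1) + T - e i M) := hz
  have key : ∀ k ∈ Finset.range (M + 1), ∃ y₀ ∈ V v, ∃ y₁ ∈ V v,
      ψ (s₀ ^ k * s₁ ^ (M - k) * z k) = s₀ * y₀ + s₁ * y₁ := by
    intro k hk
    have hkM : k ≤ M := by
      have := Finset.mem_range.1 hk
      omega
    have hmem : ∀ b c : ℕ, b + c + Q = M → s₀ ^ b * s₁ ^ c * z k ∈ V ((Q : ℤ) • v + T) := by
      intro b c hbc
      have h1 := h.mul _ (Zs_nsmul (Zs_e hi 1) b) _ (Zs_nsmul (Zs_e hi 1) c) _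
        (h.pow_mem (Zs_e hi 1) hP.mem₀ b) _ (h.pow_mem (Zs_e hi 1) hP.mem₁ c)
      have h2 := h.mul _ (Zs_add (Zs_nsmul (Zs_e hi 1) b) (Zs_nsmul (Zs_e hi 1) c)) _
        (Zs_sub (Nn_Zs htS) (Zs_e hi _)) _ h1 _ (hzs k)
      have e1 : b • e i 1 + c • e i 1 + ((Q : ℤ) • (v + e i 1) + T - e i (M : ℤ)) =
          (Q : ℤ) • v + T := by
        rw [natCast_zsmul, natCast_zsmul, smul_add, e_nsmul, e_nsmul, e_nsmul]
        have e2 : e i (M : ℤ) = e i ((b : ℤ) * 1) + e i ((c : ℤ) * 1) + e i ((Q : ℤ) * 1) := by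
          rw [← e_add, ← e_add]
          congr 1
          rw [← hbc]
          push_cast
          ring
        rw [e2]
        abel
      rwa [e1] at h2
    by_cases hkQ : Q ≤ k
    · refine ⟨ψ (s₀ ^ (k - Q) * s₁ ^ (M - k) * z k), hψV v (Nn_Zs hv) _ (hmem _ _ (by omega)),
        0, (V v).zero_mem, ?_⟩
      rw [mul_zero, add_zero, ← hψ.lin]
      congr 1
      have e1 : s₀ ^ k = s₀ ^ Q * s₀ ^ (k - Q) := by
        rw [← pow_add]
        congr 1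
        omega
      rw [e1]
      ring
    · refine ⟨0, (V v).zero_mem, ψ (s₀ ^ k * s₁ ^ (M - k - Q) * z k),
        hψV v (Nn_Zs hv) _ (hmem _ _ (by omega)), ?_⟩
      rw [mul_zero, zero_add, ← hψ.lin]
      congr 1
      have e1 : s₁ ^ (M - k) = s₁ ^ Q * s₁ ^ (M - k - Q) := by
        rw [← pow_add]
        congr 1
        omega
      rw [e1]
      ring
  -- the sum
  have hfin : ∀ s : Finset ℕ, (∀ k ∈ s, ∃ y₀ ∈ V v, ∃ y₁ ∈ V v,
      ψ (s₀ ^ k * s₁ ^ (M - k) * z k) = s₀ * y₀ + s₁ * y₁) → ∃ y₀ ∈ V v, ∃ y₁ ∈ V v,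
      ψ (∑ k ∈ s, s₀ ^ k * s₁ ^ (M - k) * z k) = s₀ * y₀ + s₁ * y₁ := by
    intro s
    induction s using Finset.induction_on with
    | empty =>
      intro _
      refine ⟨0, (V v).zero_mem, 0, (V v).zero_mem, ?_⟩
      have h0 : ψ 0 = 0 := by
        have := hψ.add 0 0
        rw [add_zero] at this
        exact left_eq_add.1 this
      rw [Finset.sum_empty, h0]
      ring
    | insert b s hb ih =>
      intro hall
      obtain ⟨y₀, hy₀, y₁, hy₁, hy⟩ := ih fun k hk => hall k (Finset.mem_insert_of_mem hk)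
      obtain ⟨w₀, hw₀, w₁, hw₁, hw⟩ := hall b (Finset.mem_insert_self b s)
      refine ⟨w₀ + y₀, (V v).add_mem hw₀ hy₀, w₁ + y₁, (V v).add_mem hw₁ hy₁, ?_⟩
      rw [Finset.sum_insert hb, hψ.add, hy, hw]
      ring
  obtain ⟨y₀, hy₀, y₁, hy₁, hy⟩ := hfin _ key
  refine ⟨y₀, hy₀, y₁, hy₁, ?_⟩
  rw [← hy, ← hxz, hψ.lin, hψ1, mul_one]

/-- iterated -/
theorem e2_iter (h : Sys K V S m₀) (hp : 2 ≤ p) (hs : Split p V S a) (ha : ∀ i ∈ S, 0 < a i) {i : I}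
    {B : Finset I} (hiB : i ∈ B) (hB : B ⊆ S) {s₀ s₁ : L} (hP : Pencil V i s₀ s₁)
    (hL : Link V i B) (hsum : ∑ j ∈ B, a j = 2) {v : I → ℤ} (hv : v ∈ Nn S) (M : ℕ) :
    ∀ x ∈ V (v + e i M), ∃ z : ℕ → L, (∀ k, z k ∈ V v) ∧
      x = ∑ k ∈ Finset.range (M + 1), s₀ ^ k * s₁ ^ (M - k) * z k := by
  induction M with
  | zero =>
    intro x hx
    refine ⟨fun _ => x, fun _ => ?_, ?_⟩
    · have h0 : v + e i ((0 : ℕ) : ℤ) = v := by
        rw [Nat.cast_zero, e_zero, add_zero]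
      rwa [h0] at hx
    · simp
  | succ M ih =>
    intro x hx
    have h1 : v + e i ((M + 1 : ℕ) : ℤ) = v + e i (M : ℤ) + e i 1 := by
      rw [add_assoc, ← e_add]
      push_cast
      rfl
    rw [h1] at hx
    have hvM : v + e i (M : ℤ) ∈ Nn S := Nn_add hv (Nn_e (hB hiB) (Int.natCast_nonneg M))
    obtain ⟨y₀, hy₀, y₁, hy₁, rfl⟩ := e2 h hp hs ha hiB hB hP hL hsum hvM x hx
    obtain ⟨z, hz, hyz⟩ := ih y₀ hy₀
    obtain ⟨z', hz', hyz'⟩ := ih y₁ hy₁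
    refine ⟨fun k => (if k = 0 then 0 else z (k - 1)) + if k ≤ M then z' k else 0, fun k => ?_, ?_⟩
    · refine (V v).add_mem ?_ ?_
      · split_ifs
        · exact (V v).zero_mem
        · exact hz _
      · split_ifs
        · exact hz' _
        · exact (V v).zero_mem
    · have e1 : ∑ k ∈ Finset.range (M + 1 + 1), s₀ ^ k * s₁ ^ (M + 1 - k) *
          ((if k = 0 then 0 else z (k - 1)) + if k ≤ M then z' k else 0) =
          ∑ k ∈ Finset.range (M + 1 + 1), s₀ ^ k * s₁ ^ (M + 1 - k) *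
            (if k = 0 then 0 else z (k - 1)) +
          ∑ k ∈ Finset.range (M + 1 + 1), s₀ ^ k * s₁ ^ (M + 1 - k) *
            (if k ≤ M then z' k else 0) := by
        rw [← Finset.sum_add_distrib]
        exact Finset.sum_congr rfl fun k _ => by ring
      rw [e1, Finset.sum_range_succ', Finset.sum_range_succ (fun k => s₀ ^ k * s₁ ^ (M + 1 - k) *
            (if k ≤ M then z' k else 0))]
      rw [if_pos rfl, if_neg (by omega), mul_zero, mul_zero, add_zero, add_zero, hyz, hyz',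
        Finset.mul_sum, Finset.mul_sum]
      congr 1
      · refine Finset.sum_congr rfl fun k _ => ?_
        rw [if_neg (Nat.succ_ne_zero k), Nat.add_sub_cancel, Nat.add_sub_add_right, pow_succ]
        ring
      · refine Finset.sum_congr rfl fun k hk => ?_
        have hkM : k ≤ M := by
          have := Finset.mem_range.1 hk
          omega
        rw [if_pos hkM, Nat.succ_sub hkM, pow_succ]
        ring

end KM
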