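import Pool.Agent.Lib.MP_732f67_ag.KM.Eq2

/-! KM part A, file 27: the complement of a pencil block has smaller rank (E3).

Suppose `s₁ / s₀ ∈ LS V (S \ B)`: `s₁ / s₀ = k / c`, `c, k ∈ V u`, `u ∈ Nn (S \ B)`, `c ≠ 0`; then
`k ≠ 0`.  `g = c / s₀ = k / s₁`: `g ∈ V (u - e i 1)` (`Pencil.free`).  `SplitX` for `c`, `u`:
`T j = (Q - 1) a j`, so `∑_{B} T = 2 (Q - 1)`; `x ∈ V (T - u)`, `ψ (c * x) = 1`.
`T - u = w + T_B`, `T_B ∈ Nn B` the part of `T` in `B`, and `w ∈ Nn (S \ B)` for large `N`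
(`a j > 0`; `u` fixed).  `link_mul` for `T_B`: `x * G⁻¹ ∈ V (w + e i (2 (Q - 1)))`, `e2_iter`:
`x = ∑_{k ≤ 2 (Q-1)} s₀ ^ k * s₁ ^ (2 (Q-1) - k) * z k`, `z k ∈ V (T - u - e i (2 (Q - 1)))`.
Every term has `ψ (c * ..) = 0`: `k ≥ Q`: `= s₀ * ψ (c * s₀ ^ (k - Q) * ..)`, the argument is in
`V (T - Q • e i 1)`, the value in `V (- e i 1) = 0` (`neg_zero`); `2 (Q - 1) - k ≥ Q`: the same with
`s₁`; `k = Q - 1`: `c = s₀ * g`, `c * s₀ ^ (Q-1) * s₁ ^ (Q-1) * z = s₀ ^ Q * (g * s₁ ^ (Q-1) * z)`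
and `g * s₁ ^ (Q-1) * z ∈ V (T - Q • e i 1)`.  So `1 = 0`. -/

namespace KM

variable {L I : Type*} [Field L] [DecidableEq I] {K : Subfield L}
  {V : (I → ℤ) → Submodule K L} {S : Finset I} {m₀ : ℕ} {p : ℕ} {a : I → ℝ}

theorem eq3_mem (h : Sys K V S m₀) {i : I} (hi : i ∈ S) {s₀ s₁ : L} (h0 : s₀ ∈ V (e i 1))
    (h1 : s₁ ∈ V (e i 1)) {t : I → ℤ} (ht : t ∈ Zs S) {y : L} (hy : y ∈ V t) (m n : ℕ) :
    s₀ ^ m * s₁ ^ n * y ∈ V (t + e i ((m : ℤ) + n)) := by
  have hE : e i 1 ∈ Zs S := Zs_e hi 1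
  have h2 := h.mul _ (Zs_add (Zs_nsmul hE m) (Zs_nsmul hE n)) _ ht _
    (h.mul _ (Zs_nsmul hE m) _ (Zs_nsmul hE n) _ (h.pow_mem hE h0 m) _ (h.pow_mem hE h1 n)) _ hy
  have h3 : m • e i 1 + n • e i 1 + t = t + e i ((m : ℤ) + n) := by
    rw [e_nsmul, e_nsmul, mul_one, mul_one, e_add, add_comm]
  rwa [h3] at h2

/-- the part of `T` in `B` -/
def eq3_part (B : Finset I) (T : I → ℤ) : I → ℤ := fun j => if j ∈ B then T j else 0

theorem eq3_part_mem {B : Finset I} {T : I → ℤ} (hT : ∀ j, 0 ≤ T j) : eq3_part B T ∈ Nn B := by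
  refine ⟨fun j => ?_, fun j hj => if_neg hj⟩
  unfold eq3_part
  split_ifs
  · exact hT j
  · exact le_rfl

theorem eq3_sum_part (B : Finset I) (T : I → ℤ) : ∑ j ∈ B, eq3_part B T j = ∑ j ∈ B, T j :=
  Finset.sum_congr rfl fun _ hj => if_pos hj

theorem eq3_large (hp : 2 ≤ p) (ha : ∀ i ∈ S, 0 < a i) (u : I → ℤ) :
    ∃ N₀ : ℕ, ∀ N ≥ N₀, ∀ j ∈ S, (u j : ℝ) ≤ ((p : ℝ) ^ N - 1) * a j := by
  have h1 : ∀ j ∈ S, ∀ᶠ N : ℕ in Filter.atTop, (u j : ℝ) ≤ ((p : ℝ) ^ N - 1) * a j := by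
    intro j hj
    have hp1 : (1 : ℝ) < p := by exact_mod_cast hp
    have h2 : Filter.Tendsto (fun N : ℕ => ((p : ℝ) ^ N - 1) * a j) Filter.atTop Filter.atTop :=
      ((Filter.tendsto_atTop_add_const_right _ (-1) (tendsto_pow_atTop_atTop_of_one_lt hp1)).congr
        fun N => by ring).atTop_mul_const (ha j hj)
    exact h2.eventually_ge_atTop _
  exact Filter.eventually_atTop.1 ((Filter.eventually_all_finset S).2 h1)

theorem eq3_inv_zero {Q : ℕ} {ψ : L → L} (hψ : IsInv Q ψ) : ψ 0 = 0 := by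
  have h1 := hψ.add 0 0
  rw [add_zero] at h1
  exact left_eq_add.1 h1

theorem eq3_inv_sum {Q : ℕ} {ψ : L → L} (hψ : IsInv Q ψ) (s : Finset ℕ) (f : ℕ → L)
    (hf : ∀ k ∈ s, ψ (f k) = 0) : ψ (∑ k ∈ s, f k) = 0 := by
  induction s using Finset.induction_on with
  | empty => rw [Finset.sum_empty, eq3_inv_zero hψ]
  | insert k s hk ih =>
    rw [Finset.sum_insert hk, hψ.add, hf k (Finset.mem_insert_self k s),
      ih fun j hj => hf j (Finset.mem_insert_of_mem hj), add_zero]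

/-- (E3) -/
theorem e3 (h : Sys K V S m₀) (hp : 2 ≤ p) (hs : SplitX p V S a) (ha : ∀ i ∈ S, 0 < a i) {i : I}
    {B : Finset I} (hiB : i ∈ B) (hB : B ⊆ S) {s₀ s₁ : L} (hP : Pencil V i s₀ s₁)
    (hL : Link V i B) (hsum : ∑ j ∈ B, a j = 2) : s₁ / s₀ ∉ LS V (S \ B) := by
  intro hx
  rw [h.mem_LS Finset.sdiff_subset] at hx
  obtain ⟨u, hu, k, hk, c, hc, hc0, hkc⟩ := hx
  have hiS : i ∈ S := hB hiB
  have huS : u ∈ Nn S := Nn_mono Finset.sdiff_subset hu
  have huB : ∀ j ∈ B, u j = 0 := fun j hj => hu.2 j fun h1 => (Finset.mem_sdiff.1 h1).2 hj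
  have hs0 := hP.ne₀
  have hE : e i 1 ∈ Zs S := Zs_e hiS 1
  -- the element `g`
  have hg : c / s₀ ∈ V (u - e i 1) := by
    refine hP.free h hiS (Zs_sub huS.2 hE) ?_ ?_
    · rw [div_mul_cancel₀ _ hs0, sub_add_cancel]
      exact hc
    · have h1 : c / s₀ * s₁ = k := by
        have h2 : s₁ * c = k * s₀ := (div_eq_div_iff hs0 hc0).1 hkc
        rw [div_mul_eq_mul_div, div_eq_iff hs0]
        linear_combination h2
      rw [h1, sub_add_cancel]
      exact hk
  obtain ⟨N₀, hN₀⟩ := eq3_large hp ha u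
  obtain ⟨N, hN, T, hT, hTa, ψ, hψ, hψV, x, hx, hψx⟩ := hs u huS c hc hc0 N₀
  set Q : ℕ := p ^ N with hQ
  have hQ1 : 1 ≤ Q := Nat.one_le_pow _ _ (by omega)
  have hQz : ((p : ℤ) ^ N) = (Q : ℤ) := by
    rw [hQ]
    push_cast
    rfl
  have hQr : ((p : ℝ) ^ N) = (Q : ℝ) := by
    rw [hQ]
    push_cast
    rfl
  obtain ⟨M, hM⟩ : ∃ M : ℕ, M = 2 * (Q - 1) := ⟨_, rfl⟩
  have hMz : (M : ℤ) = 2 * ((Q : ℤ) - 1) := by
    rw [hM]
    push_cast [Nat.cast_sub hQ1]
    ring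
  have hTsum : ∑ j ∈ B, T j = M := by
    have h1 : ((∑ j ∈ B, T j : ℤ) : ℝ) = ((M : ℤ) : ℝ) := by
      rw [hMz]
      push_cast
      have h2 : ∑ j ∈ B, (T j : ℝ) = ∑ j ∈ B, ((Q : ℝ) - 1) * a j :=
        Finset.sum_congr rfl fun j hj => by rw [hTa j (hB hj), hQr]
      rw [h2, ← Finset.mul_sum, hsum]
      ring
    exact_mod_cast h1
  set TB : I → ℤ := eq3_part B T with hTB
  have hTBm : TB ∈ Nn B := eq3_part_mem hT.1
  have hTBs : ∑ j ∈ B, TB j = M := (eq3_sum_part B T).trans hTsum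
  obtain ⟨w, hw⟩ : ∃ w : I → ℤ, w = T - u - TB := ⟨_, rfl⟩
  have hwN : w ∈ Nn S := by
    refine ⟨fun j => ?_, ?_⟩
    · rw [hw]
      simp only [Pi.sub_apply]
      by_cases hj : j ∈ B
      · have h1 : TB j = T j := if_pos hj
        rw [h1, huB j hj]
        linarith
      · have h1 : TB j = 0 := if_neg hj
        rw [h1]
        by_cases hjS : j ∈ S
        · have h2 := hN₀ N hN j hjS
          rw [← hTa j hjS] at h2
          have h3 : u j ≤ T j := by exact_mod_cast h2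
          linarith
        · rw [hT.2 j hjS, huS.2 j hjS]
          simp
    · rw [hw]
      exact Zs_sub (Zs_sub hT.2 huS.2) (Zs_mono hB hTBm.2)
  -- decomposition of `x`
  obtain ⟨G, hG0, hG, hG'⟩ := link_mul h hiS hB hL hTBm
  rw [hTBs] at hG hG'
  have hTuS : T - u ∈ Zs S := Zs_sub hT.2 huS.2
  have hTBS : TB ∈ Zs S := Zs_mono hB hTBm.2
  have heM : e i (M : ℤ) ∈ Zs S := Zs_e hiS _
  have hx' : x * G⁻¹ ∈ V (w + e i (M : ℤ)) := by
    have h1 := h.mul _ hTuS _ (Zs_sub heM hTBS) _ hx _ hG'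
    have h2 : T - u + (e i (M : ℤ) - TB) = w + e i (M : ℤ) := by
      rw [hw]
      abel
    rwa [h2] at h1
  obtain ⟨z, hz, hxz⟩ := e2_iter h hp hs.split ha hiB hB hP hL hsum hwN M _ hx'
  have hz' : ∀ k, G * z k ∈ V (T - u - e i (M : ℤ)) := by
    intro k
    have h1 := h.mul _ (Zs_sub hTBS heM) _ hwN.2 _ hG _ (hz k)
    have h2 : TB - e i (M : ℤ) + w = T - u - e i (M : ℤ) := by
      rw [hw]
      abel
    rwa [h2] at h1
  have hxs : c * x = ∑ k ∈ Finset.range (M + 1), c * (s₀ ^ k * s₁ ^ (M - k) * (G * z k)) := by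
    have h1 : x = G * (x * G⁻¹) := by
      field_simp
    rw [h1, hxz, Finset.mul_sum, Finset.mul_sum]
    refine Finset.sum_congr rfl fun k _ => ?_
    ring
  -- `ψ` vanishes on `V (T - Q e)`
  have hkill : ∀ y ∈ V (T - e i (Q : ℤ)), ψ y = 0 := by
    intro y hy
    have h1 : ψ y ∈ V (-e i 1) := by
      refine hψV _ (Zs_neg hE) y ?_
      have h2 : ((p : ℤ) ^ N) • (-e i 1) + T = T - e i (Q : ℤ) := by
        funext j
        rw [hQz]
        simp only [Pi.add_apply, Pi.sub_apply, Pi.neg_apply, Pi.smul_apply, smul_eq_mul]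
        by_cases hj : j = i
        · subst hj
          simp only [e_same]
          ring
        · simp only [e_ne hj]
          ring
      rw [h2]
      exact hy
    refine h.neg_zero (Zs_neg hE) (fun j => ?_) (fun h0 => ?_) h1
    · by_cases hj : j = i
      · subst hj
        rw [Pi.neg_apply, e_same]
        norm_num
      · rw [Pi.neg_apply, e_ne hj]
        norm_num
    · have h2 := congrFun h0 i
      rw [Pi.neg_apply, e_same, Pi.zero_apply] at h2
      norm_num at h2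
  have hTuM : T - u - e i (M : ℤ) ∈ Zs S := Zs_sub hTuS heM
  have hzero : ψ (c * x) = 0 := by
    rw [hxs]
    refine eq3_inv_sum hψ _ _ fun k hkr => ?_
    have hkM : k ≤ M := by
      have := Finset.mem_range.1 hkr
      omega
    by_cases h1 : Q ≤ k
    · have h2 : c * (s₀ ^ k * s₁ ^ (M - k) * (G * z k)) =
          s₀ ^ Q * (c * (s₀ ^ (k - Q) * s₁ ^ (M - k) * (G * z k))) := by
        have h3 : s₀ ^ k = s₀ ^ Q * s₀ ^ (k - Q) := by
          rw [← pow_add]
          congr 1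
          omega
        rw [h3]
        ring
      rw [h2, hψ.lin, hkill, mul_zero]
      have h3 := h.mul _ huS.2 _ (Zs_add hTuM (Zs_e hiS _)) _ hc _
        (eq3_mem h hiS hP.mem₀ hP.mem₁ hTuM (hz' k) (k - Q) (M - k))
      have h4 : u + (T - u - e i (M : ℤ) + e i (((k - Q : ℕ) : ℤ) + ((M - k : ℕ) : ℤ))) =
          T - e i (Q : ℤ) := by
        have h5 : ((k - Q : ℕ) : ℤ) + ((M - k : ℕ) : ℤ) = (M : ℤ) - Q := by
          push_cast [Nat.cast_sub h1, Nat.cast_sub hkM]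
          ring
        rw [h5, sub_eq_add_neg (M : ℤ), e_add]
        funext j
        simp only [Pi.add_apply, Pi.sub_apply]
        by_cases hj : j = i
        · subst hj
          simp only [e_same]
          ring
        · simp only [e_ne hj]
          ring
      rwa [h4] at h3
    · by_cases h1' : Q ≤ M - k
      · have h2 : c * (s₀ ^ k * s₁ ^ (M - k) * (G * z k)) =
            s₁ ^ Q * (c * (s₀ ^ k * s₁ ^ (M - k - Q) * (G * z k))) := by
          have h3 : s₁ ^ (M - k) = s₁ ^ Q * s₁ ^ (M - k - Q) := by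
            rw [← pow_add]
            congr 1
            omega
          rw [h3]
          ring
        rw [h2, hψ.lin, hkill, mul_zero]
        have h3 := h.mul _ huS.2 _ (Zs_add hTuM (Zs_e hiS _)) _ hc _
          (eq3_mem h hiS hP.mem₀ hP.mem₁ hTuM (hz' k) k (M - k - Q))
        have h4 : u + (T - u - e i (M : ℤ) + e i ((k : ℤ) + ((M - k - Q : ℕ) : ℤ))) =
            T - e i (Q : ℤ) := by
          have h5 : (k : ℤ) + ((M - k - Q : ℕ) : ℤ) = (M : ℤ) - Q := by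
            push_cast [Nat.cast_sub h1', Nat.cast_sub hkM]
            ring
          rw [h5, sub_eq_add_neg (M : ℤ), e_add]
          funext j
          simp only [Pi.add_apply, Pi.sub_apply]
          by_cases hj : j = i
          · subst hj
            simp only [e_same]
            ring
          · simp only [e_ne hj]
            ring
        rwa [h4] at h3
      · have hk1 : k = Q - 1 := by omega
        have hk2 : M - k = Q - 1 := by omega
        have h2 : c * (s₀ ^ k * s₁ ^ (M - k) * (G * z k)) =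
            s₀ ^ Q * (c / s₀ * (s₀ ^ 0 * s₁ ^ (Q - 1) * (G * z k))) := by
          have h3 : s₀ ^ Q = s₀ * s₀ ^ (Q - 1) := by
            rw [← pow_succ']
            congr 1
            omega
          rw [hk2, hk1, h3, pow_zero, one_mul]
          field_simp
        rw [h2, hψ.lin, hkill, mul_zero]
        have h3 := h.mul _ (Zs_sub huS.2 hE) _ (Zs_add hTuM (Zs_e hiS _)) _ hg _
          (eq3_mem h hiS hP.mem₀ hP.mem₁ hTuM (hz' k) 0 (Q - 1))
        have h4 : u - e i 1 + (T - u - e i (M : ℤ) + e i (((0 : ℕ) : ℤ) + ((Q - 1 : ℕ) : ℤ))) =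
            T - e i (Q : ℤ) := by
          have h5 : ((0 : ℕ) : ℤ) + ((Q - 1 : ℕ) : ℤ) = (Q : ℤ) - 1 := by
            push_cast [Nat.cast_sub hQ1]
            ring
          rw [h5, hMz]
          funext j
          simp only [Pi.add_apply, Pi.sub_apply]
          by_cases hj : j = i
          · subst hj
            simp only [e_same]
            ring
          · simp only [e_ne hj]
            ring
        rwa [h4] at h3
  rw [hψx] at hzero
  exact one_ne_zero hzero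

end KM
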