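import Pool.Agent.Lib.MP_732f67_ag.KM.Eq4A

/-! KM part A, file 28, part 2: the combinatorics of the equality case (E4).

`one_exists`: for `R ⊆ S` nonempty with `∑_{R} a = 2 nu V R` there is `i ∈ R` with `nu V {i} = 1`.
`exists_J_aux`: a maximal set `J` of elements of rank one with different fields `LS V {i}`. -/

namespace KM

variable {L I : Type*} [Field L] [DecidableEq I] {K : Subfield L}
  {V : (I → ℤ) → Submodule K L} {S : Finset I} {m₀ : ℕ} {p : ℕ} {a : I → ℝ}

theorem one_exists [Fact p.Prime] [CharP L p] [Infinite K] (h : Sys K V S m₀) (hs : Split p V S a)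
    (ha : ∀ i ∈ S, 0 < a i) (hF : FF p K) (hFG : FG K) {R : Finset I} (hR : R ⊆ S)
    (hne : R.Nonempty) (heq : ∑ i ∈ R, a i = 2 * ((nu V R).toNat : ℝ)) :
    ∃ i ∈ R, nu V {i} = 1 := by
  have hp : 2 ≤ p := (Fact.out : p.Prime).two_le
  have hR1 := h.mono hR
  have hR2 := hs.mono h hp ha hR
  have hR3 : ∀ i ∈ R, 0 < a i := fun i hi => ha i (hR hi)
  obtain ⟨B, hB, d, hd0, hBne, hd, hdB, -, hcl⟩ := block_exists hR1 hFG hne
  have h1 := block_le hR1 hR2 hR3 hF hFG hB hBne hd0 hd hdB
  have h2 := ineq_fib hR1 hR2 hR3 hF hFG hB hcl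
  have h3 := Finset.sum_sdiff (f := a) hB
  rw [hdB, ENat.toNat_natCast] at h2
  have h4 : (d : ℝ) ≤ 1 := by linarith
  have h5 : d = 1 := by
    have : d ≤ 1 := by exact_mod_cast h4
    omega
  obtain ⟨i, hi⟩ := hBne
  refine ⟨i, hB hi, ?_⟩
  rw [hd i hi, h5]
  rfl

open Classical in
/-- the block of `i` -/
noncomputable def bset (V : (I → ℤ) → Submodule K L) (S : Finset I) (i : I) : Finset I :=
  S.filter fun j => LS V {j} = LS V {i}

theorem mem_bset {i j : I} : j ∈ bset V S i ↔ j ∈ S ∧ LS V {j} = LS V {i} := by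
  classical
  exact Finset.mem_filter

theorem Blk.eq_bset {i : I} {B : Finset I} (h : Blk V S a i B) : B = bset V S i := by
  ext j
  rw [mem_bset]
  exact ⟨fun hj => ⟨h.sub hj, h.ls j hj⟩, fun hj => h.max j hj.1 hj.2⟩

theorem exists_J_step (h : Sys K V S m₀) (hFG : FG K)
    (hblk : ∀ i ∈ S, nu V {i} = 1 → Blk V S a i (bset V S i))
    (heq : ∑ i ∈ S, a i = 2 * ((nu V S).toNat : ℝ)) (J : Finset I) :
    J ⊆ S → (∀ i ∈ J, nu V {i} = 1) → (∀ i ∈ J, ∀ j ∈ J, LS V {i} = LS V {j} → i = j) →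
      (nu V (S \ J.biUnion (bset V S))).toNat + J.card ≤ (nu V S).toNat ∧
      ∑ i ∈ S \ J.biUnion (bset V S), a i = 2 * ((nu V S).toNat : ℝ) - 2 * J.card := by
  classical
  induction J using Finset.induction_on with
  | empty =>
    intro _ _ _
    simp [heq]
  | insert i J hi ih =>
    intro hJ h1 h2
    have hiS : i ∈ S := hJ (Finset.mem_insert_self i J)
    have hb := hblk i hiS (h1 i (Finset.mem_insert_self i J))
    obtain ⟨ih1, ih2⟩ := ih (fun j hj => hJ (Finset.mem_insert_of_mem hj))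
      (fun j hj => h1 j (Finset.mem_insert_of_mem hj))
      (fun j hj k hk => h2 j (Finset.mem_insert_of_mem hj) k (Finset.mem_insert_of_mem hk))
    set R := S \ J.biUnion (bset V S) with hRdef
    have hRS : R ⊆ S := Finset.sdiff_subset
    have hBR : bset V S i ⊆ R := by
      intro j hj
      have hj' := mem_bset.1 hj
      refine Finset.mem_sdiff.2 ⟨hj'.1, fun hj2 => ?_⟩
      obtain ⟨k, hk, hjk⟩ := Finset.mem_biUnion.1 hj2
      have hjk' := (mem_bset.1 hjk).2
      have h3 := h2 i (Finset.mem_insert_self i J) k (Finset.mem_insert_of_mem hk)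
        (hj'.2.symm.trans hjk')
      exact hi (h3 ▸ hk)
    have hR' : S \ (insert i J).biUnion (bset V S) = R \ bset V S i := by
      rw [Finset.biUnion_insert, hRdef]
      ext j
      simp only [Finset.mem_sdiff, Finset.mem_union]
      tauto
    rw [hR', Finset.card_insert_of_notMem hi]
    constructor
    · have h3 := h.nu_submod hRS (Finset.sdiff_subset (s := S) (t := bset V S i))
      have e1 : R ∩ (S \ bset V S i) = R \ bset V S i := by
        ext j
        simp only [Finset.mem_sdiff, Finset.mem_inter]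
        constructor
        · rintro ⟨h4, _, h5⟩
          exact ⟨h4, h5⟩
        · rintro ⟨h4, h5⟩
          exact ⟨h4, hRS h4, h5⟩
      have e2 : R ∪ (S \ bset V S i) = S := by
        ext j
        simp only [Finset.mem_union, Finset.mem_sdiff]
        constructor
        · rintro (h4 | h4)
          · exact hRS h4
          · exact h4.1
        · intro h4
          by_cases h5 : j ∈ bset V S i
          · exact Or.inl (hBR h5)
          · exact Or.inr ⟨h4, h5⟩
      rw [e1, e2] at h3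
      have h4 := hb.lt
      rw [← nu_toNat hFG (R \ bset V S i), ← nu_toNat hFG S, ← nu_toNat hFG R,
        ← nu_toNat hFG (S \ bset V S i)] at h3
      rw [← nu_toNat hFG S, ← nu_toNat hFG (S \ bset V S i)] at h4
      have h3' : (nu V (R \ bset V S i)).toNat + (nu V S).toNat ≤
          (nu V R).toNat + (nu V (S \ bset V S i)).toNat := by exact_mod_cast h3
      have h4' : (nu V (S \ bset V S i)).toNat < (nu V S).toNat := by exact_mod_cast h4
      omega
    · have h3 := Finset.sum_sdiff (f := a) hBR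
      have h4 := hb.sum
      push_cast
      linarith

theorem exists_J_aux [Fact p.Prime] [CharP L p] [Infinite K] (h : Sys K V S m₀)
    (hs : Split p V S a) (ha : ∀ i ∈ S, 0 < a i) (hF : FF p K) (hFG : FG K)
    (heq : ∑ i ∈ S, a i = 2 * ((nu V S).toNat : ℝ))
    (hblk : ∀ i ∈ S, nu V {i} = 1 → ∃ B, Blk V S a i B) :
    ∃ J ⊆ S, J.card = (nu V S).toNat ∧ nu V J = nu V S ∧ (∀ j ∈ J, ∃ B, Blk V S a j B) ∧
      ∀ i ∈ S, ∃ j ∈ J, LS V {i} = LS V {j} := by
  classical
  have hblk' : ∀ i ∈ S, nu V {i} = 1 → Blk V S a i (bset V S i) := by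
    intro i hi h1
    obtain ⟨B, hB⟩ := hblk i hi h1
    rw [← hB.eq_bset]
    exact hB
  -- a maximal family
  let P : Finset (Finset I) := S.powerset.filter fun J => (∀ i ∈ J, nu V {i} = 1) ∧
    ∀ i ∈ J, ∀ j ∈ J, LS V {i} = LS V {j} → i = j
  have hP0 : (∅ : Finset I) ∈ P := by
    refine Finset.mem_filter.2 ⟨Finset.empty_mem_powerset S, ?_, ?_⟩
    · intro i hi
      exact absurd hi (Finset.notMem_empty i)
    · intro i hi
      exact absurd hi (Finset.notMem_empty i)
  obtain ⟨J, hJP, hmax⟩ := P.exists_max_image Finset.card ⟨∅, hP0⟩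
  obtain ⟨hJS', hJ1, hJ2⟩ := Finset.mem_filter.1 hJP
  have hJS : J ⊆ S := Finset.mem_powerset.1 hJS'
  obtain ⟨h1, h2⟩ := exists_J_step h hFG hblk' heq J hJS hJ1 hJ2
  have hRS : S \ J.biUnion (bset V S) ⊆ S := Finset.sdiff_subset
  have hR0 : S \ J.biUnion (bset V S) = ∅ := by
    by_contra hne
    have h3 := ineq_sub h hs ha hF hFG hRS
    have h4 : ((nu V (S \ J.biUnion (bset V S))).toNat : ℝ) + J.card ≤ (nu V S).toNat := by
      exact_mod_cast h1
    obtain ⟨i, hi, hi1⟩ := one_exists h hs ha hF hFG hRS (Finset.nonempty_iff_ne_empty.2 hne)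
      (by linarith)
    obtain ⟨hiS, hiJ⟩ := Finset.mem_sdiff.1 hi
    have hnot : ∀ j ∈ J, LS V {i} ≠ LS V {j} := by
      intro j hj hij
      exact hiJ (Finset.mem_biUnion.2 ⟨j, hj, mem_bset.2 ⟨hiS, hij⟩⟩)
    have hiJ' : i ∉ J := fun hj => hnot i hj rfl
    have hP' : insert i J ∈ P := by
      refine Finset.mem_filter.2 ⟨Finset.mem_powerset.2 (Finset.insert_subset hiS hJS), ?_, ?_⟩
      · intro j hj
        rcases Finset.mem_insert.1 hj with rfl | hj
        · exact hi1
        · exact hJ1 j hj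
      · intro j hj k hk hjk
        rcases Finset.mem_insert.1 hj with hj1 | hj1
        · rcases Finset.mem_insert.1 hk with hk1 | hk1
          · rw [hj1, hk1]
          · rw [hj1] at hjk
            exact absurd hjk (hnot k hk1)
        · rcases Finset.mem_insert.1 hk with hk1 | hk1
          · rw [hk1] at hjk
            exact absurd hjk.symm (hnot j hj1)
          · exact hJ2 j hj1 k hk1 hjk
    have h5 := hmax _ hP'
    rw [Finset.card_insert_of_notMem hiJ'] at h5
    omega
  have hcov : ∀ i ∈ S, ∃ j ∈ J, LS V {i} = LS V {j} := by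
    intro i hi
    by_contra hcon
    push Not at hcon
    have h3 : i ∈ S \ J.biUnion (bset V S) := by
      refine Finset.mem_sdiff.2 ⟨hi, fun h4 => ?_⟩
      obtain ⟨j, hj, hij⟩ := Finset.mem_biUnion.1 h4
      exact hcon j hj (mem_bset.1 hij).2
    rw [hR0] at h3
    exact absurd h3 (Finset.notMem_empty i)
  refine ⟨J, hJS, ?_, ?_, fun j hj => ⟨_, hblk' j (hJS hj) (hJ1 j hj)⟩, hcov⟩
  · rw [hR0, Finset.sum_empty] at h2
    have h3 : (J.card : ℝ) = ((nu V S).toNat : ℝ) := by linarith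
    exact_mod_cast h3
  · have h3 : LS V (J ∪ S) = LS V J := by
      refine h.LS_union_eq hJS (Finset.Subset.refl S) fun i hi => ?_
      obtain ⟨j, hj, hij⟩ := hcov i hi
      have h4 : (Rat V {i} : Set L) ⊆ (LS V {i} : Set L) := Subfield.subset_closure
      rw [hij] at h4
      exact h4.trans (LS_mono (Finset.singleton_subset_iff.2 hj))
    rw [Finset.union_eq_right.2 hJS] at h3
    rw [← h.rk_LS hJS, ← h3, h.rk_LS (Finset.Subset.refl S)]

theorem exists_J [Fact p.Prime] [CharP L p] [Infinite K] (h : Sys K V S m₀) (hs : SplitX p V S a)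
    (ha : ∀ i ∈ S, 0 < a i) (hF : FF p K) (hFG : FG K)
    (heq : ∑ i ∈ S, a i = 2 * ((nu V S).toNat : ℝ)) :
    ∃ J ⊆ S, J.card = (nu V S).toNat ∧ nu V J = nu V S ∧ (∀ j ∈ J, ∃ B, Blk V S a j B) ∧
      ∀ i ∈ S, ∃ j ∈ J, LS V {i} = LS V {j} :=
  exists_J_aux h hs.split ha hF hFG heq fun _ hi h1 => blk h hs ha hF hFG heq hi h1

end KM
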