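import Pool.Agent.Lib.MP_732f67_ag.KM.Eq4A
import Pool.Agent.Lib.MP_732f67_ag.KM.Eq4B

/-! KM part A, file 28: see Eq4A.lean (`SplitX.rat`, `Blk`, `blk`) and Eq4B.lean (`one_exists`, `exists_J`). -/
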