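import Pool.Agent.Lib.MP_732f67_ag.KM.Eq4D

/-! KM part A, file 28a: the combinatorics of the equality case, part 1 (E1, E4).

`SplitX.rat`: `SplitX` for `u = 0`, `c = 1`, `N ≥ 1`.
Let `n = nu V S`, `∑_{S} a = 2 n` and for `i ∈ S` with `nu V {i} = 1` let
`B i = {j ∈ S | nu V {i, j} = 1}`.
`blk`: `B = B i` satisfies: `nu V B = 1`, `nu V {j} = 1` and `LS V {j} = LS V {i} = LS V B` for
`j ∈ B` (`LS_eq_of_nu_eq`, `LS_union_eq`), `B` is closed; `ineq_fib`: `∑_{S \ B} a ≤ 2 (n - 1)`, so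
`∑_{B} a ≥ 2`, and `≤ 2` by `block_le`; `block_eq` (with `SplitX.rat`) and `exists_pencil` give
pencils for all `j ∈ B`, `Pencil.link` gives `Link V i B`; `e3`: `nu V (S \ B) < n` (if
`nu V (S \ B) = nu V S` then `LS V (S \ B) = LS V S` contains `s₁ / s₀`). -/

namespace KM

variable {L I : Type*} [Field L] [DecidableEq I] {K : Subfield L}
  {V : (I → ℤ) → Submodule K L} {S : Finset I} {m₀ : ℕ} {p : ℕ} {a : I → ℝ}

theorem SplitX.rat (h : Sys K V S m₀) (hp : 2 ≤ p) (hs : SplitX p V S a) :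
    ∀ i ∈ S, ∃ q : ℚ, a i = q := by
  intro i hi
  obtain ⟨N, hN, T, -, hT, -⟩ := hs 0 Nn_zero 1 h.one_mem one_ne_zero 1
  have h1 : (1 : ℝ) < (p : ℝ) ^ N := by
    have : 1 < p ^ N := Nat.one_lt_pow (by omega) (by omega)
    exact_mod_cast this
  refine ⟨(T i : ℚ) / ((p : ℚ) ^ N - 1), ?_⟩
  push_cast
  rw [eq_div_iff (by linarith), hT i hi]
  ring

theorem blk [Fact p.Prime] [CharP L p] [Infinite K] (h : Sys K V S m₀) (hs : SplitX p V S a)
    (ha : ∀ i ∈ S, 0 < a i) (hF : FF p K) (hFG : FG K)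
    (heq : ∑ i ∈ S, a i = 2 * ((nu V S).toNat : ℝ)) {i : I} (hi : i ∈ S) (h1 : nu V {i} = 1) :
    ∃ B, Blk V S a i B := by
  classical
  have hp : 2 ≤ p := (Fact.out : p.Prime).two_le
  have hiS : ({i} : Finset I) ⊆ S := Finset.singleton_subset_iff.2 hi
  obtain ⟨B, hB⟩ : ∃ B, B = S.filter (fun j => nu V ({i} ∪ {j}) = 1) := ⟨_, rfl⟩
  have hmem : ∀ j, j ∈ B ↔ j ∈ S ∧ nu V ({i} ∪ {j}) = 1 := fun j => by
    rw [hB, Finset.mem_filter]
  have hBS : B ⊆ S := fun j hj => ((hmem j).1 hj).1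
  have hiB : i ∈ B := (hmem i).2 ⟨hi, by rw [Finset.union_self, h1]⟩
  have hjS : ∀ {j}, j ∈ S → ({j} : Finset I) ⊆ S := fun hj => Finset.singleton_subset_iff.2 hj
  have hd1 : ∀ j ∈ B, nu V {j} = 1 := by
    intro j hj
    obtain ⟨hj1, hj2⟩ := (hmem j).1 hj
    refine le_antisymm ?_ (h.one_le_nu hj1)
    rw [← hj2]
    exact nu_mono Finset.subset_union_right
  have hls : ∀ j ∈ B, LS V {j} = LS V {i} := by
    intro j hj
    obtain ⟨hj1, hj2⟩ := (hmem j).1 hj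
    have e1 : LS V {i} = LS V ({i} ∪ {j}) :=
      h.LS_eq_of_nu_eq Finset.subset_union_left (Finset.union_subset hiS (hjS hj1))
        (nu_lt_top hFG _) (by rw [hj2, h1])
    have e2 : LS V {j} = LS V ({i} ∪ {j}) :=
      h.LS_eq_of_nu_eq Finset.subset_union_right (Finset.union_subset hiS (hjS hj1))
        (nu_lt_top hFG _) (by rw [hj2, hd1 j hj])
    rw [e1, e2]
  have hofle : ∀ j ∈ S, Rat V {j} ⊆ (LS V {i} : Set L) → j ∈ B := by
    intro j hj hsub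
    refine (hmem j).2 ⟨hj, ?_⟩
    have e1 : LS V ({i} ∪ {j}) = LS V {i} :=
      h.LS_union_eq hiS (hjS hj) fun k hk => by rw [Finset.mem_singleton.1 hk]; exact hsub
    rw [← h.rk_LS (Finset.union_subset hiS (hjS hj)), e1, h.rk_LS hiS, h1]
  have hLB : LS V B = LS V {i} := by
    have e1 := h.LS_union_eq hiS hBS (fun j hj => by
      rw [← hls j hj]
      exact Subfield.subset_closure)
    rwa [Finset.union_eq_right.2 (Finset.singleton_subset_iff.2 hiB)] at e1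
  have hnuB : nu V B = 1 := by
    rw [← h.rk_LS hBS, hLB, h.rk_LS hiS, h1]
  have hcl : ∀ j ∈ S \ B, ¬ Rat V {j} ⊆ (LS V B : Set L) := by
    intro j hj hcon
    obtain ⟨hj1, hj2⟩ := Finset.mem_sdiff.1 hj
    rw [hLB] at hcon
    exact hj2 (hofle j hj1 hcon)
  have hsum1 := ineq_fib h hs.split ha hF hFG hBS hcl
  have hd1' : ∀ j ∈ B, nu V {j} = ((1 : ℕ) : ℕ∞) := fun j hj => by rw [hd1 j hj, Nat.cast_one]
  have hnuB' : nu V B = ((1 : ℕ) : ℕ∞) := by rw [hnuB, Nat.cast_one]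
  have hsum2 := block_le h hs.split ha hF hFG hBS ⟨i, hiB⟩ one_pos hd1' hnuB'
  have hsum3 := Finset.sum_sdiff hBS (f := a)
  rw [hnuB', ENat.toNat_natCast] at hsum1
  have hsum : ∑ j ∈ B, a j = 2 := by
    push_cast at hsum1 hsum2
    linarith
  have hfr := block_eq h hs.split ha (hs.rat h hp) hF hFG hBS ⟨i, hiB⟩ one_pos hd1' hnuB'
    (by rw [hsum]; norm_num)
  have hpen : ∀ j ∈ B, ∃ s₀ s₁, Pencil V j s₀ s₁ := fun j hj =>
    exists_pencil h (hBS hj) (hfr j hj)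
  obtain ⟨s₀, s₁, hP⟩ := hpen i hiB
  have hlink : Link V i B := by
    intro j hj
    obtain ⟨r₀, r₁, hR⟩ := hpen j hj
    refine hP.link h hi (hBS hj) hR ?_
    rw [← hls j hj]
    exact h.ratio_mem (hjS (hBS hj)) (Zs_e (Finset.mem_singleton_self j) 1) hR.mem₁ hR.mem₀
  refine ⟨B, hiB, hBS, hsum, hls, fun j hj hjl => hofle j hj ?_, hpen, hlink, ?_⟩
  · rw [← hjl]
    exact Subfield.subset_closure
  · refine lt_of_le_of_ne (nu_mono Finset.sdiff_subset) fun hcon => ?_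
    have e1 := h.LS_eq_of_nu_eq Finset.sdiff_subset le_rfl (nu_lt_top hFG _) hcon
    refine e3 h hp hs ha hiB hBS hP hlink hsum ?_
    rw [e1]
    exact h.ratio_mem le_rfl (Zs_e hi 1) hP.mem₁ hP.mem₀

end KM
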