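import Pool.Agent.Lib.MP_732f67_ag.KM.RatF
import Pool.Agent.Lib.MP_732f67_ag.KM.Dec

/-! KM part A, file 7: the fibre system over the field `LS V B` (F4).

`mem_Fib`: the set on the right is closed under `LS V B`-linear combinations: common denominators
(`common`), `x * h ∈ V (t + u)` implies `x * (h * h') ∈ V (t + (u + u'))`.
`Fib_fg`: first `t ∈ Nn S`-like (all coordinates on `S \ B` nonnegative): every `y ∈ V (t + u)`,
`u ∈ Nn B` large, is by `dec` (`m = m₀`, `S' = B`) a sum of products `z * y₀` with `z ∈ V T'`,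
`T' ∈ Nn B`, `y₀ ∈ V (t + u₀)`, `0 ≤ u₀ ≤ C`; with fixed `0 ≠ w ∈ V (u₁)` etc. the fibre space is
spanned over `LS V B` by the finitely many spaces `V (t + u₀)` (`u₀ ≤ C`, `u₀ ∈ Nn B`), each divided
by one fixed nonzero element.  General `t`: multiply by a nonzero element of a large degree. -/

namespace KM

variable {L I : Type*} [Field L] [DecidableEq I] {K : Subfield L}
  {V : (I → ℤ) → Submodule K L} {S : Finset I} {m₀ : ℕ}

/-- the fibre system -/
noncomputable def Fib (V : (I → ℤ) → Submodule K L) (B : Finset I) (t : I → ℤ) :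
    Submodule (LS V B) L :=
  Submodule.span (LS V B) {x | ∃ u ∈ Nn B, ∃ h ∈ V u, h ≠ 0 ∧ x * h ∈ V (t + u)}

theorem Sys.mem_Fib (h : Sys K V S m₀) {B : Finset I} (hB : B ⊆ S) {t : I → ℤ} (ht : t ∈ Zs S)
    {x : L} : x ∈ Fib V B t ↔ ∃ u ∈ Nn B, ∃ g ∈ V u, g ≠ 0 ∧ x * g ∈ V (t + u) := by
  constructor
  · intro hx
    rw [Fib] at hx
    induction hx using Submodule.span_induction with
    | mem x hx => exact hx
    | zero =>
      refine ⟨0, Nn_zero, 1, h.one_mem, one_ne_zero, ?_⟩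
      rw [zero_mul]
      exact Submodule.zero_mem _
    | add x y _ _ hx hy =>
      obtain ⟨u, hu, g, hg, hg0, hxg⟩ := hx
      obtain ⟨v, hv, b, hb, hb0, hyb⟩ := hy
      have zu := Nn_Zs (Nn_mono hB hu)
      have zv := Nn_Zs (Nn_mono hB hv)
      refine ⟨u + v, Nn_add hu hv, g * b, h.mul _ zu _ zv _ hg _ hb, mul_ne_zero hg0 hb0, ?_⟩
      have h1 := h.mul _ (Zs_add ht zu) _ zv _ hxg _ hb
      have h2 := h.mul _ (Zs_add ht zv) _ zu _ hyb _ hg
      rw [add_assoc] at h1 h2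
      rw [add_comm v u] at h2
      have h3 := Submodule.add_mem _ h1 h2
      have e1 : (x + y) * (g * b) = x * g * b + y * b * g := by ring
      rwa [e1]
    | smul a x _ hx =>
      obtain ⟨u, hu, g, hg, hg0, hxg⟩ := hx
      obtain ⟨v, hv, c, hc, b, hb, hb0, hab⟩ := (h.mem_LS hB).1 a.2
      have zu := Nn_Zs (Nn_mono hB hu)
      have zv := Nn_Zs (Nn_mono hB hv)
      refine ⟨u + v, Nn_add hu hv, g * b, h.mul _ zu _ zv _ hg _ hb, mul_ne_zero hg0 hb0, ?_⟩
      have h1 := h.mul _ (Zs_add ht zu) _ zv _ hxg _ hc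
      rw [add_assoc] at h1
      have e1 : a • x * (g * b) = x * g * c := by
        rw [Subfield.smul_def, smul_eq_mul, hab]
        field_simp
      rwa [e1]
  · rintro ⟨u, hu, g, hg, hg0, hx⟩
    exact Submodule.subset_span ⟨u, hu, g, hg, hg0, hx⟩

/-- a common denominator for finitely many elements -/
theorem Sys.Fib_common (h : Sys K V S m₀) {B : Finset I} (hB : B ⊆ S) {ι : Type*}
    (s : Finset ι) (t : ι → I → ℤ) (ht : ∀ j ∈ s, t j ∈ Zs S) (x : ι → L)
    (hx : ∀ j ∈ s, x j ∈ Fib V B (t j)) :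
    ∃ u ∈ Nn B, ∃ g ∈ V u, g ≠ 0 ∧ ∀ j ∈ s, x j * g ∈ V (t j + u) := by
  classical
  induction s using Finset.induction_on with
  | empty => exact ⟨0, Nn_zero, 1, h.one_mem, one_ne_zero, by simp⟩
  | insert a s ha ih =>
    obtain ⟨u, hu, g, hg, hg0, hall⟩ := ih (fun j hj => ht j (Finset.mem_insert_of_mem hj))
      (fun j hj => hx j (Finset.mem_insert_of_mem hj))
    obtain ⟨v, hv, b, hb, hb0, hab⟩ := (h.mem_Fib hB (ht a (Finset.mem_insert_self a s))).1
      (hx a (Finset.mem_insert_self a s))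
    have zu := Nn_Zs (Nn_mono hB hu)
    have zv := Nn_Zs (Nn_mono hB hv)
    refine ⟨u + v, Nn_add hu hv, g * b, h.mul _ zu _ zv _ hg _ hb, mul_ne_zero hg0 hb0, ?_⟩
    intro j hj
    rcases Finset.mem_insert.1 hj with rfl | hj'
    · have h1 := h.mul _ (Zs_add (ht j hj) zv) _ zu _ hab _ hg
      rw [add_assoc, add_comm v u] at h1
      have e1 : x j * (g * b) = x j * b * g := by ring
      rwa [e1]
    · have h1 := h.mul _ (Zs_add (ht j hj) zu) _ zv _ (hall j hj') _ hb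
      rw [add_assoc] at h1
      rwa [← mul_assoc]

/-- the vector with all coordinates `c` on `B` -/
def Fib_cst (B : Finset I) (c : ℤ) : I → ℤ := fun i => if i ∈ B then c else 0

theorem Fib_cst_Nn (B : Finset I) {c : ℤ} (hc : 0 ≤ c) : Fib_cst B c ∈ Nn B := by
  refine ⟨fun i => ?_, fun i hi => if_neg hi⟩
  rw [Fib_cst]
  split_ifs
  · exact hc
  · exact le_rfl

/-- the vectors supported in `B` with coordinates between `0` and `C` form a finite set -/
theorem Fib_box_finite (B : Finset I) (C : ℤ) :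
    {u : I → ℤ | u ∈ Nn B ∧ ∀ i ∈ B, u i ≤ C}.Finite := by
  classical
  have hfin : (Set.univ : Set (B → Set.Icc (0 : ℤ) C)).Finite := Set.finite_univ
  refine (hfin.image fun (f : B → Set.Icc (0 : ℤ) C) (i : I) =>
    if hi : i ∈ B then ((f ⟨i, hi⟩ : ℤ)) else 0).subset ?_
  rintro u ⟨hu, huC⟩
  refine ⟨fun i => ⟨u i, hu.1 i, huC i i.2⟩, Set.mem_univ _, ?_⟩
  funext i
  by_cases hi : i ∈ B
  · simp only [dif_pos hi]
  · simp only [dif_neg hi]
    exact (hu.2 i hi).symm

theorem Sys.Fib_fg_nn (h : Sys K V S m₀) {B : Finset I} (hB : B ⊆ S) {t : I → ℤ}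
    (ht : t ∈ Nn (S \ B)) : (Fib V B t).FG := by
  classical
  obtain ⟨C, hC⟩ := h.dec (m := m₀) le_rfl
  have htS : t ∈ Nn S := Nn_mono Finset.sdiff_subset ht
  have hm : (0 : ℤ) ≤ m₀ := Int.natCast_nonneg _
  have hCz : (0 : ℤ) ≤ C := Int.natCast_nonneg _
  -- the fixed elements
  obtain ⟨c, hc⟩ : ∃ c, c = Fib_cst B ((C : ℤ) + m₀) := ⟨_, rfl⟩
  have hcB : ∀ i ∈ B, c i = (C : ℤ) + m₀ := fun i hi => by
    rw [hc]
    exact if_pos hi
  have hcN : c ∈ Nn B := by
    rw [hc]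
    exact Fib_cst_Nn B (by omega)
  obtain ⟨b, hb, hb0⟩ := (h.mono hB).exists_ne hcN (fun i => by
    by_cases hi : i ∈ B
    · right
      rw [hcB i hi]
      omega
    · left
      exact hcN.2 i hi)
  have key : ∀ u₀ : I → ℤ, ∃ a : L, (u₀ ∈ Nn B → (∀ i ∈ B, u₀ i ≤ C) → a ∈ V (c - u₀)) ∧
      a ≠ 0 := by
    intro u₀
    by_cases hu : u₀ ∈ Nn B ∧ ∀ i ∈ B, u₀ i ≤ C
    · have h1 : c - u₀ ∈ Nn B := by
        refine ⟨fun i => ?_, Zs_sub hcN.2 hu.1.2⟩
        by_cases hi : i ∈ B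
        · have := hu.2 i hi
          rw [Pi.sub_apply, hcB i hi]
          omega
        · rw [Pi.sub_apply, hcN.2 i hi, hu.1.2 i hi, sub_zero]
      obtain ⟨a, ha, ha0⟩ := (h.mono hB).exists_ne h1 (fun i => by
        by_cases hi : i ∈ B
        · right
          have := hu.2 i hi
          rw [Pi.sub_apply, hcB i hi]
          omega
        · left
          exact h1.2 i hi)
      exact ⟨a, fun _ _ => ha, ha0⟩
    · exact ⟨1, fun h1 h2 => absurd ⟨h1, h2⟩ hu, one_ne_zero⟩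
  choose a ha ha0 using key
  -- the finite set of generators
  have gens : ∀ u₀ : I → ℤ, ∃ G : Finset L, u₀ ∈ Nn B → V (t + u₀) = Submodule.span K (G : Set L) := by
    intro u₀
    by_cases hu : u₀ ∈ Nn B
    · obtain ⟨G, hG⟩ := h.fg (t + u₀) (Zs_add htS.2 (Zs_mono hB hu.2))
      exact ⟨G, fun _ => hG.symm⟩
    · exact ⟨∅, fun h1 => absurd h1 hu⟩
  choose G hG using gens
  obtain ⟨F, hF⟩ : ∃ F : Finset (I → ℤ), ∀ u, u ∈ F ↔ u ∈ Nn B ∧ ∀ i ∈ B, u i ≤ C :=
    ⟨(Fib_box_finite B C).toFinset, fun u => by simp⟩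
  have hfg : (Submodule.span (LS V B)
      ((F.biUnion fun u => (G u).image fun y => a u / b * y : Finset L) : Set L)).FG :=
    ⟨_, rfl⟩
  refine hfg.of_le ?_
  intro x hx
  rw [h.mem_Fib hB htS.2] at hx
  obtain ⟨u, hu, g, hg, hg0, hxg⟩ := hx
  obtain ⟨T', hT', h1, h2, h3⟩ := hC B hB (t + u) (Nn_add htS (Nn_mono hB hu))
  have htB : ∀ i ∈ B, t i = 0 := fun i hi => ht.2 i fun h4 => (Finset.mem_sdiff.1 h4).2 hi
  obtain ⟨u₀, hu₀⟩ : ∃ u₀, u₀ = u - T' := ⟨_, rfl⟩
  have hu₀N : u₀ ∈ Nn B := by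
    rw [hu₀]
    refine ⟨fun i => ?_, Zs_sub hu.2 hT'.2⟩
    by_cases hi : i ∈ B
    · have h4 := (h1 i hi).2.1
      rw [Pi.add_apply, htB i hi, zero_add] at h4
      rw [Pi.sub_apply]
      omega
    · rw [Pi.sub_apply, hu.2 i hi, hT'.2 i hi, sub_zero]
  have hu₀C : ∀ i ∈ B, u₀ i ≤ C := by
    intro i hi
    have h4 := (h1 i hi).1
    rw [Pi.add_apply, htB i hi, zero_add] at h4
    rw [hu₀, Pi.sub_apply]
    omega
  have e0 : t + u - T' = t + u₀ := by
    rw [hu₀]
    abel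
  rw [e0] at h3
  have hxg' := h3 hxg
  -- every product `z * y` is good
  have hprod : ∀ w ∈ V T' * V (t + u₀), w / g ∈ Submodule.span (LS V B)
      ((F.biUnion fun u => (G u).image fun y => a u / b * y : Finset L) : Set L) := by
    intro w hw
    induction hw using Submodule.mul_induction_on' with
    | mem_mul_mem z hz y hy =>
      have hratio : z * b / (g * a u₀) ∈ LS V B := by
        have z1 : z * b ∈ V (T' + c) := h.mul _ (Zs_mono hB hT'.2) _ (Zs_mono hB hcN.2) _ hz _ hb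
        have z2 : g * a u₀ ∈ V (T' + c) := by
          have z3 := h.mul _ (Zs_mono hB hu.2) _ (Zs_sub (Zs_mono hB hcN.2) (Zs_mono hB hu₀N.2))
            _ hg _ (ha u₀ hu₀N hu₀C)
          have e1 : u + (c - u₀) = T' + c := by
            rw [hu₀]
            abel
          rwa [e1] at z3
        exact h.ratio_mem hB (Zs_add hT'.2 hcN.2) z1 z2
      have e2 : z * y / g = (⟨_, hratio⟩ : LS V B) • (a u₀ / b * y) := by
        rw [Subfield.smul_def, smul_eq_mul]
        have := ha0 u₀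
        field_simp
      rw [e2]
      clear e2
      refine Submodule.smul_mem _ _ ?_
      rw [hG u₀ hu₀N] at hy
      induction hy using Submodule.span_induction with
      | mem y hy =>
        refine Submodule.subset_span ?_
        rw [Finset.mem_coe, Finset.mem_biUnion]
        exact ⟨u₀, (hF u₀).2 ⟨hu₀N, hu₀C⟩, Finset.mem_image.2 ⟨y, hy, rfl⟩⟩
      | zero =>
        rw [mul_zero]
        exact Submodule.zero_mem _
      | add y y' _ _ hy hy' =>
        rw [mul_add]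
        exact Submodule.add_mem _ hy hy'
      | smul k y _ hy =>
        have e3 : a u₀ / b * (k • y) = (⟨(k : L), h.le_LS hB k.2⟩ : LS V B) • (a u₀ / b * y) := by
          rw [Subfield.smul_def, Subfield.smul_def, smul_eq_mul, smul_eq_mul]
          ring
        rw [e3]
        exact Submodule.smul_mem _ _ hy
    | add w _ w' _ hw hw' =>
      rw [add_div]
      exact Submodule.add_mem _ hw hw'
  have hfin := hprod _ hxg'
  rwa [mul_div_cancel_right₀ _ hg0] at hfin

theorem Sys.Fib_fg (h : Sys K V S m₀) {B : Finset I} (hB : B ⊆ S) {t : I → ℤ}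
    (ht : t ∈ Zs (S \ B)) : (Fib V B t).FG := by
  classical
  have hm : (0 : ℤ) ≤ m₀ := Int.natCast_nonneg _
  obtain ⟨c, hc⟩ : ∃ c : I → ℤ, c = fun i => if i ∈ S \ B then (m₀ : ℤ) + |t i| else 0 :=
    ⟨_, rfl⟩
  have hcN : c ∈ Nn (S \ B) := by
    rw [hc]
    refine ⟨fun i => ?_, fun i hi => if_neg hi⟩
    beta_reduce
    split_ifs
    · positivity
    · exact le_rfl
  have htc : t + c ∈ Nn (S \ B) := by
    refine ⟨fun i => ?_, Zs_add ht hcN.2⟩
    by_cases hi : i ∈ S \ B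
    · rw [Pi.add_apply, hc]
      beta_reduce
      rw [if_pos hi]
      have := neg_abs_le (t i)
      omega
    · rw [Pi.add_apply, ht i hi, hcN.2 i hi, add_zero]
  obtain ⟨w, hw, hw0⟩ := (h.mono Finset.sdiff_subset).exists_ne hcN (fun i => by
    by_cases hi : i ∈ S \ B
    · right
      rw [hc]
      beta_reduce
      rw [if_pos hi]
      have := abs_nonneg (t i)
      omega
    · left
      exact hcN.2 i hi)
  have htS : t ∈ Zs S := Zs_mono Finset.sdiff_subset ht
  have hcS : c ∈ Zs S := Zs_mono Finset.sdiff_subset hcN.2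
  refine ((h.Fib_fg_nn hB htc).map (LinearMap.mulLeft (LS V B) w⁻¹)).of_le ?_
  intro x hx
  rw [h.mem_Fib hB htS] at hx
  obtain ⟨u, hu, g, hg, hg0, hxg⟩ := hx
  refine ⟨w * x, ?_, ?_⟩
  · rw [SetLike.mem_coe, h.mem_Fib hB (Zs_add htS hcS)]
    refine ⟨u, hu, g, hg, hg0, ?_⟩
    have h1 := h.mul _ hcS _ (Zs_add htS (Zs_mono hB hu.2)) _ hw _ hxg
    have e1 : c + (t + u) = t + c + u := by abel
    rwa [e1, ← mul_assoc] at h1
  · rw [LinearMap.mulLeft_apply, ← mul_assoc, inv_mul_cancel₀ hw0, one_mul]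

end KM
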