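import Pool.Agent.Lib.MP_732f67_ag.KM.Rank2
import Pool.Agent.Lib.MP_732f67_ag.KM.Fib

/-! KM part A, file 10: ranks of the fibre system, finiteness conditions.

`Fib_LS`: `Rat (Fib V B) S' = Rat V (B ∪ S')` for `S' ⊆ S \ B` (clear denominators), so the fields
of ratios agree.  `Fib_nu`: additivity of transcendence degrees in `K ⊆ LS V B ⊆ LS V (B ∪ S')`
(`Algebra.trdeg_add_eq`, or a direct argument with the two matroids: a maximal `K`-independent
subset of `LS V B` and a maximal `LS V B`-independent subset of `LS V (B ∪ S')`).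
`FF_LS`: `LS V B` is again finite over its `p`-th powers: `K ≤ M ≤ L`, `L` finitely generated over
`K`.  With a transcendence basis `X` of `L` over `M`: `[L : M(X) ^ p]` is finite and
`= [L : M(X)] * [M(X) : M(X) ^ p]`; elements of `M` independent over `M ^ p` stay independent over
`M(X) ^ p = M ^ p (X ^ p)`. -/

namespace KM

section aux

variable {L : Type*} [Field L]

/-- the matroid over a bigger field is the contraction of the matroid over the smaller one -/
theorem fr_closure {K K' : Subfield L} (hK : K ≤ K') (Z : Set L) :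
    (AlgebraicIndependent.matroid K' L).closure Z =
      (AlgebraicIndependent.matroid K L).closure ((K' : Set L) ∪ Z) := by
  ext x
  constructor
  · intro hx
    refine rk2_closure (rk2_mono (F := Subfield.closure ((K' : Set L) ∪ Z)) ?_
      (rk2_of_closure (K := K') (X := Z) ?_ ?_ hx))
    · exact Subfield.closure_mono Set.subset_union_right
    · exact fun y hy => Subfield.subset_closure (Or.inl hy)
    · exact fun y hy => Subfield.subset_closure (Or.inr hy)
  · intro hx
    refine rk2_closure (rk2_of_closure (K := K) ?_ ?_ hx)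
    · exact fun y hy => Subfield.subset_closure (Or.inl (hK hy))
    · exact Subfield.subset_closure

theorem rk_add {K K' : Subfield L} (hK : K ≤ K') {N : Set L} (hN : (K' : Set L) ⊆ N) :
    rk K' N + rk K (K' : Set L) = rk K N := by
  obtain ⟨X, hX⟩ := (AlgebraicIndependent.matroid K L).exists_isBasis (K' : Set L)
    (Set.subset_univ _)
  obtain ⟨Y, hY⟩ := (AlgebraicIndependent.matroid K' L).exists_isBasis N (Set.subset_univ _)
  have hcl : ∀ Z : Set L, (AlgebraicIndependent.matroid K L).closure (X ∪ Z) =
      (AlgebraicIndependent.matroid K' L).closure Z := by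
    intro Z
    rw [fr_closure hK, ← Matroid.closure_union_closure_left_eq, hX.closure_eq_closure,
      Matroid.closure_union_closure_left_eq]
  have hYi : ∀ y ∈ Y, y ∉ (AlgebraicIndependent.matroid K' L).closure (Y \ {y}) := fun y hy =>
    hY.indep.notMem_closure_sdiff_of_mem hy
  have hind : (AlgebraicIndependent.matroid K L).Indep (X ∪ Y) := by
    obtain ⟨J, hJ, hXJ⟩ := hX.indep.subset_isBasis_of_subset
      (Set.subset_union_left (s := X) (t := Y)) (Set.subset_univ _)
    have hYJ : Y ⊆ J := by
      intro y hy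
      by_contra hyJ
      refine hYi y hy ?_
      rw [← hcl]
      have h1 : y ∈ (AlgebraicIndependent.matroid K L).closure J := by
        rw [hJ.closure_eq_closure]
        exact Matroid.subset_closure _ _ (Set.subset_univ _) (Or.inr hy)
      refine Matroid.closure_subset_closure _ ?_ h1
      intro z hz
      rcases hJ.subset hz with h2 | h2
      · exact Or.inl h2
      · refine Or.inr ⟨h2, ?_⟩
        rintro rfl
        exact hyJ hz
    have h2 : X ∪ Y = J := (Set.union_subset hXJ hYJ).antisymm hJ.subset
    rw [h2]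
    exact hJ.indep
  have hdis : Disjoint X Y := by
    rw [Set.disjoint_left]
    intro y hyX hyY
    refine hYi y hyY ?_
    rw [← hcl]
    exact Matroid.subset_closure _ _ (Set.subset_univ _) (Or.inl hyX)
  have hbas : (AlgebraicIndependent.matroid K L).IsBasis (X ∪ Y) N := by
    refine hind.isBasis_of_subset_of_subset_closure
      (Set.union_subset (hX.subset.trans hN) hY.subset) ?_
    rw [hcl]
    exact hY.subset_closure
  unfold rk
  rw [← hX.encard_eq_eRk, ← hY.encard_eq_eRk, ← hbas.encard_eq_eRk,
    Set.encard_union_eq hdis, add_comm]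

end aux

variable {L I : Type*} [Field L] [DecidableEq I] {K : Subfield L}
  {V : (I → ℤ) → Submodule K L} {S : Finset I} {m₀ : ℕ}

theorem Sys.Fib_LS (h : Sys K V S m₀) {B : Finset I} (hB : B ⊆ S) {S' : Finset I}
    (hS' : S' ⊆ S \ B) : LS (Fib V B) S' = LS V (B ∪ S') := by
  have hS'S : S' ⊆ S := hS'.trans Finset.sdiff_subset
  have hBS : B ∪ S' ⊆ S := Finset.union_subset hB hS'S
  refine le_antisymm ?_ ?_
  · rw [LS, Subfield.closure_le]
    rintro x ⟨u, hu, g, hg, k, hk, hk0, rfl⟩
    obtain ⟨v, hv, w, hw, hw0, hall⟩ := h.Fib_common hB (Finset.univ : Finset Bool)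
      (fun _ => u) (fun _ _ => Zs_mono hS'S (Nn_Zs hu)) (fun b => if b then g else k) (by
        intro b _
        cases b
        · simpa using hk
        · simpa using hg)
    have h1 := hall true (Finset.mem_univ _)
    have h2 := hall false (Finset.mem_univ _)
    simp only [if_true, Bool.false_eq_true, if_false] at h1 h2
    refine Subfield.subset_closure ⟨u + v, Nn_add (Nn_mono Finset.subset_union_right hu)
      (Nn_mono Finset.subset_union_left hv), g * w, h1, k * w, h2, mul_ne_zero hk0 hw0, ?_⟩
    rw [mul_div_mul_right _ _ hw0]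
  · rw [LS, Subfield.closure_le]
    rintro x ⟨u, hu, g, hg, k, hk, hk0, rfl⟩
    have hdisj : ∀ i ∈ S', i ∉ B := fun i hi hiB => (Finset.mem_sdiff.1 (hS' hi)).2 hiB
    -- the vector `m₀` on `B`
    let v : I → ℤ := fun i => if i ∈ B then (m₀ : ℤ) else 0
    let uB : I → ℤ := fun i => if i ∈ B then u i else 0
    let uS : I → ℤ := fun i => if i ∈ S' then u i else 0
    have hsum : u = uS + uB := by
      funext i
      simp only [uS, uB, Pi.add_apply]
      by_cases hiB : i ∈ B
      · rw [if_pos hiB, if_neg (fun hi => hdisj i hi hiB), zero_add]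
      · by_cases hiS : i ∈ S'
        · rw [if_neg hiB, if_pos hiS, add_zero]
        · rw [if_neg hiB, if_neg hiS, add_zero]
          exact hu.2 i (by simp [hiB, hiS])
    have hvN : v ∈ Nn B := ⟨fun i => by
      simp only [v]
      split_ifs
      · exact Int.natCast_nonneg _
      · exact le_rfl, fun i hi => if_neg hi⟩
    have huB : uB ∈ Nn B := ⟨fun i => by
      simp only [uB]
      split_ifs
      · exact hu.1 i
      · exact le_rfl, fun i hi => if_neg hi⟩
    have huS : uS ∈ Nn S' := ⟨fun i => by
      simp only [uS]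
      split_ifs
      · exact hu.1 i
      · exact le_rfl, fun i hi => if_neg hi⟩
    obtain ⟨w', hw', hw'0⟩ := h.exists_ne (Nn_mono hB hvN) (fun i => by
      simp only [v]
      split_ifs
      · exact Or.inr le_rfl
      · exact Or.inl rfl)
    obtain ⟨w, hw, hw0⟩ := h.exists_ne (Nn_mono hB (Nn_add huB hvN)) (fun i => by
      simp only [v, uB, Pi.add_apply]
      split_ifs
      · right
        have := hu.1 i
        linarith
      · exact Or.inl (add_zero _))
    have key : ∀ z ∈ V u, z * w' / w ∈ Fib V B uS := by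
      intro z hz
      refine Submodule.subset_span ⟨uB + v, Nn_add huB hvN, w, hw, hw0, ?_⟩
      rw [div_mul_cancel₀ _ hw0]
      have h1 := h.mul _ (Nn_Zs (Nn_mono hBS hu)) _ (Nn_Zs (Nn_mono hB hvN)) _ hz _ hw'
      rw [hsum, add_assoc] at h1
      exact h1
    refine Subfield.subset_closure ⟨uS, huS, g * w' / w, key g hg, k * w' / w, key k hk,
      div_ne_zero (mul_ne_zero hk0 hw'0) hw0, ?_⟩
    rw [div_div_div_cancel_right₀ hw0, mul_div_mul_right _ _ hw'0]

theorem Sys.Fib_nu (h : Sys K V S m₀) {B : Finset I} (hB : B ⊆ S) {S' : Finset I}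
    (hS' : S' ⊆ S \ B) (h' : Sys (LS V B) (Fib V B) (S \ B) m₀) :
    nu (Fib V B) S' + nu V B = nu V (B ∪ S') := by
  have hBS : B ∪ S' ⊆ S := Finset.union_subset hB (hS'.trans Finset.sdiff_subset)
  rw [← h'.rk_LS hS', h.Fib_LS hB hS', ← h.rk_LS hB, ← h.rk_LS hBS]
  exact rk_add (h.le_LS hB) (LS_mono Finset.subset_union_left)

theorem FG_mono {K M : Subfield L} (hKM : K ≤ M) (h : FG K) : FG M := by
  obtain ⟨s, hs⟩ := h
  refine ⟨s, ?_⟩
  rw [eq_top_iff, ← hs]
  exact Subfield.closure_mono (Set.union_subset_union_left _ hKM)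

end KM
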