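import Pool.Agent.Lib.MP_732f67_ag.KM.Fib

/-! KM part A, file 9: (A5) for the fibre system.

`c ∈ Fib V B u`, `c = y / h`, `h ∈ V w`, `w ∈ Nn B`, `0 ≠ y ∈ V (u + w)`, `u + w ∈ Nn S`.  (A5) for
`y`: `N`, `T`, `ψ`, `x ∈ V (T - u - w)`, `ψ (y * x) = 1`.  Write `T = T' + T_B` (`T'` on `S \ B`,
`T_B` on `B`); for large `N` all `T i ≥ m₀`, so there is `0 ≠ g ∈ V T_B`.  Take
`ψ' z = ψ (g * z)`, `x' = x * h / g ∈ Fib V B (T' - u)`.
`ψ'` maps `Fib V B (Q t + T')` to `Fib V B t`: for `z = y₁ / h₁`, `h₁ ∈ V w₁`: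
`g * z = (g * y₁ * h₁ ^ (Q - 1)) / h₁ ^ Q` and `g * y₁ * h₁ ^ (Q - 1) ∈ V (Q (t + w₁) + T)`. -/

namespace KM

variable {L I : Type*} [Field L] [DecidableEq I] {K : Subfield L}
  {V : (I → ℤ) → Submodule K L} {S : Finset I} {m₀ : ℕ} {p : ℕ} {a : I → ℝ}

theorem fibSplit_large {I : Type*} {S : Finset I} {a : I → ℝ} (ha : ∀ i ∈ S, 0 < a i) {p : ℕ}
    (hp : 2 ≤ p) (C M : ℝ) :
    ∃ N₀ : ℕ, ∀ N ≥ N₀, ∀ i ∈ S, M ≤ ((p : ℝ) ^ N - 1) * a i - C := by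
  have h1 : (1 : ℝ) < p := by exact_mod_cast hp
  have h2 := tendsto_pow_atTop_atTop_of_one_lt h1
  have h3 : ∀ᶠ N in Filter.atTop, ∀ i ∈ S, M ≤ ((p : ℝ) ^ N - 1) * a i - C := by
    rw [Filter.eventually_all_finset]
    intro i hi
    filter_upwards [h2.eventually_ge_atTop ((M + C) / a i + 1)] with N hN
    have h4 : (M + C) / a i ≤ (p : ℝ) ^ N - 1 := by linarith
    rw [div_le_iff₀ (ha i hi)] at h4
    linarith
  exact Filter.eventually_atTop.1 h3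

theorem Split.fib (hs : Split p V S a) (h : Sys K V S m₀) (hp : 2 ≤ p) (ha : ∀ i ∈ S, 0 < a i)
    {B : Finset I} (hB : B ⊆ S) : Split p (Fib V B) (S \ B) a := by
  classical
  intro u hu c hc hc0
  have huS : u ∈ Nn S := Nn_mono Finset.sdiff_subset hu
  obtain ⟨w, hw, k, hk, hk0, hck⟩ := (h.mem_Fib hB (Nn_Zs huS)).1 hc
  have hwS : w ∈ Nn S := Nn_mono hB hw
  obtain ⟨C, hC⟩ := hs (u + w) (Nn_add huS hwS) (c * k) hck (mul_ne_zero hc0 hk0)
  obtain ⟨N₁, hN₁⟩ := fibSplit_large ha hp C (m₀ : ℝ)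
  refine ⟨C, fun N₀ => ?_⟩
  obtain ⟨N, hN, T, hT, hTa, ψ, hψ, hψV, x, hx, hx1⟩ := hC (max N₀ N₁)
  have hTm : ∀ i ∈ S, (m₀ : ℤ) ≤ T i := by
    intro i hi
    have h1 := hN₁ N ((le_max_right _ _).trans hN) i hi
    have h2 := (hTa i hi).1
    have h3 : (m₀ : ℝ) ≤ (T i : ℝ) := h1.trans h2
    exact_mod_cast h3
  obtain ⟨TB, hTB⟩ : ∃ TB : I → ℤ, TB = fun i => if i ∈ B then T i else 0 := ⟨_, rfl⟩
  obtain ⟨T', hT'⟩ : ∃ T' : I → ℤ, T' = fun i => if i ∈ B then 0 else T i := ⟨_, rfl⟩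
  have hsum : T' + TB = T := by
    funext i
    rw [Pi.add_apply, hT', hTB]
    by_cases hi : i ∈ B
    · simp only [if_pos hi, zero_add]
    · simp only [if_neg hi, add_zero]
  have hTBN : TB ∈ Nn B := by
    rw [hTB]
    refine ⟨fun i => ?_, fun i hi => if_neg hi⟩
    by_cases hi : i ∈ B
    · simp only [if_pos hi]
      exact hT.1 i
    · simp only [if_neg hi]
      exact le_rfl
  have hT'N : T' ∈ Nn (S \ B) := by
    rw [hT']
    refine ⟨fun i => ?_, fun i hi => ?_⟩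
    · by_cases hi : i ∈ B
      · simp only [if_pos hi]
        exact le_rfl
      · simp only [if_neg hi]
        exact hT.1 i
    · by_cases hiB : i ∈ B
      · simp only [if_pos hiB]
      · simp only [if_neg hiB]
        exact hT.2 i fun h1 => hi (Finset.mem_sdiff.2 ⟨h1, hiB⟩)
  have hTBS : TB ∈ Nn S := Nn_mono hB hTBN
  obtain ⟨g, hg, hg0⟩ := h.exists_ne hTBS (fun i => by
    rw [hTB]
    by_cases hi : i ∈ B
    · right
      simp only [if_pos hi]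
      exact hTm i (hB hi)
    · left
      simp only [if_neg hi])
  refine ⟨N, (le_max_left _ _).trans hN, T', hT'N, ?_, fun z => ψ (g * z), ⟨?_, ?_⟩, ?_,
    x * k / g, ?_, ?_⟩
  · intro i hi
    obtain ⟨hiS, hiB⟩ := Finset.mem_sdiff.1 hi
    have h1 := hTa i hiS
    have h2 : T' i = T i := by
      rw [hT']
      exact if_neg hiB
    rw [h2]
    exact h1
  · intro x y
    rw [mul_add, hψ.add]
  · intro x y
    have e1 : g * (x ^ p ^ N * y) = x ^ p ^ N * (g * y) := by ring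
    rw [e1, hψ.lin]
  · intro t ht y hy
    have htS : t ∈ Zs S := Zs_mono Finset.sdiff_subset ht
    have hQt : (p ^ N : ℤ) • t ∈ Zs S := fun i hi => by
      rw [Pi.smul_apply, htS i hi, smul_zero]
    obtain ⟨w₁, hw₁, h₁, hh₁, hh₁0, hy₁⟩ := (h.mem_Fib hB
      (Zs_add hQt (Nn_Zs (Nn_mono Finset.sdiff_subset hT'N)))).1 hy
    have hw₁S : w₁ ∈ Nn S := Nn_mono hB hw₁
    refine Submodule.subset_span ⟨w₁, hw₁, h₁, hh₁, hh₁0, ?_⟩
    have hQ : 1 ≤ p ^ N := Nat.one_le_pow _ _ (by omega)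
    have e1 : ψ (g * y) * h₁ = ψ (g * (y * h₁) * h₁ ^ (p ^ N - 1)) := by
      rw [mul_comm, ← hψ.lin]
      congr 1
      have e2 : h₁ ^ p ^ N = h₁ * h₁ ^ (p ^ N - 1) := by
        rw [← pow_succ']
        congr 1
        omega
      rw [e2]
      ring
    rw [e1]
    refine hψV (t + w₁) (Zs_add htS (Nn_Zs hw₁S)) _ ?_
    have h3 := h.mul _ (Zs_add (Nn_Zs hTBS)
      (Zs_add (Zs_add hQt (Nn_Zs (Nn_mono Finset.sdiff_subset hT'N))) (Nn_Zs hw₁S))) _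
      (Zs_nsmul (Nn_Zs hw₁S) (p ^ N - 1)) _
      (h.mul _ (Nn_Zs hTBS) _ (Zs_add (Zs_add hQt (Nn_Zs (Nn_mono Finset.sdiff_subset hT'N)))
        (Nn_Zs hw₁S)) _ hg _ hy₁) _ (h.pow_mem (Nn_Zs hw₁S) hh₁ (p ^ N - 1))
    have e3 : TB + ((p ^ N : ℤ) • t + T' + w₁) + (p ^ N - 1) • w₁ =
        (p ^ N : ℤ) • (t + w₁) + T := by
      rw [← hsum]
      funext i
      simp only [Pi.add_apply, Pi.smul_apply, smul_eq_mul]
      rw [nsmul_eq_mul, Nat.cast_sub hQ]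
      push_cast
      ring
    rwa [e3] at h3
  · refine Submodule.subset_span ⟨TB, hTBN, g, hg, hg0, ?_⟩
    rw [div_mul_cancel₀ _ hg0]
    have h3 := h.mul _ (Zs_sub (Nn_Zs hT) (Nn_Zs (Nn_add huS hwS))) _ (Nn_Zs hwS) _ hx _ hk
    have e3 : T - (u + w) + w = T' - u + TB := by
      rw [← hsum]
      abel
    rwa [e3] at h3
  · change ψ (g * (c * (x * k / g))) = 1
    rw [← hx1]
    congr 1
    field_simp

end KM
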