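import Pool.Agent.Lib.MP_732f67_ag.KM.Fib

/-! KM part A, file 8: the fibre system satisfies (A1) - (A4).

* `zero`: definition of `LS V B` (`mem_LS`).
* `two`: `Rat V {i}` is not inside `LS V B`: two elements of `V (e i k)` with ratio not in `LS V B`.
* `ic`: `c j = y j / g j`; with `G = ∏ g j ∈ V w`, `w ∈ Nn B`, one has
  `G ^ (j+1) * c j ∈ V ((j+1) • (s + w))`, so `G * y ∈ V (s + w)` by `ic`.
* `reg`: `y ∈ V (v + e i m + u)`, `u ∈ Nn B`, and `(v + u) i = v i`: `reg`.
* `free`: `V (e i m)` is finitely generated over `K`: one denominator `G ∈ V w` for `g * V (e i m)`,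
  so `(g * G) * x ∈ V (s + w + e i m)`, `g * G ∈ V (s + w)`.  (An element of `Fib V B (e i m)` is
  `y / h`; here only elements of `V (e i m)` itself are needed.) -/

namespace KM

variable {L I : Type*} [Field L] [DecidableEq I] {K : Subfield L}
  {V : (I → ℤ) → Submodule K L} {S : Finset I} {m₀ : ℕ}

theorem Zs_sdiff {B : Finset I} {t : I → ℤ} (ht : t ∈ Zs (S \ B)) : t ∈ Zs S :=
  Zs_mono Finset.sdiff_subset ht

theorem Sys.V_le_Fib (h : Sys K V S m₀) {B : Finset I} {t : I → ℤ} {x : L}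
    (hx : x ∈ V t) : x ∈ Fib V B t :=
  Submodule.subset_span ⟨0, Nn_zero, 1, h.one_mem, one_ne_zero, by rwa [mul_one, add_zero]⟩

theorem Fib_mk {B : Finset I} {t u : I → ℤ} (hu : u ∈ Nn B) {g : L} (hg : g ∈ V u) (hg0 : g ≠ 0)
    {x : L} (hx : x * g ∈ V (t + u)) : x ∈ Fib V B t :=
  Submodule.subset_span ⟨u, hu, g, hg, hg0, hx⟩

theorem Sys.Fib_sys (h : Sys K V S m₀) {B : Finset I} (hB : B ⊆ S)
    (hcl : ∀ i ∈ S \ B, ¬ Rat V {i} ⊆ (LS V B : Set L)) :
    Sys (LS V B) (Fib V B) (S \ B) m₀ where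
  pos := h.pos
  fg := fun t ht => h.Fib_fg hB ht
  zero := by
    intro x
    rw [h.mem_Fib hB Zs_zero, h.mem_LS hB]
    constructor
    · rintro ⟨u, hu, g, hg, hg0, hx⟩
      rw [zero_add] at hx
      exact ⟨u, hu, x * g, hx, g, hg, hg0, by rw [mul_div_cancel_right₀ _ hg0]⟩
    · rintro ⟨u, hu, g, hg, k, hk, hk0, rfl⟩
      exact ⟨u, hu, k, hk, hk0, by rw [zero_add, div_mul_cancel₀ _ hk0]; exact hg⟩
  mul := by
    intro s hs t ht x hx y hy
    obtain ⟨u, hu, g, hg, hg0, hx⟩ := (h.mem_Fib hB (Zs_sdiff hs)).1 hx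
    obtain ⟨u', hu', g', hg', hg0', hy⟩ := (h.mem_Fib hB (Zs_sdiff ht)).1 hy
    have hz := Zs_mono hB (Nn_Zs hu)
    have hz' := Zs_mono hB (Nn_Zs hu')
    refine Fib_mk (Nn_add hu hu') (h.mul _ hz _ hz' _ hg _ hg') (mul_ne_zero hg0 hg0') ?_
    have h1 := h.mul _ (Zs_add (Zs_sdiff hs) hz) _ (Zs_add (Zs_sdiff ht) hz') _ hx _ hy
    have e1 : s + u + (t + u') = s + t + (u + u') := by abel
    have e2 : x * g * (y * g') = x * y * (g * g') := by ring
    rwa [e1, e2] at h1
  two := by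
    intro i hi
    obtain ⟨z, hz, hzL⟩ := Set.not_subset.1 (hcl i hi)
    obtain ⟨u, hu, g, hg, k, hk, hk0, rfl⟩ := hz
    have hu' : u = e i (((u i).toNat : ℕ) : ℤ) := by
      rw [Int.toNat_of_nonneg (hu.1 i)]
      funext j
      rcases eq_or_ne j i with rfl | hj
      · rw [e_same]
      · rw [e_ne hj]
        exact hu.2 j (fun h1 => hj (Finset.mem_singleton.1 h1))
    rw [hu'] at hg hk
    exact ⟨(u i).toNat, g, h.V_le_Fib hg, k, h.V_le_Fib hk, hk0, hzL⟩
  ic := by
    intro s hs y r c hc hy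
    obtain ⟨w, hw, G, hG, hG0, hall⟩ := h.Fib_common hB (Finset.range (r + 1))
      (fun j => (j + 1) • s) (fun j _ => Zs_nsmul (Zs_sdiff hs) _) c
      (fun j hj => hc j (Nat.lt_succ_iff.1 (Finset.mem_range.1 hj)))
    have hz := Zs_mono hB (Nn_Zs hw)
    refine Fib_mk hw hG hG0 ?_
    refine h.ic (s + w) (Zs_add (Zs_sdiff hs) hz) (y * G) r (fun j => G ^ j * (c j * G)) ?_ ?_
    · intro j hj
      have h1 := h.mul _ (Zs_nsmul hz j) _ (Zs_add (Zs_nsmul (Zs_sdiff hs) (j + 1)) hz) _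
        (h.pow_mem hz hG j) _ (hall j (Finset.mem_range.2 (Nat.lt_succ_iff.2 hj)))
      have e1 : j • w + ((j + 1) • s + w) = (j + 1) • (s + w) := by
        rw [smul_add, add_smul j 1 w, one_smul]
        abel
      rwa [e1] at h1
    · rw [mul_pow, hy, Finset.sum_mul]
      refine Finset.sum_congr rfl fun j hj => ?_
      have hj' : j ≤ r := Nat.lt_succ_iff.1 (Finset.mem_range.1 hj)
      have e1 : G ^ (r + 1) = G ^ j * G * G ^ (r - j) := by
        rw [← pow_succ, ← pow_add]
        congr 1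
        omega
      rw [e1, mul_pow]
      ring
  reg := by
    intro m hm i hi
    obtain ⟨hiS, hiB⟩ := Finset.mem_sdiff.1 hi
    obtain ⟨C, hC⟩ := h.reg m hm i hiS
    refine ⟨C, fun v hv hvi y hy => ?_⟩
    have hvS : v ∈ Nn S := Nn_mono Finset.sdiff_subset hv
    obtain ⟨u, hu, g, hg, hg0, hy⟩ := (h.mem_Fib hB
      (Zs_add (Nn_Zs hvS) (Zs_e hiS _))).1 hy
    have huS : u ∈ Nn S := Nn_mono hB hu
    have h1 := hC (v + u) (Nn_add hvS huS) (by
      rw [Pi.add_apply, hu.2 i hiB, add_zero]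
      exact hvi)
    have e1 : v + e i (m : ℤ) + u = v + u + e i m := by abel
    rw [e1] at hy
    have h2 := h1 hy
    have key : ∀ z ∈ V (v + u) * V (e i m), z / g ∈ Fib V B v * Fib V B (e i m) := by
      intro z hz
      induction hz using Submodule.mul_induction_on' with
      | mem_mul_mem a ha b hb =>
        have e2 : a * b / g = a / g * b := by ring
        rw [e2]
        refine Submodule.mul_mem_mul (Fib_mk hu hg hg0 ?_) (h.V_le_Fib hb)
        rw [div_mul_cancel₀ _ hg0]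
        exact ha
      | add a _ b _ ha hb =>
        rw [add_div]
        exact Submodule.add_mem _ ha hb
    have h3 := key _ h2
    rwa [mul_div_cancel_right₀ _ hg0] at h3
  free := by
    classical
    intro m hm i hi s hs g hg
    obtain ⟨hiS, hiB⟩ := Finset.mem_sdiff.1 hi
    obtain ⟨X, hX⟩ := h.fg (e i m) (Zs_e hiS _)
    have hXV : ∀ x ∈ X, x ∈ V (e i m) := fun x hx => by
      rw [← hX]
      exact Submodule.subset_span hx
    obtain ⟨w, hw, G, hG, hG0, hall⟩ := h.Fib_common hB X (fun _ => s + e i m)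
      (fun _ _ => Zs_add (Zs_sdiff hs) (Zs_e hiS _)) (fun x => g * x)
      (fun x hx => hg x (h.V_le_Fib (hXV x hx)))
    have hz := Zs_mono hB (Nn_Zs hw)
    refine Fib_mk hw hG hG0 ?_
    refine h.free m hm i hiS (s + w) (Zs_add (Zs_sdiff hs) hz) (g * G) fun x hx => ?_
    have e1 : s + w + e i (m : ℤ) = s + e i m + w := by abel
    rw [e1]
    rw [← hX] at hx
    induction hx using Submodule.span_induction with
    | mem x hx =>
      have h1 := hall x hx
      have e2 : g * G * x = g * x * G := by ring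
      rw [e2]
      exact h1
    | zero =>
      rw [mul_zero]
      exact Submodule.zero_mem _
    | add x y _ _ hx hy =>
      rw [mul_add]
      exact Submodule.add_mem _ hx hy
    | smul a x _ hx =>
      have e2 : g * G * a • x = a • (g * G * x) := by
        rw [mul_smul_comm]
      rw [e2]
      exact Submodule.smul_mem _ _ hx

end KM
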