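import Pool.Agent.Lib.MP_732f67_ag.KM.Block
import Pool.Agent.Lib.MP_732f67_ag.KM.FibSys
import Pool.Agent.Lib.MP_732f67_ag.KM.FibSplit
import Pool.Agent.Lib.MP_732f67_ag.KM.FibRank

/-! KM part A, file 24: Theorem A, part (1) (F9).

`block_exists`: `S` nonempty, `i` with `d = nu V {i}` minimal (`≥ 1`), `B = {j ∈ S | nu V {i, j} = d}`.
For `j ∈ B`: `nu V {j} = d`, `LS V {i} = LS V {i, j} = LS V {j}`; so `nu V B = d` (`LS_union_eq`), and
for `j ∈ S \ B` not `Rat V {j} ⊆ LS V B = LS V {i}` (else `LS V {i, j} = LS V {i}`).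
`ineq`: strong induction on the cardinality of `S`, for all `K` at once (`L`, `I` fixed):
`block_le` for `B`, and the induction hypothesis for the fibre system (`Fib_sys`, `Split.fib`,
`FF_of_FG`, `FG_mono`, `Infinite (LS V B)`, `Fib_nu` with `S' = S \ B`).
`ineq_sub`: `Sys.mono`, `Split.mono`. -/

namespace KM

variable {L I : Type*} [Field L] [DecidableEq I] {K : Subfield L}
  {V : (I → ℤ) → Submodule K L} {S : Finset I} {m₀ : ℕ} {p : ℕ} {a : I → ℝ}

theorem nu_toNat (hFG : FG K) (S' : Finset I) : ((nu V S').toNat : ℕ∞) = nu V S' :=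
  ENat.natCast_toNat (nu_lt_top hFG S').ne

theorem block_exists (h : Sys K V S m₀) (hFG : FG K) (hne : S.Nonempty) :
    ∃ B ⊆ S, ∃ d : ℕ, 0 < d ∧ B.Nonempty ∧ (∀ i ∈ B, nu V {i} = d) ∧ nu V B = d ∧
      (∀ i ∈ S, (d : ℕ∞) ≤ nu V {i}) ∧ (∀ i ∈ S \ B, ¬ Rat V {i} ⊆ (LS V B : Set L)) := by
  classical
  obtain ⟨i, hi, hmin⟩ := S.exists_min_image (fun j => nu V {j}) hne
  set d : ℕ := (nu V {i}).toNat with hd
  have hdi : nu V {i} = d := (nu_toNat hFG {i}).symm
  have hiS : ({i} : Finset I) ⊆ S := Finset.singleton_subset_iff.2 hi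
  set B : Finset I := S.filter (fun j => nu V ({i} ∪ {j}) = d) with hB
  have hBS : B ⊆ S := Finset.filter_subset _ _
  have hiB : i ∈ B := Finset.mem_filter.2 ⟨hi, by rw [Finset.union_self, hdi]⟩
  have hd1 : ∀ j ∈ B, nu V {j} = d := by
    intro j hj
    obtain ⟨hjS, hj2⟩ := Finset.mem_filter.1 hj
    refine le_antisymm ?_ ?_
    · rw [← hj2]
      exact nu_mono Finset.subset_union_right
    · rw [← hdi]
      exact hmin j hjS
  have hsub : ∀ j ∈ B, Rat V {j} ⊆ (LS V {i} : Set L) := by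
    intro j hj
    obtain ⟨hjS, hj2⟩ := Finset.mem_filter.1 hj
    have h1 : LS V {i} = LS V ({i} ∪ {j}) := by
      refine h.LS_eq_of_nu_eq Finset.subset_union_left
        (Finset.union_subset hiS (Finset.singleton_subset_iff.2 hjS)) (nu_lt_top hFG _) ?_
      rw [hj2, hdi]
    rw [h1]
    exact (Rat_mono Finset.subset_union_right).trans Subfield.subset_closure
  have hLB : LS V B = LS V {i} := by
    have h1 := h.LS_union_eq hiS hBS hsub
    rwa [Finset.union_eq_right.2 (Finset.singleton_subset_iff.2 hiB)] at h1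
  have hnuB : nu V B = d := by
    rw [← h.rk_LS hBS, hLB, h.rk_LS hiS, hdi]
  refine ⟨B, hBS, d, ?_, ⟨i, hiB⟩, hd1, hnuB, fun j hj => ?_, fun j hj hcon => ?_⟩
  · have h1 := h.one_le_nu hi
    rw [hdi] at h1
    exact_mod_cast h1
  · rw [← hdi]
    exact hmin j hj
  · obtain ⟨hjS, hjB⟩ := Finset.mem_sdiff.1 hj
    apply hjB
    refine Finset.mem_filter.2 ⟨hjS, ?_⟩
    have h1 : LS V ({i} ∪ {j}) = LS V {i} := by
      refine h.LS_union_eq hiS (Finset.singleton_subset_iff.2 hjS) fun k hk => ?_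
      rw [Finset.mem_singleton.1 hk, ← hLB]
      exact hcon
    rw [← h.rk_LS (Finset.union_subset hiS (Finset.singleton_subset_iff.2 hjS)), h1, h.rk_LS hiS,
      hdi]

theorem infinite_LS [Infinite K] (h : Sys K V S m₀) {B : Finset I} (hB : B ⊆ S) :
    Infinite (LS V B) :=
  Infinite.of_injective _ (Subfield.inclusion (h.le_LS hB)).injective

theorem toNat_add_fib (hFG : FG K) (h : Sys K V S m₀) {B : Finset I} (hB : B ⊆ S)
    (h' : Sys (LS V B) (Fib V B) (S \ B) m₀) :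
    ((nu (Fib V B) (S \ B)).toNat : ℝ) + (nu V B).toNat = (nu V S).toNat := by
  have h1 := h.Fib_nu hB (Finset.Subset.refl (S \ B)) h'
  rw [Finset.union_sdiff_of_subset hB, ← nu_toNat (V := V) hFG B, ← nu_toNat (V := V) hFG S,
    ← nu_toNat (V := Fib V B) (FG_mono (h.le_LS hB) hFG) (S \ B)] at h1
  exact_mod_cast h1

theorem ineq_aux [Fact p.Prime] [CharP L p] (n : ℕ) :
    ∀ (K : Subfield L) (V : (I → ℤ) → Submodule K L) (S : Finset I), S.card ≤ n → Infinite K →
      Sys K V S m₀ → Split p V S a → (∀ i ∈ S, 0 < a i) → FF p K → FG K →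
      ∑ i ∈ S, a i ≤ 2 * ((nu V S).toNat : ℝ) := by
  have hp : 2 ≤ p := (Fact.out : p.Prime).two_le
  induction n with
  | zero =>
    intro K V S hS _ _ _ _ _ _
    rw [Finset.card_eq_zero.1 (Nat.le_zero.1 hS), Finset.sum_empty]
    positivity
  | succ n ih =>
    intro K V S hS _ h hs ha hF hFG
    rcases S.eq_empty_or_nonempty with rfl | hne
    · rw [Finset.sum_empty]
      positivity
    obtain ⟨B, hB, d, hd0, hBne, hd, hdB, -, hcl⟩ := block_exists h hFG hne
    have h1 := block_le h hs ha hF hFG hB hBne hd0 hd hdB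
    have h' := h.Fib_sys hB hcl
    have hcard : (S \ B).card ≤ n := by
      have := Finset.card_sdiff_add_card_eq_card hB
      have := hBne.card_pos
      omega
    have h2 := ih (LS V B) (Fib V B) (S \ B) hcard (infinite_LS h hB) h' (hs.fib h hp ha hB)
      (fun i hi => ha i (Finset.mem_sdiff.1 hi).1) (FF_of_FG p hF hFG (h.le_LS hB))
      (FG_mono (h.le_LS hB) hFG)
    have h3 := toNat_add_fib hFG h hB h'
    rw [hdB, ENat.toNat_natCast] at h3
    rw [← Finset.sum_sdiff hB]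
    have h4 : (1 : ℝ) ≤ d := by exact_mod_cast hd0
    linarith

theorem ineq [Fact p.Prime] [CharP L p] [Infinite K] (h : Sys K V S m₀) (hs : Split p V S a)
    (ha : ∀ i ∈ S, 0 < a i) (hF : FF p K) (hFG : FG K) :
    ∑ i ∈ S, a i ≤ 2 * ((nu V S).toNat : ℝ) :=
  ineq_aux S.card K V S le_rfl inferInstance h hs ha hF hFG

theorem ineq_sub [Fact p.Prime] [CharP L p] [Infinite K] (h : Sys K V S m₀) (hs : Split p V S a)
    (ha : ∀ i ∈ S, 0 < a i) (hF : FF p K) (hFG : FG K) {S' : Finset I} (hS : S' ⊆ S) :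
    ∑ i ∈ S', a i ≤ 2 * ((nu V S').toNat : ℝ) :=
  ineq (h.mono hS) (hs.mono h (Fact.out : p.Prime).two_le ha hS) (fun i hi => ha i (hS hi)) hF hFG

/-- closed sets: the complement also satisfies the inequality with the relative rank -/
theorem ineq_fib [Fact p.Prime] [CharP L p] [Infinite K] (h : Sys K V S m₀) (hs : Split p V S a)
    (ha : ∀ i ∈ S, 0 < a i) (hF : FF p K) (hFG : FG K) {B : Finset I} (hB : B ⊆ S)
    (hcl : ∀ i ∈ S \ B, ¬ Rat V {i} ⊆ (LS V B : Set L)) :
    ∑ i ∈ S \ B, a i ≤ 2 * (((nu V S).toNat : ℝ) - (nu V B).toNat) := by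
  have h' := h.Fib_sys hB hcl
  have := infinite_LS h hB
  have h2 := ineq h' (hs.fib h (Fact.out : p.Prime).two_le ha hB)
    (fun i hi => ha i (Finset.mem_sdiff.1 hi).1) (FF_of_FG p hF hFG (h.le_LS hB))
    (FG_mono (h.le_LS hB) hFG)
  have h3 := toNat_add_fib hFG h hB h'
  linarith

end KM
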