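import Pool.Agent.Lib.MP_732f67_ag.KM.Eq3
import Pool.Agent.Lib.MP_732f67_ag.KM.Ineq

/-! KM part A, file 28, definition of the blocks (see `Eq4.lean`). -/

namespace KM

variable {L I : Type*} [Field L] [DecidableEq I] {K : Subfield L}

/-- everything about one block of rank one in the equality case -/
structure Blk (V : (I → ℤ) → Submodule K L) (S : Finset I) (a : I → ℝ) (i : I) (B : Finset I) :
    Prop where
  mem : i ∈ B
  sub : B ⊆ S
  sum : ∑ j ∈ B, a j = 2
  ls : ∀ j ∈ B, LS V {j} = LS V {i}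
  max : ∀ j ∈ S, LS V {j} = LS V {i} → j ∈ B
  pencil : ∀ j ∈ B, ∃ s₀ s₁, Pencil V j s₀ s₁
  link : Link V i B
  lt : nu V (S \ B) < nu V S

end KM
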