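import Pool.Agent.Lib.MP_732f67_ag.KM.Defs

/-! KM part A, file 11: `[M : M ^ p] < ∞` for `K ≤ M ≤ L`, `L` finitely generated over `K` and
`[K : K ^ p] < ∞`.

`FF_top`: every element of `L` is algebraic over `L ^ p`, and `L` is generated over `L ^ p` by finitely
many elements.  `FF_of_FG`: induction on the number of generators of `L` over `M`.  Let `N = M(a)`.
If `a` is algebraic over `M`, then `N` is finite over `N ^ p`, which is finite over `M ^ p`.  If `a` is
transcendental over `M`, then a basis of `M` over `M ^ p` is independent over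
`N ^ p = (M ^ p)(a ^ p)` (compare the coefficients of the powers of `a ^ p`), so it is finite. -/

namespace KM

open Polynomial

open scoped Pointwise

section

variable {L : Type*} [Field L]

private theorem mul_mem_span {A B : Subfield L} {s t : Set L}
    (hB : ∀ b ∈ B, b ∈ Submodule.span A t) {x : L} (hx : x ∈ Submodule.span B s) :
    ∀ b ∈ B, b * x ∈ Submodule.span A (t * s) := by
  induction hx using Submodule.span_induction with
  | mem x hx =>
    intro b hb
    rw [← Submodule.span_mul_span]
    exact Submodule.mul_mem_mul (hB b hb) (Submodule.subset_span hx)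
  | zero => intro b _; rw [mul_zero]; exact Submodule.zero_mem _
  | add x y _ _ hx hy => intro b hb; rw [mul_add]; exact Submodule.add_mem _ (hx b hb) (hy b hb)
  | smul c x _ hx =>
    intro b hb
    rw [Subfield.smul_def, smul_eq_mul, ← mul_assoc]
    exact hx _ (B.mul_mem hb c.2)

private theorem span_tower {A B : Subfield L} {s t : Set L}
    (hB : ∀ b ∈ B, b ∈ Submodule.span A t) {x : L} (hx : x ∈ Submodule.span B s) :
    x ∈ Submodule.span A (t * s) := by
  have h := mul_mem_span hB hx 1 B.one_mem
  rwa [one_mul] at h

private theorem frob_span (p : ℕ) [ExpChar L p] {A : Subfield L} {s : Set L} {x : L}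
    (hx : x ∈ Submodule.span A s) :
    frobenius L p x ∈ Submodule.span (A.map (frobenius L p)) (frobenius L p '' s) := by
  induction hx using Submodule.span_induction with
  | mem x hx => exact Submodule.subset_span ⟨x, hx, rfl⟩
  | zero => rw [map_zero]; exact Submodule.zero_mem _
  | add x y _ _ hx hy => rw [map_add]; exact Submodule.add_mem _ hx hy
  | smul c x _ hx =>
    rw [Subfield.smul_def, smul_eq_mul, map_mul]
    have h := Submodule.smul_mem (Submodule.span (A.map (frobenius L p)) (frobenius L p '' s))
      (⟨frobenius L p c, c, c.2, rfl⟩ : A.map (frobenius L p)) hx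
    rwa [Subfield.smul_def, smul_eq_mul] at h

private theorem span_mono_field {A B : Subfield L} (hAB : A ≤ B) {s : Set L} {x : L}
    (hx : x ∈ Submodule.span A s) : x ∈ Submodule.span B s := by
  induction hx using Submodule.span_induction with
  | mem x hx => exact Submodule.subset_span hx
  | zero => exact Submodule.zero_mem _
  | add x y _ _ hx hy => exact Submodule.add_mem _ hx hy
  | smul c x _ hx =>
    have h := Submodule.smul_mem (Submodule.span B s) (⟨(c : L), hAB c.2⟩ : B) hx
    rwa [Subfield.smul_def, smul_eq_mul] at h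

private theorem frob_map_le (p : ℕ) [ExpChar L p] (M : Subfield L) :
    M.map (frobenius L p) ≤ M := by
  rintro x ⟨y, hy, rfl⟩
  exact pow_mem hy p

/-- `M` as a subspace over a smaller field -/
private def sub {A M : Subfield L} (hAM : A ≤ M) : Submodule A L where
  carrier := M
  add_mem' := M.add_mem
  zero_mem' := M.zero_mem
  smul_mem' c x hx := by
    rw [Subfield.smul_def, smul_eq_mul]
    exact M.mul_mem (hAM c.2) hx

private theorem alg_step (p : ℕ) [ExpChar L p] {M : Subfield L} {a : L} (ha : IsAlgebraic M a)
    (h : FF p (IntermediateField.adjoin M {a}).toSubfield) : FF p M := by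
  classical
  obtain ⟨s, hs⟩ := h
  have hfd : FiniteDimensional M (IntermediateField.adjoin M {a}) :=
    IntermediateField.adjoin.finiteDimensional ha.isIntegral
  obtain ⟨w, hw⟩ := hfd.fg_top
  have hN : ∀ x ∈ (IntermediateField.adjoin M {a}).toSubfield,
      x ∈ Submodule.span M ((w.image (Subtype.val) : Finset L) : Set L) := by
    intro x hx
    have h1 : (⟨x, hx⟩ : IntermediateField.adjoin M {a}) ∈ Submodule.span M (w : Set _) := by
      rw [hw]
      trivial
    have h2 := Submodule.mem_map_of_mem
      (f := (IntermediateField.adjoin M {a}).val.toLinearMap) h1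
    rw [Submodule.map_span] at h2
    rw [Finset.coe_image]
    exact h2
  refine ⟨((w.image (Subtype.val)).image (frobenius L p)) * s, fun x hx => ?_⟩
  have hx' : x ∈ (IntermediateField.adjoin M {a}).toSubfield :=
    (IntermediateField.adjoin M {a}).algebraMap_mem ⟨x, hx⟩
  rw [Finset.coe_mul]
  refine span_tower ?_ (hs x hx')
  rintro b ⟨c, hc, rfl⟩
  rw [Finset.coe_image]
  exact frob_span p (hN c hc)

private theorem trans_indep (p : ℕ) [Fact p.Prime] [CharP L p] {M : Subfield L} {a : L}
    (ha : Transcendental M a) {ι : Type*} {v : ι → L} (hv : ∀ i, v i ∈ M)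
    (hli : LinearIndependent (M.map (frobenius L p)) v) :
    LinearIndependent ((IntermediateField.adjoin M {a}).toSubfield.map (frobenius L p)) v := by
  classical
  have : CharP M p := (algebraMap M L).charP (algebraMap M L).injective p
  rw [linearIndependent_iff'] at hli ⊢
  intro T g hg
  have hc : ∀ i, ∃ (c : L) (r t : M[X]), c ^ p = g i ∧ aeval a t ≠ 0 ∧
      c * aeval a t = aeval a r := by
    intro i
    obtain ⟨c, hc, hcg⟩ := (g i).2
    obtain ⟨r, t, hrt⟩ := (IntermediateField.mem_adjoin_simple_iff M c).1 hc
    by_cases ht : aeval a t = 0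
    · refine ⟨c, 0, 1, hcg, by simp, ?_⟩
      rw [hrt, ht]
      simp
    · refine ⟨c, r, t, hcg, ht, ?_⟩
      rw [hrt, div_mul_cancel₀ _ ht]
  choose c r t h1 h2 h3 using hc
  set D : M[X] := ∏ i ∈ T, t i with hD
  have hD0 : aeval a D ≠ 0 := by
    rw [hD, map_prod]
    exact Finset.prod_ne_zero_iff.2 (fun i _ => h2 i)
  let R : ι → M[X] := fun i => r i * ∏ j ∈ T.erase i, t j
  have hR : ∀ i ∈ T, c i * aeval a D = aeval a (R i) := by
    intro i hi
    rw [hD, ← Finset.mul_prod_erase T t hi, map_mul, ← mul_assoc, h3, ← map_mul]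
  have hsum : ∑ i ∈ T, (c i) ^ p * v i = 0 := by
    rw [← hg]
    refine Finset.sum_congr rfl (fun i _ => ?_)
    rw [Subfield.smul_def, smul_eq_mul, h1]
  have hpoly : ∑ i ∈ T, C (⟨v i, hv i⟩ : M) * R i ^ p = 0 := by
    apply (transcendental_iff.1 ha)
    rw [map_sum]
    have e1 : ∀ i ∈ T, aeval a (C (⟨v i, hv i⟩ : M) * R i ^ p) =
        (aeval a D) ^ p * ((c i) ^ p * v i) := by
      intro i hi
      rw [map_mul, map_pow, ← hR i hi, aeval_C, mul_pow]
      have e2 : algebraMap M L ⟨v i, hv i⟩ = v i := rfl
      rw [e2]
      ring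
    rw [Finset.sum_congr rfl e1, ← Finset.mul_sum, hsum, mul_zero]
  have hp0 : 0 < p := (Fact.out : p.Prime).pos
  have hcoef : ∀ j : ℕ, ∀ i ∈ T, (R i).coeff j = 0 := by
    intro j
    have e3 : ∑ i ∈ T, (⟨(((R i).coeff j : M) : L) ^ p, (((R i).coeff j : M) : L),
        ((R i).coeff j).2, rfl⟩ : M.map (frobenius L p)) • v i = 0 := by
      have e4 := congrArg (fun q => coeff q (j * p)) hpoly
      simp only [finsetSum_coeff, coeff_C_mul, coeff_zero] at e4
      have e5 : ∀ i, (R i ^ p).coeff (j * p) = ((R i).coeff j) ^ p := by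
        intro i
        rw [← map_frobenius_expand (p := p), coeff_map, coeff_expand_mul hp0, frobenius_def]
      simp only [e5] at e4
      have e6 := congrArg (algebraMap M L) e4
      rw [map_sum, map_zero] at e6
      rw [← e6]
      refine Finset.sum_congr rfl (fun i _ => ?_)
      rw [Subfield.smul_def, smul_eq_mul, map_mul, map_pow, mul_comm]
      rfl
    intro i hi
    have e7 := hli T _ e3 i hi
    have e8 := congrArg (fun z : M.map (frobenius L p) => (z : L)) e7
    have e9 : (((R i).coeff j : M) : L) ^ p = 0 := e8
    exact Subtype.ext ((pow_eq_zero_iff hp0.ne').1 e9)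
  intro i hi
  have hRi : R i = 0 := Polynomial.ext (fun j => by rw [hcoef j i hi, coeff_zero])
  have hci : c i = 0 := by
    have := hR i hi
    rw [hRi, map_zero] at this
    exact (mul_eq_zero.1 this).resolve_right hD0
  apply Subtype.ext
  rw [← h1 i, hci, zero_pow hp0.ne']
  rfl

private theorem trans_step (p : ℕ) [Fact p.Prime] [CharP L p] {M : Subfield L} {a : L}
    (ha : Transcendental M a) (h : FF p (IntermediateField.adjoin M {a}).toSubfield) :
    FF p M := by
  classical
  obtain ⟨s, hs⟩ := h
  let W : Submodule (M.map (frobenius L p)) L := sub (frob_map_le p M)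
  let b := Module.Basis.ofVectorSpace (M.map (frobenius L p)) W
  let v : _ → L := fun i => ((b i : W) : L)
  have hvM : ∀ i, v i ∈ M := fun i => (b i).2
  have hli : LinearIndependent (M.map (frobenius L p)) v :=
    b.linearIndependent.map' W.subtype (Submodule.ker_subtype W)
  have hli2 := trans_indep p ha hvM hli
  let D := Submodule.span ((IntermediateField.adjoin M {a}).toSubfield.map (frobenius L p))
    (s : Set L)
  have hvD : ∀ i, v i ∈ D := fun i =>
    hs _ ((IntermediateField.adjoin M {a}).algebraMap_mem ⟨v i, hvM i⟩)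
  have hli3 : LinearIndependent
      ((IntermediateField.adjoin M {a}).toSubfield.map (frobenius L p))
      (fun i => (⟨v i, hvD i⟩ : D)) := LinearIndependent.of_comp D.subtype hli2
  have hfin : Module.Finite ((IntermediateField.adjoin M {a}).toSubfield.map (frobenius L p)) D :=
    Module.Finite.iff_fg.2 ⟨s, rfl⟩
  have hι := hli3.finite
  refine ⟨(Set.finite_range v).toFinset, fun x hx => ?_⟩
  rw [Set.Finite.coe_toFinset]
  have h1 : (⟨x, hx⟩ : W) ∈ Submodule.span (M.map (frobenius L p)) (Set.range b) := by
    rw [b.span_eq]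
    trivial
  have h2 := Submodule.mem_map_of_mem (f := W.subtype) h1
  rw [Submodule.map_span, ← Set.range_comp] at h2
  exact h2

end

theorem FF_top {L : Type*} [Field L] (p : ℕ) [Fact p.Prime] [CharP L p] {K : Subfield L}
    (h : FF p K) (hFG : FG K) : FF p (⊤ : Subfield L) := by
  classical
  obtain ⟨s, hs⟩ := h
  obtain ⟨t, ht⟩ := hFG
  set F : Subfield L := (⊤ : Subfield L).map (frobenius L p) with hF
  have hp0 : 0 < p := (Fact.out : p.Prime).pos
  have hint : ∀ x ∈ (s : Set L) ∪ t, IsIntegral F x := by
    intro x _
    refine IsIntegral.of_pow hp0 ?_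
    exact isIntegral_algebraMap (R := F) (A := L) (x := (⟨x ^ p, x, trivial, rfl⟩ : F))
  have hfd : FiniteDimensional F (IntermediateField.adjoin F ((s : Set L) ∪ t)) := by
    have : Finite ((s : Set L) ∪ t : Set L) := (s.finite_toSet.union t.finite_toSet).to_subtype
    exact IntermediateField.finiteDimensional_adjoin hint
  have htop : ∀ x : L, x ∈ IntermediateField.adjoin F ((s : Set L) ∪ t) := by
    intro x
    have h1 : Subfield.closure ((K : Set L) ∪ t) ≤
        (IntermediateField.adjoin F ((s : Set L) ∪ t)).toSubfield := by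
      rw [Subfield.closure_le]
      rintro y (hy | hy)
      · have h2 := span_mono_field (B := F) (by
          rintro z ⟨w, hw, rfl⟩
          exact ⟨w, trivial, rfl⟩) (hs y hy)
        have h3 : Submodule.span F (s : Set L) ≤
            Subalgebra.toSubmodule (IntermediateField.adjoin F ((s : Set L) ∪ t)).toSubalgebra := by
          rw [Submodule.span_le]
          intro z hz
          exact IntermediateField.subset_adjoin F _ (Or.inl hz)
        exact h3 h2
      · exact IntermediateField.subset_adjoin F _ (Or.inr hy)
    rw [ht] at h1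
    exact h1 trivial
  obtain ⟨w, hw⟩ := hfd.fg_top
  refine ⟨w.image (Subtype.val), fun x _ => ?_⟩
  have h1 : (⟨x, htop x⟩ : IntermediateField.adjoin F ((s : Set L) ∪ t)) ∈
      Submodule.span F (w : Set _) := by
    rw [hw]
    trivial
  have h2 := Submodule.mem_map_of_mem
    (f := (IntermediateField.adjoin F ((s : Set L) ∪ t)).val.toLinearMap) h1
  rw [Submodule.map_span] at h2
  rw [Finset.coe_image]
  exact h2

private theorem FF_of_closure {L : Type*} [Field L] (p : ℕ) [Fact p.Prime] [CharP L p]
    (htop : FF p (⊤ : Subfield L)) (t : Finset L) : ∀ M : Subfield L,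
    Subfield.closure ((M : Set L) ∪ t) = ⊤ → FF p M := by
  classical
  induction t using Finset.induction_on with
  | empty =>
    intro M hM
    rw [Finset.coe_empty, Set.union_empty, Subfield.closure_eq] at hM
    rw [hM]
    exact htop
  | insert a t _ ih =>
    intro M hM
    have h1 : FF p (IntermediateField.adjoin M {a}).toSubfield := by
      apply ih
      rw [eq_top_iff, ← hM, Subfield.closure_le]
      rintro x (hx | hx)
      · exact Subfield.subset_closure (Or.inl
          ((IntermediateField.adjoin M {a}).algebraMap_mem ⟨x, hx⟩))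
      · rw [Finset.coe_insert] at hx
        rcases hx with rfl | hx
        · exact Subfield.subset_closure (Or.inl (IntermediateField.mem_adjoin_simple_self M x))
        · exact Subfield.subset_closure (Or.inr hx)
    by_cases ha : IsAlgebraic M a
    · exact alg_step p ha h1
    · exact trans_step p ha h1

theorem FF_of_FG {L : Type*} [Field L] (p : ℕ) [Fact p.Prime] [CharP L p] {K M : Subfield L}
    (h : FF p K) (hFG : FG K) (hKM : K ≤ M) : FF p M := by
  obtain ⟨t, ht⟩ := hFG
  refine FF_of_closure p (FF_top p h ⟨t, ht⟩) t M ?_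
  rw [eq_top_iff, ← ht]
  exact Subfield.closure_mono (Set.union_subset_union_left _ hKM)

/-- iterate: `M` is finite over `M ^ (p ^ N)` -/
theorem FF.pow {L : Type*} [Field L] (p : ℕ) [Fact p.Prime] [CharP L p] {M : Subfield L}
    (h : FF p M) (N : ℕ) : ∃ s : Finset L, (s : Set L) ⊆ M ∧
      ∀ x ∈ M, x ∈ Submodule.span (M.map (iterateFrobenius L p N)) (s : Set L) := by
  classical
  -- generators inside `M`
  have hone : ∃ s : Finset L, (s : Set L) ⊆ M ∧
      ∀ x ∈ M, x ∈ Submodule.span (M.map (frobenius L p)) (s : Set L) := by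
    obtain ⟨s, hs⟩ := h
    let W : Submodule (M.map (frobenius L p)) L := sub (frob_map_le p M)
    let D := Submodule.span (M.map (frobenius L p)) (s : Set L)
    have hD : Module.Finite (M.map (frobenius L p)) D := Module.Finite.iff_fg.2 ⟨s, rfl⟩
    have hWD : W ≤ D := fun x hx => hs x hx
    have hWfg : W.FG := by
      have : IsNoetherian (M.map (frobenius L p)) D := inferInstance
      exact Submodule.FG.of_le ⟨s, rfl⟩ hWD
    obtain ⟨t, ht⟩ := hWfg
    refine ⟨t, ?_, ?_⟩
    · intro x hx
      have : x ∈ W := by
        rw [← ht]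
        exact Submodule.subset_span hx
      exact this
    · intro x hx
      rw [ht]
      exact hx
  obtain ⟨t, htM, ht⟩ := hone
  induction N with
  | zero =>
    refine ⟨{1}, ?_, fun x hx => ?_⟩
    · rw [Finset.coe_singleton, Set.singleton_subset_iff]
      exact M.one_mem
    · have h1 : (⟨x, x, hx, by rw [iterateFrobenius_zero]; rfl⟩ :
          M.map (iterateFrobenius L p 0)) • (1 : L) ∈
          Submodule.span (M.map (iterateFrobenius L p 0)) ((({1} : Finset L)) : Set L) :=
        Submodule.smul_mem _ _ (Submodule.subset_span (by simp))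
      rwa [Subfield.smul_def, smul_eq_mul, mul_one] at h1
  | succ N ih =>
    obtain ⟨s, hsM, hs⟩ := ih
    refine ⟨(s.image (frobenius L p)) * t, ?_, fun x hx => ?_⟩
    · rw [Finset.coe_mul, Finset.coe_image]
      rintro z ⟨a, ⟨b, hb, rfl⟩, c, hc, rfl⟩
      exact M.mul_mem (pow_mem (hsM hb) p) (htM hc)
    · rw [Finset.coe_mul, Finset.coe_image]
      have hmap : (M.map (iterateFrobenius L p N)).map (frobenius L p) =
          M.map (iterateFrobenius L p (N + 1)) := by
        rw [Subfield.map_map]
        congr 1
        ext y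
        rw [RingHom.comp_apply, iterateFrobenius_def, iterateFrobenius_def, frobenius_def,
          ← pow_mul, pow_succ]
      refine span_tower ?_ (ht x hx)
      rintro b ⟨c, hc, rfl⟩
      rw [← hmap]
      exact frob_span p (hs c hc)

end KM
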