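import Pool.Agent.Lib.MP_732f67_ag.KM.Main
import Pool.Agent.Lib.MP_732f67_ag.KM.BcSys
import Pool.Agent.Lib.MP_732f67_ag.KM.BcSplit
import Pool.Agent.Lib.MP_732f67_ag.KM.BcField

/-! KM part A: Theorem A for all fields `K` (finite or infinite).

`theoremA_le`: `theoremA` for `bV V`, `nu_bV_le`.
`theoremA_final`: `∑ a = 2 nu V S ≥ 2 nu (bV V) S ≥ ∑ a`, so `nu (bV V) S = nu V S`, and
`theoremA_eq` for `bV V`: `J`.  Dimensions: `finrank_ext`.  Links: `V (e i 1 - e j 1)` and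
`V (e j 1 - e i 1)` are nonzero (`mem_ext`), the product of nonzero elements `g`, `g'` is in `V 0 = K`.
Independence: by the dimensions every pair `s₀ j, s₁ j` as in the statement is a pencil of `V`
(`Final_pencil`), and `card J ≤ nu (bV V) J ≤ nu V J ≤ nu V S = card J`, so `Main_indep` applies. -/

namespace KM

variable {L I : Type*} [Field L] [DecidableEq I] {K : Subfield L}
  {V : (I → ℤ) → Submodule K L} {S : Finset I} {m₀ : ℕ} {p : ℕ} {a : I → ℝ}

theorem Final_charP [CharP L p] : CharP (RatFunc L) p :=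
  charP_of_injective_ringHom (RatFunc.C : L →+* RatFunc L).injective p

theorem Final_nu (h : Sys K V S m₀) (hFG : FG K) :
    (nu (bV V) S).toNat ≤ (nu V S).toNat :=
  ENat.toNat_le_toNat (h.nu_bV_le (Finset.Subset.refl S)) (nu_lt_top hFG S).ne

/-- Theorem A (1) -/
theorem theoremA_le [Fact p.Prime] [CharP L p] (h : Sys K V S m₀) (hs : Split p V S a)
    (ha : ∀ i ∈ S, 0 < a i) (hF : FF p K) (hFG : FG K) :
    ∑ i ∈ S, a i ≤ 2 * ((nu V S).toNat : ℝ) := by
  have : CharP (RatFunc L) p := Final_charP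
  have : Infinite (bK K) := infinite_bK
  have h1 := theoremA (K := bK K) (V := bV V) h.bc hs.bc ha hF.bc hFG.bc
  have h2 : ((nu (bV V) S).toNat : ℝ) ≤ ((nu V S).toNat : ℝ) := by
    exact_mod_cast Final_nu h hFG
  linarith

/-- any two elements with nonconstant ratio form a pencil if the dimensions are right -/
theorem Final_pencil (h : Sys K V S m₀) {i : I} (hi : i ∈ S)
    (hH : ∀ l : ℕ, Module.finrank K (V (e i l)) = l + 1) {s₀ s₁ : L} (hs₀ : s₀ ∈ V (e i 1))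
    (hs₁ : s₁ ∈ V (e i 1)) (hs₀0 : s₀ ≠ 0) (hs₁' : s₁ / s₀ ∉ K) : Pencil V i s₀ s₁ := by
  have hfin : ∀ l : ℕ, Module.Finite K (V (e i l)) := fun l =>
    Module.Finite.iff_fg.2 (h.fg _ (Zs_e hi l))
  refine ⟨hs₀, hs₁, hs₀0, hs₁', fun l y hy => ?_⟩
  have hli := pencil_li h hs₀0 hs₁' l
  let F : Fin (l + 1) → V (e i l) := fun k =>
    ⟨s₀ ^ (k : ℕ) * s₁ ^ (l - (k : ℕ)), pencil_mem h hi hs₀ hs₁ _ _ _
      (Nat.add_sub_cancel' (Nat.lt_succ_iff.1 k.2))⟩
  have hF : LinearIndependent K F := LinearIndependent.of_comp (V (e i l)).subtype hli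
  have := hfin l
  have hspan := hF.span_eq_top_of_card_eq_finrank' (by
    rw [Fintype.card_fin, hH l])
  have hmem : (⟨y, hy⟩ : V (e i l)) ∈ Submodule.span K (Set.range F) := by
    rw [hspan]
    exact Submodule.mem_top
  obtain ⟨g, hg⟩ := (Submodule.mem_span_range_iff_exists_fun K).1 hmem
  refine ⟨fun k => if hk : k < l + 1 then (g ⟨k, hk⟩ : L) else 0, fun k => ?_, ?_⟩
  · dsimp only
    split_ifs with hk
    · exact (g ⟨k, hk⟩).2
    · exact K.zero_mem
  · have h5 := congrArg Subtype.val hg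
    rw [AddSubmonoidClass.coe_finsetSum] at h5
    rw [Finset.sum_range]
    refine h5.symm.trans (Finset.sum_congr rfl fun k _ => ?_)
    dsimp only
    rw [dif_pos k.2]
    rfl

/-- an element of the extended space gives an element of the space -/
theorem Final_ne {W : Submodule K L} {x : RatFunc L} (hx : x ∈ ext W) (h0 : x ≠ 0) :
    ∃ y ∈ W, y ≠ 0 := by
  obtain ⟨Y, q, hY, _, hq0, hxq⟩ := mem_ext.1 hx
  have hY0 : Y ≠ 0 := by
    rintro rfl
    rw [map_zero, mul_eq_zero] at hxq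
    rcases hxq with h1 | h1
    · exact h0 h1
    · exact hq0 ((map_eq_zero_iff _ (RatFunc.algebraMap_injective L)).1 h1)
  obtain ⟨n, hn⟩ : ∃ n, Y.coeff n ≠ 0 := by
    by_contra hcon
    push Not at hcon
    exact hY0 (Polynomial.ext fun n => by rw [hcon n, Polynomial.coeff_zero])
  exact ⟨_, hY n, hn⟩

/-- the number of algebraically independent ratios is at most the rank -/
theorem Final_card {J : Finset I} (s₀ s₁ : I → L) (hmem : ∀ j ∈ J, s₀ j ∈ V (e j 1) ∧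
      s₁ j ∈ V (e j 1) ∧ s₀ j ≠ 0)
    (hind : AlgebraicIndependent K (fun j : J => s₁ j / s₀ j)) : (J.card : ℕ∞) ≤ nu V J := by
  have h1 : (AlgebraicIndependent.matroid K L).Indep
      (Set.range fun j : J => s₁ j / s₀ j) :=
    (algebraicIndependent_subtype_range hind.injective).2 hind
  have h2 : (Set.range fun j : J => s₁ j / s₀ j).encard = (J.card : ℕ∞) := by
    rw [← Set.image_univ, hind.injective.encard_image, Set.encard_univ]
    simp
  rw [← h2, ← h1.eRk_eq_encard, nu, rk]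
  refine (AlgebraicIndependent.matroid K L).eRk_mono ?_
  rintro _ ⟨j, rfl⟩
  obtain ⟨h3, h4, h5⟩ := hmem j j.2
  exact ⟨e (j : I) 1, Nn_e j.2 zero_le_one, s₁ j, h4, s₀ j, h3, h5, rfl⟩

/-- Theorem A (2) -/
theorem theoremA_final [Fact p.Prime] [CharP L p] (h : Sys K V S m₀) (hs : SplitX p V S a)
    (ha : ∀ i ∈ S, 0 < a i) (hF : FF p K) (hFG : FG K)
    (heq : ∑ i ∈ S, a i = 2 * ((nu V S).toNat : ℝ)) :
    ∃ J ⊆ S, J.card = (nu V S).toNat ∧
      (∀ i ∈ S, ∃ j ∈ J, ∃ g, g ≠ 0 ∧ g ∈ V (e i 1 - e j 1) ∧ g⁻¹ ∈ V (e j 1 - e i 1)) ∧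
      (∀ u ∈ Nn J, Module.finrank K (V u) = ∏ j ∈ J, ((u j).toNat + 1)) ∧
      ∀ s₀ s₁ : I → L, (∀ j ∈ J, s₀ j ∈ V (e j 1) ∧ s₁ j ∈ V (e j 1) ∧ s₀ j ≠ 0 ∧
        s₁ j / s₀ j ∉ K) → AlgebraicIndependent K (fun j : J => s₁ j / s₀ j) := by
  have : CharP (RatFunc L) p := Final_charP
  have : Infinite (bK K) := infinite_bK
  have hb := h.bc
  have hn : (nu (bV V) S).toNat = (nu V S).toNat := by
    apply le_antisymm (Final_nu h hFG)
    have h1 := theoremA (K := bK K) (V := bV V) hb hs.split.bc ha hF.bc hFG.bc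
    rw [heq] at h1
    have h2 : ((nu V S).toNat : ℝ) ≤ ((nu (bV V) S).toNat : ℝ) := by linarith
    exact_mod_cast h2
  obtain ⟨J, hJ, hcard, r₀, r₁, hP, hlink, -, hind, hdim⟩ :=
    theoremA_eq (K := bK K) (V := bV V) hb hs.bc ha hF.bc hFG.bc (by rw [hn]; exact heq)
  rw [hn] at hcard
  have hdim' : ∀ u ∈ Nn J, Module.finrank K (V u) = ∏ j ∈ J, ((u j).toNat + 1) := by
    intro u hu
    rw [← hdim u hu]
    exact (finrank_ext (h.fg u (Zs_mono hJ (Nn_Zs hu)))).symm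
  refine ⟨J, hJ, hcard, fun i hi => ?_, hdim', fun s₀ s₁ hss => ?_⟩
  · obtain ⟨j, hj, g, hg0, hg1, hg2⟩ := hlink i hi
    obtain ⟨x, hx, hx0⟩ := Final_ne hg1 hg0
    obtain ⟨y, hy, hy0⟩ := Final_ne hg2 (inv_ne_zero hg0)
    have z1 : e i 1 - e j 1 ∈ Zs S := Zs_sub (Zs_e hi 1) (Zs_e (hJ hj) 1)
    have z2 : e j 1 - e i 1 ∈ Zs S := Zs_sub (Zs_e (hJ hj) 1) (Zs_e hi 1)
    have h1 := h.mul _ z1 _ z2 x hx y hy
    have h2 : e i 1 - e j 1 + (e j 1 - e i 1) = (0 : I → ℤ) := by abel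
    rw [h2, h.zero] at h1
    refine ⟨j, hj, x, hx0, hx, ?_⟩
    have h3 : x⁻¹ = (⟨(x * y)⁻¹, K.inv_mem h1⟩ : K) • y := by
      rw [Subfield.smul_def, smul_eq_mul]
      field_simp
    rw [h3]
    exact Submodule.smul_mem _ _ hy
  · have hH : ∀ j ∈ J, ∀ l : ℕ, Module.finrank K (V (e j l)) = l + 1 := by
      intro j hj l
      rw [hdim' _ (Nn_e hj (Int.natCast_nonneg l)), Finset.prod_eq_single_of_mem j hj]
      · rw [e_same, Int.toNat_natCast]
      · intro i _ hij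
        rw [e_ne hij, Int.toNat_zero, zero_add]
    have hc : (J.card : ℕ∞) = nu V J := by
      apply le_antisymm
      · refine (Final_card r₀ r₁ (fun j hj => ⟨(hP j hj).mem₀, (hP j hj).mem₁, (hP j hj).ne₀⟩)
          hind).trans (h.nu_bV_le hJ)
      · rw [hcard, nu_toNat hFG]
        exact nu_mono hJ
    exact Main_indep h hJ hc s₀ s₁ fun j hj =>
      Final_pencil h (hJ hj) (hH j hj) (hss j hj).1 (hss j hj).2.1 (hss j hj).2.2.1
        (hss j hj).2.2.2

end KM
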