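import Pool.Agent.Lib.MP_732f67_ag.KM.Gr

/-! KM part A, file 16: regular sequence + finite ⇒ homogeneous basis.

For every `l` choose elements of `R l` which form a `K`-basis of `R l` modulo
`∑ j, x j * R (l - m)`; for large `l` there are none (`HFin`), for `l < 0` none: a finite family
`b ν ∈ R (δ ν)`.  `span`: strong induction on `l`.  `ind`: prove by downward induction on `j` (from
`j = n` to `0`) the statement: if the `P ν` involve only the variables `X i`, `i ≥ j`, are `HAt`, and
`∑ P ν (x) b ν ∈ ∑_{i < j} x i R (l - m)`, then all `P ν = 0`.  `j = n`: the `P ν` are constants,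
choice of the `b ν`.  Step `j + 1 → j`: strong induction on `l`: `P ν = P⁰ ν + X j * P¹ ν`, the case
`j + 1` gives `P⁰ = 0`, then `HReg` for `x j` and the case `l - m` give `P¹ = 0`. -/

namespace KM

variable {L : Type*} [Field L] {K : Subfield L} {R : ℤ → Submodule K L} {m₀ : ℕ}

namespace FreeBAux

/-- sums of multiples of the parameters in `T` -/
def JJ (R : ℤ → Submodule K L) (m : ℕ) {n : ℕ} (x : Fin n → L) (T : Finset (Fin n)) (l : ℤ) :
    Submodule K L where
  carrier := {z | ∃ w : Fin n → L, (∀ i, w i ∈ R (l - m)) ∧ z = ∑ i ∈ T, x i * w i}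
  add_mem' := by
    rintro a b ⟨w, hw, rfl⟩ ⟨v, hv, rfl⟩
    exact ⟨fun i => w i + v i, fun i => (R _).add_mem (hw i) (hv i), by
      simp only [mul_add, Finset.sum_add_distrib]⟩
  zero_mem' := ⟨fun _ => 0, fun _ => (R _).zero_mem, by simp⟩
  smul_mem' := by
    rintro c a ⟨w, hw, rfl⟩
    exact ⟨fun i => c • w i, fun i => (R _).smul_mem _ (hw i), by
      simp only [Finset.smul_sum, mul_smul_comm]⟩

/-- the parameters before `j` -/
def TT (n j : ℕ) : Finset (Fin n) := Finset.univ.filter (fun i => i.val < j)

theorem TT_Iio {n : ℕ} (j : Fin n) : TT n j.val = Finset.Iio j := by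
  ext i
  simp only [TT, Finset.mem_filter, Finset.mem_univ, true_and, Finset.mem_Iio, Fin.lt_def]

theorem TT_succ {n : ℕ} (j : Fin n) : TT n (j.val + 1) = insert j (TT n j.val) := by
  ext i
  simp only [TT, Finset.mem_filter, Finset.mem_univ, true_and, Finset.mem_insert, Fin.ext_iff]
  omega

theorem TT_not {n : ℕ} (j : Fin n) : j ∉ TT n j.val := by
  simp [TT]

/-- `P` involves only the variables `X i`, `i ≥ j` -/
def Only {n : ℕ} (j : ℕ) (P : MvPolynomial (Fin n) K) : Prop :=
  ∀ β ∈ P.support, ∀ i : Fin n, i.val < j → β i = 0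

theorem one_mem (hG : Gr K R m₀) : (1 : L) ∈ R 0 := (hG.zero 1).2 K.one_mem

theorem pow_mem' (hG : Gr K R m₀) {m : ℕ} {y : L} (hy : y ∈ R m) (c : ℕ) :
    y ^ c ∈ R ((m : ℤ) * (c : ℕ)) := by
  induction c with
  | zero => simpa using one_mem hG
  | succ c ih =>
    rw [pow_succ]
    have h := hG.mul _ _ _ ih _ hy
    have e : (m : ℤ) * ((c + 1 : ℕ) : ℤ) = (m : ℤ) * (c : ℕ) + m := by push_cast; ring
    rwa [e]

theorem mono_mem (hG : Gr K R m₀) {m n : ℕ} {x : Fin n → L} (hx : ∀ j, x j ∈ R m)
    (β : Fin n →₀ ℕ) : (∏ i ∈ β.support, x i ^ β i) ∈ R ((m : ℤ) * (β.degree : ℕ)) := by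
  change β.prod (fun j c => x j ^ c) ∈ _
  induction β using Finsupp.induction_linear with
  | zero => simpa using one_mem hG
  | add f g hf hg =>
    rw [Finsupp.prod_add_index' (fun _ => pow_zero _) (fun _ _ _ => pow_add _ _ _)]
    have h := hG.mul _ _ _ hf _ hg
    have e : (m : ℤ) * (((f + g).degree : ℕ) : ℤ) = (m : ℤ) * (f.degree : ℕ) + m * (g.degree : ℕ) := by
      rw [map_add]
      push_cast
      ring
    rwa [e]
  | single a b =>
    rw [Finsupp.prod_single_index (h := fun j c => x j ^ c) (pow_zero _), Finsupp.degree_single]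
    exact pow_mem' hG (hx a) b

theorem aeval_mem (hG : Gr K R m₀) {m n : ℕ} {x : Fin n → L} (hx : ∀ j, x j ∈ R m) {δ l : ℤ}
    {P : MvPolynomial (Fin n) K} (hP : HAt m δ l P) {b : L} (hb : b ∈ R δ) :
    MvPolynomial.aeval x P * b ∈ R l := by
  rw [MvPolynomial.aeval_def, MvPolynomial.eval₂_eq, Finset.sum_mul]
  refine Submodule.sum_mem _ (fun β hβ => ?_)
  have h1 := hG.mul _ _ _ (mono_mem hG hx β) _ hb
  rw [hP β hβ] at h1
  have h2 := (R l).smul_mem (P.coeff β) h1
  rw [Subfield.smul_def, smul_eq_mul, ← mul_assoc] at h2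
  exact h2

theorem HAt_X_mul {m n : ℕ} {δ l : ℤ} {P : MvPolynomial (Fin n) K} (j : Fin n)
    (hP : HAt m δ (l - m) P) : HAt m δ l (MvPolynomial.X j * P) := by
  classical
  intro β hβ
  rw [MvPolynomial.support_X_mul, Finset.mem_map] at hβ
  obtain ⟨γ, hγ, rfl⟩ := hβ
  have h := hP γ hγ
  simp only [addLeftEmbedding_apply, map_add, Finsupp.degree_single]
  push_cast
  linear_combination h

theorem HAt_add {m n : ℕ} {δ l : ℤ} {P Q : MvPolynomial (Fin n) K}
    (hP : HAt m δ l P) (hQ : HAt m δ l Q) : HAt m δ l (P + Q) := by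
  classical
  intro β hβ
  rcases Finset.mem_union.1 (MvPolynomial.support_add hβ) with h | h
  · exact hP β h
  · exact hQ β h

theorem HAt_zero {m n : ℕ} {δ l : ℤ} : HAt m δ l (0 : MvPolynomial (Fin n) K) := by
  intro β hβ
  rw [MvPolynomial.support_zero] at hβ
  exact absurd hβ (Finset.notMem_empty _)

theorem HAt_sum {m n : ℕ} {δ l : ℤ} {κ : Type*} (s : Finset κ) (P : κ → MvPolynomial (Fin n) K)
    (hP : ∀ i ∈ s, HAt m δ l (P i)) : HAt m δ l (∑ i ∈ s, P i) := by
  classical
  induction s using Finset.induction_on with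
  | empty => exact HAt_zero
  | insert a s ha ih =>
    rw [Finset.sum_insert ha]
    exact HAt_add (hP a (Finset.mem_insert_self _ _))
      (ih (fun i hi => hP i (Finset.mem_insert_of_mem hi)))

theorem HAt_C {m n : ℕ} {l : ℤ} (c : K) : HAt m l l (MvPolynomial.C c : MvPolynomial (Fin n) K) := by
  classical
  intro β hβ
  rw [MvPolynomial.mem_support_iff, MvPolynomial.coeff_C] at hβ
  have : β = 0 := by
    by_contra h
    exact hβ (if_neg (fun h' => h h'.symm))
  subst this
  simp

theorem HAt_div {m n : ℕ} {δ l : ℤ} {P : MvPolynomial (Fin n) K} (j : Fin n)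
    (hP : HAt m δ l P) : HAt m δ (l - m) (P.divMonomial (Finsupp.single j 1)) := by
  intro β hβ
  rw [MvPolynomial.mem_support_iff, MvPolynomial.coeff_divMonomial] at hβ
  have h := hP _ (MvPolynomial.mem_support_iff.2 hβ)
  rw [map_add, Finsupp.degree_single] at h
  push_cast at h
  linear_combination h

theorem HAt_mod {m n : ℕ} {δ l : ℤ} {P : MvPolynomial (Fin n) K} (j : Fin n)
    (hP : HAt m δ l P) : HAt m δ l (P.modMonomial (Finsupp.single j 1)) := by
  intro β hβ
  rw [MvPolynomial.mem_support_iff] at hβ
  have hle : ¬ Finsupp.single j 1 ≤ β := fun h =>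
    hβ (MvPolynomial.coeff_modMonomial_of_le P h)
  rw [MvPolynomial.coeff_modMonomial_of_not_le P hle] at hβ
  exact hP _ (MvPolynomial.mem_support_iff.2 hβ)

theorem Only_div {n : ℕ} {P : MvPolynomial (Fin n) K} (j : Fin n)
    (hP : Only j.val P) : Only j.val (P.divMonomial (Finsupp.single j 1)) := by
  intro β hβ i hi
  rw [MvPolynomial.mem_support_iff, MvPolynomial.coeff_divMonomial] at hβ
  have h := hP _ (MvPolynomial.mem_support_iff.2 hβ) i hi
  rw [Finsupp.add_apply] at h
  omega

theorem Only_mod {n : ℕ} {P : MvPolynomial (Fin n) K} (j : Fin n)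
    (hP : Only j.val P) : Only (j.val + 1) (P.modMonomial (Finsupp.single j 1)) := by
  intro β hβ i hi
  rw [MvPolynomial.mem_support_iff] at hβ
  have hle : ¬ Finsupp.single j 1 ≤ β := fun h =>
    hβ (MvPolynomial.coeff_modMonomial_of_le P h)
  rw [MvPolynomial.coeff_modMonomial_of_not_le P hle] at hβ
  rcases Nat.lt_succ_iff_lt_or_eq.1 hi with h | h
  · exact hP _ (MvPolynomial.mem_support_iff.2 hβ) i h
  · have hij : i = j := Fin.ext h
    subst hij
    by_contra h0
    apply hle
    rw [Finsupp.single_le_iff]
    omega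

end FreeBAux

open FreeBAux in
theorem exists_basis (hG : Gr K R m₀) {m n : ℕ} (hm : m₀ ≤ m) {x : Fin n → L}
    (hx : ∀ j, x j ∈ R m) (hf : HFin R m x) (hr : HReg R m x) :
    ∃ (ι : Type) (_ : Fintype ι) (b : ι → L) (δ : ι → ℤ), HBasis K R m x b δ := by
  classical
  obtain ⟨D, hD⟩ := hf
  have hm0 : 0 < m := lt_of_lt_of_le hG.pos hm
  have hcomp : ∀ l : ℤ, ∃ C : Submodule K L, C ≤ R l ∧
      JJ R m x Finset.univ l ⊔ C = R l ∧ Disjoint (JJ R m x Finset.univ l) C := by
    intro l
    have hJle : JJ R m x Finset.univ l ≤ R l := by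
      rintro z ⟨w, hw, rfl⟩
      refine Submodule.sum_mem _ (fun i _ => ?_)
      have h := hG.mul _ _ _ (hx i) _ (hw i)
      have e : (m : ℤ) + (l - m) = l := by ring
      rwa [e] at h
    obtain ⟨C0, hC0⟩ := Submodule.exists_isCompl (JJ R m x Finset.univ l)
    refine ⟨C0 ⊓ R l, inf_le_right, ?_, hC0.disjoint.mono_right inf_le_left⟩
    rw [← sup_inf_assoc_of_le _ hJle, hC0.sup_eq_top, top_inf_eq]
  choose C hCle hCsup hCdis using hcomp
  have hfin : ∀ l, Module.Finite K (C l) := by
    intro l
    have h1 : Module.Finite K (R l) := Module.Finite.iff_fg.2 (hG.fg l)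
    exact Module.Finite.iff_fg.2 (Submodule.FG.of_le (hG.fg l) (hCle l))
  let B : ℕ := (D + m).toNat
  -- no new elements in large degrees
  have hbig : ∀ l : ℤ, (B : ℤ) ≤ l → ∀ z ∈ C l, z = 0 := by
    intro l hl z hz
    have hz' : z ∈ JJ R m x Finset.univ l := by
      have hl' : D ≤ l - m := by
        have := Int.self_le_toNat (D + m)
        linarith
      obtain ⟨y, hy, hzy⟩ := hD (l - m) hl' z (by
        have e : l - (m : ℤ) + m = l := by ring
        rw [e]
        exact hCle l hz)
      exact ⟨y, hy, hzy⟩
    exact (Submodule.disjoint_def.1 (hCdis l)) z hz' hz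
  let ι : Type := Σ l : Fin B, Fin (Module.finrank K (C ((l.val : ℕ) : ℤ)))
  let bas : ∀ l : ℤ, Module.Basis (Fin (Module.finrank K (C l))) K (C l) := fun l =>
    Module.finBasis K (C l)
  let b : ι → L := fun ν => ((bas ((ν.1.val : ℕ) : ℤ) ν.2 : C ((ν.1.val : ℕ) : ℤ)) : L)
  let δ : ι → ℤ := fun ν => ((ν.1.val : ℕ) : ℤ)
  have hbmem : ∀ ν, b ν ∈ R (δ ν) := fun ν => hCle _ (bas ((ν.1.val : ℕ) : ℤ) ν.2).2
  have hδ : ∀ ν, 0 ≤ δ ν := fun ν => Int.natCast_nonneg _
  refine ⟨ι, inferInstance, b, δ, hbmem, hδ, ?_, ?_⟩
  · -- generation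
    have hC' : ∀ l : ℤ, ∀ z ∈ C l, ∃ P : ι → MvPolynomial (Fin n) K,
        (∀ ν, HAt m (δ ν) l (P ν)) ∧ z = ∑ ν, MvPolynomial.aeval x (P ν) * b ν := by
      intro l z hz
      by_cases hl : 0 ≤ l ∧ l < B
      · obtain ⟨l', rfl⟩ := Int.eq_ofNat_of_zero_le hl.1
        have hl' : l' < B := by exact_mod_cast hl.2
        let c := (bas ((l' : ℕ) : ℤ)).repr ⟨z, hz⟩
        have hzc : z = ∑ i, (c i : K) • ((bas ((l' : ℕ) : ℤ) i : C ((l' : ℕ) : ℤ)) : L) := by
          have h1 := (bas ((l' : ℕ) : ℤ)).sum_repr ⟨z, hz⟩
          have h2 := congrArg (Submodule.subtype _) h1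
          rw [map_sum] at h2
          simp only [map_smul, Submodule.subtype_apply] at h2
          exact h2.symm
        refine ⟨fun ν => if h : ν.1 = (⟨l', hl'⟩ : Fin B) then
          MvPolynomial.C (c (Fin.cast (by rw [h]) ν.2)) else 0, ?_, ?_⟩
        · rintro ⟨i, ν⟩
          by_cases h : i = (⟨l', hl'⟩ : Fin B)
          · subst h
            simp only [dif_pos]
            exact HAt_C _
          · simp only [dif_neg h]
            exact HAt_zero
        · rw [Fintype.sum_sigma, Finset.sum_eq_single (⟨l', hl'⟩ : Fin B)]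
          · simp only [dif_pos]
            rw [hzc]
            refine Finset.sum_congr rfl (fun i _ => ?_)
            rw [MvPolynomial.aeval_C, Subfield.smul_def, smul_eq_mul]
            rfl
          · intro i _ hi
            refine Finset.sum_eq_zero (fun ν _ => ?_)
            simp only [dif_neg hi, map_zero, zero_mul]
          · intro h
            exact absurd (Finset.mem_univ _) h
      · have hz0 : z = 0 := by
          rw [not_and_or, not_le, not_lt] at hl
          rcases hl with hl | hl
          · exact hG.neg l hl z (hCle l hz)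
          · exact hbig l hl z hz
        refine ⟨fun _ => 0, fun _ => HAt_zero, ?_⟩
        rw [hz0]
        simp
    have key : ∀ N : ℕ, ∀ l : ℤ, l < N → ∀ z ∈ R l, ∃ P : ι → MvPolynomial (Fin n) K,
        (∀ ν, HAt m (δ ν) l (P ν)) ∧ z = ∑ ν, MvPolynomial.aeval x (P ν) * b ν := by
      intro N
      induction N with
      | zero =>
        intro l hl z hz
        have hz0 := hG.neg l (by exact_mod_cast hl) z hz
        refine ⟨fun _ => 0, fun _ => HAt_zero, ?_⟩
        rw [hz0]
        simp
      | succ N ih =>
        intro l hl z hz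
        rw [← hCsup l] at hz
        obtain ⟨u, ⟨w, hw, rfl⟩, c, hc, rfl⟩ := Submodule.mem_sup.1 hz
        obtain ⟨P, hP, hPc⟩ := hC' l c hc
        have hlt : l - m < (N : ℤ) := by
          have : (1 : ℤ) ≤ m := by exact_mod_cast hm0
          push_cast at hl
          linarith
        choose Q hQ hQw using fun j : Fin n => ih (l - m) hlt (w j) (hw j)
        refine ⟨fun ν => (∑ j, MvPolynomial.X j * Q j ν) + P ν, fun ν => HAt_add
          (HAt_sum _ _ (fun j _ => HAt_X_mul j (hQ j ν))) (hP ν), ?_⟩
        simp only [map_add, add_mul, Finset.sum_add_distrib]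
        rw [← hPc]
        congr 1
        simp only [map_sum, map_mul, MvPolynomial.aeval_X, Finset.sum_mul]
        rw [Finset.sum_comm]
        refine Finset.sum_congr rfl (fun j _ => ?_)
        conv_lhs => rw [hQw j, Finset.mul_sum]
        refine Finset.sum_congr rfl (fun ν _ => ?_)
        ring
    intro l z hz
    exact key (l.toNat + 1) l (by
      have := Int.self_le_toNat l
      push_cast
      linarith) z hz
  · -- independence
    have hneg : ∀ l : ℤ, l < 0 → ∀ P : ι → MvPolynomial (Fin n) K, (∀ ν, HAt m (δ ν) l (P ν)) →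
        ∀ ν, P ν = 0 := by
      intro l hl P hP ν
      rw [← MvPolynomial.support_eq_empty, Finset.eq_empty_iff_forall_notMem]
      intro β hβ
      have h1 := hP ν β hβ
      have h2 := hδ ν
      have h3 : (0 : ℤ) ≤ (m : ℤ) * (β.degree : ℕ) := by positivity
      linarith
    have claim : ∀ k : ℕ, ∀ j : ℕ, j + k = n → ∀ l : ℤ, ∀ P : ι → MvPolynomial (Fin n) K,
        (∀ ν, HAt m (δ ν) l (P ν)) → (∀ ν, Only j (P ν)) →
        ∑ ν, MvPolynomial.aeval x (P ν) * b ν ∈ JJ R m x (TT n j) l → ∀ ν, P ν = 0 := by
      intro k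
      induction k with
      | zero =>
        intro j hj l P hP hO hmem
        have hjn : j = n := by omega
        subst hjn
        have hconst : ∀ ν, P ν = MvPolynomial.C ((P ν).coeff 0) := by
          intro ν
          ext β
          rw [MvPolynomial.coeff_C]
          by_cases hβ : β = 0
          · subst hβ
            rw [if_pos rfl]
          · rw [if_neg (fun h => hβ h.symm)]
            by_contra hne
            apply hβ
            ext i
            exact hO ν β (MvPolynomial.mem_support_iff.2 (fun h => hne (by rw [h]))) i i.2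
        have hTT : TT j j = Finset.univ := by
          ext i
          simp [TT]
        rw [hTT] at hmem
        -- coefficients vanish outside degree `l`
        have hout : ∀ ν, δ ν ≠ l → (P ν).coeff 0 = 0 := by
          intro ν hν
          by_contra hne
          have h1 := hP ν 0 (MvPolynomial.mem_support_iff.2 hne)
          apply hν
          simpa using h1
        intro ν
        by_cases hν : δ ν = l
        · obtain ⟨l0, i0⟩ := ν
          have hl : (((l0.val : ℕ) : ℤ)) = l := hν
          subst hl
          have hsum : ∑ ν, MvPolynomial.aeval x (P ν) * b ν =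
              ((∑ i, (P ⟨l0, i⟩).coeff 0 • bas ((l0.val : ℕ) : ℤ) i : C ((l0.val : ℕ) : ℤ)) : L) := by
            rw [Fintype.sum_sigma, Finset.sum_eq_single l0]
            · rw [← Submodule.subtype_apply, map_sum]
              refine Finset.sum_congr rfl (fun i _ => ?_)
              rw [hconst, MvPolynomial.aeval_C, map_smul, Subfield.smul_def, smul_eq_mul,
                MvPolynomial.coeff_C, if_pos rfl]
              rfl
            · intro i _ hi
              refine Finset.sum_eq_zero (fun ν _ => ?_)
              have hne : δ ⟨i, ν⟩ ≠ ((l0.val : ℕ) : ℤ) := by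
                intro h
                have h' : ((i.val : ℕ) : ℤ) = ((l0.val : ℕ) : ℤ) := h
                exact hi (Fin.ext (by exact_mod_cast h'))
              rw [hconst, hout ⟨i, ν⟩ hne]
              simp
            · intro h
              exact absurd (Finset.mem_univ _) h
          rw [hsum] at hmem
          have h0 := (Submodule.disjoint_def.1 (hCdis ((l0.val : ℕ) : ℤ))) _ hmem
            (Submodule.coe_mem _)
          have h1 : (∑ i, (P ⟨l0, i⟩).coeff 0 • bas ((l0.val : ℕ) : ℤ) i :
              C ((l0.val : ℕ) : ℤ)) = 0 := Subtype.ext h0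
          have h2 := (Fintype.linearIndependent_iff.1
            (bas ((l0.val : ℕ) : ℤ)).linearIndependent) _ h1 i0
          rw [hconst, h2, MvPolynomial.C_0]
        · rw [hconst, hout ν hν, MvPolynomial.C_0]
      | succ k ih =>
        intro j hj
        have hjn : j < n := by omega
        -- induction on the degree
        have key : ∀ N : ℕ, ∀ l : ℤ, l < N → ∀ P : ι → MvPolynomial (Fin n) K,
            (∀ ν, HAt m (δ ν) l (P ν)) → (∀ ν, Only j (P ν)) →
            ∑ ν, MvPolynomial.aeval x (P ν) * b ν ∈ JJ R m x (TT n j) l → ∀ ν, P ν = 0 := by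
          intro N
          induction N with
          | zero =>
            intro l hl P hP _ _
            exact hneg l (by exact_mod_cast hl) P hP
          | succ N ihN =>
            intro l hl P hP hO hmem
            let j' : Fin n := ⟨j, hjn⟩
            let P1 : ι → MvPolynomial (Fin n) K := fun ν =>
              (P ν).divMonomial (Finsupp.single j' 1)
            let P0 : ι → MvPolynomial (Fin n) K := fun ν =>
              (P ν).modMonomial (Finsupp.single j' 1)
            have hdec : ∀ ν, P ν = P0 ν + MvPolynomial.X j' * P1 ν := fun ν =>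
              (MvPolynomial.modMonomial_add_divMonomial_single (P ν) j').symm
            have hP1 : ∀ ν, HAt m (δ ν) (l - m) (P1 ν) := fun ν => HAt_div j' (hP ν)
            have hP0 : ∀ ν, HAt m (δ ν) l (P0 ν) := fun ν => HAt_mod j' (hP ν)
            have hO1 : ∀ ν, Only j (P1 ν) := fun ν => Only_div j' (hO ν)
            have hO0 : ∀ ν, Only (j + 1) (P0 ν) := fun ν => Only_mod j' (hO ν)
            set z : L := ∑ ν, MvPolynomial.aeval x (P1 ν) * b ν with hz
            have hzR : z ∈ R (l - m) := Submodule.sum_mem _ (fun ν _ =>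
              aeval_mem hG hx (hP1 ν) (hbmem ν))
            have hs : ∑ ν, MvPolynomial.aeval x (P ν) * b ν =
                (∑ ν, MvPolynomial.aeval x (P0 ν) * b ν) + x j' * z := by
              rw [hz, Finset.mul_sum, ← Finset.sum_add_distrib]
              refine Finset.sum_congr rfl (fun ν _ => ?_)
              conv_lhs => rw [hdec ν]
              rw [map_add, map_mul, MvPolynomial.aeval_X]
              ring
            obtain ⟨w, hw, hwsum⟩ := hmem
            rw [hs] at hwsum
            -- the part without `X j`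
            have hz0 : ∀ ν, P0 ν = 0 := by
              refine ih (j + 1) (by omega) l P0 hP0 hO0 ?_
              refine ⟨Function.update w j' (-z), ?_, ?_⟩
              · intro i
                by_cases hi : i = j'
                · subst hi
                  rw [Function.update_self]
                  exact (R _).neg_mem hzR
                · rw [Function.update_of_ne hi]
                  exact hw i
              · rw [show TT n (j + 1) = insert j' (TT n j) from TT_succ j',
                  Finset.sum_insert (TT_not j'), Function.update_self]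
                have h1 : ∑ i ∈ TT n j, x i * Function.update w j' (-z) i =
                    ∑ i ∈ TT n j, x i * w i := by
                  refine Finset.sum_congr rfl (fun i hi => ?_)
                  have hne : i ≠ j' := by
                    rintro rfl
                    exact TT_not _ hi
                  rw [Function.update_of_ne hne]
                rw [h1, ← hwsum]
                ring
            have hxz : x j' * z = ∑ i ∈ Finset.Iio j', x i * w i := by
              rw [← TT_Iio]
              have h1 : ∑ ν, MvPolynomial.aeval x (P0 ν) * b ν = 0 :=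
                Finset.sum_eq_zero (fun ν _ => by rw [hz0 ν, map_zero, zero_mul])
              rw [h1, zero_add] at hwsum
              exact hwsum
            obtain ⟨w', hw', hzw⟩ := hr j' (l - m) z hzR w hw hxz
            have hlt : l - m < (N : ℤ) := by
              have : (1 : ℤ) ≤ m := by exact_mod_cast hm0
              push_cast at hl
              linarith
            have hz1 : ∀ ν, P1 ν = 0 := by
              refine ihN (l - m) hlt P1 hP1 hO1 ⟨w', hw', ?_⟩
              rw [← TT_Iio] at hzw
              exact hzw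
            intro ν
            rw [hdec ν, hz0 ν, hz1 ν, mul_zero, add_zero]
        intro l P hP hO hmem
        exact key (l.toNat + 1) l (by
          have := Int.self_le_toNat l
          push_cast
          linarith) P hP hO hmem
    intro l P hP hsum
    refine claim n 0 (zero_add n) l P hP (fun ν β _ i hi => absurd hi (Nat.not_lt_zero _)) ?_
    rw [hsum]
    exact Submodule.zero_mem _

end KM
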