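import Pool.Agent.Lib.MP_732f67_ag.KM.Basic

/-! KM part A, file 2: the fields of ratios (F1).

* `mem_LS`: `Rat V S'` is closed under the field operations (common degree `u + u'`, products).
* `ratio_mem`: multiply numerator and denominator by a nonzero element of a large degree.
* `LS_closed`: let `x ≠ 0` be algebraic over `LS V S'`; clear denominators:
  `b 0 * x ^ (r+1) = ∑ b (j+1) * x ^ (r-j)` with all `b j ∈ V u`, the same `u ∈ Nn S'`, `b 0 ≠ 0`.
  Then `y = b 0 * x` satisfies `y ^ (r+1) = ∑ (b (j+1) * b 0 ^ j) * y ^ (r-j)` and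
  `b (j+1) * b 0 ^ j ∈ V ((j+1) • u)`, so `y ∈ V u` by `ic`, and `x = y / b 0`.
-/

namespace KM

variable {L I : Type*} [Field L] [DecidableEq I] {K : Subfield L}
  {V : (I → ℤ) → Submodule K L} {S : Finset I} {m₀ : ℕ}

theorem Nn_mono' {S₁ S₂ : Finset I} (hS : S₁ ⊆ S₂) {t : I → ℤ} (ht : t ∈ Nn S₁) : t ∈ Nn S₂ :=
  ⟨ht.1, fun i hi => ht.2 i (fun h => hi (hS h))⟩

theorem Zs_mono' {S₁ S₂ : Finset I} (hS : S₁ ⊆ S₂) {t : I → ℤ} (ht : t ∈ Zs S₁) : t ∈ Zs S₂ :=
  fun i hi => ht i (fun h => hi (hS h))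

theorem Nn_Zs' {S₁ : Finset I} {t : I → ℤ} (ht : t ∈ Nn S₁) : t ∈ Zs S₁ := ht.2

theorem Nn_add' {S₁ : Finset I} {s t : I → ℤ} (hs : s ∈ Nn S₁) (ht : t ∈ Nn S₁) :
    s + t ∈ Nn S₁ :=
  ⟨fun i => add_nonneg (hs.1 i) (ht.1 i), fun i hi => by
    simp only [Pi.add_apply, hs.2 i hi, ht.2 i hi, add_zero]⟩

theorem Nn_zero' {S₁ : Finset I} : (0 : I → ℤ) ∈ Nn S₁ := ⟨fun _ => le_rfl, fun _ _ => rfl⟩

theorem Rat_mono {S₁ S₂ : Finset I} (hS : S₁ ⊆ S₂) : Rat V S₁ ⊆ Rat V S₂ := by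
  rintro x ⟨u, hu, r⟩
  exact ⟨u, Nn_mono' hS hu, r⟩

theorem LS_mono {S₁ S₂ : Finset I} (hS : S₁ ⊆ S₂) : LS V S₁ ≤ LS V S₂ :=
  Subfield.closure_mono (Rat_mono hS)

/-- the set of ratios as a subfield -/
def Sys.ratField (h : Sys K V S m₀) {S' : Finset I} (hS : S' ⊆ S) : Subfield L where
  carrier := Rat V S'
  mul_mem' := by
    rintro x y ⟨u, hu, g, hg, k, hk, hk0, rfl⟩ ⟨u', hu', g', hg', k', hk', hk0', rfl⟩
    have hz := Nn_Zs' (Nn_mono' hS hu)
    have hz' := Nn_Zs' (Nn_mono' hS hu')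
    exact ⟨u + u', Nn_add' hu hu', g * g', h.mul _ hz _ hz' _ hg _ hg', k * k',
      h.mul _ hz _ hz' _ hk _ hk', mul_ne_zero hk0 hk0', div_mul_div_comm _ _ _ _⟩
  one_mem' := ⟨0, Nn_zero', 1, h.one_mem, 1, h.one_mem, one_ne_zero, by simp⟩
  add_mem' := by
    rintro x y ⟨u, hu, g, hg, k, hk, hk0, rfl⟩ ⟨u', hu', g', hg', k', hk', hk0', rfl⟩
    have hz := Nn_Zs' (Nn_mono' hS hu)
    have hz' := Nn_Zs' (Nn_mono' hS hu')
    exact ⟨u + u', Nn_add' hu hu', g * k' + k * g',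
      (V (u + u')).add_mem (h.mul _ hz _ hz' _ hg _ hk') (h.mul _ hz _ hz' _ hk _ hg'), k * k',
      h.mul _ hz _ hz' _ hk _ hk', mul_ne_zero hk0 hk0', div_add_div _ _ hk0 hk0'⟩
  zero_mem' := ⟨0, Nn_zero', 0, (V 0).zero_mem, 1, h.one_mem, one_ne_zero, by simp⟩
  neg_mem' := by
    rintro x ⟨u, hu, g, hg, k, hk, hk0, rfl⟩
    exact ⟨u, hu, -g, (V u).neg_mem hg, k, hk, hk0, by rw [neg_div]⟩
  inv_mem' := by
    rintro x ⟨u, hu, g, hg, k, hk, hk0, rfl⟩
    by_cases hg0 : g = 0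
    · subst hg0
      exact ⟨0, Nn_zero', 0, (V 0).zero_mem, 1, h.one_mem, one_ne_zero, by simp⟩
    · exact ⟨u, hu, k, hk, g, hg, hg0, by rw [inv_div]⟩

theorem Sys.mem_LS (h : Sys K V S m₀) {S' : Finset I} (hS : S' ⊆ S) {x : L} :
    x ∈ LS V S' ↔ x ∈ Rat V S' := by
  constructor
  · intro hx
    have : LS V S' ≤ h.ratField hS := Subfield.closure_le.2 (fun y hy => hy)
    exact this hx
  · intro hx
    exact Subfield.subset_closure hx

theorem Sys.le_LS (h : Sys K V S m₀) {S' : Finset I} (hS : S' ⊆ S) : K ≤ LS V S' := by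
  intro x hx
  rw [h.mem_LS hS]
  exact ⟨0, Nn_zero', x, (h.zero x).2 hx, 1, h.one_mem, one_ne_zero, by simp⟩

/-- two elements have a common denominator -/
theorem Sys.common (h : Sys K V S m₀) {S' : Finset I} (hS : S' ⊆ S) (X : Finset L)
    (hX : ∀ x ∈ X, x ∈ LS V S') : ∃ u ∈ Nn S', ∃ g ∈ V u, g ≠ 0 ∧ ∀ x ∈ X, x * g ∈ V u := by
  classical
  induction X using Finset.induction_on with
  | empty => exact ⟨0, Nn_zero', 1, h.one_mem, one_ne_zero, by simp⟩
  | insert a X ha ih =>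
    obtain ⟨u, hu, g, hg, hg0, hall⟩ := ih (fun x hx => hX x (Finset.mem_insert_of_mem hx))
    obtain ⟨v, hv, c, hc, b, hb, hb0, rfl⟩ :=
      (h.mem_LS hS).1 (hX a (Finset.mem_insert_self _ _))
    have hz := Nn_Zs' (Nn_mono' hS hu)
    have hz' := Nn_Zs' (Nn_mono' hS hv)
    refine ⟨u + v, Nn_add' hu hv, g * b, h.mul _ hz _ hz' _ hg _ hb, mul_ne_zero hg0 hb0, ?_⟩
    intro x hx
    rcases Finset.mem_insert.1 hx with rfl | hx
    · have : c / b * (g * b) = g * c := by field_simp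
      rw [this]
      exact h.mul _ hz _ hz' _ hg _ hc
    · rw [← mul_assoc]
      exact h.mul _ hz _ hz' _ (hall x hx) _ hb

theorem Sys.ratio_mem (h : Sys K V S m₀) {S' : Finset I} (hS : S' ⊆ S) {t : I → ℤ}
    (ht : t ∈ Zs S') {x y : L} (hx : x ∈ V t) (hy : y ∈ V t) : x / y ∈ LS V S' := by
  classical
  by_cases hy0 : y = 0
  · subst hy0
    rw [div_zero]
    exact zero_mem _
  have h' := h.mono hS
  let u : I → ℤ := fun i => if i ∈ S' then (m₀ : ℤ) + |t i| else 0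
  have hu : u ∈ Nn S' := by
    refine ⟨fun i => ?_, fun i hi => ?_⟩
    · simp only [u]
      split_ifs
      · positivity
      · exact le_rfl
    · simp only [u, if_neg hi]
  obtain ⟨w, hw, hw0⟩ := h'.exists_ne hu (fun i => by
    simp only [u]
    split_ifs
    · right
      linarith [abs_nonneg (t i)]
    · left
      rfl)
  have htu : t + u ∈ Nn S' := by
    refine ⟨fun i => ?_, fun i hi => ?_⟩
    · simp only [u, Pi.add_apply]
      split_ifs with hi
      · have := neg_abs_le (t i)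
        have h2 : (0 : ℤ) ≤ m₀ := Int.natCast_nonneg _
        linarith
      · rw [ht i hi]
        simp
    · simp only [u, Pi.add_apply, if_neg hi, ht i hi, add_zero]
  rw [h.mem_LS hS]
  refine ⟨t + u, htu, x * w, h'.mul _ ht _ (Nn_Zs' hu) _ hx _ hw, y * w,
    h'.mul _ ht _ (Nn_Zs' hu) _ hy _ hw, mul_ne_zero hy0 hw0, ?_⟩
  rw [mul_div_mul_right _ _ hw0]

theorem Sys.LS_closed (h : Sys K V S m₀) {S' : Finset I} (hS : S' ⊆ S) {x : L}
    (hx : IsAlgebraic (LS V S') x) : x ∈ LS V S' := by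
  classical
  obtain ⟨P, hP0, hP⟩ := hx
  have h' := h.mono hS
  have hd0 : P.natDegree ≠ 0 := by
    intro h0
    rw [Polynomial.eq_C_of_natDegree_eq_zero h0, Polynomial.aeval_C] at hP
    apply hP0
    rw [Polynomial.eq_C_of_natDegree_eq_zero h0]
    have : P.coeff 0 = 0 := by
      apply (algebraMap (LS V S') L).injective
      rw [hP, map_zero]
    rw [this, Polynomial.C_0]
  obtain ⟨r, hr⟩ := Nat.exists_eq_succ_of_ne_zero hd0
  obtain ⟨u, hu, g, hg, hg0, hall⟩ := h.common hS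
    ((Finset.range (r + 2)).image (fun j => (P.coeff j : L))) (by
      intro y hy
      obtain ⟨j, _, rfl⟩ := Finset.mem_image.1 hy
      exact (P.coeff j).2)
  have hb : ∀ j ≤ r + 1, (P.coeff j : L) * g ∈ V u := fun j hj =>
    hall _ (Finset.mem_image.2 ⟨j, Finset.mem_range.2 (by omega), rfl⟩)
  have huz : u ∈ Zs S' := Nn_Zs' hu
  set b0 : L := (P.coeff (r + 1) : L) * g with hb0
  have hb0m : b0 ∈ V u := hb _ le_rfl
  have hb00 : b0 ≠ 0 := by
    refine mul_ne_zero ?_ hg0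
    intro h0
    have h1 : P.coeff (r + 1) = 0 := Subtype.ext h0
    have h2 : P.leadingCoeff = 0 := by
      rw [Polynomial.leadingCoeff, hr]
      exact h1
    exact hP0 (Polynomial.leadingCoeff_eq_zero.1 h2)
  have hsum : ∑ j ∈ Finset.range (r + 2), (P.coeff j : L) * x ^ j = 0 := by
    rw [Polynomial.aeval_eq_sum_range' (n := r + 2) (by omega)] at hP
    rw [← hP]
    refine Finset.sum_congr rfl (fun j _ => ?_)
    rfl
  -- the equation for `y`
  have hy : b0 * x ∈ V u := by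
    refine h'.ic u huz (b0 * x) r (fun j => -((P.coeff (r - j) : L) * g * b0 ^ j)) ?_ ?_
    · intro j hj
      refine (V ((j + 1) • u)).neg_mem ?_
      have h1 := h'.mul _ huz _ (show j • u ∈ Zs S' from fun i hi => by
        rw [Pi.smul_apply, huz i hi, smul_zero]) _ (hb (r - j) (by omega)) _
        (h'.pow_mem huz hb0m j)
      rwa [add_smul, one_smul, add_comm]
    · rw [Finset.sum_range_succ] at hsum
      have h1 : b0 * x ^ (r + 1) = - ∑ j ∈ Finset.range (r + 1), (P.coeff j : L) * g * x ^ j := by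
        have h2 := congrArg (fun z => g * z) hsum
        simp only [mul_add, mul_zero, Finset.mul_sum] at h2
        have h3 : ∑ j ∈ Finset.range (r + 1), (P.coeff j : L) * g * x ^ j =
            ∑ j ∈ Finset.range (r + 1), g * ((P.coeff j : L) * x ^ j) :=
          Finset.sum_congr rfl (fun j _ => by ring)
        rw [h3, hb0]
        linear_combination h2
      have h4 : (b0 * x) ^ (r + 1) = b0 ^ r * (b0 * x ^ (r + 1)) := by ring
      rw [h4, h1, ← Finset.sum_range_reflect, ← Finset.sum_neg_distrib, Finset.mul_sum]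
      refine Finset.sum_congr rfl (fun j hj => ?_)
      have hj' : j ≤ r := by
        have := Finset.mem_range.1 hj
        omega
      have e1 : r + 1 - 1 - j = r - j := by omega
      rw [e1]
      have e2 : b0 ^ r = b0 ^ j * b0 ^ (r - j) := by
        rw [← pow_add]
        congr 1
        omega
      rw [e2, mul_pow]
      ring
  rw [h.mem_LS hS]
  exact ⟨u, hu, b0 * x, hy, b0, hb0m, hb00, by rw [mul_div_cancel_left₀ _ hb00]⟩

end KM
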