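import Pool.Agent.Lib.MP_732f67_ag.KM.Sub
import Pool.Agent.Lib.MP_732f67_ag.KM.RatF

/-! KM part A, file 12: graded families of subspaces of `L` (one index `i`: `R l = V (e i l)`).

`Sys.gr`: restriction of the axioms to multiples of `e i` (`neg` from `neg_zero`).
`Split.gr`: `Split.mono` for `S' = {i}` (or (A5) directly) with `u = e i u₀`: `x₀ = x`. -/

namespace KM

variable {L : Type*} [Field L]

/-- a graded family (`R l = 0` for `l < 0`) -/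
structure Gr (K : Subfield L) (R : ℤ → Submodule K L) (m₀ : ℕ) : Prop where
  pos : 0 < m₀
  fg : ∀ l, (R l).FG
  neg : ∀ l < 0, ∀ x ∈ R l, x = 0
  zero : ∀ x, x ∈ R 0 ↔ x ∈ K
  mul : ∀ a b, ∀ x ∈ R a, ∀ y ∈ R b, x * y ∈ R (a + b)
  ne : ∀ m : ℕ, m₀ ≤ m → ∃ x ∈ R m, x ≠ 0
  reg : ∀ m : ℕ, m₀ ≤ m → ∃ C : ℕ, ∀ l : ℤ, (C : ℤ) ≤ l → R (l + m) ≤ R l * R m

/-- the ratios of a graded family -/
def GRat {K : Subfield L} (R : ℤ → Submodule K L) : Set L :=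
  {x | ∃ l, ∃ g ∈ R l, ∃ h ∈ R l, h ≠ 0 ∧ x = g / h}

/-- the splitting property of a graded family -/
def SplitG (p : ℕ) {K : Subfield L} (R : ℤ → Submodule K L) : Prop :=
  ∀ u : ℤ, ∀ c ∈ R u, c ≠ 0 → ∃ N : ℕ, ∃ ψ : L → L, IsInv (p ^ N) ψ ∧ ∃ x₀ : L, ψ (c * x₀) = 1 ∧
    ∀ l : ℤ, ∀ y ∈ R ((p : ℤ) ^ N * l + u), ψ (y * x₀) ∈ R l

variable {I : Type*} [DecidableEq I] {K : Subfield L}
  {V : (I → ℤ) → Submodule K L} {S : Finset I} {m₀ : ℕ} {p : ℕ} {a : I → ℝ}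

theorem Sys.gr (h : Sys K V S m₀) {i : I} (hi : i ∈ S) : Gr K (fun l => V (e i l)) m₀ where
  pos := h.pos
  fg l := h.fg (e i l) (Zs_e hi l)
  neg l hl x hx := by
    refine h.neg_zero (Zs_e hi l) (fun j => ?_) ?_ hx
    · by_cases hj : j = i
      · rw [hj, e_same]
        exact hl.le
      · rw [e_ne hj]
    · intro h0
      have h1 := congrFun h0 i
      rw [e_same, Pi.zero_apply] at h1
      exact hl.ne h1
  zero x := by
    rw [e_zero]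
    exact h.zero x
  mul a b x hx y hy := by
    rw [e_add]
    exact h.mul _ (Zs_e hi a) _ (Zs_e hi b) x hx y hy
  ne m hm := h.exists_ne_single hi hm
  reg m hm := by
    obtain ⟨C, hC⟩ := h.reg m hm i hi
    refine ⟨C, fun l hl => ?_⟩
    have h1 := hC (e i l) (Nn_e hi (le_trans (Int.natCast_nonneg C) hl)) (by rwa [e_same])
    rw [e_add]
    exact h1

theorem Sys.GRat_eq (h : Sys K V S m₀) {i : I} (hi : i ∈ S) :
    GRat (fun l => V (e i l)) = Rat V {i} := by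
  ext x
  constructor
  · rintro ⟨l, g, hg, w, hw, hw0, rfl⟩
    have hl : 0 ≤ l := by
      by_contra hl
      exact hw0 ((h.gr hi).neg l (not_le.1 hl) w hw)
    exact ⟨e i l, Nn_e (Finset.mem_singleton_self i) hl, g, hg, w, hw, hw0, rfl⟩
  · rintro ⟨u, hu, g, hg, w, hw, hw0, rfl⟩
    have h1 : e i (u i) = u := by
      have h2 := sum_e (Nn_Zs hu)
      rwa [Finset.sum_singleton] at h2
    rw [← h1] at hg hw
    exact ⟨u i, g, hg, w, hw, hw0, rfl⟩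

theorem Split.gr (hs : Split p V S a) (h : Sys K V S m₀) (hp : 2 ≤ p) (ha : ∀ i ∈ S, 0 < a i)
    {i : I} (hi : i ∈ S) : SplitG p (fun l => V (e i l)) := by
  intro u c hc hc0
  have hS : ({i} : Finset I) ⊆ S := Finset.singleton_subset_iff.2 hi
  have hu : 0 ≤ u := by
    by_contra hl
    exact hc0 ((h.gr hi).neg u (not_le.1 hl) c hc)
  obtain ⟨C, hC⟩ := hs.mono h hp ha hS (e i u) (Nn_e (Finset.mem_singleton_self i) hu) c hc hc0
  obtain ⟨N, -, T, hT, -, ψ, hψ, h1, x, hx, h2⟩ := hC 0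
  refine ⟨N, ψ, hψ, x, h2, fun l y hy => ?_⟩
  refine h1 (e i l) (Zs_e (Finset.mem_singleton_self i) l) _ ?_
  have h3 := h.mul _ (Zs_e hi _) _ (Zs_sub (Zs_mono hS (Nn_Zs hT)) (Zs_e hi u)) y hy x hx
  have h4 : e i ((p : ℤ) ^ N * l + u) + (T - e i u) = ((p : ℤ) ^ N) • e i l + T := by
    have h5 : e i ((p : ℤ) ^ N * l) = ((p : ℤ) ^ N) • e i l := by
      funext j
      rw [Pi.smul_apply]
      by_cases hj : j = i
      · rw [hj, e_same, e_same, smul_eq_mul]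
      · rw [e_ne hj, e_ne hj, smul_zero]
    rw [e_add, h5]
    abel
  rwa [h4] at h3

/-- homogeneous algebraic independence -/
def HInd (K : Subfield L) {n : ℕ} (x : Fin n → L) : Prop :=
  ∀ (k : ℕ) (P : MvPolynomial (Fin n) K), P.IsHomogeneous k → MvPolynomial.aeval x P = 0 → P = 0

/-- `R` is finite over the algebra generated by `x : Fin n → R m` -/
def HFin {K : Subfield L} (R : ℤ → Submodule K L) (m : ℕ) {n : ℕ} (x : Fin n → L) : Prop :=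
  ∃ D : ℤ, ∀ l : ℤ, D ≤ l → ∀ z ∈ R (l + m), ∃ y : Fin n → L, (∀ j, y j ∈ R l) ∧
    z = ∑ j, x j * y j

/-- `x` is a regular sequence on `R` -/
def HReg {K : Subfield L} (R : ℤ → Submodule K L) (m : ℕ) {n : ℕ} (x : Fin n → L) : Prop :=
  ∀ (j : Fin n) (l : ℤ), ∀ z ∈ R l, ∀ w : Fin n → L, (∀ i, w i ∈ R l) →
    x j * z = ∑ i ∈ Finset.Iio j, x i * w i →
    ∃ w' : Fin n → L, (∀ i, w' i ∈ R (l - m)) ∧ z = ∑ i ∈ Finset.Iio j, x i * w' i

/-- every monomial `β` of `P` satisfies `m |β| + δ = l` -/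
def HAt {K : Subfield L} {n : ℕ} (m : ℕ) (δ l : ℤ) (P : MvPolynomial (Fin n) K) : Prop :=
  ∀ β ∈ P.support, (m : ℤ) * (β.degree : ℕ) + δ = l

/-- homogeneous basis of `R` over the polynomial ring in `x` -/
structure HBasis (K : Subfield L) (R : ℤ → Submodule K L) (m : ℕ) {n : ℕ} (x : Fin n → L)
    {ι : Type} [Fintype ι] (b : ι → L) (δ : ι → ℤ) : Prop where
  mem : ∀ ν, b ν ∈ R (δ ν)
  nonneg : ∀ ν, 0 ≤ δ ν
  span : ∀ l, ∀ z ∈ R l, ∃ P : ι → MvPolynomial (Fin n) K, (∀ ν, HAt m (δ ν) l (P ν)) ∧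
    z = ∑ ν, MvPolynomial.aeval x (P ν) * b ν
  ind : ∀ l, ∀ P : ι → MvPolynomial (Fin n) K, (∀ ν, HAt m (δ ν) l (P ν)) →
    ∑ ν, MvPolynomial.aeval x (P ν) * b ν = 0 → ∀ ν, P ν = 0

end KM
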