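import Pool.Agent.Lib.MP_732f67_ag.KM.AsmG

/-!
KM: Hartogs in valuation form: `f` is a section of `t` if `f * eq i t ∈ O` for all valuation rings `O`
over a chart `i` whose residue field contains `n - 1` algebraically independent residues of ratios of
the generating sections.

PROOF. Copy of the proofs of `hartG_F` and `Atl.Good.hartG` (KM/AsmG): there the hypothesis on `E i`
and `hcod` is used only to show `f * eq i (m • u) ∈ O` for the valuation ring `O` from `exists_div`,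
after `res_change` to the ratios `s / g₀ i j` of the chart. For `hartV_F` the hypothesis is stated
for `eq i (m • u)`. In `Atl.Good.hartV` it is applied to `f ^ m` and `m • t`:
`f ^ m * eq i (m • t) = (f * eq i t) ^ m ∈ O`.
-/

namespace KM

variable {L : Type*} [Field L] {K : Subfield L} {ι I : Type*} [Fintype I] [DecidableEq I]
  {X : Atl K ι I} {m : ℕ}

/-- the claim on `F l` -/
theorem hartV_F [PerfectField K] (hFG : FG K) (h : X.Good m) {n : ℕ}
    (hn : rk K (Set.univ : Set L) = n) {W : I → Finset L} (hW : X.Gen m W)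
    (hbig : ∀ x : L, IsAlgebraic (Subfield.closure ((K : Set L) ∪
      {y | ∃ j, ∃ s ∈ W j, ∃ s' ∈ W j, y = s / s'}) : Subfield L) x)
    {g₀ : ι → I → L} (hg₀ : ∀ i j, g₀ i j ∈ W j ∧ UnitOf (X.A i) (g₀ i j * X.d i j ^ m))
    {u : I → ℤ} {f : L}
    (hf : ∀ (O : ValuationSubring L) (i : ι), (∀ x ∈ K, x ∈ O) → (∀ x ∈ X.A i, x ∈ O) →
      ∀ r : Fin (n - 1) → L, (∀ k, ∃ j, ∃ s ∈ W j, r k = s / g₀ i j) → ResInd K O r →
        f * X.eq i (m • u) ∈ O)
    {l : I → L} (hlW : ∀ j, l j ∈ W j) (hl : ∀ j, l j ≠ 0) (P : Subring L)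
    (hKP : ∀ x ∈ K, x ∈ P) (hWP : ∀ j, ∀ s ∈ W j, s / l j ∈ P) :
    IsIntegral P (f / ∏ j, l j ^ u j) := by
  classical
  set G : Finset L := Finset.univ.biUnion fun j => (W j).image fun s => s / l j with hGdef
  have hGmem : ∀ g, g ∈ G ↔ ∃ j, ∃ s ∈ W j, g = s / l j := by
    intro g
    rw [hGdef, Finset.mem_biUnion]
    constructor
    · rintro ⟨j, _, hj⟩
      obtain ⟨s, hs, rfl⟩ := Finset.mem_image.1 hj
      exact ⟨j, s, hs, rfl⟩
    · rintro ⟨j, s, hs, rfl⟩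
      exact ⟨j, Finset.mem_univ j, Finset.mem_image.2 ⟨s, hs, rfl⟩⟩
  have hle : Subring.closure ((K : Set L) ∪ G) ≤ P := by
    rw [Subring.closure_le]
    rintro x (hx | hx)
    · exact hKP x hx
    · obtain ⟨j, s, hs, rfl⟩ := (hGmem x).1 hx
      exact hWP j s hs
  have hcl : Subfield.closure ((K : Set L) ∪ {y | ∃ j, ∃ s ∈ W j, ∃ s' ∈ W j, y = s / s'}) =
      Subfield.closure ((K : Set L) ∪ G) := by
    refine le_antisymm ?_ ?_
    · rw [Subfield.closure_le]
      rintro x (hx | ⟨j, s, hs, s', hs', rfl⟩)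
      · exact Subfield.subset_closure (Or.inl hx)
      · have h1 : s / l j ∈ Subfield.closure ((K : Set L) ∪ G) :=
          Subfield.subset_closure (Or.inr ((hGmem _).2 ⟨j, s, hs, rfl⟩))
        have h2 : s' / l j ∈ Subfield.closure ((K : Set L) ∪ G) :=
          Subfield.subset_closure (Or.inr ((hGmem _).2 ⟨j, s', hs', rfl⟩))
        have h3 : s / s' = (s / l j) / (s' / l j) := (div_div_div_cancel_right₀ (hl j) s s').symm
        rw [h3]
        exact Subfield.div_mem _ h1 h2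
    · rw [Subfield.closure_le]
      rintro x (hx | hx)
      · exact Subfield.subset_closure (Or.inl hx)
      · obtain ⟨j, s, hs, rfl⟩ := (hGmem x).1 hx
        exact Subfield.subset_closure (Or.inr ⟨j, s, hs, l j, hlW j, rfl⟩)
  rw [hcl] at hbig
  by_contra hnot
  have hnot' : ¬ IsIntegral (Subring.closure ((K : Set L) ∪ G)) (f / ∏ j, l j ^ u j) := by
    intro hi
    refine hnot ?_
    exact IsIntegral.map_of_comp_eq (Subring.inclusion hle) (RingHom.id L) (by
      ext y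
      rfl) hi
  obtain ⟨O, hKO, hGO, hFO, r, hrG, hres⟩ := exists_div hFG hn.ge G hbig hnot'
  obtain ⟨i, hi⟩ := h.cover O hKO
  have hsec : ∀ j, ∀ s ∈ W j, s * X.d i j ^ m ∈ X.A i := by
    intro j s hs
    have h1 := hW.1 j s hs i
    rwa [hart_eq_e] at h1
  set s' : I → L := g₀ i with hs'
  have hs'W : ∀ j, s' j ∈ W j := fun j => (hg₀ i j).1
  have hs'U : ∀ j, UnitOf (X.A i) (s' j * X.d i j ^ m) := fun j => (hg₀ i j).2
  have hs'0 : ∀ j, s' j ≠ 0 := fun j h0 => (hs'U j).1 (by rw [h0, zero_mul])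
  have hd0 : ∀ j, X.d i j ^ m ≠ 0 := fun j => pow_ne_zero _ (X.ne i j)
  have hlinv : ∀ j, (l j * X.d i j ^ m)⁻¹ ∈ O := by
    intro j
    have h1 : (l j * X.d i j ^ m)⁻¹ = (s' j / l j) * (s' j * X.d i j ^ m)⁻¹ := by
      have := hs'0 j
      have := hl j
      have := hd0 j
      field_simp
    rw [h1]
    exact O.mul_mem _ _ (hGO _ ((hGmem _).2 ⟨j, s' j, hs'W j, rfl⟩)) (hi _ (hs'U j).2.2)
  set G' : Set L := {g | ∃ j, ∃ s ∈ W j, g = s / s' j} with hG'
  have hG'O : ∀ g ∈ G', g ∈ O := by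
    rintro g ⟨j, s, hs, rfl⟩
    have h1 : s / s' j = (s * X.d i j ^ m) * (s' j * X.d i j ^ m)⁻¹ := by
      rw [← div_eq_mul_inv, mul_div_mul_right _ _ (hd0 j)]
    rw [h1]
    exact O.mul_mem _ _ (hi _ (hsec j s hs)) (hi _ (hs'U j).2.2)
  obtain ⟨r', hr'G, hres'⟩ := res_change (G := (G : Set L)) hKO hG'O (by
    intro g hg
    obtain ⟨j, s, hs, rfl⟩ := (hGmem g).1 hg
    refine ⟨s / s' j, Subring.subset_closure (Or.inr ⟨j, s, hs, rfl⟩),
      l j / s' j, Subring.subset_closure (Or.inr ⟨j, l j, hlW j, rfl⟩),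
      div_ne_zero (hl j) (hs'0 j), ?_, ?_⟩
    · rw [inv_div]
      exact hGO _ ((hGmem _).2 ⟨j, s' j, hs'W j, rfl⟩)
    · exact (div_div_div_cancel_right₀ (hs'0 j) s (l j)).symm) hrG hres
  have hfO : f * X.eq i (m • u) ∈ O := hf O i hKO hi r' hr'G hres'
  apply hFO
  have hlu0 : (∏ j, (l j * X.d i j ^ m) ^ u j) ≠ 0 :=
    Finset.prod_ne_zero_iff.2 fun j _ => zpow_ne_zero _ (mul_ne_zero (hl j) (hd0 j))
  have h1 : f / ∏ j, l j ^ u j =
      (f * X.eq i (m • u)) * (∏ j, (l j * X.d i j ^ m) ^ u j)⁻¹ := by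
    rw [hart_key i u hl f, mul_assoc, mul_inv_cancel₀ hlu0, mul_one]
  rw [h1]
  refine O.mul_mem _ _ hfO ?_
  rw [← Finset.prod_inv_distrib]
  refine hart_prod_mem O _ _ fun j _ => ?_
  rw [← zpow_neg]
  exact hart_zpow_mem O (hi _ (hsec j (l j) (hlW j))) (hlinv j) _

/-- **Hartogs in valuation form** -/
theorem Atl.Good.hartV [PerfectField K] (hFG : FG K) (h : X.Good m) {n : ℕ}
    (hn : rk K (Set.univ : Set L) = n) {W : I → Finset L} (hW : X.Gen m W)
    (hbig : ∀ x : L, IsAlgebraic (Subfield.closure ((K : Set L) ∪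
      {y | ∃ j, ∃ s ∈ W j, ∃ s' ∈ W j, y = s / s'}) : Subfield L) x)
    {g₀ : ι → I → L} (hg₀ : ∀ i j, g₀ i j ∈ W j ∧ UnitOf (X.A i) (g₀ i j * X.d i j ^ m))
    {t : I → ℤ} {f : L}
    (hf : ∀ (O : ValuationSubring L) (i : ι), (∀ x ∈ K, x ∈ O) → (∀ x ∈ X.A i, x ∈ O) →
      ∀ r : Fin (n - 1) → L, (∀ k, ∃ j, ∃ s ∈ W j, r k = s / g₀ i j) → ResInd K O r →
        f * X.eq i t ∈ O) :
    f ∈ X.V t := by
  classical
  -- it is enough to treat `f ^ m`
  have hfm : ∀ (O : ValuationSubring L) (i : ι), (∀ x ∈ K, x ∈ O) → (∀ x ∈ X.A i, x ∈ O) →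
      ∀ r : Fin (n - 1) → L, (∀ k, ∃ j, ∃ s ∈ W j, r k = s / g₀ i j) → ResInd K O r →
        f ^ m * X.eq i (m • t) ∈ O := by
    intro O i hK hA r hr hres
    have h1 : f ^ m * X.eq i (m • t) = (f * X.eq i t) ^ m := by
      rw [hart_eq_nsmul, mul_pow]
    rw [h1]
    exact O.toSubring.pow_mem (hf O i hK hA r hr hres) m
  intro i
  have hmain : f ^ m * X.eq i (m • t) ∈ X.A i := by
    refine h.closed i _ (hart_integral_of_val fun O hO => ?_)
    choose l hlW hlU using fun j => hW.2 i j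
    have hl0 : ∀ j, l j ≠ 0 := fun j h0 => (hlU j).1 (by rw [h0, zero_mul])
    have hd0 : ∀ j, X.d i j ^ m ≠ 0 := fun j => pow_ne_zero _ (X.ne i j)
    have hint := hartV_F hFG h hn hW hbig hg₀ hfm hlW hl0 (X.A i) (X.le i) (by
      intro j s hs
      have h1 : s / l j = (s * X.d i j ^ m) * (l j * X.d i j ^ m)⁻¹ := by
        rw [← div_eq_mul_inv, mul_div_mul_right _ _ (hd0 j)]
      rw [h1]
      refine (X.A i).mul_mem ?_ (hlU j).2.2
      have h2 := hW.1 j s hs i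
      rwa [hart_eq_e] at h2)
    rw [hart_key i t hl0]
    refine O.mul_mem _ _ (hart_mem_of_integral hint O hO) ?_
    exact hart_prod_mem O _ _ fun j _ => hart_zpow_mem O (hO _ (hlU j).2.1) (hO _ (hlU j).2.2) _
  refine h.closed i _ ?_
  rw [hart_eq_nsmul, ← mul_pow] at hmain
  have h2 : IsIntegral (X.A i) ((f * X.eq i t) ^ m) := by
    have h3 := isIntegral_algebraMap (R := X.A i) (A := L) (x := ⟨_, hmain⟩)
    exact h3
  exact IsIntegral.of_pow h.pos h2

end KM
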