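import Mathlib

/-! KM part A: power series for the Hilbert series argument (used in `KM/Hilb`). -/

namespace KM

/-- the series `∑ (k + d choose d) X ^ (m k)` -/
noncomputable def hilbG (m d : ℕ) : PowerSeries ℤ :=
  PowerSeries.mk fun l => if m ∣ l then (((l / m + d).choose d : ℕ) : ℤ) else 0

theorem hilbG_coeff (m d l : ℕ) : PowerSeries.coeff l (hilbG m d) =
    if m ∣ l then (((l / m + d).choose d : ℕ) : ℤ) else 0 := PowerSeries.coeff_mk _ _

private theorem hilb_coeff_sub {m : ℕ} (g : PowerSeries ℤ) (l : ℕ) :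
    PowerSeries.coeff l ((1 - PowerSeries.X ^ m) * g) = PowerSeries.coeff l g -
      if m ≤ l then PowerSeries.coeff (l - m) g else 0 := by
  rw [sub_mul, one_mul, map_sub, PowerSeries.coeff_X_pow_mul']

private theorem hilbG_zero {m : ℕ} (hm : 0 < m) :
    (1 - PowerSeries.X ^ m : PowerSeries ℤ) * hilbG m 0 = 1 := by
  ext l
  rw [hilb_coeff_sub, hilbG_coeff, PowerSeries.coeff_one]
  rcases Nat.eq_zero_or_pos l with rfl | hl
  · rw [if_pos (dvd_zero m), if_neg (by omega), if_pos rfl]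
    simp
  · rw [if_neg hl.ne']
    by_cases hml : m ≤ l
    · rw [if_pos hml, hilbG_coeff]
      by_cases hd : m ∣ l
      · rw [if_pos hd, if_pos (Nat.dvd_sub hd dvd_rfl)]
        simp
      · rw [if_neg hd, if_neg (fun h => hd ((Nat.dvd_sub_iff_left hml dvd_rfl).1 h))]
        simp
    · rw [if_neg hml, if_neg (fun h => hml (Nat.le_of_dvd hl h))]
      simp

private theorem hilbG_succ {m : ℕ} (hm : 0 < m) (d : ℕ) :
    (1 - PowerSeries.X ^ m : PowerSeries ℤ) * hilbG m (d + 1) = hilbG m d := by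
  ext l
  rw [hilb_coeff_sub]
  simp only [hilbG_coeff]
  by_cases hd : m ∣ l
  · obtain ⟨q, rfl⟩ := hd
    rw [if_pos (dvd_mul_right m q), if_pos (dvd_mul_right m q), Nat.mul_div_cancel_left q hm]
    rcases Nat.eq_zero_or_pos q with rfl | hq
    · rw [if_neg (by omega)]
      simp
    · obtain ⟨q, rfl⟩ := Nat.exists_eq_succ_of_ne_zero hq.ne'
      have h1 : m ≤ m * q.succ := Nat.le_mul_of_pos_right m (Nat.succ_pos q)
      have h2 : m * q.succ - m = m * q := by rw [Nat.mul_succ, Nat.add_sub_cancel]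
      rw [if_pos h1, h2, if_pos (dvd_mul_right m q), Nat.mul_div_cancel_left q hm]
      have h3 : q.succ + (d + 1) = (q + (d + 1)) + 1 := by omega
      have h4 : q.succ + d = q + (d + 1) := by omega
      rw [h3, h4, Nat.choose_succ_succ]
      push_cast
      ring
  · rw [if_neg hd, if_neg hd]
    by_cases hml : m ≤ l
    · rw [if_pos hml, if_neg (fun h => hd ((Nat.dvd_sub_iff_left hml dvd_rfl).1 h))]
      simp
    · rw [if_neg hml]
      simp

private theorem hilbG_mul {m : ℕ} (hm : 0 < m) (d : ℕ) :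
    (1 - PowerSeries.X ^ m : PowerSeries ℤ) ^ (d + 1) * hilbG m d = 1 := by
  induction d with
  | zero => rw [zero_add, pow_one, hilbG_zero hm]
  | succ d ih => rw [pow_succ, mul_assoc, hilbG_succ hm, ih]

open Polynomial in
/-- the polynomial argument -/
theorem hilb_poly {m d : ℕ} (hm : 0 < m) {ι ι' : Type} [Fintype ι] [Fintype ι']
    {a : ι → ℕ} {a' : ι' → ℕ} {H : PowerSeries ℤ} (h0 : PowerSeries.coeff 0 H = 1)
    (h : H = (∑ ν, PowerSeries.X ^ a ν) * hilbG m d)
    (h' : H = (∑ ν, PowerSeries.X ^ a' ν) * hilbG (m + 1) d) :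
    (∃ ν, (m - 1) * (d + 1) ≤ a ν) ∧
    ((∀ ν, a ν ≤ (m - 1) * (d + 1)) → ∀ l : ℕ, PowerSeries.coeff l H = ((l + d).choose d : ℕ)) := by
  classical
  set Q : ℤ[X] := ∑ ν, X ^ a ν with hQ
  set Q' : ℤ[X] := ∑ ν, X ^ a' ν with hQ'
  have cQ : ((Q : ℤ[X]) : PowerSeries ℤ) = ∑ ν, PowerSeries.X ^ a ν := by
    have : ((Q : ℤ[X]) : PowerSeries ℤ) = Polynomial.coeToPowerSeries.ringHom Q := rfl
    rw [this, hQ, map_sum]
    simp
  have cQ' : ((Q' : ℤ[X]) : PowerSeries ℤ) = ∑ ν, PowerSeries.X ^ a' ν := by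
    have : ((Q' : ℤ[X]) : PowerSeries ℤ) = Polynomial.coeToPowerSeries.ringHom Q' := rfl
    rw [this, hQ', map_sum]
    simp
  have e1 : H * (1 - PowerSeries.X ^ m) ^ (d + 1) = (Q : PowerSeries ℤ) := by
    rw [h, ← cQ, mul_assoc, mul_comm (hilbG m d), hilbG_mul hm, mul_one]
  have e2 : H * (1 - PowerSeries.X ^ (m + 1)) ^ (d + 1) = (Q' : PowerSeries ℤ) := by
    rw [h', ← cQ', mul_assoc, mul_comm (hilbG (m + 1) d), hilbG_mul (Nat.succ_pos m), mul_one]
  have e3 : Q * (1 - X ^ (m + 1)) ^ (d + 1) = Q' * (1 - X ^ m) ^ (d + 1) := by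
    apply Polynomial.coe_injective ℤ
    simp only [Polynomial.coe_mul, Polynomial.coe_pow, Polynomial.coe_sub, Polynomial.coe_one,
      Polynomial.coe_X]
    rw [← e1, ← e2]
    ring
  set g : ℕ → ℤ[X] := fun k => ∑ i ∈ Finset.range k, X ^ i with hg
  have g1 : ∀ k, (1 - X ^ k : ℤ[X]) = (1 - X) * g k := fun k => (mul_neg_geom_sum X k).symm
  have hX : (1 - X : ℤ[X]) ≠ 0 := by
    intro h1
    have := congrArg (fun p : ℤ[X] => p.coeff 0) h1
    simp at this
  have e4 : Q * g (m + 1) ^ (d + 1) = Q' * g m ^ (d + 1) := by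
    rw [g1, g1, mul_pow, mul_pow] at e3
    apply mul_left_cancel₀ (pow_ne_zero (d + 1) hX)
    linear_combination e3
  have g2 : g (m + 1) = X * g m + 1 := geom_sum_succ
  have hcop : IsCoprime (g m) (g (m + 1)) := by
    refine ⟨-X, 1, ?_⟩
    rw [g2]
    ring
  have hdvd : g m ^ (d + 1) ∣ Q := by
    apply (hcop.pow (m := d + 1) (n := d + 1)).dvd_of_dvd_mul_right
    rw [e4]
    exact dvd_mul_left _ _
  have hgm : (g m).Monic := monic_geom_sum_X hm.ne'
  have hgd : (g m).natDegree = m - 1 := by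
    have h1 : (X ^ m - 1 : ℤ[X]) = (X - 1) * g m := by
      rw [mul_comm]
      exact (geom_sum_mul X m).symm
    have h2 : (X ^ m - 1 : ℤ[X]).natDegree = m := by
      rw [← C_1]
      exact natDegree_X_pow_sub_C
    have h3 : (X - 1 : ℤ[X]).natDegree = 1 := by
      rw [← C_1]
      exact natDegree_X_sub_C 1
    have h4 : (X - 1 : ℤ[X]).Monic := by
      rw [← C_1]
      exact monic_X_sub_C 1
    rw [h1, h4.natDegree_mul hgm, h3] at h2
    omega
  obtain ⟨P, hP⟩ := hdvd
  have hQ0 : Q.coeff 0 = 1 := by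
    have h1 := congrArg (PowerSeries.coeff 0) e1
    rw [Polynomial.coeff_coe] at h1
    rw [← h1]
    simp only [PowerSeries.coeff_zero_eq_constantCoeff_apply] at h0 ⊢
    rw [map_mul, h0, map_pow, map_sub, map_pow, map_one, PowerSeries.constantCoeff_X,
      zero_pow hm.ne', sub_zero, one_pow, one_mul]
  have hQn : Q ≠ 0 := by
    intro h1
    rw [h1] at hQ0
    simp at hQ0
  have hPn : P ≠ 0 := by
    rintro rfl
    rw [mul_zero] at hP
    exact hQn hP
  have hdeg : Q.natDegree = (m - 1) * (d + 1) + P.natDegree := by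
    rw [hP, Polynomial.natDegree_mul (pow_ne_zero _ hgm.ne_zero) hPn,
      hgm.natDegree_pow, hgd, mul_comm (d + 1)]
  refine ⟨?_, fun hle l => ?_⟩
  · by_contra hcon
    push Not at hcon
    have hne : Nonempty ι := by
      by_contra h1
      rw [not_nonempty_iff] at h1
      apply hQn
      rw [hQ, Finset.univ_eq_empty, Finset.sum_empty]
    obtain ⟨ν₀⟩ := hne
    have h1 : Q.natDegree ≤ (m - 1) * (d + 1) - 1 := by
      rw [hQ]
      refine Polynomial.natDegree_sum_le_of_forall_le _ _ fun ν _ => ?_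
      rw [natDegree_X_pow]
      have := hcon ν
      omega
    have h2 := hcon ν₀
    omega
  · have h1 : Q.natDegree ≤ (m - 1) * (d + 1) := by
      rw [hQ]
      refine Polynomial.natDegree_sum_le_of_forall_le _ _ fun ν _ => ?_
      rw [natDegree_X_pow]
      exact hle ν
    have h2 : P.natDegree = 0 := by omega
    obtain ⟨c, hc⟩ : ∃ c, P = C c := ⟨P.coeff 0, eq_C_of_natDegree_eq_zero h2⟩
    have hg0 : (g m).coeff 0 = 1 := by
      have h3 := congrArg (fun p : ℤ[X] => p.coeff 0) (g1 m)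
      simp only [mul_coeff_zero, coeff_sub, coeff_one_zero, coeff_X_zero, sub_zero, one_mul,
        coeff_X_pow] at h3
      rw [if_neg hm.ne] at h3
      rw [← h3]
      ring
    have hc1 : c = 1 := by
      rw [hP, hc, mul_coeff_zero, coeff_C_zero, coeff_zero_eq_eval_zero, eval_pow,
        ← coeff_zero_eq_eval_zero, hg0, one_pow, one_mul] at hQ0
      exact hQ0
    rw [hc, hc1, C_1, mul_one] at hP
    have e5 : H * (1 - PowerSeries.X) ^ (d + 1) = 1 := by
      have h3 : (1 - PowerSeries.X ^ m : PowerSeries ℤ) =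
          (1 - PowerSeries.X) * ((g m : ℤ[X]) : PowerSeries ℤ) := by
        have h4 := congrArg (fun p : ℤ[X] => (p : PowerSeries ℤ)) (g1 m)
        simpa only [Polynomial.coe_mul, Polynomial.coe_pow, Polynomial.coe_sub, Polynomial.coe_one,
          Polynomial.coe_X] using h4
      rw [hP, h3, Polynomial.coe_pow, mul_pow] at e1
      have h5 : ((g m : ℤ[X]) : PowerSeries ℤ) ^ (d + 1) ≠ 0 := by
        apply pow_ne_zero
        intro h6
        apply hgm.ne_zero
        apply Polynomial.coe_injective ℤ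
        rw [h6, Polynomial.coe_zero]
      apply mul_right_cancel₀ h5
      rw [one_mul]
      linear_combination e1
    have e6 : H = hilbG 1 d := by
      have h3 := hilbG_mul (m := 1) one_pos d
      rw [pow_one] at h3
      calc H = H * ((1 - PowerSeries.X) ^ (d + 1) * hilbG 1 d) := by rw [h3, mul_one]
        _ = (H * (1 - PowerSeries.X) ^ (d + 1)) * hilbG 1 d := by ring
        _ = hilbG 1 d := by rw [e5, one_mul]
    rw [e6, hilbG_coeff, if_pos (one_dvd l), Nat.div_one]

end KM
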