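import Pool.Agent.Lib.MP_732f67_ag.KM.Gr
import Pool.Agent.Lib.MP_732f67_ag.KM.HilbA

/-! KM part A, file 17: the Hilbert series argument (F6).

`finrank_eq`: the products `x ^ β * b ν` with `m |β| + δ ν = l` are a `K`-basis of `R l`.
`hilb`: as power series in `z`: `H = ∑ (finrank (R l)) z ^ l`, `H (1 - z^m)^(d+1) = ∑ z ^ (δ ν) =: Q`,
`H (1 - z^(m+1))^(d+1) = ∑ z ^ (δ' ν) =: Q'`.  With `[k] = 1 + z + .. + z^(k-1)`:
`Q [m+1]^(d+1) = Q' [m]^(d+1)`, `[m]` and `[m+1]` are coprime (`[m+1] = 1 + z [m]`), so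
`Q = [m]^(d+1) P`, hence `deg Q ≥ (m-1)(d+1)`.  If `deg Q ≤ (m-1)(d+1)` then `P` is a constant, and
`P = 1` because `Q (0) = P (0) = finrank (R 0) = 1`; so `H = 1 / (1 - z)^(d+1)`. -/

namespace KM

variable {L : Type*} [Field L] {K : Subfield L} {R : ℤ → Submodule K L} {m₀ : ℕ}

/-- the exponents `β` with `m |β| + δ = l` -/
private noncomputable def hilbT (d m : ℕ) (δ : ℤ) (l : ℕ) : Finset (Fin (d + 1) →₀ ℕ) :=
  ((Finset.range (l + 1)).filter fun k : ℕ => (m : ℤ) * k + δ = l).biUnion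
    fun k => Finset.finsuppAntidiag Finset.univ k

private theorem mem_hilbT {d m : ℕ} (hm : 0 < m) {δ : ℤ} (hδ : 0 ≤ δ) {l : ℕ}
    {β : Fin (d + 1) →₀ ℕ} : β ∈ hilbT d m δ l ↔ (m : ℤ) * (β.degree : ℕ) + δ = l := by
  rw [hilbT, Finset.mem_biUnion]
  simp only [Finset.mem_filter, Finset.mem_range, Finset.mem_finsuppAntidiag,
    Finset.subset_univ, and_true]
  constructor
  · rintro ⟨k, ⟨-, hk⟩, h⟩
    rw [Finsupp.degree_eq_sum, h]
    exact hk
  · intro h
    refine ⟨β.degree, ⟨?_, h⟩, (Finsupp.degree_eq_sum β).symm⟩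
    have h1 : ((β.degree : ℕ) : ℤ) ≤ (m : ℤ) * (β.degree : ℕ) := by
      have h2 : (1 : ℤ) ≤ m := by exact_mod_cast hm
      have h3 : (0 : ℤ) ≤ ((β.degree : ℕ) : ℤ) := Int.natCast_nonneg _
      nlinarith
    omega

private theorem card_hilbT (d m : ℕ) (δ : ℤ) (l : ℕ) : (hilbT d m δ l).card =
    ∑ k ∈ Finset.range (l + 1), if (m : ℤ) * k + δ = l then (k + d).choose d else 0 := by
  rw [hilbT, Finset.card_biUnion, Finset.sum_filter]
  · refine Finset.sum_congr rfl fun k _ => ?_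
    split_ifs
    · rw [Finset.card_finsuppAntidiag_nat_eq_choose, Finset.card_univ, Fintype.card_fin]
      have h1 : d + 1 + k - 1 = k + d := by omega
      rw [h1]
      exact Nat.choose_symm_add
    · rfl
  · intro k _ k' _ hkk
    change Disjoint (Finset.finsuppAntidiag Finset.univ k) (Finset.finsuppAntidiag Finset.univ k')
    rw [Finset.disjoint_left]
    intro β h1 h2
    rw [Finset.mem_finsuppAntidiag] at h1 h2
    exact hkk (h1.1.symm.trans h2.1)

private theorem hilb_pow (hG : Gr K R m₀) {m : ℕ} {x : L} (hx : x ∈ R m) (k : ℕ) :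
    x ^ k ∈ R ((m : ℤ) * k) := by
  induction k with
  | zero =>
    rw [pow_zero, Nat.cast_zero, mul_zero, hG.zero]
    exact K.one_mem
  | succ k ih =>
    have h := hG.mul _ _ _ ih _ hx
    rw [pow_succ]
    have e : (m : ℤ) * ((k + 1 : ℕ) : ℤ) = (m : ℤ) * k + m := by
      push_cast
      ring
    rw [e]
    exact h

private theorem hilb_prod (hG : Gr K R m₀) {m n : ℕ} {x : Fin n → L} (hx : ∀ j, x j ∈ R m)
    (β : Fin n → ℕ) (s : Finset (Fin n)) :
    ∏ i ∈ s, x i ^ β i ∈ R ((m : ℤ) * ((∑ i ∈ s, β i : ℕ) : ℤ)) := by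
  induction s using Finset.induction_on with
  | empty =>
    rw [Finset.prod_empty, Finset.sum_empty, Nat.cast_zero, mul_zero, hG.zero]
    exact K.one_mem
  | insert a s ha ih =>
    rw [Finset.prod_insert ha, Finset.sum_insert ha]
    have h := hG.mul _ _ _ (hilb_pow hG (hx a) (β a)) _ ih
    have e : (m : ℤ) * ((β a + ∑ i ∈ s, β i : ℕ) : ℤ) =
        (m : ℤ) * (β a : ℕ) + (m : ℤ) * ((∑ i ∈ s, β i : ℕ) : ℤ) := by
      push_cast
      ring
    rw [e]
    exact h

private theorem hilb_mem (hG : Gr K R m₀) {m n : ℕ} {x : Fin n → L} (hx : ∀ j, x j ∈ R m)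
    {b : L} {δ l : ℤ} (hb : b ∈ R δ) {P : MvPolynomial (Fin n) K} (hP : HAt m δ l P) :
    MvPolynomial.aeval x P * b ∈ R l := by
  rw [MvPolynomial.aeval_def, MvPolynomial.eval₂_eq', Finset.sum_mul]
  refine Submodule.sum_mem _ fun β hβ => ?_
  have h1 := hilb_prod hG hx β Finset.univ
  have h2 := hG.mul _ _ _ h1 _ hb
  have h3 := hP β hβ
  rw [Finsupp.degree_eq_sum] at h3
  rw [h3] at h2
  have h4 := (R l).smul_mem (P.coeff β) h2
  rw [Algebra.smul_def, ← mul_assoc] at h4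
  exact h4

theorem finrank_eq (hG : Gr K R m₀) {m d : ℕ} (hm : 0 < m) {x : Fin (d + 1) → L}
    (hx : ∀ j, x j ∈ R m) {ι : Type} [Fintype ι] {b : ι → L} {δ : ι → ℤ}
    (hb : HBasis K R m x b δ) (l : ℕ) : Module.finrank K (R l) =
      ∑ ν, ∑ k ∈ Finset.range (l + 1), if (m : ℤ) * k + δ ν = l then (k + d).choose d else 0 := by
  classical
  let W : ι → Submodule K (MvPolynomial (Fin (d + 1)) K) := fun ν =>
    MvPolynomial.restrictSupport K (hilbT d m (δ ν) l : Set (Fin (d + 1) →₀ ℕ))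
  have hW : ∀ ν P, P ∈ W ν ↔ HAt m (δ ν) l P := by
    intro ν P
    rw [MvPolynomial.mem_restrictSupport_iff]
    constructor
    · intro h β hβ
      exact (mem_hilbT hm (hb.nonneg ν)).1 (h hβ)
    · intro h β hβ
      exact (mem_hilbT hm (hb.nonneg ν)).2 (h β hβ)
  let Φ : (∀ ν, W ν) →ₗ[K] L :=
    ∑ ν, (LinearMap.mulRight K (b ν)) ∘ₗ ((MvPolynomial.aeval x).toLinearMap) ∘ₗ (W ν).subtype ∘ₗ
      (LinearMap.proj ν)
  have hΦ : ∀ P : (∀ ν, W ν), Φ P =
      ∑ ν, MvPolynomial.aeval x (P ν : MvPolynomial (Fin (d + 1)) K) * b ν := by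
    intro P
    rw [LinearMap.sum_apply]
    rfl
  have hmem : ∀ P, Φ P ∈ R l := by
    intro P
    rw [hΦ]
    exact Submodule.sum_mem _ fun ν _ => hilb_mem hG hx (hb.mem ν) ((hW ν _).1 (P ν).2)
  have hbij : Function.Bijective (Φ.codRestrict (R l) hmem) := by
    constructor
    · rw [injective_iff_map_eq_zero]
      intro P hP'
      have hP : Φ P = 0 := congrArg Subtype.val hP'
      rw [hΦ] at hP
      have h1 := hb.ind l (fun ν => (P ν : MvPolynomial (Fin (d + 1)) K))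
        (fun ν => (hW ν _).1 (P ν).2) hP
      funext ν
      exact Subtype.ext (h1 ν)
    · rintro ⟨z, hz⟩
      obtain ⟨P, hP, hzP⟩ := hb.span l z hz
      refine ⟨fun ν => ⟨P ν, (hW ν _).2 (hP ν)⟩, Subtype.ext ?_⟩
      rw [LinearMap.codRestrict_apply, hΦ]
      exact hzP.symm
  have hfin : ∀ ν, Module.Finite K (W ν) := fun ν =>
    Module.Finite.of_basis (MvPolynomial.basisRestrictSupport K _)
  have hfree : ∀ ν, Module.Free K (W ν) := fun ν =>
    Module.Free.of_basis (MvPolynomial.basisRestrictSupport K _)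
  rw [← (LinearEquiv.ofBijective _ hbij).finrank_eq, Module.finrank_pi_fintype]
  refine Finset.sum_congr rfl fun ν _ => ?_
  rw [Module.finrank_eq_nat_card_basis (MvPolynomial.basisRestrictSupport K
    (hilbT d m (δ ν) l : Set (Fin (d + 1) →₀ ℕ))), ← card_hilbT]
  simp

private theorem hilb_finrank_zero (hG : Gr K R m₀) : Module.finrank K (R (0 : ℕ)) = 1 := by
  have h1 : R (0 : ℕ) = Submodule.span K {(1 : L)} := by
    ext z
    rw [Nat.cast_zero, hG.zero, Submodule.mem_span_singleton]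
    constructor
    · intro h
      exact ⟨⟨z, h⟩, by rw [Algebra.smul_def, mul_one]; rfl⟩
    · rintro ⟨a, rfl⟩
      rw [Algebra.smul_def, mul_one]
      exact a.2
  rw [h1]
  exact finrank_span_singleton one_ne_zero

private theorem hilb_series (hG : Gr K R m₀) {m d : ℕ} (hm : 0 < m) {x : Fin (d + 1) → L}
    (hx : ∀ j, x j ∈ R m) {ι : Type} [Fintype ι] {b : ι → L} {δ : ι → ℤ}
    (hb : HBasis K R m x b δ) :
    (PowerSeries.mk fun l : ℕ => (Module.finrank K (R l) : ℤ)) =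
      (∑ ν, PowerSeries.X ^ (δ ν).toNat) * hilbG m d := by
  ext l
  rw [PowerSeries.coeff_mk, finrank_eq hG hm hx hb l, Finset.sum_mul, map_sum]
  push_cast
  refine Finset.sum_congr rfl fun ν _ => ?_
  rw [PowerSeries.coeff_X_pow_mul']
  obtain ⟨a, ha⟩ := Int.eq_ofNat_of_zero_le (hb.nonneg ν)
  rw [ha, Int.toNat_natCast]
  by_cases h1 : ∃ k : ℕ, m * k + a = l
  · obtain ⟨k, hk⟩ := h1
    have hal : a ≤ l := by omega
    have e : l - a = m * k := by omega
    rw [if_pos hal, e, hilbG_coeff, if_pos (dvd_mul_right m k), Nat.mul_div_cancel_left k hm]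
    rw [Finset.sum_eq_single k]
    · rw [if_pos (by exact_mod_cast hk)]
    · intro k' _ hk'
      rw [if_neg]
      intro h2
      apply hk'
      have h3 : m * k' + a = m * k + a := by
        rw [hk]
        exact_mod_cast h2
      exact Nat.eq_of_mul_eq_mul_left hm (Nat.add_right_cancel h3)
    · intro h2
      exfalso
      apply h2
      rw [Finset.mem_range]
      have h3 : k ≤ m * k := Nat.le_mul_of_pos_left k hm
      omega
  · rw [Finset.sum_eq_zero]
    · symm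
      split_ifs with h2
      · rw [hilbG_coeff, if_neg]
        rintro ⟨k, hk⟩
        exact h1 ⟨k, by omega⟩
      · rfl
    · intro k _
      rw [if_neg]
      intro h2
      exact h1 ⟨k, by exact_mod_cast h2⟩

theorem hilb (hG : Gr K R m₀) {m d : ℕ} (hm : 0 < m) {x x' : Fin (d + 1) → L}
    (hx : ∀ j, x j ∈ R m) (hx' : ∀ j, x' j ∈ R ((m + 1 : ℕ) : ℤ))
    {ι ι' : Type} [Fintype ι] [Fintype ι'] {b : ι → L} {δ : ι → ℤ} {b' : ι' → L} {δ' : ι' → ℤ}
    (hb : HBasis K R m x b δ) (hb' : HBasis K R (m + 1) x' b' δ') :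
    (∃ ν, (m : ℤ) * (d + 1) - (d + 1) ≤ δ ν) ∧
    ((∀ ν, δ ν ≤ (m : ℤ) * (d + 1) - (d + 1)) →
      ∀ l : ℕ, Module.finrank K (R l) = (l + d).choose d) := by
  have h0 : PowerSeries.coeff 0 (PowerSeries.mk fun l : ℕ => (Module.finrank K (R l) : ℤ)) = 1 := by
    rw [PowerSeries.coeff_mk, hilb_finrank_zero hG]
    rfl
  obtain ⟨h1, h2⟩ := hilb_poly hm h0 (hilb_series hG hm hx hb)
    (hilb_series hG (Nat.succ_pos m) hx' hb')
  have e : (m : ℤ) * (d + 1) - (d + 1) = (((m - 1) * (d + 1) : ℕ) : ℤ) := by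
    push_cast [Nat.cast_sub (Nat.succ_le_of_lt hm)]
    ring
  rw [e]
  refine ⟨?_, fun hle l => ?_⟩
  · obtain ⟨ν, hν⟩ := h1
    refine ⟨ν, ?_⟩
    have h3 := Int.toNat_of_nonneg (hb.nonneg ν)
    rw [← h3]
    exact_mod_cast hν
  · have h3 := h2 (fun ν => by
      have h4 := hle ν
      omega) l
    rw [PowerSeries.coeff_mk] at h3
    exact_mod_cast h3

end KM
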