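import Pool.Agent.Lib.MP_732f67_ag.KM.ParamA

/-! KM part A, file 14: the number of parameters is the transcendence degree plus one.

`n ≠ 0`: `HFin` with `n = 0` says `R (l + m) = 0` for large `l`, against `ne`.
The quotients `x j / x 0` (`j ≠ 0`) are algebraically independent over `K` (homogenise), and lie in
`GRat R`.  Every `g / h`, `g, h ∈ R l`, is algebraic over `K (x j / x 0)`: `R` is a finite module over
`K[x]` (`HFin`): Cayley - Hamilton for multiplication by `g` gives a homogeneous monic equation,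
`g ^ r + c 1 * g ^ (r-1) + ..`, `c j` a form in `x` of degree `j l / m`; (take `g ^ m`, `h ^ m` to have
degrees divisible by `m`) divide by powers of `x 0`. -/

namespace KM

variable {L : Type*} [Field L] {K : Subfield L} {R : ℤ → Submodule K L} {m₀ : ℕ}

theorem HFin.ne_zero (hG : Gr K R m₀) {m n : ℕ} {x : Fin n → L} (hf : HFin R m x) : n ≠ 0 := by
  rintro rfl
  obtain ⟨D, hD⟩ := hf
  obtain ⟨z, hz, hz0⟩ := hG.ne (D.toNat + m₀ + m) (by omega)
  obtain ⟨y, -, hy⟩ := hD ((D.toNat + m₀ + m : ℕ) - m : ℤ) (by push_cast; omega) z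
    (by rwa [sub_add_cancel])
  apply hz0
  rw [hy]
  simp

theorem HInd.ne {n : ℕ} {x : Fin n → L} (hi : HInd K x) (j : Fin n) : x j ≠ 0 := by
  intro h
  have := hi 1 (MvPolynomial.X j) (MvPolynomial.isHomogeneous_X _ _) (by simpa using h)
  exact MvPolynomial.X_ne_zero _ this

theorem HInd.quot {n : ℕ} {x : Fin (n + 1) → L} (hi : HInd K x) :
    AlgebraicIndependent K fun j : Fin n => x j.succ / x 0 := by
  classical
  rw [algebraicIndependent_iff]
  intro p hp
  set N := p.totalDegree with hN
  set H : MvPolynomial (Fin (n + 1)) K := ∑ β ∈ p.support,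
    MvPolynomial.monomial (Finsupp.cons (N - β.degree) β) (p.coeff β) with hH
  have hle : ∀ β ∈ p.support, β.degree ≤ N := fun β hβ => by
    exact MvPolynomial.le_totalDegree hβ
  have hdeg : ∀ β ∈ p.support, (Finsupp.cons (N - β.degree) β).degree = N := fun β hβ => by
    have := hle β hβ
    rw [Finsupp.degree_eq_sum, Fin.sum_univ_succ]
    simp only [Finsupp.cons_zero, Finsupp.cons_succ]
    rw [← Finsupp.degree_eq_sum]
    omega
  have h1 : H.IsHomogeneous N := by
    refine MvPolynomial.IsHomogeneous.sum _ _ _ fun β hβ => ?_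
    exact MvPolynomial.isHomogeneous_monomial _ (hdeg β hβ)
  have h0 := hi.ne 0
  have h2 : MvPolynomial.aeval x H = x 0 ^ N * MvPolynomial.aeval (fun j : Fin n => x j.succ / x 0) p := by
    rw [hH, map_sum, MvPolynomial.aeval_def (f := fun j : Fin n => x j.succ / x 0),
      MvPolynomial.eval₂_eq', Finset.mul_sum]
    refine Finset.sum_congr rfl fun β hβ => ?_
    rw [MvPolynomial.aeval_monomial, Finsupp.prod_fintype _ _ (by simp), Fin.prod_univ_succ]
    simp only [Finsupp.cons_zero, Finsupp.cons_succ]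
    have h3 : x 0 ^ N = x 0 ^ (N - β.degree) * x 0 ^ β.degree := by
      rw [← pow_add]; congr 1; have := hle β hβ; omega
    have h4 : ∏ j : Fin n, (x j.succ / x 0) ^ β j = (∏ j : Fin n, x j.succ ^ β j) / x 0 ^ β.degree := by
      simp_rw [div_pow]
      rw [Finset.prod_div_distrib, Finset.prod_pow_eq_pow_sum, ← Finsupp.degree_eq_sum]
    rw [h3, h4]
    field_simp
  have h5 : H = 0 := hi N H h1 (by rw [h2, hp, mul_zero])
  ext β
  by_contra hne
  have hβ : β ∈ p.support := MvPolynomial.mem_support_iff.2 (by simpa using hne)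
  have h6 : H.coeff (Finsupp.cons (N - β.degree) β) = p.coeff β := by
    rw [hH, MvPolynomial.coeff_sum, Finset.sum_eq_single β]
    · rw [MvPolynomial.coeff_monomial, if_pos rfl]
    · intro γ _ hγ
      rw [MvPolynomial.coeff_monomial, if_neg]
      intro h
      apply hγ
      have := congrArg Finsupp.tail h
      simpa using this
    · intro h; exact absurd hβ h
  rw [h5, MvPolynomial.coeff_zero] at h6
  exact hne (by rw [← h6, MvPolynomial.coeff_zero])

/-- algebraic dependence of the elements of degree `m k` on the quotients of the parameters -/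
theorem HFin.alg (hG : Gr K R m₀) {m n : ℕ} {x : Fin (n + 1) → L} 
    (h0 : x 0 ≠ 0) (hf : HFin R m x) (k : ℕ) {z : L} (hz : z ∈ R (m * k)) :
    IsAlgebraic (Algebra.adjoin K (Set.range fun j : Fin n => x j.succ / x 0)) (z / x 0 ^ k) := by
  set A := Algebra.adjoin K (Set.range fun j : Fin n => x j.succ / x 0) with hA
  obtain ⟨D, hD⟩ := hf
  obtain ⟨D', hD', hm'⟩ : ∃ D' : ℕ, D ≤ D' ∧ m₀ ≤ D' := ⟨D.toNat + m₀, by push_cast; omega, by omega⟩
  set N : Submodule A L := Submodule.span A (R D' : Set L) with hN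
  have hq : ∀ j : Fin (n + 1), x j / x 0 ∈ A := by
    intro j
    refine Fin.cases ?_ (fun i => ?_) j
    · rw [div_self h0]; exact one_mem _
    · exact Algebra.subset_adjoin ⟨i, rfl⟩
  have hstep : ∀ (k : ℕ) (r : L), r ∈ R (D' + m * k) → r / x 0 ^ k ∈ N := by
    intro k
    induction k with
    | zero => intro r hr; rw [pow_zero, div_one]; exact Submodule.subset_span (by simpa using hr)
    | succ k ih =>
      intro r hr
      have e1 : (D' : ℤ) + m * ((k + 1 : ℕ) : ℤ) = (D' + m * k) + m := by push_cast; ring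
      rw [e1] at hr
      obtain ⟨y, hy, rfl⟩ := hD _ (by
        have : (0 : ℤ) ≤ (m : ℤ) * k := by positivity
        linarith) r hr
      rw [Finset.sum_div]
      refine Submodule.sum_mem _ fun j _ => ?_
      have h1 := Submodule.smul_mem N (⟨_, hq j⟩ : A) (ih _ (hy j))
      convert h1 using 1
      rw [Subalgebra.smul_def, smul_eq_mul, pow_succ]
      field_simp
  have hNne : N ≠ ⊥ := by
    obtain ⟨z, hz, hz0⟩ := hG.ne D' hm'
    intro h
    apply hz0
    have : z ∈ N := Submodule.subset_span hz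
    rwa [h, Submodule.mem_bot] at this
  have hNfg : N.FG := by
    obtain ⟨s, hs⟩ := hG.fg D'
    refine ⟨s, le_antisymm (Submodule.span_mono ?_) (Submodule.span_le.2 ?_)⟩
    · rw [← hs]; exact Submodule.subset_span
    · rw [← hs]
      exact Submodule.span_le_restrictScalars K A _
  have hst : ∀ w ∈ N, (z / x 0 ^ k) • w ∈ N := by
    intro w hw
    induction hw using Submodule.span_induction with
    | mem w hw =>
      rw [smul_eq_mul, div_mul_eq_mul_div]
      refine hstep k _ ?_
      rw [add_comm]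
      exact hG.mul _ _ _ hz _ hw
    | zero => simp
    | add a b _ _ ha hb => rw [smul_add]; exact Submodule.add_mem _ ha hb
    | smul c w _ hw => rw [smul_comm]; exact Submodule.smul_mem _ _ hw
  exact (isIntegral_of_smul_mem_submodule N hNne hNfg _ hst).isAlgebraic

theorem card_param (hG : Gr K R m₀) {m : ℕ} (hm : m₀ ≤ m) {n d : ℕ} (hd : rk K (GRat R) = d)
    {x : Fin n → L} (hx : ∀ j, x j ∈ R m) (hi : HInd K x) (hf : HFin R m x) : n = d + 1 := by
  obtain ⟨n, rfl⟩ := Nat.exists_eq_succ_of_ne_zero (hf.ne_zero hG)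
  set y : Fin n → L := fun j => x j.succ / x 0 with hy
  have hind := hi.quot
  rw [← hy] at hind
  have h0 := hi.ne 0
  have hmpos : 0 < m := lt_of_lt_of_le hG.pos hm
  have hY : Set.range y ⊆ GRat R := by
    rintro _ ⟨j, rfl⟩
    exact ⟨m, _, hx _, _, hx 0, h0, rfl⟩
  have hI : (AlgebraicIndependent.matroid K L).Indep (Set.range y) :=
    AlgebraicIndependent.matroid_indep_iff.2 hind.to_subtype_range
  have hcl : GRat R ⊆ (AlgebraicIndependent.matroid K L).closure (Set.range y) := by
    rintro _ ⟨l, g, hg, h, hh, hh0, rfl⟩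
    rw [AlgebraicIndependent.matroid_closure_eq, SetLike.mem_coe, Subalgebra.mem_algebraicClosure]
    have hl : 0 ≤ l := by
      by_contra hl
      exact hh0 (hG.neg l (by omega) h hh)
    obtain ⟨k, rfl⟩ := Int.eq_ofNat_of_zero_le hl
    have h1 := hf.alg hG h0 k (z := g ^ m) (by
      have := hG.pow_mem' hg m; rwa [mul_comm] at this)
    have h2 := hf.alg hG h0 k (z := h ^ m) (by
      have := hG.pow_mem' hh m; rwa [mul_comm] at this)
    have h3 := h1.mul h2.inv
    refine IsAlgebraic.of_pow hmpos ?_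
    convert h3 using 1
    rw [div_pow]
    field_simp
  have hcard : (Set.range y).encard = (n : ℕ∞) := by
    rw [← Set.image_univ, hind.injective.encard_image, Set.encard_univ]
    simp
  have h1 : rk K (GRat R) = (n : ℕ∞) := by
    unfold rk
    apply le_antisymm
    · refine ((AlgebraicIndependent.matroid K L).eRk_mono hcl).trans ?_
      rw [Matroid.eRk_closure_eq, hI.eRk_eq_encard, hcard]
    · refine le_trans ?_ ((AlgebraicIndependent.matroid K L).eRk_mono hY)
      rw [hI.eRk_eq_encard, hcard]
  rw [hd] at h1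
  have := Nat.cast_inj.1 h1
  omega

theorem exists_param (hG : Gr K R m₀) [Infinite K] {m : ℕ} (hm : m₀ ≤ m) {d : ℕ}
    (hd : rk K (GRat R) = d) :
    ∃ x : Fin (d + 1) → L, (∀ j, x j ∈ R m) ∧ HInd K x ∧ HFin R m x := by
  obtain ⟨n, x, h1, h2, h3⟩ := exists_param0 hG hm
  obtain rfl := card_param hG hm hd h1 h2 h3
  exact ⟨x, h1, h2, h3⟩

end KM
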