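import Pool.Agent.Lib.MP_732f67_ag.KM.KeyGr
import Pool.Agent.Lib.MP_732f67_ag.KM.ParamB
import Pool.Agent.Lib.MP_732f67_ag.KM.CM
import Pool.Agent.Lib.MP_732f67_ag.KM.FreeB
import Pool.Agent.Lib.MP_732f67_ag.KM.Hilb
import Pool.Agent.Lib.MP_732f67_ag.KM.Rank2

/-! KM part A, file 22: the key statement (F7) for a block `B`.

For `i ∈ B` put `R l = V (e i l)` (`Sys.gr`, `GRat_eq`, `hd`), parameters in degrees `m₀` and `m₀ + 1`
(`exists_param`), `cm` (`Split.gr`), `exists_basis`, `hilb`: take `ν₀` with `δ ν₀` maximal,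
`t i = m₀ * (d + 1) - δ ν₀ ≤ d + 1`, with the Hilbert function in case of equality.
`N`, `T`, `ψ`, `xT` from `Split.mono_dvd` for `S' = B`, `m = m₀`.  `key_gr` with
`W l = V (e i l + T)`.  Denominators: `y ∈ W l`, `xT ∈ V T`: multiply `y` and `xT` by nonzero elements
`w' ∈ V (e i l')`, `w ∈ V (e i (l + l'))` to equal degrees; the ratio is in `LS V B = LS V {i}`
(`LS_eq_of_nu_eq`), so it is `α / β` with `α, β ∈ V (e i l'')`.
Finally `g * y ∈ V (e i (l + c))` for `y ∈ V (e i l + T)`, `l = 0`: `free_iter` (all `T i` are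
multiples of `m₀`) gives `g ∈ V (e i c - T)`, `c = γ + (Q - 1) t i`.  (`γ` depends on `i`; enlarge to a
common value with nonzero elements, or keep the dependence as in the statement.) -/

namespace KM

variable {L I : Type*} [Field L] [DecidableEq I] {K : Subfield L}
  {V : (I → ℤ) → Submodule K L} {S : Finset I} {m₀ : ℕ} {p : ℕ} {a : I → ℝ}

theorem IsInv.map_zero {Q : ℕ} {ψ : L → L} (h : IsInv Q ψ) : ψ 0 = 0 := by
  have h1 := h.add 0 0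
  rw [add_zero] at h1
  exact left_eq_add.1 h1

/-- the graded part of the key statement, for one index `i` -/
theorem key_one [Fact p.Prime] [CharP L p] [Infinite K] (h : Sys K V S m₀) (hs : Split p V S a)
    (ha : ∀ i ∈ S, 0 < a i) (hF : FF p K) {i : I} (hi : i ∈ S) {d : ℕ} (hd : nu V {i} = d) :
    ∃ t γ : ℤ, (t ≤ d + 1 ∧
        (t = d + 1 → ∀ l : ℕ, Module.finrank K (V (e i l)) = (l + d).choose d)) ∧
      ∀ (N : ℕ) (W : ℤ → Submodule K L) (xT : L) (ψ : L → L),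
      (∀ a b, ∀ x ∈ V (e i a), ∀ y ∈ W b, x * y ∈ W (a + b)) → xT ∈ W 0 →
      IsInv (p ^ N) ψ → (∀ l, ∀ y ∈ W ((p : ℤ) ^ N * l), ψ y ∈ V (e i l)) → ψ xT = 1 →
      (∀ l, ∀ y ∈ W l, ∃ l', ∃ ρ ∈ V (e i l'), ρ ≠ 0 ∧ ρ * y / xT ∈ V (e i (l + l'))) →
      ∃ g : L, g ≠ 0 ∧ ∀ l, 0 ≤ l → ∀ y ∈ W l,
        g * y ∈ V (e i (l + (γ + ((p : ℤ) ^ N - 1) * t))) := by
  have hp : 2 ≤ p := (Fact.out : p.Prime).two_le
  have hG : Gr K (fun l => V (e i l)) m₀ := h.gr hi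
  have hsG : SplitG p (fun l => V (e i l)) := hs.gr h hp ha hi
  have hd' : rk K (GRat (fun l => V (e i l))) = d := by
    rw [h.GRat_eq hi]
    exact hd
  obtain ⟨x, hx, hxi, hxf⟩ := exists_param hG le_rfl hd'
  obtain ⟨ι, hι, b, δ, hb⟩ := exists_basis hG le_rfl hx hxf (cm hG hsG le_rfl hx hxi hxf)
  obtain ⟨x', hx', hxi', hxf'⟩ := exists_param hG (Nat.le_succ m₀) hd'
  obtain ⟨ι', hι', b', δ', hb'⟩ :=
    exists_basis hG (Nat.le_succ m₀) hx' hxf' (cm hG hsG (Nat.le_succ m₀) hx' hxi' hxf')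
  obtain ⟨⟨ν₁, hν₁⟩, h2⟩ := hilb hG h.pos hx hx' hb hb'
  have : Nonempty ι := ⟨ν₁⟩
  obtain ⟨ν₀, hν₀⟩ := Finite.exists_max δ
  obtain ⟨γ, hγ⟩ := key_gr hG hF le_rfl hx hb ν₀
  refine ⟨(m₀ : ℤ) * (d + 1) - δ ν₀, γ, ⟨?_, fun h3 => h2 fun ν => ?_⟩, hγ⟩
  · have := hν₀ ν₁
    linarith
  · have := hν₀ ν
    linarith

/-- denominators -/
theorem key_den (h : Sys K V S m₀) {B : Finset I} (hB : B ⊆ S) {i : I} (hi : i ∈ B)
    (hL : LS V {i} = LS V B) {T : I → ℤ} (hT : T ∈ Nn B) {xT : L} (hxT : xT ∈ V T)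
    (hxT0 : xT ≠ 0) (l : ℤ) (y : L) (hy : y ∈ V (e i l + T)) :
    ∃ l', ∃ ρ ∈ V (e i l'), ρ ≠ 0 ∧ ρ * y / xT ∈ V (e i (l + l')) := by
  have hiS : i ∈ S := hB hi
  have hTB : T ∈ Zs B := Nn_Zs hT
  have hTS : T ∈ Zs S := Zs_mono hB hTB
  obtain ⟨l₁, hl₁, hl₂⟩ : ∃ l₁ : ℕ, m₀ ≤ l₁ ∧ (m₀ : ℤ) ≤ l + l₁ :=
    ⟨m₀ + l.natAbs, by omega, by omega⟩
  obtain ⟨l₂, hl₂'⟩ : ∃ l₂ : ℕ, (l₂ : ℤ) = l + l₁ := ⟨(l + l₁).toNat, by omega⟩
  obtain ⟨w', hw', hw'0⟩ := h.exists_ne_single hiS hl₁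
  obtain ⟨w, hw, hw0⟩ := h.exists_ne_single hiS (m := l₂) (by omega)
  rw [hl₂'] at hw
  have h1 : w' * y ∈ V (e i (l + l₁) + T) := by
    have := h.mul _ (Zs_e hiS _) _ (Zs_add (Zs_e hiS _) hTS) _ hw' _ hy
    rwa [← add_assoc, ← e_add, add_comm (l₁ : ℤ) l] at this
  have h2 : w * xT ∈ V (e i (l + l₁) + T) :=
    h.mul _ (Zs_e hiS _) _ hTS _ hw _ hxT
  have h3 := h.ratio_mem hB (Zs_add (Zs_e hi _) hTB) h1 h2
  rw [← hL, h.mem_LS (Finset.singleton_subset_iff.2 hiS)] at h3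
  obtain ⟨u, hu, α, hα, β, hβ, hβ0, h4⟩ := h3
  have hue : e i (u i) = u := by
    have h5 := sum_e (Nn_Zs hu)
    rwa [Finset.sum_singleton] at h5
  rw [← hue] at hα hβ
  refine ⟨l₁ + u i, w' * β, ?_, mul_ne_zero hw'0 hβ0, ?_⟩
  · rw [e_add]
    exact h.mul _ (Zs_e hiS _) _ (Zs_e hiS _) _ hw' _ hβ
  · have h5 : w' * β * y / xT = w * α := by
      rw [div_eq_div_iff (mul_ne_zero hw0 hxT0) hβ0] at h4
      rw [div_eq_iff hxT0]
      linear_combination h4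
    rw [h5, ← add_assoc, e_add]
    exact h.mul _ (Zs_e hiS _) _ (Zs_e hiS _) _ hw _ hα

theorem key [Fact p.Prime] [CharP L p] [Infinite K] (h : Sys K V S m₀) (hs : Split p V S a)
    (ha : ∀ i ∈ S, 0 < a i) (hF : FF p K) (hFG : FG K) {B : Finset I} (hB : B ⊆ S) {d : ℕ}
    (hd : ∀ i ∈ B, nu V {i} = d) (hdB : nu V B = d) :
    ∃ t γ : I → ℤ, (∀ i ∈ B, t i ≤ d + 1 ∧
        (t i = d + 1 → ∀ l : ℕ, Module.finrank K (V (e i l)) = (l + d).choose d)) ∧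
      ∃ C : ℝ, ∀ N₀ : ℕ, ∃ N ≥ N₀, ∃ T ∈ Nn B,
        (∀ i ∈ B, ((p : ℝ) ^ N - 1) * a i - C ≤ T i ∧ (T i : ℝ) ≤ ((p : ℝ) ^ N - 1) * a i) ∧
        ∀ i ∈ B, ∃ x ∈ V (e i (((p : ℤ) ^ N - 1) * t i + γ i) - T), x ≠ 0 := by
  have hp : 2 ≤ p := (Fact.out : p.Prime).two_le
  have hone := fun i (hi : i ∈ B) => key_one h hs ha hF (hB hi) (hd i hi)
  choose! t γ h1 h2 using hone
  obtain ⟨C, hC⟩ := hs.mono_dvd h hp ha hB (m := m₀) le_rfl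
  refine ⟨t, γ, h1, C, fun N₀ => ?_⟩
  obtain ⟨N, hN, T, hT, hdvd, hTa, ψ, hψ, hψm, xT, hxT, hxT1⟩ := hC N₀
  refine ⟨N, hN, T, hT, hTa, fun i hi => ?_⟩
  have hiS : i ∈ S := hB hi
  have hTB : T ∈ Zs B := Nn_Zs hT
  have hTS : T ∈ Zs S := Zs_mono hB hTB
  have hxT0 : xT ≠ 0 := by
    rintro rfl
    rw [hψ.map_zero] at hxT1
    exact zero_ne_one hxT1
  have hL : LS V {i} = LS V B := by
    refine h.LS_eq_of_nu_eq (Finset.singleton_subset_iff.2 hi) hB ?_ ?_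
    · rw [hdB]
      exact ENat.natCast_lt_top d
    · rw [hd i hi, hdB]
  have hW1 : ∀ a b : ℤ, ∀ x ∈ V (e i a), ∀ y ∈ V (e i b + T), x * y ∈ V (e i (a + b) + T) := by
    intro a b x hx y hy
    rw [e_add, add_assoc]
    exact h.mul _ (Zs_e hiS _) _ (Zs_add (Zs_e hiS _) hTS) _ hx _ hy
  have hW2 : xT ∈ V (e i 0 + T) := by
    rw [e_zero, zero_add]
    exact hxT
  have hW3 : ∀ l : ℤ, ∀ y ∈ V (e i ((p : ℤ) ^ N * l) + T), ψ y ∈ V (e i l) := by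
    intro l y hy
    refine hψm _ (Zs_e hi _) y ?_
    have h4 : e i ((p : ℤ) ^ N * l) = ((p : ℤ) ^ N) • e i l := by
      funext j
      rw [Pi.smul_apply]
      by_cases hj : j = i
      · rw [hj, e_same, e_same, smul_eq_mul]
      · rw [e_ne hj, e_ne hj, smul_zero]
    rwa [h4] at hy
  obtain ⟨g, hg0, hg⟩ := h2 i hi N (fun l => V (e i l + T)) xT ψ hW1 hW2 hψ hW3 hxT1
    fun l y hy => key_den h hB hi hL hT hxT hxT0 l y hy
  refine ⟨g, ?_, hg0⟩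
  refine h.free_iter le_rfl (Zs_sub (Zs_e hiS _) hTS) (Nn_mono hB hT) hdvd fun x hx => ?_
  have h3 := hg 0 le_rfl x (by
    rw [e_zero, zero_add]
    exact hx)
  rw [zero_add, add_comm (γ i)] at h3
  rwa [sub_add_cancel]

end KM
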