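import Pool.Agent.Lib.MP_732f67_ag.KM.KeyGrA

/-! KM part A, file 21: the key construction for one graded family (F7).

Data: `W l` (= `V (e i l + T)`), `xT ∈ W 0`, `ψ (Q⁻¹-linear)` with `ψ (W (Q l)) ⊆ R l`, `ψ xT = 1`.
`A = MvPolynomial (Fin (d+1)) K` acts on `R̂ = hG.hat` with basis `B` (`exists_hatBasis`),
`Φ` from `exists_Phi` (`FinPow K Q` from `FF p K`).  `Θ : R̂ → A`,
`Θ f = B.repr (ψ̂ f) ν₀`, `(ψ̂ f).coeff l = ψ (xT * f.coeff (Q l))` (in `R l` since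
`xT * R (Q l) ⊆ W (Q l)`); `ψ̂ (r ^ Q f) = r ψ̂ f` (characteristic `p`).  `pole` gives `G ∈ R̂`.
(1) `Θ (B ν₀ ^ Q) = 1`: so `det = Φ (det ^ (Q-1) * B.repr (G * B ν₀ ^ Q) ν₀)`.  `det` is homogeneous,
of degree `γ₀` with `m γ₀ = 2 ∑ δ ν - card ι * δ ν₀`, and `det ≠ 0`; decompose `G = ∑ G_l X ^ l`:
the term `G_l` contributes a homogeneous element of degree `k'` with
`m (Q - 1) γ₀ + l + Q δ ν₀ - δ ν₀ = m (Q k' + (Q - 1)(d + 1))`; the degree `k' = γ₀` part is `det ≠ 0`,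
so `G_l ≠ 0` for `l = m γ₀ + (Q - 1)(m (d + 1) - δ ν₀)`.
(2) Let `y ∈ W l'`.  By `hden` and integrality there is a homogeneous `ρ ∈ A`, `ρ ≠ 0`, of degree `k`
with `ρ (x) * y / xT ∈ R (l' + m k)` (multiply the denominator `ρ' ∈ R l''` by some `r` with
`0 ≠ ρ' r ∈ A`); `f = ρ (x) y / xT * X ^ (l' + m k) ∈ R̂`.  For all `r ∈ R̂`:
`ρ ^ (Q-1) • (f * r)`, times `xT`, is `ρ (x) ^ Q * (y * r)` up to powers of `X`, and
`ψ (ρ (x) ^ Q * (y * r_j)) = ρ (x) * ψ (y * r_j)`, `y * r_j ∈ W (l' + j)`; so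
`ρ ∣ Θ (ρ ^ (Q-1) • (f * r))`.  Hence `G * f = ρ • r'`: comparing coefficients,
`G_l * (ρ (x) y / xT) = ρ (x) * r'_..`, i.e. `G_l * y / xT ∈ R (l + l')`.
So `g = G_l / xT`. -/

namespace KM

open Polynomial

variable {L : Type*} [Field L] {K : Subfield L} {R : ℤ → Submodule K L} {m₀ : ℕ}

/-- the component of degree `l` of an element of `R̂` -/
noncomputable def Gr.kgComp (hG : Gr K R m₀) (f : hG.hat) (l : ℕ) : hG.hat :=
  ⟨C ((f : L[X]).coeff l) * X ^ l, fun j => by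
    rw [coeff_C_mul_X_pow]
    split_ifs with h
    · rw [h]
      exact f.2 l
    · exact Submodule.zero_mem _⟩

theorem Gr.kgComp_coe (hG : Gr K R m₀) (f : hG.hat) (l : ℕ) :
    ((hG.kgComp f l : hG.hat) : L[X]) = C ((f : L[X]).coeff l) * X ^ l := rfl

theorem Gr.kg_sum (hG : Gr K R m₀) (f : hG.hat) :
    f = ∑ l ∈ Finset.range ((f : L[X]).natDegree + 1), hG.kgComp f l := by
  apply Subtype.ext
  rw [AddSubmonoidClass.coe_finsetSum]
  conv_lhs => rw [(f : L[X]).as_sum_range_C_mul_X_pow]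
  rfl

/-- a monomial of `R̂` -/
noncomputable def Gr.kgMon (hG : Gr K R m₀) (z : L) (l : ℕ) (hz : z ∈ R l) : hG.hat :=
  ⟨C z * X ^ l, fun j => by
    rw [coeff_C_mul_X_pow]
    split_ifs with h
    · rw [h]
      exact hz
    · exact Submodule.zero_mem _⟩

theorem Gr.kgMon_coe (hG : Gr K R m₀) (z : L) (l : ℕ) (hz : z ∈ R l) :
    ((hG.kgMon z l hz : hG.hat) : L[X]) = C z * X ^ l := rfl

theorem key_gr (hG : Gr K R m₀) {p : ℕ} [Fact p.Prime] [CharP L p] (hF : FF p K) {m d : ℕ}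
    (hm : m₀ ≤ m) {x : Fin (d + 1) → L} (hx : ∀ j, x j ∈ R m)
    {ι : Type} [Fintype ι] {b : ι → L} {δ : ι → ℤ} (hb : HBasis K R m x b δ) (ν₀ : ι) :
    ∃ γ : ℤ, ∀ (N : ℕ) (W : ℤ → Submodule K L) (xT : L) (ψ : L → L),
      (∀ a b, ∀ x ∈ R a, ∀ y ∈ W b, x * y ∈ W (a + b)) → xT ∈ W 0 →
      IsInv (p ^ N) ψ → (∀ l, ∀ y ∈ W ((p : ℤ) ^ N * l), ψ y ∈ R l) → ψ xT = 1 →
      (∀ l, ∀ y ∈ W l, ∃ l', ∃ ρ ∈ R l', ρ ≠ 0 ∧ ρ * y / xT ∈ R (l + l')) →
      ∃ g : L, g ≠ 0 ∧ ∀ l, 0 ≤ l → ∀ y ∈ W l,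
        g * y ∈ R (l + (γ + ((p : ℤ) ^ N - 1) * (m * (d + 1) - δ ν₀))) := by
  classical
  have hm0 : 0 < m := lt_of_lt_of_le hG.pos hm
  letI := (hG.toHat hx).toRingHom.toAlgebra
  obtain ⟨B, hB1, hB2⟩ := hG.exists_hatBasis hm0 hx hb
  have hsmul : ∀ (a : MvPolynomial (Fin (d + 1)) K) (f : hG.hat), a • f = hG.toHat hx a * f :=
    fun a f => rfl
  have hB1' : ∀ ν, B ν = hG.kgMon (b ν) (δ ν).toNat
      (by rw [Int.toNat_of_nonneg (hb.nonneg ν)]; exact hb.mem ν) := fun ν => Subtype.ext (hB1 ν)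
  -- the determinant
  set D := (gram B ν₀).det with hD
  have hD0 : D ≠ 0 := gram_det_ne B ν₀
  have hgr : ∀ i j, HAt m (δ ν₀) (δ i + δ j) (gram B ν₀ i j) := by
    intro i j
    have h1 := hB2 (B i * B j) ((δ i).toNat + (δ j).toNat) (b i * b j) (by
      rw [MulMemClass.coe_mul, hB1, hB1, C_mul, pow_add]
      ring) ν₀
    have e1 : (((δ i).toNat + (δ j).toNat : ℕ) : ℤ) = δ i + δ j := by
      push_cast
      rw [Int.toNat_of_nonneg (hb.nonneg i), Int.toNat_of_nonneg (hb.nonneg j)]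
    rw [e1] at h1
    exact h1
  obtain ⟨γ₀, hγ₀⟩ := (HAt.kg_det hgr).kg_exists_deg hD0
  have hDhom : D.IsHomogeneous γ₀ := (HAt.kg_det hgr).kg_isHomogeneous hm0 hγ₀
  have hDat : HAt m 0 (m * γ₀) D := HAt.kg_of_isHomogeneous hDhom
  refine ⟨m * γ₀, fun N W xT ψ hW hxT hψ hψW hψ1 hden => ?_⟩
  have hp : p.Prime := Fact.out
  have hQ : 0 < p ^ N := pow_pos hp.pos N
  have hψ0 : ψ 0 = 0 := hψ.kg_map_zero
  have hxT0 : xT ≠ 0 := by
    rintro rfl
    rw [hψ0] at hψ1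
    exact zero_ne_one hψ1
  have hcharK : CharP K p := RingHom.charP (algebraMap K L) (algebraMap K L).injective p
  obtain ⟨Φ, hΦ, hΦ1, hΦ2⟩ := exists_Phi (k := K) (p := p) N (d + 1) (hF.finPow N)
  -- the map `ψ̂`
  have hmem : ∀ F : L[X], (∀ i : ℕ, F.coeff i ∈ W i) → kgPsi ψ (p ^ N) F ∈ hG.hat := by
    intro F hF' l
    rw [kgPsi_coeff hψ0 hQ]
    refine hψW l _ ?_
    have h1 := hF' (p ^ N * l)
    push_cast at h1
    exact h1
  have hxTf : ∀ f : hG.hat, ∀ i : ℕ, (C xT * (f : L[X])).coeff i ∈ W i := by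
    intro f i
    rw [coeff_C_mul, mul_comm]
    have h1 := hW i 0 _ (f.2 i) xT hxT
    rwa [add_zero] at h1
  let Ψ : hG.hat → hG.hat := fun f => ⟨kgPsi ψ (p ^ N) (C xT * (f : L[X])), hmem _ (hxTf f)⟩
  have hΨadd : ∀ f g, Ψ (f + g) = Ψ f + Ψ g := by
    intro f g
    apply Subtype.ext
    change kgPsi ψ (p ^ N) (C xT * ((f + g : hG.hat) : L[X])) =
      kgPsi ψ (p ^ N) (C xT * (f : L[X])) + kgPsi ψ (p ^ N) (C xT * (g : L[X]))
    rw [← kgPsi_add hψ hQ, ← mul_add]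
    rfl
  have hΨlin : ∀ r f : hG.hat, Ψ (r ^ p ^ N * f) = r * Ψ f := by
    intro r f
    apply Subtype.ext
    change kgPsi ψ (p ^ N) (C xT * ((r ^ p ^ N * f : hG.hat) : L[X])) =
      (r : L[X]) * kgPsi ψ (p ^ N) (C xT * (f : L[X]))
    rw [← kgPsi_lin hψ]
    congr 1
    rw [MulMemClass.coe_mul, SubmonoidClass.coe_pow]
    ring
  let Θ : hG.hat → MvPolynomial (Fin (d + 1)) K := fun f => B.repr (Ψ f) ν₀
  have hΘadd : ∀ f g, Θ (f + g) = Θ f + Θ g := by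
    intro f g
    change B.repr (Ψ (f + g)) ν₀ = B.repr (Ψ f) ν₀ + B.repr (Ψ g) ν₀
    rw [hΨadd, map_add, Finsupp.add_apply]
  have hrs : ∀ (a : MvPolynomial (Fin (d + 1)) K) (f : hG.hat),
      B.repr (a • f) ν₀ = a * B.repr f ν₀ := by
    intro a f
    rw [map_smul, Finsupp.smul_apply, smul_eq_mul]
  have hΘlin : ∀ (a : MvPolynomial (Fin (d + 1)) K) (f : hG.hat),
      Θ (a ^ p ^ N • f) = a * Θ f := by
    intro a f
    change B.repr (Ψ (a ^ p ^ N • f)) ν₀ = a * B.repr (Ψ f) ν₀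
    rw [hsmul, map_pow, hΨlin, ← hsmul, hrs]
  obtain ⟨G, hG1, hG2⟩ := pole B ν₀ hQ hΦ Θ hΘadd hΘlin
  -- `Θ (B ν₀ ^ Q) = 1`
  have hΨ1 : Ψ 1 = 1 := by
    apply Subtype.ext
    change kgPsi ψ (p ^ N) (C xT * ((1 : hG.hat) : L[X])) = ((1 : hG.hat) : L[X])
    have e1 : ((1 : hG.hat) : L[X]) = 1 := rfl
    rw [e1, mul_one]
    ext j
    rw [kgPsi_coeff hψ0 hQ, coeff_C, coeff_one]
    by_cases hj : j = 0
    · rw [hj, mul_zero, if_pos rfl, if_pos rfl, hψ1]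
    · rw [if_neg hj, if_neg (mul_ne_zero hQ.ne' hj), hψ0]
  have hΘ1 : Θ (B ν₀ ^ p ^ N) = 1 := by
    change B.repr (Ψ (B ν₀ ^ p ^ N)) ν₀ = 1
    have h1 := hΨlin (B ν₀) 1
    rw [mul_one, hΨ1, mul_one] at h1
    rw [h1]
    simp
  have hkey : D = Φ (D ^ (p ^ N - 1) * B.repr (G * B ν₀ ^ p ^ N) ν₀) := by
    have h1 := hG1 (B ν₀ ^ p ^ N)
    rwa [hΘ1, mul_one] at h1
  -- components
  let P : ℕ → MvPolynomial (Fin (d + 1)) K := fun l =>
    D ^ (p ^ N - 1) * B.repr (hG.kgComp G l * B ν₀ ^ p ^ N) ν₀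
  let Φh : MvPolynomial (Fin (d + 1)) K →+ MvPolynomial (Fin (d + 1)) K :=
    AddMonoidHom.mk' Φ hΦ.add
  have hΦ0 : Φ 0 = 0 := Φh.map_zero
  have hsum : D = ∑ l ∈ Finset.range ((G : L[X]).natDegree + 1), Φ (P l) := by
    have h1 : D ^ (p ^ N - 1) * B.repr (G * B ν₀ ^ p ^ N) ν₀ =
        ∑ l ∈ Finset.range ((G : L[X]).natDegree + 1), P l := by
      conv_lhs => rw [hG.kg_sum G]
      rw [Finset.sum_mul, map_sum, Finsupp.finsetSum_apply, Finset.mul_sum]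
    rw [hkey, h1]
    exact map_sum Φh P _
  have hPat : ∀ l : ℕ, HAt m (δ ν₀) (((p ^ N - 1 : ℕ) : ℤ) * (m * γ₀) +
      (l + ((p ^ N : ℕ) : ℤ) * δ ν₀)) (P l) := by
    intro l
    have h1 := hB2 (hG.kgComp G l * B ν₀ ^ p ^ N) (l + (δ ν₀).toNat * p ^ N)
      ((G : L[X]).coeff l * b ν₀ ^ p ^ N) (by
        rw [MulMemClass.coe_mul, SubmonoidClass.coe_pow, hB1, hG.kgComp_coe, mul_pow, ← pow_mul,
          C_mul, C_pow, pow_add]
        ring) ν₀
    have e1 : ((l + (δ ν₀).toNat * p ^ N : ℕ) : ℤ) = l + ((p ^ N : ℕ) : ℤ) * δ ν₀ := by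
      rw [Nat.cast_add, Nat.cast_mul, Int.toNat_of_nonneg (hb.nonneg ν₀)]
      ring
    rw [e1] at h1
    have h2 := (hDat.kg_pow (p ^ N - 1)).kg_mul h1
    rw [mul_zero, zero_add] at h2
    exact h2
  -- the component of the right degree
  have hex : ∃ l : ℕ, (l : ℤ) = m * γ₀ + ((p : ℤ) ^ N - 1) * (m * (d + 1) - δ ν₀) ∧
      (G : L[X]).coeff l ≠ 0 := by
    by_contra hcon
    push Not at hcon
    apply hD0
    have h1 : ∀ l ∈ Finset.range ((G : L[X]).natDegree + 1),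
        MvPolynomial.homogeneousComponent γ₀ (Φ (P l)) = 0 := by
      intro l _
      by_cases hP0 : P l = 0
      · rw [hP0, hΦ0, map_zero]
      obtain ⟨D', hD'⟩ := (hPat l).kg_exists_deg hP0
      have hPh : (P l).IsHomogeneous D' := (hPat l).kg_isHomogeneous hm0 hD'
      by_cases hk : ∃ k', p ^ N * k' + (p ^ N - 1) * (d + 1) = D'
      · obtain ⟨k', hk'⟩ := hk
        have h2 := hΦ1 (P l) D' k' hPh hk'
        rw [MvPolynomial.homogeneousComponent_of_mem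
          ((MvPolynomial.mem_homogeneousSubmodule _ _).2 h2)]
        rw [if_neg]
        intro hkk
        apply hP0
        have hl : (l : ℤ) = m * γ₀ + ((p : ℤ) ^ N - 1) * (m * (d + 1) - δ ν₀) := by
          subst hkk
          rw [← hk'] at hD'
          have e1 : ((p ^ N - 1 : ℕ) : ℤ) = (p : ℤ) ^ N - 1 := by
            rw [Nat.cast_sub hQ]
            push_cast
            rfl
          rw [Nat.cast_add, Nat.cast_mul, Nat.cast_mul, e1] at hD'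
          push_cast at hD'
          linear_combination -hD'
        have h3 := hcon l hl
        have h4 : hG.kgComp G l = 0 := by
          apply Subtype.ext
          rw [hG.kgComp_coe, h3, C_0, zero_mul]
          rfl
        change D ^ (p ^ N - 1) * B.repr (hG.kgComp G l * B ν₀ ^ p ^ N) ν₀ = 0
        rw [h4, zero_mul, map_zero, Finsupp.zero_apply, mul_zero]
      · push Not at hk
        rw [hΦ2 (P l) D' hPh hk, map_zero]
    have h2 := congrArg (MvPolynomial.homogeneousComponent γ₀) hsum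
    rw [map_sum, Finset.sum_eq_zero h1, MvPolynomial.homogeneousComponent_eq_self hDhom] at h2
    exact h2
  obtain ⟨l₀, hl₀, hGl⟩ := hex
  refine ⟨(G : L[X]).coeff l₀ / xT, div_ne_zero hGl hxT0, fun l' hl' y hy => ?_⟩
  rw [← hl₀]
  by_cases hy0 : y = 0
  · rw [hy0, mul_zero]
    exact Submodule.zero_mem _
  obtain ⟨l₂, ρ, hρ, hρ0, hρy⟩ := hden l' y hy
  have hl₂ : 0 ≤ l₂ := by
    by_contra hneg
    exact hρ0 (hG.neg l₂ (not_le.1 hneg) ρ hρ)
  obtain ⟨n', rfl⟩ := Int.eq_ofNat_of_zero_le hl'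
  obtain ⟨n₂, rfl⟩ := Int.eq_ofNat_of_zero_le hl₂
  -- a multiple of `ρ` in `A`
  have hfin : Module.Finite (MvPolynomial (Fin (d + 1)) K) hG.hat := Module.Finite.of_basis B
  have hρh0 : hG.kgMon ρ n₂ hρ ≠ 0 := by
    intro h0
    have h1 := congrArg (fun f : hG.hat => (f : L[X]).coeff n₂) h0
    simp only [hG.kgMon_coe, coeff_C_mul_X_pow, if_true] at h1
    exact hρ0 h1
  have hint : IsIntegral (MvPolynomial (Fin (d + 1)) K) (hG.kgMon ρ n₂ hρ) :=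
    Algebra.IsIntegral.isIntegral _
  obtain ⟨a, ha0, r₁, hr₁⟩ := hint.isAlgebraic.exists_nonzero_dvd
    (mem_nonZeroDivisors_of_ne_zero hρh0)
  have hr₁' : ((hG.toHat hx a : hG.hat) : L[X]) = C ρ * X ^ n₂ * (r₁ : L[X]) := by
    have h1 := congrArg (fun f : hG.hat => (f : L[X])) hr₁
    exact h1
  have hahat : ((hG.toHat hx a : hG.hat) : L[X]) ≠ 0 := by
    intro h0
    have h1 : a • B ν₀ = 0 := by
      rw [hsmul]
      have h2 : hG.toHat hx a = 0 := Subtype.ext h0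
      rw [h2, zero_mul]
    have h2 := hrs a (B ν₀)
    rw [h1, map_zero, Finsupp.zero_apply] at h2
    simp at h2
    exact ha0 h2.symm
  set f : hG.hat := r₁ * hG.kgMon (ρ * y / xT) (n₂ + n') (by
    have e1 : ((n₂ + n' : ℕ) : ℤ) = (n' : ℤ) + n₂ := by push_cast; ring
    rw [e1]
    exact hρy) with hf
  have hf' : (f : L[X]) = ((hG.toHat hx a : hG.hat) : L[X]) * (C (y / xT) * X ^ n') := by
    rw [hf, MulMemClass.coe_mul, hG.kgMon_coe, hr₁', mul_div_assoc, C_mul, pow_add]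
    ring
  have hdvd : ∀ r : hG.hat, a ∣ Θ (a ^ (p ^ N - 1) • (f * r)) := by
    intro r
    have hc : ∀ i : ℕ, (C y * X ^ n' * (r : L[X])).coeff i ∈ W i := by
      intro i
      rw [mul_assoc, coeff_C_mul, coeff_X_pow_mul']
      split_ifs with h
      · have h1 := hW _ _ _ (r.2 (i - n')) y hy
        have e1 : ((i - n' : ℕ) : ℤ) + n' = i := by
          rw [Nat.cast_sub h]
          ring
        rw [e1] at h1
        rwa [mul_comm] at h1
      · rw [mul_zero]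
        exact Submodule.zero_mem _
    let h : hG.hat := ⟨kgPsi ψ (p ^ N) (C y * X ^ n' * (r : L[X])), hmem _ hc⟩
    have h1 : Ψ (a ^ (p ^ N - 1) • (f * r)) = a • h := by
      rw [hsmul]
      apply Subtype.ext
      change kgPsi ψ (p ^ N) (C xT * ((a ^ (p ^ N - 1) • (f * r) : hG.hat) : L[X])) =
        ((hG.toHat hx a : hG.hat) : L[X]) * kgPsi ψ (p ^ N) (C y * X ^ n' * (r : L[X]))
      rw [← kgPsi_lin hψ]
      congr 1
      have e1 : ((a ^ (p ^ N - 1) • (f * r) : hG.hat) : L[X]) =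
          ((hG.toHat hx a : hG.hat) : L[X]) ^ (p ^ N - 1) * ((f : L[X]) * (r : L[X])) := by
        rw [hsmul, map_pow]
        rfl
      rw [e1, hf']
      have e2 : ((hG.toHat hx a : hG.hat) : L[X]) ^ p ^ N =
          ((hG.toHat hx a : hG.hat) : L[X]) ^ (p ^ N - 1) * ((hG.toHat hx a : hG.hat) : L[X]) := by
        rw [← pow_succ, Nat.sub_add_cancel hQ]
      have e3 : C y = C xT * C (y / xT) := by
        rw [← C_mul, mul_div_cancel₀ y hxT0]
      rw [e2, e3]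
      ring
    change a ∣ B.repr (Ψ (a ^ (p ^ N - 1) • (f * r))) ν₀
    rw [h1, hrs]
    exact dvd_mul_right _ _
  obtain ⟨r', hr'⟩ := hG2 f a ha0 hdvd
  have hr'' : (G : L[X]) * (C (y / xT) * X ^ n') = (r' : L[X]) := by
    have h1 := congrArg (fun f : hG.hat => (f : L[X])) hr'
    have h2 : (G : L[X]) * (f : L[X]) = ((hG.toHat hx a : hG.hat) : L[X]) * (r' : L[X]) := h1
    rw [hf'] at h2
    apply mul_left_cancel₀ hahat
    rw [← h2]
    ring
  have h3 := r'.2 (l₀ + n')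
  rw [← hr'', ← mul_assoc, coeff_mul_X_pow, coeff_mul_C] at h3
  have e1 : ((l₀ + n' : ℕ) : ℤ) = (n' : ℤ) + l₀ := by push_cast; ring
  rw [e1] at h3
  have e2 : (G : L[X]).coeff l₀ / xT * y = (G : L[X]).coeff l₀ * (y / xT) := by ring
  rw [e2]
  exact h3

end KM
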