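import Pool.Agent.Lib.MP_732f67_ag.KM.Gr

/-! KM part A, file 20: the graded family as a subalgebra of `L[X]` and its basis over
`A = MvPolynomial (Fin n) K`.

`Gr.hat`: polynomials whose `l`-th coefficient is in `R l`.  `par`: `x j * X ^ m`.  `algA`: `A` acts
through `aeval par`.  `hatBasis`: `b ν * X ^ (δ ν)` is a basis, from `HBasis` (compare coefficients of
`X ^ l`: the coefficient of `X ^ l` of `∑ aeval par (P ν) * b ν X ^ (δ ν)` is
`∑ aeval x (homogeneous part of P ν of degree k, m k + δ ν = l) * b ν`). -/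

namespace KM

open Polynomial

variable {L : Type*} [Field L] {K : Subfield L} {R : ℤ → Submodule K L} {m₀ : ℕ}

theorem Gr.rhat_coeff_CX {R : ℤ → Submodule K L} {z : L} {d : ℕ} (hz : z ∈ R d) (l : ℕ) :
    (C z * X ^ d).coeff l ∈ R l := by
  rw [coeff_C_mul_X_pow]
  split_ifs with h
  · rw [h]
    exact hz
  · exact (R l).zero_mem

/-- `⊕ R l X ^ l` -/
def Gr.hat (hG : Gr K R m₀) : Subalgebra K L[X] where
  carrier := {f | ∀ l : ℕ, f.coeff l ∈ R l}
  mul_mem' := by
    intro f g hf hg l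
    rw [coeff_mul]
    refine Submodule.sum_mem _ fun c hc => ?_
    rw [Finset.HasAntidiagonal.mem_antidiagonal] at hc
    have h1 := hG.mul c.1 c.2 _ (hf c.1) _ (hg c.2)
    have h2 : ((c.1 : ℤ) + (c.2 : ℤ)) = (l : ℤ) := by exact_mod_cast hc
    rwa [h2] at h1
  add_mem' := by
    intro f g hf hg l
    rw [coeff_add]
    exact Submodule.add_mem _ (hf l) (hg l)
  algebraMap_mem' := by
    intro r l
    have h1 : algebraMap K L[X] r = C (r : L) := rfl
    rw [h1, coeff_C]
    split_ifs with h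
    · rw [h, Nat.cast_zero, hG.zero]
      exact r.2
    · exact Submodule.zero_mem _

/-- the parameters -/
noncomputable def Gr.par (hG : Gr K R m₀) {m n : ℕ} {x : Fin n → L} (hx : ∀ j, x j ∈ R m)
    (j : Fin n) : hG.hat := ⟨C (x j) * X ^ m, Gr.rhat_coeff_CX (hx j)⟩

/-- `A → R̂` -/
noncomputable def Gr.toHat (hG : Gr K R m₀) {m n : ℕ} {x : Fin n → L} (hx : ∀ j, x j ∈ R m) :
    MvPolynomial (Fin n) K →ₐ[K] hG.hat := MvPolynomial.aeval (hG.par hx)

theorem Gr.rhat_coe (hG : Gr K R m₀) {m n : ℕ} {x : Fin n → L} (hx : ∀ j, x j ∈ R m)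
    (P : MvPolynomial (Fin n) K) :
    ((hG.toHat hx P : hG.hat) : L[X]) = MvPolynomial.aeval (fun j => C (x j) * X ^ m) P := by
  have h1 : hG.hat.val.comp (hG.toHat hx) =
      MvPolynomial.aeval (fun j => C (x j) * X ^ m : Fin n → L[X]) := by
    refine MvPolynomial.algHom_ext fun j => ?_
    rw [AlgHom.comp_apply, Gr.toHat, MvPolynomial.aeval_X, MvPolynomial.aeval_X]
    rfl
  rw [← h1]
  rfl

theorem Gr.rhat_monomial {m n : ℕ} (x : Fin n → L) (β : Fin n →₀ ℕ) (c : K) :
    MvPolynomial.aeval (fun j => C (x j) * X ^ m : Fin n → L[X]) (MvPolynomial.monomial β c) =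
      C (MvPolynomial.aeval x (MvPolynomial.monomial β c)) * X ^ (m * β.degree) := by
  rw [MvPolynomial.aeval_monomial, MvPolynomial.aeval_monomial]
  have h1 : algebraMap K L[X] c = C (algebraMap K L c) := rfl
  have h2 : (β.prod fun i k => (C (x i) * X ^ m : L[X]) ^ k) =
      C (β.prod fun i k => x i ^ k) * X ^ (m * β.degree) := by
    rw [Finsupp.prod, Finsupp.prod, map_prod, Finsupp.degree_apply, Finset.mul_sum,
      ← Finset.prod_pow_eq_pow_sum, ← Finset.prod_mul_distrib]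
    refine Finset.prod_congr rfl fun i _ => ?_
    rw [mul_pow, map_pow, ← pow_mul]
  rw [h1, h2, map_mul, mul_assoc]

theorem Gr.rhat_sum {m n : ℕ} (x : Fin n → L) (P : MvPolynomial (Fin n) K) :
    MvPolynomial.aeval (fun j => C (x j) * X ^ m : Fin n → L[X]) P =
      ∑ β ∈ P.support, C (MvPolynomial.aeval x (MvPolynomial.monomial β (P.coeff β))) *
        X ^ (m * β.degree) := by
  conv_lhs => rw [P.as_sum, map_sum]
  exact Finset.sum_congr rfl fun β _ => Gr.rhat_monomial x β _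

/-- the value on a polynomial all whose monomials `β` satisfy `m |β| + d = l` -/
theorem Gr.rhat_single {m n : ℕ} (x : Fin n → L) {d l : ℕ} {P : MvPolynomial (Fin n) K}
    (h : ∀ β ∈ P.support, m * β.degree + d = l) (z : L) :
    MvPolynomial.aeval (fun j => C (x j) * X ^ m : Fin n → L[X]) P * (C z * X ^ d) =
      C (MvPolynomial.aeval x P * z) * X ^ l := by
  have h1 : MvPolynomial.aeval x P =
      ∑ β ∈ P.support, MvPolynomial.aeval x (MvPolynomial.monomial β (P.coeff β)) := by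
    conv_lhs => rw [P.as_sum, map_sum]
  rw [Gr.rhat_sum, h1, Finset.sum_mul, Finset.sum_mul, map_sum, Finset.sum_mul]
  refine Finset.sum_congr rfl fun β hβ => ?_
  rw [← h β hβ, pow_add, map_mul]
  ring

/-- coefficients of the image of a homogeneous polynomial -/
theorem Gr.toHat_homog (hG : Gr K R m₀) {m n : ℕ} {x : Fin n → L} (hx : ∀ j, x j ∈ R m)
    {P : MvPolynomial (Fin n) K} {k : ℕ} (hP : P.IsHomogeneous k) :
    ((hG.toHat hx P : hG.hat) : L[X]) = C (MvPolynomial.aeval x P) * X ^ (m * k) := by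
  have h1 := Gr.rhat_single (m := m) x (d := 0) (l := m * k) (P := P) (fun β hβ => by
    have h2 := hP (MvPolynomial.mem_support_iff.1 hβ)
    rw [add_zero, ← h2]
    congr 1
    rw [Finsupp.degree_eq_weight_one]
    rfl) 1
  rw [map_one, pow_zero, mul_one, mul_one, mul_one] at h1
  rw [Gr.rhat_coe, h1]

/-- the part of `P` with `m |β| + d = l` -/
noncomputable def Gr.rhatPart {n : ℕ} (m d l : ℕ) (P : MvPolynomial (Fin n) K) :
    MvPolynomial (Fin n) K :=
  ∑ β ∈ P.support with m * β.degree + d = l, MvPolynomial.monomial β (P.coeff β)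

theorem Gr.rhatPart_coeff {n : ℕ} (m d l : ℕ) (P : MvPolynomial (Fin n) K) (β : Fin n →₀ ℕ) :
    (Gr.rhatPart m d l P).coeff β = if m * β.degree + d = l then P.coeff β else 0 := by
  classical
  rw [Gr.rhatPart, MvPolynomial.coeff_sum]
  simp only [MvPolynomial.coeff_monomial]
  rw [Finset.sum_ite_eq']
  by_cases h : m * β.degree + d = l
  · rw [if_pos h]
    by_cases hβ : β ∈ P.support
    · rw [if_pos (Finset.mem_filter.2 ⟨hβ, h⟩)]
    · rw [if_neg (fun h1 => hβ (Finset.mem_filter.1 h1).1), MvPolynomial.notMem_support_iff.1 hβ]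
  · rw [if_neg h]
    refine if_neg ?_
    intro h1
    exact h (Finset.mem_filter.1 h1).2

theorem Gr.rhatPart_hat {n : ℕ} (m d l : ℕ) (P : MvPolynomial (Fin n) K) (β : Fin n →₀ ℕ)
    (hβ : β ∈ (Gr.rhatPart m d l P).support) : m * β.degree + d = l := by
  by_contra h
  rw [MvPolynomial.mem_support_iff, Gr.rhatPart_coeff, if_neg h] at hβ
  exact hβ rfl

theorem Gr.rhat_coeff {m n : ℕ} (x : Fin n → L) (d l : ℕ) (P : MvPolynomial (Fin n) K) (z : L) :
    (MvPolynomial.aeval (fun j => C (x j) * X ^ m : Fin n → L[X]) P * (C z * X ^ d)).coeff l =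
      MvPolynomial.aeval x (Gr.rhatPart m d l P) * z := by
  rw [Gr.rhat_sum, Finset.sum_mul, finsetSum_coeff, Gr.rhatPart, map_sum, Finset.sum_mul,
    Finset.sum_filter]
  refine Finset.sum_congr rfl fun β _ => ?_
  have h1 : C (MvPolynomial.aeval x (MvPolynomial.monomial β (P.coeff β))) * X ^ (m * β.degree) *
      (C z * X ^ d) = C (MvPolynomial.aeval x (MvPolynomial.monomial β (P.coeff β)) * z) *
        X ^ (m * β.degree + d) := by
    rw [map_mul, pow_add]
    ring
  rw [h1, coeff_C_mul_X_pow]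
  by_cases h : m * β.degree + d = l
  · rw [if_pos h, if_pos h.symm]
  · rw [if_neg h, if_neg (Ne.symm h)]

/-- the basis, for the algebra structure `hG.toHat hx` -/
theorem Gr.exists_hatBasis (hG : Gr K R m₀) {m n : ℕ} (hm : 0 < m) {x : Fin n → L}
    (hx : ∀ j, x j ∈ R m)
    {ι : Type} [Fintype ι] {b : ι → L} {δ : ι → ℤ} (hb : HBasis K R m x b δ) :
    letI := (hG.toHat hx).toRingHom.toAlgebra
    ∃ B : Module.Basis ι (MvPolynomial (Fin n) K) hG.hat,
      (∀ ν, ((B ν : hG.hat) : L[X]) = C (b ν) * X ^ (δ ν).toNat) ∧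
      ∀ (f : hG.hat) (l : ℕ) (z : L), (f : L[X]) = C z * X ^ l → ∀ ν, HAt m (δ ν) l (B.repr f ν) := by
  let := (hG.toHat hx).toRingHom.toAlgebra
  have hδ : ∀ ν, (((δ ν).toNat : ℕ) : ℤ) = δ ν := fun ν => Int.toNat_of_nonneg (hb.nonneg ν)
  obtain ⟨v, hv⟩ : ∃ v : ι → hG.hat, ∀ ν, ((v ν : hG.hat) : L[X]) = C (b ν) * X ^ (δ ν).toNat := by
    refine ⟨fun ν => ⟨C (b ν) * X ^ (δ ν).toNat, Gr.rhat_coeff_CX ?_⟩, fun ν => rfl⟩
    rw [hδ]
    exact hb.mem ν
  have hsm : ∀ (P : MvPolynomial (Fin n) K) (ν : ι), ((P • v ν : hG.hat) : L[X]) =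
      MvPolynomial.aeval (fun j => C (x j) * X ^ m : Fin n → L[X]) P *
        (C (b ν) * X ^ (δ ν).toNat) := by
    intro P ν
    rw [← hv, ← Gr.rhat_coe hG hx]
    rfl
  have hsum : ∀ P : ι → MvPolynomial (Fin n) K, ((∑ ν, P ν • v ν : hG.hat) : L[X]) =
      ∑ ν, MvPolynomial.aeval (fun j => C (x j) * X ^ m : Fin n → L[X]) (P ν) *
        (C (b ν) * X ^ (δ ν).toNat) := by
    intro P
    rw [AddSubmonoidClass.coe_finsetSum]
    exact Finset.sum_congr rfl fun ν _ => hsm (P ν) ν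
  have hone : ∀ (l : ℕ) (z : L), z ∈ R l → ∃ P : ι → MvPolynomial (Fin n) K,
      (∀ ν, HAt m (δ ν) l (P ν)) ∧ ((∑ ν, P ν • v ν : hG.hat) : L[X]) = C z * X ^ l := by
    intro l z hz
    obtain ⟨P, hP, rfl⟩ := hb.span l z hz
    refine ⟨P, hP, ?_⟩
    rw [hsum, map_sum, Finset.sum_mul]
    refine Finset.sum_congr rfl fun ν _ => Gr.rhat_single x (fun β hβ => ?_) (b ν)
    have h1 := hP ν β hβ
    rw [← hδ ν] at h1
    exact_mod_cast h1
  have hli : LinearIndependent (MvPolynomial (Fin n) K) v := by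
    rw [Fintype.linearIndependent_iff]
    intro P hP
    have h1 := hsum P
    rw [hP] at h1
    have h2 : ∀ l : ℕ, ∀ ν, Gr.rhatPart m (δ ν).toNat l (P ν) = 0 := by
      intro l
      refine hb.ind l (fun ν => Gr.rhatPart m (δ ν).toNat l (P ν)) (fun ν β hβ => ?_) ?_
      · have h3 := Gr.rhatPart_hat m (δ ν).toNat l (P ν) β hβ
        rw [← hδ ν]
        exact_mod_cast h3
      · have h3 := congrArg (fun f => Polynomial.coeff f l) h1
        simp only [ZeroMemClass.coe_zero, coeff_zero, finsetSum_coeff, Gr.rhat_coeff] at h3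
        exact h3.symm
    intro ν
    ext β
    have h3 := congrArg (MvPolynomial.coeff β) (h2 (m * β.degree + (δ ν).toNat) ν)
    rw [Gr.rhatPart_coeff, if_pos rfl] at h3
    rw [h3]
  have hsp : ⊤ ≤ Submodule.span (MvPolynomial (Fin n) K) (Set.range v) := by
    intro f _
    have h1 : ∀ l : ℕ, ∃ g : hG.hat, g ∈ Submodule.span (MvPolynomial (Fin n) K) (Set.range v) ∧
        (g : L[X]) = C ((f : L[X]).coeff l) * X ^ l := by
      intro l
      obtain ⟨P, -, hP⟩ := hone l _ (f.2 l)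
      exact ⟨_, Submodule.sum_mem _ fun ν _ =>
        Submodule.smul_mem _ _ (Submodule.subset_span ⟨ν, rfl⟩), hP⟩
    choose g hg1 hg2 using h1
    have h2 : f = ∑ l ∈ Finset.range ((f : L[X]).natDegree + 1), g l := by
      apply Subtype.ext
      rw [AddSubmonoidClass.coe_finsetSum]
      rw [Finset.sum_congr rfl fun l _ => hg2 l]
      exact (f : L[X]).as_sum_range_C_mul_X_pow
    rw [h2]
    exact Submodule.sum_mem _ fun l _ => hg1 l
  refine ⟨Module.Basis.mk hli hsp, fun ν => ?_, fun f l z hf ν => ?_⟩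
  · rw [Module.Basis.mk_apply]
    exact hv ν
  · have hz : z ∈ R l := by
      have h1 := f.2 l
      rw [hf] at h1
      rwa [coeff_C_mul_X_pow, if_pos rfl] at h1
    obtain ⟨P, hP, hP2⟩ := hone l z hz
    have h1 : f = ∑ ν, P ν • (Module.Basis.mk hli hsp) ν := by
      apply Subtype.ext
      rw [hf, ← hP2]
      congr 1
      refine Finset.sum_congr rfl fun ν _ => ?_
      rw [Module.Basis.mk_apply]
    have h2 : (Module.Basis.mk hli hsp).repr f ν = P ν := by
      rw [h1, Module.Basis.repr_sum_self]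
    rw [h2]
    exact hP ν

end KM
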