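import Pool.Agent.Lib.MP_732f67_ag.KM.Phi
import Pool.Agent.Lib.MP_732f67_ag.KM.RHat
import Pool.Agent.Lib.MP_732f67_ag.KM.FFin

/-! KM part A, file 21a: helpers for `KeyGr`: the calculus of `HAt`, the map
`F ↦ ∑ ψ (F.coeff (Q j)) X ^ j` on `L[X]`, `FinPow` from `FF`. -/

namespace KM

open Polynomial

variable {L : Type*} [Field L] {K : Subfield L}

section hat

variable {n m : ℕ}

theorem HAt.kg_zero (δ l : ℤ) : HAt m δ l (0 : MvPolynomial (Fin n) K) := by
  intro β hβ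
  simp at hβ

theorem HAt.kg_add {δ l : ℤ} {P P' : MvPolynomial (Fin n) K} (h : HAt m δ l P) (h' : HAt m δ l P') :
    HAt m δ l (P + P') := by
  classical
  intro β hβ
  rcases Finset.mem_union.1 (MvPolynomial.support_add hβ) with h1 | h1
  · exact h β h1
  · exact h' β h1

theorem HAt.kg_neg {δ l : ℤ} {P : MvPolynomial (Fin n) K} (h : HAt m δ l P) : HAt m δ l (-P) := by
  intro β hβ
  rw [MvPolynomial.support_neg] at hβ
  exact h β hβ

theorem HAt.kg_sum {α : Type*} {δ l : ℤ} (s : Finset α) {P : α → MvPolynomial (Fin n) K}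
    (h : ∀ i ∈ s, HAt m δ l (P i)) : HAt m δ l (∑ i ∈ s, P i) := by
  classical
  induction s using Finset.induction_on with
  | empty => rw [Finset.sum_empty]; exact HAt.kg_zero δ l
  | insert a s ha ih =>
    rw [Finset.sum_insert ha]
    exact (h a (Finset.mem_insert_self a s)).kg_add
      (ih fun i hi => h i (Finset.mem_insert_of_mem hi))

theorem HAt.kg_mul {δ δ' l l' : ℤ} {P P' : MvPolynomial (Fin n) K} (h : HAt m δ l P)
    (h' : HAt m δ' l' P') : HAt m (δ + δ') (l + l') (P * P') := by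
  classical
  intro β hβ
  obtain ⟨a, ha, c, hc, rfl⟩ := Finset.mem_add.1 (MvPolynomial.support_mul P P' hβ)
  have h1 := h a ha
  have h2 := h' c hc
  rw [map_add]
  push_cast
  linarith

theorem HAt.kg_one : HAt m 0 0 (1 : MvPolynomial (Fin n) K) := by
  intro β hβ
  classical
  rw [← MvPolynomial.C_1, MvPolynomial.mem_support_iff, MvPolynomial.coeff_C] at hβ
  have h1 : 0 = β := by
    by_contra h2
    rw [if_neg h2] at hβ
    exact hβ rfl
  rw [← h1, map_zero]
  simp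

theorem HAt.kg_prod {α : Type*} {δ l : α → ℤ} (s : Finset α) {P : α → MvPolynomial (Fin n) K}
    (h : ∀ i ∈ s, HAt m (δ i) (l i) (P i)) :
    HAt m (∑ i ∈ s, δ i) (∑ i ∈ s, l i) (∏ i ∈ s, P i) := by
  classical
  induction s using Finset.induction_on with
  | empty => exact HAt.kg_one
  | insert a s ha ih =>
    rw [Finset.sum_insert ha, Finset.sum_insert ha, Finset.prod_insert ha]
    exact (h a (Finset.mem_insert_self a s)).kg_mul
      (ih fun i hi => h i (Finset.mem_insert_of_mem hi))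

theorem HAt.kg_pow {δ l : ℤ} {P : MvPolynomial (Fin n) K} (h : HAt m δ l P) (r : ℕ) :
    HAt m (r * δ) (r * l) (P ^ r) := by
  induction r with
  | zero =>
    rw [pow_zero]
    simpa using HAt.kg_one (K := K) (n := n) (m := m)
  | succ r ih =>
    rw [pow_succ]
    have h1 := ih.kg_mul h
    have e1 : ((r + 1 : ℕ) : ℤ) * δ = r * δ + δ := by push_cast; ring
    have e2 : ((r + 1 : ℕ) : ℤ) * l = r * l + l := by push_cast; ring
    rw [e1, e2]
    exact h1

/-- homogeneous polynomials -/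
theorem HAt.kg_isHomogeneous {δ l : ℤ} {P : MvPolynomial (Fin n) K} (hm : 0 < m) (h : HAt m δ l P)
    {k : ℕ} (hk : (m : ℤ) * k + δ = l) : P.IsHomogeneous k := by
  intro β hβ
  have h1 := h β (MvPolynomial.mem_support_iff.2 hβ)
  have h2 : (m : ℤ) * (β.degree : ℕ) = m * k := by linarith
  have h3 : (β.degree : ℕ) = k := by
    have hm' : (m : ℤ) ≠ 0 := by exact_mod_cast hm.ne'
    exact_mod_cast mul_left_cancel₀ hm' h2
  rw [← h3, Finsupp.degree_eq_weight_one]
  rfl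

theorem HAt.kg_of_isHomogeneous {P : MvPolynomial (Fin n) K} {k : ℕ} (h : P.IsHomogeneous k) :
    HAt m 0 (m * k) P := by
  intro β hβ
  have h1 := h (MvPolynomial.mem_support_iff.1 hβ)
  have h2 : (β.degree : ℕ) = k := by
    rw [← h1, Finsupp.degree_eq_weight_one]
    rfl
  rw [h2, add_zero]

/-- a nonzero polynomial with `HAt` is homogeneous of some degree -/
theorem HAt.kg_exists_deg {δ l : ℤ} {P : MvPolynomial (Fin n) K} (h : HAt m δ l P)
    (h0 : P ≠ 0) : ∃ k : ℕ, (m : ℤ) * k + δ = l := by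
  obtain ⟨β, hβ⟩ := Finset.nonempty_of_ne_empty (fun h1 => h0 (MvPolynomial.support_eq_empty.1 h1))
  exact ⟨β.degree, h β hβ⟩

/-- the determinant of a matrix with graded entries -/
theorem HAt.kg_det {ι : Type*} [Fintype ι] [DecidableEq ι] {δ₀ : ℤ} {δ : ι → ℤ}
    {M : Matrix ι ι (MvPolynomial (Fin n) K)} (h : ∀ i j, HAt m δ₀ (δ i + δ j) (M i j)) :
    HAt m (Fintype.card ι * δ₀) (2 * ∑ i, δ i) M.det := by
  rw [Matrix.det_apply]
  refine HAt.kg_sum _ fun σ _ => ?_
  have h1 : HAt m (∑ _i : ι, δ₀) (∑ i, (δ (σ i) + δ i)) (∏ i, M (σ i) i) :=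
    HAt.kg_prod _ fun i _ => h (σ i) i
  have e1 : ∑ _i : ι, δ₀ = Fintype.card ι * δ₀ := by
    rw [Finset.sum_const, Finset.card_univ, nsmul_eq_mul]
  have e2 : ∑ i, (δ (σ i) + δ i) = 2 * ∑ i, δ i := by
    rw [Finset.sum_add_distrib, Equiv.sum_comp σ δ]
    ring
  rw [e1, e2] at h1
  rcases Int.units_eq_one_or (Equiv.Perm.sign σ) with h2 | h2
  · rw [h2, one_smul]
    exact h1
  · rw [h2]
    have e3 : (-1 : ℤˣ) • (∏ i, M (σ i) i) = -(∏ i, M (σ i) i) := by
      rw [Units.neg_smul, one_smul]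
    rw [e3]
    exact h1.kg_neg

end hat

section psi

/-- `F ↦ ∑ ψ (F.coeff (Q j)) X ^ j` -/
noncomputable def kgPsi (ψ : L → L) (Q : ℕ) (F : L[X]) : L[X] :=
  ∑ j ∈ Finset.range (F.natDegree + 1), monomial j (ψ (F.coeff (Q * j)))

variable {ψ : L → L} {Q : ℕ}

theorem kgPsi_coeff (h0 : ψ 0 = 0) (hQ : 0 < Q) (F : L[X]) (j : ℕ) :
    (kgPsi ψ Q F).coeff j = ψ (F.coeff (Q * j)) := by
  rw [kgPsi, finsetSum_coeff]
  simp only [coeff_monomial]
  rw [Finset.sum_ite_eq']
  split_ifs with h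
  · rfl
  · rw [Finset.mem_range, not_lt] at h
    rw [coeff_eq_zero_of_natDegree_lt, h0]
    have : j ≤ Q * j := Nat.le_mul_of_pos_left j hQ
    omega

theorem IsInv.kg_map_zero (h : IsInv Q ψ) : ψ 0 = 0 := by
  have h1 := h.add 0 0
  rw [add_zero] at h1
  exact left_eq_add.1 h1

theorem kgPsi_add (h : IsInv Q ψ) (hQ : 0 < Q) (F F' : L[X]) :
    kgPsi ψ Q (F + F') = kgPsi ψ Q F + kgPsi ψ Q F' := by
  ext j
  rw [coeff_add, kgPsi_coeff h.kg_map_zero hQ, kgPsi_coeff h.kg_map_zero hQ,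
    kgPsi_coeff h.kg_map_zero hQ, coeff_add, h.add]

theorem kgPsi_zero (h : IsInv Q ψ) (hQ : 0 < Q) : kgPsi ψ Q (0 : L[X]) = 0 := by
  ext j
  rw [kgPsi_coeff h.kg_map_zero hQ, coeff_zero, h.kg_map_zero, coeff_zero]

theorem kgPsi_lin {p N : ℕ} [Fact p.Prime] [CharP L p] {ψ : L → L} (h : IsInv (p ^ N) ψ)
    (r F : L[X]) : kgPsi ψ (p ^ N) (r ^ p ^ N * F) = r * kgPsi ψ (p ^ N) F := by
  have hQ : 0 < p ^ N := pow_pos (Fact.out : p.Prime).pos N
  induction r using Polynomial.induction_on' with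
  | add r s hr hs =>
    rw [add_pow_char_pow, add_mul, kgPsi_add h hQ, hr, hs, add_mul]
  | monomial i a =>
    ext j
    rw [kgPsi_coeff h.kg_map_zero hQ, monomial_pow, ← C_mul_X_pow_eq_monomial,
      ← C_mul_X_pow_eq_monomial, mul_assoc, mul_assoc, coeff_C_mul, coeff_C_mul,
      coeff_X_pow_mul', coeff_X_pow_mul']
    by_cases hij : i ≤ j
    · have h1 : i * p ^ N ≤ p ^ N * j := by
        rw [mul_comm]
        exact Nat.mul_le_mul_left _ hij
      rw [if_pos h1, if_pos hij, h.lin, kgPsi_coeff h.kg_map_zero hQ]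
      have h2 : p ^ N * j - i * p ^ N = p ^ N * (j - i) := by
        rw [Nat.mul_sub, mul_comm i]
      rw [h2]
    · have h1 : ¬ i * p ^ N ≤ p ^ N * j := by
        rw [mul_comm i]
        intro h2
        exact hij (Nat.le_of_mul_le_mul_left h2 hQ)
      rw [if_neg h1, if_neg hij, mul_zero, mul_zero, h.kg_map_zero]

end psi

theorem FF.finPow {p : ℕ} [Fact p.Prime] [CharP L p] (hF : FF p K) (N : ℕ) :
    FinPow K (p ^ N) := by
  classical
  obtain ⟨s, hs, h⟩ := hF.pow p N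
  let s' : Finset K := s.attach.image fun y => ⟨y.1, hs y.2⟩
  refine ⟨s', fun x => ?_⟩
  obtain ⟨f, -, hf⟩ := Submodule.mem_span_finset.1 (h x x.2)
  have hc : ∀ y : L, ∃ c : K, (c : L) ^ p ^ N = (f y : L) := by
    intro y
    obtain ⟨c, hc, hc'⟩ := (f y).2
    exact ⟨⟨c, hc⟩, by rw [← hc', iterateFrobenius_def]⟩
  choose c hc using hc
  refine ⟨fun y => c y, ?_⟩
  apply Subtype.ext
  have h1 : ∑ y ∈ s', (c (y : L)) ^ p ^ N * y = ∑ y ∈ s.attach, (c (y : L)) ^ p ^ N *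
      (⟨y.1, hs y.2⟩ : K) := by
    refine Finset.sum_image ?_
    intro a _ b _ hab
    have := congrArg (fun z : K => (z : L)) hab
    exact Subtype.ext this
  rw [h1, ← hf]
  push_cast
  rw [← Finset.sum_attach s]
  refine Finset.sum_congr rfl fun y _ => ?_
  rw [hc, Subfield.smul_def, smul_eq_mul]

end KM
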