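import Pool.Agent.Lib.MP_732f67_ag.KM.Eq4

/-! KM part A, file 29: Theorem A, part (2).

`J`, pencils `s₀ j, s₁ j` (`j ∈ J`) from `exists_J`.
`(1)`: `i ∈ S`, `LS V {i} = LS V {j}`: `Blk.max`, `Blk.link`.
`(2)`: induction on `∑ u`, or on `J` with `e2_iter`: `V (v + e j M) = ∑ s₀ j ^ k s₁ j ^ (M - k) V v`.
`(3)`: the ratios `s₁ j / s₀ j` are algebraically independent over `K`: `LS V {j} = K (s₁ j / s₀ j)`
(`gen`), `nu V J` is the rank of `⋃ Rat V {j}` (`nu_union`), i.e. of `{s₁ j / s₀ j | j ∈ J}`, which has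
at most `card J` elements; equality means independence.
`(4)`: the monomials of `(2)` are `∏ s₀ j ^ (u j)` times monomials in the ratios: independent. -/

namespace KM

variable {L I : Type*} [Field L] [DecidableEq I] {K : Subfield L}
  {V : (I → ℤ) → Submodule K L} {S : Finset I} {m₀ : ℕ} {p : ℕ} {a : I → ℝ}

/-- the monomials -/
def Main_set (J : Finset I) (s₀ s₁ : I → L) (u : I → ℤ) : Set L :=
  {y | ∃ k : I → ℕ, (∀ j, (k j : ℤ) ≤ u j) ∧
    y = ∏ j ∈ J, s₀ j ^ k j * s₁ j ^ ((u j).toNat - k j)}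

theorem Main_mul {T T' : Set L} {c : L} (hT : ∀ y ∈ T, c * y ∈ T') {z : L}
    (hz : z ∈ Submodule.span K T) : c * z ∈ Submodule.span K T' := by
  induction hz using Submodule.span_induction with
  | mem y hy => exact Submodule.subset_span (hT y hy)
  | zero => rw [mul_zero]; exact Submodule.zero_mem _
  | add x y _ _ hx hy => rw [mul_add]; exact Submodule.add_mem _ hx hy
  | smul r x _ hx =>
    rw [mul_smul_comm]
    exact Submodule.smul_mem _ _ hx

/-- the monomials span -/
theorem Main_span (h : Sys K V S m₀) (s₀ s₁ : I → L) (J : Finset I) (hJ : J ⊆ S)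
    (hit : ∀ j ∈ J, ∀ v ∈ Nn S, ∀ M : ℕ, ∀ x ∈ V (v + e j M), ∃ z : ℕ → L,
      (∀ k, z k ∈ V v) ∧
      x = ∑ k ∈ Finset.range (M + 1), s₀ j ^ k * s₁ j ^ (M - k) * z k) :
    ∀ u ∈ Nn J, ∀ x ∈ V u, x ∈ Submodule.span K (Main_set J s₀ s₁ u) := by
  induction J using Finset.induction_on with
  | empty =>
    intro u hu x hx
    have hu0 : u = 0 := funext fun i => hu.2 i (Finset.notMem_empty i)
    subst hu0
    have hxK := (h.zero x).1 hx
    have h1 : x = (⟨x, hxK⟩ : K) • (1 : L) := by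
      rw [Subfield.smul_def, smul_eq_mul, mul_one]
    rw [h1]
    refine Submodule.smul_mem _ _ (Submodule.subset_span ⟨0, fun j => le_refl _, ?_⟩)
    rw [Finset.prod_empty]
  | insert j J hj ih =>
    intro u hu x hx
    have hJ' : J ⊆ S := fun i hi => hJ (Finset.mem_insert_of_mem hi)
    have ih' := ih hJ' (fun i hi => hit i (Finset.mem_insert_of_mem hi))
    have hM : ((u j).toNat : ℤ) = u j := Int.toNat_of_nonneg (hu.1 j)
    have hv : u - e j (u j).toNat ∈ Nn J := by
      refine ⟨fun i => ?_, fun i hi => ?_⟩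
      · rcases eq_or_ne i j with rfl | hij
        · rw [Pi.sub_apply, e_same, hM, sub_self]
        · rw [Pi.sub_apply, e_ne hij, sub_zero]
          exact hu.1 i
      · rcases eq_or_ne i j with rfl | hij
        · rw [Pi.sub_apply, e_same, hM, sub_self]
        · rw [Pi.sub_apply, e_ne hij, sub_zero]
          exact hu.2 i (by rw [Finset.mem_insert]; exact fun h1 => h1.elim hij hi)
    have hx' : x ∈ V ((u - e j (u j).toNat) + e j (u j).toNat) := by rwa [sub_add_cancel]
    obtain ⟨z, hz, hxz⟩ := hit j (Finset.mem_insert_self _ _) _ (Nn_mono hJ' hv) _ x hx'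
    rw [hxz]
    refine Submodule.sum_mem _ fun k hk => ?_
    rw [Finset.mem_range] at hk
    refine Main_mul ?_ (ih' _ hv (z k) (hz k))
    rintro y ⟨k', hk', rfl⟩
    refine ⟨Function.update k' j k, fun i => ?_, ?_⟩
    · rcases eq_or_ne i j with rfl | hij
      · rw [Function.update_self, ← hM]
        exact_mod_cast Nat.lt_succ_iff.1 hk
      · rw [Function.update_of_ne hij]
        have h1 := hk' i
        rwa [Pi.sub_apply, e_ne hij, sub_zero] at h1
    · rw [Finset.prod_insert hj, Function.update_self]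
      congr 1
      refine Finset.prod_congr rfl fun i hi => ?_
      have hij : i ≠ j := fun h1 => hj (h1 ▸ hi)
      rw [Function.update_of_ne hij, Pi.sub_apply, e_ne hij, sub_zero]

/-- the ratios of `V (e j l)` are rational functions of one ratio -/
theorem Main_rat {j : I} {s₀ s₁ : L} (hP : Pencil V j s₀ s₁) :
    Rat V {j} ⊆ (AlgebraicIndependent.matroid K L).closure {s₁ / s₀} := by
  refine subset_trans ?_ rk2_field
  have hθ : s₁ / s₀ ∈ (Subfield.closure ((K : Set L) ∪ {s₁ / s₀}) : Subfield L) :=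
    Subfield.subset_closure (Or.inr rfl)
  have key : ∀ (l : ℕ) (y : L), y ∈ V (e j l) →
      y / s₀ ^ l ∈ (Subfield.closure ((K : Set L) ∪ {s₁ / s₀}) : Subfield L) := by
    intro l y hy
    obtain ⟨c, hc, rfl⟩ := hP.gen l y hy
    rw [Finset.sum_div]
    refine Subfield.sum_mem _ fun k hk => ?_
    rw [Finset.mem_range] at hk
    have h1 : c k * (s₀ ^ k * s₁ ^ (l - k)) / s₀ ^ l = c k * (s₁ / s₀) ^ (l - k) := by
      have h2 : s₀ ^ l = s₀ ^ k * s₀ ^ (l - k) := by
        rw [← pow_add]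
        congr 1
        omega
      have h3 : s₀ ≠ 0 := hP.ne₀
      rw [h2, div_pow]
      field_simp
    rw [h1]
    exact Subfield.mul_mem _ (Subfield.subset_closure (Or.inl (hc k)))
      (Subfield.pow_mem _ hθ _)
  rintro x ⟨u, hu, g, hg, k, hk, hk0, rfl⟩
  have hue : u = e j ((u j).toNat : ℤ) := by
    funext i
    rcases eq_or_ne i j with rfl | hij
    · rw [e_same, Int.toNat_of_nonneg (hu.1 i)]
    · rw [e_ne hij]
      exact hu.2 i (by rwa [Finset.mem_singleton])
  rw [hue] at hg hk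
  have h1 : g / k = (g / s₀ ^ (u j).toNat) / (k / s₀ ^ (u j).toNat) := by
    have h2 : s₀ ^ (u j).toNat ≠ 0 := pow_ne_zero _ hP.ne₀
    field_simp
  rw [h1]
  exact Subfield.div_mem _ (key _ g hg) (key _ k hk)

/-- the ratios are algebraically independent -/
theorem Main_indep (h : Sys K V S m₀) {J : Finset I} (hJ : J ⊆ S)
    (hcard : (J.card : ℕ∞) = nu V J) (s₀ s₁ : I → L)
    (hP : ∀ j ∈ J, Pencil V j (s₀ j) (s₁ j)) :
    AlgebraicIndependent K (fun j : J => s₁ j / s₀ j) := by
  classical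
  set θ : J → L := fun j => s₁ j / s₀ j with hθ
  have h1 : nu V J ≤ (AlgebraicIndependent.matroid K L).eRk (Set.range θ) := by
    rw [h.nu_union hJ, rk, ← Matroid.eRk_closure_eq _ (Set.range θ)]
    refine (AlgebraicIndependent.matroid K L).eRk_mono ?_
    refine Set.iUnion₂_subset fun j hj => ?_
    refine (Main_rat (hP j hj)).trans (Matroid.closure_subset_closure _ ?_)
    rw [Set.singleton_subset_iff]
    exact ⟨⟨j, hj⟩, rfl⟩
  rw [← hcard, Matroid.le_eRk_iff] at h1
  obtain ⟨X, hX, hind, hXc⟩ := h1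
  have hfin : (Set.range θ).Finite := Set.finite_range θ
  have hrange : Set.range θ = ((Finset.univ.image θ : Finset L) : Set L) := by
    rw [Finset.coe_image, Finset.coe_univ, Set.image_univ]
  have hle : (Finset.univ.image θ).card ≤ J.card := by
    refine Finset.card_image_le.trans ?_
    rw [Finset.card_univ, Fintype.card_coe]
  have hle' : (Set.range θ).encard ≤ X.encard := by
    rw [hXc, hrange, Set.encard_coe_eq_coe_finsetCard]
    exact_mod_cast hle
  have hXe : X = Set.range θ := hfin.eq_of_subset_of_encard_le' hX hle'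
  rw [hXe] at hind hXc
  have hinj : Function.Injective θ := by
    rw [hrange, Set.encard_coe_eq_coe_finsetCard] at hXc
    have h2 : (Finset.univ.image θ).card = (Finset.univ : Finset J).card := by
      rw [Finset.card_univ, Fintype.card_coe]
      exact_mod_cast hXc
    have h3 := Finset.card_image_iff.1 h2
    rw [Finset.coe_univ] at h3
    exact Set.injOn_univ.1 h3
  have h2 : AlgebraicIndependent K ((↑) : Set.range θ → L) := hind
  exact (algebraicIndependent_subtype_range hinj).1 h2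

/-- the dimensions -/
theorem Main_dim (h : Sys K V S m₀) {J : Finset I} (hJ : J ⊆ S) (s₀ s₁ : I → L)
    (hP : ∀ j ∈ J, Pencil V j (s₀ j) (s₁ j))
    (hind : AlgebraicIndependent K (fun j : J => s₁ j / s₀ j)) {u : I → ℤ} (hu : u ∈ Nn J)
    (hspan : ∀ x ∈ V u, x ∈ Submodule.span K (Main_set J s₀ s₁ u)) :
    Module.finrank K (V u) = ∏ j ∈ J, ((u j).toNat + 1) := by
  classical
  let X : Type _ := ∀ j : J, Fin ((u j).toNat + 1)
  let b : X → L := fun k => ∏ j : J, s₀ j ^ (k j : ℕ) * s₁ j ^ ((u j).toNat - (k j : ℕ))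
  -- the span
  have hV : V u = Submodule.span K (Set.range b) := by
    apply le_antisymm
    · intro x hx
      refine Submodule.span_mono ?_ (hspan x hx)
      rintro y ⟨k, hk, rfl⟩
      refine ⟨fun j => ⟨k j, ?_⟩, ?_⟩
      · have h1 := hk j
        omega
      · exact Finset.prod_coe_sort J (fun j => s₀ j ^ k j * s₁ j ^ ((u j).toNat - k j))
    · rw [Submodule.span_le]
      rintro _ ⟨k, rfl⟩
      have h1 : b k ∈ V (∑ j : J, e (j : I) ((u j).toNat : ℤ)) := by
        refine h.prod_mem Finset.univ _ _ (fun j _ => Zs_e (hJ j.2) _) (fun j _ => ?_)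
        have h2 := h.pow_mem (Zs_e (hJ j.2) 1) (hP j j.2).mem₀ (k j : ℕ)
        have h3 := h.pow_mem (Zs_e (hJ j.2) 1) (hP j j.2).mem₁ ((u j).toNat - (k j : ℕ))
        have h4 := h.mul _ (Zs_nsmul (Zs_e (hJ j.2) 1) _) _ (Zs_nsmul (Zs_e (hJ j.2) 1) _)
          _ h2 _ h3
        have h5 : (k j : ℕ) • e (j : I) 1 + ((u j).toNat - (k j : ℕ)) • e (j : I) 1 =
            e (j : I) ((u j).toNat : ℤ) := by
          rw [← add_nsmul, e_nsmul, mul_one]
          congr 2
          have := (k j).2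
          omega
        rwa [h5] at h4
      have h2 : ∑ j : J, e (j : I) ((u j).toNat : ℤ) = u := by
        rw [Finset.sum_coe_sort J (fun j => e j ((u j).toNat : ℤ))]
        have h3 : ∑ j ∈ J, e j ((u j).toNat : ℤ) = ∑ j ∈ J, e j (u j) := by
          refine Finset.sum_congr rfl fun j _ => ?_
          rw [Int.toNat_of_nonneg (hu.1 j)]
        rw [h3, sum_e hu.2]
      rwa [h2] at h1
  -- independence
  have hb : LinearIndependent K b := by
    set θ : J → L := fun j => s₁ j / s₀ j with hθ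
    let c : L := ∏ j : J, s₀ j ^ (u j).toNat
    have hc : c ≠ 0 := Finset.prod_ne_zero_iff.2 fun j _ => pow_ne_zero _ (hP j j.2).ne₀
    let m : X → (J →₀ ℕ) := fun k =>
      Finsupp.equivFunOnFinite.symm fun j => (u j).toNat - (k j : ℕ)
    have hm : Function.Injective m := by
      intro k k' hkk
      funext j
      apply Fin.ext
      have h1 := DFunLike.congr_fun hkk j
      have h2 : (u j).toNat - (k j : ℕ) = (u j).toNat - (k' j : ℕ) := h1
      have h3 := (k j).2
      have h4 := (k' j).2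
      omega
    have h1 := ((MvPolynomial.basisMonomials J K).linearIndependent.comp m hm)
    have h2 := h1.map' (MvPolynomial.aeval (R := K) θ).toLinearMap (by
      rw [LinearMap.ker_eq_bot]
      exact hind)
    have h3 := h2.map' (LinearMap.mulLeft K c) (by
      rw [LinearMap.ker_eq_bot]
      exact mul_right_injective₀ hc)
    have hbe : b = ⇑(LinearMap.mulLeft K c) ∘ ⇑(MvPolynomial.aeval (R := K) θ).toLinearMap ∘
        ⇑(MvPolynomial.basisMonomials J K) ∘ m := by
      funext k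
      change b k = c * MvPolynomial.aeval θ (MvPolynomial.basisMonomials J K (m k))
      rw [MvPolynomial.coe_basisMonomials, MvPolynomial.aeval_monomial, map_one, one_mul,
        Finsupp.prod_fintype _ _ (fun _ => pow_zero _), ← Finset.prod_mul_distrib]
      refine Finset.prod_congr rfl fun j _ => ?_
      change s₀ j ^ (k j : ℕ) * s₁ j ^ ((u j).toNat - (k j : ℕ)) =
        s₀ j ^ (u j).toNat * (s₁ j / s₀ j) ^ ((u j).toNat - (k j : ℕ))
      have h4 : s₀ (j : I) ^ (u j).toNat =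
          s₀ j ^ (k j : ℕ) * s₀ j ^ ((u j).toNat - (k j : ℕ)) := by
        rw [← pow_add]
        congr 1
        have := (k j).2
        omega
      have h5 : s₀ (j : I) ≠ 0 := (hP j j.2).ne₀
      rw [h4, div_pow]
      field_simp
    rw [hbe]
    exact h3
  rw [hV, finrank_span_eq_card hb]
  change Fintype.card (∀ j : J, Fin ((u j).toNat + 1)) = _
  rw [Fintype.card_pi]
  simp only [Fintype.card_fin]
  exact Finset.prod_coe_sort J (fun j => (u j).toNat + 1)

/-- Theorem A (2) -/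
theorem theoremA_eq [Fact p.Prime] [CharP L p] [Infinite K] (h : Sys K V S m₀)
    (hs : SplitX p V S a) (ha : ∀ i ∈ S, 0 < a i) (hF : FF p K) (hFG : FG K)
    (heq : ∑ i ∈ S, a i = 2 * ((nu V S).toNat : ℝ)) :
    ∃ J ⊆ S, J.card = (nu V S).toNat ∧ ∃ s₀ s₁ : I → L, (∀ j ∈ J, Pencil V j (s₀ j) (s₁ j)) ∧
      (∀ i ∈ S, ∃ j ∈ J, ∃ g, g ≠ 0 ∧ g ∈ V (e i 1 - e j 1) ∧ g⁻¹ ∈ V (e j 1 - e i 1)) ∧
      (∀ u ∈ Nn J, ∀ x ∈ V u, x ∈ Submodule.span K {y | ∃ k : I → ℕ, (∀ j, (k j : ℤ) ≤ u j) ∧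
        y = ∏ j ∈ J, s₀ j ^ k j * s₁ j ^ ((u j).toNat - k j)}) ∧
      AlgebraicIndependent K (fun j : J => s₁ j / s₀ j) ∧
      (∀ u ∈ Nn J, Module.finrank K (V u) = ∏ j ∈ J, ((u j).toNat + 1)) := by
  obtain ⟨J, hJ, hcard, hnu, hB, hJS⟩ := exists_J h hs ha hF hFG heq
  have hp : 2 ≤ p := (Fact.out : p.Prime).two_le
  have hex : ∀ j, ∃ (B : Finset I) (s₀ s₁ : L), j ∈ J → Blk V S a j B ∧ Pencil V j s₀ s₁ := by
    intro j
    by_cases hj : j ∈ J
    · obtain ⟨B, hBj⟩ := hB j hj
      obtain ⟨s₀, s₁, hP⟩ := hBj.pencil j hBj.mem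
      exact ⟨B, s₀, s₁, fun _ => ⟨hBj, hP⟩⟩
    · exact ⟨∅, 0, 0, fun h1 => absurd h1 hj⟩
  choose B s₀ s₁ hBP using hex
  have hP : ∀ j ∈ J, Pencil V j (s₀ j) (s₁ j) := fun j hj => (hBP j hj).2
  have hspan : ∀ u ∈ Nn J, ∀ x ∈ V u, x ∈ Submodule.span K (Main_set J s₀ s₁ u) := by
    refine Main_span h s₀ s₁ J hJ fun j hj v hv M => ?_
    have hb := (hBP j hj).1
    exact e2_iter h hp hs.split ha hb.mem hb.sub (hP j hj) hb.link hb.sum hv M
  have hind : AlgebraicIndependent K (fun j : J => s₁ j / s₀ j) := by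
    refine Main_indep h hJ ?_ s₀ s₁ hP
    rw [hcard, hnu, nu_toNat hFG]
  refine ⟨J, hJ, hcard, s₀, s₁, hP, fun i hi => ?_, hspan, hind, fun u hu => ?_⟩
  · obtain ⟨j, hj, hij⟩ := hJS i hi
    have hb := (hBP j hj).1
    exact ⟨j, hj, hb.link i (hb.max i hi hij)⟩
  · exact Main_dim h hJ s₀ s₁ hP hind hu (hspan u hu)

/-- Theorem A (1), for all `p` -/
theorem theoremA [Fact p.Prime] [CharP L p] [Infinite K] (h : Sys K V S m₀) (hs : Split p V S a)
    (ha : ∀ i ∈ S, 0 < a i) (hF : FF p K) (hFG : FG K) :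
    ∑ i ∈ S, a i ≤ 2 * ((nu V S).toNat : ℝ) := ineq h hs ha hF hFG

end KM
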