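import Pool.Agent.Lib.MP_732f67_ag.KM.Gr

/-! KM part A, file 13: homogeneous Noether normalisation over an infinite field, all parameters in
`R m`.

`exists_param0`: start with a spanning family of `R m` (`HFin` by `reg`).  Step: if `x : Fin (n+1) → L`
has `HFin` and a homogeneous relation `P (x) = 0`, `P ≠ 0` of degree `k`, choose `λ : Fin (n+1) → K`
with `(P * X_n) (λ) ≠ 0` (`K` infinite), scale to `λ n = 1` (`P` homogeneous), `x' j = x j - λ j * x n`
(`j < n`): `P (x' + λ x n) = P (λ) * x n ^ k + (terms divisible by some x' j)`, so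
`x n ^ k ∈ ∑ x' j * (forms of degree k - 1 in x)`.  `HFin` for `x'`: apply `HFin` of `x` `k` times:
`z ∈ ∑_{|β| = k} x ^ β R (..)`, rewrite `x ^ β` in `x'` and `x n`. -/

namespace KM

variable {L : Type*} [Field L] {K : Subfield L} {R : ℤ → Submodule K L} {m₀ : ℕ}

/-- iterate `HFin`: products of `k` parameters -/
theorem HFin.iter (hG : Gr K R m₀) {m n : ℕ} {x : Fin n → L} (hx : ∀ j, x j ∈ R m)
    (h : HFin R m x) (k : ℕ) : ∃ D : ℤ, ∀ l : ℤ, D ≤ l → ∀ z ∈ R (l + m * k),
      z ∈ Submodule.span K {y | ∃ β : Fin n →₀ ℕ, β.degree = k ∧ ∃ r ∈ R l,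
        y = (β.prod fun j c => x j ^ c) * r} := by
  obtain ⟨D, hD⟩ := h
  refine ⟨D, fun l hl => ?_⟩
  induction k with
  | zero =>
    intro z hz
    refine Submodule.subset_span ⟨0, by simp, z, by simpa using hz, by simp⟩
  | succ k ih =>
    intro z hz
    have hlk : l + (m : ℤ) * ((k + 1 : ℕ) : ℤ) = (l + m * k) + m := by push_cast; ring
    rw [hlk] at hz
    have hD' : D ≤ l + m * k := by
      have : (0 : ℤ) ≤ (m : ℤ) * k := by positivity
      linarith
    obtain ⟨y, hy, rfl⟩ := hD _ hD' z hz
    refine Submodule.sum_mem _ fun j _ => ?_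
    have h1 := ih _ (hy j)
    have h2 : ∀ w ∈ Submodule.span K {y | ∃ β : Fin n →₀ ℕ, β.degree = k ∧ ∃ r ∈ R l,
        y = (β.prod fun j c => x j ^ c) * r}, x j * w ∈ Submodule.span K
        {y | ∃ β : Fin n →₀ ℕ, β.degree = k + 1 ∧ ∃ r ∈ R l,
        y = (β.prod fun j c => x j ^ c) * r} := by
      intro w hw
      induction hw using Submodule.span_induction with
      | mem w hw =>
        obtain ⟨β, hβ, r, hr, rfl⟩ := hw
        refine Submodule.subset_span ⟨β + Finsupp.single j 1, ?_, r, hr, ?_⟩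
        · rw [map_add, hβ, Finsupp.degree_single]
        · rw [Finsupp.prod_add_index' (by simp) (fun a b c => pow_add _ _ _),
            Finsupp.prod_single_index (by simp), pow_one]
          ring
      | zero => simp
      | add a b _ _ ha hb => rw [mul_add]; exact Submodule.add_mem _ ha hb
      | smul c w _ hw => rw [mul_smul_comm]; exact Submodule.smul_mem _ _ hw
    exact h2 _ h1

/-- `∑ x' j * R l` -/
def PJ (R : ℤ → Submodule K L) {n : ℕ} (x : Fin n → L) (l : ℤ) : Submodule K L where
  carrier := {z | ∃ y : Fin n → L, (∀ j, y j ∈ R l) ∧ z = ∑ j, x j * y j}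
  zero_mem' := ⟨0, fun _ => Submodule.zero_mem _, by simp⟩
  add_mem' := by
    rintro a b ⟨y, hy, rfl⟩ ⟨z, hz, rfl⟩
    exact ⟨y + z, fun j => Submodule.add_mem _ (hy j) (hz j), by
      simp [mul_add, Finset.sum_add_distrib]⟩
  smul_mem' := by
    rintro c a ⟨y, hy, rfl⟩
    exact ⟨c • y, fun j => Submodule.smul_mem _ _ (hy j), by
      simp [Finset.smul_sum, mul_smul_comm]⟩

theorem mem_PJ {n : ℕ} {x : Fin n → L} {l : ℤ} {z : L} :
    z ∈ PJ R x l ↔ ∃ y : Fin n → L, (∀ j, y j ∈ R l) ∧ z = ∑ j, x j * y j := Iff.rfl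

theorem PJ_mul (hG : Gr K R m₀) {n : ℕ} {x : Fin n → L} {l a : ℤ} {z w : L}
    (hz : z ∈ PJ R x l) (hw : w ∈ R a) : w * z ∈ PJ R x (a + l) := by
  obtain ⟨y, hy, rfl⟩ := hz
  refine ⟨fun j => w * y j, fun j => hG.mul _ _ _ hw _ (hy j), ?_⟩
  rw [Finset.mul_sum]
  exact Finset.sum_congr rfl fun j _ => by ring

theorem Gr.pow_mem' (hG : Gr K R m₀) {a : ℤ} {x : L} (hx : x ∈ R a) (k : ℕ) :
    x ^ k ∈ R (a * k) := by
  induction k with
  | zero => simpa using (hG.zero 1).2 K.one_mem
  | succ k ih =>
    have := hG.mul _ _ _ ih _ hx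
    rw [pow_succ]
    have h2 : a * ((k + 1 : ℕ) : ℤ) = a * k + a := by push_cast; ring
    rwa [h2]

theorem Gr.monom_mem (hG : Gr K R m₀) {m n : ℕ} {x : Fin n → L} (hx : ∀ j, x j ∈ R m)
    (β : Fin n →₀ ℕ) : (β.prod fun j c => x j ^ c) ∈ R ((m : ℤ) * (β.degree : ℕ)) := by
  induction β using Finsupp.induction_linear with
  | zero => simpa using (hG.zero 1).2 K.one_mem
  | add f g hf hg =>
    rw [Finsupp.prod_add_index' (by simp) (fun a b c => pow_add _ _ _)]
    have h2 : (m : ℤ) * ((f + g).degree : ℕ) = m * (f.degree : ℕ) + m * (g.degree : ℕ) := by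
      rw [map_add]; push_cast; ring
    rw [h2]
    exact hG.mul _ _ _ hf _ hg
  | single a b =>
    rw [Finsupp.prod_single_index (by simp), Finsupp.degree_single]
    exact hG.pow_mem' (hx a) b

/-- modulo the new parameters, a monomial is a multiple of the power of the last one -/
theorem PJ_monom (hG : Gr K R m₀) {m n : ℕ} {x : Fin (n + 1) → L} (hx : ∀ j, x j ∈ R m)
    {x' : Fin n → L} {μ : Fin (n + 1) → K} (hμ : μ (Fin.last n) = 1)
    (hx' : ∀ j : Fin n, x' j = x j.castSucc - (μ j.castSucc : L) * x (Fin.last n))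
    (β : Fin (n + 1) →₀ ℕ) :
    (β.prod fun j c => x j ^ c) - (β.prod fun j c => (μ j : L) ^ c) * x (Fin.last n) ^ β.degree ∈
      PJ R x' ((m : ℤ) * (β.degree : ℕ) - m) := by
  have hone : (1 : L) ∈ R 0 := (hG.zero 1).2 K.one_mem
  have h0 : ∀ j : Fin (n + 1), x j - (μ j : L) * x (Fin.last n) ∈ PJ R x' 0 := by
    intro j
    refine Fin.lastCases ?_ (fun i => ?_) j
    · rw [hμ]; simp
    · rw [← hx', mem_PJ]
      refine ⟨Pi.single i 1, fun k => ?_, ?_⟩
      · by_cases hk : k = i
        · subst hk; simpa using hone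
        · rw [Pi.single_eq_of_ne hk]; exact Submodule.zero_mem _
      · rw [Finset.sum_eq_single i]
        · simp
        · intro b _ hb; simp [hb]
        · simp
  have hμm : ∀ j, (μ j : L) * x (Fin.last n) ∈ R m := by
    intro j
    exact Submodule.smul_mem _ (μ j) (hx _)
  induction β using Finsupp.induction_linear with
  | zero => simp
  | add f g hf hg =>
    rw [Finsupp.prod_add_index' (by simp) (fun a b c => pow_add _ _ _),
      Finsupp.prod_add_index' (by simp) (fun a b c => pow_add _ _ _), map_add]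
    set A := f.prod fun j c => x j ^ c with hA
    set B := g.prod fun j c => x j ^ c with hB
    set a := f.prod fun j c => (μ j : L) ^ c with ha
    set b := g.prod fun j c => (μ j : L) ^ c with hb
    have h1 : A * B - a * b * x (Fin.last n) ^ (f.degree + g.degree) =
      A * (B - b * x (Fin.last n) ^ g.degree) +
      (b * x (Fin.last n) ^ g.degree) * (A - a * x (Fin.last n) ^ f.degree) := by ring
    rw [h1]
    have hbK : b ∈ K := by
      rw [hb]
      exact Subring.prod_mem K.toSubring fun j _ => Subring.pow_mem _ (μ j).2 _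
    have hAm : A ∈ R ((m : ℤ) * (f.degree : ℕ)) := hG.monom_mem hx f
    have hBm : b * x (Fin.last n) ^ g.degree ∈ R ((m : ℤ) * (g.degree : ℕ)) :=
      Submodule.smul_mem _ (⟨b, hbK⟩ : K) (hG.pow_mem' (hx _) _)
    refine Submodule.add_mem _ ?_ ?_
    · have := PJ_mul hG hg hAm
      convert this using 1
      push_cast; ring
    · have := PJ_mul hG hf hBm
      convert this using 1
      push_cast; ring
  | single j c =>
    rw [Finsupp.prod_single_index (by simp), Finsupp.prod_single_index (by simp),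
      Finsupp.degree_single, ← mul_pow]
    induction c with
    | zero => simp
    | succ c ih =>
      have h1 : x j ^ (c + 1) - ((μ j : L) * x (Fin.last n)) ^ (c + 1) =
        x j * (x j ^ c - ((μ j : L) * x (Fin.last n)) ^ c) +
        ((μ j : L) * x (Fin.last n)) ^ c * (x j - (μ j : L) * x (Fin.last n)) := by ring
      rw [h1]
      refine Submodule.add_mem _ ?_ ?_
      · have := PJ_mul hG ih (hx j)
        convert this using 1
        push_cast; ring
      · have := PJ_mul hG (h0 j) (hG.pow_mem' (hμm j) c)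
        convert this using 1
        push_cast; ring

theorem eval_scale {F σ : Type*} [Field F] [Fintype σ] {P : MvPolynomial σ F} {k : ℕ}
    (hP : P.IsHomogeneous k) (c : F) (lam : σ → F) :
    MvPolynomial.eval (fun j => c * lam j) P = c ^ k * MvPolynomial.eval lam P := by
  rw [MvPolynomial.eval_eq', MvPolynomial.eval_eq', Finset.mul_sum]
  refine Finset.sum_congr rfl fun β hβ => ?_
  have hd : β.degree = k := by
    have := hP (MvPolynomial.mem_support_iff.1 hβ)
    rw [Finsupp.degree_eq_weight_one]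
    exact this
  simp_rw [mul_pow]
  rw [Finset.prod_mul_distrib, Finset.prod_pow_eq_pow_sum, ← Finsupp.degree_eq_sum, hd]
  ring

/-- one step of the normalisation -/
theorem param_step (hG : Gr K R m₀) {m n : ℕ} {x : Fin (n + 1) → L} (hx : ∀ j, x j ∈ R m)
    (hf : HFin R m x) {μ : Fin (n + 1) → K} (hμ : μ (Fin.last n) = 1) {k : ℕ}
    {P : MvPolynomial (Fin (n + 1)) K} (hP : P.IsHomogeneous k)
    (hP0 : MvPolynomial.aeval x P = 0) (hPμ : MvPolynomial.eval μ P ≠ 0) :
    ∃ x' : Fin n → L, (∀ j, x' j ∈ R m) ∧ HFin R m x' := by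
  set x' : Fin n → L := fun j => x j.castSucc - (μ j.castSucc : L) * x (Fin.last n) with hx'
  have key := PJ_monom hG hx hμ (x' := x') (fun j => rfl)
  -- the power of the last parameter
  have hpow : x (Fin.last n) ^ k ∈ PJ R x' ((m : ℤ) * k - m) := by
    have h1 : MvPolynomial.aeval x P - ((MvPolynomial.eval μ P : K) : L) * x (Fin.last n) ^ k ∈
        PJ R x' ((m : ℤ) * k - m) := by
      have h2 : MvPolynomial.aeval x P = ∑ β ∈ P.support, ((P.coeff β : K) : L) *
          (β.prod fun j c => x j ^ c) := by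
        rw [MvPolynomial.aeval_def, MvPolynomial.eval₂_eq']
        refine Finset.sum_congr rfl fun β _ => ?_
        rw [Finsupp.prod_fintype _ _ (by simp)]
        rfl
      have h3 : ((MvPolynomial.eval μ P : K) : L) = ∑ β ∈ P.support, ((P.coeff β : K) : L) *
          (β.prod fun j c => (μ j : L) ^ c) := by
        rw [MvPolynomial.eval_eq']
        push_cast
        refine Finset.sum_congr rfl fun β _ => ?_
        rw [Finsupp.prod_fintype _ _ (by simp)]
      rw [h2, h3, Finset.sum_mul, ← Finset.sum_sub_distrib]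
      refine Submodule.sum_mem _ fun β hβ => ?_
      have hd : β.degree = k := by
        have := hP (MvPolynomial.mem_support_iff.1 hβ)
        rw [Finsupp.degree_eq_weight_one]
        exact this
      have := key β
      rw [hd] at this
      have h4 := Submodule.smul_mem _ (P.coeff β) this
      convert h4 using 1
      rw [Subfield.smul_def, smul_eq_mul]
      ring
    rw [hP0, zero_sub] at h1
    have h5 := Submodule.neg_mem _ h1
    rw [neg_neg] at h5
    have h6 := Submodule.smul_mem _ (MvPolynomial.eval μ P)⁻¹ h5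
    convert h6 using 1
    rw [Subfield.smul_def, smul_eq_mul, ← mul_assoc]
    push_cast
    rw [inv_mul_cancel₀ (by exact_mod_cast hPμ), one_mul]
  obtain ⟨D, hD⟩ := hf.iter hG hx k
  refine ⟨x', fun j => Submodule.sub_mem _ (hx _) (Submodule.smul_mem _ (μ j.castSucc) (hx _)),
    D + m * k, fun l hl z hz => ?_⟩
  have h7 : z ∈ Submodule.span K {y | ∃ β : Fin (n + 1) →₀ ℕ, β.degree = k ∧
      ∃ r ∈ R (l + m - m * k), y = (β.prod fun j c => x j ^ c) * r} := by
    refine hD _ (by
      have : (0 : ℤ) ≤ (m : ℤ) := by positivity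
      linarith) z ?_
    rwa [sub_add_cancel]
  have h8 : z ∈ PJ R x' l := by
    refine Submodule.span_le.2 ?_ h7
    rintro y ⟨β, hβ, r, hr, rfl⟩
    have h9 := key β
    rw [hβ] at h9
    have h10 := PJ_mul hG h9 hr
    have hbK : (β.prod fun j c => (μ j : L) ^ c) ∈ K :=
      Subring.prod_mem K.toSubring fun j _ => Subring.pow_mem _ (μ j).2 _
    have h11 := PJ_mul hG (Submodule.smul_mem _ (⟨_, hbK⟩ : K) hpow) hr
    have h12 := Submodule.add_mem _ h10 h11
    have e1 : l + (m : ℤ) - m * k + (m * k - m) = l := by ring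
    rw [e1] at h12
    rw [SetLike.mem_coe]
    convert h12 using 1
    rw [Subfield.smul_def, smul_eq_mul]
    ring
  exact h8

theorem exists_param0 (hG : Gr K R m₀) [Infinite K] {m : ℕ} (hm : m₀ ≤ m) :
    ∃ (n : ℕ) (x : Fin n → L), (∀ j, x j ∈ R m) ∧ HInd K x ∧ HFin R m x := by
  classical
  have hex : ∃ n : ℕ, ∃ x : Fin n → L, (∀ j, x j ∈ R m) ∧ HFin R m x := by
    obtain ⟨n, x, hx⟩ := Submodule.fg_iff_exists_fin_generating_family.1 (hG.fg m)
    refine ⟨n, x, fun j => hx ▸ Submodule.subset_span ⟨j, rfl⟩, ?_⟩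
    obtain ⟨C, hC⟩ := hG.reg m hm
    refine ⟨C, fun l hl z hz => ?_⟩
    have h1 := hC l hl hz
    have h2 : R l * R m ≤ PJ R x l := by
      rw [Submodule.mul_le]
      intro a ha b hb
      rw [← hx] at hb
      induction hb using Submodule.span_induction with
      | mem b hb =>
        obtain ⟨j, rfl⟩ := hb
        rw [mem_PJ]
        refine ⟨Pi.single j a, fun k => ?_, ?_⟩
        · by_cases hk : k = j
          · subst hk; simpa using ha
          · rw [Pi.single_eq_of_ne hk]; exact Submodule.zero_mem _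
        · rw [Finset.sum_eq_single j]
          · simp [mul_comm]
          · intro b _ hb; simp [hb]
          · simp
      | zero => simp
      | add b c _ _ hb hc => rw [mul_add]; exact Submodule.add_mem _ hb hc
      | smul c w _ hw => rw [mul_smul_comm]; exact Submodule.smul_mem _ _ hw
    exact h2 h1
  obtain ⟨x, hx, hf⟩ := Nat.find_spec hex
  refine ⟨Nat.find hex, x, hx, ?_, hf⟩
  intro k P hP hP0
  by_contra hne
  have hmin : ∀ n' < Nat.find hex, ¬ ∃ x : Fin n' → L, (∀ j, x j ∈ R m) ∧ HFin R m x :=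
    fun n' hn' => Nat.find_min hex hn'
  generalize Nat.find hex = n at x hmin P
  cases n with
  | zero =>
    obtain ⟨c, rfl⟩ : ∃ c, P = MvPolynomial.C c := ⟨_, MvPolynomial.eq_C_of_isEmpty P⟩
    rw [MvPolynomial.aeval_C] at hP0
    apply hne
    have : c = 0 := by
      apply Subtype.ext
      simpa using hP0
    rw [this, map_zero]
  | succ n =>
    obtain ⟨lam, hlam⟩ : ∃ lam : Fin (n + 1) → K,
        MvPolynomial.eval lam (P * MvPolynomial.X (Fin.last n)) ≠ 0 := by
      by_contra hcon
      push Not at hcon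
      have h1 : P * MvPolynomial.X (Fin.last n) = 0 := by
        apply MvPolynomial.funext
        intro lam
        rw [hcon, map_zero]
      rcases mul_eq_zero.1 h1 with h1 | h1
      · exact hne h1
      · exact MvPolynomial.X_ne_zero _ h1
    rw [map_mul, MvPolynomial.eval_X] at hlam
    have hl1 := left_ne_zero_of_mul hlam
    have hl2 := right_ne_zero_of_mul hlam
    set c := lam (Fin.last n) with hc
    have hscale : MvPolynomial.eval (fun j => c⁻¹ * lam j) P ≠ 0 := by
      rw [eval_scale hP]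
      exact mul_ne_zero (pow_ne_zero _ (inv_ne_zero hl2)) hl1
    obtain ⟨x', hx', hf'⟩ := param_step hG hx hf (μ := fun j => c⁻¹ * lam j)
      (by rw [← hc]; exact inv_mul_cancel₀ hl2) hP hP0 hscale
    exact hmin n (Nat.lt_succ_self n) ⟨x', hx', hf'⟩

end KM
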