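import Pool.Agent.Lib.MP_732f67_ag.KM.Pole

/-! KM part A, file 19: the standard `Q⁻¹`-linear map of `MvPolynomial (Fin n) k`, `k` a field of
characteristic `p` which is finite over `k ^ Q`, `Q = p ^ N`.

Choose a `k ^ Q`-linear map `k → k ^ Q`, nonzero, and compose with the inverse of `x ↦ x ^ Q`:
`κ : k → k`, `κ (x ^ Q y) = x κ y`, `κ ≠ 0`.  `Φ P = ∑ over β with all β j ≡ -1 mod Q of
κ (coeff β P) * X ^ ((β j - (Q - 1)) / Q)`.  A basis `l_1 .. l_r` of `k` over `k ^ Q` has a dual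
family `l'_i` (`κ (l_i l'_j) = δ_ij`: `Hom` is one dimensional over `k`); `l_i X ^ β`, `0 ≤ β < Q`, is
a basis of the polynomial ring over its `Q`-th powers with dual family `l'_i X ^ (Q - 1 - β)`:
`P = ∑ (Φ (dual * P)) ^ Q * (basis)`.  `crit` and `rep` follow.  (`N = 0`: `Φ = id`.) -/

namespace KM

/-- `k` is finite over `k ^ Q` -/
def FinPow (k : Type*) [Field k] (Q : ℕ) : Prop :=
  ∃ s : Finset k, ∀ x : k, ∃ f : k → k, x = ∑ y ∈ s, f y ^ Q * y

/-- the field part -/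
theorem Phi_field {k : Type*} [Field k] {p : ℕ} [Fact p.Prime] [CharP k p] (N : ℕ)
    (hk : FinPow k (p ^ N)) : ∃ (κ : k → k) (r : ℕ) (l l' : Fin r → k),
      (∀ x y, κ (x + y) = κ x + κ y) ∧ (∀ x y, κ (x ^ p ^ N * y) = x * κ y) ∧
      ∀ x, x = ∑ i, κ (l' i * x) ^ p ^ N * l i := by
  classical
  set F : k →+* k := iterateFrobenius k p N with hF
  have hFx : ∀ x, F x = x ^ p ^ N := fun x => iterateFrobenius_def p N x
  set K : Subfield k := F.fieldRange with hK
  have hmem : ∀ x : k, x ^ p ^ N ∈ K := fun x => ⟨x, hFx x⟩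
  obtain ⟨s, hs⟩ := hk
  have hfin : Module.Finite K k := by
    refine ⟨s, ?_⟩
    rw [eq_top_iff]
    rintro x -
    obtain ⟨f, hf⟩ := hs x
    rw [hf]
    refine Submodule.sum_mem _ fun y hy => ?_
    have h1 : f y ^ p ^ N * y = (⟨f y ^ p ^ N, hmem _⟩ : K) • y := rfl
    rw [h1]
    exact Submodule.smul_mem _ _ (Submodule.subset_span hy)
  obtain ⟨τ, hτ⟩ : ∃ τ : Module.Dual K k, τ 1 ≠ 0 := by
    by_contra hcon
    push Not at hcon
    exact one_ne_zero ((Module.forall_dual_apply_eq_zero_iff K (1 : k)).1 hcon)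
  let Ψ : k →ₗ[K] Module.Dual K k := (LinearMap.mul K k).compr₂ τ
  have hΨ : ∀ x y, Ψ x y = τ (x * y) := fun x y => rfl
  have hinj : Function.Injective Ψ := by
    rw [injective_iff_map_eq_zero]
    intro x hx
    by_contra h0
    apply hτ
    have h1 : Ψ x x⁻¹ = 0 := by rw [hx]; rfl
    rwa [hΨ, mul_inv_cancel₀ h0] at h1
  have hsurj : Function.Surjective Ψ :=
    (LinearMap.injective_iff_surjective_of_finrank_eq_finrank
      (Subspace.dual_finrank_eq (K := K) (V := k)).symm).1 hinj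
  let b := Module.finBasis K k
  choose l' hl' using fun i => hsurj (b.coord i)
  choose κ hκ using fun x : k => (τ x).2
  have hκ' : ∀ x, κ x ^ p ^ N = (τ x : k) := fun x => by rw [← hFx]; exact hκ x
  have hFinj : ∀ x y : k, x ^ p ^ N = y ^ p ^ N → x = y := fun x y h => by
    rw [← hFx, ← hFx] at h
    exact F.injective h
  refine ⟨κ, Module.finrank K k, b, l', fun x y => hFinj _ _ ?_, fun x y => hFinj _ _ ?_,
    fun x => ?_⟩
  · rw [hκ', map_add, ← hFx, map_add, hFx, hFx, hκ', hκ']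
    rfl
  · have h1 : x ^ p ^ N * y = (⟨x ^ p ^ N, hmem _⟩ : K) • y := rfl
    rw [hκ', h1, map_smul, mul_pow, hκ']
    rfl
  · have h1 := b.sum_repr x
    conv_lhs => rw [← h1]
    refine Finset.sum_congr rfl fun i _ => ?_
    have h2 : b.repr x i = τ (l' i * x) := by
      rw [← hΨ, hl' i]
      rfl
    rw [h2, hκ']
    rfl

section mono

variable {k : Type*} [Field k] {n : ℕ} (Q : ℕ) (κ : k → k)

/-- the exponents congruent to `-1` -/
noncomputable def Phi_e (γ : Fin n →₀ ℕ) : Fin n →₀ ℕ :=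
  Q • γ + Finsupp.equivFunOnFinite.symm fun _ => Q - 1

variable {Q} in
theorem Phi_e_apply (γ : Fin n →₀ ℕ) (j : Fin n) : Phi_e Q γ j = Q * γ j + (Q - 1) := rfl

variable {Q}

theorem Phi_e_inj (hQ : 0 < Q) : Function.Injective (Phi_e Q : (Fin n →₀ ℕ) → _) := by
  intro γ γ' h
  ext j
  have h1 := DFunLike.congr_fun h j
  rw [Phi_e_apply, Phi_e_apply] at h1
  exact Nat.eq_of_mul_eq_mul_left hQ (Nat.add_right_cancel h1)

/-- the map `Φ` -/
noncomputable def Phi_f (hQ : 0 < Q) (P : MvPolynomial (Fin n) k) : MvPolynomial (Fin n) k :=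
  ∑ γ ∈ P.support.preimage (Phi_e Q) (Phi_e_inj hQ).injOn,
    MvPolynomial.monomial γ (κ (P.coeff (Phi_e Q γ)))

variable {κ}

theorem Phi_coeff (hQ : 0 < Q) (h0 : κ 0 = 0) (P : MvPolynomial (Fin n) k) (γ : Fin n →₀ ℕ) :
    (Phi_f κ hQ P).coeff γ = κ (P.coeff (Phi_e Q γ)) := by
  classical
  rw [Phi_f, MvPolynomial.coeff_sum]
  simp only [MvPolynomial.coeff_monomial]
  rw [Finset.sum_ite_eq']
  split_ifs with h
  · rfl
  · rw [Finset.mem_preimage, MvPolynomial.mem_support_iff, not_not] at h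
    rw [h, h0]

theorem Phi_add (hQ : 0 < Q) (h0 : κ 0 = 0) (ha : ∀ x y, κ (x + y) = κ x + κ y)
    (P P' : MvPolynomial (Fin n) k) : Phi_f κ hQ (P + P') = Phi_f κ hQ P + Phi_f κ hQ P' := by
  ext γ
  rw [MvPolynomial.coeff_add, Phi_coeff hQ h0, Phi_coeff hQ h0, Phi_coeff hQ h0,
    MvPolynomial.coeff_add, ha]

theorem Phi_mono (hQ : 0 < Q) (h0 : κ 0 = 0) (γ : Fin n →₀ ℕ) (c : k) :
    Phi_f κ hQ (MvPolynomial.monomial (Phi_e Q γ) c) = MvPolynomial.monomial γ (κ c) := by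
  classical
  ext γ'
  rw [Phi_coeff hQ h0, MvPolynomial.coeff_monomial, MvPolynomial.coeff_monomial]
  by_cases h : γ = γ'
  · rw [if_pos h, if_pos (by rw [h])]
  · rw [if_neg h, if_neg (fun h' => h (Phi_e_inj hQ h')), h0]

theorem Phi_mono_zero (hQ : 0 < Q) (h0 : κ 0 = 0) (β : Fin n →₀ ℕ) (c : k)
    (h : ∀ γ, Phi_e Q γ ≠ β) : Phi_f κ hQ (MvPolynomial.monomial β c) = 0 := by
  classical
  ext γ'
  rw [Phi_coeff hQ h0, MvPolynomial.coeff_monomial, if_neg (fun h' => h γ' h'.symm), h0,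
    MvPolynomial.coeff_zero]

theorem Phi_lin {p : ℕ} [Fact p.Prime] [CharP k p] (N : ℕ) (hQ : 0 < p ^ N) (h0 : κ 0 = 0)
    (ha : ∀ x y, κ (x + y) = κ x + κ y) (hl : ∀ x y, κ (x ^ p ^ N * y) = x * κ y)
    (P P' : MvPolynomial (Fin n) k) : Phi_f κ hQ (P ^ p ^ N * P') = P * Phi_f κ hQ P' := by
  classical
  induction P using MvPolynomial.induction_on' with
  | monomial α c =>
    rw [MvPolynomial.monomial_pow]
    ext γ
    rw [Phi_coeff hQ h0, MvPolynomial.coeff_monomial_mul', MvPolynomial.coeff_monomial_mul',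
      Phi_coeff hQ h0]
    have hle : p ^ N • α ≤ Phi_e (p ^ N) γ ↔ α ≤ γ := by
      rw [Finsupp.le_def, Finsupp.le_def]
      refine forall_congr' fun j => ?_
      rw [Phi_e_apply, Finsupp.smul_apply, smul_eq_mul]
      constructor
      · intro h
        by_contra hcon
        have h1 : γ j + 1 ≤ α j := by omega
        have h2 : p ^ N * (γ j + 1) ≤ p ^ N * α j := Nat.mul_le_mul_left _ h1
        rw [Nat.mul_add, mul_one] at h2
        omega
      · intro h
        exact (Nat.mul_le_mul_left _ h).trans (Nat.le_add_right _ _)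
    by_cases h : α ≤ γ
    · rw [if_pos (hle.2 h), if_pos h, hl]
      congr 3
      ext j
      rw [Finsupp.tsub_apply, Phi_e_apply, Phi_e_apply, Finsupp.tsub_apply, Finsupp.smul_apply,
        smul_eq_mul, Nat.mul_sub]
      have h2 : p ^ N * α j ≤ p ^ N * γ j := Nat.mul_le_mul_left _ (h j)
      omega
    · rw [if_neg (fun h' => h (hle.1 h')), if_neg h, h0]
  | add P₁ P₂ h1 h2 =>
    rw [add_pow_char_pow, add_mul, add_mul, Phi_add hQ h0 ha, h1, h2]

/-- the dual families -/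
theorem Phi_dual {p : ℕ} [Fact p.Prime] [CharP k p] (N : ℕ) (hQ : 0 < p ^ N) (h0 : κ 0 = 0)
    (ha : ∀ x y, κ (x + y) = κ x + κ y) {r : ℕ} {l l' : Fin r → k}
    (hd : ∀ x, x = ∑ i, κ (l' i * x) ^ p ^ N * l i) (P : MvPolynomial (Fin n) k) :
    P = ∑ i : Fin r, ∑ δ : Fin n → Fin (p ^ N), Phi_f κ hQ (MvPolynomial.monomial
      (Finsupp.equivFunOnFinite.symm fun j => p ^ N - 1 - (δ j : ℕ)) (l' i) * P) ^ p ^ N *
      MvPolynomial.monomial (Finsupp.equivFunOnFinite.symm fun j => (δ j : ℕ)) (l i) := by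
  classical
  induction P using MvPolynomial.induction_on' with
  | monomial β c =>
    let δ₀ : Fin n → Fin (p ^ N) := fun j => ⟨β j % p ^ N, Nat.mod_lt _ hQ⟩
    let γ : Fin n →₀ ℕ := Finsupp.equivFunOnFinite.symm fun j => β j / p ^ N
    have hβ : ∀ j, β j = p ^ N * γ j + (δ₀ j : ℕ) := fun j => (Nat.div_add_mod _ _).symm
    have key : ∀ (i : Fin r), ∑ δ : Fin n → Fin (p ^ N), Phi_f κ hQ (MvPolynomial.monomial
      (Finsupp.equivFunOnFinite.symm fun j => p ^ N - 1 - (δ j : ℕ)) (l' i) *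
        MvPolynomial.monomial β c) ^ p ^ N *
      MvPolynomial.monomial (Finsupp.equivFunOnFinite.symm fun j => (δ j : ℕ)) (l i) =
      MvPolynomial.monomial β (κ (l' i * c) ^ p ^ N * l i) := by
      intro i
      rw [Finset.sum_eq_single δ₀]
      · rw [MvPolynomial.monomial_mul]
        have h1 : (Finsupp.equivFunOnFinite.symm fun j => p ^ N - 1 - (δ₀ j : ℕ)) + β =
            Phi_e (p ^ N) γ := by
          ext j
          rw [Phi_e_apply, Finsupp.add_apply]
          change p ^ N - 1 - (δ₀ j : ℕ) + β j = _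
          rw [hβ j]
          have := (δ₀ j).2
          omega
        have h2 : (p ^ N • γ + Finsupp.equivFunOnFinite.symm fun j => (δ₀ j : ℕ)) = β := by
          ext j
          rw [Finsupp.add_apply, Finsupp.smul_apply, smul_eq_mul]
          exact (hβ j).symm
        rw [h1, Phi_mono hQ h0, MvPolynomial.monomial_pow, MvPolynomial.monomial_mul, h2]
      · intro δ _ hδ
        rw [MvPolynomial.monomial_mul, Phi_mono_zero hQ h0, zero_pow hQ.ne', zero_mul]
        intro γ' hγ'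
        apply hδ
        funext j
        apply Fin.ext
        have h1 := DFunLike.congr_fun hγ' j
        rw [Phi_e_apply, Finsupp.add_apply] at h1
        change p ^ N * γ' j + (p ^ N - 1) = p ^ N - 1 - (δ j : ℕ) + β j at h1
        rw [hβ j] at h1
        have h2 := (δ₀ j).2
        have h3 := (δ j).2
        have h4 : p ^ N * γ' j + (δ j : ℕ) = p ^ N * γ j + (δ₀ j : ℕ) := by omega
        have h5 : (p ^ N * γ' j + (δ j : ℕ)) % p ^ N = (δ j : ℕ) := by
          rw [Nat.mul_add_mod, Nat.mod_eq_of_lt h3]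
        have h6 : (p ^ N * γ j + (δ₀ j : ℕ)) % p ^ N = (δ₀ j : ℕ) := by
          rw [Nat.mul_add_mod, Nat.mod_eq_of_lt h2]
        rw [← h5, ← h6, h4]
      · intro h
        exact absurd (Finset.mem_univ _) h
    simp only [key]
    rw [← map_sum, ← hd c]
  | add P₁ P₂ h1 h2 =>
    conv_lhs => rw [h1, h2]
    rw [← Finset.sum_add_distrib]
    refine Finset.sum_congr rfl fun i _ => ?_
    rw [← Finset.sum_add_distrib]
    refine Finset.sum_congr rfl fun δ _ => ?_
    rw [mul_add, Phi_add hQ h0 ha, add_pow_char_pow, add_mul]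

theorem Phi_degree (γ : Fin n →₀ ℕ) :
    Finsupp.degree (Phi_e Q γ) = Q * Finsupp.degree γ + (Q - 1) * n := by
  rw [Finsupp.degree_eq_sum, Finsupp.degree_eq_sum, Finset.mul_sum]
  simp only [Phi_e_apply]
  rw [Finset.sum_add_distrib, Finset.sum_const, Finset.card_univ, Fintype.card_fin, smul_eq_mul,
    mul_comm n]

end mono

theorem exists_Phi {k : Type*} [Field k] {p : ℕ} [Fact p.Prime] [CharP k p] (N n : ℕ)
    (hk : FinPow k (p ^ N)) : ∃ Φ : MvPolynomial (Fin n) k → MvPolynomial (Fin n) k,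
      IsPhi (p ^ N) Φ ∧
      (∀ (P : MvPolynomial (Fin n) k) (D k' : ℕ), P.IsHomogeneous D →
        p ^ N * k' + (p ^ N - 1) * n = D → (Φ P).IsHomogeneous k') ∧
      (∀ (P : MvPolynomial (Fin n) k) (D : ℕ), P.IsHomogeneous D →
        (∀ k', p ^ N * k' + (p ^ N - 1) * n ≠ D) → Φ P = 0) := by
  classical
  obtain ⟨κ, r, l, l', ha, hl, hd⟩ := Phi_field N hk
  have h0 : κ 0 = 0 := by
    have h1 := ha 0 0
    rw [add_zero] at h1
    exact left_eq_add.1 h1
  have hQ : 0 < p ^ N := pow_pos (Nat.Prime.pos Fact.out) N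
  have hdeg : ∀ (P : MvPolynomial (Fin n) k) (D : ℕ), P.IsHomogeneous D → ∀ γ,
      (Phi_f κ hQ P).coeff γ ≠ 0 → p ^ N * Finsupp.degree γ + (p ^ N - 1) * n = D := by
    intro P D hP γ hγ
    rw [Phi_coeff hQ h0] at hγ
    have h1 : P.coeff (Phi_e (p ^ N) γ) ≠ 0 := fun h => hγ (by rw [h, h0])
    rw [← Phi_degree, Finsupp.degree_eq_weight_one]
    exact hP h1
  refine ⟨Phi_f κ hQ, ⟨Phi_add hQ h0 ha, Phi_lin N hQ h0 ha hl, ?_, ?_⟩, ?_, ?_⟩
  · intro c P _ h
    rw [Phi_dual N hQ h0 ha hd P]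
    refine Finset.dvd_sum fun i _ => Finset.dvd_sum fun δ _ => ?_
    exact Dvd.dvd.mul_right (pow_dvd_pow_of_dvd (h _) _) _
  · intro Θ h1 h2
    have h3 : ∀ {α : Type} (s : Finset α) (f : α → MvPolynomial (Fin n) k),
        Θ (∑ i ∈ s, f i) = ∑ i ∈ s, Θ (f i) := by
      intro α s f
      exact map_sum (AddMonoidHom.mk' Θ h1) f s
    have h4 : ∀ {α : Type} (s : Finset α) (f : α → MvPolynomial (Fin n) k),
        Phi_f κ hQ (∑ i ∈ s, f i) = ∑ i ∈ s, Phi_f κ hQ (f i) := by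
      intro α s f
      exact map_sum (AddMonoidHom.mk' (Phi_f κ hQ) (Phi_add hQ h0 ha)) f s
    refine ⟨∑ i : Fin r, ∑ δ : Fin n → Fin (p ^ N), Θ (MvPolynomial.monomial
      (Finsupp.equivFunOnFinite.symm fun j => (δ j : ℕ)) (l i)) ^ p ^ N * MvPolynomial.monomial
      (Finsupp.equivFunOnFinite.symm fun j => p ^ N - 1 - (δ j : ℕ)) (l' i), fun s => ?_⟩
    conv_lhs => rw [Phi_dual N hQ h0 ha hd s]
    rw [h3, Finset.sum_mul, h4]
    refine Finset.sum_congr rfl fun i _ => ?_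
    rw [h3, Finset.sum_mul, h4]
    refine Finset.sum_congr rfl fun δ _ => ?_
    rw [h2, mul_assoc, Phi_lin N hQ h0 ha hl, mul_comm]
  · intro P D k' hP hk' γ hγ
    have h1 := hdeg P D hP γ hγ
    rw [← hk'] at h1
    have h2 := Nat.eq_of_mul_eq_mul_left hQ (Nat.add_right_cancel h1)
    rw [Finsupp.degree_eq_weight_one] at h2
    exact h2
  · intro P D hP hk'
    ext γ
    rw [MvPolynomial.coeff_zero]
    by_contra hγ
    exact hk' _ (hdeg P D hP γ hγ)

end KM
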