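import Mathlib

/-! KM part A, file 18: the pole argument, abstract form (F7).

`A` = polynomial ring, `R` = graded ring, free over `A` with basis `b`; `ν₀` = the basis element of
maximal degree; `Φ` = standard `Q⁻¹`-linear map of `A`.

* `gram_det_ne`: for `0 ≠ y ∈ R` there is `y'` with `0 ≠ y * y' ∈ A` (`R` is a domain, integral over
  `A`), so `b.repr (y * (y' * b ν₀)) ν₀ ≠ 0`: the pairing `(y, z) ↦ b.repr (y * z) ν₀` is
  nondegenerate.
* `exists_mul`: `G = ∑ γ λ • b λ`, `γ = adj (gram) *ᵥ (Λ (b μ))`.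
* `smul_dvd`: coordinates `γ` of `f`: `gram *ᵥ γ ∈ det * ρ`, multiply by the adjugate, cancel `det`.
* `exists_Lambda`: for every `μ` the map `s ↦ Θ (s • b μ)` is `Φ (Λ μ * s)` by `rep`; `Λ` is the
  linear map with `Λ (b μ) = Λ μ`.
* `pole`: `Λ` from `exists_Lambda`, `G` from `exists_mul`.  For all `r`, `s`:
  `Φ (s * (ρ ^ (Q - 1) * Λ (f * r))) = Θ (ρ ^ (Q - 1) • (f * (s • r))) ∈ (ρ)`, so by `crit`
  `ρ ^ Q ∣ ρ ^ (Q - 1) * Λ (f * r)`, `ρ ∣ Λ (f * r)`, `det * ρ ∣ b.repr (G * f * r) ν₀`, and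
  `smul_dvd` for `G * f`. -/

namespace KM

/-- the standard `Q⁻¹`-linear map of a polynomial ring, abstractly -/
structure IsPhi {A : Type*} [CommRing A] (Q : ℕ) (Φ : A → A) : Prop where
  add : ∀ x y, Φ (x + y) = Φ x + Φ y
  lin : ∀ x y, Φ (x ^ Q * y) = x * Φ y
  crit : ∀ c P : A, c ≠ 0 → (∀ s, c ∣ Φ (s * P)) → c ^ Q ∣ P
  rep : ∀ Θ : A → A, (∀ x y, Θ (x + y) = Θ x + Θ y) → (∀ x y, Θ (x ^ Q * y) = x * Θ y) →
    ∃ a, ∀ s, Θ s = Φ (a * s)

variable {A R : Type*} [CommRing A] [IsDomain A] [CommRing R] [IsDomain R] [Algebra A R]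
  {ι : Type*} [Fintype ι] [DecidableEq ι] (b : Module.Basis ι A R) (ν₀ : ι)

/-- the Gram matrix of `(y, z) ↦ b.repr (y * z) ν₀` -/
noncomputable def gram : Matrix ι ι A := fun i j => b.repr (b i * b j) ν₀

/-- The Gram matrix applied to the coordinates of `y`. -/
theorem gram_mulVec (v : ι → A) (j : ι) :
    (gram b ν₀).mulVec v j = b.repr ((∑ i, v i • b i) * b j) ν₀ := by
  rw [Finset.sum_mul, map_sum, Finset.sum_apply', Matrix.mulVec, dotProduct]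
  refine Finset.sum_congr rfl fun i _ => ?_
  rw [smul_mul_assoc, map_smul, Finsupp.smul_apply, smul_eq_mul, gram, mul_comm (b j) (b i),
    mul_comm]

theorem gram_det_ne : (gram b ν₀).det ≠ 0 := by
  intro h0
  rw [← Matrix.exists_mulVec_eq_zero_iff] at h0
  obtain ⟨v, hv, h1⟩ := h0
  have hfin : Module.Finite A R := Module.Finite.of_basis b
  obtain ⟨y, hy⟩ : ∃ y, y = ∑ i, v i • b i := ⟨_, rfl⟩
  have hy0 : y ≠ 0 := by
    intro h2
    apply hv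
    funext i
    have h3 := congrArg (fun z => b.repr z i) (hy.symm.trans h2)
    simpa [map_sum, Finsupp.single_apply] using h3
  have h2 : ∀ z : R, b.repr (y * z) ν₀ = 0 := by
    intro z
    have h3 : ((Finsupp.lapply ν₀ : (ι →₀ A) →ₗ[A] A) ∘ₗ (b.repr : R →ₗ[A] (ι →₀ A)) ∘ₗ
        (LinearMap.mulLeft A y)) = 0 := by
      refine b.ext fun j => ?_
      have h4 := congrFun h1 j
      rw [gram_mulVec, ← hy] at h4
      exact h4
    exact LinearMap.congr_fun h3 z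
  have h3 : (Ideal.span {y}).comap (algebraMap A R) ≠ ⊥ :=
    Ideal.comap_ne_bot_of_integral_mem hy0 (Ideal.mem_span_singleton_self y)
      (Algebra.IsIntegral.isIntegral y)
  obtain ⟨a, ha, ha0⟩ := Submodule.exists_mem_ne_zero_of_ne_bot h3
  rw [Ideal.mem_comap, Ideal.mem_span_singleton] at ha
  obtain ⟨y', hy'⟩ := ha
  apply ha0
  have h4 := h2 (y' * b ν₀)
  rw [← mul_assoc, ← hy', ← Algebra.smul_def, map_smul, Finsupp.smul_apply, b.repr_self,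
    Finsupp.single_eq_same, smul_eq_mul, mul_one] at h4
  exact h4

theorem exists_mul (Λ : R →ₗ[A] A) :
    ∃ G : R, ∀ y, b.repr (G * y) ν₀ = (gram b ν₀).det * Λ y := by
  obtain ⟨v, hv⟩ : ∃ v, v = (gram b ν₀).adjugate.mulVec (fun μ => Λ (b μ)) := ⟨_, rfl⟩
  refine ⟨∑ i, v i • b i, fun y => ?_⟩
  have h3 : ((Finsupp.lapply ν₀ : (ι →₀ A) →ₗ[A] A) ∘ₗ (b.repr : R →ₗ[A] (ι →₀ A)) ∘ₗ
      (LinearMap.mulLeft A (∑ i, v i • b i))) = (gram b ν₀).det • Λ := by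
    refine b.ext fun j => ?_
    have h4 := gram_mulVec b ν₀ v j
    rw [hv, Matrix.mulVec_mulVec, Matrix.mul_adjugate, Matrix.smul_mulVec, Matrix.one_mulVec,
      ← hv] at h4
    exact h4.symm
  exact LinearMap.congr_fun h3 y

theorem smul_dvd {f : R} {ρ : A} (h : ∀ r, (gram b ν₀).det * ρ ∣ b.repr (f * r) ν₀) :
    ∃ r' : R, f = ρ • r' := by
  choose s hs using fun j => h (b j)
  have hf : ∑ i, b.repr f i • b i = f := b.sum_repr f
  have h1 : (gram b ν₀).mulVec (fun i => b.repr f i) = ((gram b ν₀).det * ρ) • s := by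
    funext j
    rw [gram_mulVec, hf, hs]
    rfl
  have h2 := congrArg ((gram b ν₀).adjugate.mulVec) h1
  rw [Matrix.mulVec_mulVec, Matrix.adjugate_mul, Matrix.smul_mulVec, Matrix.one_mulVec,
    Matrix.mulVec_smul, mul_smul] at h2
  have h3 : (fun i => b.repr f i) = ρ • (gram b ν₀).adjugate.mulVec s := by
    funext i
    have h4 := congrFun h2 i
    exact mul_left_cancel₀ (gram_det_ne b ν₀) h4
  refine ⟨∑ i, (gram b ν₀).adjugate.mulVec s i • b i, ?_⟩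
  rw [Finset.smul_sum]
  refine hf.symm.trans (Finset.sum_congr rfl fun i _ => ?_)
  have h5 : b.repr f i = ρ * (gram b ν₀).adjugate.mulVec s i := congrFun h3 i
  rw [smul_smul, h5]

omit [IsDomain A] in
theorem IsPhi.sum {Q : ℕ} {Φ : A → A} (hΦ : IsPhi Q Φ) {κ : Type*} (s : Finset κ) (f : κ → A) :
    Φ (∑ i ∈ s, f i) = ∑ i ∈ s, Φ (f i) :=
  map_sum (AddMonoidHom.mk' Φ hΦ.add) f s

include b in
theorem exists_Lambda {Q : ℕ} {Φ : A → A} (hΦ : IsPhi Q Φ) (Θ : R → A)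
    (hadd : ∀ x y, Θ (x + y) = Θ x + Θ y) (hlin : ∀ (x : A) (y : R), Θ (x ^ Q • y) = x * Θ y) :
    ∃ Λ : R →ₗ[A] A, ∀ y, Θ y = Φ (Λ y) := by
  have h1 : ∀ μ, ∃ a, ∀ s, Θ (s • b μ) = Φ (a * s) := fun μ =>
    hΦ.rep (fun s => Θ (s • b μ)) (fun x y => by rw [add_smul, hadd])
      (fun x y => by rw [mul_smul, hlin])
  choose a ha using h1
  refine ⟨b.constr A a, fun y => ?_⟩
  rw [Module.Basis.constr_apply_fintype, hΦ.sum]
  have h2 : Θ (∑ i, b.repr y i • b i) = ∑ i, Θ (b.repr y i • b i) :=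
    map_sum (AddMonoidHom.mk' Θ hadd) _ _
  rw [b.sum_repr] at h2
  rw [h2]
  refine Finset.sum_congr rfl fun i _ => ?_
  rw [ha, mul_comm]
  rfl

/-- the pole argument -/
theorem pole {Q : ℕ} (hQ : 0 < Q) {Φ : A → A} (hΦ : IsPhi Q Φ) (Θ : R → A)
    (hadd : ∀ x y, Θ (x + y) = Θ x + Θ y) (hlin : ∀ (x : A) (y : R), Θ (x ^ Q • y) = x * Θ y) :
    ∃ G : R, (∀ y, (gram b ν₀).det * Θ y =
        Φ ((gram b ν₀).det ^ (Q - 1) * b.repr (G * y) ν₀)) ∧
      ∀ (f : R) (ρ : A), ρ ≠ 0 → (∀ r : R, ρ ∣ Θ (ρ ^ (Q - 1) • (f * r))) →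
        ∃ r' : R, G * f = ρ • r' := by
  obtain ⟨Λ, hΛ⟩ := exists_Lambda b hΦ Θ hadd hlin
  obtain ⟨G, hG⟩ := exists_mul b ν₀ Λ
  refine ⟨G, fun y => ?_, fun f ρ hρ h => smul_dvd b ν₀ fun r => ?_⟩
  · rw [hG, ← mul_assoc, ← pow_succ, Nat.sub_add_cancel hQ, hΦ.lin, hΛ]
  · rw [mul_assoc, hG]
    refine mul_dvd_mul_left _ ?_
    have h1 := hΦ.crit ρ (ρ ^ (Q - 1) * Λ (f * r)) hρ fun s => by
      have h2 := h (s • r)
      rw [hΛ, map_smul, mul_smul_comm, map_smul, smul_eq_mul, smul_eq_mul] at h2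
      rwa [mul_left_comm] at h2
    obtain ⟨m, rfl⟩ : ∃ m, Q = m + 1 := ⟨Q - 1, by omega⟩
    rw [Nat.add_sub_cancel, pow_succ] at h1
    exact (mul_dvd_mul_iff_left (pow_ne_zero m hρ)).1 h1

end KM
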