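import Pool.Agent.Lib.MP_732f67_ag.KM.AtHart
import Pool.Agent.Lib.MP_732f67_ag.KC.Prj

/-!
KM: the projection `prj M` preserves the spaces of sections, if the subfield `M` contains generating
sections of the divisors `m D_j` and `(m + 1) D_j`.
-/

namespace KM

open Pool.Agent.Lib.MP_732f67_ag.KC (prj)

variable {L : Type*} [Field L] {K : Subfield L} {ι I : Type*} [Fintype I] [DecidableEq I]
  {X : Atl K ι I} {m : ℕ}

theorem prjv_zpow_mem (A : Subring L) {x : L} (h1 : x ∈ A) (h2 : x⁻¹ ∈ A) (n : ℤ) :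
    x ^ n ∈ A := by
  obtain ⟨k, rfl | rfl⟩ := n.eq_nat_or_neg
  · rw [zpow_natCast]
    exact A.pow_mem h1 k
  · rw [zpow_neg, zpow_natCast, ← inv_pow]
    exact A.pow_mem h2 k

/-- elements which are algebraic over the prime field are in every valuation ring -/
theorem prjv_prime_mem {p : ℕ} [Fact p.Prime] [Algebra (ZMod p) L] (O : ValuationSubring L) {x : L}
    (hx : IsAlgebraic (ZMod p) x) : x ∈ O := by
  have h1 : IsIntegral (ZMod p) x := hx.isIntegral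
  have h2 : IsIntegral (algebraMap (ZMod p) L).range x := by
    refine IsIntegral.map_of_comp_eq (algebraMap (ZMod p) L).rangeRestrict (RingHom.id L) ?_ h1
    ext y
    rfl
  refine hart_mem_of_integral h2 O ?_
  rintro y ⟨z, rfl⟩
  rw [← ZMod.natCast_zmod_val z, map_natCast]
  exact natCast_mem O.toSubring _

/-- the multiplier `∏ g ^ u`, `g = l' / l` -/
theorem prjv_key (i : ι) (u : I → ℤ) {g : I → L} (hg : ∀ j, g j ≠ 0) (f : L) :
    f * X.eq i u = ((∏ j, g j ^ u j)⁻¹ * f) * ∏ j, (g j * X.d i j) ^ u j := by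
  have h1 : ∏ j, (g j * X.d i j) ^ u j = (∏ j, g j ^ u j) * X.eq i u := by
    unfold Atl.eq
    rw [← Finset.prod_mul_distrib]
    exact Finset.prod_congr rfl fun j _ => mul_zpow _ _ _
  have h2 : ∏ j, g j ^ u j ≠ 0 := Finset.prod_ne_zero_iff.2 fun j _ => zpow_ne_zero _ (hg j)
  rw [h1]
  field_simp

/-- PROOF. Fix the chart `i`. Choose `l j ∈ W j`, `l' j ∈ W' j` with `l j * d i j ^ m`,
`l' j * d i j ^ (m + 1)` units of `A i`; `g j := l' j / l j ∈ M`; `g j * d i j` is a unit of `A i`.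
`B` := the subring generated by the `s / l j` (`s ∈ W j`) and the `s' / l' j` (`s' ∈ W' j`). Then
`B ≤ A i` and `B ⊆ M`.
(1) `F := f * ∏ (g j)⁻¹ ^ u j` is integral over `B`: by `hart_integral_of_val` let `O ⊇ B` be a
valuation ring. It contains the prime field, so also `K` (`hK`; `hart_mem_of_integral`). By
`h.cover` there is `i'` with `A i' ⊆ O`. Some `s ∈ W j` has `s * d i' j ^ m` a unit of `A i'`, and
`(l j * d i' j ^ m)⁻¹ = (s / l j) * (s * d i' j ^ m)⁻¹ ∈ O`, and `l j * d i' j ^ m ∈ A i' ⊆ O`; the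
same for `l' j`; so `g j * d i' j` and its inverse are in `O`, and
`F = (f * eq i' u) * ∏ (g j * d i' j) ^ (- u j) ∈ O`.
(2) By `prj_int` and `prj_mul` `prj f * ∏ (g j)⁻¹ ^ u j = prj F` is integral over `B`, so over `A i`,
so it is in `A i` (`h.closed`), and `prj f * eq i u` is its product with the unit
`∏ (g j * d i j) ^ u j` of `A i`. -/
theorem Atl.Good.prj_V {p : ℕ} [Fact p.Prime] [CharP L p] [Algebra (ZMod p) L] (h : X.Good m)
    {M : Subfield L} [FiniteDimensional M L] (h0 : (Module.finrank M L : M) ≠ 0)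
    (hK : ∀ x ∈ K, IsAlgebraic (ZMod p) x) {W W' : I → Finset L}
    (hW : X.Gen m W) (hW' : X.Gen (m + 1) W') (hWM : ∀ j, ∀ s ∈ W j, s ∈ M)
    (hWM' : ∀ j, ∀ s ∈ W' j, s ∈ M) {u : I → ℤ} {f : L} (hf : f ∈ X.V u) : prj M f ∈ X.V u := by
  classical
  intro i
  choose l hlW hlU using fun j => hW.2 i j
  choose l' hlW' hlU' using fun j => hW'.2 i j
  have hl0 : ∀ j, l j ≠ 0 := fun j h0 => (hlU j).1 (by rw [h0, zero_mul])
  have hl0' : ∀ j, l' j ≠ 0 := fun j h0 => (hlU' j).1 (by rw [h0, zero_mul])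
  have hsec : ∀ i j, ∀ s ∈ W j, s * X.d i j ^ m ∈ X.A i := by
    intro i j s hs
    have h1 := hW.1 j s hs i
    rwa [hart_eq_e] at h1
  have hsec' : ∀ i j, ∀ s ∈ W' j, s * X.d i j ^ (m + 1) ∈ X.A i := by
    intro i j s hs
    have h1 := hW'.1 j s hs i
    rwa [hart_eq_e] at h1
  set g : I → L := fun j => l' j / l j with hgdef
  have hg0 : ∀ j, g j ≠ 0 := fun j => div_ne_zero (hl0' j) (hl0 j)
  have hgM : ∀ j, g j ∈ M := fun j =>
    M.div_mem (hWM' j _ (hlW' j)) (hWM j _ (hlW j))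
  -- the ring `B`
  obtain ⟨G, hG⟩ : ∃ G : Set L, G = {y | (∃ j, ∃ s ∈ W j, y = s / l j) ∨
      ∃ j, ∃ s ∈ W' j, y = s / l' j} := ⟨_, rfl⟩
  obtain ⟨B, hB⟩ : ∃ B : Subring L, B = Subring.closure G := ⟨_, rfl⟩
  have hBG : ∀ y ∈ G, y ∈ B := by
    intro y hy
    rw [hB]
    exact Subring.subset_closure hy
  have hBA : B ≤ X.A i := by
    rw [hB, Subring.closure_le, hG]
    rintro y (⟨j, s, hs, rfl⟩ | ⟨j, s, hs, rfl⟩)
    · have h1 : s / l j = (s * X.d i j ^ m) * (l j * X.d i j ^ m)⁻¹ := by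
        rw [← div_eq_mul_inv, mul_div_mul_right _ _ (pow_ne_zero _ (X.ne i j))]
      rw [h1]
      exact (X.A i).mul_mem (hsec i j s hs) (hlU j).2.2
    · have h1 : s / l' j = (s * X.d i j ^ (m + 1)) * (l' j * X.d i j ^ (m + 1))⁻¹ := by
        rw [← div_eq_mul_inv, mul_div_mul_right _ _ (pow_ne_zero _ (X.ne i j))]
      rw [h1]
      exact (X.A i).mul_mem (hsec' i j s hs) (hlU' j).2.2
  have hBM : ∀ b ∈ B, b ∈ M := by
    have h1 : B ≤ M.toSubring := by
      rw [hB, Subring.closure_le, hG]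
      rintro y (⟨j, s, hs, rfl⟩ | ⟨j, s, hs, rfl⟩)
      · exact M.div_mem (hWM j _ hs) (hWM j _ (hlW j))
      · exact M.div_mem (hWM' j _ hs) (hWM' j _ (hlW' j))
    exact h1
  have hgd : ∀ i' j, g j * X.d i' j = (l' j * X.d i' j ^ (m + 1)) * (l j * X.d i' j ^ m)⁻¹ := by
    intro i' j
    have := hl0 j
    have := X.ne i' j
    rw [hgdef]
    field_simp
    ring
  have hgd' : ∀ i' j, (g j * X.d i' j)⁻¹ =
      (l j * X.d i' j ^ m) * (l' j * X.d i' j ^ (m + 1))⁻¹ := by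
    intro i' j
    rw [hgd, mul_inv, inv_inv, mul_comm]
  -- `(1)`
  have hF : IsIntegral B ((∏ j, g j ^ u j)⁻¹ * f) := by
    refine hart_integral_of_val fun O hO => ?_
    obtain ⟨i', hi'⟩ := h.cover O fun x hx => prjv_prime_mem O (hK x hx)
    have h1 : ∀ j, (l j * X.d i' j ^ m)⁻¹ ∈ O := by
      intro j
      obtain ⟨s, hs, hsU⟩ := hW.2 i' j
      have hs0 : s ≠ 0 := fun h0 => hsU.1 (by rw [h0, zero_mul])
      have h2 : (l j * X.d i' j ^ m)⁻¹ = (s / l j) * (s * X.d i' j ^ m)⁻¹ := by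
        have := hl0 j
        have := pow_ne_zero m (X.ne i' j)
        field_simp
      rw [h2]
      refine O.mul_mem _ _ (hO _ (hBG _ ?_)) (hi' _ hsU.2.2)
      rw [hG]
      exact Or.inl ⟨j, s, hs, rfl⟩
    have h1' : ∀ j, (l' j * X.d i' j ^ (m + 1))⁻¹ ∈ O := by
      intro j
      obtain ⟨s, hs, hsU⟩ := hW'.2 i' j
      have hs0 : s ≠ 0 := fun h0 => hsU.1 (by rw [h0, zero_mul])
      have h2 : (l' j * X.d i' j ^ (m + 1))⁻¹ = (s / l' j) * (s * X.d i' j ^ (m + 1))⁻¹ := by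
        have := hl0' j
        have := pow_ne_zero (m + 1) (X.ne i' j)
        field_simp
      rw [h2]
      refine O.mul_mem _ _ (hO _ (hBG _ ?_)) (hi' _ hsU.2.2)
      rw [hG]
      exact Or.inr ⟨j, s, hs, rfl⟩
    have h2 : ∀ j, g j * X.d i' j ∈ O := by
      intro j
      rw [hgd]
      exact O.mul_mem _ _ (hi' _ (hsec' i' j _ (hlW' j))) (h1 j)
    have h2' : ∀ j, (g j * X.d i' j)⁻¹ ∈ O := by
      intro j
      rw [hgd']
      exact O.mul_mem _ _ (hi' _ (hsec i' j _ (hlW j))) (h1' j)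
    have h3 : (∏ j, (g j * X.d i' j) ^ u j) ≠ 0 :=
      Finset.prod_ne_zero_iff.2 fun j _ => zpow_ne_zero _ (mul_ne_zero (hg0 j) (X.ne i' j))
    have h4 : (∏ j, g j ^ u j)⁻¹ * f = (f * X.eq i' u) * (∏ j, (g j * X.d i' j) ^ u j)⁻¹ := by
      rw [prjv_key i' u hg0 f, mul_assoc, mul_inv_cancel₀ h3, mul_one]
    rw [h4]
    refine O.mul_mem _ _ (hi' _ (hf i')) ?_
    rw [← Finset.prod_inv_distrib]
    refine hart_prod_mem O _ _ fun j _ => ?_
    rw [← zpow_neg]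
    exact hart_zpow_mem O (h2 j) (h2' j) _
  -- `(2)`
  have hc : (∏ j, g j ^ u j)⁻¹ ∈ M :=
    M.inv_mem (M.prod_mem fun j _ => M.zpow_mem (hgM j) _)
  have hP := Pool.Agent.Lib.MP_732f67_ag.KC.prj_int (p := p) M h0 hBM hF
  rw [Pool.Agent.Lib.MP_732f67_ag.KC.prj_mul M hc] at hP
  have hPA : (∏ j, g j ^ u j)⁻¹ * prj M f ∈ X.A i := by
    refine h.closed i _ ?_
    exact IsIntegral.map_of_comp_eq (Subring.inclusion hBA) (RingHom.id L) (by
      ext y
      rfl) hP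
  rw [prjv_key i u hg0]
  refine (X.A i).mul_mem hPA ((X.A i).prod_mem fun j _ => ?_)
  refine prjv_zpow_mem _ ?_ ?_ _
  · rw [hgd]
    exact (X.A i).mul_mem (hlU' j).2.1 (hlU j).2.2
  · rw [hgd']
    exact (X.A i).mul_mem (hlU j).2.1 (hlU' j).2.2

end KM
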