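import Pool.Agent.Lib.MP_732f67_ag.KM.RatF
import Pool.Agent.Lib.MP_732f67_ag.KM.Dec

/-! KM part A, file 4: ranks (F2).

`alg_union`: let `y ∈ V u`, `u ∈ Nn S'`, `m = m₀`, `0 ≠ x_j ∈ V (e j m)` for `j ∈ S'`.  For `k` in `ℕ ^ S'`
put `x ^ k = ∏ x_j ^ (k j)`.  By `reg` the quotients `v / x ^ k`, `v ∈ V (m k)`, `k` arbitrary, lie in the
`F`-span `D` of the quotients `w / x ^ k₀`, `w ∈ V (m k₀)`, for one fixed `k₀`, where `F` is the field
generated by `K` and the `Rat V {j}`.  So all powers of `y ^ m / x ^ u` lie in the finite dimensional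
space `D`: it is algebraic over `F`; so is `(g / h) ^ m` for `g, h ∈ V u`.
-/

namespace KM

variable {L I : Type*} [Field L] [DecidableEq I] {K : Subfield L}
  {V : (I → ℤ) → Submodule K L} {S : Finset I} {m₀ : ℕ}

namespace RankAux

/-- the vector `m k` restricted to `S'` -/
def tv (S' : Finset I) (m : ℕ) (k : I → ℕ) : I → ℤ := fun i => if i ∈ S' then ((m * k i : ℕ) : ℤ) else 0

/-- the monomial `x ^ k` -/
def xp (S' : Finset I) (x : I → L) (k : I → ℕ) : L := ∏ i ∈ S', x i ^ k i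

theorem tv_mem (S' : Finset I) (m : ℕ) (k : I → ℕ) : tv S' m k ∈ Nn S' := by
  constructor
  · intro i
    unfold tv
    split_ifs
    · exact Int.natCast_nonneg _
    · exact le_rfl
  · intro i hi
    exact if_neg hi

theorem Nn_Zs {S' : Finset I} (hS : S' ⊆ S) {u : I → ℤ} (hu : u ∈ Nn S') : u ∈ Zs S :=
  fun i hi => hu.2 i fun h => hi (hS h)

theorem Nn_Nn {S' : Finset I} (hS : S' ⊆ S) {u : I → ℤ} (hu : u ∈ Nn S') : u ∈ Nn S :=
  ⟨hu.1, fun i hi => hu.2 i fun h => hi (hS h)⟩

theorem e_Zs {i : I} (hi : i ∈ S) (m : ℤ) : e i m ∈ Zs S := by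
  intro j hj
  have : j ≠ i := fun h => hj (h ▸ hi)
  rw [e, Pi.single_eq_of_ne this]

theorem e_Nn {i : I} (m : ℕ) : e i (m : ℤ) ∈ Nn {i} := by
  constructor
  · intro j
    by_cases h : j = i
    · subst h
      rw [e, Pi.single_eq_same]
      exact Int.natCast_nonneg _
    · rw [e, Pi.single_eq_of_ne h]
  · intro j hj
    rw [Finset.mem_singleton] at hj
    exact Pi.single_eq_of_ne hj _

theorem tv_add (S' : Finset I) (m : ℕ) (k l : I → ℕ) : tv S' m (k + l) = tv S' m k + tv S' m l := by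
  funext i
  simp only [tv, Pi.add_apply]
  split_ifs
  · push_cast; ring
  · simp

theorem tv_smul (S' : Finset I) (m n : ℕ) (k : I → ℕ) : tv S' m (n • k) = n • tv S' m k := by
  funext i
  simp only [tv, Pi.smul_apply, smul_eq_mul]
  split_ifs
  · rw [nsmul_eq_mul]; push_cast; ring
  · simp

theorem tv_eq_sum (S' : Finset I) (m : ℕ) (k : I → ℕ) :
    tv S' m k = ∑ i ∈ S', k i • e i (m : ℤ) := by
  funext j
  rw [Finset.sum_apply]
  simp only [tv, Pi.smul_apply]
  split_ifs with hj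
  · rw [Finset.sum_eq_single_of_mem j hj]
    · rw [e, Pi.single_eq_same, nsmul_eq_mul]; push_cast; ring
    · intro i _ hij
      rw [e, Pi.single_eq_of_ne (Ne.symm hij), smul_zero]
  · symm
    refine Finset.sum_eq_zero fun i hi => ?_
    have : j ≠ i := fun h => hj (h ▸ hi)
    rw [e, Pi.single_eq_of_ne this, smul_zero]

theorem xp_add (S' : Finset I) (x : I → L) (k l : I → ℕ) :
    xp S' x (k + l) = xp S' x k * xp S' x l := by
  rw [xp, xp, xp, ← Finset.prod_mul_distrib]
  exact Finset.prod_congr rfl fun i _ => pow_add _ _ _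

theorem xp_smul (S' : Finset I) (x : I → L) (n : ℕ) (k : I → ℕ) :
    xp S' x (n • k) = xp S' x k ^ n := by
  rw [xp, xp, ← Finset.prod_pow]
  refine Finset.prod_congr rfl fun i _ => ?_
  rw [Pi.smul_apply, smul_eq_mul, mul_comm, pow_mul]

theorem xp_ne {S' : Finset I} {x : I → L} (hx : ∀ i ∈ S', x i ≠ 0) (k : I → ℕ) : xp S' x k ≠ 0 :=
  Finset.prod_ne_zero_iff.2 fun i hi => pow_ne_zero _ (hx i hi)

theorem xp_mem (h : Sys K V S m₀) {S' : Finset I} (hS : S' ⊆ S) {m : ℕ} {x : I → L}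
    (hx : ∀ i ∈ S', x i ∈ V (e i m)) (k : I → ℕ) : xp S' x k ∈ V (tv S' m k) := by
  rw [tv_eq_sum]
  refine h.prod_mem S' _ _ ?_ ?_
  · intro i hi j hj
    rw [Pi.smul_apply, e_Zs (hS hi) (m : ℤ) j hj, smul_zero]
  · intro i hi
    exact h.pow_mem (e_Zs (hS hi) _) (hx i hi) _

/-- the field generated by `K` and the ratios -/
abbrev FF' (K : Subfield L) (V : (I → ℤ) → Submodule K L) (S' : Finset I) : Subfield L :=
  Subfield.closure ((K : Set L) ∪ ⋃ i ∈ S', Rat V {i})

/-- the finite dimensional space -/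
def DD (K : Subfield L) (V : (I → ℤ) → Submodule K L) (S' : Finset I) (m : ℕ) (x : I → L)
    (k₀ : I → ℕ) : Submodule (FF' K V S') L :=
  Submodule.span (FF' K V S') {z | ∃ w ∈ V (tv S' m k₀), z = w / xp S' x k₀}

theorem DD_fg (h : Sys K V S m₀) {S' : Finset I} (hS : S' ⊆ S) (m : ℕ) (x : I → L)
    (k₀ : I → ℕ) : (DD K V S' m x k₀).FG := by
  classical
  obtain ⟨s, hs⟩ := h.fg (tv S' m k₀) (Nn_Zs hS (tv_mem S' m k₀))
  refine ⟨s.image fun w => w / xp S' x k₀, ?_⟩
  apply le_antisymm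
  · rw [Submodule.span_le]
    intro z hz
    rw [Finset.coe_image] at hz
    obtain ⟨w, hw, rfl⟩ := hz
    refine Submodule.subset_span ⟨w, ?_, rfl⟩
    rw [← hs]
    exact Submodule.subset_span hw
  · unfold DD
    rw [Submodule.span_le]
    rintro z ⟨w, hw, rfl⟩
    rw [← hs] at hw
    rw [SetLike.mem_coe]
    induction hw using Submodule.span_induction with
    | mem w hw =>
      refine Submodule.subset_span ?_
      rw [Finset.coe_image]
      exact ⟨w, hw, rfl⟩
    | zero => rw [zero_div]; exact Submodule.zero_mem _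
    | add a b _ _ ha hb => rw [add_div]; exact Submodule.add_mem _ ha hb
    | smul c a _ ha =>
      have hc : (c : L) ∈ FF' K V S' := Subfield.subset_closure (Or.inl c.2)
      have h1 : (c • a) / xp S' x k₀ = (⟨(c : L), hc⟩ : FF' K V S') • (a / xp S' x k₀) := by
        rw [Subfield.smul_def, Subfield.smul_def, smul_eq_mul, smul_eq_mul, mul_div_assoc]
      rw [h1]
      exact Submodule.smul_mem _ _ ha

theorem mem_DD_aux (h : Sys K V S m₀) {S' : Finset I} (hS : S' ⊆ S) {m : ℕ} (hm : 0 < m) {x : I → L}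
    (hx : ∀ i ∈ S', x i ∈ V (e i m)) (hx0 : ∀ i ∈ S', x i ≠ 0) {C : I → ℕ}
    (hC : ∀ i ∈ S', ∀ v ∈ Nn S, (C i : ℤ) ≤ v i → V (v + e i m) ≤ V v * V (e i m)) :
    ∀ (N : ℕ) (k : I → ℕ), (∀ i ∈ S', C i ≤ k i) → ∑ i ∈ S', (k i - C i) = N →
      ∀ v ∈ V (tv S' m k), v / xp S' x k ∈ DD K V S' m x C := by
  intro N
  induction N with
  | zero =>
    intro k hk hN v hv
    have hkC : ∀ i ∈ S', k i = C i := by
      intro i hi
      have := (Finset.sum_eq_zero_iff.1 hN) i hi
      have := hk i hi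
      omega
    have h1 : tv S' m k = tv S' m C := by
      funext i
      simp only [tv]
      split_ifs with hi
      · rw [hkC i hi]
      · rfl
    have h2 : xp S' x k = xp S' x C := Finset.prod_congr rfl fun i hi => by rw [hkC i hi]
    rw [h1] at hv
    rw [h2]
    exact Submodule.subset_span ⟨v, hv, rfl⟩
  | succ N ih =>
    intro k hk hN v hv
    obtain ⟨i, hi, hki⟩ : ∃ i ∈ S', C i < k i := by
      by_contra hcon
      push Not at hcon
      have : ∑ i ∈ S', (k i - C i) = 0 := Finset.sum_eq_zero fun i hi => by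
        have := hcon i hi
        omega
      omega
    let k' : I → ℕ := Function.update k i (k i - 1)
    have hk'i : k' i = k i - 1 := Function.update_self _ _ _
    have hk'j : ∀ j, j ≠ i → k' j = k j := fun j hj => Function.update_of_ne hj _ _
    have hkk : k = k' + Pi.single i 1 := by
      funext j
      by_cases hj : j = i
      · subst hj
        rw [Pi.add_apply, hk'i, Pi.single_eq_same]
        omega
      · rw [Pi.add_apply, hk'j j hj, Pi.single_eq_of_ne hj, add_zero]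
    have htv1 : tv S' m (Pi.single i 1) = e i (m : ℤ) := by
      rw [tv_eq_sum, Finset.sum_eq_single_of_mem i hi]
      · rw [Pi.single_eq_same, one_smul]
      · intro j _ hj
        rw [Pi.single_eq_of_ne hj, zero_smul]
    have hxp1 : xp S' x (Pi.single i 1) = x i := by
      rw [xp, Finset.prod_eq_single_of_mem i hi]
      · rw [Pi.single_eq_same, pow_one]
      · intro j _ hj
        rw [Pi.single_eq_of_ne hj, pow_zero]
    have htv : tv S' m k = tv S' m k' + e i (m : ℤ) := by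
      conv_lhs => rw [hkk]
      rw [tv_add, htv1]
    have hxp : xp S' x k = xp S' x k' * x i := by
      conv_lhs => rw [hkk]
      rw [xp_add, hxp1]
    have hk' : ∀ j ∈ S', C j ≤ k' j := by
      intro j hj
      by_cases hji : j = i
      · subst hji
        rw [hk'i]
        omega
      · rw [hk'j j hji]
        exact hk j hj
    have hN' : ∑ j ∈ S', (k' j - C j) = N := by
      rw [← Finset.add_sum_erase _ _ hi] at hN ⊢
      have h1 : ∑ j ∈ S'.erase i, (k' j - C j) = ∑ j ∈ S'.erase i, (k j - C j) :=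
        Finset.sum_congr rfl fun j hj => by rw [hk'j j (Finset.ne_of_mem_erase hj)]
      rw [h1, hk'i]
      omega
    rw [htv] at hv
    have hv' := hC i hi (tv S' m k') (Nn_Nn hS (tv_mem S' m k')) (by
      simp only [tv, if_pos hi]
      have := hk' i hi
      have h2 : C i ≤ m * k' i := le_trans this (Nat.le_mul_of_pos_left _ hm)
      exact_mod_cast h2) hv
    rw [hxp]
    clear hv
    induction hv' using Submodule.mul_induction_on' with
    | mem_mul_mem a ha b hb =>
      have h1 := ih k' hk' hN' a ha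
      have h2 : b / x i ∈ FF' K V S' := by
        refine Subfield.subset_closure (Or.inr ?_)
        rw [Set.mem_iUnion₂]
        exact ⟨i, hi, e i (m : ℤ), e_Nn m, b, hb, x i, hx i hi, hx0 i hi, rfl⟩
      have h3 : a * b / (xp S' x k' * x i) = (⟨b / x i, h2⟩ : FF' K V S') • (a / xp S' x k') := by
        rw [Subfield.smul_def, smul_eq_mul, mul_comm a b, mul_comm (xp S' x k') (x i),
          mul_div_mul_comm]
      rw [h3]
      exact Submodule.smul_mem _ _ h1
    | add a _ b _ ha hb => rw [add_div]; exact Submodule.add_mem _ ha hb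

theorem mem_DD (h : Sys K V S m₀) {S' : Finset I} (hS : S' ⊆ S) {m : ℕ} (hm : 0 < m) {x : I → L}
    (hx : ∀ i ∈ S', x i ∈ V (e i m)) (hx0 : ∀ i ∈ S', x i ≠ 0) {C : I → ℕ}
    (hC : ∀ i ∈ S', ∀ v ∈ Nn S, (C i : ℤ) ≤ v i → V (v + e i m) ≤ V v * V (e i m))
    (k : I → ℕ) {v : L} (hv : v ∈ V (tv S' m k)) : v / xp S' x k ∈ DD K V S' m x C := by
  have h1 := mem_DD_aux h hS hm hx hx0 hC _ (k + C) (fun i _ => by
    rw [Pi.add_apply]
    omega) rfl (v * xp S' x C) (by
      rw [tv_add]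
      exact h.mul _ (Nn_Zs hS (tv_mem _ _ _)) _ (Nn_Zs hS (tv_mem _ _ _)) _ hv _
        (xp_mem h hS hx C))
  rwa [xp_add, mul_div_mul_right _ _ (xp_ne hx0 C)] at h1

/-- an element whose powers lie in a finite dimensional space is algebraic -/
theorem alg_of_pow {F : Subfield L} {D : Submodule F L} (hD : D.FG) {z : L}
    (hz : ∀ n : ℕ, z ^ n ∈ D) : IsAlgebraic F z := by
  have h1 : Subalgebra.toSubmodule (Algebra.adjoin F {z}) ≤ D := by
    rw [Algebra.adjoin_eq_span, Submodule.span_le]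
    intro w hw
    obtain ⟨n, rfl⟩ := Submonoid.mem_closure_singleton.1 hw
    exact hz n
  have h2 : (Subalgebra.toSubmodule (Algebra.adjoin F {z})).FG := by
    have : Module.Finite F D := Module.Finite.iff_fg.2 hD
    have : IsNoetherian F D := inferInstance
    exact Submodule.FG.of_le hD h1
  exact (IsIntegral.of_mem_of_fg _ h2 z (Algebra.subset_adjoin (Set.mem_singleton z))).isAlgebraic

theorem alg_pow (h : Sys K V S m₀) {S' : Finset I} (hS : S' ⊆ S) {m : ℕ} (hm : 0 < m) {x : I → L}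
    (hx : ∀ i ∈ S', x i ∈ V (e i m)) (hx0 : ∀ i ∈ S', x i ≠ 0) {C : I → ℕ}
    (hC : ∀ i ∈ S', ∀ v ∈ Nn S, (C i : ℤ) ≤ v i → V (v + e i m) ≤ V v * V (e i m))
    {u : I → ℤ} (hu : u ∈ Nn S') {y : L} (hy : y ∈ V u) :
    IsAlgebraic (FF' K V S') (y ^ m / xp S' x fun i => (u i).toNat) := by
  refine alg_of_pow (DD_fg h hS m x C) fun n => ?_
  rw [div_pow, ← pow_mul, ← xp_smul]
  refine mem_DD h hS hm hx hx0 hC _ ?_
  have h1 : tv S' m (n • fun i => (u i).toNat) = (m * n) • u := by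
    funext i
    simp only [tv, Pi.smul_apply, smul_eq_mul]
    split_ifs with hi
    · rw [nsmul_eq_mul]
      push_cast
      rw [Int.toNat_of_nonneg (hu.1 i)]
      ring
    · rw [hu.2 i hi, smul_zero]
  rw [h1]
  exact h.pow_mem (Nn_Zs hS hu) hy _

end RankAux

open RankAux in
theorem Sys.alg_union (h : Sys K V S m₀) {S' : Finset I} (hS : S' ⊆ S) {x : L}
    (hx : x ∈ Rat V S') :
    IsAlgebraic (Subfield.closure ((K : Set L) ∪ ⋃ i ∈ S', Rat V {i})) x := by
  classical
  obtain ⟨u, hu, g, hg, w, hw, hw0, rfl⟩ := hx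
  have hex : ∀ i : I, ∃ z : L, i ∈ S' → z ∈ V (e i m₀) ∧ z ≠ 0 := by
    intro i
    by_cases hi : i ∈ S'
    · obtain ⟨z, hz, hz0⟩ := h.exists_ne_single (hS hi) le_rfl
      exact ⟨z, fun _ => ⟨hz, hz0⟩⟩
    · exact ⟨0, fun h => absurd h hi⟩
  choose z hz using hex
  have hexC : ∀ i : I, ∃ C : ℕ, i ∈ S' → ∀ v ∈ Nn S, (C : ℤ) ≤ v i →
      V (v + e i m₀) ≤ V v * V (e i m₀) := by
    intro i
    by_cases hi : i ∈ S'
    · obtain ⟨C, hC⟩ := h.reg m₀ le_rfl i (hS hi)
      exact ⟨C, fun _ => hC⟩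
    · exact ⟨0, fun h => absurd h hi⟩
  choose C hC using hexC
  have hz1 : ∀ i ∈ S', z i ∈ V (e i m₀) := fun i hi => (hz i hi).1
  have hz2 : ∀ i ∈ S', z i ≠ 0 := fun i hi => (hz i hi).2
  have h1 := alg_pow h hS h.pos hz1 hz2 hC hu hg
  have h2 := alg_pow h hS h.pos hz1 hz2 hC hu hw
  have h3 := h1.mul h2.inv
  have hne := xp_ne hz2 (fun i => (u i).toNat)
  have h4 : (g ^ m₀ / xp S' z fun i => (u i).toNat) * (w ^ m₀ / xp S' z fun i => (u i).toNat)⁻¹ =
      (g / w) ^ m₀ := by
    rw [div_pow, inv_div, div_mul_div_comm, mul_comm (xp S' z fun i => (u i).toNat) (w ^ m₀),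
      mul_div_mul_right _ _ hne]
  rw [h4] at h3
  exact IsAlgebraic.of_pow h.pos h3

end KM
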