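import Pool.Agent.Lib.MP_732f67_ag.KM.Dec

/-! KM part A, file 6: (A5) for a smaller index set (F3).

`Split.mono`: let `u ∈ Nn S'`, `c ∈ V u`, and `N`, `T`, `ψ`, `x ∈ V (T - u)` as in (A5) for `S`; as
`a i > 0` the vector `T - u` is in `Nn S` for large `N` (`p ≥ 2`).  `dec` for `T - u` and `S'` gives
`T' ∈ Nn S'` and `x = ∑ x_k * y_k` with `x_k ∈ V T'`, `y_k ∈ V (T - u - T')`.  Each `ψ (c * x_k * y_k)`
is in `V 0 = K`, the sum is `1`, so one of them is `κ ≠ 0`.  New data: `T' + u`,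
`ψ' y = κ⁻¹ * ψ (y_k * y)`, `x_k` (note `T' + u ≤ T`).
`Split.mono_dvd`: in the case `u = 0`, `c = 1` one gets in addition `m ∣ T' i`. -/

namespace KM

variable {L I : Type*} [Field L] [DecidableEq I] {K : Subfield L}
  {V : (I → ℤ) → Submodule K L} {S : Finset I} {m₀ : ℕ} {p : ℕ} {a : I → ℝ}

theorem IsInv.zero' {Q : ℕ} {ψ : L → L} (h : IsInv Q ψ) : ψ 0 = 0 := by
  have h1 := h.add 0 0
  rw [add_zero] at h1
  simpa using h1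

omit [DecidableEq I] in
theorem exists_large (hp : 2 ≤ p) (ha : ∀ i ∈ S, 0 < a i) (C : ℝ) (u : I → ℤ) :
    ∃ N₁ : ℕ, ∀ N ≥ N₁, ∀ i ∈ S, (u i : ℝ) ≤ ((p : ℝ) ^ N - 1) * a i - C := by
  have hone : (1 : ℝ) < p := by exact_mod_cast (by omega : 1 < p)
  have hk : ∀ i ∈ S, ∃ N₁ : ℕ, ∀ N ≥ N₁, (u i : ℝ) ≤ ((p : ℝ) ^ N - 1) * a i - C := by
    intro i hi
    obtain ⟨N₁, hN₁⟩ := pow_unbounded_of_one_lt (((u i : ℝ) + C) / a i + 1) hone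
    refine ⟨N₁, fun N hN => ?_⟩
    have h1 : (p : ℝ) ^ N₁ ≤ (p : ℝ) ^ N := pow_le_pow_right₀ hone.le hN
    have h2 : ((u i : ℝ) + C) / a i ≤ (p : ℝ) ^ N - 1 := by linarith
    have h3 := (div_le_iff₀ (ha i hi)).1 h2
    linarith
  choose! n hn using hk
  exact ⟨S.sup n, fun N hN i hi => hn i hi N ((Finset.le_sup hi).trans hN)⟩

theorem Split.mono_aux (hs : Split p V S a) (h : Sys K V S m₀) (hp : 2 ≤ p)
    (ha : ∀ i ∈ S, 0 < a i) {S' : Finset I} (hS : S' ⊆ S) {m : ℕ} (hm : m₀ ≤ m)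
    {u : I → ℤ} (hu : u ∈ Nn S') {c : L} (hc : c ∈ V u) (hc0 : c ≠ 0) :
    ∃ C : ℝ, ∀ N₀ : ℕ, ∃ N ≥ N₀, ∃ T ∈ Nn S', (∀ i, (m : ℤ) ∣ T i) ∧
      (∀ i ∈ S', ((p : ℝ) ^ N - 1) * a i - C ≤ (T + u) i ∧
        ((T + u) i : ℝ) ≤ ((p : ℝ) ^ N - 1) * a i) ∧
      ∃ ψ : L → L, IsInv (p ^ N) ψ ∧
        (∀ t ∈ Zs S', ∀ y ∈ V ((p ^ N : ℤ) • t + (T + u)), ψ y ∈ V t) ∧
        ∃ x ∈ V T, ψ (c * x) = 1 := by
  obtain ⟨C, hC⟩ := hs u (Nn_mono hS hu) c hc hc0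
  obtain ⟨C', hC'⟩ := h.dec hm
  obtain ⟨N₁, hN₁⟩ := exists_large (S := S) hp ha C u
  refine ⟨C + C', fun N₀ => ?_⟩
  obtain ⟨N, hN, T, hT, hb, ψ, hψ, hψV, x, hx, hx1⟩ := hC (max N₀ N₁)
  have hTu : T - u ∈ Nn S := by
    refine ⟨fun i => ?_, fun i hi => ?_⟩
    · by_cases hi : i ∈ S
      · have h1 := hN₁ N ((le_max_right _ _).trans hN) i hi
        have h2 := (hb i hi).1
        have h3 : (u i : ℝ) ≤ T i := h1.trans h2
        have h4 : u i ≤ T i := by exact_mod_cast h3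
        simpa using h4
      · simp [hT.2 i hi, (Nn_mono hS hu).2 i hi]
    · simp [hT.2 i hi, (Nn_mono hS hu).2 i hi]
  obtain ⟨T', hT', hb', hTT, hle⟩ := hC' S' hS (T - u) hTu
  have hex : ∃ x' ∈ V T', ∃ y' ∈ V (T - u - T'), ψ (c * (x' * y')) ≠ 0 := by
    by_contra hcon
    push Not at hcon
    have h0 : ψ (c * x) = 0 := by
      refine Submodule.mul_induction_on (hle hx) (fun m hm n hn => hcon m hm n hn) ?_
      intro x y hx hy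
      rw [mul_add, hψ.add, hx, hy, add_zero]
    rw [h0] at hx1
    exact zero_ne_one hx1
  obtain ⟨x', hx', y', hy', hne⟩ := hex
  have hT'S : T' ∈ Zs S := Zs_mono hS hT'.2
  have huS : u ∈ Zs S := (Nn_mono hS hu).2
  have hκ : ψ (c * (x' * y')) ∈ K := by
    rw [← h.zero]
    refine hψV 0 Zs_zero _ ?_
    have h1 := h.mul _ hT'S _ hTT.2 x' hx' y' hy'
    have h2 := h.mul _ huS _ (Zs_add hT'S hTT.2) c hc _ h1
    have he : u + (T' + (T - u - T')) = (p ^ N : ℤ) • (0 : I → ℤ) + T := by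
      rw [smul_zero, zero_add]; abel
    rwa [he] at h2
  set κ := ψ (c * (x' * y')) with hκd
  refine ⟨N, (le_max_left _ _).trans hN, T', hT', fun i => ?_, fun i hi => ?_,
    fun y => κ⁻¹ * ψ (y' * y), ⟨fun a b => ?_, fun a b => ?_⟩, fun t ht y hy => ?_, x', hx', ?_⟩
  · by_cases hi : i ∈ S'
    · exact (hb' i hi).2.2
    · rw [hT'.2 i hi]; exact dvd_zero _
  · have h1 := (hb i (hS hi)).1
    have h2 := (hb i (hS hi)).2
    have h3 := (hb' i hi).1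
    have h4 := (hb' i hi).2.1
    simp only [Pi.sub_apply] at h3 h4
    have h5 : (T i : ℝ) - u i - C' ≤ T' i := by exact_mod_cast h3
    have h6 : (T' i : ℝ) ≤ T i - u i := by exact_mod_cast h4
    simp only [Pi.add_apply, Int.cast_add]
    constructor <;> linarith
  · simp only [mul_add, hψ.add]
  · rw [show y' * (a ^ p ^ N * b) = a ^ p ^ N * (y' * b) by ring, hψ.lin]
    ring
  · have h1 : y' * y ∈ V ((p ^ N : ℤ) • t + T) := by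
      have h2 := h.mul _ hTT.2 _ (Zs_add (fun i hi => by simp [Zs_mono hS ht i hi])
        (Zs_add hT'S huS) : (p ^ N : ℤ) • t + (T' + u) ∈ Zs S) y' hy' y hy
      have he : T - u - T' + ((p ^ N : ℤ) • t + (T' + u)) = (p ^ N : ℤ) • t + T := by abel
      rwa [he] at h2
    have h3 := hψV t (Zs_mono hS ht) _ h1
    exact (V t).smul_mem (⟨κ⁻¹, K.inv_mem hκ⟩ : K) h3
  · show κ⁻¹ * ψ (y' * (c * x')) = 1
    rw [show y' * (c * x') = c * (x' * y') by ring]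
    exact inv_mul_cancel₀ hne

theorem Split.mono (hs : Split p V S a) (h : Sys K V S m₀) (hp : 2 ≤ p) (ha : ∀ i ∈ S, 0 < a i)
    {S' : Finset I} (hS : S' ⊆ S) : Split p V S' a := by
  intro u hu c hc hc0
  obtain ⟨C, hC⟩ := hs.mono_aux h hp ha hS le_rfl hu hc hc0
  refine ⟨C, fun N₀ => ?_⟩
  obtain ⟨N, hN, T, hT, -, hb, ψ, hψ, hψV, x, hx, hx1⟩ := hC N₀
  exact ⟨N, hN, T + u, Nn_add hT hu, hb, ψ, hψ, hψV, x, by rwa [add_sub_cancel_right], hx1⟩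

theorem Split.mono_dvd (hs : Split p V S a) (h : Sys K V S m₀) (hp : 2 ≤ p)
    (ha : ∀ i ∈ S, 0 < a i) {S' : Finset I} (hS : S' ⊆ S) {m : ℕ} (hm : m₀ ≤ m) :
    ∃ C : ℝ, ∀ N₀ : ℕ, ∃ N ≥ N₀, ∃ T ∈ Nn S', (∀ i, (m : ℤ) ∣ T i) ∧
      (∀ i ∈ S', ((p : ℝ) ^ N - 1) * a i - C ≤ T i ∧ (T i : ℝ) ≤ ((p : ℝ) ^ N - 1) * a i) ∧
      ∃ ψ : L → L, IsInv (p ^ N) ψ ∧
        (∀ t ∈ Zs S', ∀ y ∈ V ((p ^ N : ℤ) • t + T), ψ y ∈ V t) ∧ ∃ x ∈ V T, ψ x = 1 := by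
  obtain ⟨C, hC⟩ := hs.mono_aux h hp ha hS hm Nn_zero h.one_mem one_ne_zero
  refine ⟨C, fun N₀ => ?_⟩
  obtain ⟨N, hN, T, hT, hd, hb, ψ, hψ, hψV, x, hx, hx1⟩ := hC N₀
  refine ⟨N, hN, T, hT, hd, ?_, ψ, hψ, ?_, x, hx, by rwa [one_mul] at hx1⟩
  · simpa only [add_zero] using hb
  · simpa only [add_zero] using hψV

end KM
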